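import Pool.Agent.MP_46aeaf_co.Mg.LS_Tools

-- part MP_46aeaf_co.LS.Place
section

set_option autoImplicit false
set_option linter.unusedSectionVars false
set_option linter.unusedVariables false

/-! Random placement of a family of edges with fixed and variable ends. -/

namespace Pool.Agent.MP_46aeaf_co.HT

open Finset Pool.Agent.MP_81e6aa_pr Real Filter

/-- edge `ι` goes from `a ι` in class `k ι` to `b ι`; an end is a variable or a fixed vertex -/
structure Pl (ι Var V : Type) where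
  act : ι → Prop
  k : ι → Fin 3
  a : ι → Var ⊕ V
  b : ι → Var ⊕ V
  cv : Var → Fin 3

namespace Pl

variable {ι Var V : Type} (E : Pl ι Var V)

def line (x : Var → V) (i : ι) : Ln V := arc (E.k i) (Sum.elim x id (E.a i)) (Sum.elim x id (E.b i))

structure Ok [Fintype ι] (Δ Λ N : ℝ) : Prop where
  ca : ∀ i y, E.act i → E.a i = Sum.inl y → E.cv y = E.k i
  cb : ∀ i y, E.act i → E.b i = Sum.inl y → E.cv y = E.k i + 1
  var : ∀ i, E.act i → (E.a i).isLeft ∨ (E.b i).isLeft
  dist : ∀ i i', E.act i → E.act i' → E.a i = E.a i' → E.b i = E.b i' → i = i'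
  dΔ : ∀ y, ct (fun i => E.act i ∧ (E.a i = Sum.inl y ∨ E.b i = Sum.inl y)) ≤ Δ
  dΛ : ∀ v, ct (fun i => E.act i ∧ (E.a i = Sum.inr v ∨ E.b i = Sum.inr v)) ≤ Λ
  dN : ct E.act ≤ N

variable {E} [Fintype ι] [Fintype Var] [DecidableEq Var] [Fintype V] [Nonempty V] {Δ Λ N : ℝ}

/-- resampling one variable -/
lemma place_res (y : Var) (P : (Var → V) → Prop) {c : ℝ}
    (h : ∀ x, ct (fun v => P (Function.update x y v)) ≤ c * Fintype.card V) :
    Ex (fun _ : Var => unif V) (fun x => ind (P x)) ≤ c := by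
  have hw := (pm_unif V).isP Var
  have hn : (0 : ℝ) < Fintype.card V := by exact_mod_cast Fintype.card_pos
  rw [Ex_splice hw (fun i => i ≠ y)]
  refine Ex_le hw fun x => ?_
  have e : ∀ x' : Var → V, splice (fun i => i ≠ y) x x' = Function.update x y (x' y) := fun x' => by
    funext i
    by_cases hi : i = y
    · subst hi; simp [splice]
    · simp [splice, hi]
  have e2 := Ex_all (fun _ : Var => unif V) hw {y} fun _ v => ind (P (Function.update x y v))
  simp only [prod_singleton] at e2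
  simp only [e]
  rw [e2]
  simp only [unif]
  rw [← mul_sum, inv_mul_le_iff₀ hn, mul_comm]
  exact h x

omit [Fintype Var] [Fintype V] [Nonempty V] in
lemma place_upd {y : Var} {z : Var ⊕ V} (hz : z ≠ Sum.inl y) (x : Var → V) (v : V) :
    Sum.elim (Function.update x y v) id z = Sum.elim x id z := by
  cases z with
  | inl y' => simp [Function.update_of_ne (fun h : y' = y => hz (h ▸ rfl))]
  | inr u => rfl

lemma place_eq {z z' : Var ⊕ V} (hz : z ≠ z') :
    Ex (fun _ : Var => unif V) (fun x => ind (Sum.elim x id z = Sum.elim x id z')) ≤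
      (Fintype.card V : ℝ)⁻¹ := by
  have hn : (0 : ℝ) < Fintype.card V := by exact_mod_cast Fintype.card_pos
  have key : ∀ (y : Var) (z : Var ⊕ V), z ≠ Sum.inl y →
      Ex (fun _ : Var => unif V) (fun x => ind (x y = Sum.elim x id z)) ≤
        (Fintype.card V : ℝ)⁻¹ := fun y z hz => by
    refine place_res y _ fun x => ?_
    simp only [place_upd hz, Function.update_self]
    rw [ct_eq, inv_mul_cancel₀ hn.ne']
  cases z with
  | inl y => exact key y z' hz.symm
  | inr v =>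
    cases z' with
    | inl y => exact (Ex_congr fun x => ind_congr eq_comm).trans_le (key y _ hz)
    | inr v' =>
      refine Ex_le ((pm_unif V).isP Var) fun x => ?_
      exact (ind_neg fun h : v = v' => hz (congrArg Sum.inr h)).trans_le (by positivity)

lemma place_phi (h : E.Ok Δ Λ N) {Φ : Ln V → Prop} {φ : ℝ} (hΦ : RayLe Φ (φ * Fintype.card V))
    {i : ι} (hi : E.act i) : Ex (fun _ : Var => unif V) (fun x => ind (Φ (E.line x i))) ≤ φ := by
  have hk : ∀ k : Fin 3, k ≠ k + 1 := by decide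
  rcases h.var i hi with ha | hb
  · obtain ⟨y, hy⟩ := Sum.isLeft_iff.1 ha
    have hb : E.b i ≠ Sum.inl y := fun e => hk _ ((h.ca i y hi hy).symm.trans (h.cb i y hi e))
    refine place_res y _ fun x => ?_
    obtain ⟨ρ, hρ⟩ := (arc_ray (E.k i) (Sum.elim x id (E.b i))).2
    simpa only [line, place_upd hb, hy, Sum.elim_inl, Function.update_self, hρ] using hΦ ρ
  · obtain ⟨y, hy⟩ := Sum.isLeft_iff.1 hb
    have ha : E.a i ≠ Sum.inl y := fun e => hk _ ((h.ca i y hi e).symm.trans (h.cb i y hi hy))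
    refine place_res y _ fun x => ?_
    obtain ⟨ρ, hρ⟩ := (arc_ray (E.k i) (Sum.elim x id (E.a i))).1
    simpa only [line, place_upd ha, hy, Sum.elim_inl, Function.update_self, hρ] using hΦ ρ

omit [Fintype Var] [DecidableEq Var] [Fintype V] [Nonempty V] in
lemma place_dep {z : Var ⊕ V} {x x' : Var → V} (h : ∀ y, z = Sum.inl y → x y = x' y) :
    Sum.elim x id z = Sum.elim x' id z := by
  cases z with
  | inl y => exact h y rfl
  | inr u => rfl

lemma place_pair (h : E.Ok Δ Λ N) (i i' : ι) :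
    Ex (fun _ : Var => unif V)
        (fun x => ind (E.act i ∧ E.act i' ∧ i ≠ i' ∧ E.line x i = E.line x i')) ≤
      ind (E.act i') * ((Fintype.card V : ℝ)⁻¹ * (Fintype.card V : ℝ)⁻¹) +
        (ind (E.act i' ∧ E.a i' = E.a i) + ind (E.act i' ∧ E.b i' = E.b i)) *
          (Fintype.card V : ℝ)⁻¹ := by
  have hw := (pm_unif V).isP Var
  have hn : (0 : ℝ) ≤ (Fintype.card V : ℝ)⁻¹ := by positivity
  have n1 := mul_nonneg (ind_nonneg (E.act i')) (mul_nonneg hn hn)
  have n2 := mul_nonneg (ind_nonneg (E.act i' ∧ E.a i' = E.a i)) hn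
  have n3 := mul_nonneg (ind_nonneg (E.act i' ∧ E.b i' = E.b i)) hn
  rw [add_mul]
  by_cases hc : E.act i ∧ E.act i' ∧ i ≠ i' ∧ E.k i = E.k i'
  · obtain ⟨hi, hi', hne, hk⟩ := hc
    by_cases ha : E.a i = E.a i'
    · have hb : E.b i ≠ E.b i' := fun e => hne (h.dist i i' hi hi' ha e)
      have := (Ex_mono hw.nonneg fun x => ind_mono
        fun g : E.act i ∧ E.act i' ∧ i ≠ i' ∧ E.line x i = E.line x i' =>
          (arc_inj g.2.2.2).2.2).trans (place_eq hb)
      rw [ind_pos (P := E.act i' ∧ E.a i' = E.a i) ⟨hi', ha.symm⟩]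
      linarith
    by_cases hb : E.b i = E.b i'
    · have := (Ex_mono hw.nonneg fun x => ind_mono
        fun g : E.act i ∧ E.act i' ∧ i ≠ i' ∧ E.line x i = E.line x i' =>
          (arc_inj g.2.2.2).2.1).trans (place_eq ha)
      rw [ind_pos (P := E.act i' ∧ E.b i' = E.b i) ⟨hi', hb.symm⟩]
      linarith
    have h1 := Ex_mono hw.nonneg fun x => (ind_mono
      fun g : E.act i ∧ E.act i' ∧ i ≠ i' ∧ E.line x i = E.line x i' =>
        (arc_inj g.2.2.2).2).trans_eq (ind_and _ _)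
    have hk3 : ∀ k : Fin 3, k ≠ k + 1 := by decide
    rw [Ex_mul hw (A := fun y => E.cv y = E.k i) (B := fun y => E.cv y = E.k i + 1)
      (fun x x' g => by
        rw [place_dep fun y e => g y (h.ca i y hi e),
          place_dep (z := E.a i') fun y e => g y ((h.ca i' y hi' e).trans hk.symm)])
      (fun x x' g => by
        rw [place_dep fun y e => g y (h.cb i y hi e),
          place_dep (z := E.b i') fun y e => g y (hk ▸ h.cb i' y hi' e)])
      fun y e e' => hk3 _ (e.symm.trans e')] at h1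
    have h2 := mul_le_mul (place_eq ha) (place_eq hb) (Ex_nonneg hw.nonneg fun _ => ind_nonneg _) hn
    rw [ind_pos hi']
    linarith
  · refine (Ex_le hw fun x => (ind_neg fun g => hc ⟨g.1, g.2.1, g.2.2.1,
      (arc_inj g.2.2.2).1⟩).le).trans (by linarith)

lemma place_row (h : E.Ok Δ Λ N) (hΔ : 0 ≤ Δ) (i : ι) :
    ∑ i', Ex (fun _ : Var => unif V)
        (fun x => ind (E.act i ∧ E.act i' ∧ i ≠ i' ∧ E.line x i = E.line x i')) ≤
      N / (Fintype.card V : ℝ) ^ 2 + 2 * (Λ + Δ) / Fintype.card V := by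
  have hΛ : 0 ≤ Λ := (ct_nonneg _).trans (h.dΛ (Classical.arbitrary V))
  have hn : (0 : ℝ) ≤ (Fintype.card V : ℝ)⁻¹ := by positivity
  have key : ∀ z, ct (fun i' => E.act i' ∧ (E.a i' = z ∨ E.b i' = z)) ≤ Λ + Δ := fun z => by
    cases z with
    | inl y => linarith [h.dΔ y]
    | inr v => linarith [h.dΛ v]
  have ha : ct (fun i' => E.act i' ∧ E.a i' = E.a i) ≤ Λ + Δ :=
    (ct_mono fun _ g => ⟨g.1, Or.inl g.2⟩).trans (key _)
  have hb : ct (fun i' => E.act i' ∧ E.b i' = E.b i) ≤ Λ + Δ :=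
    (ct_mono fun _ g => ⟨g.1, Or.inr g.2⟩).trans (key _)
  refine (sum_le_sum fun i' _ => place_pair h i i').trans ?_
  rw [sum_add_distrib, ← sum_mul, ← sum_mul, sum_add_distrib]
  have h1 := mul_le_mul_of_nonneg_right h.dN (mul_nonneg hn hn)
  have h2 := mul_le_mul_of_nonneg_right (add_le_add ha hb) hn
  refine (add_le_add h1 h2).trans_eq ?_
  rw [div_eq_mul_inv, div_eq_mul_inv, sq, mul_inv]
  ring

/-- the variables of an edge -/
def place_vs (E : Pl ι Var V) (i : ι) : Finset Var :=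
  (E.a i).elim (fun y => {y}) (fun _ => ∅) ∪ (E.b i).elim (fun y => {y}) fun _ => ∅

omit [Fintype ι] [Fintype Var] [Fintype V] [Nonempty V] in
lemma place_mem {i : ι} {y : Var} :
    y ∈ place_vs E i ↔ E.a i = Sum.inl y ∨ E.b i = Sum.inl y := by
  unfold place_vs
  rcases E.a i with u | u <;> rcases E.b i with v | v <;> simp [eq_comm]

omit [Fintype ι] [Fintype Var] [Fintype V] [Nonempty V] in
lemma place_card (i : ι) : (place_vs E i).card ≤ 2 := by
  unfold place_vs
  refine (card_union_le _ _).trans ?_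
  rcases E.a i with u | u <;> rcases E.b i with v | v <;> simp

omit [Fintype ι] [Fintype Var] [Fintype V] [Nonempty V] in
lemma place_line {i : ι} {x x' : Var → V} (h : ∀ y ∈ place_vs E i, x y = x' y) :
    E.line x i = E.line x' i := by
  unfold line
  rw [place_dep fun y e => h y (place_mem.2 (Or.inl e)),
    place_dep (z := E.b i) fun y e => h y (place_mem.2 (Or.inr e))]

omit [Fintype Var] [Fintype V] [Nonempty V] in
lemma place_ne (h : E.Ok Δ Λ N) {i : ι} (hi : E.act i) : (place_vs E i).Nonempty := by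
  rcases h.var i hi with g | g <;> obtain ⟨y, hy⟩ := Sum.isLeft_iff.1 g
  · exact ⟨y, place_mem.2 (Or.inl hy)⟩
  · exact ⟨y, place_mem.2 (Or.inr hy)⟩

omit [Fintype Var] [Fintype V] [Nonempty V] in
lemma place_sum (h : E.Ok Δ Λ N) (y : Var) {f : ι → ℝ} {c : ℝ} (hc : 0 ≤ c)
    (h0 : ∀ i, ¬ E.act i → f i ≤ 0) (hf : ∀ i, E.act i → f i ≤ c) :
    ∑ i, ind (y ∈ place_vs E i) * f i ≤ Δ * c := by
  refine le_trans (sum_le_sum fun i _ => ?_) ((sum_ind_mul_le (f := fun _ => c)
    fun _ _ => le_rfl).trans (mul_le_mul_of_nonneg_right (h.dΔ y) hc))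
  by_cases hi : E.act i
  · rw [ind_congr (place_mem.trans (and_iff_right hi).symm)]
    exact mul_le_mul_of_nonneg_left (hf i hi) (ind_nonneg _)
  · exact (mul_nonpos_of_nonneg_of_nonpos (ind_nonneg _) (h0 i hi)).trans
      (mul_nonneg (ind_nonneg _) hc)

/-- `lll` with events `ι ⊕ ι × ι`: `i` is active and its line is in `Φ`; `i ≠ i'` are active and
have the same line. -/
theorem place (h : E.Ok Δ Λ N) (Φ : Ln V → Prop) {φ : ℝ} (hΦ : RayLe Φ (φ * Fintype.card V))
    (hnum : Δ * (4 * φ + 32 * (N / (Fintype.card V : ℝ) ^ 2 +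
      2 * (Λ + Δ) / Fintype.card V)) ≤ 1) :
    ∃ μ : (Var → V) → ℝ, Pm μ ∧ Dom (fun _ => unif V) μ ∧ ∀ x, μ x ≠ 0 →
      (∀ i, E.act i → ¬ Φ (E.line x i)) ∧
        ∀ i i', E.act i → E.act i' → E.line x i = E.line x i' → i = i' := by
  have hw := (pm_unif V).isP Var
  have hn : (0 : ℝ) < Fintype.card V := by exact_mod_cast Fintype.card_pos
  have hφ : 0 ≤ φ := nonneg_of_mul_nonneg_left
    ((ct_nonneg _).trans (hΦ (0, true, Classical.arbitrary V))) hn
  obtain ⟨μ, h1, h2, h3⟩ := lll (B := ι ⊕ ι × ι) hw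
    (Sum.elim (fun i x => E.act i ∧ Φ (E.line x i))
      fun p x => E.act p.1 ∧ E.act p.2 ∧ p.1 ≠ p.2 ∧ E.line x p.1 = E.line x p.2)
    (Sum.elim (place_vs E) fun p => place_vs E p.1 ∪ place_vs E p.2)
    (by
      rintro (i | p) x x' g
      · simp only [Sum.elim_inl] at g ⊢
        rw [place_line g]
      · simp only [Sum.elim_inr] at g ⊢
        rw [place_line fun y hy => g y (mem_union_left _ hy),
          place_line (i := p.2) fun y hy => g y (mem_union_right _ hy)])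
    (by
      rintro (i | p) x g
      · exact place_ne h g.1
      · exact (place_ne h g.1).mono subset_union_left)
    (fun y => by
      have hΔ : 0 ≤ Δ := (ct_nonneg _).trans (h.dΔ y)
      have hΛ : 0 ≤ Λ := (ct_nonneg _).trans (h.dΛ (Classical.arbitrary V))
      have hN : 0 ≤ N := (ct_nonneg _).trans h.dN
      set q := N / (Fintype.card V : ℝ) ^ 2 + 2 * (Λ + Δ) / Fintype.card V with hq
      have hq0 : 0 ≤ q := by positivity
      rw [Fintype.sum_sum_type, Fintype.sum_prod_type]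
      simp only [Sum.elim_inl, Sum.elim_inr]
      have a1 : ∑ i, ind (y ∈ place_vs E i) * (2 ^ (place_vs E i).card *
          Ex (fun _ : Var => unif V) fun x => ind (E.act i ∧ Φ (E.line x i))) ≤ Δ * (4 * φ) := by
        refine place_sum h y (by positivity) (fun i hi => ?_) fun i hi => ?_
        · exact mul_nonpos_of_nonneg_of_nonpos (by positivity)
            (Ex_le hw fun x => (ind_neg fun g => hi g.1).le)
        · refine mul_le_mul ((pow_le_pow_right₀ one_le_two (place_card i)).trans (by norm_num))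
            ((Ex_mono hw.nonneg fun x => ind_mono fun g => g.2).trans (place_phi h hΦ hi))
            (Ex_nonneg hw.nonneg fun _ => ind_nonneg _) (by norm_num)
      set p : ι → ι → ℝ := fun i i' => Ex (fun _ : Var => unif V)
        fun x => ind (E.act i ∧ E.act i' ∧ i ≠ i' ∧ E.line x i = E.line x i') with hp
      have p0 : ∀ i i', 0 ≤ p i i' := fun _ _ => Ex_nonneg hw.nonneg fun _ => ind_nonneg _
      have ps : ∀ i i', p i i' = p i' i := fun i i' => Ex_congr fun x => ind_congr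
        ⟨fun g => ⟨g.2.1, g.1, g.2.2.1.symm, g.2.2.2.symm⟩,
          fun g => ⟨g.2.1, g.1, g.2.2.1.symm, g.2.2.2.symm⟩⟩
      have a2 : ∑ i, ind (y ∈ place_vs E i) * ∑ i', p i i' ≤ Δ * q :=
        place_sum h y hq0 (fun i hi => sum_nonpos fun i' _ =>
          Ex_le hw fun x => (ind_neg fun g => hi g.1).le) fun i _ => place_row h hΔ i
      have a3 : ∑ i, ∑ i', ind (y ∈ place_vs E i ∪ place_vs E i') *
          (2 ^ (place_vs E i ∪ place_vs E i').card * p i i') ≤
          ∑ i, ∑ i', (16 * (ind (y ∈ place_vs E i) * p i i') +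
            16 * (ind (y ∈ place_vs E i') * p i' i)) := by
        refine sum_le_sum fun i _ => sum_le_sum fun i' _ => ?_
        have c4 : (place_vs E i ∪ place_vs E i').card ≤ 4 :=
          (card_union_le _ _).trans (add_le_add (place_card i) (place_card i'))
        refine (mul_le_mul ((ind_congr mem_union).trans_le (ind_or_le _ _))
          (mul_le_mul_of_nonneg_right (pow_le_pow_right₀ one_le_two c4) (p0 i i'))
          (mul_nonneg (by positivity) (p0 i i'))
          (add_nonneg (ind_nonneg _) (ind_nonneg _))).trans_eq ?_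
        rw [ps i' i]
        ring
      simp only [sum_add_distrib] at a3
      rw [sum_comm (f := fun i i' => 16 * (ind (y ∈ place_vs E i') * p i' i))] at a3
      simp only [← mul_sum] at a3
      linarith)
  refine ⟨μ, h1, h2, fun x hx => ⟨fun i hi g => (h3 x hx).2 (Sum.inl i) ⟨hi, g⟩,
    fun i i' hi hi' g => ?_⟩⟩
  by_contra hne
  exact (h3 x hx).2 (Sum.inr (i, i')) ⟨hi, hi', hne, g⟩

end Pl

end Pool.Agent.MP_46aeaf_co.HT

/-! Random placement: single lines and degrees. -/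

namespace Pool.Agent.MP_46aeaf_co.HT

open Finset Pool.Agent.MP_81e6aa_pr Real Filter

section Aux

variable {Var V : Type} [Fintype Var] [DecidableEq Var] [Fintype V] [Nonempty V]

lemma place2_ex (y : Var) (u : V) :
    Ex (fun _ : Var => unif V) (fun x => ind (x y = u)) = (Fintype.card V : ℝ)⁻¹ := by
  have h := Ex_all (fun _ : Var => unif V) ((pm_unif V).isP Var) {y} (fun _ a => ind (a = u))
  simp only [prod_singleton] at h
  rw [h]
  unfold unif
  rw [← mul_sum]
  have : ∑ a : V, ind (a = u) = 1 := ct_eq u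
  rw [this, mul_one]

lemma place2_one {μ : (Var → V) → ℝ} (hμ : Dom (fun _ => unif V) μ) (y : Var) (u : V) :
    Av μ (fun x => ind (x y = u)) ≤ 2 / Fintype.card V := by
  have h := hμ {y} (fun x => ind (x y = u)) (fun _ => ind_nonneg _)
    (fun x x' hx => by dsimp only; rw [hx y (mem_singleton_self y)])
  rw [place2_ex, card_singleton, pow_one] at h
  rwa [div_eq_mul_inv]

lemma place2_two {μ : (Var → V) → ℝ} (hμ : Dom (fun _ => unif V) μ) {y z : Var} (hyz : y ≠ z)
    (u v : V) : Av μ (fun x => ind (x y = u ∧ x z = v)) ≤ 4 / (Fintype.card V : ℝ) ^ 2 := by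
  have h := hμ {y, z} (fun x => ind (x y = u ∧ x z = v)) (fun _ => ind_nonneg _)
    (fun x x' hx => by dsimp only; rw [hx y (by simp), hx z (by simp)])
  have e : Ex (fun _ : Var => unif V) (fun x => ind (x y = u ∧ x z = v)) =
      (Fintype.card V : ℝ)⁻¹ * (Fintype.card V : ℝ)⁻¹ := by
    simp only [ind_and]
    rw [Ex_mul ((pm_unif V).isP Var) (A := fun i => i = y) (B := fun i => i = z)
      (F := fun x => ind (x y = u)) (G := fun x => ind (x z = v))
      (fun x x' hx => by dsimp only; rw [hx y rfl]) (fun x x' hx => by dsimp only; rw [hx z rfl])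
      (fun i hi hi' => hyz (hi.symm.trans hi')), place2_ex, place2_ex]
  rw [e, card_pair hyz] at h
  refine h.trans (le_of_eq ?_)
  rw [div_eq_mul_inv, ← inv_pow]; ring

end Aux

namespace Pl

variable {ι Var V : Type} {E : Pl ι Var V} [Fintype ι] [Fintype Var] [DecidableEq Var] [Fintype V]
  [Nonempty V] {Δ Λ N : ℝ}

lemma place2_edge (h : E.Ok Δ Λ N) {μ : (Var → V) → ℝ} (h0 : ∀ x, 0 ≤ μ x)
    (hμ : Dom (fun _ => unif V) μ) (k : Fin 3) (u v : V) (i : ι) :
    Av μ (fun x => ind (E.act i ∧ E.line x i = arc k u v)) ≤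
      ind (E.act i) * (4 / (Fintype.card V : ℝ) ^ 2) +
        ind (E.act i ∧ (E.a i = Sum.inr u ∨ E.b i = Sum.inr u)) * (2 / Fintype.card V) +
        ind (E.act i ∧ (E.a i = Sum.inr v ∨ E.b i = Sum.inr v)) * (2 / Fintype.card V) := by
  have p1 : 0 ≤ ind (E.act i) * (4 / (Fintype.card V : ℝ) ^ 2) :=
    mul_nonneg (ind_nonneg _) (by positivity)
  have p2 : 0 ≤ ind (E.act i ∧ (E.a i = Sum.inr u ∨ E.b i = Sum.inr u)) *
      (2 / (Fintype.card V : ℝ)) := mul_nonneg (ind_nonneg _) (by positivity)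
  have p3 : 0 ≤ ind (E.act i ∧ (E.a i = Sum.inr v ∨ E.b i = Sum.inr v)) *
      (2 / (Fintype.card V : ℝ)) := mul_nonneg (ind_nonneg _) (by positivity)
  have zero : (∀ x, ¬ (E.act i ∧ E.line x i = arc k u v)) →
      Av μ (fun x => ind (E.act i ∧ E.line x i = arc k u v)) = 0 := fun hz => by
    unfold Av
    exact sum_eq_zero fun x _ => by dsimp only; rw [ind_neg (hz x), mul_zero]
  by_cases hi : E.act i
  swap
  · rw [zero fun x hx => hi hx.1]; linarith
  have key : ∀ x, E.act i ∧ E.line x i = arc k u v →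
      Sum.elim x id (E.a i) = u ∧ Sum.elim x id (E.b i) = v := fun x hx => (arc_inj hx.2).2
  rcases ha : E.a i with y | w <;> rcases hb : E.b i with z | w'
  · have hyz : y ≠ z := by
      rintro rfl
      have h1 := (h.ca i y hi ha).symm.trans (h.cb i y hi hb)
      revert h1
      generalize E.k i = j
      revert j
      decide
    have := (Av_mono h0 fun x => ind_mono (Q := x y = u ∧ x z = v) fun hx => by
      simpa [ha, hb] using key x hx).trans (place2_two hμ hyz u v)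
    rw [ha, hb] at p2 p3
    rw [ind_pos hi]
    linarith
  · by_cases hw : w' = v
    · subst hw
      have := (Av_mono h0 fun x => ind_mono (Q := x y = u) fun hx => by
        simpa [ha] using (key x hx).1).trans (place2_one hμ y u)
      rw [ha, hb] at p2
      rw [ind_pos (P := E.act i ∧ (Sum.inl y = Sum.inr w' ∨ Sum.inr w' = Sum.inr w'))
        ⟨hi, Or.inr rfl⟩]
      linarith
    · rw [ha, hb] at p2 p3
      rw [zero fun x hx => hw (by simpa [hb] using (key x hx).2)]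
      linarith
  · by_cases hw : w = u
    · subst hw
      have := (Av_mono h0 fun x => ind_mono (Q := x z = v) fun hx => by
        simpa [hb] using (key x hx).2).trans (place2_one hμ z v)
      rw [ha, hb] at p3
      rw [ind_pos (P := E.act i ∧ (Sum.inr w = Sum.inr w ∨ Sum.inl z = Sum.inr w))
        ⟨hi, Or.inl rfl⟩]
      linarith
    · rw [ha, hb] at p2 p3
      rw [zero fun x hx => hw (by simpa [ha] using (key x hx).1)]
      linarith
  · have := h.var i hi
    simp [ha, hb] at this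

/-- Union bound with `Dom` (`exists_arc`, `arc_inj`): an edge with two variable ends equals `e`
with probability `1 / n ^ 2`, an edge with a fixed end needs that end on `e`. -/
theorem hit (h : E.Ok Δ Λ N) {μ : (Var → V) → ℝ} (h0 : ∀ x, 0 ≤ μ x)
    (hμ : Dom (fun _ => unif V) μ) (e : Ln V) :
    Av μ (fun x => ind (∃ i, E.act i ∧ E.line x i = e)) ≤
      4 * (N / (Fintype.card V : ℝ) ^ 2 + 2 * Λ / Fintype.card V) := by
  obtain ⟨k, u, v, rfl⟩ := exists_arc e
  refine (Av_exists_le h0 fun i x => E.act i ∧ E.line x i = arc k u v).trans ?_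
  refine (sum_le_sum fun i _ => place2_edge h h0 hμ k u v i).trans ?_
  rw [sum_add_distrib, sum_add_distrib, ← sum_mul, ← sum_mul, ← sum_mul]
  have hΛ : 0 ≤ Λ := (ct_nonneg _).trans (h.dΛ u)
  have a1 := mul_le_mul_of_nonneg_right h.dN
    (show (0 : ℝ) ≤ 4 / (Fintype.card V : ℝ) ^ 2 by positivity)
  have a2 := mul_le_mul_of_nonneg_right (h.dΛ u)
    (show (0 : ℝ) ≤ 2 / (Fintype.card V : ℝ) by positivity)
  have a3 := mul_le_mul_of_nonneg_right (h.dΛ v)
    (show (0 : ℝ) ≤ 2 / (Fintype.card V : ℝ) by positivity)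
  have a4 : 0 ≤ Λ * (2 / (Fintype.card V : ℝ)) := by positivity
  have e : 4 * (N / (Fintype.card V : ℝ) ^ 2 + 2 * Λ / Fintype.card V) =
      N * (4 / (Fintype.card V : ℝ) ^ 2) + 4 * (Λ * (2 / Fintype.card V)) := by ring
  unfold ct at a1 a2 a3
  rw [e]
  linarith

omit [DecidableEq Var] [Fintype V] [Nonempty V] in
lemma place2_sum (h : E.Ok Δ Λ N) :
    ∑ y, ct (fun i => E.act i ∧ (E.a i = Sum.inl y ∨ E.b i = Sum.inl y)) ≤ 2 * N := by
  rw [ct_comm (fun y i => E.act i ∧ (E.a i = Sum.inl y ∨ E.b i = Sum.inl y))]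
  have h1 : ∀ i, ct (fun y => E.act i ∧ (E.a i = Sum.inl y ∨ E.b i = Sum.inl y)) ≤
      ind (E.act i) * 2 := fun i => by
    by_cases hi : E.act i
    · rw [ind_pos hi]
      have a1 : ct (fun y => E.a i = Sum.inl y) ≤ 1 :=
        ct_le_one fun c c' hc hc' => Sum.inl_injective (hc.symm.trans hc')
      have a2 : ct (fun y => E.b i = Sum.inl y) ≤ 1 :=
        ct_le_one fun c c' hc hc' => Sum.inl_injective (hc.symm.trans hc')
      have a3 := ct_le_add (X := fun y => E.act i ∧ (E.a i = Sum.inl y ∨ E.b i = Sum.inl y))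
        (Y := fun y => E.a i = Sum.inl y) (Z := fun y => E.b i = Sum.inl y) fun y hy => hy.2
      linarith
    · rw [ct_false fun y hy => hi hy.1, ind_neg hi, zero_mul]
  refine (sum_le_sum fun i _ => h1 i).trans ?_
  rw [← sum_mul]
  have := h.dN
  unfold ct at this
  linarith

omit [DecidableEq Var] in
lemma place2_ray (h : E.Ok Δ Λ N) (x : Var → V) (ρ : Ray V) :
    ct (fun v => ∃ i, E.act i ∧ E.line x i = ray ρ v) ≤
      Λ + ∑ y, ct (fun i => E.act i ∧ (E.a i = Sum.inl y ∨ E.b i = Sum.inl y)) *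
        ind (x y = ρ.2.2) := by
  have h1 : ct (fun v => ∃ i, E.act i ∧ E.line x i = ray ρ v) ≤
      ct fun i => E.act i ∧ (Sum.elim x id (E.a i) = ρ.2.2 ∨ Sum.elim x id (E.b i) = ρ.2.2) := by
    refine ct_le_of_surj (fun i => Function.invFun (ray ρ) (E.line x i)) ?_
    rintro v ⟨i, hi, hv⟩
    refine ⟨i, ⟨hi, ?_⟩, by rw [hv]; exact Function.leftInverse_invFun (ray_inj ρ) v⟩
    obtain ⟨k, hk | hk⟩ := ray_arc ρ
    · exact Or.inl (arc_inj (hv.trans (hk v))).2.1
    · exact Or.inr (arc_inj (hv.trans (hk v))).2.2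
  have h2 := ct_le_add
    (X := fun i => E.act i ∧ (Sum.elim x id (E.a i) = ρ.2.2 ∨ Sum.elim x id (E.b i) = ρ.2.2))
    (Y := fun i => E.act i ∧ (E.a i = Sum.inr ρ.2.2 ∨ E.b i = Sum.inr ρ.2.2))
    (Z := fun i => ∃ y, (E.act i ∧ (E.a i = Sum.inl y ∨ E.b i = Sum.inl y)) ∧ x y = ρ.2.2) (by
      rintro i ⟨hi, hv | hv⟩
      · rcases ha : E.a i with y | w
        · exact Or.inr ⟨y, ⟨hi, Or.inl rfl⟩, by simpa [ha] using hv⟩
        · exact Or.inl ⟨hi, Or.inl (by simpa [ha] using hv)⟩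
      · rcases hb : E.b i with y | w
        · exact Or.inr ⟨y, ⟨hi, Or.inr rfl⟩, by simpa [hb] using hv⟩
        · exact Or.inl ⟨hi, Or.inr (by simpa [hb] using hv)⟩)
  have h3 := ct_exists_le
    fun y i => (E.act i ∧ (E.a i = Sum.inl y ∨ E.b i = Sum.inl y)) ∧ x y = ρ.2.2
  have h4 : ∀ y, ct (fun i => (E.act i ∧ (E.a i = Sum.inl y ∨ E.b i = Sum.inl y)) ∧ x y = ρ.2.2) =
      ct (fun i => E.act i ∧ (E.a i = Sum.inl y ∨ E.b i = Sum.inl y)) * ind (x y = ρ.2.2) :=
    fun y => by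
      unfold ct
      rw [sum_mul]
      exact sum_congr rfl fun i _ => ind_and _ _
  simp only [h4] at h3
  linarith [h.dΛ ρ.2.2]

/-- A line on the ray at `v` has an end equal to `v` (`ray_arc`), so the count is at most
`Λ + ∑ y, M y * ind (x y = v)` with `M y` the degree of the variable `y`; `∑ y, M y ≤ 2 N`.
Use `Dom.load`. -/
theorem rays (h : E.Ok Δ Λ N) (hΔ : 0 < Δ) {μ : (Var → V) → ℝ} (h0 : ∀ x, 0 ≤ μ x)
    (hμ : Dom (fun _ => unif V) μ) (σ : ℝ) :
    Av μ (fun x => ind (¬ RayLe (fun e => ∃ i, E.act i ∧ E.line x i = e)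
      (Λ + 8 * N / Fintype.card V + Δ * σ))) ≤ Fintype.card V * exp (-σ) := by
  have hn : (0 : ℝ) < Fintype.card V := by exact_mod_cast Fintype.card_pos
  have h1 := Dom.load h0 hμ
    (fun y => ct fun i => E.act i ∧ (E.a i = Sum.inl y ∨ E.b i = Sum.inl y)) hΔ
    (fun _ => ct_nonneg _) h.dΔ (8 * N / Fintype.card V + Δ * σ)
  refine le_trans (Av_mono h0 fun x => ind_mono fun hx => ?_) (h1.trans ?_)
  · unfold RayLe at hx
    push Not at hx
    obtain ⟨ρ, hρ⟩ := hx
    exact ⟨ρ.2.2, by linarith [place2_ray h x ρ]⟩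
  · refine mul_le_mul_of_nonneg_left (exp_le_exp.2 ?_) hn.le
    have a1 := div_le_div_of_nonneg_right (mul_le_mul_of_nonneg_left (place2_sum h)
      (show (0 : ℝ) ≤ 4 by norm_num)) (mul_pos hΔ hn).le
    have e : (8 * N / Fintype.card V + Δ * σ) / Δ = 4 * (2 * N) / (Δ * Fintype.card V) + σ := by
      field_simp
      ring
    rw [e]
    linarith

end Pl

end Pool.Agent.MP_46aeaf_co.HT

/-! The absorber: deterministic properties. -/

namespace Pool.Agent.MP_46aeaf_co.HT

open Finset Pool.Agent.MP_81e6aa_pr Real Filter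

namespace Blue

variable {V Obj Gad PV TT : Type} [Fintype V] [Fintype Obj] [Fintype Gad] [Fintype TT]
  [DecidableEq TT] {B : Blue V Obj Gad} {T : Tm PV TT} {m h : ℕ} {τ : ℝ}

lemma Ok.cont_ob (hB : B.Ok m τ) (g : Gad) {k : ℕ} (hk : k < 15) : B.cont g (B.ob g k) :=
  hB.same g k _ hk le_rfl (hB.lohi _).1

lemma Ok.ob_eq (hB : B.Ok m τ) {g : Gad} {o : Obj} (hc : B.cont g o) {k : ℕ} (h1 : B.lo o ≤ k)
    (h2 : k < B.hi o) : B.ob g k = o := by
  have h := hB.same g (B.lo o) k (by have := hB.lohi o; omega)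
  unfold cont at hc
  rw [hc] at h
  exact h h1 h2

lemma Ok.oarc_cel (hB : B.Ok m τ) (x : Obj × Fin 15 → V) (r c : V) :
    B.oarc x (B.cel r c) 4 = (0, r, c) := by
  obtain ⟨h1, h2, h3, h4⟩ := hB.cel r c
  simp [oarc, pt, h1, h2, h3, h4, arc, cls]

/-- the lines of the cycle of a gadget are lines of its objects -/
lemma Ok.root_arc (hB : B.Ok m τ) (x : Obj × Fin 15 → V) (g : Gad) (j : Fin 15) :
    arc (cls j) (B.root x g j) (B.root x g (j + 1)) = B.oarc x (B.ob g j) j := by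
  unfold oarc root
  congr 1
  have hm := hB.mem g j j.2
  have hv : ((j + 1 : Fin 15) : ℕ) = (j + 1) % 15 := by simp [Fin.val_add]
  by_cases hj : (j : ℕ) + 1 = B.hi (B.ob g j)
  · obtain ⟨h1, h2⟩ := hB.chain g j j.2 hj
    rw [hv]
    unfold pt
    rw [if_pos h1.symm, h2, if_neg (by omega), if_pos hj]
  · have h15 := (hB.lohi (B.ob g j)).2
    rw [hv, Nat.mod_eq_of_lt (by omega), hB.same g j (j + 1) j.2 (by omega) (by omega)]

end Blue

end Pool.Agent.MP_46aeaf_co.HT

/-! The absorber: the two placements. -/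

namespace Pool.Agent.MP_46aeaf_co.HT

open Finset Pool.Agent.MP_81e6aa_pr Real Filter

lemma absp_pow (k j : ℕ) {b : ℝ} (h : (k : ℝ) / 50 < b) :
    ∀ᶠ L : ℝ in atTop, ∀ τ : ℝ, 0 ≤ τ → τ ≤ 2 * exp (L / 50) →
      1000000 * L ^ j * τ ^ k ≤ exp (b * L) := by
  filter_upwards [ev_exp (1000000 * 2 ^ k) j h, eventually_ge_atTop 0] with L hL h0 τ hτ0 hτ
  have h1 : τ ^ k ≤ 2 ^ k * exp ((k : ℝ) / 50 * L) := by
    calc τ ^ k ≤ (2 * exp (L / 50)) ^ k := pow_le_pow_left₀ hτ0 hτ k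
      _ = _ := by rw [mul_pow, ← exp_nat_mul]; congr 2; ring
  calc 1000000 * L ^ j * τ ^ k ≤ 1000000 * L ^ j * (2 ^ k * exp ((k : ℝ) / 50 * L)) :=
        mul_le_mul_of_nonneg_left h1 (by positivity)
    _ = 1000000 * 2 ^ k * L ^ j * exp ((k : ℝ) / 50 * L) := by ring
    _ ≤ _ := hL

section

variable {V Obj Gad : Type}

/-- the edges of the fixed objects -/
def absp_E (B : Blue V Obj Gad) : Pl (Obj × Fin 15) (Obj × Fin 15) V where
  act p := B.ov p.1 p.2
  k p := cls p.2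
  a p := if (p.2 : ℕ) = B.lo p.1 then Sum.inr (B.st p.1) else Sum.inl p
  b p := if (p.2 : ℕ) + 1 = B.hi p.1 then Sum.inr (B.en p.1)
    else Sum.inl (p.1, Fin.ofNat 15 (p.2 + 1))
  cv y := cls y.2

lemma absp_ofNat (k : Fin 15) : Fin.ofNat 15 (k : ℕ) = k := by
  ext; simp

lemma absp_line (B : Blue V Obj Gad) (x : Obj × Fin 15 → V) (p : Obj × Fin 15)
    (hp : B.ov p.1 p.2) : (absp_E B).line x p = B.oarc x p.1 p.2 := by
  obtain ⟨o, k⟩ := p
  obtain ⟨-, h1, h2⟩ := hp
  dsimp only at h1 h2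
  unfold Pl.line Blue.oarc Blue.pt absp_E
  dsimp only
  congr 1
  · by_cases h : (k : ℕ) = B.lo o
    · rw [if_pos h, if_pos h]; rfl
    · rw [if_neg h, if_neg h, if_neg (by omega), absp_ofNat]; rfl
  · rw [if_neg (show ¬ (k : ℕ) + 1 = B.lo o by omega)]
    by_cases h : (k : ℕ) + 1 = B.hi o
    · rw [if_pos h, if_pos h]; rfl
    · rw [if_neg h, if_neg h]; rfl

lemma absp_a_inl {B : Blue V Obj Gad} {p y : Obj × Fin 15} (h : (absp_E B).a p = Sum.inl y) :
    y = p := by
  unfold absp_E at h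
  dsimp only at h
  split_ifs at h
  exact (Sum.inl.inj h).symm

lemma absp_b_inl {B : Blue V Obj Gad} {p y : Obj × Fin 15} (h : (absp_E B).b p = Sum.inl y) :
    y = (p.1, Fin.ofNat 15 (p.2 + 1)) := by
  unfold absp_E at h
  dsimp only at h
  split_ifs at h
  exact (Sum.inl.inj h).symm

lemma absp_a_inr {B : Blue V Obj Gad} {p : Obj × Fin 15} {v : V}
    (h : (absp_E B).a p = Sum.inr v) : (p.2 : ℕ) = B.lo p.1 ∧ B.st p.1 = v := by
  unfold absp_E at h
  dsimp only at h
  split_ifs at h with h'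
  exact ⟨h', Sum.inr.inj h⟩

lemma absp_b_inr {B : Blue V Obj Gad} {p : Obj × Fin 15} {v : V}
    (h : (absp_E B).b p = Sum.inr v) : (p.2 : ℕ) + 1 = B.hi p.1 ∧ B.en p.1 = v := by
  unfold absp_E at h
  dsimp only at h
  split_ifs at h with h'
  exact ⟨h', Sum.inr.inj h⟩

lemma absp_succ_inj {p p' : Obj × Fin 15}
    (h : (p.1, Fin.ofNat 15 (p.2 + 1)) = (p'.1, Fin.ofNat 15 (p'.2 + 1))) : p = p' := by
  obtain ⟨o, k⟩ := p
  obtain ⟨o', k'⟩ := p'
  obtain ⟨h1, h2⟩ := Prod.mk.inj h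
  have h3 := congrArg Fin.val h2
  simp only [Fin.val_ofNat] at h3
  have := k.2
  have := k'.2
  exact Prod.ext h1 (Fin.ext (by dsimp only; omega))

variable [Fintype V] [Fintype Obj] [Fintype Gad] {B : Blue V Obj Gad} {m : ℕ} {τ : ℝ}

lemma absp_OL (hB : B.Ok m τ) (x : Obj × Fin 15 → V) (e : Ln V) :
    B.OL x e ↔ ∃ i, (absp_E B).act i ∧ (absp_E B).line x i = e := by
  constructor
  · rintro ⟨o, k, h, rfl⟩
    have hk : k < 15 := lt_of_lt_of_le h.2.2 (hB.lohi o).2
    exact ⟨(o, ⟨k, hk⟩), h, absp_line B x (o, ⟨k, hk⟩) h⟩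
  · rintro ⟨p, h, rfl⟩
    exact ⟨p.1, p.2, h, (absp_line B x p h).symm⟩

lemma absp_ok (hB : B.Ok m τ) : (absp_E B).Ok 2 (200 * τ ^ 46) (150 * τ ^ 81) := by
  have var : ∀ i, (absp_E B).act i → ((absp_E B).a i).isLeft ∨ ((absp_E B).b i).isLeft := by
    intro i hi
    rcases ha : (absp_E B).a i with y | v
    · exact Or.inl rfl
    · rcases hb : (absp_E B).b i with y | v'
      · exact Or.inr rfl
      · have h1 := (absp_a_inr ha).1
        have h2 := (absp_b_inr hb).1
        have h3 := hB.long i.1 hi.1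
        omega
  refine ⟨fun i y _ h => ?_, fun i y _ h => ?_, var, fun i i' hi _ ha hb => ?_, fun y => ?_,
    fun v => ?_, ?_⟩
  · rw [absp_a_inl h]; rfl
  · rw [absp_b_inl h]
    show cls (((i.2 : ℕ) + 1) % 15) = cls i.2 + 1
    rw [cls_mod, cls_succ]
  · rcases var i hi with h | h
    · obtain ⟨y, hy⟩ := Sum.isLeft_iff.1 h
      exact (absp_a_inl hy).symm.trans (absp_a_inl (ha.symm.trans hy))
    · obtain ⟨y, hy⟩ := Sum.isLeft_iff.1 h
      exact absp_succ_inj ((absp_b_inl hy).symm.trans (absp_b_inl (hb.symm.trans hy)))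
  · have h1 : ct (fun i => (absp_E B).a i = Sum.inl y) ≤ 1 :=
      ct_le_one fun i i' h h' => (absp_a_inl h).symm.trans (absp_a_inl h')
    have h2 : ct (fun i => (absp_E B).b i = Sum.inl y) ≤ 1 :=
      ct_le_one fun i i' h h' => absp_succ_inj ((absp_b_inl h).symm.trans (absp_b_inl h'))
    exact (ct_le_add fun i hi => hi.2).trans (by linarith)
  · have h0 := hB.lobj v
    have h1 : ct (fun i => (absp_E B).act i ∧ (absp_E B).a i = Sum.inr v) ≤
        ct (fun o => ¬ B.isC o ∧ (B.st o = v ∨ B.en o = v)) :=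
      ct_le_of_inj Prod.fst (fun i hi => ⟨hi.1.1, Or.inl (absp_a_inr hi.2).2⟩)
        fun i i' hi hi' e => Prod.ext e (Fin.ext (by
          rw [(absp_a_inr hi.2).1, (absp_a_inr hi'.2).1, e]))
    have h2 : ct (fun i => (absp_E B).act i ∧ (absp_E B).b i = Sum.inr v) ≤
        ct (fun o => ¬ B.isC o ∧ (B.st o = v ∨ B.en o = v)) :=
      ct_le_of_inj Prod.fst (fun i hi => ⟨hi.1.1, Or.inr (absp_b_inr hi.2).2⟩)
        fun i i' hi hi' e => Prod.ext e (Fin.ext (by
          have a1 := (absp_b_inr hi.2).1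
          have a2 := (absp_b_inr hi'.2).1
          rw [e] at a1
          omega))
    refine (ct_le_add (Y := fun i => (absp_E B).act i ∧ (absp_E B).a i = Sum.inr v)
      (Z := fun i => (absp_E B).act i ∧ (absp_E B).b i = Sum.inr v)
      fun i hi => and_or_left.1 hi).trans (by linarith)
  · have h0 := hB.nobj
    have h1 : ct (absp_E B).act ≤ ct fun p : Obj × Fin 15 => ¬ B.isC p.1 :=
      ct_mono fun p hp => hp.1
    have h2 : (ct fun p : Obj × Fin 15 => ¬ B.isC p.1) = 15 * ct fun o => ¬ B.isC o := by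
      rw [ct_prod, ct_comm (fun (o : Obj) (_ : Fin 15) => ¬ B.isC o)]
      simp
    linarith

/-- number of active gadgets that use the variable `y` -/
noncomputable def absp_M (B : Blue V Obj Gad) (Q : V → V → Prop) (y : Obj × Fin 15) : ℝ :=
  ct fun g => B.act Q g ∧ B.ob g y.2 = y.1

lemma absp_M_le (hB : B.Ok m τ) {Q : V → V → Prop} (hQ : DegLe Q (2 * τ)) (y : Obj × Fin 15) :
    absp_M B Q y ≤ 10 * τ ^ 30 :=
  (ct_mono fun g hg => ⟨hg.1, hg.2 ▸ hB.cont_ob g y.2.2⟩).trans (hB.mobj Q hQ y.1)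

omit [Fintype V] in
lemma absp_M_sum (B : Blue V Obj Gad) (Q : V → V → Prop) (f : Obj × Fin 15 → Prop) :
    ∑ y, absp_M B Q y * ind (f y) =
      ct fun p : Gad × Fin 15 => B.act Q p.1 ∧ f (B.ob p.1 p.2, p.2) := by
  unfold absp_M ct
  simp only [sum_mul]
  rw [sum_comm, Fintype.sum_prod_type]
  refine sum_congr rfl fun g _ => ?_
  rw [Fintype.sum_prod_type, sum_comm]
  refine sum_congr rfl fun j _ => ?_
  rw [ind_and, ← sum_ind_eq (B.ob g j) fun o => ind (B.act Q g) * ind (f (o, j))]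
  refine sum_congr rfl fun o _ => ?_
  rw [ind_and, ind_congr (eq_comm (a := B.ob g j))]
  ring

lemma absp_M_total (hB : B.Ok m τ) {Q : V → V → Prop} (hQ : DegLe Q (2 * τ)) :
    ∑ y, absp_M B Q y ≤ 150 * τ ^ 81 := by
  have h := absp_M_sum B Q fun _ => True
  simp only [ind_pos trivial, mul_one, and_true] at h
  have h2 : (ct fun p : Gad × Fin 15 => B.act Q p.1) = 15 * ct (B.act Q) := by
    rw [ct_prod, ct_comm (fun (g : Gad) (_ : Fin 15) => B.act Q g)]
    simp
  have h0 := hB.ngad Q hQ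
  linarith

lemma absp_load (hB : B.Ok m τ) {Q : V → V → Prop} (hQ : DegLe Q (2 * τ))
    (x : Obj × Fin 15 → V) (v : V) :
    ct (fun p : Gad × Fin 15 => B.act Q p.1 ∧ B.root x p.1 p.2 = v) ≤
      150 * τ ^ 46 + ∑ y, absp_M B Q y * ind (x y = v) := by
  rw [absp_M_sum B Q fun y => x y = v]
  have h0 := hB.lgad Q hQ v
  have h2 : (ct fun p : Gad × Fin 15 => B.act Q p.1 ∧ ∃ k, k < 15 ∧ B.st (B.ob p.1 k) = v) =
      15 * ct fun g => B.act Q g ∧ ∃ k, k < 15 ∧ B.st (B.ob g k) = v := by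
    rw [ct_prod, ct_comm (fun (g : Gad) (_ : Fin 15) =>
      B.act Q g ∧ ∃ k, k < 15 ∧ B.st (B.ob g k) = v)]
    simp
  refine (ct_le_add
    (Y := fun p : Gad × Fin 15 => B.act Q p.1 ∧ ∃ k, k < 15 ∧ B.st (B.ob p.1 k) = v)
    (Z := fun p : Gad × Fin 15 => B.act Q p.1 ∧ x (B.ob p.1 p.2, p.2) = v) ?_).trans (by linarith)
  rintro ⟨g, j⟩ ⟨ha, hr⟩
  have hm := hB.mem g j j.2
  unfold Blue.root Blue.pt at hr
  dsimp only at hr ⊢
  by_cases h : (j : ℕ) = B.lo (B.ob g j)
  · rw [if_pos h] at hr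
    exact Or.inl ⟨ha, j, j.2, hr⟩
  · rw [if_neg h, if_neg (by omega), absp_ofNat] at hr
    exact Or.inr ⟨ha, hr⟩

end

lemma absp_num1 {n w a b : ℝ} (hn : 0 < n) (hw : w ≤ n) (ha1 : 1 ≤ a) (ha : 1000000 * a ≤ w)
    (hb : 1000000 * b ≤ w * n) :
    2 * (4 * (1 / 1000) + 32 * (150 * b / n ^ 2 + 2 * (200 * a + 2) / n)) ≤ 1 := by
  have h1 : 150 * b / n ^ 2 ≤ 1 / 1000 := by
    rw [div_le_iff₀ (by positivity)]
    have := mul_le_mul_of_nonneg_right hw hn.le
    nlinarith
  have h2 : 2 * (200 * a + 2) / n ≤ 1 / 1000 := by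
    rw [div_le_iff₀ hn]
    linarith
  linarith

lemma absp_num2 {n w z a b : ℝ} (hn : 0 < n) (hw0 : 0 ≤ w) (hw : w ≤ n * z)
    (ha : 1000000 * a ≤ w) (hb : 1000000 * b ≤ w * n) :
    4 * (150 * b / n ^ 2 + 2 * (200 * a) / n) ≤ z := by
  have h0 := mul_nonneg hw0 hn.le
  have h1 : 150 * b / n ^ 2 ≤ z / 8 := by
    rw [div_le_iff₀ (by positivity)]
    have := mul_le_mul_of_nonneg_right hw hn.le
    nlinarith
  have h2 : 2 * (200 * a) / n ≤ z / 8 := by
    rw [div_le_iff₀ hn]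
    nlinarith
  linarith

theorem abs1 : ∀ᶠ L : ℝ in atTop, ∀ (V Obj Gad : Type) [Fintype V] [Nonempty V] [Fintype Obj]
    [DecidableEq Obj] [Fintype Gad] (B : Blue V Obj Gad) (m : ℕ) (τ : ℝ) (X : Ln V → Prop)
    (Q : V → V → Prop), (Fintype.card V : ℝ) = exp L → 1 ≤ τ → τ ≤ 2 * exp (L / 50) → B.Ok m τ →
    RayLe X (Fintype.card V / 1000) → DegLe Q (2 * τ) →
    ∃ μ : (Obj × Fin 15 → V) → ℝ, Pm μ ∧ Dom (fun _ => unif V) μ ∧
      Av μ (fun x => ind (¬ B.G1 (exp (93 / 100 * L)) X Q x)) ≤ exp (-(2 * L)) ∧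
      ∀ e, Av μ (fun x => ind (B.OL x e)) ≤ exp (-(6 / 100 * L)) := by
  filter_upwards [absp_pow 46 0 (b := 93 / 100) (by norm_num),
    absp_pow 81 0 (b := 193 / 100) (by norm_num), absp_pow 30 1 (b := 93 / 100) (by norm_num),
    eventually_ge_atTop 1] with L e46 e81 e30 hL V Obj Gad _ _ _ _ _ B m τ X Q hn hτ1 hτ hB hX hQ
  have hτ0 : 0 ≤ τ := zero_le_one.trans hτ1
  have h46 := e46 τ hτ0 hτ
  have h81 := e81 τ hτ0 hτ
  have h30 := e30 τ hτ0 hτ
  rw [pow_zero, mul_one] at h46 h81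
  rw [pow_one] at h30
  have a46 : 1 ≤ τ ^ 46 := one_le_pow₀ hτ1
  have a30 : 1 ≤ τ ^ 30 := one_le_pow₀ hτ1
  have hE := absp_ok hB
  have hM := absp_M_le hB hQ
  have hMt := absp_M_total hB hQ
  have hld := absp_load hB hQ
  have e1 : exp (193 / 100 * L) = exp (93 / 100 * L) * Fintype.card V := by
    rw [hn, ← exp_add]; congr 1; ring
  have e2 : exp (93 / 100 * L) ≤ Fintype.card V := by rw [hn]; exact exp_le_exp.2 (by linarith)
  have e3 : exp (93 / 100 * L) ≤ Fintype.card V * exp (-(6 / 100 * L)) := by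
    rw [hn, ← exp_add]; exact exp_le_exp.2 (by linarith)
  have e4 : 2 * (Fintype.card V * exp (-(4 * L))) ≤ exp (-(2 * L)) := by
    have h2 : 2 ≤ exp L := by linarith [add_one_le_exp L]
    calc 2 * (Fintype.card V * exp (-(4 * L))) ≤ exp L * (Fintype.card V * exp (-(4 * L))) :=
          mul_le_mul_of_nonneg_right h2 (by positivity)
      _ = _ := by rw [hn, ← exp_add, ← exp_add]; congr 1; ring
  have hn0 : (0 : ℝ) < Fintype.card V := by rw [hn]; exact exp_pos _
  have hw0 := exp_pos (93 / 100 * L)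
  rw [e1] at h81
  clear e46 e81 e30 e1 hn hτ
  generalize exp (93 / 100 * L) = w at *
  generalize τ ^ 46 = a at *
  generalize τ ^ 81 = b at *
  generalize τ ^ 30 = c at *
  obtain ⟨μ, hμ, hD, hs⟩ := Pl.place hE X (φ := 1 / 1000) (hX.mono (fun _ h => h) (by linarith))
    (absp_num1 hn0 e2 a46 h46 h81)
  refine ⟨μ, hμ, hD, ?_, fun e => ?_⟩
  · have r1 := Pl.rays hE two_pos hμ.nonneg hD (4 * L)
    have r2 := Dom.load hμ.nonneg hD (absp_M B Q) (Mx := 10 * c) (by linarith)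
      (fun _ => ct_nonneg _) hM (w / 2)
    have hb : 8 * (150 * b) / (Fintype.card V : ℝ) ≤ w / 4 := by
      rw [div_le_iff₀ hn0]
      have := mul_pos hw0 hn0
      linarith
    have hLc : L ≤ L * c := le_mul_of_one_le_right (by linarith) a30
    have r3 : -(w / 2 / (10 * c)) + 4 * (∑ i, absp_M B Q i) / (10 * c * Fintype.card V) ≤
        -(4 * L) := by
      have hc : 0 < 10 * c := by linarith
      have h1 : 4 * (∑ i, absp_M B Q i) / (10 * c * Fintype.card V) ≤ w / 4 / (10 * c) := by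
        rw [mul_comm (10 * c), ← div_div]
        refine div_le_div_of_nonneg_right ?_ hc.le
        rw [div_le_iff₀ hn0]
        have := mul_pos hw0 hn0
        linarith
      have h2 : 4 * L ≤ w / 4 / (10 * c) := by
        rw [le_div_iff₀ hc]
        linarith
      have h3 : w / 2 / (10 * c) = w / 4 / (10 * c) + w / 4 / (10 * c) := by ring
      linarith
    have r4 := r2.trans (mul_le_mul_of_nonneg_left (exp_le_exp.2 r3) hn0.le)
    refine le_trans ?_ ((add_le_add r1 r4).trans (by linarith))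
    rw [← Av_add]
    refine Av_mono' hμ.nonneg fun x hx => le_trans (ind_mono fun hG => ?_) (ind_or_le _ _)
    by_contra hc
    rw [not_or, not_not, not_exists] at hc
    obtain ⟨s1, s2⟩ := hs x hx
    refine hG ⟨fun o k o' k' h h' he => ?_, fun e he => ?_, fun v => ?_, ?_⟩
    · have hk : k < 15 := lt_of_lt_of_le h.2.2 (hB.lohi o).2
      have hk' : k' < 15 := lt_of_lt_of_le h'.2.2 (hB.lohi o').2
      have := s2 (o, ⟨k, hk⟩) (o', ⟨k', hk'⟩) h h' (by
        rw [absp_line B x (o, ⟨k, hk⟩) h, absp_line B x (o', ⟨k', hk'⟩) h']; exact he)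
      obtain ⟨h1, h2⟩ := Prod.mk.inj this
      exact ⟨h1, congrArg Fin.val h2⟩
    · obtain ⟨i, hi, rfl⟩ := (absp_OL hB x e).1 he
      exact s1 i hi
    · have h1 := hld x v
      have h2 := not_le.1 (hc.2 v)
      linarith
    · exact hc.1.mono (fun e he => (absp_OL hB x e).1 he) (by linarith)
  · rw [Av_congr fun x => ind_congr (absp_OL hB x e)]
    exact (Pl.hit hE hμ.nonneg hD e).trans (absp_num2 hn0 hw0.le e3 h46 h81)

end Pool.Agent.MP_46aeaf_co.HT

/-! The absorber: placement of the gadgets. -/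

namespace Pool.Agent.MP_46aeaf_co.HT

open Finset Pool.Agent.MP_81e6aa_pr Real Filter

section

variable {V Obj Gad PV TT : Type}

/-- an end of a template edge as an end of the placement -/
def absq_en (W : Fin 15 → V) (g : Gad) (z : Fin 15 ⊕ PV) : (Gad × PV) ⊕ V :=
  Sum.elim (fun j => Sum.inr (W j)) (fun p => Sum.inl (g, p)) z

lemma absq_en_inl {W : Fin 15 → V} {g : Gad} {z : Fin 15 ⊕ PV} {y : Gad × PV}
    (h : absq_en W g z = Sum.inl y) : g = y.1 ∧ z = Sum.inr y.2 := by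
  cases z with
  | inl j => simp [absq_en] at h
  | inr p => simp only [absq_en, Sum.elim_inr, Sum.inl.injEq] at h; subst h; exact ⟨rfl, rfl⟩

lemma absq_en_inr {W : Fin 15 → V} {g : Gad} {z : Fin 15 ⊕ PV} {v : V}
    (h : absq_en W g z = Sum.inr v) : ∃ j, W j = v ∧ z = Sum.inl j := by
  cases z with
  | inl j => exact ⟨j, by simpa [absq_en] using h, rfl⟩
  | inr p => simp [absq_en] at h

lemma absq_en_eq {W W' : Fin 15 → V} {g g' : Gad} {z z' : Fin 15 ⊕ PV}
    (h : absq_en W g z = absq_en W' g' z') :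
    z.getRight? = z'.getRight? ∧ ((absq_en W g z).isLeft → g = g') := by
  cases z <;> cases z' <;> simp_all [absq_en]

lemma absq_en_elim (W : Fin 15 → V) (g : Gad) (z : Fin 15 ⊕ PV) (y : Gad × PV → V) :
    Sum.elim y id (absq_en W g z) = Sum.elim W (fun p => y (g, p)) z := by
  cases z <;> rfl

/-- the placement problem of the gadgets -/
def absq_pl (B : Blue V Obj Gad) (T : Tm PV TT) (Q : V → V → Prop) (x : Obj × Fin 15 → V) :
    Pl (Gad × TT × Fin 3) (Gad × PV) V where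
  act p := B.act Q p.1 ∧ T.val false p.2.1
  k p := T.k false p.2.1 + p.2.2
  a p := absq_en (B.root x p.1) p.1 (T.v false p.2.1 p.2.2)
  b p := absq_en (B.root x p.1) p.1 (T.v false p.2.1 (p.2.2 + 1))
  cv y := T.cp y.2

lemma absq_line (B : Blue V Obj Gad) (T : Tm PV TT) (Q : V → V → Prop) (x : Obj × Fin 15 → V)
    (y : Gad × PV → V) (p : Gad × TT × Fin 3) :
    (absq_pl B T Q x).line y p = B.garc T x y p.1 false p.2.1 p.2.2 := by
  simp only [Pl.line, absq_pl, absq_en_elim, Blue.garc]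

lemma absq_gdl (B : Blue V Obj Gad) (T : Tm PV TT) (Q : V → V → Prop) (x : Obj × Fin 15 → V)
    (y : Gad × PV → V) (e : Ln V) :
    B.GdL T Q x y e ↔ ∃ p, (absq_pl B T Q x).act p ∧ (absq_pl B T Q x).line y p = e := by
  constructor
  · rintro ⟨g, τ, i, h1, h2, h3⟩
    exact ⟨(g, τ, i), ⟨h1, h2⟩, by rw [absq_line]; exact h3⟩
  · rintro ⟨p, ⟨h1, h2⟩, h3⟩
    exact ⟨p.1, p.2.1, p.2.2, h1, h2, by rw [← absq_line B T Q]; exact h3⟩

variable [Fintype Gad] [Fintype TT] [DecidableEq TT]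

lemma absq_ok (B : Blue V Obj Gad) {T : Tm PV TT} {h : ℕ} (hT : T.Ok h) {Q : V → V → Prop}
    {x : Obj × Fin 15 → V} {Λ N : ℝ}
    (hl : ∀ v, ct (fun p : Gad × Fin 15 => B.act Q p.1 ∧ B.root x p.1 p.2 = v) ≤ Λ)
    (hN : ct (B.act Q) * (3 * (15 + 96 * h)) ≤ N) :
    (absq_pl B T Q x).Ok 100 (100 * Λ) N := by
  have hvar : ∀ p, (absq_pl B T Q x).act p →
      ((absq_pl B T Q x).a p).isLeft ∨ ((absq_pl B T Q x).b p).isLeft := by
    rintro ⟨g, τ, i⟩ ⟨-, hv⟩
    have := hT.off τ i (i + 1) hv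
    have hi : i ≠ i + 1 := (by decide : ∀ i : Fin 3, i ≠ i + 1) i
    simp only [absq_pl]
    rcases h1 : T.v false τ i with j | p
    · rcases h2 : T.v false τ (i + 1) with j' | p'
      · rw [h1, h2] at this
        exact absurd (this rfl rfl) hi
      · exact Or.inr rfl
    · exact Or.inl rfl
  refine ⟨?_, ?_, hvar, ?_, ?_, ?_, ?_⟩
  · rintro ⟨g, τ, i⟩ y ⟨-, hv⟩ ha
    have := hT.cls false τ i hv
    rw [(absq_en_inl ha).2] at this
    exact this
  · rintro ⟨g, τ, i⟩ y ⟨-, hv⟩ hb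
    have := hT.cls false τ (i + 1) hv
    rw [(absq_en_inl hb).2, ← add_assoc] at this
    exact this
  · rintro ⟨g, τ, i⟩ ⟨g', τ', i'⟩ hp hp' ha hb
    obtain ⟨a1, a2⟩ := absq_en_eq ha
    obtain ⟨b1, b2⟩ := absq_en_eq hb
    obtain ⟨rfl, rfl⟩ := hT.dist τ i τ' i' hp.2 hp'.2 a1 b1
    obtain rfl : g = g' := (hvar _ hp).elim a2 b2
    rfl
  · intro y
    refine le_trans (ct_le_of_inj Prod.snd ?_ ?_) (hT.deg (Sum.inr y.2))
    · rintro ⟨g, τ, i⟩ ⟨⟨-, hv⟩, hy⟩
      exact ⟨hv, hy.imp (fun h => (absq_en_inl h).2) fun h => (absq_en_inl h).2⟩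
    · rintro ⟨g, q⟩ ⟨g', q'⟩ ⟨-, hy⟩ ⟨-, hy'⟩ e
      have e1 : g = y.1 := hy.elim (fun h => (absq_en_inl h).1) fun h => (absq_en_inl h).1
      have e2 : g' = y.1 := hy'.elim (fun h => (absq_en_inl h).1) fun h => (absq_en_inl h).1
      exact Prod.ext (e1.trans e2.symm) e
  · intro v
    have h1 := hl v
    rw [ct_prod] at h1 ⊢
    refine le_trans (sum_le_sum fun g _ => ?_) (le_trans (le_of_eq (mul_sum _ _ _).symm)
      (mul_le_mul_of_nonneg_left h1 (by norm_num)))
    refine le_trans (ct_mono (Y := fun q : TT × Fin 3 => ∃ j : Fin 15,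
      (B.act Q g ∧ B.root x g j = v) ∧ T.val false q.1 ∧
        (T.v false q.1 q.2 = Sum.inl j ∨ T.v false q.1 (q.2 + 1) = Sum.inl j)) ?_)
      (le_trans (ct_exists_le _) ?_)
    · rintro ⟨τ, i⟩ ⟨⟨hg, hv⟩, hy | hy⟩
      · obtain ⟨j, e1, e2⟩ := absq_en_inr hy
        exact ⟨j, ⟨hg, e1⟩, hv, Or.inl e2⟩
      · obtain ⟨j, e1, e2⟩ := absq_en_inr hy
        exact ⟨j, ⟨hg, e1⟩, hv, Or.inr e2⟩
    · unfold ct
      rw [mul_sum]
      refine sum_le_sum fun j _ => ?_
      by_cases hj : B.act Q g ∧ B.root x g j = v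
      · rw [ind_pos hj, mul_one]
        exact le_trans (ct_mono fun q hq => hq.2) (hT.deg (Sum.inl j))
      · rw [ind_neg hj, mul_zero]
        exact le_of_eq (ct_false fun q hq => hj hq.1)
  · refine le_trans ?_ hN
    rw [ct_prod]
    unfold ct
    rw [sum_mul]
    refine sum_le_sum fun g _ => ?_
    by_cases hg : B.act Q g
    · rw [ind_pos hg, one_mul]
      refine (ct_le_card _).trans ?_
      have : (Fintype.card TT : ℝ) ≤ 15 + 96 * h := by exact_mod_cast hT.size
      simp only [Fintype.card_prod, Fintype.card_fin, Nat.cast_mul, Nat.cast_ofNat]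
      linarith
    · rw [ind_neg hg, zero_mul]
      exact le_of_eq (ct_false fun q hq => hg hq.1)

end

lemma absq_num {u : ℝ} (hu : 10 ^ 30 ≤ u) :
    u ^ 100 / 1000 + u ^ 93 ≤ 1 / 500 * u ^ 100 ∧
    100 * (4 * (1 / 500) + 32 * (u ^ 165 / (u ^ 100) ^ 2 + 2 * (100 * u ^ 93 + 100) / u ^ 100)) ≤ 1 ∧
    100 * u ^ 93 + 8 * u ^ 165 / u ^ 100 + 100 * (3 * u) ≤ u ^ 94 ∧
    4 * (u ^ 165 / (u ^ 100) ^ 2 + 2 * (100 * u ^ 93) / u ^ 100) ≤ (u ^ 6)⁻¹ ∧
    10 * (2 * u ^ 2) ^ 81 * (3 * (15 + 96 * u)) ≤ u ^ 165 := by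
  have h1 : (1 : ℝ) ≤ u := le_trans (by norm_num) hu
  have h0 : (0 : ℝ) < u := by linarith
  have p : ∀ {a b : ℕ}, a ≤ b → u ^ a ≤ u ^ b := fun h => pow_le_pow_right₀ h1 h
  have q : ∀ a : ℕ, 10 ^ 30 * u ^ a ≤ u ^ (a + 1) := fun a => by
    rw [pow_succ u a, mul_comm (u ^ a)]
    exact mul_le_mul_of_nonneg_right hu (by positivity)
  have z : ∀ a : ℕ, 0 < u ^ a := fun a => by positivity
  have e1 : u ^ 165 / (u ^ 100) ^ 2 ≤ (u ^ 7)⁻¹ := by
    rw [div_le_iff₀ (by positivity), ← pow_mul, le_inv_mul_iff₀ (z 7), ← pow_add]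
    exact p (by norm_num)
  have e2 : u ^ 93 / u ^ 100 = (u ^ 7)⁻¹ := by
    rw [div_eq_iff (z 100).ne', eq_inv_mul_iff_mul_eq₀ (z 7).ne', ← pow_add]
  have e3 : 1 / u ^ 100 ≤ (u ^ 7)⁻¹ := by
    rw [one_div]; exact inv_anti₀ (z 7) (p (by norm_num))
  have e4 : 10 ^ 30 * (u ^ 7)⁻¹ ≤ (u ^ 6)⁻¹ := by
    rw [mul_inv_le_iff₀ (z 7), le_inv_mul_iff₀ (z 6), mul_comm]
    exact q 6
  have e5 : (u ^ 6)⁻¹ ≤ 1 := inv_le_one_of_one_le₀ (one_le_pow₀ h1)
  have e6 : 0 < (u ^ 7)⁻¹ := inv_pos.2 (z 7)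
  refine ⟨?_, ?_, ?_, ?_, ?_⟩
  · have := q 93
    have := p (show 93 + 1 ≤ 100 by norm_num)
    have := z 93
    linarith
  · have : 2 * (100 * u ^ 93 + 100) / u ^ 100 = 200 * (u ^ 93 / u ^ 100) + 200 * (1 / u ^ 100) := by
      generalize u ^ 93 = a; generalize u ^ 100 = b; ring
    rw [this, e2]
    linarith
  · have e : 8 * u ^ 165 / u ^ 100 = 8 * u ^ 65 := by
      rw [div_eq_iff (z 100).ne', mul_assoc, ← pow_add]
    have a1 : 10 ^ 30 * u ^ 93 ≤ u ^ 94 := q 93
    have a2 := p (show 65 ≤ 93 by norm_num)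
    have a3 := p (show 1 ≤ 93 by norm_num)
    have a4 := z 93
    rw [e]
    rw [pow_one] at a3
    generalize u ^ 93 = a at *
    generalize u ^ 94 = b at *
    linarith
  · have : 2 * (100 * u ^ 93) / u ^ 100 = 200 * (u ^ 93 / u ^ 100) := by
      generalize u ^ 93 = a; generalize u ^ 100 = b; ring
    rw [this, e2]
    linarith
  · have e : (2 * u ^ 2) ^ 81 = 2 ^ 81 * u ^ 162 := by rw [mul_pow, ← pow_mul]
    have a1 := q 163
    have a2 := p (show 163 + 1 ≤ 165 by norm_num)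
    have a3 : u ^ 162 * (3 * (15 + 96 * u)) ≤ 333 * u ^ 163 := by
      rw [pow_succ u 162, mul_left_comm]
      rw [mul_left_comm, mul_left_comm 333]
      exact mul_le_mul_of_nonneg_left (by linarith) (z 162).le
    have := z 163
    rw [e, mul_assoc, mul_assoc]
    generalize u ^ 162 * (3 * (15 + 96 * u)) = w at *
    norm_num
    linarith

/-- placement of the gadgets -/
theorem abs2 : ∀ᶠ L : ℝ in atTop, ∀ (V Obj Gad PV TT : Type) [Fintype V] [Nonempty V]
    [Fintype Obj] [Fintype Gad] [DecidableEq Gad] [Fintype PV] [DecidableEq PV] [Fintype TT]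
    [DecidableEq TT] (B : Blue V Obj Gad) (T : Tm PV TT) (m h : ℕ) (τ : ℝ) (X : Ln V → Prop)
    (Q : V → V → Prop) (x : Obj × Fin 15 → V), (Fintype.card V : ℝ) = exp L → 1 ≤ τ →
    τ ≤ 2 * exp (L / 50) → B.Ok m τ → T.Ok h → (h : ℝ) ≤ L → RayLe X (Fintype.card V / 1000) →
    DegLe Q (2 * τ) → B.G1 (exp (93 / 100 * L)) X Q x →
    ∃ μ : (Gad × PV → V) → ℝ, Pm μ ∧ Dom (fun _ => unif V) μ ∧
      Av μ (fun y => ind (¬ B.G2 T (exp (94 / 100 * L)) X Q x y)) ≤ exp (-(2 * L)) ∧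
      ∀ e, Av μ (fun y => ind (B.GdL T Q x y e)) ≤ exp (-(6 / 100 * L)) := by
  have hev : ∀ᶠ L : ℝ in atTop, 10 ^ 30 ≤ exp (1 / 100 * L) := by
    simpa using ev_pow (10 ^ 30) 0 (c := 1 / 100) (by norm_num)
  filter_upwards [hev, ev_pow 1 1 (c := 1 / 100) (by norm_num)] with L hu hLu
  intro V Obj Gad PV TT _ _ _ _ _ _ _ _ _ B T m h τ X Q x hn hτ1 hτ hB hT hh hX hQ hG
  rw [one_mul, pow_one] at hLu
  have pw : ∀ (c : ℝ) (k : ℕ), c = k / 100 → exp (c * L) = exp (1 / 100 * L) ^ k := by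
    rintro c k rfl
    rw [← exp_nat_mul]; congr 1; ring
  have n100 : (Fintype.card V : ℝ) = exp (1 / 100 * L) ^ 100 := by
    rw [hn, ← pw 1 100 (by norm_num), one_mul]
  have e50 : exp (L / 50) = exp (1 / 100 * L) ^ 2 := by
    rw [← pw (1 / 50) 2 (by norm_num)]; congr 1; ring
  have e6 : exp (-(6 / 100 * L)) = (exp (1 / 100 * L) ^ 6)⁻¹ := by
    rw [exp_neg, pw _ 6 (by norm_num)]
  have e3 : (Fintype.card V : ℝ) * exp (-(3 * L)) = exp (-(2 * L)) := by
    rw [hn, ← exp_add]; congr 1; ring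
  rw [pw _ 93 (by norm_num)] at hG
  rw [pw _ 94 (by norm_num), e6]
  rw [e50] at hτ
  generalize exp (1 / 100 * L) = u at hu hLu n100 hG hτ ⊢
  obtain ⟨n1, n2, n3, n4, n5⟩ := absq_num hu
  have hN : ct (B.act Q) * (3 * (15 + 96 * h)) ≤ u ^ 165 := by
    refine le_trans (mul_le_mul ((hB.ngad Q hQ).trans ?_) (by linarith) (by positivity) ?_) n5
    · exact mul_le_mul_of_nonneg_left (pow_le_pow_left₀ (by linarith) hτ 81) (by norm_num)
    · have : 0 ≤ 2 * u ^ 2 := by linarith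
      positivity
  have hE := absq_ok B hT hG.load hN
  obtain ⟨μ, hμ, hD, hs⟩ := Pl.place hE (fun e => X e ∨ B.OL x e) (φ := 1 / 500)
    ((hX.or hG.ray).mono (fun _ h => h) (by rw [n100]; exact n1)) (by rw [n100]; exact n2)
  refine ⟨μ, hμ, hD, ?_, fun e => ?_⟩
  · rw [← e3]
    refine le_trans ?_ (Pl.rays hE (by norm_num) hμ.nonneg hD (3 * L))
    refine Av_mono' hμ.nonneg fun y hy => ind_mono fun hne hr => hne ?_
    obtain ⟨s1, s2⟩ := hs y hy
    refine ⟨fun g τ i g' τ' i' a1 a2 a3 a4 e => ?_, fun e he => ?_, ?_⟩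
    · have := s2 (g, τ, i) (g', τ', i') ⟨a1, a2⟩ ⟨a3, a4⟩ (by rw [absq_line, absq_line]; exact e)
      simpa using this
    · obtain ⟨p, hp, rfl⟩ := (absq_gdl B T Q x y e).1 he
      exact not_or.1 (s1 p hp)
    · refine hr.mono (fun e he => (absq_gdl B T Q x y e).1 he) ?_
      rw [n100]
      linarith
  · rw [Av_congr fun y => ind_congr (absq_gdl B T Q x y e)]
    refine (Pl.hit hE hμ.nonneg hD e).trans ?_
    rw [n100]
    exact n4

end Pool.Agent.MP_46aeaf_co.HT

end

-- part MP_46aeaf_co.LS.Frag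
section

set_option autoImplicit false
set_option linter.unusedSectionVars false
set_option linter.unusedVariables false

/-! Fragmentation with a fast rate. -/

namespace Pool.Agent.MP_46aeaf_co.HT

open Finset Pool.Agent.MP_81e6aa_pr Real Filter

variable {Ω ι : Type} [Fintype Ω] [DecidableEq Ω] [Fintype ι]

lemma fk_all {p : ℝ} (hp0 : 0 ≤ p) (hp1 : p ≤ 1) (A : Finset Ω) :
    Ex (fun _ : Ω => bern p) (fun Z => ind (∀ t ∈ A, Z t = true)) = p ^ A.card := by
  simp only [ind_forall]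
  rw [Ex_all _ (isP_bern (fun _ => hp0) fun _ => hp1) A (fun _ b => ind (b = true))]
  simp [bern, ind]

/-- change of measure -/
lemma fk_change {p : ℝ} (hp0 : 0 < p) (hp1 : p ≤ 1) (A : Finset Ω) (F : (Ω → Bool) → ℝ) :
    Ex (fun _ : Ω => bern p) (fun W => F fun t => W t || decide (t ∈ A)) =
      Ex (fun _ : Ω => bern p) fun Z => p⁻¹ ^ A.card * ind (∀ t ∈ A, Z t = true) * F Z := by
  have hw : IsP (fun _ : Ω => bern p) := isP_bern (fun _ => hp0.le) fun _ => hp1
  have e : ∀ Z : Ω → Bool, p⁻¹ ^ A.card * ind (∀ t ∈ A, Z t = true) * F Z =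
      p⁻¹ ^ A.card * (ind (∀ t ∈ A, Z t = true) * F fun t => Z t || decide (t ∈ A)) := by
    intro Z
    by_cases h : ∀ t ∈ A, Z t = true
    · have : (fun t => Z t || decide (t ∈ A)) = Z := funext fun t => by
        by_cases ht : t ∈ A
        · simp [h t ht]
        · simp [ht]
      rw [this, mul_assoc]
    · simp [ind_neg h]
  simp only [e]
  rw [Ex_smul, Ex_mul hw (A := (· ∈ A)) (B := (· ∉ A)), fk_all hp0.le hp1, ← mul_assoc,
    ← mul_pow, inv_mul_cancel₀ hp0.ne', one_pow, one_mul]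
  · intro x y h
    exact ind_congr (forall₂_congr fun t ht => by rw [h t ht])
  · intro x y h
    refine congrArg F (funext fun t => ?_)
    by_cases ht : t ∈ A
    · simp [ht]
    · rw [h t ht]
  · exact fun i hi h => h hi

lemma fk_sq {w : Ω → Bool → ℝ} (hw : IsP w) (B : (Ω → Bool) → ℝ) :
    Ex w B ^ 2 ≤ Ex w fun Z => B Z ^ 2 := by
  have h := Ex_nonneg hw.nonneg (F := fun Z => (B Z - Ex w B) ^ 2) fun _ => sq_nonneg _
  have e : ∀ Z, (B Z - Ex w B) ^ 2 = B Z ^ 2 - 2 * Ex w B * B Z + Ex w B ^ 2 := fun Z => by ring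
  simp only [e] at h
  rw [Ex_add, Ex_sub, Ex_smul, Ex_const hw] at h
  linarith

/-- One round. -/
theorem fk_round (ν : ι → ℝ) (h0 : ∀ i, 0 ≤ ν i) (h1 : ∑ i, ν i ≤ 1) (S : ι → Finset Ω)
    {x p k c Λ : ℝ} (hx : 0 < x) (hp0 : 0 < p) (hp1 : p ≤ 1) (hc0 : 0 ≤ c) (hΛ : 0 ≤ Λ)
    (hc : ∀ j : ℕ, k < j → 1 ≤ c * (p * x) ^ j)
    (hH : ∀ i, ν i ≠ 0 → ∑ i', ν i' * (1 + x) ^ (S i ∩ S i').card ≤ Λ) :
    Ex (fun _ : Ω => bern p) (fun W => ∑ i, ν i * ind (¬ ∃ i', ν i' ≠ 0 ∧
      (∀ t ∈ S i', W t = true ∨ t ∈ S i) ∧ ((S i ∩ S i').card : ℝ) ≤ k)) ≤ √(Λ * c) := by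
  have hw : IsP (fun _ : Ω => bern p) := isP_bern (fun _ => hp0.le) fun _ => hp1
  have hq : 0 < p⁻¹ := inv_pos.2 hp0
  set bad : ι → (Ω → Bool) → Prop := fun i Z => ¬ ∃ i', ν i' ≠ 0 ∧
    (∀ t ∈ S i', Z t = true) ∧ ((S i ∩ S i').card : ℝ) ≤ k with hbad
  set a : ι → (Ω → Bool) → ℝ := fun i Z =>
    ν i * (p⁻¹ ^ (S i).card * ind (∀ t ∈ S i, Z t = true)) with ha
  have a0 : ∀ i Z, 0 ≤ a i Z := fun i Z =>
    mul_nonneg (h0 i) (mul_nonneg (by positivity) (ind_nonneg _))
  have e1 : Ex (fun _ : Ω => bern p) (fun W => ∑ i, ν i * ind (¬ ∃ i', ν i' ≠ 0 ∧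
      (∀ t ∈ S i', W t = true ∨ t ∈ S i) ∧ ((S i ∩ S i').card : ℝ) ≤ k)) =
      Ex (fun _ : Ω => bern p) fun Z => ∑ i, a i Z * ind (bad i Z) := by
    rw [Ex_sum, Ex_sum]
    refine sum_congr rfl fun i _ => ?_
    have := fk_change hp0 hp1 (S i) fun Z => ind (bad i Z)
    simp only [ha, mul_assoc (ν i)]
    rw [Ex_smul, Ex_smul, ← this]
    congr 1
    refine Ex_congr fun W => ind_congr ?_
    simp only [hbad, Bool.or_eq_true, decide_eq_true_eq]
  have e2 : ∀ i i', Ex (fun _ : Ω => bern p) (fun Z => a i Z * a i' Z) =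
      ν i * ν i' * p⁻¹ ^ (S i ∩ S i').card := by
    intro i i'
    have e : ∀ Z, a i Z * a i' Z = ν i * ν i' * (p⁻¹ ^ (S i).card * p⁻¹ ^ (S i').card) *
        ind (∀ t ∈ S i ∪ S i', Z t = true) := fun Z => by
      rw [ind_congr (forall_mem_union (s := S i) (t := S i') (p := fun t => Z t = true)), ind_and]
      simp only [ha]
      ring
    simp only [e]
    rw [Ex_smul, fk_all hp0.le hp1, ← pow_add, ← card_union_add_card_inter, pow_add,
      mul_assoc, mul_right_comm (p⁻¹ ^ _), ← mul_pow, inv_mul_cancel₀ hp0.ne', one_pow, one_mul]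
  have e3 : ∀ Z, (∑ i, a i Z * ind (bad i Z)) ^ 2 ≤
      ∑ i, ∑ i', ind (k < (S i ∩ S i').card) * (a i Z * a i' Z) := by
    intro Z
    rw [sq, sum_mul_sum]
    refine sum_le_sum fun i _ => sum_le_sum fun i' _ => ?_
    have h2 := mul_nonneg (a0 i Z) (a0 i' Z)
    by_cases hk : k < (S i ∩ S i').card
    · rw [ind_pos hk, one_mul]
      exact mul_le_mul (mul_le_of_le_one_right (a0 _ _) (ind_le_one _))
        (mul_le_of_le_one_right (a0 _ _) (ind_le_one _)) (mul_nonneg (a0 _ _) (ind_nonneg _))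
        (a0 _ _)
    · rw [ind_neg hk, zero_mul]
      by_cases hb : bad i Z
      · have : a i' Z = 0 := by
          by_contra hne
          refine hb ⟨i', left_ne_zero_of_mul hne, ?_, not_lt.1 hk⟩
          by_contra hn
          exact hne (by simp only [ha, ind_neg hn, mul_zero])
        simp [this]
      · simp [ind_neg hb]
  rw [e1]
  refine (le_abs_self _).trans (Real.abs_le_sqrt ((fk_sq hw _).trans
    ((Ex_mono hw.nonneg e3).trans ?_)))
  rw [Ex_sum]
  simp only [Ex_sum, Ex_smul, e2]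
  calc _ ≤ ∑ i, ν i * (Λ * c) := by
        refine sum_le_sum fun i _ => ?_
        by_cases hi : ν i = 0
        · simp [hi]
        · calc _ ≤ ∑ i', ν i * c * (ν i' * (1 + x) ^ (S i ∩ S i').card) := by
                refine sum_le_sum fun i' _ => ?_
                have n0 := h0 i
                have n1 := h0 i'
                generalize (S i ∩ S i').card = j
                by_cases hk : k < j
                · have b1 : p⁻¹ ^ j ≤ c * (1 + x) ^ j := by
                    calc p⁻¹ ^ j ≤ p⁻¹ ^ j * (c * (p * x) ^ j) :=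
                          le_mul_of_one_le_right (by positivity) (hc j hk)
                      _ = c * x ^ j := by
                          rw [mul_left_comm, ← mul_pow, ← mul_assoc p⁻¹, inv_mul_cancel₀ hp0.ne',
                            one_mul]
                      _ ≤ _ := mul_le_mul_of_nonneg_left
                          (pow_le_pow_left₀ hx.le (by linarith) j) hc0
                  have := mul_le_mul_of_nonneg_left b1 (mul_nonneg n0 n1)
                  rw [ind_pos hk]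
                  linarith
                · rw [ind_neg hk, zero_mul]
                  positivity
            _ ≤ _ := by
                rw [← mul_sum]
                have := mul_le_mul_of_nonneg_left (hH i hi) (mul_nonneg (h0 i) hc0)
                linarith
    _ ≤ _ := by
        rw [← sum_mul]
        exact mul_le_of_le_one_left (mul_nonneg hΛ hc0) h1

lemma fk_aux {x κ L₀ M : ℝ} (hx : 0 < x) (hκ0 : 0 < κ) (hκ : κ ≤ 1 / 4) (hL : 0 < L₀)
    (hM : 1 ≤ M) (J : ℕ) : ∀ (ν : ι → ℝ) (_ : ∀ i, 0 ≤ ν i) (_ : ∑ i, ν i ≤ 1)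
    (S : ι → Finset Ω) (p : ℝ)
    (_ : ∀ i, ν i ≠ 0 → ∀ A ⊆ S i, ∑ i', ν i' * (1 + x) ^ (A ∩ S i').card ≤ exp (κ * A.card))
    (_ : ∀ i, ν i ≠ 0 → (S i).card * (2 * κ) ^ J ≤ L₀)
    (_ : (J * exp 1 + M) / x ≤ p) (_ : p ≤ 1),
    (∑ i, ν i) * Ex (fun _ : Ω => bern p)
      (fun W => ind (¬ ∃ i, ν i ≠ 0 ∧ ∀ t ∈ S i, W t = true)) ≤
      2 / (κ * L₀) * (1 - 1 / 2 ^ J) + √(exp (κ * L₀) / M) := by
  induction J with
  | zero =>
    intro ν h0 h1 S p hH hS hp hp1
    simp only [Nat.cast_zero, zero_mul, zero_add, pow_zero, mul_one] at hp hS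
    have hM0 : 0 < M := by linarith
    have hp0 : 0 < p := lt_of_lt_of_le (by positivity) hp
    have hpx : M ≤ p * x := (div_le_iff₀ hx).1 hp
    have hw : IsP (fun _ : Ω => bern p) := isP_bern (fun _ => hp0.le) fun _ => hp1
    have := fk_round ν h0 h1 S (k := 0) (c := M⁻¹) (Λ := exp (κ * L₀)) hx hp0 hp1
      (by positivity) (exp_pos _).le (fun j hj => ?_) fun i hi =>
        (hH i hi _ subset_rfl).trans (exp_le_exp.2 (mul_le_mul_of_nonneg_left (hS i hi) hκ0.le))
    · simp only [pow_zero, div_one, sub_self, mul_zero, zero_add, div_eq_mul_inv (exp _)]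
      refine le_trans ?_ this
      rw [← Ex_smul]
      refine Ex_mono hw.nonneg fun W => ?_
      rw [sum_mul]
      refine sum_le_sum fun i _ => mul_le_mul_of_nonneg_left (ind_mono ?_) (h0 i)
      rintro h ⟨i', a, b, c⟩
      refine h ⟨i', a, fun t ht => (b t ht).resolve_right fun ht' => ?_⟩
      have : 0 < (S i ∩ S i').card := card_pos.2 ⟨t, mem_inter.2 ⟨ht', ht⟩⟩
      have : (0 : ℝ) < (S i ∩ S i').card := by exact_mod_cast this
      linarith
    · rw [inv_mul_eq_div, le_div_iff₀ hM0, one_mul]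
      refine hpx.trans (le_self_pow₀ (hM.trans hpx) ?_)
      rintro rfl
      simp at hj
  | succ J ih =>
    intro ν h0 h1 S p hH hS hp hp1
    have he := exp_pos 1
    have hM0 : 0 < M := by linarith
    have q1 : 0 < exp 1 / x := by positivity
    have q2 : 0 < (J * exp 1 + M) / x := by positivity
    have q3 : exp 1 / x + (J * exp 1 + M) / x ≤ p := by
      refine le_trans (le_of_eq ?_) hp
      push_cast
      ring
    have w1 : IsP (fun _ : Ω => bern (exp 1 / x)) := isP_bern (fun _ => q1.le) fun _ => by linarith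
    have w2 : IsP (fun _ : Ω => bern ((J * exp 1 + M) / x)) :=
      isP_bern (fun _ => q2.le) fun _ => by linarith
    have s0 : 0 ≤ ∑ i, ν i := sum_nonneg fun i _ => h0 i
    have r0 : 0 < (2 * κ) ^ J := by positivity
    set k : ℝ := L₀ / (2 * κ) ^ J with hk
    have k0 : 0 < k := by positivity
    have hkL : k * (2 * κ) ^ J = L₀ := div_mul_cancel₀ _ r0.ne'
    have hr := fk_round ν h0 h1 S (k := k) (c := exp (-k)) (Λ := exp (k / 2)) hx q1
      (by linarith) (exp_pos _).le (exp_pos _).le (fun j hj => ?_) fun i hi =>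
        (hH i hi _ subset_rfl).trans (exp_le_exp.2 ?_)
    rotate_left
    · rw [div_mul_cancel₀ _ hx.ne', ← exp_nat_mul, ← exp_add]
      exact one_le_exp (by linarith)
    · have := hS i hi
      rw [← hkL, pow_succ', ← mul_assoc] at this
      linarith [le_of_mul_le_mul_right this r0]
    have hb : √(exp (k / 2) * exp (-k)) ≤ 2 / (κ * L₀) * (1 / 2 ^ (J + 1)) := by
      have e : exp (k / 2) * exp (-k) = exp (-(k / 4)) ^ 2 := by
        rw [sq, ← exp_add, ← exp_add]; congr 1; ring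
      rw [e, sqrt_sq (exp_pos _).le, exp_neg]
      have b1 : (exp (k / 4))⁻¹ ≤ (k / 4)⁻¹ :=
        inv_anti₀ (by positivity) (by linarith [add_one_le_exp (k / 4)])
      have b2 : (2 * κ) ^ (J + 1) ≤ (1 / 2) ^ (J + 1) :=
        pow_le_pow_left₀ (by positivity) (by linarith) _
      refine b1.trans ?_
      rw [← one_div_pow]
      refine le_trans (le_of_eq ?_) (mul_le_mul_of_nonneg_left b2 (by positivity))
      rw [← hkL, pow_succ]
      field_simp
      norm_num
    refine (mul_le_mul_of_nonneg_left (Ex_split q1.le q2.le q3 hp1 _ fun W Z h =>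
      ind_mono fun hZ ⟨i, a, b⟩ => hZ ⟨i, a, fun t ht => h t (b t ht)⟩) s0).trans ?_
    rw [← Ex_smul]
    refine (Ex_mono w1.nonneg (G := fun W => (2 / (κ * L₀) * (1 - 1 / 2 ^ J) +
      √(exp (κ * L₀) / M)) + ∑ i, ν i * ind (¬ ∃ i', ν i' ≠ 0 ∧
      (∀ t ∈ S i', W t = true ∨ t ∈ S i) ∧ ((S i ∩ S i').card : ℝ) ≤ k)) fun W => ?_).trans ?_
    · set good : ι → Prop := fun i => ∃ i', ν i' ≠ 0 ∧
        (∀ t ∈ S i', W t = true ∨ t ∈ S i) ∧ ((S i ∩ S i').card : ℝ) ≤ k with hgood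
      have hwit : ∀ i, ∃ i', good i → ν i' ≠ 0 ∧
          (∀ t ∈ S i', W t = true ∨ t ∈ S i) ∧ ((S i ∩ S i').card : ℝ) ≤ k := fun i => by
        by_cases h : good i
        · obtain ⟨i', h⟩ := h
          exact ⟨i', fun _ => h⟩
        · exact ⟨i, fun h' => absurd h' h⟩
      choose wit hwit using hwit
      have n0 : ∀ i, 0 ≤ ν i * ind (good i) := fun i => mul_nonneg (h0 i) (ind_nonneg _)
      have n1 : ∀ i, ν i * ind (good i) ≤ ν i := fun i =>
        mul_le_of_le_one_right (h0 i) (ind_le_one _)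
      have n2 : ∀ i, ν i * ind (good i) ≠ 0 → good i := fun i h => by
        by_contra hn
        exact h (by rw [ind_neg hn, mul_zero])
      have key := ih (fun i => ν i * ind (good i)) n0 ((sum_le_sum fun i _ => n1 i).trans h1)
        (fun i => S i ∩ S (wit i)) _ (fun i hi A hA => le_trans (sum_le_sum fun i' _ => ?_)
          (hH i (left_ne_zero_of_mul hi) A (hA.trans inter_subset_left)))
        (fun i hi => ?_) le_rfl (by linarith)
      rotate_left
      · exact mul_le_mul (n1 i') (pow_le_pow_right₀ (by linarith)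
          (card_le_card (inter_subset_inter subset_rfl inter_subset_left))) (by positivity) (h0 i')
      · rw [← hkL]
        exact mul_le_mul_of_nonneg_right (hwit i (n2 i hi)).2.2 r0.le
      have m1 : Ex (fun _ : Ω => bern ((J * exp 1 + M) / x)) (fun y =>
          ind (¬ ∃ i, ν i ≠ 0 ∧ ∀ t ∈ S i, (W t || y t) = true)) ≤
          Ex (fun _ : Ω => bern ((J * exp 1 + M) / x)) (fun y => ind (¬ ∃ i,
            ν i * ind (good i) ≠ 0 ∧ ∀ t ∈ S i ∩ S (wit i), y t = true)) := by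
        refine Ex_mono w2.nonneg fun y => ind_mono ?_
        rintro h ⟨i, a, b⟩
        obtain ⟨c, d, _⟩ := hwit i (n2 i a)
        refine h ⟨wit i, c, fun t ht => ?_⟩
        rcases d t ht with d | d
        · simp [d]
        · simp [b t (mem_inter.2 ⟨d, ht⟩)]
      have m2 : Ex (fun _ : Ω => bern ((J * exp 1 + M) / x)) (fun y =>
          ind (¬ ∃ i, ν i ≠ 0 ∧ ∀ t ∈ S i, (W t || y t) = true)) ≤ 1 :=
        Ex_le w2 fun _ => ind_le_one _
      have m3 : ∑ i, ν i = ∑ i, ν i * ind (good i) + ∑ i, ν i * ind (¬ good i) := by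
        rw [← sum_add_distrib]
        exact sum_congr rfl fun i _ => by rw [ind_not]; ring
      have m4 := mul_le_mul_of_nonneg_left m1 (sum_nonneg fun i (_ : i ∈ univ) => n0 i)
      have m5 := mul_le_mul_of_nonneg_left m2
        (sum_nonneg fun i (_ : i ∈ univ) => mul_nonneg (h0 i) (ind_nonneg (¬ good i)))
      rw [m3, add_mul]
      linarith
    · rw [Ex_add, Ex_const w1]
      have : 2 / (κ * L₀) * (1 - 1 / 2 ^ (J + 1)) =
          2 / (κ * L₀) * (1 - 1 / 2 ^ J) + 2 / (κ * L₀) * (1 / 2 ^ (J + 1)) := by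
        rw [pow_succ]
        field_simp
        ring
      linarith

/-- Iterated fragmentation. -/
theorem fk (ν : ι → ℝ) (h0 : ∀ i, 0 ≤ ν i) (h1 : ∑ i, ν i ≤ 1) (S : ι → Finset Ω)
    {x κ L₀ M p : ℝ} (J : ℕ) (hx : 0 < x) (hκ0 : 0 < κ) (hκ : κ ≤ 1 / 4) (hL : 0 < L₀)
    (hM : 1 ≤ M)
    (hH : ∀ i, ν i ≠ 0 → ∀ A ⊆ S i, ∑ i', ν i' * (1 + x) ^ (A ∩ S i').card ≤ exp (κ * A.card))
    (hS : ∀ i, ν i ≠ 0 → (S i).card * (2 * κ) ^ J ≤ L₀)
    (hp : (J * exp 1 + M) / x ≤ p) (hp1 : p ≤ 1) :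
    (∑ i, ν i) * Ex (fun _ : Ω => bern p)
      (fun W => ind (¬ ∃ i, ν i ≠ 0 ∧ ∀ t ∈ S i, W t = true)) ≤
      2 / (κ * L₀) + √(exp (κ * L₀) / M) := by
  refine (fk_aux hx hκ0 hκ hL hM J ν h0 h1 S p hH hS hp hp1).trans (add_le_add_left ?_ _)
  exact mul_le_of_le_one_right (by positivity) (sub_le_self _ (by positivity))

end Pool.Agent.MP_46aeaf_co.HT

/-! A randomly placed gadget rarely meets a partial Latin square. -/

namespace Pool.Agent.MP_46aeaf_co.HT

open Finset Pool.Agent.MP_81e6aa_pr Real Filter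

variable {V PV TT : Type} [Fintype V] [DecidableEq V] [Nonempty V] [Fintype PV] [DecidableEq PV]
  [Fintype TT] [DecidableEq TT] {T : Tm PV TT} {h : ℕ}

/-- `card V` times the probability that a single triangle lands in `S` is at most this -/
noncomputable def phi (S : Finset (Tr V)) (W : Fin 15 → V) (st : Bool) : ℝ :=
  S.card / (Fintype.card V : ℝ) ^ 2 + ∑ j : Fin 15, dv S (cls j) (W j) / Fintype.card V +
    ind (st = true ∧ ∃ j : Fin 15, Cv S (arc (cls j) (W j) (W (j + 1))))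

omit [DecidableEq V] [Nonempty V] in
lemma peel_phi_nonneg (S : Finset (Tr V)) (W : Fin 15 → V) (st : Bool) : 0 ≤ phi S W st :=
  add_nonneg (add_nonneg (by positivity) (sum_nonneg fun _ _ =>
    div_nonneg (dv_nonneg _ _ _) (by positivity))) (ind_nonneg _)

omit [Fintype V] [DecidableEq V] [Nonempty V] [Fintype PV] [DecidableEq PV] [Fintype TT]
  [DecidableEq TT] in
lemma peel_rot (W : Fin 15 → V) (y : PV → V) (st : Bool) (τ : TT) (i : Fin 3) :
    T.img W y st τ = tg (T.k st τ + i) (Sum.elim W y (T.v st τ i))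
      (Sum.elim W y (T.v st τ (i + 1))) (Sum.elim W y (T.v st τ (i + 2))) := by
  unfold Tm.img
  fin_cases i
  · simp
  · exact (tg_rot _ _ _ _).symm
  · rw [← tg_rot, ← tg_rot, add_assoc]; rfl

omit [Fintype V] [DecidableEq V] [Nonempty V] [Fintype PV] [DecidableEq PV] [Fintype TT]
  [DecidableEq TT] in
lemma peel_img_eq {W : Fin 15 → V} {y : PV → V} {st : Bool} {τ : TT} {t : Tr V}
    (h : T.img W y st τ = t) (i : Fin 3) : Sum.elim W y (T.v st τ i) = co (T.k st τ + i) t := by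
  rw [← h, peel_rot W y st τ i, (co_tg _ _ _ _).1]

omit [Fintype PV] [DecidableEq PV] in
lemma peel_ne (hT : T.Ok h) {st : Bool} {τ : TT} (hv : T.val st τ) {i i' : Fin 3}
    (he : T.v st τ i = T.v st τ i') : i = i' := by
  have h1 := hT.cls st τ i hv
  rw [he, hT.cls st τ i' hv] at h1
  exact (add_left_cancel h1).symm

omit [Fintype V] [DecidableEq V] [Nonempty V] [Fintype PV] in
lemma peel_upd (W : Fin 15 → V) (y : PV → V) {p : PV} (a : V) {z : Fin 15 ⊕ PV}
    (hz : z ≠ Sum.inr p) : Sum.elim W (Function.update y p a) z = Sum.elim W y z := by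
  cases z with
  | inl j => rfl
  | inr q => exact Function.update_of_ne (fun h => hz (congrArg Sum.inr h)) _ _

omit [DecidableEq V] [Nonempty V] in
lemma peel_line {S : Finset (Tr V)} (hS : PL S) (k : Fin 3) (u w : V) :
    ∑ a, ind (tg k a u w ∈ S) ≤ ind (Cv S (arc (k + 1) u w)) := by
  by_cases hc : Cv S (arc (k + 1) u w)
  · rw [ind_pos hc]
    refine ct_le_one (X := fun a => tg k a u w ∈ S) fun a a' ha ha' => ?_
    have e := hS _ ha _ ha' (arc (k + 1) u w).1 (by
      rw [← tg_rot k a, ← tg_rot k a', cv_arc_tg, cv_arc_tg])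
    rw [← (co_tg k a u w).1, e, (co_tg k a' u w).1]
  · rw [ind_neg hc]
    refine le_of_eq (ct_false (X := fun a => tg k a u w ∈ S) fun a ha => hc ⟨_, ha, ?_⟩)
    rw [← tg_rot k a, cv_arc_tg]

omit [DecidableEq V] in
/-- resample a private vertex of a triangle -/
lemma peel_step (hT : T.Ok h) {S : Finset (Tr V)} (hS : PL S) (W : Fin 15 → V) {st : Bool}
    {τ : TT} (hv : T.val st τ) {i : Fin 3} {p : PV} (hp : T.v st τ i = Sum.inr p)
    (G : (PV → V) → ℝ) (h0 : ∀ y, 0 ≤ G y) (hG : ∀ y a, G (Function.update y p a) = G y) :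
    Ex (fun _ : PV => unif V) (fun y => G y * ind (T.img W y st τ ∈ S)) ≤
      Ex (fun _ : PV => unif V) (fun y => G y * ind (Cv S (arc (T.k st τ + i + 1)
        (Sum.elim W y (T.v st τ (i + 1))) (Sum.elim W y (T.v st τ (i + 2)))))) /
        Fintype.card V := by
  have hw := (pm_unif V).isP PV
  rw [Ex_update hw p, div_eq_mul_inv, ← Ex_mul_const]
  refine Ex_mono hw.nonneg fun y => ?_
  have n1 : T.v st τ (i + 1) ≠ Sum.inr p := fun e =>
    (by decide : ∀ i : Fin 3, i + 1 ≠ i) i (peel_ne hT hv (e.trans hp.symm))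
  have n2 : T.v st τ (i + 2) ≠ Sum.inr p := fun e =>
    (by decide : ∀ i : Fin 3, i + 2 ≠ i) i (peel_ne hT hv (e.trans hp.symm))
  simp only [hG, peel_rot W _ st τ i, peel_upd W y _ n1, peel_upd W y _ n2, hp, Sum.elim_inr,
    Function.update_self, unif]
  rw [← mul_sum, ← mul_sum, mul_comm]
  exact mul_le_mul_of_nonneg_right (mul_le_mul_of_nonneg_left (peel_line hS _ _ _) (h0 y))
    (by positivity)

omit [DecidableEq V] in
lemma peel_point (hT : T.Ok h) (W : Fin 15 → V) {st : Bool} {τ : TT} (hv : T.val st τ)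
    (t : Tr V) : Ex (fun _ : PV => unif V) (fun y => ind (T.img W y st τ = t)) ≤
      ∏ i, Sum.elim (fun j : Fin 15 => ind (co (cls j) t = W j))
        (fun _ => (Fintype.card V : ℝ)⁻¹) (T.v st τ i) := by
  have hw := (pm_unif V).isP PV
  refine le_trans (Ex_mono hw.nonneg (G := fun y =>
    ∏ i, ind (Sum.elim W y (T.v st τ i) = co (T.k st τ + i) t)) fun y => ?_) ?_
  · rw [← ind_forall]
    exact ind_mono fun e i _ => peel_img_eq e i
  · rw [Ex_prod_indep hw univ (fun i p => T.v st τ i = Sum.inr p)]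
    · refine le_of_eq (prod_congr rfl fun i _ => ?_)
      have hc := hT.cls st τ i hv
      rcases hz : T.v st τ i with j | p
      · rw [hz] at hc
        simp only [Sum.elim_inl] at hc ⊢
        rw [Ex_const hw, hc]
        exact ind_congr eq_comm
      · have := Ex_all _ hw {p} fun _ a => ind (a = co (T.k st τ + i) t)
        simp only [prod_singleton] at this
        simp only [Sum.elim_inr]
        rw [this]
        simp only [unif]
        rw [← mul_sum, show ∑ a, ind (a = co (T.k st τ + i) t) = 1 from ct_eq _, mul_one]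
    · intro i _ y y' hy
      rcases hz : T.v st τ i with j | p
      · rfl
      · simp only [Sum.elim_inr, hy p hz]
    · intro i _ i' _ p e e'
      exact peel_ne hT hv (e.trans e'.symm)

/-- a single triangle -/
theorem Tm.Ok.first (hT : T.Ok h) {S : Finset (Tr V)} (hS : PL S) (W : Fin 15 → V) (st : Bool)
    (τ : TT) (hv : T.val st τ) :
    Ex (fun _ : PV => unif V) (fun y => ind (T.img W y st τ ∈ S)) ≤
      phi S W st / Fintype.card V := by
  have hw := (pm_unif V).isP PV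
  have hn : (0 : ℝ) < Fintype.card V := by exact_mod_cast Fintype.card_pos
  have p1 : (0 : ℝ) ≤ S.card / (Fintype.card V : ℝ) ^ 2 := by positivity
  have p2 : ∀ j : Fin 15, 0 ≤ dv S (HT.cls j) (W j) / Fintype.card V := fun j =>
    div_nonneg (dv_nonneg _ _ _) hn.le
  have p3 : 0 ≤ ∑ j : Fin 15, dv S (HT.cls j) (W j) / Fintype.card V := sum_nonneg fun j _ => p2 j
  have p4 := ind_nonneg (st = true ∧ ∃ j : Fin 15, Cv S (arc (HT.cls j) (W j) (W (j + 1))))
  by_cases h2 : ∃ i i', i ≠ i' ∧ (T.v st τ i).isLeft ∧ (T.v st τ i').isLeft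
  · obtain ⟨i, i', hi, l1, l2⟩ := h2
    obtain rfl : st = true := by
      cases st
      · exact absurd (hT.off τ i i' hv l1 l2) hi
      · rfl
    obtain ⟨i₀, j, e0, e1, e2⟩ := hT.on τ i i' hv hi l1 l2
    obtain ⟨p, hp⟩ := Sum.isRight_iff.1 e2
    have := peel_step hT hS W hv hp (fun _ => 1) (fun _ => zero_le_one) fun _ _ => rfl
    have hc := hT.cls true τ i₀ hv
    have a1 : i₀ + 2 + 1 = i₀ := (by decide : ∀ i : Fin 3, i + 2 + 1 = i) i₀
    have a2 : i₀ + 2 + 2 = i₀ + 1 := (by decide : ∀ i : Fin 3, i + 2 + 2 = i + 1) i₀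
    rw [e0, Sum.elim_inl] at hc
    rw [add_assoc (T.k true τ), a1, a2, e0, e1, ← hc] at this
    simp only [one_mul, Sum.elim_inl, Ex_const hw] at this
    refine this.trans (div_le_div_of_nonneg_right ?_ hn.le)
    have := ind_mono (P := Cv S (arc (HT.cls j) (W j) (W (j + 1))))
      (Q := true = true ∧ ∃ j : Fin 15, Cv S (arc (HT.cls j) (W j) (W (j + 1)))) fun h => ⟨rfl, j, h⟩
    unfold phi
    exact this.trans (le_add_of_nonneg_left (add_nonneg p1 p3))
  · have key : Ex (fun _ : PV => unif V) (fun y => ind (T.img W y st τ ∈ S)) ≤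
        ∑ t ∈ S, ∏ i, Sum.elim (fun j : Fin 15 => ind (co (HT.cls j) t = W j))
          (fun _ => (Fintype.card V : ℝ)⁻¹) (T.v st τ i) := by
      refine le_trans ?_ (sum_le_sum fun t _ => peel_point hT W hv t)
      rw [← Ex_sum]
      exact Ex_mono hw.nonneg fun y => le_trans (ind_mono fun h => ⟨_, h, rfl⟩)
        (ind_exists_le S fun t => T.img W y st τ = t)
    refine key.trans ?_
    have one : ∀ j : Fin 15, ∑ t ∈ S, ind (co (HT.cls j) t = W j) *
        ((Fintype.card V : ℝ)⁻¹ * (Fintype.card V : ℝ)⁻¹) ≤ phi S W st / Fintype.card V := by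
      intro j
      rw [← sum_mul, ← mul_assoc, ← div_eq_mul_inv, ← div_eq_mul_inv]
      refine div_le_div_of_nonneg_right ?_ hn.le
      have := single_le_sum (f := fun j : Fin 15 => dv S (HT.cls j) (W j) / Fintype.card V)
        (fun j _ => p2 j) (mem_univ j)
      unfold phi
      exact le_trans this (by linarith)
    push Not at h2
    have b01 := h2 0 1 (by decide)
    have b02 := h2 0 2 (by decide)
    have b12 := h2 1 2 (by decide)
    simp only [Fin.prod_univ_three]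
    rcases h0 : T.v st τ 0 with j0 | p0 <;> rcases h1 : T.v st τ 1 with j1 | p1 <;>
      rcases h2 : T.v st τ 2 with j2 | p2 <;>
      simp only [h0, h1, h2, Sum.isLeft_inl, ne_eq, not_true_eq_false, imp_false,
        Sum.elim_inl, Sum.elim_inr] at b01 b02 b12 ⊢
    · exact le_trans (le_of_eq (sum_congr rfl fun t _ => by ring)) (one j0)
    · exact le_trans (le_of_eq (sum_congr rfl fun t _ => by ring)) (one j1)
    · exact le_trans (le_of_eq (sum_congr rfl fun t _ => by ring)) (one j2)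
    · rw [sum_const, nsmul_eq_mul, ← mul_assoc, ← div_eq_mul_inv]
      refine div_le_div_of_nonneg_right ?_ hn.le
      rw [← mul_inv, ← sq, ← div_eq_mul_inv]
      unfold phi
      linarith

/-- peelable families -/
theorem Tm.Ok.peel_le (hT : T.Ok h) {S : Finset (Tr V)} (hS : PL S) (W : Fin 15 → V) (st : Bool)
    {A : Finset TT} (hA : T.Peel st A) (hv : ∀ τ ∈ A, T.val st τ) :
    Ex (fun _ : PV => unif V) (fun y => ind (∀ τ ∈ A, T.img W y st τ ∈ S)) ≤
      phi S W st / (Fintype.card V : ℝ) ^ A.card := by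
  have hw := (pm_unif V).isP PV
  have hn : (0 : ℝ) < Fintype.card V := by exact_mod_cast Fintype.card_pos
  induction hA with
  | one τ => simpa using hT.first hS W st τ (hv τ (mem_singleton_self _))
  | add A τ i p _ hτ hp hA ih =>
    have := peel_step hT hS W (hv τ (mem_insert_self _ _)) hp
      (fun y => ind (∀ τ ∈ A, T.img W y st τ ∈ S)) (fun _ => ind_nonneg _) fun y a =>
        ind_congr (forall₂_congr fun τ' hτ' => by
          simp only [Tm.img, peel_upd W y a (hA τ' hτ' _)])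
    simp only [forall_mem_insert, ind_and]
    simp only [mul_comm (ind (T.img W _ st τ ∈ S))]
    rw [card_insert_of_notMem hτ, pow_succ, ← div_div]
    refine this.trans (div_le_div_of_nonneg_right (le_trans (Ex_mono hw.nonneg fun y => ?_)
      (ih fun τ' hτ' => hv τ' (mem_insert_of_mem hτ'))) hn.le)
    exact mul_le_of_le_one_right (ind_nonneg _) (ind_le_one _)

/-- the generating function of a randomly placed gadget -/
theorem Tm.Ok.zbound (hT : T.Ok h) {S : Finset (Tr V)} (hS : PL S) (W : Fin 15 → V) (st : Bool)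
    {ξ : ℝ} (h0 : 0 ≤ ξ) (hξ : 8 * ξ ≤ exp (-30) * Fintype.card V)
    (hn : (Fintype.card V : ℝ) ≤ exp (15 * h)) :
    ∑ A : Finset TT, ind (A.Nonempty ∧ ∀ τ ∈ A, T.val st τ) * ((8 * ξ) ^ A.card *
      Ex (fun _ : PV => unif V) fun y => ind (∀ τ ∈ A, T.img W y st τ ∈ S)) ≤
      exp (exp (-15) * Fintype.card TT) * phi S W st := by
  have hw := (pm_unif V).isP PV
  have hn0 : (0 : ℝ) < Fintype.card V := by exact_mod_cast Fintype.card_pos
  have hφ := peel_phi_nonneg S W st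
  have key : ∀ A : Finset TT, ind (A.Nonempty ∧ ∀ τ ∈ A, T.val st τ) * ((8 * ξ) ^ A.card *
      Ex (fun _ : PV => unif V) fun y => ind (∀ τ ∈ A, T.img W y st τ ∈ S)) ≤
      (∏ _τ ∈ A, exp (-15)) * phi S W st := by
    intro A
    by_cases hA : A.Nonempty ∧ ∀ τ ∈ A, T.val st τ
    · rw [ind_pos hA, one_mul, prod_const]
      obtain ⟨A', hs, hp, hc⟩ := hT.peel st A hA.1 hA.2
      have e1 := (Ex_mono hw.nonneg (F := fun y => ind (∀ τ ∈ A, T.img W y st τ ∈ S))
        fun y => ind_mono fun h τ hτ => h τ (hs hτ)).trans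
        (hT.peel_le hS W st hp fun τ hτ => hA.2 τ (hs hτ))
      obtain ⟨d, hd⟩ := Nat.exists_eq_add_of_le (card_le_card hs)
      have hc' : (h : ℝ) * d ≤ A.card := by
        rw [hd, Nat.add_sub_cancel_left, ← hd] at hc
        exact_mod_cast hc
      have e2 : (Fintype.card V : ℝ) ^ d ≤ exp 15 ^ A.card := by
        refine (pow_le_pow_left₀ hn0.le hn d).trans ?_
        rw [← exp_nat_mul, ← exp_nat_mul]
        exact exp_le_exp.2 (by linarith)
      have e3 : (8 * ξ) ^ A.card ≤ exp (-15) ^ A.card * (Fintype.card V : ℝ) ^ A'.card := by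
        refine (pow_le_pow_left₀ (by positivity) hξ _).trans ?_
        rw [show exp (-15) = exp (-30) * exp 15 by rw [← exp_add]; norm_num, mul_pow, mul_pow,
          mul_assoc]
        refine mul_le_mul_of_nonneg_left ?_ (by positivity)
        calc (Fintype.card V : ℝ) ^ A.card
            = (Fintype.card V : ℝ) ^ d * (Fintype.card V : ℝ) ^ A'.card := by
              rw [← pow_add, add_comm, ← hd]
          _ ≤ _ := mul_le_mul_of_nonneg_right e2 (by positivity)
      refine (mul_le_mul e3 e1 (Ex_nonneg hw.nonneg fun _ => ind_nonneg _) (by positivity)).trans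
        (le_of_eq ?_)
      rw [mul_assoc, mul_div_cancel₀ _ (by positivity)]
    · rw [ind_neg hA, zero_mul]
      exact mul_nonneg (prod_nonneg fun _ _ => (exp_pos _).le) hφ
  refine (sum_le_sum fun A _ => key A).trans ?_
  rw [← sum_mul, ← powerset_univ, ← prod_one_add]
  refine mul_le_mul_of_nonneg_right ?_ hφ
  rw [prod_const, card_univ, mul_comm, exp_nat_mul]
  exact pow_le_pow_left₀ (by positivity) (by linarith [add_one_le_exp (exp (-15))]) _

end Pool.Agent.MP_46aeaf_co.HT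

/-! Typical properties of the main sample. -/

namespace Pool.Agent.MP_46aeaf_co.HT

open Finset Pool.Agent.MP_81e6aa_pr Real Filter

lemma pre_bern (p : ℝ) : ∑ a, bern p a * ind (a = true) = p := by
  simp [bern, ind]

section Aux

variable {V : Type} [Fintype V] [DecidableEq V]

/-- the triples on `e` whose other two lines are in `X` -/
def preSlot (X : Ln V → Prop) (e : Ln V) (t : Tr V) : Prop :=
  ed e.1 t = e ∧ ∀ k, k ≠ e.1 → X (ed k t)

omit [DecidableEq V] in
lemma pre_dg (H : Tr V → Prop) (e : Ln V) (b : Tr V → Bool) :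
    dg (fun t => b t = true ∧ H t) e = ∑ t, ind ((ed e.1 t = e ∧ H t) ∧ b t = true) :=
  sum_congr rfl fun _ _ => ind_congr (by tauto)

lemma pre_up {p : ℝ} (h0 : 0 ≤ p) (h1 : p ≤ 1) (H : Tr V → Prop) (e : Ln V) {s k m : ℝ}
    (hs : 0 ≤ s) (hm : dg H e ≤ m) :
    Ex (fun _ : Tr V => bern p) (fun b => ind (k ≤ dg (fun t => b t = true ∧ H t) e)) ≤
      exp (-(s * k) + p * exp s * m) := by
  have hw : IsP fun _ : Tr V => bern p := isP_bern (fun _ => h0) fun _ => h1
  simp only [pre_dg]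
  refine (upper hw (fun a => a = true) h0 (fun _ => pre_bern p) (fun t => ed e.1 t = e ∧ H t)
    hs k).trans (exp_le_exp.2 ?_)
  have : p * exp s * ∑ t, ind (ed e.1 t = e ∧ H t) ≤ p * exp s * m :=
    mul_le_mul_of_nonneg_left hm (by positivity)
  linarith

lemma pre_bad {p γ L : ℝ} (h0 : 0 ≤ p) (h1 : p ≤ 1) (hL : 0 ≤ L)
    (hp : p * Fintype.card V = 199 / 100 * L) (X : Ln V → Prop) (e : Ln V)
    (h3 : γ ^ 2 * Fintype.card V / 2 ≤ dg (fun t => ∀ k, k ≠ e.1 → X (ed k t)) e) :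
    Ex (fun _ : Tr V => bern p) (fun b => ind (Bad γ L X b e)) ≤
      exp (-(49 / 100 * γ ^ 2 * L)) := by
  have hw : IsP fun _ : Tr V => bern p := isP_bern (fun _ => h0) fun _ => h1
  have hl := lower hw (fun a => a = true) h0 (fun _ => pre_bern p)
    (fun t => ed e.1 t = e ∧ ∀ k, k ≠ e.1 → X (ed k t)) zero_le_one exp_neg_one_le
    (γ ^ 2 * L / 10)
  refine ((Ex_mono hw.nonneg fun b => ind_mono fun h => ?_).trans hl).trans (exp_le_exp.2 ?_)
  · have := h.2
    rw [pre_dg] at this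
    exact this.le
  · have a1 : p * (3 / 5) * (γ ^ 2 * Fintype.card V / 2) ≤
        p * (3 / 5) * ∑ t, ind (ed e.1 t = e ∧ ∀ k, k ≠ e.1 → X (ed k t)) :=
      mul_le_mul_of_nonneg_left h3 (by positivity)
    have a2 : p * (3 / 5) * (γ ^ 2 * Fintype.card V / 2) =
        3 / 10 * γ ^ 2 * (p * Fintype.card V) := by ring
    rw [a2, hp] at a1
    have a3 : 0 ≤ γ ^ 2 * L := by positivity
    linarith

omit [DecidableEq V] in
lemma pre_bad_congr {γ L : ℝ} {X : Ln V → Prop} {e : Ln V} {b b' : Tr V → Bool}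
    (h : ∀ t, preSlot X e t → b t = b' t) : Bad γ L X b e ↔ Bad γ L X b' e := by
  unfold Bad
  have : dg (fun t => b t = true ∧ ∀ k, k ≠ e.1 → X (ed k t)) e =
      dg (fun t => b' t = true ∧ ∀ k, k ≠ e.1 → X (ed k t)) e := by
    refine ct_congr fun t => ⟨fun ht => ⟨ht.1, ?_, ht.2.2⟩, fun ht => ⟨ht.1, ?_, ht.2.2⟩⟩
    · rw [← h t ⟨ht.1, ht.2.2⟩]; exact ht.2.1
    · rw [h t ⟨ht.1, ht.2.2⟩]; exact ht.2.1
  rw [this]

lemma pre_p4 {p γ L q j : ℝ} (h0 : 0 ≤ p) (h1 : p ≤ 1) (X : Ln V → Prop)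
    (hq : ∀ e, Ex (fun _ : Tr V => bern p) (fun b => ind (Bad γ L X b e)) ≤ q) (ρ : Ray V) :
    Ex (fun _ : Tr V => bern p) (fun b => ind (j ≤ ct fun v => Bad γ L X b (ray ρ v))) ≤
      exp (-(1 * j) + exp 1 * q * Fintype.card V) := by
  have hw : IsP fun _ : Tr V => bern p := isP_bern (fun _ => h0) fun _ => h1
  refine upper_indep hw (fun v t => ed ρ.1 t = ray ρ v) (fun v b => Bad γ L X b (ray ρ v))
    (fun v x y h => ind_congr (pre_bad_congr fun t ht => h t ?_))
    (fun v v' t h h' => ray_inj ρ (h.symm.trans h')) (fun v => hq _) zero_le_one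
  have := ht.1
  rwa [ray_fst] at this

lemma pre_ne (j : Fin 3) : ∃ k : Fin 3, k ≠ j := ⟨j + 1, by revert j; decide⟩

lemma pre_ev {p γ L q : ℝ} (h0 : 0 ≤ p) (h1 : p ≤ 1) (X : Ln V → Prop) (hq0 : 0 ≤ q)
    (hq : ∀ e, Ex (fun _ : Tr V => bern p) (fun b => ind (Bad γ L X b e)) ≤ q) (j : Fin 3)
    (t : Tr V) :
    Ex (fun _ : Tr V => bern p) (fun b => ind (b t = true ∧ (∀ k, ¬ X (ed k t)) ∧
      ∃ k, k ≠ j ∧ Bad γ L X b (ed k t))) ≤ p * (2 * q) := by
  have hw : IsP fun _ : Tr V => bern p := isP_bern (fun _ => h0) fun _ => h1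
  by_cases hX : ∀ k, ¬ X (ed k t)
  · have e1 : ∀ b : Tr V → Bool, ind (b t = true ∧ (∀ k, ¬ X (ed k t)) ∧
        ∃ k, k ≠ j ∧ Bad γ L X b (ed k t)) =
        ind (b t = true) * ind (∃ k, k ≠ j ∧ Bad γ L X b (ed k t)) := fun b => by
      rw [← ind_and]; exact ind_congr (by tauto)
    simp only [e1]
    rw [Ex_mul hw (A := fun u => u = t) (B := fun u => ∃ k, preSlot X (ed k t) u)
      (F := fun b => ind (b t = true))
      (G := fun b => ind (∃ k, k ≠ j ∧ Bad γ L X b (ed k t)))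
      (fun x y h => by simp only [h t rfl])
      (fun x y h => ind_congr (exists_congr fun k => and_congr_right fun _ =>
        pre_bad_congr fun u hu => h u ⟨k, hu⟩))
      (by
        rintro u rfl ⟨k, hk⟩
        obtain ⟨k', hk'⟩ := pre_ne k
        exact hX k' (hk.2 k' hk'))]
    have a1 : Ex (fun _ : Tr V => bern p) (fun b => ind (b t = true)) ≤ p := by
      have := Ex_all_le hw {t} (fun a => a = true) (p := p) fun _ => (pre_bern p).le
      simpa using this
    have a2 : Ex (fun _ : Tr V => bern p)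
        (fun b => ind (∃ k, k ≠ j ∧ Bad γ L X b (ed k t))) ≤ 2 * q := by
      refine (Ex_exists_le hw (univ.erase j) (fun k b => Bad γ L X b (ed k t)) (fun _ => q)
        (fun k _ => hq _) _ fun b ⟨k, hk, h⟩ => ⟨k, by simpa using hk, h⟩).trans ?_
      simp
    exact mul_le_mul a1 a2 (Ex_nonneg hw.nonneg fun _ => ind_nonneg _) h0
  · refine (Ex_le hw (c := 0) fun b => (ind_neg fun h => hX h.2.1).le).trans (by positivity)

lemma pre_p3 {p γ L q s j : ℝ} (h0 : 0 ≤ p) (h1 : p ≤ 1) (X : Ln V → Prop) (hq0 : 0 ≤ q)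
    (hq : ∀ e, Ex (fun _ : Tr V => bern p) (fun b => ind (Bad γ L X b e)) ≤ q) (hs : 0 ≤ s)
    (e : Ln V) :
    Ex (fun _ : Tr V => bern p) (fun b => ind (j ≤ dg (fun t => b t = true ∧
      (∀ k, ¬ X (ed k t)) ∧ ∃ k, k ≠ e.1 ∧ Bad γ L X b (ed k t)) e)) ≤
      exp (-(s * j) + exp s * (p * (2 * q)) * Fintype.card V) := by
  have hw : IsP fun _ : Tr V => bern p := isP_bern (fun _ => h0) fun _ => h1
  simp only [dg_eq]
  refine upper_indep hw (fun v u => (∀ k, ¬ X (ed k (tri e v))) ∧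
      (u = tri e v ∨ ∃ k, k ≠ e.1 ∧ preSlot X (ed k (tri e v)) u))
    (fun v b => b (tri e v) = true ∧ (∀ k, ¬ X (ed k (tri e v))) ∧
      ∃ k, k ≠ e.1 ∧ Bad γ L X b (ed k (tri e v)))
    (fun v x y h => ind_congr ?_) (fun v v' u h h' => ?_)
    (fun v => pre_ev h0 h1 X hq0 hq e.1 _) hs
  · by_cases hX : ∀ k, ¬ X (ed k (tri e v))
    · rw [h _ ⟨hX, Or.inl rfl⟩]
      refine and_congr_right fun _ => and_congr_right fun _ => exists_congr fun k =>
        and_congr_right fun hk => pre_bad_congr fun u hu => h u ⟨hX, Or.inr ⟨k, hk, hu⟩⟩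
    · exact ⟨fun h => absurd h.2.1 hX, fun h => absurd h.2.1 hX⟩
  · obtain ⟨hX, h⟩ := h
    obtain ⟨hX', h'⟩ := h'
    rcases h with h | ⟨k, hk, h⟩ <;> rcases h' with h' | ⟨k', hk', h'⟩
    · exact tri_inj e (h.symm.trans h')
    · obtain ⟨i, hi⟩ := pre_ne k'
      exact absurd (h ▸ h'.2 i hi) (hX i)
    · obtain ⟨i, hi⟩ := pre_ne k
      exact absurd (h' ▸ h.2 i hi) (hX' i)
    · have a1 : ed k u = ed k (tri e v) := h.1
      have a2 : ed k' u = ed k' (tri e v') := h'.1
      by_cases hkk : k' = k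
      · subst hkk
        exact tri_inj e (eq_of_ed hk (a1.symm.trans a2) ((ed_tri e v).trans (ed_tri e v').symm))
      · exact absurd (a2 ▸ h.2 k' hkk) (hX' k')

/-- the union bound -/
lemma pre_union {p γ ζ L z : ℝ} (h0 : 0 ≤ p) (h1 : p ≤ 1) (X A : Ln V → Prop)
    (a1 : ∀ e : Ln V, Ex (fun _ : Tr V => bern p)
      (fun b => ind (10 * L ≤ dg (fun t => b t = true ∧ True) e)) ≤ z)
    (a2 : ∀ e : Ln V, Ex (fun _ : Tr V => bern p) (fun b => ind (L / 10 ^ 4 / 4 ≤
      dg (fun t => b t = true ∧ ∃ k, k ≠ e.1 ∧ (X (ed k t) ∨ A (ed k t))) e)) ≤ z)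
    (a3 : ∀ e : Ln V, Ex (fun _ : Tr V => bern p) (fun b => ind (ζ * L / 10 ^ 6 ≤
      dg (fun t => b t = true ∧ (∀ k, ¬ X (ed k t)) ∧
        ∃ k, k ≠ e.1 ∧ Bad γ L X b (ed k t)) e)) ≤ z)
    (a4 : ∀ ρ : Ray V, Ex (fun _ : Tr V => bern p)
      (fun b => ind (ζ * Fintype.card V ≤ ct fun v => Bad γ L X b (ray ρ v))) ≤ z) :
    Ex (fun _ : Tr V => bern p) (fun b => ind (¬ PreB γ ζ L X A b)) ≤
      (9 * (Fintype.card V : ℝ) ^ 2 + 6 * Fintype.card V) * z := by
  have hw : IsP fun _ : Tr V => bern p := isP_bern (fun _ => h0) fun _ => h1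
  refine (Ex_exists_le hw (univ : Finset (Ln V ⊕ Ln V ⊕ Ln V ⊕ Ray V))
    (Sum.elim (fun e b => 10 * L ≤ dg (fun t => b t = true ∧ True) e)
      (Sum.elim (fun e b => L / 10 ^ 4 / 4 ≤
        dg (fun t => b t = true ∧ ∃ k, k ≠ e.1 ∧ (X (ed k t) ∨ A (ed k t))) e)
        (Sum.elim (fun e b => ζ * L / 10 ^ 6 ≤ dg (fun t => b t = true ∧ (∀ k, ¬ X (ed k t)) ∧
          ∃ k, k ≠ e.1 ∧ Bad γ L X b (ed k t)) e)
          fun ρ b => ζ * Fintype.card V ≤ ct fun v => Bad γ L X b (ray ρ v))))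
    (fun _ => z) ?_ _ fun b hb => ?_).trans (le_of_eq ?_)
  · rintro (e | e | e | ρ) -
    · exact a1 e
    · exact a2 e
    · exact a3 e
    · exact a4 ρ
  · by_contra hc
    have hc' := fun j h => hc ⟨j, mem_univ j, h⟩
    refine hb ⟨fun e => ?_, fun e => ?_, fun e => ?_, fun ρ => ?_⟩
    · have := not_le.1 (hc' (Sum.inl e))
      simp only [and_true] at this
      exact this.le
    · exact (not_le.1 (hc' (Sum.inr (Sum.inl e)))).le
    · exact (not_le.1 (hc' (Sum.inr (Sum.inr (Sum.inl e))))).le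
    · exact (not_le.1 (hc' (Sum.inr (Sum.inr (Sum.inr ρ))))).le
  · rw [sum_const, card_univ, nsmul_eq_mul]
    simp only [Fintype.card_sum, Nat.cast_add, card_Ln, card_Ray]
    ring

end Aux

lemma pre_small {γ : ℝ} (hγ : γ ≤ exp (-300000)) : 10 * γ * exp 200000 ≤ 1 := by
  have h1 : exp (-300000) * exp 200000 = exp (-100000) := by rw [← exp_add]; norm_num
  have h2 : exp (-100000) ≤ 1 / 10 := by
    rw [exp_neg, inv_le_comm₀ (exp_pos _) (by norm_num)]
    linarith [add_one_le_exp (100000 : ℝ)]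
  have h3 := mul_le_mul_of_nonneg_right hγ (exp_pos 200000).le
  rw [h1] at h3
  linarith

/-- Write `n = exp L`, `p = 1.99 L / n`, `c = 0.49 γ ^ 2`.  Union bounds over lines and rays;
every single event has probability at most `exp (-4 L)`. -/
theorem pre_prob {γ ζ : ℝ} (hγ0 : 0 < γ) (hγ : γ ≤ exp (-300000)) (hζ0 : 0 < ζ) (hζ : ζ ≤ γ / 2) :
    ∀ᶠ L : ℝ in atTop, ∀ (V : Type) [Fintype V] [DecidableEq V] (X A : Ln V → Prop),
      (Fintype.card V : ℝ) = exp L → XIn γ ζ X → RayLe A (ζ * Fintype.card V) →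
      Ex (fun _ : Tr V => bern (199 / 100 * L / Fintype.card V))
        (fun b => ind (¬ PreB γ ζ L X A b)) ≤ exp (-L) := by
  have hsm := pre_small hγ
  have hE := exp_pos 200000
  have hc : 0 < 49 / 100 * γ ^ 2 := by positivity
  filter_upwards [ev_pow 2 1 one_pos, ev_pow 15 0 one_pos, ev_pow (8 / ζ) 1 one_pos,
    ev_pow (6 / ζ) 0 hc, eventually_ge_atTop (16 * 10 ^ 6 / (49 / 100 * γ ^ 2 * ζ)),
    eventually_ge_atTop 0] with L b1 b2 b3 b4 b5 hL V _ _ X A hn hX hA
  simp only [pow_one, one_mul, pow_zero, mul_one] at b1 b2 b3 b4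
  have hn0 : (0 : ℝ) < Fintype.card V := hn ▸ exp_pos L
  have hp : 199 / 100 * L / Fintype.card V * Fintype.card V = 199 / 100 * L :=
    div_mul_cancel₀ _ hn0.ne'
  have h0 : 0 ≤ 199 / 100 * L / Fintype.card V := by positivity
  have h1 : 199 / 100 * L / Fintype.card V ≤ 1 := by
    rw [div_le_one hn0, hn]; linarith
  generalize 199 / 100 * L / (Fintype.card V : ℝ) = p at hp h0 h1 ⊢
  have hq := fun e => pre_bad h0 h1 hL hp X e (hX.x3 e)
  have he : exp 1 ≤ 3 := by linarith [exp_one_lt_d9]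
  refine (pre_union (z := exp (-(4 * L))) h0 h1 X A (fun e => ?_) (fun e => ?_) (fun e => ?_)
    fun ρ => ?_).trans ?_
  · refine (pre_up h0 h1 (fun _ => True) e (m := Fintype.card V) zero_le_one
      (by rw [dg_eq]; exact ct_true.le)).trans (exp_le_exp.2 ?_)
    have : p * exp 1 * Fintype.card V = exp 1 * (199 / 100 * L) := by rw [← hp]; ring
    have a := mul_le_mul_of_nonneg_right he (show 0 ≤ 199 / 100 * L by positivity)
    linarith
  · refine (pre_up h0 h1 _ e (s := 200000) (by norm_num) ((hX.x1.or hA).dg_le e)).trans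
      (exp_le_exp.2 ?_)
    generalize exp 200000 = E at hsm hE ⊢
    have a1 : p * E * (2 * (2 * γ * Fintype.card V + ζ * Fintype.card V)) =
        E * (2 * (2 * γ + ζ)) * (199 / 100 * L) := by rw [← hp]; ring
    have a2 : E * (2 * (2 * γ + ζ)) ≤ E * (5 * γ) :=
      mul_le_mul_of_nonneg_left (by linarith) hE.le
    have a3 : E * (2 * (2 * γ + ζ)) * (199 / 100 * L) ≤ 1 / 2 * (199 / 100 * L) :=
      mul_le_mul_of_nonneg_right (by linarith) (by positivity)
    linarith
  · refine (pre_p3 h0 h1 X (exp_pos _).le hq (s := 49 / 100 * γ ^ 2 * L / 2) (by positivity)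
      e).trans (exp_le_exp.2 ?_)
    generalize 49 / 100 * γ ^ 2 = c at hc b5 ⊢
    have a1 : exp (c * L / 2) * (p * (2 * exp (-(c * L)))) * Fintype.card V =
        exp (c * L / 2) * exp (-(c * L)) * (2 * (199 / 100 * L)) := by rw [← hp]; ring
    have a2 : exp (c * L / 2) * exp (-(c * L)) ≤ 1 := by
      rw [← exp_add, exp_le_one_iff]
      have : 0 ≤ c * L := by positivity
      linarith
    have a3 := mul_le_mul_of_nonneg_right a2 (show 0 ≤ 2 * (199 / 100 * L) by positivity)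
    rw [div_le_iff₀ (by positivity)] at b5
    have a4 := mul_le_mul_of_nonneg_right b5 hL
    have a5 : c * L / 2 * (ζ * L / 10 ^ 6) = L * (c * ζ) * L / (2 * 10 ^ 6) := by ring
    have a6 : 8 * L ≤ L * (c * ζ) * L / (2 * 10 ^ 6) := by
      rw [le_div_iff₀ (by positivity)]; linarith
    linarith
  · refine (pre_p4 h0 h1 X hq ρ).trans (exp_le_exp.2 ?_)
    generalize 49 / 100 * γ ^ 2 = c at hc b4 ⊢
    have a1 : exp (-(c * L)) ≤ ζ / 6 := by
      rw [exp_neg, inv_le_comm₀ (exp_pos _) (by positivity), inv_div]; exact b4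
    have a2 : exp 1 * exp (-(c * L)) ≤ 3 * (ζ / 6) :=
      mul_le_mul he a1 (exp_pos _).le (by norm_num)
    have a3 := mul_le_mul_of_nonneg_right a2 hn0.le
    have a4 : 8 * L ≤ ζ * Fintype.card V := by
      rw [hn]
      have := mul_le_mul_of_nonneg_left b3 hζ0.le
      rwa [← mul_assoc, mul_div_cancel₀ _ hζ0.ne'] at this
    linarith
  · rw [hn]
    have a1 : 1 ≤ exp L := one_le_exp hL
    have a2 : exp L * exp L * exp L * exp (-(4 * L)) = exp (-L) := by
      simp only [← exp_add]; congr 1; ring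
    rw [← a2]
    refine mul_le_mul_of_nonneg_right ?_ (exp_pos _).le
    generalize exp L = n at a1 b2
    have a3 : n ≤ n * n := le_mul_of_one_le_right (by linarith) a1
    have a4 : 15 * (n * n) ≤ n * (n * n) := mul_le_mul_of_nonneg_right b2 (by positivity)
    nlinarith

end Pool.Agent.MP_46aeaf_co.HT

end
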