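import Pool.Agent.MP_46aeaf_co.Mg.LS_Tools

-- part MP_46aeaf_co.LS.Gadget
section

set_option autoImplicit false
set_option linter.unusedSectionVars false
set_option linter.unusedVariables false

/-! The gadget that absorbs a cycle of length 15: definitions.

A collar replaces the root cycle by a private cycle `u 0, ..., u 29`; 24 switchers (long tubes)
exchange the parallel pair of edges between two pairs of vertices for the crossed pair. -/

namespace Pool.Agent.MP_46aeaf_co.HT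

open Finset

namespace Tpl

abbrev PV (h : ℕ) := Fin 30 ⊕ Fin 24 × Fin (2 * h + 2) × Bool

abbrev TT (h : ℕ) := Fin 15 ⊕ Fin 24 × Fin (2 * h) × Bool

def u (m : ℕ) : Fin 15 ⊕ Fin 30 := Sum.inr (Fin.ofNat 30 m)

def rt (k : ℕ) : Fin 15 ⊕ Fin 30 := Sum.inl (Fin.ofNat 15 k)

/-- first layer of the switcher `w` -/
def P0 (w : Fin 24) (i : Bool) : Fin 15 ⊕ Fin 30 :=
  if (w : ℕ) < 15 then (if i then u (30 - 2 * w) else rt w)
  else if i then u (3 * (w - 14) + 2) else u (3 * (w - 14) - 1)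

/-- second layer of the switcher `w` -/
def P1 (w : Fin 24) (i : Bool) : Fin 15 ⊕ Fin 30 :=
  if (w : ℕ) < 15 then (if i then u (31 - 2 * w) else rt (w + 1))
  else if i then u (3 * (w - 14)) else u 0

/-- class of the first layer -/
def c0 (w : Fin 24) : Fin 3 := if (w : ℕ) < 15 then cls w else 1

/-- the ordinary triangles -/
def ord (st : Bool) (k : Fin 15) : Fin 3 → Fin 15 ⊕ Fin 30 :=
  if st then ![u (30 - 2 * k), rt (k + 1), u (29 - 2 * k)]
  else ![u (3 * k), u (3 * k + 1), u (3 * k + 2)]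

def lift {h : ℕ} : Fin 15 ⊕ Fin 30 → Fin 15 ⊕ PV h := Sum.map id Sum.inl

/-- vertex `i` of layer `j` of the switcher `w`; the last layer is a single vertex -/
def p (h : ℕ) (w : Fin 24) (j : ℕ) (i : Bool) : Fin 15 ⊕ PV h :=
  if j = 0 then lift (P0 w i) else if j = 1 then lift (P1 w i)
  else Sum.inr (Sum.inr (w, Fin.ofNat (2 * h + 2) j, if j = 2 * h + 1 then false else i))

/-- the twist of layer `j` -/
def sg (st : Bool) (j : ℕ) : Bool := xor (decide (j % 2 = 1)) (!st)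

def tm (h : ℕ) : Tm (PV h) (TT h) where
  cp := Sum.elim (fun m => cls m) fun z => c0 z.1 + Fin.ofNat 3 z.2.1
  val := fun st => Sum.elim (fun k => st = true ∨ (k : ℕ) < 10) fun _ => True
  k := fun st => Sum.elim (fun k => if st then cls k else 2) fun z => c0 z.1 + Fin.ofNat 3 z.2.1
  v := fun st => Sum.elim (fun k i => lift (ord st k i)) fun z =>
    ![p h z.1 z.2.1 z.2.2, p h z.1 (z.2.1 + 1) (xor z.2.2 (sg st z.2.1)), p h z.1 (z.2.1 + 2) z.2.2]

end Tpl

end Pool.Agent.MP_46aeaf_co.HT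

/-! The gadget: classes and the switching identity. -/

namespace Pool.Agent.MP_46aeaf_co.HT.Tpl

open Finset Pool.Agent.MP_81e6aa_pr

lemma tpla_right (h : ℕ) (w : Fin 24) {j : ℕ} (hj : 2 ≤ j) (i : Bool) :
    (p h w j i).isLeft = false := by
  unfold p; rw [if_neg (by omega), if_neg (by omega)]; rfl

lemma tpla_lift {h : ℕ} (z : Fin 15 ⊕ Fin 30) : (lift (h := h) z).isLeft = z.isLeft := by
  cases z <;> rfl

lemma tpla_cls (h : ℕ) (w : Fin 24) {j : ℕ} (hj : j < 2 * h + 2) (i : Bool) :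
    Sum.elim (fun j : Fin 15 => cls j) (tm h).cp (p h w j i) = c0 w + Fin.ofNat 3 j := by
  have key : ∀ z, Sum.elim (fun j : Fin 15 => cls j) (tm h).cp (lift z) =
      Sum.elim (fun j : Fin 15 => cls j) (fun m : Fin 30 => cls m) z := fun z => by
    cases z <;> rfl
  unfold p
  split_ifs with h0 h1 h2
  · subst h0; rw [key]; revert w i; decide
  · subst h1; rw [key]; revert w i; decide
  · simp only [tm, Sum.elim_inr, Fin.val_ofNat, Nat.mod_eq_of_lt hj]
  · simp only [tm, Sum.elim_inr, Fin.val_ofNat, Nat.mod_eq_of_lt hj]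

lemma tpla_left {h : ℕ} {st : Bool} {w : Fin 24} {j : Fin (2 * h)} {b : Bool} {i : Fin 3}
    (hi : ((tm h).v st (.inr (w, j, b)) i).isLeft) : i = 0 ∧ (p h w j b).isLeft ∨
      i = 1 ∧ (p h w (j + 1) (xor b (sg st j))).isLeft := by
  fin_cases i
  · exact Or.inl ⟨rfl, hi⟩
  · exact Or.inr ⟨rfl, hi⟩
  · exact absurd ((tpla_right h w (j := j + 2) (by omega) b).symm.trans hi) Bool.false_ne_true

lemma tpla_succ (j : ℕ) : Fin.ofNat 3 (j + 1) = Fin.ofNat 3 j + 1 := by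
  ext; simp [Fin.val_add]

lemma tpla_ms :
    (univ : Finset (Fin 15 × Fin 3)).val.map
        (fun z => (cls z.1 + z.2, ord true z.1 z.2, ord true z.1 (z.2 + 1))) +
      (univ : Finset (Fin 24 × Bool)).val.map (fun z => (c0 z.1, P0 z.1 z.2, P1 z.1 z.2)) =
    (univ.filter fun z : Fin 15 × Fin 3 => (z.1 : ℕ) < 10).val.map
        (fun z => (2 + z.2, ord false z.1 z.2, ord false z.1 (z.2 + 1))) +
      (univ : Finset (Fin 24 × Bool)).val.map (fun z => (c0 z.1, P0 z.1 z.2, P1 z.1 (!z.2))) +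
      (univ : Finset (Fin 15)).val.map fun j : Fin 15 => (cls j, Sum.inl j, Sum.inl (j + 1)) := by
  decide +kernel

/-- the lines between two consecutive layers -/
def tplaE {h : ℕ} (φ : Fin 3 → Fin 15 ⊕ PV h → Fin 15 ⊕ PV h → ℝ) (w : Fin 24) (s : Bool) (j : ℕ) :
    ℝ := ∑ b, φ (c0 w + Fin.ofNat 3 j) (p h w j b) (p h w (j + 1) (xor b s))

lemma tpla_tube (h : ℕ) (hh : 1 ≤ h) (φ : Fin 3 → Fin 15 ⊕ PV h → Fin 15 ⊕ PV h → ℝ) (w : Fin 24) :
    ∑ z : Fin (2 * h) × Bool, ∑ i, φ ((tm h).k true (.inr (w, z)) + i)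
        ((tm h).v true (.inr (w, z)) i) ((tm h).v true (.inr (w, z)) (i + 1)) + tplaE φ w true 0 =
    ∑ z : Fin (2 * h) × Bool, ∑ i, φ ((tm h).k false (.inr (w, z)) + i)
        ((tm h).v false (.inr (w, z)) i) ((tm h).v false (.inr (w, z)) (i + 1)) +
      tplaE φ w false 0 := by
  have key : ∀ st, ∑ z : Fin (2 * h) × Bool, ∑ i, φ ((tm h).k st (.inr (w, z)) + i)
      ((tm h).v st (.inr (w, z)) i) ((tm h).v st (.inr (w, z)) (i + 1)) =
      ∑ j ∈ range (2 * h), (tplaE φ w (sg st j) j + tplaE φ w (sg st j) (j + 1) +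
        ∑ b, φ (c0 w + Fin.ofNat 3 j + 2) (p h w (j + 2) b) (p h w j b)) := fun st => by
    rw [Fintype.sum_prod_type, ← Fin.sum_univ_eq_sum_range]
    refine sum_congr rfl fun j _ => ?_
    unfold tplaE
    rw [tpla_succ, ← add_assoc]
    cases hs : sg st j <;> simp [tm, Fin.sum_univ_three, hs] <;> ring
  have tel := sum_range_sub' (fun j => tplaE φ w (sg true j) j - tplaE φ w (sg false j) j) (2 * h)
  have last : ∀ s, tplaE φ w s (2 * h) = tplaE φ w false (2 * h) := fun s => by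
    unfold tplaE
    refine sum_congr rfl fun b _ => ?_
    unfold p
    rw [if_neg (show ¬ 2 * h + 1 = 0 by omega), if_neg (show ¬ 2 * h + 1 = 1 by omega),
      if_neg (show ¬ 2 * h + 1 = 0 by omega), if_neg (show ¬ 2 * h + 1 = 1 by omega), if_pos rfl,
      if_pos rfl]
  have sw : ∀ st j, sg st (j + 1) = sg (!st) j := fun st j => by
    unfold sg
    rcases Nat.mod_two_eq_zero_or_one j with h | h <;> cases st <;> simp [Nat.add_mod, h]
  rw [last (sg true _), last (sg false _), show sg true 0 = false from rfl,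
    show sg false 0 = true from rfl] at tel
  simp only [sw, Bool.not_true, Bool.not_false, sum_sub_distrib] at tel
  rw [key, key]
  simp only [sum_add_distrib]
  linarith

/-- Facts on `P0`, `P1`, `ord` by `decide`; layer `j` of the switcher `w` has class
`c0 w + Fin.ofNat 3 j`. -/
theorem tm_cls (h : ℕ) (st : Bool) (τ : TT h) (i : Fin 3) (hv : (tm h).val st τ) :
    Sum.elim (fun j : Fin 15 => cls j) (tm h).cp ((tm h).v st τ i) = (tm h).k st τ + i := by
  rcases τ with k | ⟨w, j, b⟩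
  · have key : ∀ z, Sum.elim (fun j : Fin 15 => cls j) (tm h).cp (lift z) =
        Sum.elim (fun j : Fin 15 => cls j) (fun m : Fin 30 => cls m) z := fun z => by
      cases z <;> rfl
    refine (key (ord st k i)).trans ?_
    change st = true ∨ (k : ℕ) < 10 at hv
    change _ = (if st then cls k else 2) + i
    revert st k i
    decide
  · have hj := j.2
    fin_cases i
    · exact (tpla_cls h w (by omega) _).trans (add_zero _).symm
    · refine (tpla_cls h w (j := j + 1) (by omega) _).trans ?_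
      rw [tpla_succ, ← add_assoc]; rfl
    · refine (tpla_cls h w (j := j + 2) (by omega) _).trans ?_
      rw [tpla_succ, tpla_succ, add_assoc, ← add_assoc]; rfl

/-- For one switcher let `E s j = ∑ i, φ (class j) (p j i) (p (j + 1) (xor i s))`.  The two
triangles of layer `j` contribute `E (sg st j) j + E (sg st j) (j + 1)` plus a term that does not
depend on `st`.  Since `sg true j = !sg false j = sg false (j + 1)`, on minus off telescopes to
`E false 0 - E true 0` plus a multiple of `E false (2 h) - E true (2 h) = 0` (the last layer is one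
vertex; `1 ≤ h`).  The remaining identity only involves `Fin 15 ⊕ Fin 30`: prove the equality of
the two multisets of labelled edges (`decide` on a permutation of lists, or expand all sums with
`Fin.sum_univ_succ`/`simp` and `ring`) and transport it along `lift`. -/
theorem tm_iden (h : ℕ) (hh : 1 ≤ h) (φ : Fin 3 → Fin 15 ⊕ PV h → Fin 15 ⊕ PV h → ℝ) :
    ∑ τ, ind ((tm h).val true τ) *
      ∑ i, φ ((tm h).k true τ + i) ((tm h).v true τ i) ((tm h).v true τ (i + 1)) =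
    ∑ τ, ind ((tm h).val false τ) *
      ∑ i, φ ((tm h).k false τ + i) ((tm h).v false τ i) ((tm h).v false τ (i + 1)) +
      ∑ j : Fin 15, φ (cls j) (Sum.inl j) (Sum.inl (j + 1)) := by
  have h1 := congrArg (fun m : Multiset (Fin 3 × (Fin 15 ⊕ Fin 30) × (Fin 15 ⊕ Fin 30)) =>
    (m.map fun z => φ z.1 (lift z.2.1) (lift z.2.2)).sum) tpla_ms
  simp only [Multiset.map_add, Multiset.sum_add, Multiset.map_map] at h1
  change ∑ z : Fin 15 × Fin 3, _ + ∑ z : Fin 24 × Bool, _ = ∑ z ∈ _, _ + ∑ z : Fin 24 × Bool, _ +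
    ∑ j : Fin 15, _ at h1
  have h2 := sum_congr rfl fun w (_ : w ∈ univ) => tpla_tube h hh φ w
  rw [sum_filter] at h1
  simp only [Fintype.sum_prod_type, Function.comp] at h1
  simp only [sum_add_distrib] at h2
  have h3 : ∀ s, ∑ w, tplaE φ w s 0 =
      ∑ w, ∑ b, φ (c0 w) (lift (P0 w b)) (lift (P1 w (xor b s))) := fun s =>
    sum_congr rfl fun w _ => sum_congr rfl fun b _ => by simp [p]
  rw [h3, h3] at h2
  simp only [Bool.xor_true, Bool.xor_false] at h2
  rw [Fintype.sum_sum_type, Fintype.sum_sum_type, Fintype.sum_prod_type, Fintype.sum_prod_type]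
  have v1 : ∀ st z, ind ((tm h).val st (.inr z)) = 1 := fun _ _ => ind_pos trivial
  have v2 : ∀ k, ind ((tm h).val true (.inl k)) = 1 := fun _ => ind_pos (Or.inl rfl)
  have v3 : ∑ k : Fin 15, ind ((tm h).val false (.inl k)) * ∑ i, φ ((tm h).k false (.inl k) + i)
      ((tm h).v false (.inl k) i) ((tm h).v false (.inl k) (i + 1)) = ∑ k : Fin 15, ∑ i : Fin 3,
      if (k : ℕ) < 10 then φ (2 + i) (lift (ord false k i)) (lift (ord false k (i + 1))) else 0 :=
    sum_congr rfl fun k _ => by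
      by_cases hk : (k : ℕ) < 10
      · rw [ind_pos (show (tm h).val false (.inl k) from Or.inr hk), one_mul]
        simp only [hk, if_true]; rfl
      · rw [ind_neg fun h => h.elim Bool.false_ne_true hk]; simp [hk]
  simp only [v1, v2, v3, one_mul]
  change ∑ k : Fin 15, ∑ i, φ (cls k + i) (lift (ord true k i)) (lift (ord true k (i + 1))) + _ =
    _ + ∑ j : Fin 15, φ (cls j) (lift (Sum.inl j)) (lift (Sum.inl (j + 1)))
  linarith

theorem tm_off (h : ℕ) (τ : TT h) (i i' : Fin 3) (h1 : ((tm h).v false τ i).isLeft)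
    (h2 : ((tm h).v false τ i').isLeft) : i = i' := by
  rcases τ with k | ⟨w, j, b⟩
  · replace h1 := (tpla_lift (ord false k i)).symm.trans h1
    exfalso; clear h2; revert k i; decide
  · have r2 : ¬ ((p h w j b).isLeft ∧ (p h w (j + 1) (xor b (sg false j))).isLeft) := by
      rcases Nat.eq_zero_or_pos j with h0 | h0
      · rw [h0]
        simp only [p, if_true, zero_add, one_ne_zero, if_false, tpla_lift]
        clear * -; revert w b; decide
      · rw [tpla_right h w (j := j + 1) (by omega)]; simp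
    rcases tpla_left h1 with ⟨rfl, a⟩ | ⟨rfl, a⟩ <;> rcases tpla_left h2 with ⟨rfl, c⟩ | ⟨rfl, c⟩
    exacts [rfl, absurd ⟨a, c⟩ r2, absurd ⟨c, a⟩ r2, rfl]

theorem tm_on (h : ℕ) (τ : TT h) (i i' : Fin 3) (hi : i ≠ i') (h1 : ((tm h).v true τ i).isLeft)
    (h2 : ((tm h).v true τ i').isLeft) :
    ∃ (i₀ : Fin 3) (j : Fin 15), (tm h).v true τ i₀ = Sum.inl j ∧
      (tm h).v true τ (i₀ + 1) = Sum.inl (j + 1) ∧ ((tm h).v true τ (i₀ + 2)).isRight := by
  rcases τ with k | ⟨w, j, b⟩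
  · replace h1 := (tpla_lift (ord true k i)).symm.trans h1
    replace h2 := (tpla_lift (ord true k i')).symm.trans h2
    exfalso; revert k i i'; decide
  · have r1 := tpla_right h w (j := j + 2) (by omega) b
    have r2 : (p h w j b).isLeft ∧ (p h w (j + 1) (xor b (sg true j))).isLeft := by
      rcases tpla_left h1 with ⟨rfl, a⟩ | ⟨rfl, a⟩ <;> rcases tpla_left h2 with ⟨rfl, c⟩ | ⟨rfl, c⟩
      exacts [absurd rfl hi, ⟨a, c⟩, ⟨c, a⟩, absurd rfl hi]
    have h0 : (j : ℕ) = 0 := by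
      by_contra h0
      rw [tpla_right h w (j := j + 1) (by omega)] at r2
      simp at r2
    have key : ∀ (w : Fin 24) (b : Bool), (P0 w b).isLeft → ∃ j : Fin 15, P0 w b = Sum.inl j ∧
        P1 w (xor b (sg true 0)) = Sum.inl (j + 1) := by decide
    rw [h0] at r2
    obtain ⟨k, k1, k2⟩ := key w b ((tpla_lift _).symm.trans r2.1)
    refine ⟨0, k, ?_, ?_, ?_⟩
    · change p h w j b = _
      rw [h0, p, if_pos rfl, k1]; rfl
    · change p h w (j + 1) (xor b (sg true j)) = _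
      rw [h0, p, if_neg (by omega), if_pos rfl, k2]; rfl
    · change (p h w (j + 2) b).isRight = true
      rw [← Sum.not_isLeft, r1]; simp

end Pool.Agent.MP_46aeaf_co.HT.Tpl

/-! The gadget: its edges are distinct and its degrees are bounded. -/

namespace Pool.Agent.MP_46aeaf_co.HT.Tpl

open Finset Pool.Agent.MP_81e6aa_pr

lemma tplb_v (h : ℕ) (w : Fin 24) (j : Fin (2 * h)) (b : Bool) (i : Fin 3) :
    (tm h).v false (Sum.inr (w, j, b)) i =
      p h w (j + i) (if i = 1 then xor b (sg false j) else b) := by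
  fin_cases i <;> rfl

lemma tplb_o (h : ℕ) (k : Fin 15) (i : Fin 3) :
    (tm h).v false (Sum.inl k) i = lift (ord false k i) := rfl

lemma tplb_p0 (h : ℕ) (w : Fin 24) (b : Bool) : p h w 0 b = lift (P0 w b) := by simp [p]

lemma tplb_p1 (h : ℕ) (w : Fin 24) (b : Bool) : p h w 1 b = lift (P1 w b) := by simp [p]

lemma tplb_p2 (h : ℕ) (w : Fin 24) {j : ℕ} (hj : 2 ≤ j) (b : Bool) : p h w j b =
    Sum.inr (Sum.inr (w, Fin.ofNat (2 * h + 2) j, if j = 2 * h + 1 then false else b)) := by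
  unfold p
  rw [if_neg (by omega), if_neg (by omega)]

lemma tplb_lift {h : ℕ} {z z' : Fin 15 ⊕ Fin 30}
    (e : (lift z : Fin 15 ⊕ PV h).getRight? = (lift z' : Fin 15 ⊕ PV h).getRight?) :
    z.getRight? = z'.getRight? := by
  rcases z with z | z <;> rcases z' with z' | z' <;> simp_all [lift]

lemma tplb_lift_inj {h : ℕ} {z z' : Fin 15 ⊕ Fin 30}
    (e : (lift z : Fin 15 ⊕ PV h) = lift z') : z = z' := by
  rcases z with z | z <;> rcases z' with z' | z' <;> simp_all [lift]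

lemma tplb_ne {h : ℕ} {w : Fin 24} {j : ℕ} (hj : 2 ≤ j) {b : Bool} {z : Fin 15 ⊕ Fin 30} :
    (p h w j b).getRight? ≠ (lift z : Fin 15 ⊕ PV h).getRight? := by
  rw [tplb_p2 h w hj]
  rcases z with z | z <;> simp [lift]

lemma tplb_hi {h : ℕ} {w w' : Fin 24} {j j' : ℕ} {b b' : Bool} (hj : 2 ≤ j ∨ 2 ≤ j')
    (h1 : j ≤ 2 * h + 1) (h1' : j' ≤ 2 * h + 1)
    (e : (p h w j b).getRight? = (p h w' j' b').getRight?) :
    w = w' ∧ j = j' ∧ (j ≠ 2 * h + 1 → b = b') := by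
  have key : ∀ {w w' : Fin 24} {j j' : ℕ} {b b' : Bool}, 2 ≤ j →
      (p h w j b).getRight? = (p h w' j' b').getRight? → 2 ≤ j' := by
    intro w w' j j' b b' hj e
    by_contra hn
    obtain rfl | rfl : j' = 0 ∨ j' = 1 := by omega
    · rw [tplb_p0] at e; exact tplb_ne hj e
    · rw [tplb_p1] at e; exact tplb_ne hj e
  obtain ⟨a, a'⟩ : 2 ≤ j ∧ 2 ≤ j' := by
    rcases hj with hj | hj
    · exact ⟨hj, key hj e⟩
    · exact ⟨key hj e.symm, hj⟩
  rw [tplb_p2 h w a, tplb_p2 h w' a'] at e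
  simp only [Sum.getRight?_inr, Option.some.injEq, Sum.inr.injEq, Prod.mk.injEq] at e
  obtain ⟨e1, e2, e3⟩ := e
  have e4 : j = j' := by
    have := congrArg Fin.val e2
    simp only [Fin.val_ofNat] at this
    rwa [Nat.mod_eq_of_lt (by omega), Nat.mod_eq_of_lt (by omega)] at this
  subst e4
  refine ⟨e1, rfl, fun hn => ?_⟩
  simpa [hn] using e3

lemma tplb_sg (j : ℕ) : sg false (j + 1) = !sg false j := by
  unfold sg
  rcases Nat.mod_two_eq_zero_or_one j with h | h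
  · have : (j + 1) % 2 = 1 := by omega
    simp [h, this]
  · have : (j + 1) % 2 = 0 := by omega
    simp [h, this]

lemma tplb_d1 : ∀ (w : Fin 24) (b b' : Bool), (P1 w b).getRight? = (P1 w b').getRight? → b = b' := by
  decide +kernel

lemma tplb_d2 : ∀ (k : Fin 15) (i : Fin 3) (k' : Fin 15) (i' : Fin 3), (k : ℕ) < 10 →
    (k' : ℕ) < 10 → (ord false k i).getRight? = (ord false k' i').getRight? → k = k' ∧ i = i' := by
  decide +kernel

lemma tplb_d3 : ∀ (k : Fin 15) (i : Fin 3) (w : Fin 24) (b : Bool), (k : ℕ) < 10 →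
    (ord false k i).getRight? = (P0 w b).getRight? →
    (ord false k (i + 1)).getRight? ≠ (P1 w (!b)).getRight? := by
  decide +kernel

lemma tplb_d4 : ∀ (w : Fin 24) (b : Bool) (w' : Fin 24) (b' : Bool),
    (P0 w b).getRight? = (P0 w' b').getRight? →
    (P1 w (!b)).getRight? = (P1 w' (!b')).getRight? → w = w' ∧ b = b' := by
  decide +kernel

lemma tplb_mix {h : ℕ} (k : Fin 15) (i : Fin 3) (hk : (k : ℕ) < 10) (w : Fin 24) (j : Fin (2 * h))
    (b : Bool) (i' : Fin 3)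
    (h1 : ((tm h).v false (Sum.inl k) i).getRight? =
      ((tm h).v false (Sum.inr (w, j, b)) i').getRight?)
    (h2 : ((tm h).v false (Sum.inl k) (i + 1)).getRight? =
      ((tm h).v false (Sum.inr (w, j, b)) (i' + 1)).getRight?) : False := by
  rw [tplb_o, tplb_v] at h1 h2
  have a1 : ¬ 2 ≤ (j : ℕ) + i' := fun a => tplb_ne a h1.symm
  have a2 : ¬ 2 ≤ (j : ℕ) + (i' + 1 : Fin 3) := fun a => tplb_ne a h2.symm
  have hi : i' = 0 ∧ (j : ℕ) = 0 := by
    fin_cases i'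
    · simp at a2; exact ⟨rfl, by omega⟩
    · simp at a2
    · simp at a1
  obtain ⟨rfl, hj⟩ := hi
  rw [hj] at h1 h2
  have s0 : sg false 0 = true := rfl
  simp only [Fin.val_zero, add_zero, zero_add, Fin.val_one, s0, if_true, Bool.xor_true,
    zero_ne_one, if_false, tplb_p0, tplb_p1] at h1 h2
  exact tplb_d3 k i w b hk (tplb_lift h1) (tplb_lift h2)

lemma tplb_tube {h : ℕ} (hh : 2 ≤ h) {w w' : Fin 24} {j j' : ℕ} (hj : j < 2 * h) (hj' : j' < 2 * h)
    {b b' : Bool} {i i' : Fin 3}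
    (h1 : (p h w (j + i) (if i = 1 then xor b (sg false j) else b)).getRight? =
      (p h w' (j' + i') (if i' = 1 then xor b' (sg false j') else b')).getRight?)
    (h2 : (p h w (j + (i + 1 : Fin 3)) (if i + 1 = 1 then xor b (sg false j) else b)).getRight? =
      (p h w' (j' + (i' + 1 : Fin 3))
        (if i' + 1 = 1 then xor b' (sg false j') else b')).getRight?) :
    w = w' ∧ j = j' ∧ b = b' ∧ i = i' := by
  have s0 : sg false 0 = true := rfl
  have s1 : sg false 1 = false := rfl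
  have A := fun hc => tplb_hi hc (by omega) (by omega) h1
  have B := fun hc => tplb_hi hc (by omega) (by omega) h2
  have three : ∀ i : Fin 3, i = 0 ∨ i = 1 ∨ i = 2 := by decide
  have v0 : ((0 : Fin 3) : ℕ) = 0 := rfl
  have v1 : ((1 : Fin 3) : ℕ) = 1 := rfl
  have v2 : ((2 : Fin 3) : ℕ) = 2 := rfl
  have e0 : (0 : Fin 3) + 1 = 1 := rfl
  have e1 : (1 : Fin 3) + 1 = 2 := rfl
  have e2 : (2 : Fin 3) + 1 = 0 := rfl
  have n0 : ¬ (0 : Fin 3) = 1 := by decide
  have n2 : ¬ (2 : Fin 3) = 1 := by decide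
  rcases three i with rfl | rfl | rfl <;> rcases three i' with rfl | rfl | rfl <;>
    simp only [e0, e1, e2, v0, v1, v2, n0, n2, if_true, if_false, add_zero] at h1 h2 A B
  · by_cases hc : 2 ≤ j + 1 ∨ 2 ≤ j' + 1
    · obtain ⟨a, c, d⟩ := B hc
      obtain rfl : j = j' := by omega
      have := d (by omega)
      exact ⟨a, rfl, by simpa using this, rfl⟩
    · obtain rfl : j = 0 := by omega
      obtain rfl : j' = 0 := by omega
      simp only [zero_add, s0, Bool.xor_true, tplb_p0, tplb_p1] at h1 h2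
      obtain ⟨a, c⟩ := tplb_d4 _ _ _ _ (tplb_lift h1) (tplb_lift h2)
      exact ⟨a, rfl, c, rfl⟩
  · exfalso
    obtain ⟨rfl, c, d⟩ := B (by omega)
    obtain rfl : j = j' + 1 := by omega
    have d1 := d (by omega)
    rw [tplb_sg] at d1
    have d2 : b = xor b' (sg false j') := by
      by_cases hc : 1 ≤ j'
      · exact (A (by omega)).2.2 (by omega)
      · obtain rfl : j' = 0 := by omega
        simp only [zero_add, tplb_p1] at h1
        exact tplb_d1 _ _ _ (tplb_lift h1)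
    subst d2
    revert d1
    cases b' <;> cases sg false j' <;> decide
  · exfalso
    obtain ⟨-, c, -⟩ := A (by omega)
    obtain ⟨-, c', -⟩ := B (by omega)
    omega
  · exfalso
    obtain ⟨rfl, c, d⟩ := B (by omega)
    obtain rfl : j' = j + 1 := by omega
    have d1 := d (by omega)
    rw [tplb_sg] at d1
    have d2 : xor b (sg false j) = b' := by
      by_cases hc : 1 ≤ j
      · exact (A (by omega)).2.2 (by omega)
      · obtain rfl : j = 0 := by omega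
        simp only [zero_add, tplb_p1] at h1
        exact tplb_d1 _ _ _ (tplb_lift h1)
    subst d2
    revert d1
    cases b <;> cases sg false j <;> decide
  · obtain ⟨rfl, c, -⟩ := B (by omega)
    obtain rfl : j = j' := by omega
    have d2 : xor b (sg false j) = xor b' (sg false j) := by
      by_cases hc : 1 ≤ j
      · exact (A (by omega)).2.2 (by omega)
      · obtain rfl : j = 0 := by omega
        simp only [zero_add, tplb_p1] at h1
        exact tplb_d1 _ _ _ (tplb_lift h1)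
    exact ⟨rfl, rfl, by simpa using d2, rfl⟩
  · exfalso
    obtain ⟨-, c, -⟩ := A (by omega)
    obtain ⟨-, c', -⟩ := B (by omega)
    omega
  · exfalso
    obtain ⟨-, c, -⟩ := A (by omega)
    obtain ⟨-, c', -⟩ := B (by omega)
    omega
  · exfalso
    obtain ⟨-, c, -⟩ := A (by omega)
    obtain ⟨-, c', -⟩ := B (by omega)
    omega
  · obtain ⟨a, c, d⟩ := A (by omega)
    obtain rfl : j = j' := by omega
    refine ⟨a, rfl, ?_, rfl⟩
    by_cases hc : 2 ≤ j
    · exact (B (by omega)).2.2 (by omega)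
    · exact d (by omega)

theorem tm_dist (h : ℕ) (hh : 2 ≤ h) (τ : TT h) (i : Fin 3) (τ' : TT h) (i' : Fin 3)
    (hv : (tm h).val false τ) (hv' : (tm h).val false τ')
    (h1 : ((tm h).v false τ i).getRight? = ((tm h).v false τ' i').getRight?)
    (h2 : ((tm h).v false τ (i + 1)).getRight? = ((tm h).v false τ' (i' + 1)).getRight?) :
    τ = τ' ∧ i = i' := by
  rcases τ with k | ⟨w, j, b⟩ <;> rcases τ' with k' | ⟨w', j', b'⟩
  · have hk : (k : ℕ) < 10 := by simpa [tm] using hv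
    have hk' : (k' : ℕ) < 10 := by simpa [tm] using hv'
    rw [tplb_o, tplb_o] at h1
    obtain ⟨rfl, rfl⟩ := tplb_d2 k i k' i' hk hk' (tplb_lift h1)
    exact ⟨rfl, rfl⟩
  · exact (tplb_mix k i (by simpa [tm] using hv) w' j' b' i' h1 h2).elim
  · exact (tplb_mix k' i' (by simpa [tm] using hv') w j b i h1.symm h2.symm).elim
  · rw [tplb_v, tplb_v] at h1 h2
    obtain ⟨rfl, a, rfl, rfl⟩ := tplb_tube hh j.2 j'.2 h1 h2
    obtain rfl : j = j' := Fin.ext a
    exact ⟨rfl, rfl⟩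

/-- the incidences of the vertices `lift z` -/
def tplbF : (Fin 15 × Fin 3) ⊕ (Fin 24 × Bool × Fin 3) → Fin 15 ⊕ Fin 30 :=
  Sum.elim (fun q => ord false q.1 q.2) fun q =>
    if q.2.2 = 0 then P0 q.1 q.2.1 else if q.2.2 = 1 then P1 q.1 (!q.2.1) else P1 q.1 q.2.1

lemma tplb_d5 : ∀ z : Fin 15 ⊕ Fin 30, (univ.filter fun q => tplbF q = z).card ≤ 50 := by
  decide +kernel

lemma tplb_inc (h : ℕ) (z : Fin 15 ⊕ PV h) :
    ct (fun q : TT h × Fin 3 => (tm h).v false q.1 q.2 = z) ≤ 50 := by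
  have s0 : sg false 0 = true := rfl
  by_cases hz : ∃ z0, z = lift z0
  · obtain ⟨z0, rfl⟩ := hz
    have low : ∀ (w : Fin 24) (j : Fin (2 * h)) (b : Bool) (i : Fin 3),
        (tm h).v false (Sum.inr (w, j, b)) i = lift z0 →
        ((j : ℕ) = 0 ∧ i = 0 ∧ P0 w b = z0) ∨ ((j : ℕ) = 0 ∧ i = 1 ∧ P1 w (!b) = z0) ∨
          ((j : ℕ) = 1 ∧ i = 0 ∧ P1 w b = z0) := by
      intro w j b i e
      rw [tplb_v] at e
      have a1 : ¬ 2 ≤ (j : ℕ) + i := fun a => tplb_ne a (congrArg Sum.getRight? e)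
      have three : ∀ i : Fin 3, i = 0 ∨ i = 1 ∨ i = 2 := by decide
      rcases three i with rfl | rfl | rfl
      · obtain hj | hj : (j : ℕ) = 0 ∨ (j : ℕ) = 1 := by simp at a1; omega
        · rw [hj] at e
          simp only [Fin.val_zero, add_zero, zero_ne_one, if_false, tplb_p0] at e
          exact Or.inl ⟨hj, rfl, tplb_lift_inj e⟩
        · rw [hj] at e
          simp only [Fin.val_zero, add_zero, zero_ne_one, if_false, tplb_p1] at e
          exact Or.inr (Or.inr ⟨hj, rfl, tplb_lift_inj e⟩)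
      · have hj : (j : ℕ) = 0 := by simp at a1; omega
        rw [hj] at e
        simp only [Fin.val_one, zero_add, if_true, s0, Bool.xor_true, tplb_p1] at e
        exact Or.inr (Or.inl ⟨hj, rfl, tplb_lift_inj e⟩)
      · simp at a1
    refine (ct_le_of_inj (Y := fun q => tplbF q = z0)
      (fun q : TT h × Fin 3 => Sum.elim (fun k => Sum.inl (k, q.2))
        (fun t => Sum.inr (t.1, t.2.2, if (t.2.1 : ℕ) = 0 then q.2 else 2)) q.1) ?_ ?_).trans ?_
    · rintro ⟨k | ⟨w, j, b⟩, i⟩ e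
      · exact tplb_lift_inj e
      · rcases low w j b i e with ⟨a, rfl, c⟩ | ⟨a, rfl, c⟩ | ⟨a, rfl, c⟩ <;> simp [tplbF, a, c]
    · rintro ⟨k | ⟨w, j, b⟩, i⟩ ⟨k' | ⟨w', j', b'⟩, i'⟩ e e' f
      · simpa using f
      · simp at f
      · simp at f
      · simp only [Sum.elim_inr, Sum.inr.injEq, Prod.mk.injEq] at f
        obtain ⟨rfl, rfl, f⟩ := f
        have : (j : ℕ) = j' ∧ i = i' := by
          rcases low w j b i e with ⟨a, rfl, -⟩ | ⟨a, rfl, -⟩ | ⟨a, rfl, -⟩ <;>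
            rcases low w j' b i' e' with ⟨a', rfl, -⟩ | ⟨a', rfl, -⟩ | ⟨a', rfl, -⟩ <;>
            simp [a, a'] at f ⊢
        obtain ⟨a, rfl⟩ := this
        rw [Fin.ext a]
    · rw [ct_card]; exact_mod_cast tplb_d5 z0
  · have hi : ∀ (w : Fin 24) (j : Fin (2 * h)) (b : Bool) (i : Fin 3),
        (tm h).v false (Sum.inr (w, j, b)) i = z → 2 ≤ (j : ℕ) + i := by
      intro w j b i e
      rw [tplb_v] at e
      by_contra hn
      obtain a | a : (j : ℕ) + i = 0 ∨ (j : ℕ) + i = 1 := by omega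
      · rw [a, tplb_p0] at e; exact hz ⟨_, e.symm⟩
      · rw [a, tplb_p1] at e; exact hz ⟨_, e.symm⟩
    refine (ct_le_of_inj (Y := fun _ : Fin 3 × Bool => True)
      (fun q : TT h × Fin 3 => (q.2, Sum.elim (fun _ => true) (fun t => t.2.2) q.1))
      (fun _ _ => trivial) ?_).trans ?_
    · rintro ⟨k | ⟨w, j, b⟩, i⟩ ⟨k' | ⟨w', j', b'⟩, i'⟩ e e' f
      · exact (hz ⟨_, e.symm⟩).elim
      · exact (hz ⟨_, e.symm⟩).elim
      · exact (hz ⟨_, e'.symm⟩).elim
      · simp only [Sum.elim_inr, Prod.mk.injEq] at f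
        obtain ⟨rfl, rfl⟩ := f
        have a := hi w j b i e
        have g := congrArg Sum.getRight? (e.trans e'.symm)
        dsimp only at g
        rw [tplb_v, tplb_v] at g
        obtain ⟨rfl, c, -⟩ := tplb_hi (Or.inl a) (by omega) (by omega) g
        rw [Fin.ext (by omega : (j : ℕ) = j')]
    · rw [ct_true]; norm_num

theorem tm_deg (h : ℕ) (z : Fin 15 ⊕ PV h) :
    ct (fun q : TT h × Fin 3 => (tm h).val false q.1 ∧
      ((tm h).v false q.1 q.2 = z ∨ (tm h).v false q.1 (q.2 + 1) = z)) ≤ 100 := by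
  have a := tplb_inc h z
  have c : ct (fun q : TT h × Fin 3 => (tm h).v false q.1 (q.2 + 1) = z) ≤
      ct (fun q : TT h × Fin 3 => (tm h).v false q.1 q.2 = z) :=
    ct_le_of_inj (fun q => (q.1, q.2 + 1)) (fun _ e => e) fun q q' _ _ e => by
      simp only [Prod.mk.injEq, add_left_inj] at e
      exact Prod.ext e.1 e.2
  have d := ct_le_add (X := fun q : TT h × Fin 3 => (tm h).val false q.1 ∧
      ((tm h).v false q.1 q.2 = z ∨ (tm h).v false q.1 (q.2 + 1) = z)) fun q e => e.2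
  linarith

end Pool.Agent.MP_46aeaf_co.HT.Tpl

/-! The gadget: peeling. -/

namespace Pool.Agent.MP_46aeaf_co.HT.Tpl

open Finset Pool.Agent.MP_81e6aa_pr

lemma tplc_lift {h : ℕ} (x : Fin 15 ⊕ Fin 30) (q : Fin 24 × Fin (2 * h + 2) × Bool) :
    (lift x : Fin 15 ⊕ PV h) ≠ Sum.inr (Sum.inr q) := by
  cases x <;> simp [lift]

lemma tplc_p {h : ℕ} {w w' : Fin 24} {j : ℕ} {i b : Bool} {y : Fin (2 * h + 2)}
    (hj : j ≤ 2 * h + 1) (e : p h w j i = Sum.inr (Sum.inr (w', y, b))) :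
    w = w' ∧ j = y ∧ (j ≠ 2 * h + 1 → i = b) := by
  unfold p at e
  by_cases h0 : j = 0
  · rw [if_pos h0] at e; exact absurd e (tplc_lift _ _)
  by_cases h1 : j = 1
  · rw [if_neg h0, if_pos h1] at e; exact absurd e (tplc_lift _ _)
  rw [if_neg h0, if_neg h1] at e
  simp only [Sum.inr.injEq, Prod.mk.injEq] at e
  obtain ⟨a, b', c⟩ := e
  refine ⟨a, ?_, fun hne => by rwa [if_neg hne] at c⟩
  rw [← b', Fin.val_ofNat, Nat.mod_eq_of_lt (by omega)]

lemma tplc_p' {h : ℕ} (w : Fin 24) {j : ℕ} (i : Bool) (h2 : 2 ≤ j) :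
    ∃ y b, p h w j i = Sum.inr (Sum.inr (w, y, b)) := by
  unfold p
  rw [if_neg (by omega), if_neg (by omega)]
  exact ⟨_, _, rfl⟩

/-- the triangles that contain a tube vertex -/
lemma tplc_tube {h : ℕ} {st : Bool} {τ : TT h} {k : Fin 3} {w : Fin 24} {y : Fin (2 * h + 2)}
    {b : Bool} (e : (tm h).v st τ k = Sum.inr (Sum.inr (w, y, b))) :
    ∃ (z : Fin (2 * h)) (i : Bool), τ = Sum.inr (w, z, i) ∧ (z : ℕ) ≤ y ∧ (y : ℕ) ≤ z + 2 ∧
      ((z : ℕ) = y → i = b) ∧ ((z : ℕ) + 2 = y → (z : ℕ) + 1 ≠ 2 * h → i = b) := by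
  rcases τ with a | ⟨w', z, i⟩
  · exact absurd e (tplc_lift _ _)
  have hz := z.2
  fin_cases k
  · obtain ⟨rfl, h2, h3⟩ := tplc_p (j := z) (by omega) e
    exact ⟨z, i, rfl, by omega, by omega, fun _ => h3 (by omega), fun _ => by omega⟩
  · obtain ⟨rfl, h2, h3⟩ := tplc_p (j := z + 1) (by omega) e
    exact ⟨z, i, rfl, by omega, by omega, fun _ => by omega, fun _ => by omega⟩
  · obtain ⟨rfl, h2, h3⟩ := tplc_p (j := z + 2) (by omega) e
    exact ⟨z, i, rfl, by omega, by omega, fun _ => by omega, fun _ _ => h3 (by omega)⟩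

lemma tplc_ord (st : Bool) (k : Fin 15) : (ord st k 0).isRight ∧ ∀ (k' : Fin 15) (i : Fin 3),
    (st = true ∨ (k : ℕ) < 10) → (st = true ∨ (k' : ℕ) < 10) → ord st k' i = ord st k 0 → k' = k := by
  revert st k
  decide

lemma tplc_lift_inj {h : ℕ} {x y : Fin 15 ⊕ Fin 30} (e : (lift x : Fin 15 ⊕ PV h) = lift y) :
    x = y := by
  cases x <;> cases y <;> simp_all [lift]

/-- the two last triangles of `w` are in `S` -/
def tplc_Both {h : ℕ} (S : Finset (TT h)) (w : Fin 24) : Prop :=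
  ∀ (z : Fin (2 * h)) (i : Bool), (z : ℕ) + 1 = 2 * h → Sum.inr (w, z, i) ∈ S

/-- two consecutive layers of `w` are missing in `S` -/
def tplc_Gap {h : ℕ} (S : Finset (TT h)) (w : Fin 24) : Prop :=
  ∃ j, j + 1 < 2 * h ∧ ∀ (z : Fin (2 * h)) (i : Bool), Sum.inr (w, z, i) ∈ S →
    (z : ℕ) ≠ j ∧ (z : ℕ) ≠ j + 1

def tplc_Open {h : ℕ} (S : Finset (TT h)) : Prop := ∀ w, ¬ tplc_Both S w ∨ tplc_Gap S w

lemma tplc_mono {h : ℕ} {S S' : Finset (TT h)} (hs : S' ⊆ S) {w : Fin 24}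
    (ho : ¬ tplc_Both S w ∨ tplc_Gap S w) : ¬ tplc_Both S' w ∨ tplc_Gap S' w := by
  rcases ho with ho | ⟨j, hj, ho⟩
  · exact Or.inl fun hb => ho fun z i hz => hs (hb z i hz)
  · exact Or.inr ⟨j, hj, fun z i hz => ho z i (hs hz)⟩

lemma tplc_free {h : ℕ} (st : Bool) {S : Finset (TT h)} (hS : S.Nonempty)
    (hv : ∀ τ ∈ S, (tm h).val st τ) (ho : tplc_Open S) :
    ∃ τ ∈ S, ∃ (i : Fin 3) (y : PV h), (tm h).v st τ i = Sum.inr y ∧
      ∀ τ' ∈ S, τ' ≠ τ → ∀ i', (tm h).v st τ' i' ≠ Sum.inr y := by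
  classical
  by_cases hsw : ∃ w z i, Sum.inr (w, z, i) ∈ S
  · obtain ⟨w, z₀, i₀, h₀⟩ := hsw
    by_cases hb : tplc_Both S w
    · obtain ⟨j, hj, hg⟩ := (ho w).resolve_left (not_not.2 hb)
      have hl : ∀ i, Sum.inr (w, (⟨2 * h - 1, by omega⟩ : Fin (2 * h)), i) ∈ S :=
        fun i => hb _ i (by dsimp only; omega)
      obtain ⟨⟨z, i⟩, hm, hmin⟩ := exists_min_image
        (univ.filter fun q : Fin (2 * h) × Bool => Sum.inr (w, q.1, q.2) ∈ S ∧ j + 2 ≤ q.1)
        (fun q => (q.1 : ℕ)) ⟨(⟨2 * h - 1, by omega⟩, false), by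
          have := hg _ _ (hl false)
          simp only [mem_filter, mem_univ, true_and]
          refine ⟨hl false, ?_⟩
          dsimp only at this ⊢
          omega⟩
      simp only [mem_filter, mem_univ, true_and] at hm hmin
      obtain ⟨y, b, e⟩ := tplc_p' (h := h) w (j := z) i (by omega)
      have hz := z.2
      obtain ⟨-, e1, e2⟩ := tplc_p (by omega) e
      refine ⟨_, hm.1, 0, _, e, fun τ' hτ' hne i' e' => hne ?_⟩
      obtain ⟨z', i'', rfl, a1, a2, a3, -⟩ := tplc_tube e'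
      have a4 := hg z' i'' hτ'
      have a5 : j + 2 ≤ z' := by omega
      have a6 := hmin (z', i'') ⟨hτ', a5⟩
      dsimp only at a6
      have a7 : z' = z := Fin.ext (by omega)
      rw [a7, a3 (by omega), e2 (by omega)]
    · obtain ⟨⟨z, i⟩, hm, hmax⟩ := exists_max_image
        (univ.filter fun q : Fin (2 * h) × Bool => Sum.inr (w, q.1, q.2) ∈ S)
        (fun q => (q.1 : ℕ)) ⟨(z₀, i₀), by simpa using h₀⟩
      simp only [mem_filter, mem_univ, true_and] at hm hmax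
      obtain ⟨y, b, e⟩ := tplc_p' (h := h) w (j := z + 2) i (by omega)
      have hz := z.2
      obtain ⟨-, e1, e2⟩ := tplc_p (by omega) e
      refine ⟨_, hm, 2, _, e, fun τ' hτ' hne i' e' => hne ?_⟩
      obtain ⟨z', i'', rfl, a1, a2, -, a3⟩ := tplc_tube e'
      have a6 := hmax (z', i'') hτ'
      dsimp only at a6
      obtain rfl : z' = z := Fin.ext (by omega)
      by_cases hl : (z' : ℕ) + 1 = 2 * h
      · by_contra hne'
        refine hb fun z'' c hz'' => ?_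
        obtain rfl : z'' = z' := Fin.ext (by omega)
        have hi : i'' ≠ i := fun hi => hne' (by rw [hi])
        by_cases hc : c = i
        · rwa [hc]
        · have : c = i'' := by revert hc hi; cases c <;> cases i <;> cases i'' <;> simp
          rwa [this]
      · rw [a3 (by omega) hl, e2 (by omega)]
  · obtain ⟨τ, hτ⟩ := hS
    rcases τ with k | ⟨w, z, i⟩
    swap
    · exact absurd ⟨w, z, i, hτ⟩ hsw
    obtain ⟨h1, h2⟩ := tplc_ord st k
    obtain ⟨y, hy⟩ := Sum.isRight_iff.1 h1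
    have e : (tm h).v st (Sum.inl k) 0 = Sum.inr (Sum.inl y) := by
      change lift (ord st k 0) = _
      rw [hy]; rfl
    refine ⟨_, hτ, 0, _, e, fun τ' hτ' hne i' e' => hne ?_⟩
    rcases τ' with k' | ⟨w, z, i⟩
    · rw [h2 k' i' (hv _ hτ) (hv _ hτ') (tplc_lift_inj (h := h) (e'.trans e.symm))]
    · exact absurd ⟨w, z, i, hτ'⟩ hsw

lemma tplc_peel {h : ℕ} (st : Bool) (n : ℕ) : ∀ S : Finset (TT h), S.card = n + 1 →
    (∀ τ ∈ S, (tm h).val st τ) → tplc_Open S → (tm h).Peel st S := by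
  induction n with
  | zero =>
    intro S hc _ _
    obtain ⟨τ, rfl⟩ := card_eq_one.1 hc
    exact Tm.Peel.one τ
  | succ n ih =>
    intro S hc hv ho
    obtain ⟨τ, hτ, i, y, e, hf⟩ := tplc_free st (card_pos.1 (by omega)) hv ho
    have h1 := ih (S.erase τ) (by rw [card_erase_of_mem hτ]; omega)
      (fun τ' h' => hv τ' (mem_of_mem_erase h')) fun w => tplc_mono (erase_subset _ _) (ho w)
    rw [← insert_erase hτ]
    exact Tm.Peel.add _ τ i y h1 (notMem_erase _ _) e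
      fun τ' h' => hf τ' (mem_of_mem_erase h') (ne_of_mem_erase h')

lemma tplc_count {h : ℕ} (S : Finset (TT h)) (W : Finset (Fin 24))
    (hW : ∀ w ∈ W, ¬ tplc_Gap S w) : h * W.card ≤ S.card := by
  classical
  have h1 : W ×ˢ range h ⊆
      S.image (Sum.elim (fun _ => ((0 : Fin 24), 0)) fun q => (q.1, (q.2.1 : ℕ) / 2)) := by
    rintro ⟨w, a⟩ hwa
    obtain ⟨hw, ha⟩ := mem_product.1 hwa
    have ha' : a < h := mem_range.1 ha
    have h2 := hW w hw
    unfold tplc_Gap at h2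
    push Not at h2
    obtain ⟨z, i, hz, h3⟩ := h2 (2 * a) (by omega)
    refine mem_image.2 ⟨_, hz, ?_⟩
    have : (z : ℕ) / 2 = a := by
      by_cases h4 : (z : ℕ) = 2 * a
      · omega
      · have := h3 h4; omega
    simp [this]
  have h2 := (card_le_card h1).trans card_image_le
  rwa [card_product, card_range, mul_comm] at h2

theorem tm_peel (h : ℕ) (hh : 2 ≤ h) (st : Bool) (S : Finset (TT h)) (hS : S.Nonempty)
    (hv : ∀ τ ∈ S, (tm h).val st τ) :
    ∃ S' ⊆ S, (tm h).Peel st S' ∧ h * (S.card - S'.card) ≤ S.card := by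
  classical
  let l : Fin (2 * h) := ⟨2 * h - 1, by omega⟩
  have hl : (l : ℕ) + 1 = 2 * h := by dsimp only [l]; omega
  let W : Finset (Fin 24) := univ.filter fun w => tplc_Both S w ∧ ¬ tplc_Gap S w
  let D : Finset (TT h) := W.image fun w => Sum.inr (w, l, true)
  have hne : (S \ D).Nonempty := by
    rcases W.eq_empty_or_nonempty with h0 | ⟨w, hw⟩
    · simpa [D, h0] using hS
    · refine ⟨Sum.inr (w, l, false), mem_sdiff.2 ⟨(mem_filter.1 hw).2.1 l false hl, ?_⟩⟩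
      simp [D]
  have ho : tplc_Open (S \ D) := by
    intro w
    by_cases hw : w ∈ W
    · exact Or.inl fun hb => (mem_sdiff.1 (hb l true hl)).2 (mem_image_of_mem _ hw)
    · refine tplc_mono sdiff_subset ?_
      simp only [W, mem_filter, mem_univ, true_and] at hw
      tauto
  refine ⟨S \ D, sdiff_subset, tplc_peel st ((S \ D).card - 1) _ ?_
    (fun τ hτ => hv τ (mem_sdiff.1 hτ).1) ho, ?_⟩
  · have := card_pos.2 hne
    omega
  · refine le_trans (Nat.mul_le_mul_left h ?_)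
      (tplc_count S W fun w hw => (mem_filter.1 hw).2.2)
    have h1 : S.card - D.card ≤ (S \ D).card := le_card_sdiff D S
    have h2 : D.card ≤ W.card := card_image_le
    omega

theorem tm_ok (h : ℕ) (hh : 2 ≤ h) : (tm h).Ok h where
  cls := tm_cls h
  iden := tm_iden h (by omega)
  off := fun τ i i' _ => tm_off h τ i i'
  on := fun τ i i' _ => tm_on h τ i i'
  dist := tm_dist h hh
  deg := tm_deg h
  size := by simp [Fintype.card_sum, Fintype.card_prod]; omega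
  peel := tm_peel h hh

end Pool.Agent.MP_46aeaf_co.HT.Tpl

end

-- part MP_46aeaf_co.LS.Labels
section

set_option autoImplicit false
set_option linter.unusedSectionVars false
set_option linter.unusedVariables false

/-! Random labels are pseudo-random. -/

namespace Pool.Agent.MP_46aeaf_co.HT

open Finset Pool.Agent.MP_81e6aa_pr Real Filter

section

variable {V : Type} [Fintype V] {P : Par V} {L : ℝ}

lemma labp_e0 : 0 ≤ e0 ∧ e0 ≤ 1 := by unfold e0; constructor <;> norm_num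

lemma Par.Ok.labp_n (hP : P.Ok L) : (0 : ℝ) < Fintype.card V := hP.card ▸ exp_pos L

lemma Par.Ok.labp_fo (hP : P.Ok L) (i : ℕ) : 0 ≤ P.fo i := by
  unfold Par.fo
  split_ifs
  · exact mul_nonneg (mul_nonneg hP.γ0.le (sub_nonneg.2 labp_e0.2)) (ct_nonneg _)
  · positivity

lemma Par.Ok.lp_nonneg (hP : P.Ok L) (k : Fin 3) (j : ℕ) : 0 ≤ P.lp k j := by
  have hn := hP.labp_n
  have h0 := hP.γ0
  have h1 := hP.γ1
  have he := labp_e0
  unfold Par.lp
  split_ifs
  · have h2 : (P.m : ℝ) / Fintype.card V ≤ P.γ := by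
      rw [div_le_iff₀ hn]
      exact hP.m2.trans (mul_le_mul_of_nonneg_left (ct_le_card _) h0.le)
    norm_num at h1
    linarith
  · exact div_nonneg (hP.labp_fo _) hn.le
  · exact div_nonneg (add_nonneg (mul_nonneg (mul_nonneg h0.le he.1) (ct_nonneg _))
      (hP.labp_fo _)) hn.le
  · exact le_rfl
  · norm_num at h1
    linarith
  · exact mul_nonneg h0.le (sub_nonneg.2 he.2)
  · exact mul_nonneg h0.le he.1
  · exact le_rfl

lemma Par.Ok.labp_sum_d (hP : P.Ok L) : ∑ i ∈ range (P.l + 1), P.d i = Fintype.card V := by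
  unfold Par.d ct
  rw [sum_comm, ← ct_true]
  unfold ct
  refine sum_congr rfl fun v _ => ?_
  rw [sum_eq_single (P.lev v) (fun b _ hb => ind_neg fun h => hb h.symm)
    (fun h => absurd (mem_range.2 (Nat.lt_succ_of_le (hP.lev v))) h), ind_pos rfl, ind_pos trivial]

lemma Par.Ok.pr_pos (hP : P.Ok L) (k : Fin 3) :
    P.pr k 1 (P.l + 2) = P.γ + (if k = 0 then (P.m : ℝ) / Fintype.card V else 0) := by
  have hn := hP.labp_n
  unfold Par.pr
  rw [← Finset.Ico_add_one_right_eq_Icc, sum_Ico_eq_sum_range,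
    show P.l + 2 + 1 - 1 = P.l + 1 + 1 by omega, sum_range_succ']
  split_ifs with hk
  · have e1 : ∀ i ∈ range (P.l + 1), P.lp k (1 + (i + 1)) =
        (P.γ * e0 * P.d i + P.fo (i + 1)) / Fintype.card V := fun i hi => by
      have := mem_range.1 hi
      unfold Par.lp
      rw [if_pos hk, if_neg (by omega), if_neg (by omega), if_pos (by omega),
        show 1 + (i + 1) - 2 = i by omega, show 1 + (i + 1) - 1 = i + 1 by omega]
    have e2 : P.lp k (1 + 0) = P.fo 0 / Fintype.card V := by simp [Par.lp, hk]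
    have e3 : ∑ i ∈ range (P.l + 1), P.fo (i + 1) + P.fo 0 =
        P.γ * (1 - e0) * Fintype.card V + P.m := by
      rw [← sum_range_succ', sum_range_succ, ← hP.labp_sum_d, mul_sum]
      congr 1
      · exact sum_congr rfl fun i hi => if_pos (Nat.le_of_lt_succ (mem_range.1 hi))
      · exact if_neg (by omega)
    rw [sum_congr rfl e1, e2, ← sum_div, sum_add_distrib, ← mul_sum, hP.labp_sum_d, ← add_div,
      add_assoc, e3]
    field_simp
    ring
  · rw [sum_range_succ', sum_eq_zero fun i _ => by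
      unfold Par.lp
      rw [if_neg hk, if_neg (by omega), if_neg (by omega), if_neg (by omega)]]
    simp only [Par.lp, if_neg hk]
    norm_num
    ring

lemma Par.Ok.pr_all (hP : P.Ok L) (k : Fin 3) : P.pr k 0 (P.l + 2) = 1 := by
  have h := hP.pr_pos k
  unfold Par.pr at h ⊢
  rw [← Finset.insert_Icc_add_one_left_eq_Icc (Nat.zero_le _), sum_insert (by simp), zero_add, h]
  unfold Par.lp
  split_ifs <;> simp_all

lemma Par.Ok.wl_sum (hP : P.Ok L) (e : Ln V) {lo hi : ℕ} (h : hi ≤ P.l + 2) :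
    ∑ j, P.wl e j * ind (In lo hi j) = P.pr e.1 lo hi := by
  have _ := hP.γ0
  unfold Par.wl Par.pr
  rw [Fin.sum_univ_eq_sum_range (fun j => P.lp e.1 j * ind (In lo hi j)) (P.l + 3)]
  symm
  rw [← sum_subset (s₁ := Icc lo hi) (fun j hj => mem_range.2 (by have := mem_Icc.1 hj; omega))
    fun j _ hj => by rw [ind_neg (P := In lo hi j) fun h' => hj (mem_Icc.2 h'), mul_zero]]
  exact sum_congr rfl fun j hj => by rw [ind_pos (P := In lo hi j) (mem_Icc.1 hj), mul_one]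

lemma Par.Ok.isP (hP : P.Ok L) : IsP P.wl := by
  refine ⟨fun e j => hP.lp_nonneg _ _, fun e => ?_⟩
  rw [← hP.pr_all e.1, ← hP.wl_sum e le_rfl]
  exact sum_congr rfl fun j _ => by
    rw [ind_pos ⟨Nat.zero_le _, Nat.le_of_lt_succ j.2⟩, mul_one]

variable [DecidableEq V]

lemma labp_one (hP : P.Ok L) (e : Ln V) {lo hi : ℕ} (h : hi ≤ P.l + 2) :
    Ex P.wl (fun x => ind (In lo hi (x e))) = P.pr e.1 lo hi := by
  have := Ex_all P.wl hP.isP {e} fun _ a => ind (In lo hi a)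
  simp only [prod_singleton] at this
  rw [this, hP.wl_sum e h]

lemma labp_two (hP : P.Ok L) {ζ σ : ℝ} (h0 : 0 ≤ ζ) (h1 : ζ ≤ 1) {ρ ρ' : Ray V} (hc : Cmp ρ ρ')
    (i : Option ℕ) {lo hi lo' hi' : ℕ} (h : hi ≤ P.l + 2) (h' : hi' ≤ P.l + 2) :
    Ex P.wl (fun x => ind (ζ * (P.pr ρ.1 lo hi * P.pr ρ'.1 lo' hi' * ct (P.I i)) + σ <
      |P.c2 (fun e => x e) ρ ρ' i lo hi lo' hi' -
        P.pr ρ.1 lo hi * P.pr ρ'.1 lo' hi' * ct (P.I i)|)) ≤ 2 * exp (-(ζ * σ)) := by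
  refine chern2 hP.isP (fun v e => e = ray ρ v ∨ e = ray ρ' v)
    (fun v x => P.I i v ∧ In lo hi (x (ray ρ v)) ∧ In lo' hi' (x (ray ρ' v)))
    (fun v x y hxy => by simp only [hxy _ (Or.inl rfl), hxy _ (Or.inr rfl)]) ?_ ?_ h0 h1
  · rintro v v' e (rfl | rfl) (h | h)
    · exact ray_inj _ h
    · exact absurd h (hc.ne _ _)
    · exact absurd h.symm (hc.ne _ _)
    · exact ray_inj _ h
  · unfold ct
    rw [mul_sum]
    refine sum_congr rfl fun v _ => ?_
    simp only [ind_and]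
    rw [Ex_smul, Ex_mul hP.isP (A := fun e => e = ray ρ v) (B := fun e => e = ray ρ' v)
      (fun x y hxy => by simp only [hxy _ rfl]) (fun x y hxy => by simp only [hxy _ rfl])
      (fun e he he' => hc.ne v v (he.symm.trans he')), labp_one hP _ h, labp_one hP _ h',
      ray_fst, ray_fst]
    ring

lemma labp_edge (hP : P.Ok L) (j : Fin (P.l + 3)) (X Y : Finset V) (hXY : X.card = Y.card) :
    Ex P.wl (fun x => ind (105 / 100 * (X.card : ℝ) ^ 2 * P.lp 0 j + 100 * X.card * L <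
      ∑ r ∈ X, ∑ c ∈ Y, ind ((x (0, r, c) : ℕ) = j))) ≤ exp (-(5 / 2 * L)) ^ X.card *
        exp (-(5 / 2 * L)) ^ Y.card := by
  have hw := hP.isP
  have hp := hP.lp_nonneg 0 j
  set p := P.lp 0 j with hpd
  set S : Finset (Ln V) := {0} ×ˢ X ×ˢ Y with hS
  set b := 105 / 100 * (X.card : ℝ) ^ 2 * p + 100 * X.card * L with hb
  have hs : exp (1 / 20) - 1 ≤ 21 / 400 := by
    have := (abs_le.1 (abs_exp_sub_one_sub_id_le (x := (1 / 20 : ℝ)) (by
      rw [abs_of_pos] <;> norm_num))).2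
    norm_num at this ⊢
    linarith
  have e1 : ∀ x : Ln V → Fin (P.l + 3), ∑ r ∈ X, ∑ c ∈ Y, ind ((x (0, r, c) : ℕ) = j) =
      ∑ e ∈ S, ind (x e = j) := fun x => by
    rw [hS, sum_product, sum_singleton, sum_product]
    simp only [Fin.val_inj]
  calc _ ≤ Ex P.wl (fun x => exp (-(1 / 20 * b)) * ∏ e ∈ S, exp (1 / 20 * ind (x e = j))) := by
        refine Ex_mono hw.nonneg fun x => ind_le (by positivity) fun h => ?_
        rw [← exp_sum, ← mul_sum, ← e1, ← exp_add]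
        exact one_le_exp (by linarith)
    _ = exp (-(1 / 20 * b)) * ∏ e ∈ S, ∑ a, P.wl e a * exp (1 / 20 * ind (a = j)) := by
        rw [Ex_smul, Ex_all P.wl hw S fun _ a => exp (1 / 20 * ind (a = j))]
    _ ≤ exp (-(1 / 20 * b)) * ∏ _e ∈ S, exp (p * (21 / 400)) := by
        refine mul_le_mul_of_nonneg_left (prod_le_prod (fun e _ => sum_nonneg fun a _ =>
          mul_nonneg (hw.nonneg _ _) (exp_pos _).le) fun e he => ?_) (exp_pos _).le
        have he0 : e.1 = 0 := by simpa using (mem_product.1 he).1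
        have e2 : ∀ a, P.wl e a * exp (1 / 20 * ind (a = j)) =
            P.wl e a + ind (a = j) * (P.wl e a * (exp (1 / 20) - 1)) := fun a => by
          by_cases ha : a = j
          · rw [ind_pos ha]; ring_nf
          · rw [ind_neg ha]; simp
        simp only [e2]
        rw [sum_add_distrib, hw.sum, sum_ind_eq j fun a => P.wl e a * (exp (1 / 20) - 1)]
        have e3 : P.wl e j = p := by rw [hpd, ← he0]; rfl
        rw [e3]
        have := add_one_le_exp (p * (21 / 400))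
        have := mul_le_mul_of_nonneg_left hs hp
        linarith
    _ = _ := by
        rw [prod_const, hS, card_product, card_product, card_singleton, ← hXY, ← exp_nat_mul,
          ← exp_nat_mul, ← exp_add, ← exp_add, hb]
        congr 1
        push_cast
        ring

omit [DecidableEq V] in
lemma labp_sets (hn : (Fintype.card V : ℝ) = exp L) (hL : 0 ≤ L) :
    ∑ X : Finset V, ind X.Nonempty * exp (-(5 / 2 * L)) ^ X.card ≤ 2 * exp (-(3 / 2 * L)) := by
  classical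
  set z := exp (-(5 / 2 * L)) with hz
  have h1 : ∑ X : Finset V, z ^ X.card = (1 + z) ^ Fintype.card V := by
    have := prod_one_add (f := fun _ : V => z) univ
    simp only [prod_const, card_univ, powerset_univ] at this
    exact this.symm
  have h2 : ∑ X : Finset V, z ^ X.card =
      ∑ X : Finset V, ind X.Nonempty * z ^ X.card + ∑ X : Finset V, ind (X = ∅) * 1 := by
    rw [← sum_add_distrib]
    refine sum_congr rfl fun X _ => ?_
    rcases X.eq_empty_or_nonempty with rfl | h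
    · simp [ind]
    · rw [ind_pos h, ind_neg h.ne_empty]; ring
  rw [sum_ind_eq (∅ : Finset V) fun _ => (1 : ℝ)] at h2
  have h3 : (1 + z) ^ Fintype.card V ≤ exp (exp (-(3 / 2 * L))) := by
    calc _ ≤ exp z ^ Fintype.card V :=
          pow_le_pow_left₀ (by positivity) (by linarith [add_one_le_exp z]) _
      _ = _ := by
          rw [← exp_nat_mul, hn, hz, ← exp_add]
          congr 2
          ring
  have h4 : exp (-(3 / 2 * L)) ≤ 1 := exp_le_one_iff.2 (by linarith)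
  have h5 := exp_pos (-(3 / 2 * L))
  generalize exp (-(3 / 2 * L)) = u at h3 h4 h5 ⊢
  have h6 := (abs_le.1 (abs_exp_sub_one_le (x := u) (by rwa [abs_of_pos h5]))).2
  rw [abs_of_pos h5] at h6
  linarith

end

theorem pris_prob {ζ : ℝ} (h0 : 0 < ζ) (h1 : ζ ≤ 1) : ∀ᶠ L : ℝ in atTop,
    ∀ (V : Type) [Fintype V] [DecidableEq V] (P : Par V), P.Ok L →
      Ex P.wl (fun lab => ind (¬ P.Pris (fun e => lab e) L ζ (L ^ 2) 0)) ≤ exp (-L) := by
  filter_upwards [eventually_ge_atTop 1, eventually_ge_atTop (10 / ζ),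
    ev_exp (2 * (36 * 5 ^ 5 * 2)) 5 (show (-8 : ℝ) < -1 by norm_num),
    ev_exp 40 1 (show (-3 : ℝ) < -1 by norm_num)] with L hL hζ hA hB V _ _ P hP
  have hw := hP.isP
  have hl : ((P.l + 3 : ℕ) : ℝ) ≤ 5 * L := by push_cast; linarith [hP.ll]
  let F := Fin (P.l + 3)
  let B2 : (Ray V × Ray V) × Option (Fin (P.l + 1)) × F × F × F × F → (Ln V → F) → Prop :=
    fun q x => Cmp q.1.1 q.1.2 ∧
      ζ * (P.pr q.1.1.1 q.2.2.1 q.2.2.2.1 * P.pr q.1.2.1 q.2.2.2.2.1 q.2.2.2.2.2 *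
        ct (P.I (q.2.1.map Fin.val))) + L ^ 2 <
      |P.c2 (fun e => x e) q.1.1 q.1.2 (q.2.1.map Fin.val) q.2.2.1 q.2.2.2.1 q.2.2.2.2.1
          q.2.2.2.2.2 -
        P.pr q.1.1.1 q.2.2.1 q.2.2.2.1 * P.pr q.1.2.1 q.2.2.2.2.1 q.2.2.2.2.2 *
          ct (P.I (q.2.1.map Fin.val))|
  let B3 : F × Finset V × Finset V → (Ln V → F) → Prop := fun q x =>
    (q.2.1.Nonempty ∧ q.2.1.card = q.2.2.card) ∧
      105 / 100 * (q.2.1.card : ℝ) ^ 2 * P.lp 0 q.1 + 100 * q.2.1.card * L <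
        ∑ r ∈ q.2.1, ∑ c ∈ q.2.2, ind ((x (0, r, c) : ℕ) = q.1)
  have key : ∀ x : Ln V → F, (∀ e, P.wl e (x e) ≠ 0) → (∀ q, ¬ B2 q x) → (∀ q, ¬ B3 q x) →
      P.Pris (fun e => x e) L ζ (L ^ 2) 0 := by
    intro x hx h2 h3
    have two : ∀ ρ ρ' i lo hi lo' hi', Cmp ρ ρ' → (∀ j, i = some j → j ≤ P.l) → lo ≤ hi →
        hi ≤ P.l + 2 → lo' ≤ hi' → hi' ≤ P.l + 2 →
        |P.c2 (fun e => x e) ρ ρ' i lo hi lo' hi' -
          P.pr ρ.1 lo hi * P.pr ρ'.1 lo' hi' * ct (P.I i)| ≤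
          ζ * (P.pr ρ.1 lo hi * P.pr ρ'.1 lo' hi' * ct (P.I i)) + L ^ 2 := by
      intro ρ ρ' i lo hi lo' hi' hc hi0 a1 a2 a3 a4
      obtain ⟨i', rfl⟩ : ∃ i' : Option (Fin (P.l + 1)), i = i'.map Fin.val := by
        cases i with
        | none => exact ⟨none, rfl⟩
        | some j => exact ⟨some ⟨j, Nat.lt_succ_of_le (hi0 j rfl)⟩, rfl⟩
      exact not_lt.1 fun h => h2 ((ρ, ρ'), i', ⟨lo, by omega⟩, ⟨hi, by omega⟩, ⟨lo', by omega⟩,
        ⟨hi', by omega⟩) ⟨hc, h⟩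
    refine ⟨fun e => ⟨Nat.le_of_lt_succ (x e).2, fun he => ?_⟩, ?_,
      fun ρ ρ' i lo hi lo' hi' hc hi0 _ a1 a2 _ a3 a4 => two ρ ρ' i lo hi lo' hi' hc hi0 a1 a2 a3 a4,
      fun j _ X Y hXY => ?_⟩
    · by_contra h
      refine hx e ?_
      unfold Par.wl Par.lp
      rw [if_neg he, if_neg (by omega), if_neg (by omega), if_neg (by omega)]
    · intro ρ i lo hi hi0 _ a1 a2
      have hc : Cmp ρ (ρ.1 + 1, ρ.2) := Or.inl (by
        generalize ρ.1 = k
        fin_cases k <;> simp)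
      have := two ρ _ i lo hi 0 (P.l + 2) hc hi0 a1 a2 (Nat.zero_le _) le_rfl
      rw [hP.pr_all, mul_one] at this
      convert this using 3
      exact ct_congr fun v => ⟨fun h => ⟨h.1, h.2, Nat.zero_le _, Nat.le_of_lt_succ (x _).2⟩,
        fun h => ⟨h.1, h.2.1⟩⟩
    · have hp := hP.lp_nonneg 0 j
      rcases X.eq_empty_or_nonempty with rfl | hX
      · simp
      by_cases hj : j < P.l + 3
      · exact not_lt.1 fun h => h3 (⟨j, hj⟩, X, Y) ⟨⟨hX, hXY⟩, h⟩
      · rw [sum_eq_zero fun r _ => sum_eq_zero fun c _ =>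
          ind_neg (P := (x (0, r, c) : ℕ) = j) fun h => hj (h ▸ (x (0, r, c)).2)]
        positivity
  have p2 : Ex P.wl (fun x => ind (∃ q, B2 q x)) ≤ exp (-L) / 2 := by
    refine (Ex_exists_le hw univ B2 (fun _ => 2 * exp (-(10 * L))) (fun q _ => ?_) _
      fun x ⟨q, h⟩ => ⟨q, mem_univ _, h⟩).trans ?_
    · refine Ex_and_const hw _ _ (by positivity) fun hc => ?_
      refine (labp_two hP h0.le h1 hc _ (Nat.le_of_lt_succ q.2.2.2.1.2)
        (Nat.le_of_lt_succ q.2.2.2.2.2.2)).trans ?_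
      rw [div_le_iff₀ h0] at hζ
      have : 10 * L ≤ ζ * L ^ 2 := by nlinarith
      gcongr
    · rw [sum_const, card_univ, nsmul_eq_mul]
      simp only [Fintype.card_prod (Ray V × Ray V), Fintype.card_prod (Ray V) (Ray V),
        Fintype.card_prod (Option (Fin (P.l + 1))), Fintype.card_prod F, Nat.cast_mul, card_Ray,
        hP.card, Fintype.card_option, F, Fintype.card_fin]
      have a1 : ((P.l + 1 + 1 : ℕ) : ℝ) ≤ 5 * L := le_trans (by push_cast; linarith) hl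
      have a2 : exp L * exp L * exp (-(10 * L)) = exp (-8 * L) := by
        rw [← exp_add, ← exp_add]; congr 1; ring
      rw [neg_one_mul] at hA
      calc _ ≤ 6 * exp L * (6 * exp L) * (5 * L * (5 * L * (5 * L * (5 * L * (5 * L))))) *
            (2 * exp (-(10 * L))) := by gcongr
        _ = 36 * 5 ^ 5 * 2 * L ^ 5 * (exp L * exp L * exp (-(10 * L))) := by ring
        _ ≤ _ := by rw [a2]; linarith
  have p3 : Ex P.wl (fun x => ind (∃ q, B3 q x)) ≤ exp (-L) / 2 := by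
    refine (Ex_exists_le hw univ B3 (fun q => ind q.2.1.Nonempty * exp (-(5 / 2 * L)) ^ q.2.1.card *
      (ind q.2.2.Nonempty * exp (-(5 / 2 * L)) ^ q.2.2.card)) (fun q _ => ?_) _
      fun x ⟨q, h⟩ => ⟨q, mem_univ _, h⟩).trans ?_
    · refine Ex_and_const hw _ _ (mul_nonneg (mul_nonneg (ind_nonneg _) (by positivity))
        (mul_nonneg (ind_nonneg _) (by positivity))) fun hc => ?_
      rw [ind_pos hc.1, ind_pos (card_pos.1 (hc.2 ▸ card_pos.2 hc.1)), one_mul, one_mul]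
      exact labp_edge hP q.1 _ _ hc.2
    · have h := labp_sets hP.card (by linarith)
      have h' : 0 ≤ ∑ X : Finset V, ind X.Nonempty * exp (-(5 / 2 * L)) ^ X.card :=
        sum_nonneg fun _ _ => mul_nonneg (ind_nonneg _) (by positivity)
      rw [Fintype.sum_prod_type]
      simp only [Fintype.sum_prod_type, ← sum_mul_sum]
      rw [sum_const, card_univ, nsmul_eq_mul, Fintype.card_fin]
      have a2 : exp (-(3 / 2 * L)) * exp (-(3 / 2 * L)) = exp (-3 * L) := by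
        rw [← exp_add]; congr 1; ring
      rw [neg_one_mul, pow_one] at hB
      calc _ ≤ 5 * L * (2 * exp (-(3 / 2 * L)) * (2 * exp (-(3 / 2 * L)))) := by gcongr
        _ = 20 * L * (exp (-(3 / 2 * L)) * exp (-(3 / 2 * L))) := by ring
        _ ≤ _ := by rw [a2]; linarith
  calc _ ≤ Ex P.wl (fun x => ind (∃ q, B2 q x) + ind (∃ q, B3 q x)) := by
        refine Ex_mono' hw.nonneg fun x hx => (ind_mono fun h => ?_).trans (ind_or_le _ _)
        by_contra h'
        rw [not_or, not_exists, not_exists] at h'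
        exact h (key x hx h'.1 h'.2)
    _ ≤ _ := by rw [Ex_add]; linarith

end Pool.Agent.MP_46aeaf_co.HT

/-! Consequences of pseudo-randomness, parameters, expectation over the labels. -/

namespace Pool.Agent.MP_46aeaf_co.HT

open Finset Pool.Agent.MP_81e6aa_pr Real Filter

/-- removing the points whose lines are deleted changes a count only slightly -/
lemma labs_key {V : Type} [Fintype V] (f g : V → Ln V) (hf : Function.Injective f)
    (hg : Function.Injective g) (hfg : ∀ v v', f v = g v' → v = v') (A A' : V → Prop)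
    (Y C : Ln V → Prop) (hA' : ∀ v, A' v → A v)
    (hA : ∀ v, A v → ¬ (Y (f v) ∨ C (f v)) → ¬ (Y (g v) ∨ C (g v)) → A' v)
    (hC1 : ct (fun v => C (f v)) ≤ 1) (hC2 : ct (fun v => C (g v)) ≤ 1) {μ ζ ζ₁ σ σ₁ : ℝ}
    (hμ : 0 ≤ μ) (h1 : ζ ≤ 1) (h2 : 0 ≤ ζ₁) (h3 : ζ₁ ≤ 1) (h4 : 0 ≤ σ) (h5 : 0 ≤ σ₁)
    (h : |ct A - μ| ≤ ζ * μ + σ)
    (hT : ct (fun e => (∃ v, A v ∧ (e = f v ∨ e = g v)) ∧ Y e) ≤
      ζ₁ * ct (fun e => ∃ v, A v ∧ (e = f v ∨ e = g v)) + σ₁) :
    |ct A' - μ| ≤ (ζ + 4 * ζ₁) * μ + (3 * σ + σ₁ + 2) := by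
  classical
  have e1 : ct A' ≤ ct A := ct_mono hA'
  have e2 : ct (fun e => ∃ v, A v ∧ (e = f v ∨ e = g v)) ≤ ct A + ct A := by
    refine (ct_le_add (Y := fun e => ∃ v, A v ∧ f v = e) (Z := fun e => ∃ v, A v ∧ g v = e)
      ?_).trans (add_le_add (ct_le_of_surj f fun _ h => h) (ct_le_of_surj g fun _ h => h))
    rintro e ⟨v, hv, rfl | rfl⟩
    · exact Or.inl ⟨v, hv, rfl⟩
    · exact Or.inr ⟨v, hv, rfl⟩
  have e3 : ct (fun v => A v ∧ (Y (f v) ∨ Y (g v))) ≤
      ct (fun e => (∃ v, A v ∧ (e = f v ∨ e = g v)) ∧ Y e) := by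
    refine ct_le_of_inj (fun v => if Y (f v) then f v else g v) (fun v hv => ?_)
      fun v v' _ _ he => ?_
    · by_cases hy : Y (f v)
      · rw [if_pos hy]; exact ⟨⟨v, hv.1, Or.inl rfl⟩, hy⟩
      · rw [if_neg hy]; exact ⟨⟨v, hv.1, Or.inr rfl⟩, hv.2.resolve_left hy⟩
    · by_cases hy : Y (f v) <;> by_cases hy' : Y (f v')
      · rw [if_pos hy, if_pos hy'] at he; exact hf he
      · rw [if_pos hy, if_neg hy'] at he; exact hfg _ _ he
      · rw [if_neg hy, if_pos hy'] at he; exact (hfg _ _ he.symm).symm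
      · rw [if_neg hy, if_neg hy'] at he; exact hg he
  have e4 : ct A ≤ ct A' + (ct (fun v => A v ∧ (Y (f v) ∨ Y (g v))) +
      (ct (fun v => C (f v)) + ct fun v => C (g v))) := by
    refine (ct_le_add (Y := A') (Z := fun v => (A v ∧ (Y (f v) ∨ Y (g v))) ∨
      (C (f v) ∨ C (g v))) fun v hv => ?_).trans (add_le_add le_rfl ((ct_or_le _ _).trans
        (add_le_add le_rfl (ct_or_le _ _))))
    by_cases a : Y (f v) ∨ C (f v)
    · exact Or.inr (a.elim (fun a => Or.inl ⟨hv, Or.inl a⟩) fun a => Or.inr (Or.inl a))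
    · by_cases b : Y (g v) ∨ C (g v)
      · exact Or.inr (b.elim (fun b => Or.inl ⟨hv, Or.inr b⟩) fun b => Or.inr (Or.inr b))
      · exact Or.inl (hA v hv a b)
  rw [abs_le] at h ⊢
  have e5 : ζ * μ ≤ μ := mul_le_of_le_one_left hμ h1
  have e6 : ζ₁ * ct (fun e => ∃ v, A v ∧ (e = f v ∨ e = g v)) ≤ ζ₁ * (4 * μ + 2 * σ) :=
    mul_le_mul_of_nonneg_left (by linarith [h.2]) h2
  have e7 : ζ₁ * σ ≤ σ := mul_le_of_le_one_left h4 h3
  have e8 : 0 ≤ ζ₁ * μ := mul_nonneg h2 hμ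
  constructor <;> linarith [h.1, h.2]

lemma labs_pr_nonneg {V : Type} [Fintype V] {P : Par V} {L : ℝ} (hP : P.Ok L) (k : Fin 3)
    (lo hi : ℕ) : 0 ≤ P.pr k lo hi := sum_nonneg fun j _ => hP.lp_nonneg k j

lemma labs_opt {l : ℕ} {i : Option ℕ} (h : ∀ j, i = some j → j ≤ l) :
    ∃ i' : Option (Fin (l + 1)), i'.map Fin.val = i := by
  cases i with
  | none => exact ⟨none, rfl⟩
  | some j => exact ⟨some ⟨j, Nat.lt_succ_of_le (h j rfl)⟩, rfl⟩

theorem pris_stable : ∀ᶠ L : ℝ in atTop, ∀ (V : Type) [Fintype V] (P : Par V), P.Ok L →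
    ∃ (J : Type) (_ : Fintype J), (Fintype.card J : ℝ) ≤ exp (3 * L) ∧
      ∀ lb : Ln V → ℕ, ∃ T : J → Ln V → Prop, ∀ (lb' : Ln V → ℕ) (τ : Finset (Tr V))
        (Y : Ln V → Prop) (ζ ζ₁ σ σ₁ : ℝ), 0 ≤ ζ → ζ ≤ 1 → 0 ≤ ζ₁ → ζ₁ ≤ 1 → 0 ≤ σ → 0 ≤ σ₁ →
        P.Pris lb L ζ σ 0 → VD τ → (∀ e, Y e ∨ Cv τ e → lb' e = 0) →
        (∀ e, ¬ (Y e ∨ Cv τ e) → lb' e = lb e) →
        (∀ j, ct (fun e => T j e ∧ Y e) ≤ ζ₁ * ct (T j) + σ₁) →
        P.Pris lb' L (ζ + 4 * ζ₁) (3 * σ + σ₁ + 2) 1 := by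
  filter_upwards [ev_exp (36 * 5 ^ 5) 5 (show (2 : ℝ) < 3 by norm_num), eventually_ge_atTop 1]
    with L hL hL1 V _ P hP
  refine ⟨Ray V × Ray V × Option (Fin (P.l + 1)) × Fin (P.l + 3) × Fin (P.l + 3) ×
    Fin (P.l + 3) × Fin (P.l + 3), inferInstance, ?_, fun lb => ⟨fun j e => ∃ v,
      (P.I (j.2.2.1.map Fin.val) v ∧ In j.2.2.2.1 j.2.2.2.2.1 (lb (ray j.1 v)) ∧
        In j.2.2.2.2.2.1 j.2.2.2.2.2.2 (lb (ray j.2.1 v))) ∧
      (e = ray j.1 v ∨ e = ray j.2.1 v), ?_⟩⟩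
  · refine le_trans ?_ hL
    rw [Fintype.card_prod (Ray V), Fintype.card_prod (Ray V), Nat.cast_mul, Nat.cast_mul,
      card_Ray, hP.card]
    simp only [Fintype.card_prod, Fintype.card_option, Fintype.card_fin]
    push_cast
    have h1 : (P.l : ℝ) + 3 ≤ 5 * L := by linarith [hP.ll]
    have h0 : (0 : ℝ) ≤ P.l := Nat.cast_nonneg _
    have h2 : ((P.l : ℝ) + 1 + 1) * ((P.l + 3) * ((P.l + 3) * ((P.l + 3) * (P.l + 3)))) ≤
        (5 * L) * ((5 * L) * ((5 * L) * ((5 * L) * (5 * L)))) := by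
      gcongr
      linarith
    have h3 : exp (2 * L) = exp L * exp L := by rw [← exp_add]; congr 1; ring
    rw [h3]
    calc _ = 36 * (exp L * exp L) * (((P.l : ℝ) + 1 + 1) *
          ((P.l + 3) * ((P.l + 3) * ((P.l + 3) * (P.l + 3))))) := by ring
      _ ≤ 36 * (exp L * exp L) * ((5 * L) * ((5 * L) * ((5 * L) * ((5 * L) * (5 * L))))) :=
          mul_le_mul_of_nonneg_left h2 (by positivity)
      _ = _ := by ring
  · intro lb' τ Y ζ ζ₁ σ σ₁ _ h1 h2 h3 h4 h5 hp hτ hz he hT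
    have hne : ∀ e, lb' e ≠ 0 → lb' e = lb e := fun e h => he e fun h' => h (hz e h')
    have hle : ∀ e, lb' e ≤ lb e := fun e => by
      by_cases h : lb' e = 0
      · rw [h]; exact Nat.zero_le _
      · exact (hne e h).le
    have hin : ∀ e lo hi, 1 ≤ lo → In lo hi (lb' e) → In lo hi (lb e) := fun e lo hi a b => by
      rwa [← hne e (by have := b.1; omega)]
    have key : ∀ ρ ρ' i lo hi lo' hi', (∀ v v', ray ρ v = ray ρ' v' → v = v') →
        (∀ j, i = some j → j ≤ P.l) → 1 ≤ lo → lo ≤ hi → hi ≤ P.l + 2 → 1 ≤ lo' → lo' ≤ hi' →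
        hi' ≤ P.l + 2 → ∀ μ : ℝ, 0 ≤ μ → |P.c2 lb ρ ρ' i lo hi lo' hi' - μ| ≤ ζ * μ + σ →
        |P.c2 lb' ρ ρ' i lo hi lo' hi' - μ| ≤ (ζ + 4 * ζ₁) * μ + (3 * σ + σ₁ + 2) := by
      intro ρ ρ' i lo hi lo' hi' hr hi0 a1 a2 a3 b1 b2 b3 μ hμ h
      obtain ⟨i', rfl⟩ := labs_opt hi0
      refine labs_key (ray ρ) (ray ρ') (ray_inj ρ) (ray_inj ρ') hr _ _ Y (Cv τ)
        (fun v hv => ⟨hv.1, hin _ _ _ a1 hv.2.1, hin _ _ _ b1 hv.2.2⟩)
        (fun v hv a b => ⟨hv.1, by rw [he _ a]; exact hv.2.1, by rw [he _ b]; exact hv.2.2⟩)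
        (hτ.rayLe ρ) (hτ.rayLe ρ') hμ h1 h2 h3 h4 h5 h ?_
      exact hT (ρ, ρ', i', ⟨lo, by omega⟩, ⟨hi, by omega⟩, ⟨lo', by omega⟩, ⟨hi', by omega⟩)
    refine ⟨fun e => ⟨(hle e).trans (hp.sup e).1, fun h => (hle e).trans ((hp.sup e).2 h)⟩,
      fun ρ i lo hi hi0 a1 a2 a3 => ?_, fun ρ ρ' i lo hi lo' hi' hc hi0 a1 a2 a3 b1 b2 b3 => ?_,
      fun j hj X Z hXZ => le_trans ?_ (hp.edge j hj X Z hXZ)⟩
    · have e : ∀ l0 : Ln V → ℕ, P.c1 l0 ρ i lo hi = P.c2 l0 ρ ρ i lo hi lo hi := fun l0 =>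
        ct_congr fun v => by rw [and_self]
      rw [e]
      refine key ρ ρ i lo hi lo hi (fun v v' h => ray_inj ρ h) hi0 a1 a2 a3 a1 a2 a3 _
        (mul_nonneg (labs_pr_nonneg hP _ _ _) (ct_nonneg _)) ?_
      rw [← e]
      exact hp.one ρ i lo hi hi0 (Nat.zero_le _) a2 a3
    · exact key ρ ρ' i lo hi lo' hi' (fun v v' h => absurd h (hc.ne v v')) hi0 a1 a2 a3 b1 b2 b3 _
        (mul_nonneg (mul_nonneg (labs_pr_nonneg hP _ _ _) (labs_pr_nonneg hP _ _ _))
          (ct_nonneg _))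
        (hp.two ρ ρ' i lo hi lo' hi' hc hi0 (Nat.zero_le _) a2 a3 (Nat.zero_le _) b2 b3)
    · refine sum_le_sum fun r _ => sum_le_sum fun c _ => ind_mono fun h => ?_
      rw [← hne _ (by omega), h]

/-- the triples on a line whose two other lines have a property -/
lemma labs_dg {V : Type} [Fintype V] (e : Ln V) : ∃ ρ ρ' : Ray V, ρ.1 ≠ ρ'.1 ∧
    ∀ X : Ln V → Prop, dg (fun t => ∀ k, k ≠ e.1 → X (ed k t)) e =
      ct fun v => X (ray ρ v) ∧ X (ray ρ' v) := by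
  have n1 : e.1 + 1 ≠ e.1 := by generalize e.1 = k; revert k; decide
  have n2 : e.1 + 2 ≠ e.1 := by generalize e.1 = k; revert k; decide
  obtain ⟨ρ, h1, hρ⟩ := ed_tri_ray e (e.1 + 1) n1
  obtain ⟨ρ', h2, hρ'⟩ := ed_tri_ray e (e.1 + 2) n2
  refine ⟨ρ, ρ', by rw [h1, h2]; generalize e.1 = k; revert k; decide, fun X => ?_⟩
  rw [dg_eq]
  refine ct_congr fun v => ⟨fun h => ⟨hρ v ▸ h _ n1, hρ' v ▸ h _ n2⟩, fun h k hk => ?_⟩
  have : k = e.1 + 1 ∨ k = e.1 + 2 := by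
    revert hk; generalize e.1 = j; revert k j; decide
  rcases this with rfl | rfl
  · rw [hρ]; exact h.1
  · rw [hρ']; exact h.2

theorem pris_xin {γ ζ : ℝ} (hγ : 0 < γ) (h0 : 0 < ζ) (h1 : ζ ≤ 1 / 4) : ∀ᶠ L : ℝ in atTop,
    ∀ (V : Type) [Fintype V] (P : Par V) (lb : Ln V → ℕ), P.γ = γ → P.Ok L →
      P.Pris lb L ζ (L ^ 2) 0 →
      XIn γ (2 * ζ) (fun e => lb e ≠ 0) ∧
        DegLe (fun r c => lb (0, r, c) = P.l + 2) (2 * exp (L / 50)) := by
  filter_upwards [ev_pow (4 / γ ^ 2) 2 one_pos, ev_pow (2 / ζ) 2 one_pos,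
    ev_pow 1 2 (show (0 : ℝ) < 1 / 50 by norm_num),
    ev_exp (4 / ζ) 0 (show (1 / 50 : ℝ) < 1 by norm_num)] with L a1 a2 a3 a4 V _ P lb hg hP hp
  subst hg
  rw [one_mul] at a1 a2 a3
  rw [pow_zero, mul_one, one_mul] at a4
  rw [show 1 / 50 * L = L / 50 by ring] at a3 a4
  have hn := hP.card
  rw [← hn] at a1 a2 a4
  have hE := exp_pos (L / 50)
  have hm : (P.m : ℝ) ≤ P.γ * exp (L / 50) :=
    hP.m2.trans (mul_le_mul_of_nonneg_left hP.last hγ.le)
  have hd := hP.last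
  have hd0 : 0 ≤ P.d P.l := ct_nonneg _
  generalize exp (L / 50) = E at *
  have hI : ct (P.I none) = Fintype.card V := by
    rw [← ct_true]; exact ct_congr fun v => ⟨fun _ => trivial, fun _ j h => by cases h⟩
  have hIv : ∀ v, P.I none v := fun v j h => by cases h
  have hn0 : (0 : ℝ) < Fintype.card V := by rw [hn]; exact exp_pos _
  have hno : ∀ j, (none : Option ℕ) = some j → j ≤ P.l := fun j h => by cases h
  have hγ1 := hP.γ1
  have hm0 : (0 : ℝ) ≤ P.m := Nat.cast_nonneg _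
  rw [div_mul_eq_mul_div, div_le_iff₀ (by positivity)] at a1 a2 a4
  have hz : ∀ e, lb e ≠ 0 ↔ In 1 (P.l + 2) (lb e) := fun e =>
    ⟨fun h => ⟨Nat.one_le_iff_ne_zero.2 h, (hp.sup e).1⟩, fun h => Nat.one_le_iff_ne_zero.1 h.1⟩
  have hz' : ∀ e, ¬ lb e ≠ 0 ↔ In 0 0 (lb e) := fun e => by unfold In; omega
  have hpos : ∀ k, ∃ a : ℝ, 0 ≤ a ∧ a * Fintype.card V ≤ P.m ∧ P.pr k 1 (P.l + 2) = P.γ + a ∧
      P.pr k 0 0 = 1 - P.γ - a := fun k => by
    refine ⟨_, ?_, ?_, hP.pr_pos k, ?_⟩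
    · split_ifs <;> positivity
    · split_ifs
      · rw [div_mul_cancel₀ _ hn0.ne']
      · rwa [zero_mul]
    · unfold Par.pr Par.lp
      rw [Icc_self, sum_singleton]
      split_ifs <;> simp_all
  generalize hN : (Fintype.card V : ℝ) = n at *
  have hL2 : 0 ≤ L ^ 2 := sq_nonneg _
  have hEn : 16 * E ≤ n := by linarith [mul_le_mul_of_nonneg_left h1 hn0.le]
  have hγn : 0 < P.γ * n := by positivity
  have hγE : 0 < P.γ * E := by positivity
  have hγE' : 16 * (P.γ * E) ≤ P.γ * n := by linarith [mul_le_mul_of_nonneg_left hEn hγ.le]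
  have hLn : 4 * L ^ 2 ≤ P.γ * n := by
    linarith [mul_le_of_le_one_left hγn.le (show P.γ ≤ 1 by linarith)]
  refine ⟨⟨fun ρ => ?_, fun e => ?_, fun e => ?_⟩, ?_⟩
  · have h := hp.one ρ none 1 (P.l + 2) hno (Nat.zero_le _) (by omega) le_rfl
    obtain ⟨a, b0, b1, b2, -⟩ := hpos ρ.1
    rw [hI, b2] at h
    rw [show ct (fun v => lb (ray ρ v) ≠ 0) = P.c1 lb ρ none 1 (P.l + 2) from
      ct_congr fun v => by rw [hz]; exact (and_iff_right (hIv v)).symm, hN]
    have b3 : (P.γ + a) * n ≤ 17 / 16 * (P.γ * n) := by linarith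
    have b4 : ζ * ((P.γ + a) * n) ≤ 1 / 4 * ((P.γ + a) * n) :=
      mul_le_mul_of_nonneg_right h1 (by positivity)
    linarith [(abs_le.1 h).2]
  · obtain ⟨ρ, ρ', hρ, hX⟩ := labs_dg e
    have h := hp.two ρ ρ' none 0 0 0 0 (Or.inl hρ) hno le_rfl le_rfl (Nat.zero_le _) le_rfl le_rfl
      (Nat.zero_le _)
    have p0 := labs_pr_nonneg hP ρ.1 0 0
    have p0' := labs_pr_nonneg hP ρ'.1 0 0
    obtain ⟨a, b0, b1, -, b2⟩ := hpos ρ.1
    obtain ⟨a', b0', b1', -, b2'⟩ := hpos ρ'.1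
    rw [hI, b2, b2'] at h
    rw [b2] at p0
    rw [b2'] at p0'
    rw [hX fun e => ¬ lb e ≠ 0, show ct (fun v => ¬ lb (ray ρ v) ≠ 0 ∧ ¬ lb (ray ρ' v) ≠ 0) =
      P.c2 lb ρ ρ' none 0 0 0 0 from
      ct_congr fun v => by rw [hz', hz']; exact (and_iff_right (hIv v)).symm, hN]
    have c1 : (1 - P.γ - a) * (1 - P.γ - a') ≤ (1 - P.γ) ^ 2 := by
      rw [sq]; exact mul_le_mul (by linarith) (by linarith) p0' (by linarith)
    have c2 : (1 - P.γ) ^ 2 - a - a' ≤ (1 - P.γ - a) * (1 - P.γ - a') := by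
      linarith [mul_nonneg b0 b0', mul_nonneg b0 hγ.le, mul_nonneg b0' hγ.le]
    have c3 : (1 - P.γ) ^ 2 ≤ 1 := pow_le_one₀ (by linarith) (by linarith)
    have c4 := mul_le_mul_of_nonneg_right c1 hn0.le
    have c5 := mul_le_mul_of_nonneg_right c2 hn0.le
    have c6 : ζ * ((1 - P.γ - a) * (1 - P.γ - a') * n) ≤ ζ * n :=
      mul_le_mul_of_nonneg_left (mul_le_of_le_one_left hn0.le (c1.trans c3)) h0.le
    have c7 : P.γ * E ≤ E := mul_le_of_le_one_left hE.le (by linarith)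
    rw [abs_le] at h ⊢
    constructor <;> linarith [h.1, h.2]
  · obtain ⟨ρ, ρ', hρ, hX⟩ := labs_dg e
    have h := hp.two ρ ρ' none 1 (P.l + 2) 1 (P.l + 2) (Or.inl hρ) hno (Nat.zero_le _) (by omega)
      le_rfl (Nat.zero_le _) (by omega) le_rfl
    obtain ⟨a, b0, -, b2, -⟩ := hpos ρ.1
    obtain ⟨a', b0', -, b2', -⟩ := hpos ρ'.1
    rw [hI, b2, b2'] at h
    rw [hX fun e => lb e ≠ 0, show ct (fun v => lb (ray ρ v) ≠ 0 ∧ lb (ray ρ' v) ≠ 0) =
      P.c2 lb ρ ρ' none 1 (P.l + 2) 1 (P.l + 2) from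
      ct_congr fun v => by rw [hz, hz]; exact (and_iff_right (hIv v)).symm, hN]
    have c1 : P.γ ^ 2 ≤ (P.γ + a) * (P.γ + a') := by
      rw [sq]; exact mul_le_mul (by linarith) (by linarith) hγ.le (by linarith)
    have c2 := mul_le_mul_of_nonneg_right c1 hn0.le
    have c3 : ζ * ((P.γ + a) * (P.γ + a') * n) ≤ 1 / 4 * ((P.γ + a) * (P.γ + a') * n) :=
      mul_le_mul_of_nonneg_right h1 (by positivity)
    linarith [(abs_le.1 h).1]
  · have key : ∀ ρ : Ray V, ρ.1 = 0 → ct (fun v => lb (ray ρ v) = P.l + 2) ≤ 2 * E := by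
      intro ρ hρ
      have h := hp.one ρ none (P.l + 2) (P.l + 2) hno (Nat.zero_le _) le_rfl le_rfl
      have e : P.pr ρ.1 (P.l + 2) (P.l + 2) * n = P.γ * e0 * P.d P.l + P.m := by
        unfold Par.pr Par.lp
        rw [Icc_self, sum_singleton, if_pos hρ, if_neg (by omega), if_neg (by omega),
          if_pos le_rfl, hN, div_mul_cancel₀ _ hn0.ne', Nat.add_sub_cancel, Par.fo,
          if_neg (by omega)]
      rw [hI, e] at h
      rw [show ct (fun v => lb (ray ρ v) = P.l + 2) = P.c1 lb ρ none (P.l + 2) (P.l + 2) from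
        ct_congr fun v => by
          rw [and_iff_right (hIv v)]; unfold In; omega]
      have he0 : e0 ≤ 1 := by unfold e0; norm_num
      have he1 : 0 ≤ e0 := by unfold e0; norm_num
      have c1 : P.γ * e0 * P.d P.l ≤ P.γ * E := by
        rw [mul_assoc]
        exact mul_le_mul_of_nonneg_left ((mul_le_of_le_one_left hd0 he0).trans hd) hγ.le
      have c2 : P.γ * E ≤ 1 / 10 ^ 4 * E := mul_le_mul_of_nonneg_right hγ1 hE.le
      have c3 : ζ * (P.γ * e0 * P.d P.l + P.m) ≤ 1 / 4 * (P.γ * e0 * P.d P.l + P.m) :=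
        mul_le_mul_of_nonneg_right h1 (by positivity)
      linarith [(abs_le.1 h).2]
    exact ⟨fun r => key (0, true, r) rfl, fun c => key (0, false, c) rfl⟩

end Pool.Agent.MP_46aeaf_co.HT

/-! Expectation over the labels and choice of the levels. -/

namespace Pool.Agent.MP_46aeaf_co.HT

open Finset Pool.Agent.MP_81e6aa_pr Real Filter

section

variable {V : Type} [Fintype V] {P : Par V} {L : ℝ}

lemma labe_d_nonneg (P : Par V) (i : ℕ) : 0 ≤ P.d i := ct_nonneg _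

lemma labe_d_pos (hP : P.Ok L) {i : ℕ} (hi : i ≤ P.l) : 0 < P.d i :=
  (exp_pos _).trans_le (hP.big i hi)

lemma labe_n_pos (hP : P.Ok L) : (0 : ℝ) < Fintype.card V := hP.card ▸ exp_pos L

lemma labe_succ (hP : P.Ok L) {i : ℕ} (hi : i < P.l) : P.d (i + 1) ≤ 2 * P.d i := by
  have h := hP.tail i hi.le
  have h2 := sum_le_sum_of_subset_of_nonneg (f := P.d)
    (show ({i, i + 1} : Finset ℕ) ⊆ Icc i P.l by
      intro j hj
      simp only [mem_insert, mem_singleton] at hj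
      rw [mem_Icc]; omega) fun j _ _ => labe_d_nonneg P j
  rw [sum_pair (by omega)] at h2
  linarith

lemma labe_e0 : 0 ≤ e0 ∧ e0 ≤ 1 / 10 := by unfold e0; constructor <;> norm_num

lemma labe_lp1 (hP : P.Ok L) {i : ℕ} (hi : i ≤ P.l) :
    P.lp 0 (i + 1) ≤ 4 * P.γ * P.d i / Fintype.card V := by
  have hn := labe_n_pos hP
  have hγ := hP.γ0
  have hd := labe_d_pos hP hi
  obtain ⟨e1, e2⟩ := labe_e0
  have hγd : 0 < P.γ * P.d i := mul_pos hγ hd
  have hf : P.fo i ≤ P.γ * P.d i := by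
    unfold Par.fo
    rw [if_pos hi]
    nlinarith [mul_nonneg e1 hγd.le]
  unfold Par.lp
  rw [if_pos rfl, if_neg (by omega)]
  rcases i with _ | i
  · rw [if_pos rfl]
    refine div_le_div_of_nonneg_right ?_ hn.le
    linarith
  · rw [if_neg (by omega), if_pos (by omega)]
    refine div_le_div_of_nonneg_right ?_ hn.le
    have h3 := hP.next i (by omega)
    have e : i + 1 + 1 - 2 = i := by omega
    have e' : i + 1 + 1 - 1 = i + 1 := by omega
    rw [e, e']
    have h4 : P.γ * e0 * P.d i ≤ P.γ * e0 * (3 * P.d (i + 1)) :=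
      mul_le_mul_of_nonneg_left h3 (mul_nonneg hγ.le e1)
    nlinarith [mul_le_mul_of_nonneg_left e2 hγd.le]

lemma labe_lp2 (hP : P.Ok L) {i : ℕ} (hi : i ≤ P.l) :
    P.lp 0 (i + 2) ≤ 4 * P.γ * P.d i / Fintype.card V := by
  have hn := labe_n_pos hP
  have hγ := hP.γ0
  have hd := labe_d_pos hP hi
  obtain ⟨e1, e2⟩ := labe_e0
  have hγd : 0 < P.γ * P.d i := mul_pos hγ hd
  have hf : P.fo (i + 1) ≤ 2 * (P.γ * P.d i) := by
    unfold Par.fo
    split_ifs with h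
    · have h3 := labe_succ hP (show i < P.l by omega)
      have h4 : P.γ * (1 - e0) * P.d (i + 1) ≤ P.γ * (1 - e0) * (2 * P.d i) :=
        mul_le_mul_of_nonneg_left h3 (mul_nonneg hγ.le (by linarith))
      nlinarith [mul_nonneg e1 hγd.le]
    · have h3 : i = P.l := by omega
      have := hP.m2
      rw [← h3] at this
      linarith
  unfold Par.lp
  rw [if_pos rfl, if_neg (by omega), if_neg (by omega), if_pos (by omega)]
  refine div_le_div_of_nonneg_right ?_ hn.le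
  have e : i + 2 - 2 = i := by omega
  have e' : i + 2 - 1 = i + 1 := by omega
  rw [e, e']
  nlinarith [mul_le_mul_of_nonneg_left e2 hγd.le]

lemma labe_last (hP : P.Ok L) :
    P.lp 0 (P.l + 2) ≤ 2 * exp (L / 50) / Fintype.card V := by
  have hn := labe_n_pos hP
  have hγ := hP.γ0
  have hγ1 := hP.γ1
  have hd := labe_d_pos hP le_rfl
  have h := labe_lp2 hP le_rfl
  refine h.trans (div_le_div_of_nonneg_right ?_ hn.le)
  have h2 := hP.last
  have h3 : 4 * P.γ ≤ 2 := by norm_num at hγ1; linarith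
  nlinarith [mul_le_mul_of_nonneg_right h3 hd.le]

lemma labe_pr2 (hP : P.Ok L) {i : ℕ} (hi : i ≤ P.l) :
    P.pr 0 (i + 1) (i + 2) ≤ 8 * P.γ * P.d i / Fintype.card V := by
  have h1 := labe_lp1 hP hi
  have h2 := labe_lp2 hP hi
  have e : Icc (i + 1) (i + 2) = {i + 1, i + 2} := by
    ext j; simp only [mem_Icc, mem_insert, mem_singleton]; omega
  unfold Par.pr
  rw [e, sum_pair (by omega)]
  have : 8 * P.γ * P.d i / Fintype.card V =
    4 * P.γ * P.d i / Fintype.card V + 4 * P.γ * P.d i / Fintype.card V := by ring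
  linarith

lemma labe_sym (hP : P.Ok L) (k : Fin 3) (hk : k ≠ 0) : P.pr k 1 (P.l + 2) = P.γ := by
  rw [hP.pr_pos, if_neg hk]
  simp

variable [DecidableEq V]

lemma labe_one (hP : P.Ok L) (e : Ln V) {lo hi : ℕ} (h : hi ≤ P.l + 2) :
    Ex P.wl (fun lab => ind (In lo hi (lab e))) = P.pr e.1 lo hi := by
  have := Ex_all P.wl hP.isP {e} (fun _ j => ind (In lo hi j))
  simp only [prod_singleton] at this
  rw [this, hP.wl_sum e h]

lemma labe_dq (hP : P.Ok L) (t : Tr V) {K : ℝ} (hK : 0 ≤ K) :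
    Ex P.wl (fun lab => P.dq K (fun e => lab e) t) ≤ 8 * K * P.γ / Fintype.card V := by
  have hi := hP.lev t.2.2
  have hγ := hP.γ0
  have hd := labe_d_pos hP hi
  have hn := labe_n_pos hP
  have h1 : ∀ lab : Ln V → Fin (P.l + 3), P.dq K (fun e => lab e) t =
      K / (P.γ ^ 2 * P.d (P.lev t.2.2)) *
        (ind (In (P.lev t.2.2 + 1) (P.lev t.2.2 + 2) (lab (ed 0 t))) *
        (ind (In 1 (P.l + 2) (lab (ed 1 t))) * ind (In 1 (P.l + 2) (lab (ed 2 t))))) := by
    intro lab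
    unfold Par.dq
    rw [← ind_and, ← ind_and]
    congr 1
    refine ind_congr ?_
    have a1 := (lab (ed 1 t)).2
    have a2 := (lab (ed 2 t)).2
    unfold In
    dsimp only
    omega
  have hne : ∀ {k k' : Fin 3}, k ≠ k' → ∀ e : Ln V, e = ed k t → ¬ e = ed k' t := by
    intro k k' hk e he he'
    exact hk (by rw [← ed_fst k t, ← he, he', ed_fst])
  rw [Ex_congr h1, Ex_smul,
    Ex_mul hP.isP (A := fun e => e = ed 0 t) (B := fun e => e = ed 1 t ∨ e = ed 2 t)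
      (fun x y h => by rw [h _ rfl])
      (fun x y h => by rw [h _ (Or.inl rfl), h _ (Or.inr rfl)])
      (fun e he he' => he'.elim (hne (by decide) e he) (hne (by decide) e he)),
    Ex_mul hP.isP (A := fun e => e = ed 1 t) (B := fun e => e = ed 2 t)
      (fun x y h => by rw [h _ rfl]) (fun x y h => by rw [h _ rfl]) (hne (by decide)),
    labe_one hP _ (by omega), labe_one hP _ le_rfl, labe_one hP _ le_rfl, ed_fst, ed_fst, ed_fst,
    labe_sym hP 1 (by decide), labe_sym hP 2 (by decide)]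
  have h2 := labe_pr2 hP hi
  calc K / (P.γ ^ 2 * P.d (P.lev t.2.2)) * (P.pr 0 (P.lev t.2.2 + 1) (P.lev t.2.2 + 2) * (P.γ * P.γ))
      ≤ K / (P.γ ^ 2 * P.d (P.lev t.2.2)) *
        ((8 * P.γ * P.d (P.lev t.2.2) / Fintype.card V) * (P.γ * P.γ)) :=
        mul_le_mul_of_nonneg_left (mul_le_mul_of_nonneg_right h2 (by positivity)) (by positivity)
    _ = 8 * K * P.γ / Fintype.card V := by field_simp

lemma labe_top (hP : P.Ok L) (t : Tr V) :
    Ex P.wl (fun lab => ind ((lab (0, t.1, t.2.1) : ℕ) = P.l + 2)) ≤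
      2 * exp (L / 50) / Fintype.card V := by
  have h1 : ∀ lab : Ln V → Fin (P.l + 3), ind ((lab (0, t.1, t.2.1) : ℕ) = P.l + 2) =
      ind (In (P.l + 2) (P.l + 2) (lab (0, t.1, t.2.1))) := fun lab =>
    ind_congr (by unfold In; omega)
  rw [Ex_congr h1, labe_one hP _ le_rfl]
  unfold Par.pr
  rw [Icc_self, sum_singleton]
  exact labe_last hP

end

theorem lab_exp {V : Type} [Fintype V] [DecidableEq V] {P : Par V} {L : ℝ} (hP : P.Ok L)
    {A : Finset (Tr V)} (hA : PL A) {ξ K B : ℝ} (hξ : 0 ≤ ξ) (hK : 0 ≤ K) (hB : 0 ≤ B) :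
    Ex P.wl (fun lab => ∏ t ∈ A, (1 + ξ * P.dq K (fun e => lab e) t +
      B * ind ((lab (0, t.1, t.2.1) : ℕ) = P.l + 2))) ≤
      exp ((8 * ξ * K * P.γ / Fintype.card V + 2 * B * exp (L / 50) / Fintype.card V) * A.card) := by
  have hdq : ∀ (lab : Ln V → Fin (P.l + 3)) (t : Tr V), 0 ≤ P.dq K (fun e => lab e) t := by
    intro lab t
    unfold Par.dq
    exact mul_nonneg (div_nonneg hK (mul_nonneg (sq_nonneg _) (labe_d_nonneg P _))) (ind_nonneg _)
  rw [Ex_prod_indep hP.isP A (fun t e => ∃ k, e = ed k t)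
    (fun t lab => 1 + ξ * P.dq K (fun e => lab e) t + B * ind ((lab (0, t.1, t.2.1) : ℕ) = P.l + 2))
    (fun t _ x y h => by
      have h0 := h _ ⟨0, rfl⟩
      have h1 := h _ ⟨1, rfl⟩
      have h2 := h _ ⟨2, rfl⟩
      have h3 : x (0, t.1, t.2.1) = y (0, t.1, t.2.1) := h0
      unfold Par.dq
      simp only [h0, h1, h2, h3])
    (fun t ht t' ht' e ⟨k, hk⟩ ⟨k', hk'⟩ => by
      have hkk : k = k' := by rw [← ed_fst k t, ← hk, hk', ed_fst]
      subst hkk
      exact hA t ht t' ht' k (hk.symm.trans hk')),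
    mul_comm _ (A.card : ℝ), exp_nat_mul, ← prod_const]
  refine prod_le_prod (fun t _ => Ex_nonneg hP.isP.nonneg fun lab => ?_) fun t _ => ?_
  · have := mul_nonneg hξ (hdq lab t)
    have := mul_nonneg hB (ind_nonneg ((lab (0, t.1, t.2.1) : ℕ) = P.l + 2))
    linarith
  · rw [Ex_add, Ex_add, Ex_const hP.isP, Ex_smul, Ex_smul]
    refine le_trans ?_ (add_one_le_exp _)
    have h1 := mul_le_mul_of_nonneg_left (labe_dq hP t hK) hξ
    have h2 := mul_le_mul_of_nonneg_left (labe_top hP t) hB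
    have e1 : ξ * (8 * K * P.γ / Fintype.card V) = 8 * ξ * K * P.γ / Fintype.card V := by ring
    have e2 : B * (2 * exp (L / 50) / Fintype.card V) =
      2 * B * exp (L / 50) / Fintype.card V := by ring
    linarith

/-- the level of the symbol `s` -/
def labe_lev (n l : ℕ) (s : Fin n) : ℕ := Nat.findGreatest (fun i => (s : ℕ) < n / 2 ^ i) l

lemma labe_anti (n : ℕ) {i j : ℕ} (h : i ≤ j) : n / 2 ^ j ≤ n / 2 ^ i :=
  Nat.div_le_div_left (Nat.pow_le_pow_right (by norm_num) h) (by positivity)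

lemma labe_half (n i : ℕ) : n / 2 ^ (i + 1) = n / 2 ^ i / 2 := by
  rw [pow_succ, Nat.div_div_eq_div_mul]

lemma labe_le_lev {n l i : ℕ} (hi : i ≤ l) (s : Fin n) :
    i ≤ labe_lev n l s ↔ (s : ℕ) < n / 2 ^ i := by
  unfold labe_lev
  refine ⟨fun h => ?_, fun h => Nat.le_findGreatest (P := fun i => (s : ℕ) < n / 2 ^ i) hi h⟩
  have h0 : (s : ℕ) < n / 2 ^ 0 := by simp
  have h1 := Nat.findGreatest_spec (P := fun i => (s : ℕ) < n / 2 ^ i) (Nat.zero_le l) h0
  exact h1.trans_le (labe_anti n h)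

lemma labe_ct_lt {n a : ℕ} (h : a ≤ n) : ct (fun s : Fin n => (s : ℕ) < a) = a := by
  rw [ct_card, Fin.card_filter_val_lt, min_eq_right h]

lemma labe_ct_ge {n l i : ℕ} (hi : i ≤ l) :
    ct (fun s : Fin n => i ≤ labe_lev n l s) = (n / 2 ^ i : ℕ) := by
  rw [ct_congr (labe_le_lev hi), labe_ct_lt (Nat.div_le_self _ _)]

lemma labe_ct_last (n l : ℕ) : ct (fun s : Fin n => labe_lev n l s = l) = (n / 2 ^ l : ℕ) := by
  rw [← labe_ct_ge (l := l) le_rfl]
  refine ct_congr fun s => ?_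
  have : labe_lev n l s ≤ l := Nat.findGreatest_le l
  omega

lemma labe_ct_mid {n l i : ℕ} (hi : i < l) :
    ct (fun s : Fin n => labe_lev n l s = i) = (n / 2 ^ i : ℕ) - (n / 2 ^ (i + 1) : ℕ) := by
  rw [← labe_ct_ge (l := l) hi.le, ← labe_ct_ge (l := l) (show i + 1 ≤ l from hi),
    ct_split (fun s : Fin n => i ≤ labe_lev n l s) (fun s => i + 1 ≤ labe_lev n l s),
    ct_congr (X := fun s : Fin n => i ≤ labe_lev n l s ∧ i + 1 ≤ labe_lev n l s)
      (Y := fun s => i + 1 ≤ labe_lev n l s) (fun s => by omega),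
    ct_congr (X := fun s : Fin n => i ≤ labe_lev n l s ∧ ¬ i + 1 ≤ labe_lev n l s)
      (Y := fun s => labe_lev n l s = i) (fun s => by omega)]
  ring

lemma labe_tail (n l : ℕ) : ∀ k i, i + k = l →
    ∑ j ∈ Icc i l, ct (fun s : Fin n => labe_lev n l s = j) = (n / 2 ^ i : ℕ) := by
  intro k
  induction k with
  | zero =>
    intro i hi
    obtain rfl : i = l := by omega
    rw [Icc_self, sum_singleton, labe_ct_last]
  | succ k ih =>
    intro i hi
    have e : Icc i l = insert i (Icc (i + 1) l) := by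
      ext j; simp only [mem_Icc, mem_insert]; omega
    rw [e, sum_insert (by simp), ih (i + 1) (by omega), labe_ct_mid (by omega)]
    ring

lemma labe_cast_half (a : ℕ) : 2 * ((a / 2 : ℕ) : ℝ) ≤ a ∧ (a : ℝ) ≤ 2 * (a / 2 : ℕ) + 1 := by
  constructor
  · exact_mod_cast (by omega : 2 * (a / 2) ≤ a)
  · exact_mod_cast (by omega : a ≤ 2 * (a / 2) + 1)

lemma labe_lower {n l i : ℕ} (hi : i ≤ l) :
    ((n / 2 ^ i : ℕ) : ℝ) ≤ 2 * ct (fun s : Fin n => labe_lev n l s = i) := by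
  rcases hi.lt_or_eq with h | rfl
  · rw [labe_ct_mid h, labe_half]
    linarith [(labe_cast_half (n / 2 ^ i)).1]
  · rw [labe_ct_last]
    linarith [(Nat.cast_nonneg (n / 2 ^ i) : (0 : ℝ) ≤ _)]

theorem par_exists {γ : ℝ} (h0 : 0 < γ) (h1 : γ ≤ 1 / 10 ^ 4) : ∀ᶠ n : ℕ in atTop,
    ∃ P : Par (Fin n), P.γ = γ ∧ P.Ok (log n) := by
  have hev : ∀ᶠ L : ℝ in atTop, 0 ≤ L ∧ 5 * exp (L / 60) ≤ exp (L / 50) ∧
      γ⁻¹ ≤ exp (L / 60) := by
    filter_upwards [eventually_ge_atTop 0, ev_exp 5 0 (show (1 / 60 : ℝ) < 1 / 50 by norm_num),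
      ev_pow γ⁻¹ 0 (show (0 : ℝ) < 1 / 60 by norm_num)] with L a b c
    rw [show 1 / 60 * L = L / 60 by ring] at b c
    rw [show 1 / 50 * L = L / 50 by ring] at b
    exact ⟨a, by simpa using b, by simpa using c⟩
  filter_upwards [(tendsto_log_atTop.comp tendsto_natCast_atTop_atTop).eventually hev,
    eventually_gt_atTop 0] with n hn hn0
  obtain ⟨hL, hE, hγ⟩ := hn
  simp only [Function.comp] at hL hE hγ
  have hnR : (0 : ℝ) < n := by exact_mod_cast hn0
  have hexp : exp (log n) = n := exp_log hnR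
  set L := log (n : ℝ) with hLdef
  have h60 : 1 ≤ exp (L / 60) := one_le_exp (by linarith)
  have hex : ∃ l : ℕ, ((n / 2 ^ l : ℕ) : ℝ) ≤ exp (L / 50) :=
    ⟨n, by rw [Nat.div_eq_of_lt Nat.lt_two_pow_self]; simpa using (exp_pos _).le⟩
  set l := Nat.find hex with hl
  have hlast : ((n / 2 ^ l : ℕ) : ℝ) ≤ exp (L / 50) := Nat.find_spec hex
  have hbig : 2 * exp (L / 60) ≤ ((n / 2 ^ l : ℕ) : ℝ) := by
    rcases hl' : l with _ | k
    · have : exp (L / 50) ≤ exp L := exp_le_exp.2 (by linarith)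
      simp only [pow_zero, Nat.div_one]
      linarith
    · have h2 : ¬ ((n / 2 ^ k : ℕ) : ℝ) ≤ exp (L / 50) := Nat.find_min hex (by omega)
      rw [labe_half]
      linarith [(labe_cast_half (n / 2 ^ k)).2, not_le.1 h2]
  have hbig' : ∀ i, i ≤ l → 2 * exp (L / 60) ≤ ((n / 2 ^ i : ℕ) : ℝ) := fun i hi =>
    hbig.trans (by exact_mod_cast labe_anti n hi)
  have hγ1 : 1 ≤ γ * ((n / 2 ^ l : ℕ) : ℝ) := by
    have h2 : γ * γ⁻¹ ≤ γ * ((n / 2 ^ l : ℕ) : ℝ) :=
      mul_le_mul_of_nonneg_left (by linarith) h0.le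
    rwa [mul_inv_cancel₀ h0.ne'] at h2
  refine ⟨⟨l, labe_lev n l, γ, ⌊γ * ((n / 2 ^ l : ℕ) : ℝ)⌋₊⟩, rfl,
    ⟨by simp [hexp], h0, h1, fun v => Nat.findGreatest_le l, fun i hi => ?_, fun i hi => ?_,
      fun i hi => ?_, ?_, ?_, ?_, ?_⟩⟩ <;> simp only [Par.d] at *
  · rw [labe_tail n l (l - i) i (by omega)]
    linarith [labe_lower (n := n) hi, ct_nonneg fun s : Fin n => labe_lev n l s = i]
  · rw [labe_ct_mid hi]
    have h2 := labe_lower (n := n) (show i + 1 ≤ l from hi)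
    have h3 := hbig' (i + 1) hi
    have h4 := (labe_cast_half (n / 2 ^ i)).2
    rw [← labe_half] at h4
    linarith
  · linarith [labe_lower (n := n) hi, hbig' i hi]
  · rwa [labe_ct_last]
  · rw [labe_ct_last]
    have h2 := Nat.lt_floor_add_one (γ * ((n / 2 ^ l : ℕ) : ℝ))
    have h3 : (1 : ℝ) ≤ ⌊γ * ((n / 2 ^ l : ℕ) : ℝ)⌋₊ := by
      exact_mod_cast (Nat.one_le_floor_iff _).2 hγ1
    linarith
  · rw [labe_ct_last]
    exact Nat.floor_le (by linarith)
  · have h2 : 1 ≤ n / 2 ^ l := by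
      have : (1 : ℝ) ≤ ((n / 2 ^ l : ℕ) : ℝ) := by linarith
      exact_mod_cast this
    have h3 : 2 ^ l ≤ n := by
      have := (Nat.le_div_iff_mul_le (show 0 < 2 ^ l by positivity)).1 h2
      omega
    have h4 : log ((2 : ℝ) ^ l) ≤ L := log_le_log (by positivity) (by exact_mod_cast h3)
    rw [log_pow] at h4
    have h5 := log_two_gt_d9
    have h6 : (0 : ℝ) ≤ l := Nat.cast_nonneg _
    nlinarith

end Pool.Agent.MP_46aeaf_co.HT

/-! Pseudo-random labels give the hypotheses of a level. -/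

namespace Pool.Agent.MP_46aeaf_co.HT

open Finset Pool.Agent.MP_81e6aa_pr Real Filter

section

variable {V : Type} [Fintype V]

/-- state after the levels below `i` -/
structure LInv (P : Par V) (lb : Ln V → ℕ) (i : ℕ) (F : Finset (Tr V)) : Prop where
  pl : PL F
  mem : ∀ t ∈ F, P.lev t.2.2 < i ∧ lb (ed 0 t) ≠ 0 ∧ lb (ed 0 t) ≤ i + 1 ∧ lb (ed 1 t) ≠ 0 ∧
    lb (ed 2 t) ≠ 0
  cell : ∀ e : Ln V, e.1 = 0 → lb e ≠ 0 → lb e ≤ i → Cv F e
  line : ∀ e : Ln V, e.1 ≠ 0 → lb e ≠ 0 → P.lev e.2.2 < i → Cv F e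

lemma lvi_e0 : 0 < e0 ∧ e0 ≤ 1 / 100 := by unfold e0; constructor <;> norm_num

lemma lvi_tel (f : ℕ → ℝ) {i l : ℕ} (h : i ≤ l) :
    ∑ j ∈ Icc i l, (f j - f (j + 1)) = f i - f (l + 1) := by
  induction l, h using Nat.le_induction with
  | base => simp
  | succ l h ih => rw [sum_Icc_succ_top (by omega), ih]; ring

lemma lvi_err {c μ μ0 ζ σ : ℝ} (hζ : 0 ≤ ζ) (hσ : σ ≤ ζ * μ0) (h1 : μ0 ≤ μ)
    (h : |c - μ| ≤ ζ * μ + σ) : |c - μ| ≤ 2 * ζ * μ := by
  have := mul_le_mul_of_nonneg_left h1 hζ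
  linarith

lemma lvi_err10 {c μ μ0 ζ σ : ℝ} (hζ : 0 ≤ ζ) (hσ : σ ≤ ζ * μ0) (h0 : 0 ≤ μ0) (h1 : μ0 ≤ μ)
    (h : |c - μ| ≤ ζ * μ + σ) : |c - μ| ≤ 10 * ζ * μ := by
  have h2 := lvi_err hζ hσ h1 h
  have := mul_nonneg hζ (h0.trans h1)
  linarith

lemma lvi_ne (σ : Bool) : (if σ then (1 : Fin 3) else 2) ≠ 0 := by cases σ <;> decide

lemma lvi_pr11 (P : Par V) {k : Fin 3} (hk : k ≠ 0) : P.pr k 1 1 = P.γ * (1 - e0) := by
  simp [Par.pr, Par.lp, hk]

lemma lvi_pr22 (P : Par V) {k : Fin 3} (hk : k ≠ 0) : P.pr k 2 2 = P.γ * e0 := by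
  simp [Par.pr, Par.lp, hk]

lemma lvi_pr12 (P : Par V) {k : Fin 3} (hk : k ≠ 0) : P.pr k 1 2 = P.γ := by
  rw [Par.pr, sum_Icc_succ_top (by norm_num)]
  simp [Par.lp, hk]
  ring

lemma lvi_prc (P : Par V) (j : ℕ) : P.pr 0 j j = P.lp 0 j := by simp [Par.pr]

lemma lvi_lp (P : Par V) {j : ℕ} (hj : j ≤ P.l) :
    P.lp 0 (j + 2) = (P.γ * e0 * P.d j + P.fo (j + 1)) / Fintype.card V := by
  unfold Par.lp
  rw [if_pos rfl, if_neg (by omega), if_neg (by omega), if_pos (by omega)]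
  rfl

omit [Fintype V] in
lemma lvi_some (P : Par V) (i : ℕ) (s : V) : P.I (some i) s ↔ P.lev s = i := by simp [Par.I, eq_comm]

omit [Fintype V] in
lemma lvi_none (P : Par V) (s : V) : P.I none s := by simp [Par.I]

lemma lvi_ct_some (P : Par V) (i : ℕ) : ct (P.I (some i)) = P.d i := ct_congr (lvi_some P i)

lemma lvi_ct_none (P : Par V) : ct (P.I none) = Fintype.card V :=
  (ct_congr fun s => iff_true_intro (lvi_none P s)).trans ct_true

lemma lvi_in (a x : ℕ) : In a a x ↔ x = a := by unfold In; omega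

lemma lvi_in12 (x : ℕ) : In 1 2 x ↔ x = 1 ∨ x = 2 := by unfold In; omega

lemma lvi_prsum (P : Par V) (hn : (0 : ℝ) < Fintype.card V) (i : ℕ) :
    P.pr 0 (i + 2) (P.l + 2) * Fintype.card V =
      ∑ j ∈ Icc i P.l, (P.γ * e0 * P.d j + P.fo (j + 1)) := by
  rw [Par.pr, ← map_add_right_Icc, sum_map, sum_mul]
  refine sum_congr rfl fun j hj => ?_
  rw [addRightEmbedding_apply, lvi_lp P (mem_Icc.1 hj).2, div_mul_cancel₀ _ hn.ne']

lemma lvi_mean (P : Par V) (hn : (0 : ℝ) < Fintype.card V) {i : ℕ} (hi : i ≤ P.l) :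
    P.pr 0 (i + 2) (P.l + 2) * Fintype.card V =
      P.m + P.γ * ∑ j ∈ Icc i P.l, P.d j - P.γ * (1 - e0) * P.d i := by
  have h1 := lvi_tel P.fo hi
  have h2 : P.fo (P.l + 1) = P.m := by unfold Par.fo; rw [if_neg (by omega)]
  have h3 : P.fo i = P.γ * (1 - e0) * P.d i := by unfold Par.fo; rw [if_pos hi]
  have h4 : ∑ j ∈ Icc i P.l, (P.γ * e0 * P.d j + P.fo (j + 1)) =
      ∑ j ∈ Icc i P.l, (P.γ * P.d j - (P.fo j - P.fo (j + 1))) :=
    sum_congr rfl fun j hj => by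
      have : P.fo j = P.γ * (1 - e0) * P.d j := by unfold Par.fo; rw [if_pos (mem_Icc.1 hj).2]
      rw [this]; ring
  rw [lvi_prsum P hn, h4, sum_sub_distrib, h1, h2, h3, ← mul_sum]
  ring

lemma lvi_levels (P : Par V) (hl : ∀ v, P.lev v ≤ P.l) (i : ℕ) (X : V → Prop) :
    ct (fun s => X s ∧ i ≤ P.lev s) = ∑ j ∈ Icc i P.l, ct fun s => P.I (some j) s ∧ X s := by
  unfold ct
  rw [sum_comm]
  refine sum_congr rfl fun s _ => ?_
  by_cases hs : i ≤ P.lev s
  · rw [sum_eq_single_of_mem (P.lev s) (mem_Icc.2 ⟨hs, hl s⟩)]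
    · exact ind_congr (by simp [lvi_some, hs])
    · exact fun j _ hj => ind_neg fun h => hj ((lvi_some P j s).1 h.1).symm
  · rw [ind_neg (P := X s ∧ i ≤ P.lev s) fun h => hs h.2]
    refine (sum_eq_zero fun j hj => ind_neg fun h => hs ?_).symm
    rw [(lvi_some P j s).1 h.1]
    exact (mem_Icc.1 hj).1

omit [Fintype V] in
lemma lvi_cv_sl {P : Par V} {lb : Ln V → ℕ} {i : ℕ} {F : Finset (Tr V)} (hF : LInv P lb i F)
    (σ : Bool) (v s : V) : Cv F (sl σ v s) ↔ lb (sl σ v s) ≠ 0 ∧ P.lev s < i := by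
  refine ⟨?_, fun h => hF.line _ (sl_fst_ne σ v s) h.1 h.2⟩
  rintro ⟨t, ht, he⟩
  obtain ⟨h1, -, -, h2, h3⟩ := hF.mem t ht
  cases σ
  · have he' : ed 2 t = sl false v s := he
    have hs : t.2.2 = s := congrArg (fun e : Ln V => e.2.2) he'
    exact ⟨he' ▸ h3, hs ▸ h1⟩
  · have he' : ed 1 t = sl true v s := he
    have hs : t.2.2 = s := congrArg (fun e : Ln V => e.2.2) he'
    exact ⟨he' ▸ h2, hs ▸ h1⟩

omit [Fintype V] in
lemma lvi_cv_cl {P : Par V} {lb : Ln V → ℕ} {i : ℕ} {F : Finset (Tr V)} (hF : LInv P lb i F)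
    {e : Ln V} (he : e.1 = 0) (h : Cv F e) : lb e ≠ 0 ∧ lb e ≤ i + 1 := by
  obtain ⟨t, ht, h⟩ := h
  obtain ⟨-, h1, h2, -⟩ := hF.mem t ht
  rw [he] at h
  exact ⟨h ▸ h1, h ▸ h2⟩

/-- the degree of a vertex in the graph of forced cells -/
lemma lvi_deg {P : Par V} {lb : Ln V → ℕ} (hl : ∀ v, P.lev v ≤ P.l)
    (hs : ∀ e, lb e ≤ P.l + 2 ∧ (e.1 ≠ 0 → lb e ≤ 2)) (hb : Bal (fun e => lb e ≠ 0) P.m) {i : ℕ}
    {F : Finset (Tr V)} (hF : LInv P lb i F) (σ : Bool) (v : V) :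
    ct (fun u => (cl σ v u).1 = 0 ∧ lb (cl σ v u) = i + 1 ∧ ¬ Cv F (cl σ v u)) =
      P.m + ∑ j ∈ Icc i P.l, P.c1 lb (if σ then 1 else 2, true, v) (some j) 1 2 -
        P.c1 lb (0, σ, v) none (i + 2) (P.l + 2) := by
  have h1 := hb.1 σ v
  have h2 := hF.pl.bal.1 σ v
  have h3 := ct_split (fun u => lb (cl σ v u) ≠ 0) fun u => Cv F (cl σ v u)
  have h4 := ct_split (fun s => lb (sl σ v s) ≠ 0) fun s => Cv F (sl σ v s)
  have h5 := ct_split (fun u => lb (cl σ v u) ≠ 0 ∧ ¬ Cv F (cl σ v u))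
    fun u => lb (cl σ v u) = i + 1
  have e1 : ct (fun u => lb (cl σ v u) ≠ 0 ∧ Cv F (cl σ v u)) = ct fun u => Cv F (cl σ v u) :=
    ct_congr fun u => ⟨fun h => h.2, fun h => ⟨(lvi_cv_cl hF (cl_fst σ v u) h).1, h⟩⟩
  have e2 : ct (fun s => lb (sl σ v s) ≠ 0 ∧ Cv F (sl σ v s)) = ct fun s => Cv F (sl σ v s) :=
    ct_congr fun s => ⟨fun h => h.2, fun h => ⟨((lvi_cv_sl hF σ v s).1 h).1, h⟩⟩
  have e3 : ct (fun u => (lb (cl σ v u) ≠ 0 ∧ ¬ Cv F (cl σ v u)) ∧ lb (cl σ v u) = i + 1) =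
      ct fun u => (cl σ v u).1 = 0 ∧ lb (cl σ v u) = i + 1 ∧ ¬ Cv F (cl σ v u) :=
    ct_congr fun u => ⟨fun h => ⟨cl_fst σ v u, h.2, h.1.2⟩,
      fun h => ⟨⟨by rw [h.2.1]; omega, h.2.2⟩, h.2.1⟩⟩
  have e4 : ct (fun u => (lb (cl σ v u) ≠ 0 ∧ ¬ Cv F (cl σ v u)) ∧ ¬ lb (cl σ v u) = i + 1) =
      P.c1 lb (0, σ, v) none (i + 2) (P.l + 2) := by
    refine ct_congr fun u => ?_
    rw [← cl_eq_ray]
    have a1 := hF.cell _ (cl_fst σ v u)
    have a2 := lvi_cv_cl hF (cl_fst σ v u)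
    have a3 := (hs (cl σ v u)).1
    refine ⟨fun h => ⟨lvi_none P u, ?_, a3⟩, fun h => ?_⟩
    · by_contra hc
      exact h.1.2 (a1 h.1.1 (by have := h.2; omega))
    · have a4 := h.2.1
      exact ⟨⟨by omega, fun hc => by have := (a2 hc).2; omega⟩, by omega⟩
  have e5 : ct (fun s => lb (sl σ v s) ≠ 0 ∧ ¬ Cv F (sl σ v s)) =
      ∑ j ∈ Icc i P.l, P.c1 lb (if σ then 1 else 2, true, v) (some j) 1 2 := by
    refine Eq.trans (ct_congr fun s => ?_)
      (lvi_levels P hl i fun s => In 1 2 (lb (ray (if σ then 1 else 2, true, v) s)))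
    rw [← sl_eq_ray, lvi_cv_sl hF, lvi_in12]
    have := (hs (sl σ v s)).2 (sl_fst_ne σ v s)
    omega
  rw [e1] at h3
  rw [e2, e5] at h4
  rw [e3, e4] at h5
  linarith

lemma lvi_num {γ e E d : ℝ} (h0 : 0 < γ) (h1 : γ ≤ 1 / 10 ^ 4) (he : 0 < e) (he1 : e ≤ 1 / 100)
    (hE : 0 ≤ E) (hd : E ≤ d) :
    γ ^ 2 * e ^ 2 * E / 4 ≤ (γ * e) ^ 2 * d / 4 ∧ (γ * e) ^ 2 * d ≤ γ * e * d ∧
      γ * e * d ≤ γ * (1 - e) * d ∧ (γ * e) ^ 2 * d ≤ (γ * (1 - e)) ^ 2 * d ∧
      (γ * (1 - e)) ^ 2 * d ≤ γ * (1 - e) * γ * d ∧ γ * (1 - e) * γ * d ≤ γ ^ 2 * d ∧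
      (γ * e) ^ 2 * d / 4 ≤ γ * d / 4 * (γ * e) ∧ γ * d / 4 * (γ * e) ≤ γ * d / 4 * γ ∧
      0 ≤ (γ * e) ^ 2 * d := by
  have hd0 : 0 ≤ d := hE.trans hd
  have a1 : γ * e ≤ 1 := by nlinarith
  have a2 : 0 < γ * e := mul_pos h0 he
  have a3 : γ * e ≤ γ * (1 - e) := mul_le_mul_of_nonneg_left (by linarith) h0.le
  have a4 : γ * (1 - e) ≤ γ := by nlinarith
  have a5 : γ * e ≤ γ := a3.trans a4
  refine ⟨?_, ?_, ?_, ?_, ?_, ?_, ?_, ?_, by positivity⟩
  · rw [mul_pow]; gcongr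
  · exact mul_le_mul_of_nonneg_right (by nlinarith) hd0
  · gcongr
  · gcongr
  · refine mul_le_mul_of_nonneg_right ?_ hd0
    rw [sq]
    exact mul_le_mul_of_nonneg_left a4 (a2.le.trans a3)
  · refine mul_le_mul_of_nonneg_right ?_ hd0
    rw [sq]
    exact mul_le_mul_of_nonneg_right a4 h0.le
  · calc (γ * e) ^ 2 * d / 4 = (γ * e) * d / 4 * (γ * e) := by ring
      _ ≤ _ := by gcongr
  · gcongr

lemma lvi_hp {P : Par V} {L : ℝ} (hP : P.Ok L) {i : ℕ} (hi : i ≤ P.l) :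
    P.γ * P.d i / 4 ≤ P.lp 0 (i + 2) * Fintype.card V := by
  have hn : (0 : ℝ) < Fintype.card V := by rw [hP.card]; exact exp_pos L
  have h0 := hP.γ0
  obtain ⟨he, he1⟩ := lvi_e0
  have hd : 0 ≤ P.d i := ct_nonneg _
  rw [lvi_lp P hi, div_mul_cancel₀ _ hn.ne']
  have a1 : 0 ≤ P.γ * e0 * P.d i := by positivity
  unfold Par.fo
  split_ifs with hc
  · have a2 := hP.next i hc
    have a3 : 0 ≤ P.d (i + 1) := ct_nonneg _
    have a4 : P.γ * P.d i ≤ P.γ * (3 * P.d (i + 1)) := by gcongr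
    have a5 : P.γ * (3 / 4) * P.d (i + 1) ≤ P.γ * (1 - e0) * P.d (i + 1) := by
      gcongr; linarith
    linarith
  · obtain rfl : i = P.l := by omega
    linarith [hP.m1]

lemma lvi_g1 {P : Par V} {L ζ σ : ℝ} (hP : P.Ok L) {lb : Ln V → ℕ} (h : P.Pris lb L ζ σ 1)
    (hζ0 : 0 ≤ ζ) (hσ0 : 0 ≤ σ)
    (hσ : (P.l + 2) * σ ≤ ζ * (P.γ ^ 2 * e0 ^ 2 * exp (L / 60) / 4))
    (hb : Bal (fun e => lb e ≠ 0) P.m) {i : ℕ} (hi : i ≤ P.l) {F : Finset (Tr V)}
    (hF : LInv P lb i F) (τ : Bool) (v : V) :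
    |ct (fun u => (cl τ v u).1 = 0 ∧ lb (cl τ v u) = i + 1 ∧ ¬ Cv F (cl τ v u)) -
      P.γ * (1 - e0) * P.d i| ≤ 10 * ζ * (P.γ * (1 - e0) * P.d i) := by
  have hn : (0 : ℝ) < Fintype.card V := by rw [hP.card]; exact exp_pos L
  have h0 := hP.γ0
  obtain ⟨he, he1⟩ := lvi_e0
  obtain ⟨n1, n2, n3, -, -, -, -, -, n9⟩ :=
    lvi_num h0 hP.γ1 he he1 (exp_pos _).le (hP.big i hi)
  have hd : 0 ≤ P.d i := ct_nonneg _
  have hc := h.one (0, τ, v) none (i + 2) (P.l + 2) (by simp) (by omega) (by omega) le_rfl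
  rw [lvi_ct_none] at hc
  have hm := lvi_mean P hn hi
  dsimp only at hc
  have hs : |∑ j ∈ Icc i P.l, P.c1 lb (if τ then 1 else 2, true, v) (some j) 1 2 -
      P.γ * ∑ j ∈ Icc i P.l, P.d j| ≤ ζ * (P.γ * ∑ j ∈ Icc i P.l, P.d j) + (P.l + 1) * σ := by
    rw [mul_sum, ← sum_sub_distrib]
    refine (abs_sum_le_sum_abs _ _).trans ((sum_le_sum
      (g := fun j => ζ * (P.γ * P.d j) + σ) fun j hj => ?_).trans ?_)
    · have := h.one (if τ then 1 else 2, true, v) (some j) 1 2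
        (by simpa using (mem_Icc.1 hj).2) le_rfl (by omega) (by omega)
      rwa [lvi_ct_some, lvi_pr12 P (lvi_ne τ)] at this
    · rw [sum_add_distrib, ← mul_sum, sum_const, Nat.card_Icc, nsmul_eq_mul]
      have : ((P.l + 1 - i : ℕ) : ℝ) ≤ P.l + 1 := by exact_mod_cast Nat.sub_le _ _
      gcongr
  have ht := hP.tail i hi
  have hl : P.d P.l ≤ ∑ j ∈ Icc i P.l, P.d j :=
    single_le_sum (f := P.d) (fun _ _ => ct_nonneg _) (mem_Icc.2 ⟨hi, le_rfl⟩)
  have hm2 := hP.m2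
  rw [lvi_deg hP.lev h.sup hb hF]
  rw [hm] at hc
  generalize ∑ j ∈ Icc i P.l, P.c1 lb (if τ then 1 else 2, true, v) (some j) 1 2 = A at hs ⊢
  generalize P.c1 lb (0, τ, v) none (i + 2) (P.l + 2) = B at hc ⊢
  generalize ∑ j ∈ Icc i P.l, P.d j = S at hs hc ht hl
  have a1 : P.γ * S ≤ P.γ * (3 * P.d i) := by gcongr
  have a2 : P.γ * P.d P.l ≤ P.γ * S := by gcongr
  have a3 : P.γ * (99 / 100) * P.d i ≤ P.γ * (1 - e0) * P.d i := by gcongr; linarith
  have a4 : P.γ * S + (P.m + P.γ * S - P.γ * (1 - e0) * P.d i) +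
      P.γ ^ 2 * e0 ^ 2 * exp (L / 60) / 4 ≤ 10 * (P.γ * (1 - e0) * P.d i) := by
    linarith [mul_nonneg h0.le hd]
  have a5 := mul_le_mul_of_nonneg_left a4 hζ0
  rw [abs_le] at hs hc ⊢
  constructor <;> linarith [hs.1, hs.2, hc.1, hc.2]

/-- The hypotheses of a level.  Use `cl_eq_ray`, `sl_eq_ray`, `sl_eq_ray'`; labels of symbol lines
are at most 2 (`sup`), so nonzero means `In 1 2`.  All means are at least
`γ ^ 2 e0 ^ 2 exp (L / 60) / 4` (for `qo`, `qu`: `p n ≥ γ d / 4` by `next`, `m1`), so `σ ≤ ζ` times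
the mean.  For `g1`: by `Bal` and `(PL.bal _).1` the degree of `v` in `G` equals
`m + ∑ j ∈ Icc i l, c1 (symbol ray) (some j) 1 2 - c1 (cell ray) none (i + 2) (l + 2)`, with mean
`m + γ ∑ j ∈ Icc i l, d j - ∑ j ∈ Icc i l, (γ e0 d j + fo (j + 1)) = fo i` (telescoping) and
error at most `ζ (3 γ d i + 5 γ d i) + (l + 2) σ` (`tail`, `m2`).  For `bal` use `Bal.2`. -/
theorem lv_of_inv (P : Par V) {L ζ σ : ℝ} (hP : P.Ok L) {lb : Ln V → ℕ} (h : P.Pris lb L ζ σ 1)
    (hζ0 : 0 ≤ ζ) (hζ : ζ ≤ 1 / 100) (hσ0 : 0 ≤ σ)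
    (hσ : (P.l + 2) * σ ≤ ζ * (P.γ ^ 2 * e0 ^ 2 * exp (L / 60) / 4))
    (hb : Bal (fun e => lb e ≠ 0) P.m) {i : ℕ} (hi : i ≤ P.l) {F : Finset (Tr V)}
    (hF : LInv P lb i F) :
    Lv P.γ (10 * ζ) L (P.d i) (P.lp 0 (i + 2)) (fun s => P.lev s = i)
      (fun e => e.1 = 0 ∧ lb e = i + 1 ∧ ¬ Cv F e) (fun e => e.1 = 0 ∧ lb e = i + 2)
      (fun e => e.1 ≠ 0 ∧ lb e = 1 ∧ P.lev e.2.2 = i)
      fun e => e.1 ≠ 0 ∧ lb e = 2 ∧ P.lev e.2.2 = i := by
  have hn : (0 : ℝ) < Fintype.card V := by rw [hP.card]; exact exp_pos L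
  have h0 := hP.γ0
  obtain ⟨he, he1⟩ := lvi_e0
  have hd : 0 ≤ P.d i := ct_nonneg _
  have hdn : P.d i ≤ Fintype.card V := ct_le_card _
  obtain ⟨n1, n2, n3, n4, n5, n6, n7, n8, n9⟩ :=
    lvi_num h0 hP.γ1 he he1 (exp_pos _).le (hP.big i hi)
  have hp := lvi_hp hP hi
  have hμ : 0 ≤ P.γ ^ 2 * e0 ^ 2 * exp (L / 60) / 4 := by positivity
  have hσ' : σ ≤ ζ * (P.γ ^ 2 * e0 ^ 2 * exp (L / 60) / 4) := by
    have : 0 ≤ (P.l : ℝ) * σ := by positivity
    linarith
  generalize P.γ ^ 2 * e0 ^ 2 * exp (L / 60) / 4 = μ at n1 hμ hσ'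
  have hs : ∀ j, some i = some j → j ≤ P.l := by simpa using hi
  have hno : ∀ j, (none : Option ℕ) = some j → j ≤ P.l := by simp
  have hne := fun (τ : Bool) (v s : V) => sl_fst_ne τ v s
  have b1 : P.γ * e0 * P.d i ≤ P.γ * e0 * Fintype.card V := by gcongr
  have b2 : P.γ * (1 - e0) * P.d i ≤ P.γ * (1 - e0) * Fintype.card V := by
    have : 0 ≤ 1 - e0 := by linarith
    gcongr
  have hC : ∀ (τ τ' : Bool) (v v' : V), (τ ≠ τ' ∨ v ≠ v') →
      Cmp (if τ then 1 else 2, true, v) (if τ' then 1 else 2, true, v') := by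
    intro τ τ' v v' hv
    by_cases ht : τ = τ'
    · exact Or.inr ⟨rfl, hv.resolve_left fun h => h ht⟩
    · refine Or.inl ?_
      dsimp only
      revert ht
      cases τ <;> cases τ' <;> decide
  have hC' : ∀ (τ τ' : Bool) (v s : V), Cmp (0, τ, v) (if τ' then 1 else 2, false, s) :=
    fun τ τ' v s => Or.inl (lvi_ne τ').symm
  refine ⟨hP.card, rfl, hP.big i hi, fun _ h => h.1, fun _ h => h.1,
    fun e h h' => by have := h.2.1; have := h'.2; omega, fun _ h => ⟨h.1, h.2.2⟩,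
    fun _ h => ⟨h.1, h.2.2⟩, fun e h h' => by have := h.2.1; have := h'.2.1; omega,
    lvi_g1 hP h hζ0 hσ0 hσ hb hi hF, fun τ v => ?_, fun τ v => ?_, fun τ τ' v v' hv => ?_,
    fun τ τ' v v' hv => ?_, fun τ v v' => ?_, fun τ s => ?_, fun τ s => ?_, fun s => ?_,
    fun τ v s hs' => ?_, fun τ v s hs' => ?_, fun X Y hXY => ?_, hp⟩
  · have a := h.one (if τ then 1 else 2, true, v) (some i) 1 1 hs le_rfl le_rfl (by omega)
    rw [lvi_ct_some, lvi_pr11 P (lvi_ne τ)] at a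
    rw [show ct _ = P.c1 lb (if τ then 1 else 2, true, v) (some i) 1 1 from ct_congr fun s => by
      rw [← sl_eq_ray, lvi_in, lvi_some]; simp [hne, and_comm]]
    exact lvi_err10 hζ0 hσ' hμ (by linarith) a
  · have a := h.one (if τ then 1 else 2, true, v) (some i) 2 2 hs one_le_two le_rfl (by omega)
    rw [lvi_ct_some, lvi_pr22 P (lvi_ne τ)] at a
    rw [show ct _ = P.c1 lb (if τ then 1 else 2, true, v) (some i) 2 2 from ct_congr fun s => by
      rw [← sl_eq_ray, lvi_in, lvi_some]; simp [hne, and_comm]]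
    exact lvi_err10 hζ0 hσ' hμ (by linarith) a
  · have a := h.two _ _ (some i) 1 1 1 1 (hC τ τ' v v' hv) hs le_rfl le_rfl (by omega) le_rfl le_rfl
      (by omega)
    rw [lvi_ct_some, lvi_pr11 P (lvi_ne τ), lvi_pr11 P (lvi_ne τ'), ← sq] at a
    rw [show ct _ = P.c2 lb (if τ then 1 else 2, true, v) (if τ' then 1 else 2, true, v') (some i)
      1 1 1 1 from ct_congr fun s => by
        rw [← sl_eq_ray, ← sl_eq_ray, lvi_in, lvi_in, lvi_some]
        have := hne τ v s; have := hne τ' v' s; simp only [sl_snd]; tauto]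
    exact lvi_err10 hζ0 hσ' hμ (by linarith) a
  · have a := h.two _ _ (some i) 2 2 2 2 (hC τ τ' v v' hv) hs one_le_two le_rfl (by omega)
      one_le_two le_rfl (by omega)
    rw [lvi_ct_some, lvi_pr22 P (lvi_ne τ), lvi_pr22 P (lvi_ne τ'), ← sq] at a
    rw [show ct _ = P.c2 lb (if τ then 1 else 2, true, v) (if τ' then 1 else 2, true, v') (some i)
      2 2 2 2 from ct_congr fun s => by
        rw [← sl_eq_ray, ← sl_eq_ray, lvi_in, lvi_in, lvi_some]
        have := hne τ v s; have := hne τ' v' s; simp only [sl_snd]; tauto]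
    exact lvi_err10 hζ0 hσ' hμ (by linarith) a
  · have a := h.two _ _ (some i) 1 1 1 2 (hC τ (!τ) v v' (Or.inl (by simp))) hs le_rfl le_rfl
      (by omega) le_rfl one_le_two (by omega)
    rw [lvi_ct_some, lvi_pr11 P (lvi_ne τ), lvi_pr12 P (lvi_ne (!τ))] at a
    rw [show ct _ = P.c2 lb (if τ then 1 else 2, true, v) (if (!τ) then 1 else 2, true, v') (some i)
      1 1 1 2 from ct_congr fun s => by
        rw [← sl_eq_ray, ← sl_eq_ray, lvi_in, lvi_in12, lvi_some]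
        have := hne τ v s; have := hne (!τ) v' s; simp only [sl_snd]; tauto]
    have a' := (abs_le.1 (lvi_err hζ0 hσ' (by linarith) a)).2
    have a1 : 2 * ζ * (P.γ * (1 - e0) * P.γ * P.d i) ≤ 1 * (P.γ * (1 - e0) * P.γ * P.d i) :=
      mul_le_mul_of_nonneg_right (by linarith) (by linarith)
    linarith
  · have a := h.one (if τ then 1 else 2, false, s) none 1 1 hno le_rfl le_rfl (by omega)
    rw [lvi_ct_none, lvi_pr11 P (lvi_ne τ)] at a
    have a' := (abs_le.1 (lvi_err10 hζ0 hσ' hμ (by linarith) a)).2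
    refine (show ct _ ≤ P.c1 lb (if τ then 1 else 2, false, s) none 1 1 from
      ct_mono fun v hv => ⟨lvi_none P v, (lvi_in _ _).2 hv.2.1⟩).trans (by linarith)
  · have a := h.one (if τ then 1 else 2, false, s) none 2 2 hno one_le_two le_rfl (by omega)
    rw [lvi_ct_none, lvi_pr22 P (lvi_ne τ)] at a
    have a' := (abs_le.1 (lvi_err10 hζ0 hσ' hμ (by linarith) a)).2
    refine (show ct _ ≤ P.c1 lb (if τ then 1 else 2, false, s) none 2 2 from
      ct_mono fun v hv => ⟨lvi_none P v, (lvi_in _ _).2 hv.2.1⟩).trans (by linarith)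
  · by_cases hs' : P.lev s = i
    · have key : ∀ (τ : Bool) (v : V),
          ((sl τ v s).1 ≠ 0 ∧ lb (sl τ v s) = 1 ∧ P.lev (sl τ v s).2.2 = i ∨
            (sl τ v s).1 ≠ 0 ∧ lb (sl τ v s) = 2 ∧ P.lev (sl τ v s).2.2 = i) ↔
          lb (sl τ v s) ≠ 0 := fun τ v => by
        have a1 := (h.sup _).2 (hne τ v s)
        have a2 := hne τ v s
        simp only [sl_snd, hs', a2, ne_eq, not_false_eq_true, true_and, and_true]
        omega
      exact (ct_congr (key true)).trans ((hb.2 s).trans (ct_congr (key false)).symm)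
    · rw [ct_false fun v h => hs' (h.elim (fun h => h.2.2) fun h => h.2.2),
        ct_false fun v h => hs' (h.elim (fun h => h.2.2) fun h => h.2.2)]
  · have a := h.two _ _ none (i + 2) (i + 2) 2 2 (hC' τ (!τ) v s) hno (by omega) le_rfl (by omega)
      one_le_two le_rfl (by omega)
    rw [lvi_ct_none, lvi_prc, lvi_pr22 P (lvi_ne (!τ))] at a
    rw [show ct _ = P.c2 lb (0, τ, v) (if (!τ) then 1 else 2, false, s) none (i + 2) (i + 2) 2 2
      from ct_congr fun u => by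
        rw [← cl_eq_ray, ← sl_eq_ray', lvi_in, lvi_in]; simp [hne, hs', lvi_none]]
    have a1 := mul_le_mul_of_nonneg_right hp (mul_pos h0 he).le
    exact lvi_err10 hζ0 hσ' hμ (by linarith) a
  · have a := h.two _ _ none (i + 2) (i + 2) 1 2 (hC' τ (!τ) v s) hno (by omega) le_rfl (by omega)
      le_rfl one_le_two (by omega)
    rw [lvi_ct_none, lvi_prc, lvi_pr12 P (lvi_ne (!τ))] at a
    rw [show ct _ = P.c2 lb (0, τ, v) (if (!τ) then 1 else 2, false, s) none (i + 2) (i + 2) 1 2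
      from ct_congr fun u => by
        rw [← cl_eq_ray, ← sl_eq_ray', lvi_in, lvi_in12]; simp [hne, hs', lvi_none]]
    have a1 := mul_le_mul_of_nonneg_right hp h0.le
    exact lvi_err10 hζ0 hσ' hμ (by linarith) a
  · simpa using h.edge (i + 2) (by omega) X Y hXY

end

end Pool.Agent.MP_46aeaf_co.HT

end
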