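import Pool.Agent.MP_46aeaf_co.Mg.Prob

-- part MP_46aeaf_co.LS.Base
section

set_option autoImplicit false
set_option linter.unusedSectionVars false
set_option linter.unusedVariables false

/-! Definitions for the hitting time theorem for Latin squares.

Triples `(r, c, s)`; lines `(0, r, c)` (cells), `(1, r, s)`, `(2, c, s)`; `ed k t` is the line of
type `k` of the triple `t`.  `ct X` is the (real) number of points satisfying `X`. -/

namespace Pool.Agent.MP_46aeaf_co.HT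

open Finset Pool.Agent.MP_81e6aa_pr Real

noncomputable section

abbrev Tr (V : Type) := V × V × V
abbrev Ln (V : Type) := Fin 3 × V × V
abbrev Ray (V : Type) := Fin 3 × Bool × V

/-! ### Finite distributions -/

/-- weighted average -/
def Av {α : Type} [Fintype α] (μ f : α → ℝ) : ℝ := ∑ a, μ a * f a

/-- probability vector -/
structure Pm {α : Type} [Fintype α] (μ : α → ℝ) : Prop where
  nonneg : ∀ a, 0 ≤ μ a
  sum : ∑ a, μ a = 1

/-- there is a `q`-spread random set that has property `P` except with probability `ε` -/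
def Ach {Ω : Type} [Fintype Ω] (q : Ω → ℝ) (ε : ℝ) (P : Finset Ω → Prop) : Prop :=
  ∃ μ : Finset Ω → ℝ, Pm μ ∧ (∀ S : Finset Ω, Av μ (fun F => ind (S ⊆ F)) ≤ ∏ t ∈ S, q t) ∧
    Av μ (fun F => ind (¬ P F)) ≤ ε

/-- uniform weights -/
def unif (V : Type) [Fintype V] : V → ℝ := fun _ => (Fintype.card V : ℝ)⁻¹

/-- `μ` is dominated by the product weights up to a factor two per coordinate -/
def Dom {I α : Type} [Fintype I] [DecidableEq I] [Fintype α] (w : I → α → ℝ)
    (μ : (I → α) → ℝ) : Prop :=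
  ∀ (J : Finset I) (f : (I → α) → ℝ), (∀ x, 0 ≤ f x) → Dep (fun i => i ∈ J) f →
    Av μ f ≤ 2 ^ J.card * Ex w f

/-! ### Triples and lines -/

section Lines

variable {V : Type}

/-- the triple on the line `e` with third vertex `v` -/
def tri (e : Ln V) (v : V) : Tr V :=
  if e.1 = 0 then (e.2.1, e.2.2, v) else if e.1 = 1 then (e.2.1, v, e.2.2) else (v, e.2.1, e.2.2)

/-- the vertex of class `k` -/
def co (k : Fin 3) (t : Tr V) : V := if k = 0 then t.1 else if k = 1 then t.2.1 else t.2.2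

/-- partial Latin square: no two triples on a line -/
def PL (F : Finset (Tr V)) : Prop := ∀ t ∈ F, ∀ t' ∈ F, ∀ k, ed k t = ed k t' → t = t'

/-- the line `e` is covered by `F` -/
def Cv (F : Finset (Tr V)) (e : Ln V) : Prop := ∃ t ∈ F, ed e.1 t = e

/-- `F` is a triangle decomposition of `U` -/
def Dec (F : Finset (Tr V)) (U : Ln V → Prop) : Prop := PL F ∧ ∀ e, Cv F e ↔ U e

/-- vertex disjoint triples -/
def VD (F : Finset (Tr V)) : Prop := ∀ t ∈ F, ∀ t' ∈ F, ∀ k, co k t = co k t' → t = t'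

/-- number of triples of `S` with vertex `v` in class `k` -/
def dv (S : Finset (Tr V)) (k : Fin 3) (v : V) : ℝ := ∑ t ∈ S, ind (co k t = v)

/-- lines of one type through one vertex -/
def ray (ρ : Ray V) (v : V) : Ln V := if ρ.2.1 then (ρ.1, ρ.2.2, v) else (ρ.1, v, ρ.2.2)

/-- rays that never meet -/
def Cmp (ρ ρ' : Ray V) : Prop := ρ.1 ≠ ρ'.1 ∨ (ρ.2.1 = ρ'.2.1 ∧ ρ.2.2 ≠ ρ'.2.2)

/-- the line between the row (`σ = true`) or column (`σ = false`) `v` and the symbol `s` -/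
def sl (σ : Bool) (v s : V) : Ln V := (if σ then 1 else 2, v, s)

/-- the cell between `v` on side `σ` and `u` on the other side -/
def cl (σ : Bool) (v u : V) : Ln V := if σ then (0, v, u) else (0, u, v)

/-- the line from `u` in class `k` to `v` in class `k + 1` -/
def arc (k : Fin 3) (u v : V) : Ln V :=
  if k = 0 then (0, u, v) else if k = 1 then (2, u, v) else (1, v, u)

/-- the triple with `u`, `v`, `w` in the classes `k`, `k + 1`, `k + 2` -/
def tg (k : Fin 3) (u v w : V) : Tr V :=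
  if k = 0 then (u, v, w) else if k = 1 then (w, u, v) else (v, w, u)

variable [Fintype V]

/-- number of triples of `H` on the line `e` -/
def dg (H : Tr V → Prop) (e : Ln V) : ℝ := ct fun t => ed e.1 t = e ∧ H t

/-- total relative deficiency of the lines in `X` -/
def dfc (H : Tr V → Prop) (D : ℝ) (X : Ln V → Prop) : ℝ := ∑ e, ind (X e) * (1 - dg H e / D)

/-- every row and column has `m` more cells than symbol lines; symbols are balanced -/
def Bal (U : Ln V → Prop) (m : ℝ) : Prop :=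
  (∀ σ v, ct (fun u => U (cl σ v u)) = ct (fun s => U (sl σ v s)) + m) ∧
    ∀ s, ct (fun v => U (sl true v s)) = ct fun v => U (sl false v s)

def Reg (G : V → V → Prop) (m : ℝ) : Prop := (∀ r, ct (G r) = m) ∧ ∀ c, ct (fun r => G r c) = m

def DegLe (G : V → V → Prop) (m : ℝ) : Prop := (∀ r, ct (G r) ≤ m) ∧ ∀ c, ct (fun r => G r c) ≤ m

/-- at most `m` lines of `X` on every ray -/
def RayLe (X : Ln V → Prop) (m : ℝ) : Prop := ∀ ρ : Ray V, ct (fun v => X (ray ρ v)) ≤ m

/-! ### The model -/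

/-- the earliest triples on the lines of low degree -/
def RS (b : Tr V → Bool) (L : ℝ) (τ : Finset (Tr V)) : Prop :=
  VD τ ∧ (∀ e, dg (fun t => b t = true) e < L / 10 ^ 4 → Cv τ e) ∧ (τ.card : ℝ) ≤ exp (L / 50)

def Core (V : Type) [Fintype V] [DecidableEq V] (L ε : ℝ) : Prop :=
  Ex (fun _ : Tr V => bern (199 / 100 * L / Fintype.card V)) (fun b => ind (¬ ∀ τ, RS b L τ →
    Ex (fun _ : Tr V => bern (1 / 1000 * L / Fintype.card V)) (fun a =>
      Ex (fun _ : Tr V => bern (4 / 1000 * L / Fintype.card V)) (fun w =>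
        ind (¬ ∃ F : Finset (Tr V), (∀ t ∈ F, a t = true ∨ b t = true ∨ w t = true) ∧
          Dec F fun e => ¬ Cv τ e))) ≤ ε)) ≤ ε

/-! ### The first stage -/

/-- pseudo-randomness of the reservoir -/
structure XIn (γ ζ : ℝ) (X : Ln V → Prop) : Prop where
  x1 : RayLe X (2 * γ * Fintype.card V)
  x2 : ∀ e : Ln V, |dg (fun t => ∀ k, k ≠ e.1 → ¬ X (ed k t)) e - (1 - γ) ^ 2 * Fintype.card V| ≤
    ζ * Fintype.card V
  x3 : ∀ e : Ln V, γ ^ 2 * Fintype.card V / 2 ≤ dg (fun t => ∀ k, k ≠ e.1 → X (ed k t)) e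

/-- lines outside the reservoir with few sampled triples into the reservoir -/
def Bad (γ L : ℝ) (X : Ln V → Prop) (b : Tr V → Bool) (e : Ln V) : Prop :=
  ¬ X e ∧ dg (fun t => b t = true ∧ ∀ k, k ≠ e.1 → X (ed k t)) e < γ ^ 2 * L / 10

structure PreB (γ ζ L : ℝ) (X A : Ln V → Prop) (b : Tr V → Bool) : Prop where
  p1 : ∀ e, dg (fun t => b t = true) e ≤ 10 * L
  p2 : ∀ e : Ln V, dg (fun t => b t = true ∧ ∃ k, k ≠ e.1 ∧ (X (ed k t) ∨ A (ed k t))) e ≤
    L / 10 ^ 4 / 4
  p3 : ∀ e : Ln V, dg (fun t => b t = true ∧ (∀ k, ¬ X (ed k t)) ∧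
    ∃ k, k ≠ e.1 ∧ Bad γ L X b (ed k t)) e ≤ ζ * L / 10 ^ 6
  p4 : RayLe (Bad γ L X b) (ζ * Fintype.card V)

/-- outcome of the first stage -/
def S1 {J : Type} (ζ₁ σ : ℝ) (X A : Ln V → Prop) (τ : Finset (Tr V)) (T : J → Ln V → Prop)
    (a b : Tr V → Bool) (F : Finset (Tr V)) : Prop :=
  PL F ∧ (∀ t ∈ F, a t = true ∨ b t = true) ∧ (∀ e, Cv F e → ¬ A e ∧ ¬ Cv τ e) ∧
    (∀ e, ¬ X e → ¬ A e → ¬ Cv τ e → Cv F e) ∧
    ∀ j, ct (fun e => T j e ∧ X e ∧ Cv F e) ≤ ζ₁ * ct (T j) + σ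

/-! ### One dense level -/

def e0 : ℝ := 1 / 10 ^ 7

/-- `D` symbols, `G` cells that must be covered, `Q` cells that may be used, `W`, `O` the two
kinds of symbol lines -/
structure Lv (γ ζ L d p : ℝ) (D : V → Prop) (G Q W O : Ln V → Prop) : Prop where
  card : (Fintype.card V : ℝ) = exp L
  hd : d = ct D
  dbig : exp (L / 60) ≤ d
  tG : ∀ e, G e → e.1 = 0
  tQ : ∀ e, Q e → e.1 = 0
  GQ : ∀ e, G e → ¬ Q e
  tW : ∀ e, W e → e.1 ≠ 0 ∧ D e.2.2
  tO : ∀ e, O e → e.1 ≠ 0 ∧ D e.2.2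
  WO : ∀ e, W e → ¬ O e
  g1 : ∀ σ v, |ct (fun u => G (cl σ v u)) - γ * (1 - e0) * d| ≤ ζ * (γ * (1 - e0) * d)
  w1 : ∀ σ v, |ct (fun s => W (sl σ v s)) - γ * (1 - e0) * d| ≤ ζ * (γ * (1 - e0) * d)
  o1 : ∀ σ v, |ct (fun s => O (sl σ v s)) - γ * e0 * d| ≤ ζ * (γ * e0 * d)
  w2 : ∀ σ σ' v v', (σ ≠ σ' ∨ v ≠ v') →
    |ct (fun s => W (sl σ v s) ∧ W (sl σ' v' s)) - (γ * (1 - e0)) ^ 2 * d| ≤
      ζ * ((γ * (1 - e0)) ^ 2 * d)
  o2 : ∀ σ σ' v v', (σ ≠ σ' ∨ v ≠ v') →
    |ct (fun s => O (sl σ v s) ∧ O (sl σ' v' s)) - (γ * e0) ^ 2 * d| ≤ ζ * ((γ * e0) ^ 2 * d)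
  wu2 : ∀ σ v v', ct (fun s => W (sl σ v s) ∧ (W (sl (!σ) v' s) ∨ O (sl (!σ) v' s))) ≤
    2 * γ ^ 2 * d
  s1w : ∀ σ s, ct (fun v => W (sl σ v s)) ≤ (1 + ζ) * (γ * (1 - e0) * Fintype.card V)
  s1o : ∀ σ s, ct (fun v => O (sl σ v s)) ≤ (1 + ζ) * (γ * e0 * Fintype.card V)
  bal : ∀ s, ct (fun v => W (sl true v s) ∨ O (sl true v s)) =
    ct fun v => W (sl false v s) ∨ O (sl false v s)
  qo : ∀ σ v s, D s → |ct (fun u => Q (cl σ v u) ∧ O (sl (!σ) u s)) -
    p * (γ * e0) * Fintype.card V| ≤ ζ * (p * (γ * e0) * Fintype.card V)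
  qu : ∀ σ v s, D s → |ct (fun u => Q (cl σ v u) ∧ (W (sl (!σ) u s) ∨ O (sl (!σ) u s))) -
    p * γ * Fintype.card V| ≤ ζ * (p * γ * Fintype.card V)
  edge : ∀ X Y : Finset V, X.card = Y.card → ∑ r ∈ X, ∑ c ∈ Y, ind (Q (0, r, c)) ≤
    105 / 100 * (X.card : ℝ) ^ 2 * p + 100 * X.card * L
  hp : γ * d / 4 ≤ p * Fintype.card V

/-- the spread of one level -/
def lq (K γ d : ℝ) (G Q W O : Ln V → Prop) (t : Tr V) : ℝ :=
  K / (γ ^ 2 * d) * ind ((G (ed 0 t) ∨ Q (ed 0 t)) ∧ (W (ed 1 t) ∨ O (ed 1 t)) ∧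
    (W (ed 2 t) ∨ O (ed 2 t)))

/-- outcome of the nibble phase; `B` is the set of bad symbols -/
structure PA (γ d : ℝ) (B : V → Prop) (G W O : Ln V → Prop) (M : Finset (Tr V)) : Prop where
  pl : PL M
  mem : ∀ t ∈ M, G (ed 0 t) ∧ W (ed 1 t) ∧ W (ed 2 t) ∧ ¬ B t.2.2
  t1 : ∀ σ v, ct (fun u => G (cl σ v u) ∧ ¬ Cv M (cl σ v u)) ≤ e0 ^ 2 / 100 * γ * d
  t2 : ∀ σ s, ¬ B s → ct (fun v => W (sl σ v s) ∧ ¬ Cv M (sl σ v s)) ≤
    e0 ^ 2 / 100 * γ * Fintype.card V
  t3 : ∀ σ v v', ct (fun s => ¬ B s ∧ W (sl σ v s) ∧ ¬ Cv M (sl σ v s) ∧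
    (W (sl (!σ) v' s) ∨ O (sl (!σ) v' s))) ≤ e0 ^ 2 / 100 * γ ^ 2 * d

/-- outcome of the phase that covers the remaining forced cells -/
structure PS (γ p : ℝ) (B D : V → Prop) (G Q O : Ln V → Prop) (M M' : Finset (Tr V)) : Prop where
  pl : PL M'
  mem : ∀ t ∈ M', G (ed 0 t) ∧ ¬ Cv M (ed 0 t) ∧ O (ed 1 t) ∧ O (ed 2 t) ∧ ¬ B t.2.2
  cov : ∀ e, G e → ¬ Cv M e → Cv M' e
  t4 : ∀ σ v s, D s → ct (fun u => Q (cl σ v u) ∧ O (sl (!σ) u s) ∧ Cv M' (sl (!σ) u s)) ≤
    3 / 100 * (p * (γ * e0) * Fintype.card V)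

/-- outcome of the matching phase; `M` is the union of the two earlier phases -/
structure PB [DecidableEq V] (Q W O : Ln V → Prop) (M M' : Finset (Tr V)) : Prop where
  pl : PL M'
  mem : ∀ t ∈ M', Q (ed 0 t) ∧ ((W (ed 1 t) ∨ O (ed 1 t)) ∧ ¬ Cv M (ed 1 t)) ∧
    (W (ed 2 t) ∨ O (ed 2 t)) ∧ ¬ Cv M (ed 2 t)
  cov : ∀ e, W e ∨ O e → ¬ Cv M e → Cv M' e

/-- outcome of a level -/
structure PLv (G Q W O : Ln V → Prop) (F : Finset (Tr V)) : Prop where
  pl : PL F
  mem : ∀ t ∈ F, (G (ed 0 t) ∨ Q (ed 0 t)) ∧ (W (ed 1 t) ∨ O (ed 1 t)) ∧ (W (ed 2 t) ∨ O (ed 2 t))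
  cov : ∀ e, G e ∨ W e ∨ O e → Cv F e

end Lines

/-! ### Labels -/

/-- `l + 1` levels of symbols, density `γ`, final degree `m` -/
structure Par (V : Type) where
  l : ℕ
  lev : V → ℕ
  γ : ℝ
  m : ℕ

def In (lo hi x : ℕ) : Prop := lo ≤ x ∧ x ≤ hi

namespace Par

variable {V : Type} [Fintype V] (P : Par V)

def d (i : ℕ) : ℝ := ct fun s => P.lev s = i

def fo (i : ℕ) : ℝ := if i ≤ P.l then P.γ * (1 - e0) * P.d i else P.m

/-- probability that a line of type `k` gets label `j` -/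
def lp (k : Fin 3) (j : ℕ) : ℝ :=
  if k = 0 then
    if j = 0 then 1 - P.γ - P.m / Fintype.card V
    else if j = 1 then P.fo 0 / Fintype.card V
    else if j ≤ P.l + 2 then (P.γ * e0 * P.d (j - 2) + P.fo (j - 1)) / Fintype.card V else 0
  else if j = 0 then 1 - P.γ else if j = 1 then P.γ * (1 - e0)
    else if j = 2 then P.γ * e0 else 0

def pr (k : Fin 3) (lo hi : ℕ) : ℝ := ∑ j ∈ Icc lo hi, P.lp k j

def wl (e : Ln V) (j : Fin (P.l + 3)) : ℝ := P.lp e.1 j

/-- all vertices, or the symbols of one level -/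
def I (i : Option ℕ) (v : V) : Prop := ∀ j, i = some j → P.lev v = j

structure Ok (L : ℝ) : Prop where
  card : (Fintype.card V : ℝ) = exp L
  γ0 : 0 < P.γ
  γ1 : P.γ ≤ 1 / 10 ^ 4
  lev : ∀ v, P.lev v ≤ P.l
  tail : ∀ i, i ≤ P.l → ∑ j ∈ Icc i P.l, P.d j ≤ 3 * P.d i
  next : ∀ i, i < P.l → P.d i ≤ 3 * P.d (i + 1)
  big : ∀ i, i ≤ P.l → exp (L / 60) ≤ P.d i
  last : P.d P.l ≤ exp (L / 50)
  m1 : P.γ * P.d P.l ≤ 4 * P.m
  m2 : (P.m : ℝ) ≤ P.γ * P.d P.l
  ll : (P.l : ℝ) ≤ 2 * L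

def c1 (lb : Ln V → ℕ) (ρ : Ray V) (i : Option ℕ) (lo hi : ℕ) : ℝ :=
  ct fun v => P.I i v ∧ In lo hi (lb (ray ρ v))

def c2 (lb : Ln V → ℕ) (ρ ρ' : Ray V) (i : Option ℕ) (lo hi lo' hi' : ℕ) : ℝ :=
  ct fun v => P.I i v ∧ In lo hi (lb (ray ρ v)) ∧ In lo' hi' (lb (ray ρ' v))

/-- pseudo-random labels; only the label intervals that start at `b` or later are controlled -/
structure Pris (lb : Ln V → ℕ) (L ζ σ : ℝ) (b : ℕ) : Prop where
  sup : ∀ e, lb e ≤ P.l + 2 ∧ (e.1 ≠ 0 → lb e ≤ 2)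
  one : ∀ ρ i lo hi, (∀ j, i = some j → j ≤ P.l) → b ≤ lo → lo ≤ hi → hi ≤ P.l + 2 →
    |P.c1 lb ρ i lo hi - P.pr ρ.1 lo hi * ct (P.I i)| ≤ ζ * (P.pr ρ.1 lo hi * ct (P.I i)) + σ
  two : ∀ ρ ρ' i lo hi lo' hi', Cmp ρ ρ' → (∀ j, i = some j → j ≤ P.l) → b ≤ lo → lo ≤ hi →
    hi ≤ P.l + 2 → b ≤ lo' → lo' ≤ hi' → hi' ≤ P.l + 2 →
    |P.c2 lb ρ ρ' i lo hi lo' hi' - P.pr ρ.1 lo hi * P.pr ρ'.1 lo' hi' * ct (P.I i)| ≤
      ζ * (P.pr ρ.1 lo hi * P.pr ρ'.1 lo' hi' * ct (P.I i)) + σ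
  edge : ∀ j, 1 ≤ j → ∀ X Y : Finset V, X.card = Y.card →
    ∑ r ∈ X, ∑ c ∈ Y, ind (lb (0, r, c) = j) ≤
      105 / 100 * (X.card : ℝ) ^ 2 * P.lp 0 j + 100 * X.card * L

/-- the spread of the dense part -/
def dq (K : ℝ) (lb : Ln V → ℕ) (t : Tr V) : ℝ :=
  K / (P.γ ^ 2 * P.d (P.lev t.2.2)) *
    ind ((lb (ed 0 t) = P.lev t.2.2 + 1 ∨ lb (ed 0 t) = P.lev t.2.2 + 2) ∧
      lb (ed 1 t) ≠ 0 ∧ lb (ed 2 t) ≠ 0)

/-- outcome of the dense part -/
def Dn (lb : Ln V → ℕ) (F : Finset (Tr V)) : Prop :=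
  PL F ∧ (∀ e, Cv F e → lb e ≠ 0) ∧ ∀ e, lb e ≠ 0 → ¬ Cv F e → e.1 = 0 ∧ lb e = P.l + 2

end Par

/-! ### The absorber -/

/-- class of position `k` on a cycle -/
def cls (k : ℕ) : Fin 3 := Fin.ofNat 3 (k + 2)

/-- Objects are directed paths that occupy the positions `lo ≤ k < hi` of cycles of length 15;
gadgets are such cycles. -/
structure Blue (V Obj Gad : Type) where
  lo : Obj → ℕ
  hi : Obj → ℕ
  st : Obj → V
  en : Obj → V
  cel : V → V → Obj
  ob : Gad → ℕ → Obj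

/-- Template of a gadget: private vertices `PV`, triangles `TT` in two states (`true` = on). -/
structure Tm (PV TT : Type) where
  cp : PV → Fin 3
  val : Bool → TT → Prop
  k : Bool → TT → Fin 3
  v : Bool → TT → Fin 3 → Fin 15 ⊕ PV

namespace Tm

variable {PV TT : Type} (T : Tm PV TT)

/-- families that can be built by adding triangles with a new private vertex -/
inductive Peel [DecidableEq TT] (st : Bool) : Finset TT → Prop
  | one (τ : TT) : Peel st {τ}
  | add (S : Finset TT) (τ : TT) (i : Fin 3) (y : PV) : Peel st S → τ ∉ S →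
      T.v st τ i = Sum.inr y → (∀ τ' ∈ S, ∀ i', T.v st τ' i' ≠ Sum.inr y) → Peel st (insert τ S)

structure Ok [Fintype TT] [DecidableEq TT] (h : ℕ) : Prop where
  cls : ∀ st τ i, T.val st τ →
    Sum.elim (fun j : Fin 15 => cls j) T.cp (T.v st τ i) = T.k st τ + i
  iden : ∀ φ : Fin 3 → Fin 15 ⊕ PV → Fin 15 ⊕ PV → ℝ,
    ∑ τ, ind (T.val true τ) * ∑ i, φ (T.k true τ + i) (T.v true τ i) (T.v true τ (i + 1)) =
    ∑ τ, ind (T.val false τ) * ∑ i, φ (T.k false τ + i) (T.v false τ i) (T.v false τ (i + 1)) +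
      ∑ j : Fin 15, φ (HT.cls j) (Sum.inl j) (Sum.inl (j + 1))
  off : ∀ τ i i', T.val false τ → (T.v false τ i).isLeft → (T.v false τ i').isLeft → i = i'
  on : ∀ τ i i', T.val true τ → i ≠ i' → (T.v true τ i).isLeft → (T.v true τ i').isLeft →
    ∃ (i₀ : Fin 3) (j : Fin 15), T.v true τ i₀ = Sum.inl j ∧ T.v true τ (i₀ + 1) = Sum.inl (j + 1) ∧
      (T.v true τ (i₀ + 2)).isRight
  dist : ∀ τ i τ' i', T.val false τ → T.val false τ' →
    (T.v false τ i).getRight? = (T.v false τ' i').getRight? →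
    (T.v false τ (i + 1)).getRight? = (T.v false τ' (i' + 1)).getRight? → τ = τ' ∧ i = i'
  deg : ∀ z, ct (fun p : TT × Fin 3 => T.val false p.1 ∧
    (T.v false p.1 p.2 = z ∨ T.v false p.1 (p.2 + 1) = z)) ≤ 100
  size : Fintype.card TT ≤ 15 + 96 * h
  peel : ∀ st (S : Finset TT), S.Nonempty → (∀ τ ∈ S, T.val st τ) →
    ∃ S' ⊆ S, T.Peel st S' ∧ h * (S.card - S'.card) ≤ S.card

variable {V : Type}

/-- image of a template triangle -/
def img (W : Fin 15 → V) (y : PV → V) (st : Bool) (τ : TT) : Tr V :=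
  tg (T.k st τ) (Sum.elim W y (T.v st τ 0)) (Sum.elim W y (T.v st τ 1)) (Sum.elim W y (T.v st τ 2))

/-- generating function of the triangles of one state that land in `S`, without constant term -/
def Y [Fintype TT] (ξ : ℝ) (S : Finset (Tr V)) (W : Fin 15 → V) (y : PV → V) (st : Bool) : ℝ :=
  ∏ τ, (1 + ξ * ind (T.val st τ ∧ T.img W y st τ ∈ S)) - 1

end Tm

namespace Blue

variable {V Obj Gad : Type} (B : Blue V Obj Gad)

def isC (o : Obj) : Prop := ∃ r c, o = B.cel r c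

/-- the gadget `g` contains the object `o` -/
def cont (g : Gad) (o : Obj) : Prop := B.ob g (B.lo o) = o

/-- gadgets all of whose cells are in `Q` -/
def act (Q : V → V → Prop) (g : Gad) : Prop := ∀ r c, B.cont g (B.cel r c) → Q r c

structure Ok [Fintype V] [Fintype Obj] [Fintype Gad] (m : ℕ) (τ : ℝ) : Prop where
  lohi : ∀ o, B.lo o < B.hi o ∧ B.hi o ≤ 15
  long : ∀ o, ¬ B.isC o → B.lo o + 2 ≤ B.hi o
  cel : ∀ r c, B.lo (B.cel r c) = 4 ∧ B.hi (B.cel r c) = 5 ∧ B.st (B.cel r c) = r ∧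
    B.en (B.cel r c) = c
  mem : ∀ g k, k < 15 → B.lo (B.ob g k) ≤ k ∧ k < B.hi (B.ob g k)
  same : ∀ g k k', k < 15 → B.lo (B.ob g k) ≤ k' → k' < B.hi (B.ob g k) → B.ob g k' = B.ob g k
  chain : ∀ g k, k < 15 → k + 1 = B.hi (B.ob g k) →
    B.lo (B.ob g ((k + 1) % 15)) = (k + 1) % 15 ∧ B.st (B.ob g ((k + 1) % 15)) = B.en (B.ob g k)
  route : ∀ G : V → V → Prop, Reg G m → ∃ On : Gad → Bool, ∀ o,
    ct (fun g => On g = true ∧ B.cont g o) = ind (¬ B.isC o ∨ ∃ r c, o = B.cel r c ∧ G r c)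
  nobj : ct (fun o => ¬ B.isC o) ≤ 10 * τ ^ 81
  lobj : ∀ v, ct (fun o => ¬ B.isC o ∧ (B.st o = v ∨ B.en o = v)) ≤ 100 * τ ^ 46
  ngad : ∀ Q, DegLe Q (2 * τ) → ct (B.act Q) ≤ 10 * τ ^ 81
  mobj : ∀ Q, DegLe Q (2 * τ) → ∀ o, ct (fun g => B.act Q g ∧ B.cont g o) ≤ 10 * τ ^ 30
  lgad : ∀ Q, DegLe Q (2 * τ) → ∀ v,
    ct (fun g => B.act Q g ∧ ∃ k, k < 15 ∧ B.st (B.ob g k) = v) ≤ 10 * τ ^ 46

/-- the vertex at position `k` of the object `o`; `x` places the inner vertices -/
def pt (x : Obj × Fin 15 → V) (o : Obj) (k : ℕ) : V :=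
  if k = B.lo o then B.st o else if k = B.hi o then B.en o else x (o, Fin.ofNat 15 k)

def oarc (x : Obj × Fin 15 → V) (o : Obj) (k : ℕ) : Ln V :=
  arc (cls k) (B.pt x o k) (B.pt x o (k + 1))

def root (x : Obj × Fin 15 → V) (g : Gad) (j : Fin 15) : V := B.pt x (B.ob g j) j

/-- positions of the fixed objects -/
def ov (o : Obj) (k : ℕ) : Prop := ¬ B.isC o ∧ B.lo o ≤ k ∧ k < B.hi o

/-- lines of the fixed objects -/
def OL (x : Obj × Fin 15 → V) (e : Ln V) : Prop := ∃ o k, B.ov o k ∧ B.oarc x o k = e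

variable {PV TT : Type} (T : Tm PV TT)

def garc (x : Obj × Fin 15 → V) (y : Gad × PV → V) (g : Gad) (st : Bool) (τ : TT) (i : Fin 3) :
    Ln V :=
  arc (T.k st τ + i) (Sum.elim (B.root x g) (fun p => y (g, p)) (T.v st τ i))
    (Sum.elim (B.root x g) (fun p => y (g, p)) (T.v st τ (i + 1)))

/-- private lines of the active gadgets -/
def GdL (Q : V → V → Prop) (x : Obj × Fin 15 → V) (y : Gad × PV → V) (e : Ln V) : Prop :=
  ∃ g τ i, B.act Q g ∧ T.val false τ ∧ B.garc T x y g false τ i = e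

/-- good placement of the objects -/
structure G1 [Fintype V] [Fintype Gad] (Λ : ℝ) (X : Ln V → Prop) (Q : V → V → Prop)
    (x : Obj × Fin 15 → V) : Prop where
  inj : ∀ o k o' k', B.ov o k → B.ov o' k' → B.oarc x o k = B.oarc x o' k' → o = o' ∧ k = k'
  avoid : ∀ e, B.OL x e → ¬ X e
  load : ∀ v, ct (fun p : Gad × Fin 15 => B.act Q p.1 ∧ B.root x p.1 p.2 = v) ≤ Λ
  ray : RayLe (B.OL x) Λ

/-- good placement of the gadgets -/
structure G2 [Fintype V] (Λ : ℝ) (X : Ln V → Prop) (Q : V → V → Prop)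
    (x : Obj × Fin 15 → V) (y : Gad × PV → V) : Prop where
  inj : ∀ g τ i g' τ' i', B.act Q g → T.val false τ → B.act Q g' → T.val false τ' →
    B.garc T x y g false τ i = B.garc T x y g' false τ' i' → g = g' ∧ τ = τ' ∧ i = i'
  avoid : ∀ e, B.GdL T Q x y e → ¬ X e ∧ ¬ B.OL x e
  ray : RayLe (B.GdL T Q x y) Λ

open Classical in
/-- the triples used when the gadgets in `On` are switched on -/
def FA [Fintype Gad] [Fintype TT] (Q : V → V → Prop) (x : Obj × Fin 15 → V) (y : Gad × PV → V)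
    (On : Gad → Bool) : Finset (Tr V) :=
  (univ.filter fun p : Gad × TT => B.act Q p.1 ∧ T.val (On p.1) p.2).image
    fun p => T.img (B.root x p.1) (fun z => y (p.1, z)) (On p.1) p.2

/-- some line of the cycle of `g` is a line of `S` -/
def hit (S : Finset (Tr V)) (x : Obj × Fin 15 → V) (g : Gad) : Prop :=
  ∃ j : Fin 15, Cv S (B.oarc x (B.ob g j) j)

/-- exclusive families of active gadgets that are hit -/
def Exc (Q : V → V → Prop) (S T₁ : Finset (Tr V)) (x : Obj × Fin 15 → V) (C : Finset Gad) : Prop :=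
  (∀ g ∈ C, B.act Q g ∧ B.hit S x g ∧ ∀ r c, B.cont g (B.cel r c) → ¬ Cv T₁ (0, r, c)) ∧
    ∀ g ∈ C, ∀ g' ∈ C, ∀ o, B.cont g o → B.cont g' o → g = g'

open Classical in
def Psi [Fintype Gad] [Fintype TT] (ξ : ℝ) (Q : V → V → Prop) (S T₁ : Finset (Tr V))
    (x : Obj × Fin 15 → V) (y : Gad × PV → V) : ℝ :=
  ∑ C : Finset Gad, ind (B.Exc Q S T₁ x C) *
    ((∏ g ∈ C, T.Y ξ S (B.root x g) (fun z => y (g, z)) true) *
      ∏ g ∈ univ.filter (fun g => B.act Q g ∧ g ∉ C),
        (1 + T.Y ξ S (B.root x g) (fun z => y (g, z)) false +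
          ind (¬ B.hit S x g) * T.Y ξ S (B.root x g) (fun z => y (g, z)) true))

/-- objects that are hit -/
def hitO (Q : V → V → Prop) (S T₁ : Finset (Tr V)) (x : Obj × Fin 15 → V) (o : Obj) : Prop :=
  (∃ k, B.lo o ≤ k ∧ k < B.hi o ∧ Cv S (B.oarc x o k)) ∧
    ∀ r c, o = B.cel r c → Q r c ∧ ¬ Cv T₁ (0, r, c)

/-- the generating function of the objects that are hit -/
def HO [Fintype Obj] [Fintype Gad] (c : ℝ) (Q : V → V → Prop) (S T₁ : Finset (Tr V))
    (x : Obj × Fin 15 → V) : ℝ :=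
  ∏ o, (1 + c * ct (fun g => B.act Q g ∧ B.cont g o) * ind (B.hitO Q S T₁ x o))

end Blue

/-- what the absorber provides -/
structure AbsOk {V Θ : Type} [Fintype V] [DecidableEq V] [Fintype Θ] (L κ ξ : ℝ) (m : ℕ)
    (X : Ln V → Prop) (Q : V → V → Prop) (μ : Θ → ℝ) (good : Θ → Prop) (A : Θ → Ln V → Prop)
    (Fa : Θ → (V → V → Prop) → Finset (Tr V)) : Prop where
  pm : Pm μ
  fail : Av μ (fun θ => ind (¬ good θ)) ≤ exp (-L)
  disj : ∀ θ, good θ → ∀ e, A θ e → ¬ X e
  ray : ∀ θ, good θ → RayLe (A θ) (exp (95 / 100 * L))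
  bal : ∀ θ, good θ → Bal (A θ) (-(m : ℝ))
  dec : ∀ θ, good θ → ∀ G : V → V → Prop, (∀ r c, G r c → Q r c) → Reg G m →
    Dec (Fa θ G) fun e => A θ e ∨ (e.1 = 0 ∧ G e.2.1 e.2.2)
  line : ∀ e, Av μ (fun θ => ind (good θ ∧ A θ e)) ≤ exp (-(L / 20))
  spr : ∀ S : Finset (Tr V), PL S → ∃ Ψ : Θ → Finset (Tr V) → ℝ, (∀ θ T₁, 0 ≤ Ψ θ T₁) ∧
    (∀ θ, good θ → ∀ (T₁ : Finset (Tr V)) (G : V → V → Prop), (∀ r c, G r c → Q r c) → Reg G m →
      (∀ t ∈ T₁, ¬ G t.1 t.2.1) → (1 + ξ) ^ (S ∩ Fa θ G).card ≤ Ψ θ T₁) ∧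
    ∀ T₁ ⊆ S, Av μ (fun θ => ind (good θ) * Ψ θ T₁) ≤
      exp (κ * S.card) * ∏ t ∈ S \ T₁, (1 + exp (62 / 100 * L) * ind (Q t.1 t.2.1))

end

end Pool.Agent.MP_46aeaf_co.HT

/-! Basic facts on counting, averages, triples and lines. -/

namespace Pool.Agent.MP_46aeaf_co.HT

open Finset Pool.Agent.MP_81e6aa_pr Real Filter

section Ct

variable {α β : Type} [Fintype α] [Fintype β]

lemma ct_congr {X Y : α → Prop} (h : ∀ a, X a ↔ Y a) : ct X = ct Y :=
  sum_congr rfl fun a _ => ind_congr (h a)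

lemma ct_false {X : α → Prop} (h : ∀ a, ¬ X a) : ct X = 0 := sum_eq_zero fun a _ => ind_neg (h a)

lemma ct_true : ct (fun _ : α => True) = Fintype.card α := by simp [ct, ind]

lemma ct_le_card (X : α → Prop) : ct X ≤ Fintype.card α :=
  (ct_mono fun _ _ => trivial).trans ct_true.le

lemma ct_or_le (X Y : α → Prop) : ct (fun a => X a ∨ Y a) ≤ ct X + ct Y := by
  unfold ct; rw [← sum_add_distrib]; exact sum_le_sum fun a _ => ind_or_le _ _

lemma ct_le_add {X Y Z : α → Prop} (h : ∀ a, X a → Y a ∨ Z a) : ct X ≤ ct Y + ct Z :=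
  (ct_mono h).trans (ct_or_le _ _)

lemma ct_split (X Y : α → Prop) :
    ct X = ct (fun a => X a ∧ Y a) + ct fun a => X a ∧ ¬ Y a := by
  unfold ct; rw [← sum_add_distrib]
  refine sum_congr rfl fun a _ => ?_
  by_cases h : X a <;> by_cases h' : Y a <;> simp [ind, h, h']

lemma ct_or_eq {X Y : α → Prop} (h : ∀ a, X a → ¬ Y a) :
    ct (fun a => X a ∨ Y a) = ct X + ct Y := by
  unfold ct; rw [← sum_add_distrib]
  refine sum_congr rfl fun a _ => ?_
  have := h a
  by_cases h : X a <;> by_cases h' : Y a <;> simp_all [ind]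

lemma ct_card (X : α → Prop) [DecidablePred X] : ct X = (univ.filter X).card :=
  (card_filter_eq_sum_ind _ _).symm

lemma ct_mem [DecidableEq α] (s : Finset α) : ct (fun a => a ∈ s) = s.card := by
  rw [ct_card]; simp

lemma ct_eq (a : α) : ct (fun x => x = a) = 1 := by
  simpa [ct] using sum_ind_eq a fun _ => 1

lemma one_le_ct {X : α → Prop} {a : α} (h : X a) : 1 ≤ ct X := by
  rw [← ind_pos h]
  exact single_le_sum (f := fun a => ind (X a)) (fun _ _ => ind_nonneg _) (mem_univ a)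

lemma exists_of_ct_pos {X : α → Prop} (h : 0 < ct X) : ∃ a, X a := by
  by_contra h'
  rw [ct_false fun a ha => h' ⟨a, ha⟩] at h
  exact lt_irrefl _ h

lemma ct_le_of_inj {X : α → Prop} {Y : β → Prop} (f : α → β) (hf : ∀ a, X a → Y (f a))
    (hi : ∀ a a', X a → X a' → f a = f a' → a = a') : ct X ≤ ct Y := by
  classical
  rw [ct_card, ct_card]
  exact_mod_cast card_le_card_of_injOn f (fun a ha => by simpa using hf a (by simpa using ha))
    fun a ha a' ha' h => hi a a' (by simpa using ha) (by simpa using ha') h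

/-- every point of `X` is the image of a point of `Y` -/
lemma ct_le_of_surj {X : α → Prop} {Y : β → Prop} (f : β → α)
    (hf : ∀ a, X a → ∃ b, Y b ∧ f b = a) : ct X ≤ ct Y := by
  classical
  by_cases hβ : Nonempty β
  · choose! g hg using hf
    exact ct_le_of_inj g (fun a ha => (hg a ha).1) fun a a' ha ha' h => by
      rw [← (hg a ha).2, ← (hg a' ha').2, h]
  · rw [ct_false fun a ha => hβ ⟨(hf a ha).choose⟩]; exact ct_nonneg _

lemma ct_exists_le (X : β → α → Prop) : ct (fun a => ∃ j, X j a) ≤ ∑ j, ct (X j) := by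
  unfold ct
  rw [sum_comm]
  refine sum_le_sum fun a _ => ?_
  simpa using ind_exists_le univ fun j => X j a

lemma ct_prod (X : α × β → Prop) : ct X = ∑ a, ct fun b => X (a, b) := by
  unfold ct; rw [Fintype.sum_prod_type]

lemma ct_comm (X : α → β → Prop) : ∑ a, ct (X a) = ∑ b, ct fun a => X a b := by
  unfold ct; rw [sum_comm]

lemma sum_ind_mul_le {X : α → Prop} {f : α → ℝ} {c : ℝ} (h : ∀ a, X a → f a ≤ c) :
    ∑ a, ind (X a) * f a ≤ ct X * c := by
  unfold ct; rw [sum_mul]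
  refine sum_le_sum fun a _ => ?_
  by_cases ha : X a
  · exact mul_le_mul_of_nonneg_left (h a ha) (ind_nonneg _)
  · simp [ind_neg ha]

lemma sum_mem_ind (s : Finset α) (X : α → Prop) :
    ∑ a ∈ s, ind (X a) = ct fun a => a ∈ s ∧ X a := by
  classical
  unfold ct
  rw [← univ_inter s, ← sum_ite_mem, univ_inter]
  exact sum_congr rfl fun a _ => by by_cases h : a ∈ s <;> simp [ind, h]

end Ct

section Avs

variable {α : Type} [Fintype α] {μ : α → ℝ}

lemma Ex_eq_Av {I : Type} [Fintype I] [DecidableEq I] (w : I → α → ℝ) (F : (I → α) → ℝ) :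
    Ex w F = Av (fun x => ∏ i, w i (x i)) F := rfl

lemma pm_prod {I : Type} [Fintype I] [DecidableEq I] {w : I → α → ℝ} (hw : IsP w) :
    Pm fun x : I → α => ∏ i, w i (x i) :=
  ⟨fun _ => prod_nonneg fun _ _ => hw.nonneg _ _, by simpa [Ex] using Ex_const hw 1⟩

lemma Pm.isP (h : Pm μ) (I : Type) : IsP fun _ : I => μ := ⟨fun _ => h.nonneg, fun _ => h.sum⟩

lemma pm_unif (V : Type) [Fintype V] [Nonempty V] : Pm (unif V) :=
  ⟨fun _ => by unfold unif; positivity, by simp [unif]⟩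

lemma Av_mono (h0 : ∀ a, 0 ≤ μ a) {f g : α → ℝ} (h : ∀ a, f a ≤ g a) : Av μ f ≤ Av μ g :=
  sum_le_sum fun a _ => mul_le_mul_of_nonneg_left (h a) (h0 a)

lemma Av_mono' (h0 : ∀ a, 0 ≤ μ a) {f g : α → ℝ} (h : ∀ a, μ a ≠ 0 → f a ≤ g a) :
    Av μ f ≤ Av μ g := by
  refine sum_le_sum fun a _ => ?_
  by_cases ha : μ a = 0
  · simp [ha]
  · exact mul_le_mul_of_nonneg_left (h a ha) (h0 a)

lemma Av_nonneg (h0 : ∀ a, 0 ≤ μ a) {f : α → ℝ} (h : ∀ a, 0 ≤ f a) : 0 ≤ Av μ f :=
  sum_nonneg fun a _ => mul_nonneg (h0 a) (h a)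

lemma Av_congr {f g : α → ℝ} (h : ∀ a, f a = g a) : Av μ f = Av μ g := by rw [funext h]

lemma Av_add (f g : α → ℝ) : Av μ (fun a => f a + g a) = Av μ f + Av μ g := by
  simp [Av, mul_add, sum_add_distrib]

lemma Av_sub (f g : α → ℝ) : Av μ (fun a => f a - g a) = Av μ f - Av μ g := by
  simp [Av, mul_sub, sum_sub_distrib]

lemma Av_smul (c : ℝ) (f : α → ℝ) : Av μ (fun a => c * f a) = c * Av μ f := by
  unfold Av; rw [mul_sum]; exact sum_congr rfl fun _ _ => by ring

lemma Av_mul_const (c : ℝ) (f : α → ℝ) : Av μ (fun a => f a * c) = Av μ f * c := by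
  unfold Av; rw [sum_mul]; exact sum_congr rfl fun _ _ => by ring

lemma Av_sum {ι : Type} (s : Finset ι) (f : ι → α → ℝ) :
    Av μ (fun a => ∑ j ∈ s, f j a) = ∑ j ∈ s, Av μ (f j) := by
  unfold Av; simp only [mul_sum]; rw [sum_comm]

lemma Av_const (h : Pm μ) (c : ℝ) : Av μ (fun _ => c) = c := by
  unfold Av; rw [← sum_mul, h.sum, one_mul]

lemma Av_le (h : Pm μ) {f : α → ℝ} {c : ℝ} (hf : ∀ a, f a ≤ c) : Av μ f ≤ c :=
  (Av_mono h.nonneg hf).trans (Av_const h c).le

lemma le_Av (h : Pm μ) {f : α → ℝ} {c : ℝ} (hf : ∀ a, c ≤ f a) : c ≤ Av μ f :=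
  (Av_const h c).ge.trans (Av_mono h.nonneg hf)

lemma Av_not (h : Pm μ) (P : α → Prop) :
    Av μ (fun a => ind (¬ P a)) = 1 - Av μ fun a => ind (P a) := by
  simp only [ind_not]; rw [Av_sub, Av_const h]

lemma Av_comm {β : Type} [Fintype β] (μ : α → ℝ) (ν : β → ℝ) (f : α → β → ℝ) :
    Av μ (fun a => Av ν fun b => f a b) = Av ν fun b => Av μ fun a => f a b := by
  unfold Av; simp only [mul_sum]; rw [sum_comm]
  exact sum_congr rfl fun _ _ => sum_congr rfl fun _ _ => by ring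

lemma Av_exists_le (h0 : ∀ a, 0 ≤ μ a) {ι : Type} [Fintype ι] (Q : ι → α → Prop) :
    Av μ (fun a => ind (∃ j, Q j a)) ≤ ∑ j, Av μ fun a => ind (Q j a) := by
  rw [← Av_sum]
  exact Av_mono h0 fun a => by simpa using ind_exists_le univ fun j => Q j a

lemma Av_markov (h0 : ∀ a, 0 ≤ μ a) {f : α → ℝ} (hf : ∀ a, 0 ≤ f a) {b : ℝ} (hb : 0 < b) :
    Av μ (fun a => ind (b < f a)) ≤ Av μ f / b := by
  rw [div_eq_mul_inv, ← Av_mul_const]
  refine Av_mono h0 fun a => ind_le (mul_nonneg (hf a) (inv_nonneg.2 hb.le)) fun h => ?_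
  rw [← div_eq_mul_inv, le_div_iff₀ hb]; linarith

end Avs

section Lines

variable {V : Type}

@[simp] lemma ed_fst (k : Fin 3) (t : Tr V) : (ed k t).1 = k := rfl

lemma ed_tri (e : Ln V) (v : V) : ed e.1 (tri e v) = e := by
  obtain ⟨k, a, b⟩ := e
  fin_cases k <;> simp [tri, ed]

/-- the vertex of a triple that is not on its line of type `k` -/
lemma tri_ed (k : Fin 3) (t : Tr V) : tri (ed k t) (co (2 - k) t) = t := by
  fin_cases k <;> simp [tri, ed, co]

lemma co_tri (e : Ln V) (v : V) : co (2 - e.1) (tri e v) = v := by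
  obtain ⟨k, a, b⟩ := e
  fin_cases k <;> simp [tri, co]

lemma tri_inj (e : Ln V) : Function.Injective (tri e) := fun v v' h => by
  rw [← co_tri e v, h, co_tri]

lemma on_iff {e : Ln V} {t : Tr V} : ed e.1 t = e ↔ ∃ v, tri e v = t :=
  ⟨fun h => ⟨co (2 - e.1) t, by rw [← tri_ed e.1 t, h, co_tri]⟩, by
    rintro ⟨v, rfl⟩; exact ed_tri e v⟩

/-- two lines of different types determine a triple -/
lemma eq_of_ed {k k' : Fin 3} (hk : k ≠ k') {t t' : Tr V} (h : ed k t = ed k t')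
    (h' : ed k' t = ed k' t') : t = t' := by
  obtain ⟨a, b, c⟩ := t
  obtain ⟨a', b', c'⟩ := t'
  fin_cases k <;> fin_cases k' <;> simp_all [ed]

/-- two different lines lie on at most one triple -/
lemma eq_of_on {e e' : Ln V} (he : e ≠ e') {t t' : Tr V} (h1 : ed e.1 t = e) (h2 : ed e'.1 t = e')
    (h3 : ed e.1 t' = e) (h4 : ed e'.1 t' = e') : t = t' := by
  refine eq_of_ed (k := e.1) (k' := e'.1) (fun h => he ?_) (h1.trans h3.symm) (h2.trans h4.symm)
  rw [← h1, ← h2, h]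

/-- the other lines of the triples on `e` run along a ray -/
lemma ed_tri_ray (e : Ln V) (k : Fin 3) (hk : k ≠ e.1) :
    ∃ ρ : Ray V, ρ.1 = k ∧ ∀ v, ed k (tri e v) = ray ρ v := by
  obtain ⟨j, a, b⟩ := e
  fin_cases j <;> fin_cases k <;> simp at hk
  · exact ⟨(1, true, a), rfl, fun _ => rfl⟩
  · exact ⟨(2, true, b), rfl, fun _ => rfl⟩
  · exact ⟨(0, true, a), rfl, fun _ => rfl⟩
  · exact ⟨(2, false, b), rfl, fun _ => rfl⟩
  · exact ⟨(0, false, a), rfl, fun _ => rfl⟩
  · exact ⟨(1, false, b), rfl, fun _ => rfl⟩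

@[simp] lemma ray_fst (ρ : Ray V) (v : V) : (ray ρ v).1 = ρ.1 := by
  unfold ray; split_ifs <;> rfl

lemma ray_inj (ρ : Ray V) : Function.Injective (ray ρ) := fun v v' h => by
  unfold ray at h; split_ifs at h <;> simpa using h

lemma Cmp.ne {ρ ρ' : Ray V} (h : Cmp ρ ρ') (v v' : V) : ray ρ v ≠ ray ρ' v' := by
  intro he
  have h1 : ρ.1 = ρ'.1 := by rw [← ray_fst ρ v, he, ray_fst]
  obtain ⟨k, b, u⟩ := ρ
  obtain ⟨k', b', u'⟩ := ρ'
  rcases h with h | ⟨h, h'⟩
  · exact h h1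
  · dsimp only at h h' h1
    subst h
    cases b <;> simp_all [ray]

lemma sl_eq_ray (σ : Bool) (v s : V) : sl σ v s = ray (if σ then 1 else 2, true, v) s := rfl
lemma sl_eq_ray' (σ : Bool) (v s : V) : sl σ v s = ray (if σ then 1 else 2, false, s) v := rfl
lemma cl_eq_ray (σ : Bool) (v u : V) : cl σ v u = ray (0, σ, v) u := by cases σ <;> rfl
lemma cl_not (σ : Bool) (v u : V) : cl (!σ) u v = cl σ v u := by cases σ <;> rfl
@[simp] lemma cl_fst (σ : Bool) (v u : V) : (cl σ v u).1 = 0 := by cases σ <;> rfl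
lemma sl_fst_ne (σ : Bool) (v s : V) : (sl σ v s).1 ≠ 0 := by cases σ <;> simp [sl]
@[simp] lemma sl_snd (σ : Bool) (v s : V) : (sl σ v s).2 = (v, s) := rfl

lemma exists_sl {e : Ln V} (h : e.1 ≠ 0) : ∃ σ, e = sl σ e.2.1 e.2.2 := by
  obtain ⟨k, a, b⟩ := e
  fin_cases k
  · exact absurd rfl h
  · exact ⟨true, rfl⟩
  · exact ⟨false, rfl⟩

/-- the triples on a symbol line -/
lemma tri_sl (σ : Bool) (v s u : V) : ed 0 (tri (sl σ v s) u) = cl σ v u ∧
    (tri (sl σ v s) u).2.2 = s ∧ ed (if σ then 2 else 1) (tri (sl σ v s) u) = sl (!σ) u s := by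
  cases σ <;> simp [tri, sl, cl]

/-- the triples on a cell -/
lemma tri_cl (σ : Bool) (v u s : V) : (tri (cl σ v u) s).2.2 = s ∧
    ed (if σ then 1 else 2) (tri (cl σ v u) s) = sl σ v s ∧
    ed (if σ then 2 else 1) (tri (cl σ v u) s) = sl (!σ) u s := by
  cases σ <;> simp [tri, sl, cl]

lemma sum_ed_tg (k : Fin 3) (u v w : V) (φ : Ln V → ℝ) :
    ∑ j, φ (ed j (tg k u v w)) = φ (arc k u v) + φ (arc (k + 1) v w) + φ (arc (k + 2) w u) := by
  fin_cases k <;> simp [Fin.sum_univ_three, tg, arc] <;> ring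

lemma co_tg (k : Fin 3) (u v w : V) :
    co k (tg k u v w) = u ∧ co (k + 1) (tg k u v w) = v ∧ co (k + 2) (tg k u v w) = w := by
  fin_cases k <;> simp [co, tg]

lemma tg_co (k : Fin 3) (t : Tr V) : tg k (co k t) (co (k + 1) t) (co (k + 2) t) = t := by
  fin_cases k <;> simp [co, tg]

lemma tg_rot (k : Fin 3) (u v w : V) : tg (k + 1) v w u = tg k u v w := by
  fin_cases k <;> simp [tg]

lemma cv_arc_tg (k : Fin 3) (u v w : V) : ed (arc k u v).1 (tg k u v w) = arc k u v := by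
  fin_cases k <;> simp [tg, arc]

lemma arc_inj {k k' : Fin 3} {u v u' v' : V} (h : arc k u v = arc k' u' v') :
    k = k' ∧ u = u' ∧ v = v' := by
  fin_cases k <;> fin_cases k' <;> simp_all [arc]

lemma exists_arc (e : Ln V) : ∃ k u v, e = arc k u v := by
  obtain ⟨k, a, b⟩ := e
  fin_cases k
  · exact ⟨0, a, b, rfl⟩
  · exact ⟨2, b, a, rfl⟩
  · exact ⟨1, a, b, rfl⟩

lemma arc_ray (k : Fin 3) (u : V) :
    (∃ ρ : Ray V, ∀ v, arc k u v = ray ρ v) ∧ ∃ ρ : Ray V, ∀ v, arc k v u = ray ρ v := by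
  fin_cases k
  · exact ⟨⟨(0, true, u), fun _ => rfl⟩, (0, false, u), fun _ => rfl⟩
  · exact ⟨⟨(2, true, u), fun _ => rfl⟩, (2, false, u), fun _ => rfl⟩
  · exact ⟨⟨(1, false, u), fun _ => rfl⟩, (1, true, u), fun _ => rfl⟩

lemma ray_arc (ρ : Ray V) :
    ∃ k, (∀ v, ray ρ v = arc k ρ.2.2 v) ∨ ∀ v, ray ρ v = arc k v ρ.2.2 := by
  obtain ⟨k, b, u⟩ := ρ
  fin_cases k <;> cases b
  · exact ⟨0, Or.inr fun _ => rfl⟩
  · exact ⟨0, Or.inl fun _ => rfl⟩
  · exact ⟨2, Or.inl fun _ => rfl⟩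
  · exact ⟨2, Or.inr fun _ => rfl⟩
  · exact ⟨1, Or.inr fun _ => rfl⟩
  · exact ⟨1, Or.inl fun _ => rfl⟩

lemma cls_succ (k : ℕ) : cls (k + 1) = cls k + 1 := by
  unfold cls; ext; simp [Fin.val_add]

lemma cls_mod (k : ℕ) : cls (k % 15) = cls k := by
  unfold cls; ext; simp; omega

lemma cv_ed {F : Finset (Tr V)} {t : Tr V} (h : t ∈ F) (k : Fin 3) : Cv F (ed k t) := ⟨t, h, rfl⟩

lemma Cv.mono {F F' : Finset (Tr V)} (h : F ⊆ F') {e : Ln V} (he : Cv F e) : Cv F' e :=
  let ⟨t, ht, h'⟩ := he; ⟨t, h ht, h'⟩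

lemma not_cv_empty (e : Ln V) : ¬ Cv (∅ : Finset (Tr V)) e := fun ⟨_, h, _⟩ => by simp at h

lemma cv_union [DecidableEq V] {F F' : Finset (Tr V)} {e : Ln V} :
    Cv (F ∪ F') e ↔ Cv F e ∨ Cv F' e := by
  simp only [Cv, mem_union, or_and_right, exists_or]

lemma PL.mono {F F' : Finset (Tr V)} (h : PL F') (hs : F ⊆ F') : PL F :=
  fun t ht t' ht' => h t (hs ht) t' (hs ht')

lemma pl_empty : PL (∅ : Finset (Tr V)) := fun _ h => by simp at h

lemma PL.union [DecidableEq V] {F F' : Finset (Tr V)} (h : PL F) (h' : PL F')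
    (hd : ∀ e, Cv F e → ¬ Cv F' e) : PL (F ∪ F') := by
  intro t ht t' ht' k hk
  rcases mem_union.1 ht with a | a <;> rcases mem_union.1 ht' with b | b
  · exact h t a t' b k hk
  · exact absurd (hk ▸ cv_ed b k) (hd _ (cv_ed a k))
  · exact absurd (hk ▸ cv_ed a k) (hd _ (cv_ed b k))
  · exact h' t a t' b k hk

lemma VD.pl {F : Finset (Tr V)} (h : VD F) : PL F := fun t ht t' ht' k hk => by
  fin_cases k
  · exact h t ht t' ht' 0 (by simp [ed] at hk; simpa [co] using hk.1)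
  · exact h t ht t' ht' 0 (by simp [ed] at hk; simpa [co] using hk.1)
  · exact h t ht t' ht' 1 (by simp [ed] at hk; simp [co, hk])

variable [Fintype V]

lemma card_Ln : (Fintype.card (Ln V) : ℝ) = 3 * (Fintype.card V : ℝ) ^ 2 := by
  simp [Fintype.card_prod]; ring

lemma card_Ray : (Fintype.card (Ray V) : ℝ) = 6 * (Fintype.card V : ℝ) := by
  simp [Fintype.card_prod]; ring

lemma dg_eq (H : Tr V → Prop) (e : Ln V) : dg H e = ct fun v => H (tri e v) :=
  le_antisymm
    (ct_le_of_surj (tri e) fun t ht => by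
      obtain ⟨v, rfl⟩ := on_iff.1 ht.1
      exact ⟨v, ht.2, rfl⟩)
    (ct_le_of_inj (tri e) (fun v hv => ⟨ed_tri e v, hv⟩) fun _ _ _ _ h => tri_inj e h)

lemma dg_nonneg (H : Tr V → Prop) (e : Ln V) : 0 ≤ dg H e := ct_nonneg _

lemma dg_mono {H H' : Tr V → Prop} {e : Ln V} (h : ∀ t, ed e.1 t = e → H t → H' t) :
    dg H e ≤ dg H' e := ct_mono fun t ht => ⟨ht.1, h t ht.1 ht.2⟩

lemma VD.rayLe {F : Finset (Tr V)} (h : VD F) : RayLe (Cv F) 1 := by
  rintro ⟨k, b, u⟩
  refine ct_le_one ?_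
  rintro v v' ⟨t, ht, e⟩ ⟨t', ht', e'⟩
  have : t = t' := by
    fin_cases k <;> cases b <;> simp [ray, ed] at e e'
    · exact h t ht t' ht' 1 (by simp [co, e.2, e'.2])
    · exact h t ht t' ht' 0 (by simp [co, e.1, e'.1])
    · exact h t ht t' ht' 2 (by simp [co, e.2, e'.2])
    · exact h t ht t' ht' 0 (by simp [co, e.1, e'.1])
    · exact h t ht t' ht' 2 (by simp [co, e, e'])
    · exact h t ht t' ht' 1 (by simp [co, e, e'])
  subst this
  simp only [ray_fst] at e e'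
  exact ray_inj _ (e.symm.trans e')

/-- triples on `e` with another line in a set of small degree -/
lemma RayLe.dg_le {X : Ln V → Prop} {m : ℝ} (h : RayLe X m) (e : Ln V) :
    dg (fun t => ∃ k, k ≠ e.1 ∧ X (ed k t)) e ≤ 2 * m := by
  obtain ⟨ρ, -, hρ⟩ := ed_tri_ray e (e.1 + 1) (by
    generalize e.1 = k; revert k; decide)
  obtain ⟨ρ', -, hρ'⟩ := ed_tri_ray e (e.1 + 2) (by
    generalize e.1 = k; revert k; decide)
  rw [dg_eq]
  refine (ct_le_add (Y := fun v => X (ray ρ v)) (Z := fun v => X (ray ρ' v)) ?_).trans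
    (by linarith [h ρ, h ρ'])
  rintro v ⟨k, hk, hx⟩
  have : k = e.1 + 1 ∨ k = e.1 + 2 := by
    clear hx; revert hk; generalize e.1 = j; revert k j; decide
  rcases this with rfl | rfl
  · exact Or.inl (hρ v ▸ hx)
  · exact Or.inr (hρ' v ▸ hx)

lemma RayLe.mono {X Y : Ln V → Prop} {m m' : ℝ} (h : RayLe X m) (hX : ∀ e, Y e → X e)
    (hm : m ≤ m') : RayLe Y m' := fun ρ => ((ct_mono fun _ => hX _).trans (h ρ)).trans hm

lemma RayLe.or {X Y : Ln V → Prop} {m m' : ℝ} (h : RayLe X m) (h' : RayLe Y m') :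
    RayLe (fun e => X e ∨ Y e) (m + m') := fun ρ =>
  (ct_or_le _ _).trans (add_le_add (h ρ) (h' ρ))

/-- covered lines on a ray correspond to triples through its vertex -/
lemma PL.ct_ray {F : Finset (Tr V)} (h : PL F) (ρ : Ray V) (P : Tr V → Prop) :
    ct (fun v => ∃ t ∈ F, ed ρ.1 t = ray ρ v ∧ P t) =
      ct fun t => t ∈ F ∧ (∃ v, ed ρ.1 t = ray ρ v) ∧ P t := by
  classical
  refine le_antisymm ?_ ?_
  · by_cases hV : Nonempty V
    · have key : ∀ v, (∃ t ∈ F, ed ρ.1 t = ray ρ v ∧ P t) →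
          ∃ t, t ∈ F ∧ ed ρ.1 t = ray ρ v ∧ P t := fun v h => h
      choose! g hg using key
      exact ct_le_of_inj g (fun v hv => ⟨(hg v hv).1, ⟨v, (hg v hv).2.1⟩, (hg v hv).2.2⟩)
        fun v v' hv hv' e => ray_inj ρ (by rw [← (hg v hv).2.1, ← (hg v' hv').2.1, e])
    · rw [ct_false fun v _ => hV ⟨v⟩]; exact ct_nonneg _
  · have key : ∀ t, (t ∈ F ∧ (∃ v, ed ρ.1 t = ray ρ v) ∧ P t) → ∃ v, ed ρ.1 t = ray ρ v :=
      fun t h => h.2.1
    have : Nonempty V := ⟨ρ.2.2⟩
    choose! g hg using key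
    exact ct_le_of_inj g (fun t ht => ⟨t, ht.1, hg t ht, ht.2.2⟩) fun t t' ht ht' e =>
      h t ht.1 t' ht'.1 ρ.1 (by rw [hg t ht, hg t' ht', e])

lemma PL.bal {F : Finset (Tr V)} (h : PL F) : Bal (Cv F) 0 := by
  have key : ∀ ρ : Ray V, ct (fun v => Cv F (ray ρ v)) =
      ct fun t => t ∈ F ∧ ∃ v, ed ρ.1 t = ray ρ v := fun ρ => by
    have := h.ct_ray ρ fun _ => True
    simp only [and_true] at this
    rw [← this]
    exact ct_congr fun v => by simp [Cv]
  refine ⟨fun σ v => ?_, fun s => ?_⟩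
  · simp only [cl_eq_ray, sl_eq_ray, key, add_zero]
    exact ct_congr fun t => by cases σ <;> simp [ray, ed, Prod.ext_iff]
  · simp only [sl_eq_ray', key]
    exact ct_congr fun t => by simp [ray, ed, Prod.ext_iff]

lemma Bal.congr {U U' : Ln V → Prop} {m : ℝ} (h : Bal U m) (hU : ∀ e, U e ↔ U' e) : Bal U' m := by
  rwa [← show U = U' from funext fun e => propext (hU e)]

lemma bal_true : Bal (fun _ : Ln V => True) 0 := ⟨fun _ _ => by simp, fun _ => rfl⟩

lemma Bal.or {U U' : Ln V → Prop} {m m' : ℝ} (h : Bal U m) (h' : Bal U' m')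
    (hd : ∀ e, U e → ¬ U' e) : Bal (fun e => U e ∨ U' e) (m + m') := by
  refine ⟨fun σ v => ?_, fun s => ?_⟩
  · rw [ct_or_eq fun _ => hd _, ct_or_eq fun _ => hd _, h.1, h'.1]; ring
  · rw [ct_or_eq fun _ => hd _, ct_or_eq fun _ => hd _, h.2, h'.2]

lemma Bal.diff {U U' : Ln V → Prop} {m m' : ℝ} (h : Bal U m) (h' : Bal U' m')
    (hs : ∀ e, U' e → U e) : Bal (fun e => U e ∧ ¬ U' e) (m - m') := by
  have key : ∀ f : V → Ln V, ct (fun v => U (f v) ∧ ¬ U' (f v)) =
      ct (fun v => U (f v)) - ct fun v => U' (f v) := fun f => by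
    rw [ct_split (fun v => U (f v)) fun v => U' (f v),
      ct_congr (X := fun v => U (f v) ∧ U' (f v)) fun v => ⟨fun h => h.2, fun h => ⟨hs _ h, h⟩⟩]
    ring
  refine ⟨fun σ v => ?_, fun s => ?_⟩
  · rw [key (cl σ v), key (sl σ v), h.1, h'.1]; ring
  · rw [key fun v => sl true v s, key fun v => sl false v s, h.2, h'.2]

lemma Bal.reg {U : Ln V → Prop} {m : ℝ} (h : Bal U m) (h0 : ∀ e, U e → e.1 = 0) :
    Reg (fun r c => U (0, r, c)) m := by
  have z : ∀ σ v, ct (fun s => U (sl σ v s)) = 0 := fun σ v =>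
    ct_false fun s hs => sl_fst_ne σ v s (h0 _ hs)
  exact ⟨fun r => by simpa [z, cl] using h.1 true r, fun c => by simpa [z, cl] using h.1 false c⟩

lemma PL.card_le {F : Finset (Tr V)} (h : PL F) : (F.card : ℝ) ≤ (Fintype.card V : ℝ) ^ 2 := by
  classical
  rw [← ct_mem]
  refine (ct_le_of_inj (Y := fun _ : V × V => True) (fun t => (t.1, t.2.1)) (fun _ _ => trivial)
    fun t t' ht ht' e => h t ht t' ht' 0 (by simpa using e)).trans ?_
  rw [ct_true]; simp [sq]

lemma PL.dv_le {F : Finset (Tr V)} (h : PL F) (k : Fin 3) (v : V) :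
    dv F k v ≤ Fintype.card V := by
  rw [dv, sum_mem_ind]
  refine (ct_le_of_inj (Y := fun _ : V => True) (co (k + 1)) (fun _ _ => trivial)
    fun t t' ht ht' e => ?_).trans ct_true.le
  have e1 := cv_arc_tg k (co k t) (co (k + 1) t) (co (k + 2) t)
  have e2 := cv_arc_tg k (co k t') (co (k + 1) t') (co (k + 2) t')
  rw [tg_co] at e1 e2
  rw [ht'.2, ← e, ← ht.2] at e2
  exact h t ht.1 t' ht'.1 _ (e1.trans e2.symm)

omit [Fintype V] in
lemma dv_nonneg (F : Finset (Tr V)) (k : Fin 3) (v : V) : 0 ≤ dv F k v :=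
  sum_nonneg fun _ _ => ind_nonneg _

lemma sum_dv (F : Finset (Tr V)) (k : Fin 3) : ∑ v, dv F k v = F.card := by
  unfold dv
  rw [sum_comm, sum_congr rfl fun t _ => show ∑ v, ind (co k t = v) = 1 from
    (ct_congr fun v => eq_comm).trans (ct_eq (co k t))]
  simp

omit [Fintype V] in
/-- an indexed family that covers the lines of `U` once and no other line -/
lemma dec_image [DecidableEq V] {ι : Type} (s : Finset ι) (f : ι → Tr V) (U : Ln V → Prop)
    (h : ∀ e : Ln V, ∑ i ∈ s, ind (ed e.1 (f i) = e) = ind (U e)) : Dec (s.image f) U := by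
  classical
  refine ⟨fun t ht t' ht' k hk => ?_, fun e => ⟨?_, fun hU => ?_⟩⟩
  · obtain ⟨i, hi, rfl⟩ := mem_image.1 ht
    obtain ⟨i', hi', rfl⟩ := mem_image.1 ht'
    by_contra hne
    have hii : i ≠ i' := fun h => hne (h ▸ rfl)
    have h1 := sum_le_sum_of_subset_of_nonneg (f := fun j => ind (ed k (f j) = ed k (f i)))
      (show ({i, i'} : Finset ι) ⊆ s by simp [insert_subset_iff, hi, hi'])
      fun _ _ _ => ind_nonneg _
    rw [sum_pair hii, ind_pos rfl, ind_pos hk.symm] at h1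
    have h2 := h (ed k (f i))
    simp only [ed_fst] at h2
    linarith [ind_le_one (U (ed k (f i)))]
  · rintro ⟨t, ht, he⟩
    obtain ⟨i, hi, rfl⟩ := mem_image.1 ht
    by_contra hU
    have h1 := single_le_sum (f := fun j => ind (ed e.1 (f j) = e)) (fun _ _ => ind_nonneg _) hi
    rw [h e, ind_neg hU] at h1
    simp only [ind_pos he] at h1
    linarith
  · by_contra hc
    have := h e
    rw [ind_pos hU, sum_eq_zero fun i hi => ind_neg fun he => hc ⟨f i, mem_image_of_mem f hi, he⟩]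
      at this
    exact zero_ne_one this

end Lines

/-- polynomials are eventually below exponentials -/
lemma ev_pow (C : ℝ) (k : ℕ) {c : ℝ} (hc : 0 < c) :
    ∀ᶠ L : ℝ in atTop, C * L ^ k ≤ exp (c * L) := by
  have h := (tendsto_exp_mul_div_rpow_atTop k c hc).eventually_ge_atTop C
  filter_upwards [h, eventually_gt_atTop 0] with L h hL
  rwa [rpow_natCast, le_div_iff₀ (by positivity)] at h

/-- a smaller exponential with polynomial factor is eventually below a larger one -/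
lemma ev_exp (C : ℝ) (k : ℕ) {a b : ℝ} (h : a < b) :
    ∀ᶠ L : ℝ in atTop, C * L ^ k * exp (a * L) ≤ exp (b * L) := by
  filter_upwards [ev_pow C k (sub_pos.2 h)] with L hL
  calc C * L ^ k * exp (a * L) ≤ exp ((b - a) * L) * exp (a * L) :=
        mul_le_mul_of_nonneg_right hL (exp_pos _).le
    _ = _ := by rw [← exp_add]; congr 1; ring

end Pool.Agent.MP_46aeaf_co.HT

end

-- part MP_46aeaf_co.LS.Tools
section

set_option autoImplicit false
set_option linter.unusedSectionVars false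
set_option linter.unusedVariables false

/-! Concentration inequalities on finite product spaces. -/

namespace Pool.Agent.MP_46aeaf_co.HT

open Finset Pool.Agent.MP_81e6aa_pr Real Filter

variable {I α : Type} [Fintype I] [DecidableEq I] [Fintype α] {w : I → α → ℝ}

/-- Resample one coordinate. -/
theorem Ex_update (hw : IsP w) (i : I) (F : (I → α) → ℝ) :
    Ex w F = Ex w fun x => ∑ a, w i a * F (Function.update x i a) := by
  rw [Ex_splice hw (· ≠ i) F]
  refine Ex_congr fun x => ?_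
  have h := Ex_all w hw {i} (fun _ a => F (Function.update x i a))
  simp only [prod_singleton] at h
  rw [← h]
  refine Ex_congr fun y => congrArg F (funext fun j => ?_)
  by_cases hj : j = i
  · subst hj; simp [splice]
  · simp [splice, hj]

theorem Ex_sumIdx {J : Type} [Fintype J] [DecidableEq J] (w : I → α → ℝ) (w' : J → α → ℝ)
    (F : (I ⊕ J → α) → ℝ) :
    Ex (Sum.elim w w') F = Ex w fun x => Ex w' fun z => F (Sum.elim x z) := by
  unfold Ex
  rw [← Equiv.sum_comp (Equiv.sumArrowEquivProdArrow I J α).symm, Fintype.sum_prod_type]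
  refine sum_congr rfl fun x _ => ?_
  rw [mul_sum]
  refine sum_congr rfl fun z _ => ?_
  rw [Fintype.prod_sum_type, mul_assoc]
  rfl

lemma conc_step {q u v c s : ℝ} (h0 : 0 ≤ q) (hc : |u - v| ≤ c) (hs : |s| * c ≤ 1) :
    q * exp (s * (u - (q * u + (1 - q) * v))) + (1 - q) * exp (s * (v - (q * u + (1 - q) * v))) ≤
      exp (s ^ 2 * (q * c ^ 2)) := by
  have h1 : |s * (u - v)| ≤ |s| * c := by
    rw [abs_mul]; exact mul_le_mul_of_nonneg_left hc (abs_nonneg _)
  have h2 := (abs_le.1 (Real.abs_exp_sub_one_sub_id_le (h1.trans hs))).2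
  have h3 : (s * (u - v)) ^ 2 ≤ s ^ 2 * c ^ 2 := by
    rw [← sq_abs (s * (u - v)), ← sq_abs s, ← mul_pow]
    exact pow_le_pow_left₀ (abs_nonneg _) h1 2
  have e1 : exp (s * (u - (q * u + (1 - q) * v))) =
      exp (-(q * (s * (u - v)))) * exp (s * (u - v)) := by
    rw [← exp_add]; congr 1; ring
  have e2 : exp (s * (v - (q * u + (1 - q) * v))) = exp (-(q * (s * (u - v)))) := by
    congr 1; ring
  rw [e1, e2]
  generalize s * (u - v) = d at *
  calc q * (exp (-(q * d)) * exp d) + (1 - q) * exp (-(q * d))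
      = exp (-(q * d)) * (q * (exp d - 1) + 1) := by ring
    _ ≤ exp (-(q * d)) * exp (q * (exp d - 1)) :=
        mul_le_mul_of_nonneg_left (add_one_le_exp _) (exp_pos _).le
    _ ≤ _ := by
        rw [← exp_add, exp_le_exp]
        have := mul_le_mul_of_nonneg_left (h2.trans h3) h0
        linarith

lemma conc_mgf {q c : I → ℝ} (h0 : ∀ i, 0 ≤ q i) (h1 : ∀ i, q i ≤ 1) {s : ℝ}
    (hsc : ∀ i, |s| * c i ≤ 1) (A : Finset I) : ∀ f : (I → Bool) → ℝ, Dep (· ∈ A) f →
    (∀ x i, |f (Function.update x i true) - f (Function.update x i false)| ≤ c i) →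
    Ex (fun i => bern (q i)) (fun x => exp (s * (f x - Ex (fun i => bern (q i)) f))) ≤
      exp (s ^ 2 * ∑ i ∈ A, q i * c i ^ 2) := by
  have hw := isP_bern h0 h1
  induction A using Finset.induction_on with
  | empty =>
    intro f hf _
    refine Ex_le hw fun x => le_of_eq ?_
    have : Ex (fun i => bern (q i)) f = f x := by
      rw [← Ex_const hw (f x)]
      exact Ex_congr fun y => hf y x fun i hi => by simp at hi
    rw [this]; simp
  | insert i A hi ih =>
    intro f hf hc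
    set g : (I → Bool) → ℝ := fun x =>
      q i * f (Function.update x i true) + (1 - q i) * f (Function.update x i false) with hg
    have hE : Ex (fun i => bern (q i)) f = Ex (fun i => bern (q i)) g := by
      rw [Ex_update hw i f]
      exact Ex_congr fun x => by simp [hg, bern]
    have hd : Dep (· ∈ A) g := by
      intro x y hxy
      have : ∀ a, f (Function.update x i a) = f (Function.update y i a) := fun a =>
        hf _ _ fun j hj => by
          by_cases hji : j = i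
          · subst hji; simp
          · simp only [Function.update_of_ne hji]
            exact hxy j ((mem_insert.1 hj).resolve_left hji)
      simp only [hg, this]
    have hgc : ∀ x j, |g (Function.update x j true) - g (Function.update x j false)| ≤ c j := by
      intro x j
      by_cases hji : j = i
      · subst hji
        simp only [hg, Function.update_idem, sub_self, abs_zero]
        exact (abs_nonneg _).trans (hc x j)
      · simp only [hg, Function.update_comm hji]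
        have a1 := abs_le.1 (hc (Function.update x i true) j)
        have a2 := abs_le.1 (hc (Function.update x i false) j)
        have b1 := mul_le_mul_of_nonneg_left a1.1 (h0 i)
        have b2 := mul_le_mul_of_nonneg_left a1.2 (h0 i)
        have b3 := mul_le_mul_of_nonneg_left a2.1 (sub_nonneg.2 (h1 i))
        have b4 := mul_le_mul_of_nonneg_left a2.2 (sub_nonneg.2 (h1 i))
        rw [abs_le]; constructor <;> linarith
    have ih' := ih g hd hgc
    rw [Ex_update hw i, hE, sum_insert hi, mul_add, exp_add]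
    refine le_trans (Ex_mono hw.nonneg (G := fun x => exp (s ^ 2 * (q i * c i ^ 2)) *
      exp (s * (g x - Ex (fun i => bern (q i)) g))) fun x => ?_) ?_
    · have hs := conc_step (h0 i) (hc x i) (hsc i)
      refine le_trans (le_of_eq ?_) (mul_le_mul_of_nonneg_right hs (exp_pos _).le)
      have e : ∀ u : ℝ, exp (s * (u - Ex (fun i => bern (q i)) g)) =
          exp (s * (u - g x)) * exp (s * (g x - Ex (fun i => bern (q i)) g)) := fun u => by
        rw [← exp_add]; congr 1; ring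
      simp only [Fintype.univ_bool, mem_singleton, Bool.true_eq_false, not_false_eq_true,
        sum_insert, sum_singleton, bern, if_true, Bool.false_eq_true, if_false]
      rw [e (f _), e (f (Function.update x i false))]
      simp only [hg]
      ring
    · rw [Ex_smul]
      exact mul_le_mul_of_nonneg_left ih' (exp_pos _).le

/-- Bounded differences with variance. -/
theorem bd_tail {q c : I → ℝ} (h0 : ∀ i, 0 ≤ q i) (h1 : ∀ i, q i ≤ 1) (f : (I → Bool) → ℝ)
    (hc : ∀ x i, |f (Function.update x i true) - f (Function.update x i false)| ≤ c i)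
    {s t B : ℝ} (hs : 0 ≤ s) (hsc : ∀ i, s * c i ≤ 1) (hB : ∑ i, q i * c i ^ 2 ≤ B) :
    Ex (fun i => bern (q i)) (fun x => ind (t ≤ |f x - Ex (fun i => bern (q i)) f|)) ≤
      2 * exp (-(s * t) + s ^ 2 * B) := by
  have hw := isP_bern h0 h1
  have hd : Dep (· ∈ (univ : Finset I)) f := fun x y h =>
    congrArg f (funext fun i => h i (mem_univ _))
  have m1 := conc_mgf h0 h1 (s := s) (fun i => by rw [abs_of_nonneg hs]; exact hsc i) univ f hd hc
  have m2 := conc_mgf h0 h1 (s := -s)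
    (fun i => by rw [abs_neg, abs_of_nonneg hs]; exact hsc i) univ f hd hc
  rw [neg_sq] at m2
  have m3 : exp (s ^ 2 * ∑ i, q i * c i ^ 2) ≤ exp (s ^ 2 * B) :=
    exp_le_exp.2 (mul_le_mul_of_nonneg_left hB (sq_nonneg s))
  generalize Ex (fun i => bern (q i)) f = m at *
  calc _ ≤ Ex (fun i => bern (q i)) (fun x => exp (-(s * t)) *
        (exp (s * (f x - m)) + exp (-s * (f x - m)))) := by
        refine Ex_mono hw.nonneg fun x => ind_le (by positivity) fun h => ?_
        rw [mul_add, ← exp_add, ← exp_add]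
        rcases le_abs.1 h with h | h
        · have := mul_le_mul_of_nonneg_left h hs
          linarith [one_le_exp (show 0 ≤ -(s * t) + s * (f x - m) by linarith),
            exp_pos (-(s * t) + -s * (f x - m))]
        · have := mul_le_mul_of_nonneg_left h hs
          linarith [one_le_exp (show 0 ≤ -(s * t) + -s * (f x - m) by linarith),
            exp_pos (-(s * t) + s * (f x - m))]
    _ ≤ exp (-(s * t)) * (exp (s ^ 2 * B) + exp (s ^ 2 * B)) := by
        rw [Ex_smul, Ex_add]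
        exact mul_le_mul_of_nonneg_left (add_le_add (m1.trans m3) (m2.trans m3)) (exp_pos _).le
    _ = _ := by rw [exp_add]; ring

/-- Exponential supermartingale. -/
theorem sm_mgf {p : ℝ} (h0 : 0 ≤ p) (h1 : p ≤ 1) (rk : I → ℕ) (hrk : Function.Injective rk)
    (y : I → (I → Bool) → ℝ) (hy : ∀ i, Dep (fun j => rk j < rk i) (y i)) :
    Ex (fun _ : I => bern p) (fun x =>
      exp (∑ i, (ind (x i = true) * y i x - p * (exp (y i x) - 1)))) ≤ 1 := by
  have hw : IsP (fun _ : I => bern p) := isP_bern (fun _ => h0) (fun _ => h1)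
  generalize (univ : Finset I) = A
  induction A using Finset.induction_on_max_value rk with
  | empty => simpa using (Ex_const hw 1).le
  | insert i A hi hmax ih =>
    rw [Ex_update hw i]
    refine le_trans (Ex_mono hw.nonneg fun x => ?_) ih
    have hu : ∀ j, rk j ≤ rk i → ∀ a, y j (Function.update x i a) = y j x := fun j hj a =>
      hy j _ _ fun k hk => Function.update_of_ne (by rintro rfl; omega) _ _
    have hS : ∀ a, ∑ j ∈ A, (ind (Function.update x i a j = true) * y j (Function.update x i a) -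
        p * (exp (y j (Function.update x i a)) - 1)) =
        ∑ j ∈ A, (ind (x j = true) * y j x - p * (exp (y j x) - 1)) := fun a =>
      sum_congr rfl fun j hj => by
        rw [hu j (hmax j hj), Function.update_of_ne (by rintro rfl; exact hi hj)]
    simp only [sum_insert hi, hS, hu i le_rfl, Function.update_self]
    generalize ∑ j ∈ A, (ind (x j = true) * y j x - p * (exp (y j x) - 1)) = S
    generalize y i x = u
    simp only [Fintype.univ_bool, mem_singleton, Bool.true_eq_false, not_false_eq_true,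
      sum_insert, sum_singleton, bern, if_true, Bool.false_eq_true, if_false, ind_pos trivial,
      ind_neg not_false, one_mul, zero_mul, zero_sub]
    have e1 : exp (u - p * (exp u - 1) + S) = exp u * exp (-(p * (exp u - 1)) + S) := by
      rw [← exp_add]; congr 1; ring
    have e2 : exp S = exp (p * (exp u - 1)) * exp (-(p * (exp u - 1)) + S) := by
      rw [← exp_add]; congr 1; ring
    rw [e1, e2]
    have := mul_le_mul_of_nonneg_right (add_one_le_exp (p * (exp u - 1)))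
      (exp_pos (-(p * (exp u - 1)) + S)).le
    linarith

/-- A sample of rate `p` contains two independent samples. -/
theorem Ex_split {p p₁ p₂ : ℝ} (h1 : 0 ≤ p₁) (h2 : 0 ≤ p₂) (h : p₁ + p₂ ≤ p) (hp : p ≤ 1)
    (F : (I → Bool) → ℝ) (hF : ∀ x y : I → Bool, (∀ i, x i = true → y i = true) → F y ≤ F x) :
    Ex (fun _ : I => bern p) F ≤
      Ex (fun _ : I => bern p₁) fun x => Ex (fun _ : I => bern p₂) fun y =>
        F fun i => x i || y i := by
  rw [← Ex_union]
  refine Ex_dom I _ _ (fun _ a b => b = true → a = true) (fun _ g k hg => ?_) F F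
    fun x y hxy => hF y x hxy
  have r0 : 0 ≤ p₁ + (1 - p₁) * p₂ := add_nonneg h1 (mul_nonneg (by linarith) h2)
  have r1 : p₁ + (1 - p₁) * p₂ ≤ p := by linarith [mul_nonneg h1 h2]
  generalize p₁ + (1 - p₁) * p₂ = r at *
  have b1 := mul_le_mul_of_nonneg_left (hg true true id) r0
  have b2 := mul_le_mul_of_nonneg_left (hg true false fun _ => rfl) (sub_nonneg.2 r1)
  have b3 := mul_le_mul_of_nonneg_left (hg false false id) (sub_nonneg.2 hp)
  simp only [Fintype.univ_bool, mem_singleton, Bool.true_eq_false, not_false_eq_true,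
    sum_insert, sum_singleton, bern, if_true, Bool.false_eq_true, if_false]
  linarith

lemma conc_mgf2 (hw : IsP w) {κ : Type} [Fintype κ] (A : κ → I → Prop) (ev : κ → (I → α) → Prop)
    (hdep : ∀ v, Dep (A v) fun x => ind (ev v x)) (hdis : ∀ v v' i, A v i → A v' i → v = v')
    (s : ℝ) : Ex w (fun x => exp (s * ∑ v, ind (ev v x))) ≤
      exp ((exp s - 1) * ∑ v, Ex w fun x => ind (ev v x)) := by
  simp only [mul_sum, exp_sum]
  rw [Ex_prod_indep hw univ A (fun v x => exp (s * ind (ev v x)))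
    (fun v _ x y h => by simp only [hdep v x y h]) fun v _ v' _ => hdis v v']
  refine prod_le_prod (fun v _ => Ex_nonneg hw.nonneg fun _ => (exp_pos _).le) fun v _ => ?_
  have e : ∀ x, exp (s * ind (ev v x)) = (exp s - 1) * ind (ev v x) + 1 := fun x => by
    by_cases h : ev v x <;> simp [ind, h]
  simp only [e]
  rw [Ex_add, Ex_smul, Ex_const hw]
  exact add_one_le_exp _

/-- Two-sided Chernoff bound for events on disjoint blocks. -/
theorem chern2 (hw : IsP w) {κ : Type} [Fintype κ] (A : κ → I → Prop) (ev : κ → (I → α) → Prop)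
    (hdep : ∀ v, Dep (A v) fun x => ind (ev v x)) (hdis : ∀ v v' i, A v i → A v' i → v = v')
    {ζ σ μ : ℝ} (hμ : μ = ∑ v, Ex w fun x => ind (ev v x)) (h0 : 0 ≤ ζ) (h1 : ζ ≤ 1) :
    Ex w (fun x => ind (ζ * μ + σ < |∑ v, ind (ev v x) - μ|)) ≤ 2 * exp (-(ζ * σ)) := by
  have m1 := conc_mgf2 hw A ev hdep hdis ζ
  have m2 := conc_mgf2 hw A ev hdep hdis (-ζ)
  rw [← hμ] at m1 m2
  have μ0 : 0 ≤ μ := hμ ▸ sum_nonneg fun _ _ => Ex_nonneg hw.nonneg fun _ => ind_nonneg _
  have a1 := (abs_le.1 (Real.abs_exp_sub_one_sub_id_le (x := ζ) (by rwa [abs_of_nonneg h0]))).2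
  have a2 := (abs_le.1 (Real.abs_exp_sub_one_sub_id_le (x := -ζ)
    (by rwa [abs_neg, abs_of_nonneg h0]))).2
  have b1 := mul_le_mul_of_nonneg_right a1 μ0
  have b2 := mul_le_mul_of_nonneg_right a2 μ0
  calc _ ≤ Ex w (fun x => exp (-(ζ * (μ + ζ * μ + σ))) * exp (ζ * ∑ v, ind (ev v x)) +
        exp (ζ * (μ - ζ * μ - σ)) * exp (-ζ * ∑ v, ind (ev v x))) := by
        refine Ex_mono hw.nonneg fun x => ind_le (by positivity) fun h => ?_
        generalize ∑ v, ind (ev v x) = X at *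
        rw [← exp_add, ← exp_add]
        rcases lt_abs.1 h with h | h
        · have := mul_le_mul_of_nonneg_left h.le h0
          linarith [one_le_exp (show 0 ≤ -(ζ * (μ + ζ * μ + σ)) + ζ * X by linarith),
            exp_pos (ζ * (μ - ζ * μ - σ) + -ζ * X)]
        · have := mul_le_mul_of_nonneg_left h.le h0
          linarith [one_le_exp (show 0 ≤ ζ * (μ - ζ * μ - σ) + -ζ * X by linarith),
            exp_pos (-(ζ * (μ + ζ * μ + σ)) + ζ * X)]
    _ ≤ exp (-(ζ * (μ + ζ * μ + σ))) * exp ((exp ζ - 1) * μ) +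
        exp (ζ * (μ - ζ * μ - σ)) * exp ((exp (-ζ) - 1) * μ) := by
        rw [Ex_add, Ex_smul, Ex_smul]
        exact add_le_add (mul_le_mul_of_nonneg_left m1 (exp_pos _).le)
          (mul_le_mul_of_nonneg_left m2 (exp_pos _).le)
    _ ≤ exp (-(ζ * σ)) + exp (-(ζ * σ)) := by
        rw [← exp_add, ← exp_add]
        exact add_le_add (exp_le_exp.2 (by linarith)) (exp_le_exp.2 (by linarith))
    _ = _ := by ring

/-- Upper tail for events on disjoint blocks. -/
theorem upper_indep (hw : IsP w) {κ : Type} [Fintype κ] (A : κ → I → Prop)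
    (ev : κ → (I → α) → Prop) (hdep : ∀ v, Dep (A v) fun x => ind (ev v x))
    (hdis : ∀ v v' i, A v i → A v' i → v = v') {p s j : ℝ}
    (hp : ∀ v, Ex w (fun x => ind (ev v x)) ≤ p) (hs : 0 ≤ s) :
    Ex w (fun x => ind (j ≤ ∑ v, ind (ev v x))) ≤
      exp (-(s * j) + exp s * p * Fintype.card κ) := by
  have m1 := conc_mgf2 hw A ev hdep hdis s
  have μ0 : 0 ≤ ∑ v, Ex w fun x => ind (ev v x) :=
    sum_nonneg fun _ _ => Ex_nonneg hw.nonneg fun _ => ind_nonneg _
  have μ1 : ∑ v, Ex w (fun x => ind (ev v x)) ≤ p * Fintype.card κ := by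
    refine (sum_le_sum fun v _ => hp v).trans (le_of_eq ?_)
    rw [sum_const, card_univ, nsmul_eq_mul, mul_comm]
  have μ2 := mul_le_mul_of_nonneg_left μ1 (exp_pos s).le
  calc _ ≤ Ex w (fun x => exp (-(s * j)) * exp (s * ∑ v, ind (ev v x))) := by
        refine Ex_mono hw.nonneg fun x => ind_le (by positivity) fun h => ?_
        rw [← exp_add]
        have := mul_le_mul_of_nonneg_left h hs
        exact one_le_exp (by linarith)
    _ ≤ exp (-(s * j)) * exp ((exp s - 1) * ∑ v, Ex w fun x => ind (ev v x)) := by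
        rw [Ex_smul]
        exact mul_le_mul_of_nonneg_left m1 (exp_pos _).le
    _ ≤ _ := by
        rw [← exp_add, exp_le_exp]
        linarith

end Pool.Agent.MP_46aeaf_co.HT

/-! Spread random sets. -/

namespace Pool.Agent.MP_46aeaf_co.HT

open Finset Pool.Agent.MP_81e6aa_pr Real Filter

variable {Ω : Type} [Fintype Ω] {q : Ω → ℝ} {ε : ℝ} {P : Finset Ω → Prop}

/-- Push forward: use the weights `fun G => Av μ (fun a => ind (F a = G))`. -/
theorem Ach.of {α : Type} [Fintype α] {μ : α → ℝ} (hμ : Pm μ) (F : α → Finset Ω)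
    (hs : ∀ S : Finset Ω, Av μ (fun a => ind (S ⊆ F a)) ≤ ∏ t ∈ S, q t)
    (hf : Av μ (fun a => ind (¬ P (F a))) ≤ ε) : Ach q ε P := by
  classical
  have key : ∀ f : Finset Ω → ℝ,
      Av (fun G => Av μ (fun a => ind (F a = G))) f = Av μ fun a => f (F a) := fun f => by
    have h1 : ∀ G, Av μ (fun a => ind (F a = G)) * f G = Av μ fun a => ind (F a = G) * f G :=
      fun G => (Av_mul_const _ _).symm
    have h2 : Av (fun G => Av μ (fun a => ind (F a = G))) f =
        ∑ G, Av μ fun a => ind (F a = G) * f G := sum_congr rfl fun G _ => h1 G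
    rw [h2, ← Av_sum]
    refine Av_congr fun a => ?_
    rw [sum_eq_single (F a)]
    · rw [ind_pos rfl, one_mul]
    · intro G _ hG
      rw [ind_neg fun h => hG h.symm, zero_mul]
    · intro h
      exact absurd (mem_univ _) h
  refine ⟨fun G => Av μ (fun a => ind (F a = G)),
    ⟨fun G => Av_nonneg hμ.nonneg fun _ => ind_nonneg _, ?_⟩, fun S => ?_, ?_⟩
  · have := key fun _ => 1
    rw [Av_const hμ] at this
    rw [← this]
    exact sum_congr rfl fun G _ => (mul_one _).symm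
  · rw [key]; exact hs S
  · rw [key]; exact hf

/-- Take `S = {t}`. -/
theorem Ach.nonneg (h : Ach q ε P) (t : Ω) : 0 ≤ q t := by
  obtain ⟨μ, hμ, hs, -⟩ := h
  have := hs {t}
  rw [prod_singleton] at this
  exact (Av_nonneg hμ.nonneg fun _ => ind_nonneg _).trans this

theorem Ach.eps_nonneg (h : Ach q ε P) : 0 ≤ ε := by
  obtain ⟨μ, hμ, -, hf⟩ := h
  exact (Av_nonneg hμ.nonneg fun _ => ind_nonneg _).trans hf

theorem Ach.mono (h : Ach q ε P) {q' : Ω → ℝ} {ε' : ℝ} {P' : Finset Ω → Prop}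
    (hq : ∀ t, q t ≤ q' t) (hε : ε ≤ ε') (hP : ∀ F, P F → P' F) : Ach q' ε' P' := by
  have h0 := h.nonneg
  obtain ⟨μ, hμ, hs, hf⟩ := h
  refine ⟨μ, hμ, fun S => (hs S).trans (prod_le_prod (fun t _ => h0 t) fun t _ => hq t), ?_⟩
  exact ((Av_mono hμ.nonneg fun F => ind_mono fun h h' => h (hP F h')).trans hf).trans hε

/-- The empty set. -/
theorem Ach.pure (hq : ∀ t, 0 ≤ q t) (hP : P ∅) : Ach q 0 P := by
  refine Ach.of (pm_unif Unit) (fun _ => ∅) (fun S => Av_le (pm_unif Unit) fun _ => ?_)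
    (Av_le (pm_unif Unit) fun _ => (ind_neg (not_not.2 hP)).le)
  refine ind_le (prod_nonneg fun t _ => hq t) fun h => ?_
  rw [subset_empty.1 h, prod_empty]

theorem Ach.exists (h : Ach q ε P) (hε : ε < 1) : ∃ F, P F := by
  obtain ⟨μ, hμ, -, hf⟩ := h
  by_contra hn
  have : Av μ (fun F => ind (¬ P F)) = 1 := by
    rw [Av_congr fun F => ind_pos fun h => hn ⟨F, h⟩, Av_const hμ]
  linarith

/-- Choose `F₁`, then `F₂` (the empty set if `P₁ F₁` fails).  If `S ⊆ F₁ ∪ F₂` then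
`S₁ ⊆ F₁` and `S \ S₁ ⊆ F₂` for `S₁ = S ∩ F₁ ∈ S.powerset`; finish with `Finset.prod_add`. -/
theorem Ach.bind [DecidableEq Ω] {q₁ q₂ : Ω → ℝ} {ε₁ ε₂ : ℝ} {P₁ : Finset Ω → Prop}
    {P₂ : Finset Ω → Finset Ω → Prop} (h₁ : Ach q₁ ε₁ P₁) (hq : ∀ t, 0 ≤ q₂ t) (hε : 0 ≤ ε₂)
    (h₂ : ∀ F₁, P₁ F₁ → Ach q₂ ε₂ (P₂ F₁)) :
    Ach (fun t => q₁ t + q₂ t) (ε₁ + ε₂)
      fun F => ∃ F₁ F₂, F = F₁ ∪ F₂ ∧ P₁ F₁ ∧ P₂ F₁ F₂ := by
  have h₃ : ∀ F₁, Ach q₂ ε₂ fun F₂ => P₁ F₁ → P₂ F₁ F₂ := fun F₁ => by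
    by_cases hF : P₁ F₁
    · exact (h₂ F₁ hF).mono (fun _ => le_rfl) le_rfl fun _ h _ => h
    · exact (Ach.pure (P := fun F₂ => P₁ F₁ → P₂ F₁ F₂) hq fun h => absurd h hF).mono
        (fun _ => le_rfl) hε fun _ h => h
  choose ν hν hνs hνf using h₃
  obtain ⟨μ, hμ, hs, hf⟩ := h₁
  have key : ∀ f : Finset Ω × Finset Ω → ℝ, Av (fun p => μ p.1 * ν p.1 p.2) f =
      Av μ fun a => Av (ν a) fun b => f (a, b) := fun f => by
    unfold Av
    rw [Fintype.sum_prod_type]
    refine sum_congr rfl fun a _ => ?_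
    rw [mul_sum]
    exact sum_congr rfl fun b _ => mul_assoc _ _ _
  have hpm : Pm fun p : Finset Ω × Finset Ω => μ p.1 * ν p.1 p.2 := by
    refine ⟨fun p => mul_nonneg (hμ.nonneg _) ((hν _).nonneg _), ?_⟩
    rw [Fintype.sum_prod_type, ← hμ.sum]
    refine sum_congr rfl fun a _ => ?_
    dsimp only
    rw [← mul_sum, (hν a).sum, mul_one]
  refine Ach.of hpm (fun p => p.1 ∪ p.2) (fun S => ?_) ?_
  · rw [key, prod_add]
    have h1 : ∀ a b : Finset Ω, ind (S ⊆ a ∪ b) ≤
        ∑ T ∈ S.powerset, ind (T ⊆ a) * ind (S \ T ⊆ b) := fun a b => by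
      refine ind_le (sum_nonneg fun _ _ => mul_nonneg (ind_nonneg _) (ind_nonneg _)) fun h => ?_
      have hm : S ∩ a ∈ S.powerset := mem_powerset.2 inter_subset_left
      refine le_trans ?_ (single_le_sum (f := fun T => ind (T ⊆ a) * ind (S \ T ⊆ b))
        (fun _ _ => mul_nonneg (ind_nonneg _) (ind_nonneg _)) hm)
      have h2 : S \ (S ∩ a) ⊆ b := fun t ht => by
        rw [Finset.mem_sdiff, mem_inter] at ht
        exact (mem_union.1 (h ht.1)).resolve_left fun h' => ht.2 ⟨ht.1, h'⟩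
      simp only [ind_pos (inter_subset_right : S ∩ a ⊆ a), ind_pos h2, one_mul, le_refl]
    have h2 : ∀ a : Finset Ω, Av (ν a) (fun b => ind (S ⊆ a ∪ b)) ≤
        ∑ T ∈ S.powerset, ind (T ⊆ a) * ∏ t ∈ S \ T, q₂ t := fun a => by
      refine (Av_mono (hν a).nonneg (h1 a)).trans ?_
      rw [Av_sum]
      refine sum_le_sum fun T _ => ?_
      rw [Av_smul]
      exact mul_le_mul_of_nonneg_left (hνs a _) (ind_nonneg _)
    refine (Av_mono hμ.nonneg h2).trans ?_
    rw [Av_sum]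
    refine sum_le_sum fun T _ => ?_
    rw [Av_mul_const]
    exact mul_le_mul_of_nonneg_right (hs T) (prod_nonneg fun t _ => hq t)
  · rw [key]
    have h1 : ∀ a : Finset Ω, Av (ν a) (fun b => ind (¬ ∃ F₁ F₂, a ∪ b = F₁ ∪ F₂ ∧ P₁ F₁ ∧
        P₂ F₁ F₂)) ≤ ind (¬ P₁ a) + ε₂ := fun a => by
      refine (Av_mono (hν a).nonneg (g := fun b => ind (¬ P₁ a) + ind (¬ (P₁ a → P₂ a b)))
        fun b => ?_).trans ?_
      · refine le_trans (ind_mono fun h => ?_) (ind_or_le _ _)
        by_contra hc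
        rw [not_or, not_not, not_not] at hc
        exact h ⟨a, b, rfl, hc.1, hc.2 hc.1⟩
      · rw [Av_add, Av_const (hν a)]
        exact add_le_add le_rfl (hνf a)
    refine (Av_mono hμ.nonneg h1).trans ?_
    rw [Av_add, Av_const hμ]
    exact add_le_add hf le_rfl

/-- Upper tails come for free: `exp |F ∩ X| = ∑ S ⊆ X, (e - 1) ^ |S| * ind (S ⊆ F)`
(`Finset.prod_one_add`), so its mean is at most `∏ t ∈ X, (1 + (e - 1) q t) ≤ exp (2 ∑ q)`. -/
theorem Ach.tail (h : Ach q ε P) {J : Type} [Fintype J] (X : J → Ω → Prop) (σ : ℝ) :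
    Ach q (ε + Fintype.card J * exp (-σ)) fun F => P F ∧
      ∀ j, ∑ t ∈ F, ind (X j t) ≤ 2 * ∑ t, ind (X j t) * q t + σ := by
  classical
  have h0 := h.nonneg
  obtain ⟨μ, hμ, hs, hf⟩ := h
  have he : 0 ≤ exp 1 - 1 := by linarith [add_one_le_exp (1 : ℝ)]
  have he2 : exp 1 - 1 ≤ 2 := by linarith [exp_one_lt_d9]
  have mgf : ∀ j, Av μ (fun F => exp (∑ t ∈ F, ind (X j t))) ≤
      exp (2 * ∑ t, ind (X j t) * q t) := fun j => by
    have h1 : ∀ F : Finset Ω, exp (∑ t ∈ F, ind (X j t)) =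
        ∑ S ∈ (univ : Finset Ω).powerset,
          (∏ t ∈ S, ((exp 1 - 1) * ind (X j t))) * ind (S ⊆ F) := fun F => by
      have h2 : ∀ S : Finset Ω, (∏ t ∈ S, ((exp 1 - 1) * ind (X j t))) * ind (S ⊆ F) =
          ∏ t ∈ S, ((exp 1 - 1) * ind (X j t) * ind (t ∈ F)) := fun S => by
        rw [prod_mul_distrib (f := fun t => (exp 1 - 1) * ind (X j t)), ← ind_forall]
        rfl
      rw [sum_congr rfl fun S _ => h2 S, ← prod_one_add, sum_mem_ind, ct, exp_sum]
      refine prod_congr rfl fun t _ => ?_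
      by_cases h3 : t ∈ F <;> by_cases h4 : X j t <;> simp [ind, h3, h4]
    rw [Av_congr h1, Av_sum]
    calc ∑ S ∈ (univ : Finset Ω).powerset,
          Av μ (fun F => (∏ t ∈ S, ((exp 1 - 1) * ind (X j t))) * ind (S ⊆ F))
        ≤ ∑ S ∈ (univ : Finset Ω).powerset, ∏ t ∈ S, ((exp 1 - 1) * ind (X j t) * q t) := by
          refine sum_le_sum fun S _ => ?_
          rw [Av_smul, prod_mul_distrib (f := fun t => (exp 1 - 1) * ind (X j t))]
          exact mul_le_mul_of_nonneg_left (hs S)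
            (prod_nonneg fun t _ => mul_nonneg he (ind_nonneg _))
      _ = ∏ t, (1 + (exp 1 - 1) * ind (X j t) * q t) := (prod_one_add _).symm
      _ ≤ ∏ t, exp (2 * (ind (X j t) * q t)) := by
          refine prod_le_prod (fun t _ => ?_) fun t _ => ?_
          · exact add_nonneg zero_le_one (mul_nonneg (mul_nonneg he (ind_nonneg _)) (h0 t))
          · have h3 : 0 ≤ ind (X j t) * q t := mul_nonneg (ind_nonneg _) (h0 t)
            have h4 := mul_le_mul_of_nonneg_right he2 h3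
            have h5 := add_one_le_exp (2 * (ind (X j t) * q t))
            rw [mul_assoc]
            linarith
      _ = exp (2 * ∑ t, ind (X j t) * q t) := by rw [mul_sum, exp_sum]
  have tl : ∀ j, Av μ (fun F => ind (¬ ∑ t ∈ F, ind (X j t) ≤
      2 * ∑ t, ind (X j t) * q t + σ)) ≤ exp (-σ) := fun j => by
    refine le_trans (Av_mono hμ.nonneg fun F => ind_mono fun h => ?_)
      ((Av_markov hμ.nonneg (f := fun F => exp (∑ t ∈ F, ind (X j t)))
        (fun _ => (exp_pos _).le) (exp_pos (2 * ∑ t, ind (X j t) * q t + σ))).trans ?_)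
    · exact exp_lt_exp.2 (not_le.1 h)
    · rw [div_le_iff₀ (exp_pos _), ← exp_add]
      refine (mgf j).trans (le_of_eq ?_)
      congr 1
      ring
  refine ⟨μ, hμ, hs, ?_⟩
  refine (Av_mono hμ.nonneg (g := fun F => ind (¬ P F) + ind (∃ j, ¬ ∑ t ∈ F, ind (X j t) ≤
      2 * ∑ t, ind (X j t) * q t + σ)) fun F => ?_).trans ?_
  · refine le_trans (ind_mono fun h => ?_) (ind_or_le _ _)
    rw [not_and_or, not_forall] at h
    exact h
  · rw [Av_add]
    refine add_le_add hf ((Av_exists_le hμ.nonneg _).trans ?_)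
    refine (sum_le_sum fun j _ => tl j).trans (le_of_eq ?_)
    rw [sum_const, card_univ, nsmul_eq_mul]

/-- Sequential composition.  Induct on the number `k` of remaining steps with the claim: for
`i + k = m` and `Inv i F₀`, `Ach (∑ j ∈ Ico i m, q j) (k ε) (fun F => Tst (F₀ ∪ F) → Inv m (F₀ ∪ F))`.
If `Tst F₀` fails use `Ach.pure`, otherwise `Ach.bind`. -/
theorem Ach.seq [DecidableEq Ω] (m : ℕ) (q : ℕ → Ω → ℝ) (hq : ∀ i t, 0 ≤ q i t) (hε : 0 ≤ ε)
    (Inv : ℕ → Finset Ω → Prop) (Tst : Finset Ω → Prop)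
    (hT : ∀ F F', F ⊆ F' → Tst F' → Tst F) (h0 : Inv 0 ∅)
    (hstep : ∀ i, i < m → ∀ F, Inv i F → Tst F → Ach (q i) ε fun F' => Inv (i + 1) (F ∪ F')) :
    Ach (fun t => ∑ i ∈ range m, q i t) (m * ε) fun F => Tst F → Inv m F := by
  have _ := hT
  have hn : ∀ i t, 0 ≤ ∑ j ∈ Ico i m, q j t := fun i t => sum_nonneg fun j _ => hq j t
  have key : ∀ k i F₀, i + k = m → Inv i F₀ → Ach (fun t => ∑ j ∈ Ico i m, q j t) ((k : ℕ) * ε)
      fun F => Tst (F₀ ∪ F) → Inv m (F₀ ∪ F) := by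
    intro k
    induction k with
    | zero =>
      intro i F₀ hi hI
      refine (Ach.pure (P := fun F => Tst (F₀ ∪ F) → Inv m (F₀ ∪ F)) (hn i) fun _ => ?_).mono
        (fun _ => le_rfl) (by simp) fun _ h => h
      rw [union_empty, ← hi]
      exact hI
    | succ k ih =>
      intro i F₀ hi hI
      by_cases hF : Tst F₀
      · have hlt : i < m := by omega
        refine ((hstep i hlt F₀ hI hF).bind (hn (i + 1)) (mul_nonneg (Nat.cast_nonneg k) hε)
          fun F₁ h₁ => ih (i + 1) (F₀ ∪ F₁) (by omega) h₁).mono (fun t => ?_) ?_ ?_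
        · rw [sum_eq_sum_Ico_succ_bot hlt]
        · push_cast
          linarith
        · rintro F ⟨F₁, F₂, rfl, -, h₂⟩
          rw [← union_assoc]
          exact h₂
      · refine (Ach.pure (P := fun F => Tst (F₀ ∪ F) → Inv m (F₀ ∪ F)) (hn i) fun h => ?_).mono
          (fun _ => le_rfl) (mul_nonneg (Nat.cast_nonneg _) hε) fun _ h => h
        rw [union_empty] at h
        exact absurd h hF
  refine (key m 0 ∅ (zero_add m) h0).mono (fun t => ?_) le_rfl fun F h => ?_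
  · rw [range_eq_Ico]
  · rw [empty_union] at h
    exact h

/-- A set found inside a random sample is spread.  Choose `M a` if it exists and `∅` otherwise;
`Ex_all_le` bounds the probability that `S` is inside the sample. -/
theorem Ach.sample [DecidableEq Ω] {p : ℝ} (h0 : 0 ≤ p) (h1 : p ≤ 1) (H : Ω → Prop)
    (h : Ex (fun _ : Ω => bern p) (fun a => ind (¬ ∃ M : Finset Ω,
      (∀ t ∈ M, a t = true ∧ H t) ∧ P M)) ≤ ε) :
    Ach (fun t => p * ind (H t)) ε fun M => (∀ t ∈ M, H t) ∧ P M := by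
  classical
  have hw : IsP fun _ : Ω => bern p := isP_bern (fun _ => h0) fun _ => h1
  have hM : ∀ a : Ω → Bool, ∃ M : Finset Ω, (∀ t ∈ M, a t = true ∧ H t) ∧
      ((∃ M : Finset Ω, (∀ t ∈ M, a t = true ∧ H t) ∧ P M) → P M) := fun a => by
    by_cases ha : ∃ M : Finset Ω, (∀ t ∈ M, a t = true ∧ H t) ∧ P M
    · obtain ⟨M, h2, h3⟩ := ha
      exact ⟨M, h2, fun _ => h3⟩
    · exact ⟨∅, fun t ht => absurd ht (notMem_empty t), fun h => absurd h ha⟩
  choose M hM hM' using hM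
  refine Ach.of (pm_prod hw) M (fun S => ?_) ?_
  · rw [← Ex_eq_Av]
    refine (Ex_mono hw.nonneg (G := fun a => ∏ t ∈ S, ind (a t = true ∧ H t)) fun a => ?_).trans ?_
    · rw [← ind_forall]
      exact ind_mono fun h t ht => hM a t (h ht)
    · rw [Ex_all _ hw S fun t b => ind (b = true ∧ H t)]
      refine le_of_eq (prod_congr rfl fun t _ => ?_)
      by_cases ht : H t <;> simp [bern, ind, ht]
  · rw [← Ex_eq_Av]
    refine le_trans (Ex_mono hw.nonneg fun a => ind_mono ?_) h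
    exact fun h2 h3 => h2 ⟨fun t ht => (hM a t ht).2, hM' a h3⟩

end Pool.Agent.MP_46aeaf_co.HT

/-! The local lemma by counting, with the distribution conditioned on success. -/

namespace Pool.Agent.MP_46aeaf_co.HT

open Finset Pool.Agent.MP_81e6aa_pr Real Filter

variable {I α : Type} [Fintype I] [DecidableEq I] [Fintype α]

/-- no bad event with variables inside `S` holds -/
def lllV {B : Type} (bad : B → (I → α) → Prop) (vars : B → Finset I) (S : Finset I)
    (x : I → α) : Prop := ∀ β, vars β ⊆ S → ¬ bad β x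

lemma lll_ind_iff {P Q : Prop} (h : ind P = ind Q) : P ↔ Q := by
  by_cases hP : P <;> by_cases hQ : Q <;> simp_all [ind]

omit [Fintype I] [DecidableEq I] [Fintype α] in
lemma lll_dep {B : Type} {bad : B → (I → α) → Prop} {vars : B → Finset I}
    (hdep : ∀ β, Dep (fun i => i ∈ vars β) fun x => ind (bad β x)) (S : Finset I) :
    Dep (fun i => i ∈ S) fun x => ind (lllV bad vars S x) := by
  intro x y hxy
  refine ind_congr (forall_congr' fun β => forall_congr' fun hβ => not_congr ?_)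
  exact lll_ind_iff (hdep β x y fun i hi => hxy i (hβ hi))

omit [Fintype I] in
lemma lll_chain (u : Finset I → ℝ) (n : ℕ)
    (hu : ∀ S : Finset I, S.card < n → ∀ i, i ∉ S → u S ≤ 2 * u (insert i S))
    (S : Finset I) (hS : S.card ≤ n) (T : Finset I) (hT : T ⊆ S) :
    u (S \ T) ≤ 2 ^ T.card * u S := by
  induction T using Finset.induction_on with
  | empty => simp
  | insert j T hj ih =>
    have hjS : j ∈ S := hT (mem_insert_self _ _)
    have h1 := ih fun a ha => hT (mem_insert_of_mem ha)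
    have h2 : insert j (S \ insert j T) = S \ T := by
      ext a
      simp only [mem_insert, Finset.mem_sdiff]
      constructor
      · rintro (rfl | h)
        · exact ⟨hjS, hj⟩
        · exact ⟨h.1, fun h' => h.2 (Or.inr h')⟩
      · rintro ⟨h, h'⟩
        by_cases ha : a = j
        · exact Or.inl ha
        · exact Or.inr ⟨h, fun h'' => h''.elim ha h'⟩
    have h3 : (S \ insert j T).card < n := by
      refine lt_of_lt_of_le (card_lt_card ⟨sdiff_subset, fun h => ?_⟩) hS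
      have := h hjS
      simp at this
    have h4 := hu _ h3 j (by simp)
    rw [h2] at h4
    rw [card_insert_of_notMem hj, pow_succ]
    linarith

lemma lll_step {B : Type} [Fintype B] {w : I → α → ℝ} (hw : IsP w) (bad : B → (I → α) → Prop)
    (vars : B → Finset I) (hdep : ∀ β, Dep (fun i => i ∈ vars β) fun x => ind (bad β x))
    (h : ∀ i, ∑ β, ind (i ∈ vars β) * (2 ^ (vars β).card * Ex w fun x => ind (bad β x)) ≤ 1)
    (n : ℕ) : ∀ S : Finset I, S.card < n → ∀ i, i ∉ S →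
      Ex w (fun x => ind (lllV bad vars S x)) ≤
        2 * Ex w fun x => ind (lllV bad vars (insert i S) x) := by
  induction n with
  | zero => intro S hS; exact absurd hS (Nat.not_lt_zero _)
  | succ n ih =>
    intro S hS i hi
    have hch := lll_chain (fun S => Ex w fun x => ind (lllV bad vars S x)) n ih S
      (Nat.lt_succ_iff.1 hS)
    have hu0 : 0 ≤ Ex w (fun x => ind (lllV bad vars S x)) :=
      Ex_nonneg hw.nonneg fun _ => ind_nonneg _
    have h1 : ∀ x, ind (lllV bad vars S x) ≤ ind (lllV bad vars (insert i S) x) +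
        ∑ β, ind (i ∈ vars β) * (ind (bad β x) * ind (lllV bad vars (S \ (vars β ∩ S)) x)) := by
      intro x
      have hn : ∀ β, 0 ≤ ind (i ∈ vars β) *
          (ind (bad β x) * ind (lllV bad vars (S \ (vars β ∩ S)) x)) := fun β =>
        mul_nonneg (ind_nonneg _) (mul_nonneg (ind_nonneg _) (ind_nonneg _))
      refine ind_le (add_nonneg (ind_nonneg _) (sum_nonneg fun β _ => hn β)) fun hx => ?_
      by_cases hx' : lllV bad vars (insert i S) x
      · rw [ind_pos hx']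
        linarith [sum_nonneg fun β (_ : β ∈ univ) => hn β]
      · rw [ind_neg hx', zero_add]
        unfold lllV at hx'
        push Not at hx'
        obtain ⟨β, hβ, hb⟩ := hx'
        have hiβ : i ∈ vars β := by
          by_contra hc
          refine hx β (fun a ha => ?_) hb
          rcases mem_insert.1 (hβ ha) with rfl | h'
          · exact absurd ha hc
          · exact h'
        refine le_trans ?_ (single_le_sum (fun β _ => hn β) (mem_univ β))
        rw [ind_pos hiβ, ind_pos hb,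
          ind_pos (show lllV bad vars (S \ (vars β ∩ S)) x from
            fun γ hγ => hx γ (hγ.trans sdiff_subset))]
        norm_num
    have h2 := Ex_mono hw.nonneg h1
    rw [Ex_add, Ex_sum] at h2
    have h3 : ∀ β, Ex w (fun x => ind (i ∈ vars β) *
        (ind (bad β x) * ind (lllV bad vars (S \ (vars β ∩ S)) x))) ≤
        ind (i ∈ vars β) * (2 ^ (vars β).card * Ex w fun x => ind (bad β x)) *
          (Ex w (fun x => ind (lllV bad vars S x)) / 2) := by
      intro β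
      rw [Ex_smul, Ex_mul hw (hdep β) (lll_dep hdep _) (fun a ha ha' => by
        have := mem_sdiff.1 ha'
        exact this.2 (mem_inter.2 ⟨ha, this.1⟩))]
      by_cases hiβ : i ∈ vars β
      · rw [ind_pos hiβ, one_mul, one_mul]
        have hP : 0 ≤ Ex w fun x => ind (bad β x) := Ex_nonneg hw.nonneg fun _ => ind_nonneg _
        have h4 := hch (vars β ∩ S) inter_subset_right
        have h5 : (vars β ∩ S).card + 1 ≤ (vars β).card :=
          card_lt_card ⟨inter_subset_left, fun h' => hi (mem_inter.1 (h' hiβ)).2⟩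
        have h6 : (2 : ℝ) ^ (vars β ∩ S).card * 2 ≤ 2 ^ (vars β).card := by
          rw [← pow_succ]; exact pow_le_pow_right₀ (by norm_num) h5
        have h7 := mul_le_mul_of_nonneg_right h6 hu0
        calc _ ≤ (Ex w fun x => ind (bad β x)) * (2 ^ (vars β).card *
              Ex w (fun x => ind (lllV bad vars S x)) / 2) :=
            mul_le_mul_of_nonneg_left (by linarith) hP
          _ = _ := by ring
      · rw [ind_neg hiβ]; simp
    have h8 := sum_le_sum fun β (_ : β ∈ univ) => h3 β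
    rw [← sum_mul] at h8
    have h9 := mul_le_mul_of_nonneg_right (h i) (show 0 ≤
      Ex w (fun x => ind (lllV bad vars S x)) / 2 by linarith)
    linarith

/-- the marginal of one block of coordinates -/
lemma lll_marg {G P : Type} [Fintype G] [DecidableEq G] [Fintype P] [DecidableEq P]
    {w : α → ℝ} (hw : Pm w) (g : G) (h : (P → α) → ℝ) :
    Ex (fun _ : G × P => w) (fun x => h fun p => x (g, p)) = Ex (fun _ : P => w) h := by
  rw [← Ex_curry (fun _ : G × P => w) fun z => h (z g)]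
  have := Ex_all (fun (_ : G) (z : P → α) => ∏ l, w (z l)) ((pm_prod (hw.isP P)).isP G) {g}
    fun _ z => h z
  simp only [prod_singleton] at this
  exact this

lemma lll_prod {G P A : Type} [Fintype G] [DecidableEq G] [Fintype P] [DecidableEq P]
    [Fintype A] {w : α → ℝ} (hw : Pm w) {μ : (G × P → α) → ℝ} (hμ : Dom (fun _ => w) μ)
    (h : G → A → (P → α) → ℝ) (J : G → A → Finset P)
    (h0 : ∀ g a y, 0 ≤ h g a y) (hd : ∀ g a, Dep (fun p => p ∈ J g a) (h g a)) (s : Finset G) :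
    ∀ (K : Finset (G × P)) (f : (G × P → α) → ℝ), (∀ x, 0 ≤ f x) → Dep (fun i => i ∈ K) f →
      (∀ i ∈ K, i.1 ∉ s) →
      Av μ (fun x => f x * ∏ g ∈ s, ∑ a, h g a fun p => x (g, p)) ≤
        2 ^ K.card * Ex (fun _ => w) f *
          ∏ g ∈ s, ∑ a, 2 ^ (J g a).card * Ex (fun _ : P => w) (h g a) := by
  induction s using Finset.induction_on with
  | empty => intro K f hf hK _; simpa using hμ K f hf hK
  | insert g s hg ih =>
    intro K f hf hK hKs
    simp only [prod_insert hg]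
    have e1 : ∀ x : G × P → α, f x * ((∑ a, h g a fun p => x (g, p)) *
        ∏ g ∈ s, ∑ a, h g a fun p => x (g, p)) =
        ∑ a, (f x * h g a fun p => x (g, p)) * ∏ g ∈ s, ∑ a, h g a fun p => x (g, p) := by
      intro x
      rw [← sum_mul, ← mul_sum, mul_assoc]
    rw [Av_congr e1, Av_sum, ← mul_assoc, mul_sum, sum_mul]
    refine sum_le_sum fun a _ => ?_
    have hdis : Disjoint K ({g} ×ˢ J g a) := by
      rw [disjoint_left]
      intro i hi hi'
      have := mem_singleton.1 (mem_product.1 hi').1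
      exact hKs i hi (this ▸ mem_insert_self _ _)
    have hdg : Dep (fun i => i ∈ ({g} ×ˢ J g a : Finset (G × P)))
        fun x : G × P → α => h g a fun p => x (g, p) := fun x y hxy =>
      hd g a _ _ fun p hp => hxy _ (mem_product.2 ⟨mem_singleton_self _, hp⟩)
    refine (ih (K ∪ {g} ×ˢ J g a) (fun x => f x * h g a fun p => x (g, p))
      (fun x => mul_nonneg (hf x) (h0 _ _ _)) (fun x y hxy => ?_) fun i hi => ?_).trans
      (le_of_eq ?_)
    · show f x * _ = f y * _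
      rw [hK x y fun i hi => hxy i (mem_union_left _ hi)]
      congr 1
      exact hdg x y fun i hi => hxy i (mem_union_right _ hi)
    · rcases mem_union.1 hi with hi | hi
      · exact fun h' => hKs i hi (mem_insert_of_mem h')
      · rw [mem_singleton.1 (mem_product.1 hi).1]; exact hg
    · rw [Ex_mul (hw.isP _) hK hdg (fun i hi hi' => disjoint_left.1 hdis hi hi'), lll_marg hw,
        card_union_of_disjoint hdis, card_product, card_singleton, one_mul, pow_add]
      ring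

/-- Let `Val S x` say that no event `β` with `vars β ⊆ S` holds and `u S = Ex w (ind (Val S))`;
`u ∅ = 1`.  Claim: `u S ≤ 2 * u (insert i S)` for `i ∉ S`, by strong induction on `S.card`
(together with its consequence `u (S \ J) ≤ 2 ^ |J ∩ S| * u S`):
`u S - u (insert i S) ≤ ∑ β with i ∈ vars β ⊆ insert i S, P (bad β) * u (S \ vars β)` by
`Ex_mul`, and `u (S \ vars β) ≤ 2 ^ (|vars β| - 1) * u S`.  Put
`μ x = (∏ i, w i (x i)) * ind (Val univ x) / u univ`; for `Dom` bound `ind (Val univ x)` by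
`ind (Val (univ \ J) x)` and use `Ex_mul`. -/
theorem lll {B : Type} [Fintype B] {w : I → α → ℝ} (hw : IsP w) (bad : B → (I → α) → Prop)
    (vars : B → Finset I) (hdep : ∀ β, Dep (fun i => i ∈ vars β) fun x => ind (bad β x))
    (hne : ∀ β x, bad β x → (vars β).Nonempty)
    (h : ∀ i, ∑ β, ind (i ∈ vars β) * (2 ^ (vars β).card * Ex w fun x => ind (bad β x)) ≤ 1) :
    ∃ μ : (I → α) → ℝ, Pm μ ∧ Dom w μ ∧
      ∀ x, μ x ≠ 0 → (∀ i, w i (x i) ≠ 0) ∧ ∀ β, ¬ bad β x := by
  have hst := lll_step hw bad vars hdep h (Fintype.card I)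
  have hch := lll_chain (fun S => Ex w fun x => ind (lllV bad vars S x)) _ hst univ le_rfl
  have h1 : Ex w (fun x => ind (lllV bad vars (univ \ univ) x)) = 1 := by
    rw [← Ex_const hw 1]
    refine Ex_congr fun x => ind_pos fun β hβ hb => ?_
    obtain ⟨i, hi⟩ := hne β x hb
    simpa using hβ hi
  have hpos : 0 < Ex w fun x => ind (lllV bad vars univ x) := by
    have h2 := hch univ subset_rfl
    simp only [h1] at h2
    exact pos_of_mul_pos_left (lt_of_lt_of_le one_pos (h2.trans_eq (mul_comm _ _)))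
      (by positivity)
  generalize hU : (Ex w fun x => ind (lllV bad vars univ x)) = U at hpos
  have hW : ∀ x : I → α, 0 ≤ ∏ i, w i (x i) := fun x => prod_nonneg fun _ _ => hw.nonneg _ _
  refine ⟨fun x => (∏ i, w i (x i)) * ind (lllV bad vars univ x) / U, ⟨fun x =>
    div_nonneg (mul_nonneg (hW x) (ind_nonneg _)) hpos.le, ?_⟩, fun J f hf hJ => ?_, fun x hx => ?_⟩
  · rw [← sum_div, div_eq_one_iff_eq hpos.ne']
    exact hU
  · have e1 : Av (fun x => (∏ i, w i (x i)) * ind (lllV bad vars univ x) / U) f =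
        Ex w (fun x => ind (lllV bad vars univ x) * f x) / U := by
      unfold Av Ex
      rw [sum_div]
      exact sum_congr rfl fun x _ => by ring
    have e2 : Ex w (fun x => ind (lllV bad vars univ x) * f x) ≤
        Ex w (fun x => ind (lllV bad vars (univ \ J) x) * f x) :=
      Ex_mono hw.nonneg fun x => mul_le_mul_of_nonneg_right
        (ind_mono fun hx β _ => hx β (subset_univ _)) (hf x)
    rw [Ex_mul hw (lll_dep hdep _) hJ fun i hi => (mem_sdiff.1 hi).2] at e2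
    have e3 := hch J (subset_univ _)
    simp only [hU] at e3
    have e4 := mul_le_mul_of_nonneg_right e3 (Ex_nonneg hw.nonneg hf)
    rw [e1, div_le_iff₀ hpos]
    linarith
  · have h3 := (div_ne_zero_iff.1 hx).1
    have h4 := mul_ne_zero_iff.1 h3
    refine ⟨fun i => prod_ne_zero_iff.1 h4.1 i (mem_univ _), fun β => ?_⟩
    exact fun hb => h4.2 (ind_neg fun hv => hv β (subset_univ _) hb)

/-- Expand with `Finset.prod_one_add`, apply `Dom` to each term and `Ex_all`. -/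
theorem Dom.all {w : I → α → ℝ} (hw : IsP w) {μ : (I → α) → ℝ} (hμ : Dom w μ)
    (g : I → α → ℝ) (hg : ∀ i a, 0 ≤ g i a) :
    Av μ (fun x => ∏ i, (1 + g i (x i))) ≤ ∏ i, (1 + 2 * ∑ a, w i a * g i a) := by
  simp only [prod_one_add]
  rw [Av_sum]
  refine sum_le_sum fun t _ => ?_
  refine (hμ t _ (fun x => prod_nonneg fun i _ => hg _ _) fun x y hxy =>
    prod_congr rfl fun i hi => by rw [hxy i hi]).trans (le_of_eq ?_)
  rw [Ex_all w hw, prod_mul_distrib, prod_const]

/-- Expand both sides with `Finset.prod_sum` or, after replacing `s` by its subtype,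
`Finset.prod_univ_sum`; apply `Dom` with the disjoint union of the sets `{g} ×ˢ J g (a g)`;
then `Ex_curry` and `Ex_all`. -/
theorem Dom.prod {G P A : Type} [Fintype G] [DecidableEq G] [Fintype P] [DecidableEq P]
    [Fintype A] {w : α → ℝ} (hw : Pm w) {μ : (G × P → α) → ℝ} (hμ : Dom (fun _ => w) μ)
    (s : Finset G) (h : G → A → (P → α) → ℝ) (J : G → A → Finset P)
    (h0 : ∀ g a y, 0 ≤ h g a y) (hd : ∀ g a, Dep (fun p => p ∈ J g a) (h g a)) :
    Av μ (fun x => ∏ g ∈ s, ∑ a, h g a fun p => x (g, p)) ≤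
      ∏ g ∈ s, ∑ a, 2 ^ (J g a).card * Ex (fun _ : P => w) (h g a) := by
  have := lll_prod hw hμ h J h0 hd s ∅ (fun _ => 1) (fun _ => zero_le_one) (fun _ _ _ => rfl)
    (fun i hi => absurd hi (notMem_empty _))
  rw [Ex_const (hw.isP _)] at this
  simpa using this

/-- Weighted loads: `Dom.all` with `g i a = (exp (M i / Mx) - 1) * ind (a = v)` and
`exp t - 1 ≤ 2 t` on `[0, 1]`. -/
theorem Dom.load {V : Type} [Fintype V] [Nonempty V] {μ : (I → V) → ℝ} (h0 : ∀ x, 0 ≤ μ x)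
    (hμ : Dom (fun _ => unif V) μ) (M : I → ℝ) {Mx : ℝ} (hMx : 0 < Mx) (hM0 : ∀ i, 0 ≤ M i)
    (hM : ∀ i, M i ≤ Mx) (A : ℝ) :
    Av μ (fun x => ind (∃ v, A ≤ ∑ i, M i * ind (x i = v))) ≤
      Fintype.card V * exp (-(A / Mx) + 4 * (∑ i, M i) / (Mx * Fintype.card V)) := by
  have hN : (0 : ℝ) < Fintype.card V := by exact_mod_cast Fintype.card_pos
  have ht : ∀ i, 0 ≤ exp (M i / Mx) - 1 ∧ exp (M i / Mx) - 1 ≤ 2 * (M i / Mx) := fun i => by
    have h1 : 0 ≤ M i / Mx := div_nonneg (hM0 i) hMx.le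
    have h2 : M i / Mx ≤ 1 := (div_le_one hMx).2 (hM i)
    have h3 := Real.abs_exp_sub_one_le (x := M i / Mx) (by rwa [abs_of_nonneg h1])
    rw [abs_of_nonneg h1] at h3
    exact ⟨sub_nonneg.2 (one_le_exp h1), (le_abs_self _).trans h3⟩
  refine (Av_exists_le h0 fun v x => A ≤ ∑ i, M i * ind (x i = v)).trans ?_
  rw [← nsmul_eq_mul]
  refine (sum_le_card_nsmul _ _ _ fun v _ => ?_).trans_eq (by rw [card_univ])
  have h1 : ∀ x : I → V, ind (A ≤ ∑ i, M i * ind (x i = v)) ≤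
      exp (-(A / Mx)) * ∏ i, (1 + (exp (M i / Mx) - 1) * ind (x i = v)) := by
    intro x
    have e : ∏ i, (1 + (exp (M i / Mx) - 1) * ind (x i = v)) =
        exp ((∑ i, M i * ind (x i = v)) / Mx) := by
      rw [sum_div, exp_sum]
      refine prod_congr rfl fun i _ => ?_
      by_cases hx : x i = v
      · rw [ind_pos hx]; simp
      · rw [ind_neg hx]; simp
    rw [e, ← exp_add]
    refine ind_le (exp_pos _).le fun hA => one_le_exp ?_
    have := div_le_div_of_nonneg_right hA hMx.le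
    linarith
  refine (Av_mono h0 h1).trans ?_
  rw [Av_smul, exp_add]
  refine mul_le_mul_of_nonneg_left ?_ (exp_pos _).le
  refine (Dom.all ((pm_unif V).isP I) hμ (fun i a => (exp (M i / Mx) - 1) * ind (a = v))
    fun i a => mul_nonneg (ht i).1 (ind_nonneg _)).trans ?_
  have e2 : ∀ i, ∑ a, unif V a * ((exp (M i / Mx) - 1) * ind (a = v)) =
      (exp (M i / Mx) - 1) / Fintype.card V := fun i => by
    rw [sum_eq_single v (fun b _ hb => by rw [ind_neg hb]; simp) (by simp), ind_pos rfl]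
    unfold unif
    field_simp
  simp only [e2]
  refine (prod_one_add_le_exp_sum _ fun i => mul_nonneg zero_le_two
    (div_nonneg (ht i).1 hN.le)).trans (exp_le_exp.2 ?_)
  rw [mul_sum, sum_div]
  refine sum_le_sum fun i _ => ?_
  have h4 := div_le_div_of_nonneg_right (ht i).2 hN.le
  have e3 : 4 * M i / (Mx * Fintype.card V) = 2 * (2 * (M i / Mx) / Fintype.card V) := by
    field_simp
    ring
  rw [e3]
  linarith

end Pool.Agent.MP_46aeaf_co.HT

/-! Covering a set of lines by a spread partial Latin square. -/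

namespace Pool.Agent.MP_46aeaf_co.HT

open Finset Pool.Agent.MP_81e6aa_pr Real Filter

variable {V : Type} [Fintype V] [DecidableEq V]

open Classical in
/-- the law of the third vertex picked by a line -/
noncomputable def itW (Z : Ln V → Prop) (H : Tr V → Prop) (e : Ln V) (u : V) : ℝ :=
  if Z e then ind (H (tri e u)) / dg H e else ind (u = e.2.1)

omit [DecidableEq V] in
lemma it_isP {Z : Ln V → Prop} {H : Tr V → Prop} {v : ℝ} (hv : 0 < v)
    (hdeg : ∀ e, Z e → v ≤ dg H e) : IsP (itW Z H) := by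
  refine ⟨fun e u => ?_, fun e => ?_⟩
  · unfold itW
    split_ifs
    · exact div_nonneg (ind_nonneg _) (dg_nonneg _ _)
    · exact ind_nonneg _
  · unfold itW
    by_cases h : Z e
    · simp only [if_pos h]
      rw [← sum_div]
      have := dg_eq H e
      unfold ct at this
      rw [← this]
      exact div_self (hv.trans_le (hdeg e h)).ne'
    · simp only [if_neg h]
      exact ct_eq e.2.1

omit [DecidableEq V] in
lemma it_supp {Z : Ln V → Prop} {H : Tr V → Prop} {e : Ln V} {u : V} (h : itW Z H e u ≠ 0)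
    (hZ : Z e) : H (tri e u) := by
  by_contra hH
  apply h
  unfold itW
  rw [if_pos hZ, ind_neg hH, zero_div]

/-- the probability that a line picks a given triple -/
lemma it_pick {Z : Ln V → Prop} {H : Tr V → Prop} (hw : IsP (itW Z H)) {e : Ln V} (hZ : Z e)
    (t : Tr V) : Ex (itW Z H) (fun x => ind (tri e (x e) = t)) ≤ 1 / dg H e := by
  have h := Ex_all (itW Z H) hw {e} fun e u => ind (tri e u = t)
  simp only [prod_singleton] at h
  rw [h]
  have h0 : 0 ≤ 1 / dg H e := div_nonneg zero_le_one (dg_nonneg _ _)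
  simp only [mul_comm (itW Z H e _)]
  refine (sum_ind_mul_le (c := 1 / dg H e) fun u _ => ?_).trans ?_
  · unfold itW
    rw [if_pos hZ]
    exact div_le_div_of_nonneg_right (ind_le_one _) (dg_nonneg _ _)
  · exact mul_le_of_le_one_left h0
      (ct_le_one fun c c' h h' => tri_inj e (h.trans h'.symm))

/-- conflicting pairs of triples -/
def itC (H : Tr V → Prop) (z : Tr V → Ln V) (t t' : Tr V) : Prop :=
  H t ∧ H t' ∧ z t ≠ z t' ∧ ∃ k, ed k t = ed k t'

omit [Fintype V] [DecidableEq V] in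
lemma itC.symm {H : Tr V → Prop} {z : Tr V → Ln V} {t t' : Tr V} (h : itC H z t t') :
    itC H z t' t :=
  ⟨h.2.1, h.1, h.2.2.1.symm, let ⟨k, hk⟩ := h.2.2.2; ⟨k, hk.symm⟩⟩

omit [DecidableEq V] in
lemma it_conf {Z : Ln V → Prop} {H : Tr V → Prop} {Δ : ℝ} {κ : Tr V → Fin 3}
    (hκ : ∀ t, H t → Z (ed (κ t) t) ∧ ∀ k', k' ≠ κ t → ¬ Z (ed k' t))
    (hload : ∀ e, ¬ Z e → dg H e ≤ Δ) {t : Tr V} (ht : H t) :
    ct (itC H (fun t => ed (κ t) t) t) ≤ 2 * Δ := by
  have h1 : ct (itC H (fun t => ed (κ t) t) t) ≤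
      ct fun t' => ∃ k, k ≠ κ t ∧ ed (ed k t).1 t' = ed k t ∧ H t' := by
    refine ct_mono ?_
    rintro t' ⟨-, ht', hne, k, hk⟩
    refine ⟨k, ?_, hk.symm, ht'⟩
    rintro rfl
    apply hne
    by_cases h : κ t = κ t'
    · show ed (κ t) t = ed (κ t') t'
      rw [hk, h]
    · exact absurd (hk ▸ (hκ t ht).1) ((hκ t' ht').2 _ h)
  refine h1.trans ((ct_exists_le _).trans ?_)
  have h2 : ∀ k : Fin 3, ct (fun t' => k ≠ κ t ∧ ed (ed k t).1 t' = ed k t ∧ H t') ≤
      ind (k ≠ κ t) * Δ := by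
    intro k
    by_cases hk : k ≠ κ t
    · rw [ind_pos hk, one_mul]
      exact (ct_mono fun _ h => h.2).trans (hload _ ((hκ t ht).2 k hk))
    · rw [ind_neg hk, zero_mul, ct_false fun _ h => hk h.1]
  refine (sum_le_sum fun k _ => h2 k).trans (le_of_eq ?_)
  rw [← sum_mul]
  congr 1
  generalize κ t = j
  fin_cases j <;> simp [Fin.sum_univ_three, ind] <;> norm_num

omit [DecidableEq V] in
lemma it_half {Z : Ln V → Prop} {H : Tr V → Prop} {v Δ : ℝ} {κ : Tr V → Fin 3} (hv : 0 < v)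
    (hΔ : 0 ≤ Δ) (hκ : ∀ t, H t → Z (ed (κ t) t) ∧ ∀ k', k' ≠ κ t → ¬ Z (ed k' t))
    (hload : ∀ e, ¬ Z e → dg H e ≤ Δ) (e : Ln V) :
    ∑ t, ∑ t', ind (ed (κ t) t = e) * (ind (itC H (fun t => ed (κ t) t) t t') *
      (1 / dg H e * (1 / v))) ≤ 2 * Δ / v := by
  have h0 : 0 ≤ 1 / dg H e := div_nonneg zero_le_one (dg_nonneg _ _)
  have h1 : ∀ t, ∑ t', ind (ed (κ t) t = e) * (ind (itC H (fun t => ed (κ t) t) t t') *
      (1 / dg H e * (1 / v))) ≤ ind (ed e.1 t = e ∧ H t) * (1 / dg H e * (2 * Δ / v)) := by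
    intro t
    rw [← mul_sum, ← sum_mul]
    by_cases h : ed (κ t) t = e ∧ H t
    · have he : ed e.1 t = e := by rw [← h.1]; rfl
      rw [ind_pos h.1, ind_pos ⟨he, h.2⟩, one_mul, one_mul]
      have := mul_le_mul_of_nonneg_right (it_conf hκ hload h.2)
        (show 0 ≤ 1 / dg H e * (1 / v) by positivity)
      refine this.trans (le_of_eq ?_)
      ring
    · refine le_trans (le_of_eq ?_) (mul_nonneg (ind_nonneg _) (by positivity))
      by_cases h' : ed (κ t) t = e
      · rw [sum_eq_zero fun t' _ => ind_neg fun hc => h ⟨h', hc.1⟩]; ring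
      · rw [ind_neg h', zero_mul]
  refine (sum_le_sum fun t _ => h1 t).trans ?_
  rw [← sum_mul, ← mul_assoc]
  refine mul_le_of_le_one_left (by positivity) ?_
  rw [mul_one_div]
  exact div_self_le_one _

/-- the conditioned distribution -/
lemma it_lll {Z : Ln V → Prop} {H : Tr V → Prop} {v Δ : ℝ} {κ : Tr V → Fin 3} (hv : 0 < v)
    (hΔ : 0 ≤ Δ) (hκ : ∀ t, H t → Z (ed (κ t) t) ∧ ∀ k', k' ≠ κ t → ¬ Z (ed k' t))
    (hdeg : ∀ e, Z e → v ≤ dg H e) (hload : ∀ e, ¬ Z e → dg H e ≤ Δ) (hnum : 16 * Δ ≤ v) :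
    ∃ μ : (Ln V → V) → ℝ, Pm μ ∧ Dom (itW Z H) μ ∧ ∀ x, μ x ≠ 0 →
      (∀ e, itW Z H e (x e) ≠ 0) ∧ ∀ β : Tr V × Tr V, ¬ (itC H (fun t => ed (κ t) t) β.1 β.2 ∧
        tri (ed (κ β.1) β.1) (x (ed (κ β.1) β.1)) = β.1 ∧
        tri (ed (κ β.2) β.2) (x (ed (κ β.2) β.2)) = β.2) := by
  have hw := it_isP hv hdeg
  set z : Tr V → Ln V := fun t => ed (κ t) t with hz
  refine lll hw (fun (β : Tr V × Tr V) x => itC H z β.1 β.2 ∧
    tri (z β.1) (x (z β.1)) = β.1 ∧ tri (z β.2) (x (z β.2)) = β.2) (fun β => {z β.1, z β.2})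
    (fun β x y h => ?_) (fun β _ _ => insert_nonempty _ _) fun e => ?_
  · dsimp only
    rw [h (z β.1) (by simp), h (z β.2) (by simp)]
  have hp : ∀ t t', Ex (itW Z H) (fun x => ind (itC H z t t' ∧
      tri (z t) (x (z t)) = t ∧ tri (z t') (x (z t')) = t')) ≤
      ind (itC H z t t') * (1 / dg H (z t) * (1 / dg H (z t'))) := by
    intro t t'
    simp only [ind_and]
    rw [Ex_smul]
    by_cases hc : itC H z t t'
    · refine mul_le_mul_of_nonneg_left ?_ (ind_nonneg _)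
      rw [Ex_mul hw (A := fun i => i = z t) (B := fun i => i = z t')
        (fun x y h => by rw [h _ rfl]) (fun x y h => by rw [h _ rfl])
        fun i h h' => hc.2.2.1 (h.symm.trans h')]
      exact mul_le_mul (it_pick hw (hκ t hc.1).1 t) (it_pick hw (hκ t' hc.2.1).1 t')
        (Ex_nonneg hw.nonneg fun _ => ind_nonneg _) (div_nonneg zero_le_one (dg_nonneg _ _))
    · rw [ind_neg hc, zero_mul, zero_mul]
  have hb : ∀ t, H t → 1 / dg H (z t) ≤ 1 / v := fun t ht =>
    one_div_le_one_div_of_le hv (hdeg _ (hκ t ht).1)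
  have h0 : ∀ e, 0 ≤ 1 / dg H e := fun e => div_nonneg zero_le_one (dg_nonneg _ _)
  have hterm : ∀ β : Tr V × Tr V, ind (e ∈ ({z β.1, z β.2} : Finset (Ln V))) *
      (2 ^ ({z β.1, z β.2} : Finset (Ln V)).card * Ex (itW Z H) fun x => ind (itC H z β.1 β.2 ∧
        tri (z β.1) (x (z β.1)) = β.1 ∧ tri (z β.2) (x (z β.2)) = β.2)) ≤
      4 * (ind (z β.1 = e) * (ind (itC H z β.1 β.2) * (1 / dg H e * (1 / v)))) +
      4 * (ind (z β.2 = e) * (ind (itC H z β.2 β.1) * (1 / dg H e * (1 / v)))) := by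
    rintro ⟨t, t'⟩
    dsimp only
    have n1 : 0 ≤ 4 * (ind (z t = e) * (ind (itC H z t t') * (1 / dg H e * (1 / v)))) :=
      mul_nonneg (by norm_num) (mul_nonneg (ind_nonneg _) (mul_nonneg (ind_nonneg _)
        (mul_nonneg (h0 e) (by positivity))))
    have n2 : 0 ≤ 4 * (ind (z t' = e) * (ind (itC H z t' t) * (1 / dg H e * (1 / v)))) :=
      mul_nonneg (by norm_num) (mul_nonneg (ind_nonneg _) (mul_nonneg (ind_nonneg _)
        (mul_nonneg (h0 e) (by positivity))))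
    by_cases he : e ∈ ({z t, z t'} : Finset (Ln V))
    swap
    · rw [ind_neg he, zero_mul]; exact add_nonneg n1 n2
    have h4 : (2 : ℝ) ^ ({z t, z t'} : Finset (Ln V)).card ≤ 4 :=
      (pow_le_pow_right₀ one_le_two card_le_two).trans (by norm_num)
    rw [ind_pos he, one_mul]
    refine (mul_le_mul h4 (hp t t') (Ex_nonneg hw.nonneg fun _ => ind_nonneg _)
      (by norm_num)).trans ?_
    by_cases hc : itC H z t t'
    swap
    · rw [ind_neg hc, zero_mul, mul_zero]
      rw [ind_neg hc] at n1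
      exact add_nonneg n1 n2
    rcases mem_insert.1 he with h | h
    · refine le_add_of_le_of_nonneg ?_ n2
      rw [ind_pos hc, ind_pos h.symm, one_mul, one_mul, one_mul, ← h]
      exact mul_le_mul_of_nonneg_left (mul_le_mul_of_nonneg_left (hb t' hc.2.1) (h0 e))
        (by norm_num)
    · refine le_add_of_nonneg_of_le n1 ?_
      rw [mem_singleton] at h
      rw [ind_pos hc, ind_pos hc.symm, ind_pos h.symm, one_mul, one_mul, one_mul, ← h,
        mul_comm (1 / dg H (z t))]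
      exact mul_le_mul_of_nonneg_left (mul_le_mul_of_nonneg_left (hb t hc.1) (h0 e))
        (by norm_num)
  refine (sum_le_sum fun β _ => hterm β).trans ?_
  have hh := it_half hv hΔ hκ hload e
  rw [sum_add_distrib, ← mul_sum, ← mul_sum,
    Fintype.sum_prod_type' fun t t' => ind (z t = e) * (ind (itC H z t t') * (1 / dg H e * (1 / v))),
    Fintype.sum_prod_type_right' fun t t' =>
      ind (z t' = e) * (ind (itC H z t' t) * (1 / dg H e * (1 / v)))]
  have : 4 * (2 * Δ / v) + 4 * (2 * Δ / v) ≤ 1 := by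
    rw [show 4 * (2 * Δ / v) + 4 * (2 * Δ / v) = 16 * Δ / v by ring, div_le_one hv]
    exact hnum
  exact (add_le_add (mul_le_mul_of_nonneg_left hh (by norm_num))
    (mul_le_mul_of_nonneg_left hh (by norm_num))).trans this

/-- the spread cover without tests -/
lemma it_base (Z : Ln V → Prop) (H : Tr V → Prop) {v Δ : ℝ} (hv : 0 < v) (hΔ : 0 ≤ Δ)
    (h1 : ∀ t, H t → ∃ k, Z (ed k t) ∧ ∀ k', k' ≠ k → ¬ Z (ed k' t))
    (hdeg : ∀ e, Z e → v ≤ dg H e) (hload : ∀ e, ¬ Z e → dg H e ≤ Δ) (hnum : 16 * Δ ≤ v) :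
    Ach (fun t => 2 / v * ind (H t)) 0 fun F =>
      PL F ∧ (∀ t ∈ F, H t) ∧ ∀ e, Z e → Cv F e := by
  classical
  choose! κ hκ using h1
  have hw := it_isP hv hdeg
  obtain ⟨μ, hμ, hD, hs⟩ := it_lll hv hΔ hκ hdeg hload hnum
  set z : Tr V → Ln V := fun t => ed (κ t) t with hz
  have key : ∀ x, μ x ≠ 0 → ∀ t ∈ (univ.filter Z).image fun e => tri e (x e),
      H t ∧ tri (z t) (x (z t)) = t := by
    intro x hx t ht
    obtain ⟨e, he, rfl⟩ := mem_image.1 ht
    have hZ : Z e := (mem_filter.1 he).2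
    have hH := it_supp ((hs x hx).1 e) hZ
    refine ⟨hH, ?_⟩
    have hk : e.1 = κ (tri e (x e)) := by
      by_contra hk
      exact (hκ _ hH).2 _ hk (by rw [ed_tri]; exact hZ)
    have : z (tri e (x e)) = e := by
      show ed (κ (tri e (x e))) (tri e (x e)) = e
      rw [← hk, ed_tri]
    rw [this]
  refine Ach.of hμ (fun x => (univ.filter Z).image fun e => tri e (x e)) (fun S => ?_) ?_
  · by_cases hS : (∀ t ∈ S, H t) ∧ ∀ t ∈ S, ∀ t' ∈ S, z t = z t' → t = t'
    · calc _ ≤ Av μ fun x => ∏ t ∈ S, ind (tri (z t) (x (z t)) = t) := by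
            refine Av_mono' hμ.nonneg fun x hx => ?_
            rw [← ind_forall]
            exact ind_mono fun h t ht => (key x hx t (h ht)).2
        _ ≤ 2 ^ (S.image z).card *
              Ex (itW Z H) fun x => ∏ t ∈ S, ind (tri (z t) (x (z t)) = t) :=
            hD _ _ (fun x => prod_nonneg fun _ _ => ind_nonneg _) fun x y h =>
              prod_congr rfl fun t ht => by rw [h (z t) (mem_image_of_mem z ht)]
        _ ≤ 2 ^ S.card * ∏ _t ∈ S, (1 / v) := by
            rw [Ex_prod_indep hw S (fun t i => i = z t) _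
              (fun t _ x y h => by rw [h _ rfl])
              fun t ht t' ht' i h h' => hS.2 t ht t' ht' (h.symm.trans h')]
            refine mul_le_mul (pow_le_pow_right₀ one_le_two card_image_le)
              (prod_le_prod (fun t _ => Ex_nonneg hw.nonneg fun _ => ind_nonneg _) fun t ht => ?_)
              (prod_nonneg fun t _ => Ex_nonneg hw.nonneg fun _ => ind_nonneg _) (by positivity)
            have hZ := (hκ t (hS.1 t ht)).1
            exact (it_pick hw hZ t).trans (one_div_le_one_div_of_le hv (hdeg _ hZ))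
        _ = _ := by
            rw [← prod_const, ← prod_mul_distrib]
            exact prod_congr rfl fun t ht => by rw [ind_pos (hS.1 t ht)]; ring
    · refine le_trans (Av_mono' (g := fun _ => 0) hμ.nonneg fun x hx => ?_) ?_
      · refine (ind_neg fun h => hS ⟨fun t ht => (key x hx t (h ht)).1, fun t ht t' ht' e => ?_⟩).le
        rw [← (key x hx t (h ht)).2, e, (key x hx t' (h ht')).2]
      · rw [Av_const hμ]
        exact prod_nonneg fun t _ => mul_nonneg (by positivity) (ind_nonneg _)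
  · refine le_trans (Av_mono' (g := fun _ => 0) hμ.nonneg fun x hx => ?_) (Av_const hμ 0).le
    refine (ind_neg (not_not.2 ⟨fun t ht t' ht' k hk => ?_, fun t ht => (key x hx t ht).1,
      fun e he => ?_⟩)).le
    · have a := key x hx t ht
      have b := key x hx t' ht'
      by_cases h : z t = z t'
      · rw [← a.2, h, b.2]
      · exact absurd ⟨⟨a.1, b.1, h, k, hk⟩, a.2, b.2⟩ ((hs x hx).2 (t, t'))
    · exact ⟨tri e (x e), mem_image_of_mem _ (mem_filter.2 ⟨mem_univ _, he⟩), ed_tri _ _⟩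

/-- Every line `e` in `Z` picks a random triple of `H` through it; the local lemma removes the
conflicts and `Ach.tail` gives the tests. -/
theorem cover_it {J : Type} [Fintype J] (Z : Ln V → Prop) (H : Tr V → Prop) {v Δ : ℝ} (σ : ℝ)
    (hv : 0 < v) (hΔ : 0 ≤ Δ)
    (h1 : ∀ t, H t → ∃ k, Z (ed k t) ∧ ∀ k', k' ≠ k → ¬ Z (ed k' t))
    (hdeg : ∀ e, Z e → v ≤ dg H e) (hload : ∀ e, ¬ Z e → dg H e ≤ Δ) (hnum : 16 * Δ ≤ v)
    (X : J → Ln V → Prop) (hX : ∀ j e, X j e → ¬ Z e) :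
    Ach (fun t => 2 / v * ind (H t)) (Fintype.card J * exp (-σ)) fun F =>
      PL F ∧ (∀ t ∈ F, H t) ∧ (∀ e, Z e → Cv F e) ∧
        ∀ j, ct (fun e => X j e ∧ Cv F e) ≤ 12 * (Δ / v) * ct (X j) + 3 * σ := by
  refine ((it_base Z H hv hΔ h1 hdeg hload hnum).tail
    (fun j t => ∃ k, X j (ed k t)) σ).mono (fun _ => le_rfl) (zero_add _).le ?_
  rintro F ⟨⟨a, b, c⟩, d⟩
  refine ⟨a, b, c, fun j => ?_⟩
  have e1 : ct (fun e => X j e ∧ Cv F e) ≤ 3 * ∑ t ∈ F, ind (∃ k, X j (ed k t)) := by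
    refine (ct_le_of_surj (Y := fun p : Fin 3 × Tr V => p.2 ∈ F ∧ ∃ k, X j (ed k p.2))
      (fun p => ed p.1 p.2) ?_).trans (le_of_eq ?_)
    · rintro e ⟨hx, t, ht, he⟩
      exact ⟨(e.1, t), ⟨ht, e.1, by rw [he]; exact hx⟩, he⟩
    · rw [ct_prod, sum_mem_ind]
      simp
  have e2 : ∑ t, ind (∃ k, X j (ed k t)) * ind (H t) ≤ ct (X j) * Δ := by
    simp only [← ind_and]
    refine le_trans (ct_mono (Y := fun t => ∃ e, X j e ∧ ed e.1 t = e ∧ H t) ?_)
      ((ct_exists_le _).trans ?_)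
    · rintro t ⟨⟨k, hk⟩, ht⟩
      exact ⟨ed k t, hk, rfl, ht⟩
    · refine le_trans (le_of_eq (sum_congr rfl fun e _ => ?_))
        (sum_ind_mul_le (f := dg H) fun e he => hload e (hX j e he))
      unfold dg ct
      rw [mul_sum]
      exact sum_congr rfl fun t _ => ind_and _ _
  have e3 : ∑ t, ind (∃ k, X j (ed k t)) * (2 / v * ind (H t)) ≤ 2 / v * (ct (X j) * Δ) := by
    refine le_trans (le_of_eq ?_) (mul_le_mul_of_nonneg_left e2 (by positivity))
    rw [mul_sum]
    exact sum_congr rfl fun t _ => by ring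
  have e4 : 12 * (Δ / v) * ct (X j) = 6 * (2 / v * (ct (X j) * Δ)) := by ring
  linarith [d j]

end Pool.Agent.MP_46aeaf_co.HT

/-! Discrepancy from pair degrees. -/

namespace Pool.Agent.MP_46aeaf_co.HT

open Finset Pool.Agent.MP_81e6aa_pr Real Filter

variable {V : Type} [Fintype V]

lemma disc_first (N D : V → Prop) (Y : V → V → Prop) (hY : ∀ u s, Y u s → D s) :
    ∑ s, ind (D s) * ct (fun u => N u ∧ Y u s) = ∑ u, ind (N u) * ct (Y u) := by
  unfold ct
  simp only [mul_sum]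
  rw [sum_comm]
  refine sum_congr rfl fun u _ => sum_congr rfl fun s _ => ?_
  have := hY u s
  by_cases h : Y u s <;> by_cases h' : N u <;> simp_all [ind]

lemma disc_second (N D : V → Prop) (Y : V → V → Prop) (hY : ∀ u s, Y u s → D s) :
    ∑ s, ind (D s) * ct (fun u => N u ∧ Y u s) ^ 2 =
      ∑ u, ind (N u) * ∑ u', ind (N u') * ct (fun s => Y u s ∧ Y u' s) := by
  unfold ct
  simp only [sq, sum_mul_sum]
  simp only [mul_sum]
  rw [sum_comm]
  refine sum_congr rfl fun u _ => ?_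
  rw [sum_comm]
  refine sum_congr rfl fun u' _ => sum_congr rfl fun s _ => ?_
  have := hY u s
  by_cases h : Y u s <;> by_cases h' : N u <;> by_cases h1 : Y u' s <;> by_cases h2 : N u' <;>
    simp_all [ind]

lemma disc_row (N : V → Prop) (c : V → ℝ) (u : V) {a b : ℝ} (ha : 0 ≤ a) (hb : 0 ≤ b)
    (h1 : c u ≤ a) (h2 : ∀ u', u ≠ u' → c u' ≤ b) :
    ∑ u', ind (N u') * c u' ≤ a + ct N * b := by
  have h : ∀ u', ind (N u') * c u' ≤ ind (u' = u) * a + ind (N u') * b := fun u' => by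
    by_cases hu : u' = u
    · subst hu
      rw [ind_pos (rfl : u' = u')]
      by_cases hN : N u'
      · rw [ind_pos hN]; linarith
      · rw [ind_neg hN]; linarith
    · rw [ind_neg hu, zero_mul, zero_add]
      exact mul_le_mul_of_nonneg_left (h2 u' (Ne.symm hu)) (ind_nonneg _)
  refine (sum_le_sum fun u' _ => h u').trans (le_of_eq ?_)
  rw [sum_add_distrib, ← sum_mul, ← sum_mul]
  have := ct_eq u
  unfold ct at this ⊢
  rw [this, one_mul]

/-- Second moment bound for the number of points with a large discrepancy. -/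
theorem disc (N D : V → Prop) (Y : V → V → Prop) {α ζ z d t : ℝ} (hα : 0 ≤ α) (hζ0 : 0 ≤ ζ)
    (hζ : ζ ≤ 1) (hN : ct N ≤ z) (hd : d = ct D) (hY : ∀ u s, Y u s → D s)
    (h1 : ∀ u, |ct (Y u) - α * d| ≤ ζ * (α * d))
    (h2 : ∀ u u', u ≠ u' → ct (fun s => Y u s ∧ Y u' s) ≤ (1 + ζ) * (α ^ 2 * d)) (ht : 0 ≤ t) :
    ct (fun s => D s ∧ t ≤ |ct (fun u => N u ∧ Y u s) - α * ct N|) * t ^ 2 ≤
      2 * α * z * d + 3 * ζ * α ^ 2 * z ^ 2 * d := by
  have hd0 : 0 ≤ d := hd ▸ ct_nonneg _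
  have hf0 : 0 ≤ ct N := ct_nonneg _
  have had : 0 ≤ α * d := mul_nonneg hα hd0
  have haad : 0 ≤ α ^ 2 * d := mul_nonneg (sq_nonneg _) hd0
  have s1 : ct (fun s => D s ∧ t ≤ |ct (fun u => N u ∧ Y u s) - α * ct N|) * t ^ 2 ≤
      ∑ s, ind (D s) * (ct (fun u => N u ∧ Y u s) - α * ct N) ^ 2 := by
    generalize ct N = f
    conv_lhs => unfold ct
    rw [sum_mul]
    refine sum_le_sum fun s _ => ?_
    change ind (D s ∧ t ≤ |ct (fun u => N u ∧ Y u s) - α * f|) * t ^ 2 ≤ _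
    generalize ct (fun u => N u ∧ Y u s) - α * f = x
    by_cases h : D s ∧ t ≤ |x|
    · rw [ind_pos h, ind_pos h.1, one_mul, one_mul, ← sq_abs x]
      exact pow_le_pow_left₀ ht h.2 2
    · rw [ind_neg h, zero_mul]
      exact mul_nonneg (ind_nonneg _) (sq_nonneg _)
  have s2 : ∑ s, ind (D s) * (ct (fun u => N u ∧ Y u s) - α * ct N) ^ 2 =
      ∑ s, ind (D s) * ct (fun u => N u ∧ Y u s) ^ 2 -
        2 * (α * ct N) * ∑ s, ind (D s) * ct (fun u => N u ∧ Y u s) + (α * ct N) ^ 2 * d := by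
    rw [hd]
    generalize ct N = f
    conv_rhs => rw [show ct D = ∑ s, ind (D s) from rfl]
    rw [mul_sum, mul_sum, ← sum_sub_distrib, ← sum_add_distrib]
    exact sum_congr rfl fun s _ => by ring
  have s3 : ∑ u, ind (N u) * ∑ u', ind (N u') * ct (fun s => Y u s ∧ Y u' s) ≤
      ct N * ((1 + ζ) * (α * d) + ct N * ((1 + ζ) * (α ^ 2 * d))) := by
    refine sum_ind_mul_le fun u _ => ?_
    refine disc_row N (fun u' => ct (fun s => Y u s ∧ Y u' s)) u (by positivity) (by positivity)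
      ?_ (h2 u)
    have e : ct (fun s => Y u s ∧ Y u s) = ct (Y u) := ct_congr fun _ => and_self_iff
    have := (abs_le.1 (h1 u)).2
    simp only [e]
    linarith
  have s4 : ∑ u, ind (N u) * (-ct (Y u)) ≤ ct N * (-((1 - ζ) * (α * d))) := by
    refine sum_ind_mul_le fun u _ => ?_
    have := (abs_le.1 (h1 u)).1
    linarith
  simp only [mul_neg, sum_neg_distrib, neg_le_neg_iff] at s4
  rw [disc_first N D Y hY, disc_second N D Y hY] at s2
  refine s1.trans ?_
  rw [s2]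
  generalize ∑ u, ind (N u) * ∑ u', ind (N u') * ct (fun s => Y u s ∧ Y u' s) = A at s3 ⊢
  generalize ∑ u, ind (N u) * ct (Y u) = B at s4 ⊢
  generalize ct N = f at *
  have s5 : 2 * (α * f) * (f * ((1 - ζ) * (α * d))) ≤ 2 * (α * f) * B :=
    mul_le_mul_of_nonneg_left s4 (by positivity)
  have s6 : f * ((1 + ζ) * (α * d)) ≤ z * (2 * (α * d)) :=
    mul_le_mul hN (mul_le_mul_of_nonneg_right (by linarith) had) (by positivity) (hf0.trans hN)
  have s7 : f ^ 2 * (3 * ζ * (α ^ 2 * d)) ≤ z ^ 2 * (3 * ζ * (α ^ 2 * d)) :=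
    mul_le_mul_of_nonneg_right (pow_le_pow_left₀ hf0 hN 2) (by positivity)
  linarith

end Pool.Agent.MP_46aeaf_co.HT

end
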