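import Pool.Agent.MP_46aeaf_co.Mg.LS_Frag
import Pool.Agent.MP_46aeaf_co.Mg.LS_Tools

-- part MP_46aeaf_co.LS.Absorb
section

set_option autoImplicit false
set_option linter.unusedSectionVars false
set_option linter.unusedVariables false

/-! The absorber: decompositions and balance. -/

namespace Pool.Agent.MP_46aeaf_co.HT

open Finset Pool.Agent.MP_81e6aa_pr Real Filter

lemma absd_uniq {α : Type} [Fintype α] {X : α → Prop} (h : ∀ a a', X a → X a' → a = a') :
    ∑ a, ind (X a) = ind (∃ a, X a) := by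
  by_cases hX : ∃ a, X a
  · rw [ind_pos hX]
    obtain ⟨a, ha⟩ := hX
    exact le_antisymm (ct_le_one h) (one_le_ct ha)
  · rw [ind_neg hX]
    exact ct_false fun a ha => hX ⟨a, ha⟩

lemma absd_or {P Q : Prop} (h : P → ¬ Q) : ind (P ∨ Q) = ind P + ind Q := by
  by_cases hP : P <;> by_cases hQ : Q <;> simp_all [ind]

lemma absd_ed {V : Type} (e : Ln V) (t : Tr V) :
    ind (ed e.1 t = e) = ∑ j, ind (ed j t = e) := by
  rw [absd_uniq fun a a' h h' => by rw [← ed_fst a t, h, ← h', ed_fst]]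
  exact ind_congr ⟨fun h => ⟨_, h⟩, fun ⟨j, h⟩ => by rw [← h]; rfl⟩

lemma absd_cls (j : Fin 15) : cls ((j + 1 : Fin 15) : ℕ) = cls j + 1 := by
  have hv : ((j + 1 : Fin 15) : ℕ) = (j + 1) % 15 := by simp [Fin.val_add]
  rw [hv, cls_mod, cls_succ]

lemma absd_reg (V : Type) [Fintype V] {m : ℕ} (hm : m ≤ Fintype.card V) :
    ∃ G : V → V → Prop, Reg G m := by
  rcases isEmpty_or_nonempty V with hV | hV
  · exact ⟨fun _ _ => True, fun r => isEmptyElim r, fun r => isEmptyElim r⟩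
  · have : NeZero (Fintype.card V) := ⟨Fintype.card_ne_zero⟩
    let e := Fintype.equivFin V
    have key : ∀ a : Fin (Fintype.card V), ct (fun c => ((a + e c : Fin _) : ℕ) < m) = m := by
      intro a
      have h1 := Equiv.sum_comp (e.trans (Equiv.addLeft a))
        (fun i : Fin (Fintype.card V) => ind ((i : ℕ) < m))
      have h2 : ct (fun i : Fin (Fintype.card V) => (i : ℕ) < m) = m := by
        rw [ct_card, Fin.card_filter_val_lt, min_eq_right hm]
      exact h1.trans h2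
    refine ⟨fun r c => ((e r + e c : Fin _) : ℕ) < m, fun r => key _, fun c => ?_⟩
    simp only [add_comm _ (e c)]
    exact key _

/-- a gradient on the lines -/
def absdG {V : Type} (f : Fin 3 → V → ℝ) (e : Ln V) : ℝ :=
  if e.1 = 0 then f 0 e.2.1 - f 1 e.2.2 else if e.1 = 1 then f 2 e.2.2 - f 0 e.2.1
    else f 1 e.2.1 - f 2 e.2.2

lemma absdG_arc {V : Type} (f : Fin 3 → V → ℝ) (k : Fin 3) (u v : V) :
    absdG f (arc k u v) = f k u - f (k + 1) v := by
  fin_cases k <;> simp [absdG, arc]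

lemma absd_fst {V : Type} [Fintype V] (R : V → V → Prop) (v : V) :
    ∑ a, ∑ b, ind (R a b) * ind (a = v) = ct (R v) := by
  rw [← sum_ind_eq v fun a => ct (R a)]
  exact sum_congr rfl fun a _ => by rw [← sum_mul, mul_comm]; rfl

lemma absd_snd {V : Type} [Fintype V] (R : V → V → Prop) (v : V) :
    ∑ a, ∑ b, ind (R a b) * ind (b = v) = ct fun a => R a v :=
  sum_congr rfl fun a _ => by
    rw [← sum_ind_eq v fun b => ind (R a b)]
    exact sum_congr rfl fun b _ => mul_comm _ _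

/-- balance follows from the vanishing of all gradients -/
lemma absd_bal {V : Type} [Fintype V] {U : Ln V → Prop} {G : V → V → Prop} {m : ℝ} (hG : Reg G m)
    (h : ∀ f : Fin 3 → V → ℝ,
      ∑ e, ind (U e) * absdG f e + ∑ r, ∑ c, ind (G r c) * absdG f (0, r, c) = 0) :
    Bal U (-m) := by
  have key : ∀ f0 f1 f2 : V → ℝ,
      (∑ a, ∑ b, ind (U (0, a, b)) * f0 a - ∑ a, ∑ b, ind (U (0, a, b)) * f1 b) +
      (∑ a, ∑ b, ind (U (1, a, b)) * f2 b - ∑ a, ∑ b, ind (U (1, a, b)) * f0 a) +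
      (∑ a, ∑ b, ind (U (2, a, b)) * f1 a - ∑ a, ∑ b, ind (U (2, a, b)) * f2 b) +
      (∑ a, ∑ b, ind (G a b) * f0 a - ∑ a, ∑ b, ind (G a b) * f1 b) = 0 := by
    intro f0 f1 f2
    have := h ![f0, f1, f2]
    rw [Fintype.sum_prod_type, Fin.sum_univ_three] at this
    simp only [Fintype.sum_prod_type] at this
    simpa [absdG, mul_sub, sum_sub_distrib] using this
  refine ⟨fun σ v => ?_, fun s => ?_⟩
  · cases σ
    · have := key (fun _ => 0) (fun a => ind (a = v)) fun _ => 0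
      simp only [mul_zero, sum_const_zero, absd_fst (fun a b => U (2, a, b)),
        absd_snd (fun a b => U (0, a, b)), absd_snd G, hG.2] at this
      simp only [cl, sl, Bool.false_eq_true, if_false]
      linarith
    · have := key (fun a => ind (a = v)) (fun _ => 0) fun _ => 0
      simp only [mul_zero, sum_const_zero, absd_fst (fun a b => U (0, a, b)),
        absd_fst (fun a b => U (1, a, b)), absd_fst G, hG.1] at this
      simp only [cl, sl, if_true]
      linarith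
  · have := key (fun _ => 0) (fun _ => 0) fun a => ind (a = s)
    simp only [mul_zero, sum_const_zero, absd_snd (fun a b => U (1, a, b)),
      absd_snd (fun a b => U (2, a, b))] at this
    simp only [sl, Bool.false_eq_true, if_false, if_true]
    linarith

namespace Blue

variable {V Obj Gad PV TT : Type} [Fintype V] [Fintype Obj] [Fintype Gad] [Fintype TT]
  [DecidableEq TT] {B : Blue V Obj Gad} {T : Tm PV TT} {m h : ℕ} {τ : ℝ}

lemma Ok.absd_cyc (hB : B.Ok m τ) (g : Gad) (ψ : Obj → ℕ → ℝ) :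
    ∑ j : Fin 15, ψ (B.ob g j) j =
      ∑ o, ind (B.cont g o) * ∑ j : Fin 15, ind (B.lo o ≤ j ∧ (j : ℕ) < B.hi o) * ψ o j := by
  simp only [mul_sum]
  rw [sum_comm]
  refine sum_congr rfl fun j _ => ?_
  rw [← sum_ind_eq (B.ob g j) fun o => ψ o j]
  refine sum_congr rfl fun o _ => ?_
  rw [← mul_assoc, ← ind_and]
  congr 1
  refine ind_congr ⟨?_, fun h => (hB.ob_eq h.1 h.2.1 h.2.2).symm⟩
  rintro rfl
  exact ⟨hB.cont_ob g j.2, hB.mem g j j.2⟩

lemma Ok.absd_cel (hB : B.Ok m τ) {r c r' c' : V} (h : B.cel r c = B.cel r' c') :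
    r = r' ∧ c = c' := by
  obtain ⟨-, -, h3, h4⟩ := hB.cel r c
  obtain ⟨-, -, h5, h6⟩ := hB.cel r' c'
  exact ⟨by rw [← h3, h, h5], by rw [← h4, h, h6]⟩

/-- For every `φ : Ln V → ℝ`, the sum over the cycles that are on is the sum over the fixed
objects and the cells of `G`. -/
theorem Ok.sum_on (hB : B.Ok m τ) (x : Obj × Fin 15 → V) (G : V → V → Prop) (On : Gad → Bool)
    (hOn : ∀ o, ct (fun g => On g = true ∧ B.cont g o) =
      ind (¬ B.isC o ∨ ∃ r c, o = B.cel r c ∧ G r c)) (φ : Ln V → ℝ) :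
    ∑ g, ind (On g = true) * ∑ j : Fin 15, φ (B.oarc x (B.ob g j) j) =
      ∑ p : Obj × Fin 15, ind (B.ov p.1 p.2) * φ (B.oarc x p.1 p.2) +
        ∑ r, ∑ c, ind (G r c) * φ (0, r, c) := by
  obtain ⟨S, hS⟩ : ∃ S : Obj → ℝ, ∀ o, S o =
      ∑ j : Fin 15, ind (B.lo o ≤ j ∧ (j : ℕ) < B.hi o) * φ (B.oarc x o j) := ⟨_, fun _ => rfl⟩
  have e1 : ∀ g, ∑ j : Fin 15, φ (B.oarc x (B.ob g j) j) = ∑ o, ind (B.cont g o) * S o :=
    fun g => by simp only [hS]; exact hB.absd_cyc g fun o k => φ (B.oarc x o k)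
  have e2 : ∑ g, ind (On g = true) * ∑ o, ind (B.cont g o) * S o =
      ∑ o, ct (fun g => On g = true ∧ B.cont g o) * S o := by
    simp only [mul_sum, ct, sum_mul]
    rw [sum_comm]
    exact sum_congr rfl fun o _ => sum_congr rfl fun g _ => by rw [ind_and, mul_assoc]
  have e3 : ∀ o, ind (¬ B.isC o ∨ ∃ r c, o = B.cel r c ∧ G r c) =
      ind (¬ B.isC o) + ∑ q : V × V, ind (o = B.cel q.1 q.2 ∧ G q.1 q.2) := fun o => by
    rw [absd_or fun h ⟨r, c, h', _⟩ => h ⟨r, c, h'⟩, absd_uniq fun q q' h h' =>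
      Prod.ext (hB.absd_cel (h.1.symm.trans h'.1)).1 (hB.absd_cel (h.1.symm.trans h'.1)).2]
    congr 1
    exact ind_congr ⟨fun ⟨r, c, h⟩ => ⟨(r, c), h⟩, fun ⟨q, h⟩ => ⟨q.1, q.2, h⟩⟩
  have e4 : ∀ r c, S (B.cel r c) = φ (0, r, c) := fun r c => by
    obtain ⟨h1, h2, -, -⟩ := hB.cel r c
    rw [hS, h1, h2, ← hB.oarc_cel x r c]
    refine (sum_congr rfl fun j _ => ?_).trans
      (sum_ind_eq (4 : Fin 15) fun j => φ (B.oarc x (B.cel r c) j))
    congr 1
    refine ind_congr ⟨fun h => Fin.ext ?_, ?_⟩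
    · show (j : ℕ) = 4
      omega
    · rintro rfl
      decide
  simp only [e1]
  rw [e2]
  simp only [hOn, e3, add_mul, sum_add_distrib]
  congr 1
  · rw [Fintype.sum_prod_type]
    refine sum_congr rfl fun o _ => ?_
    rw [hS, mul_sum]
    exact sum_congr rfl fun j _ => by rw [← mul_assoc, ← ind_and]; rfl
  · simp only [sum_mul]
    rw [sum_comm, Fintype.sum_prod_type]
    refine sum_congr rfl fun r _ => sum_congr rfl fun c _ => ?_
    rw [← e4, ← sum_ind_eq (B.cel r c) fun o => ind (G r c) * S o]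
    exact sum_congr rfl fun o _ => by rw [ind_and, mul_assoc]

omit [Fintype V] [Fintype Obj] [Fintype Gad] [Fintype TT] [DecidableEq TT] in
lemma absd_img (x : Obj × Fin 15 → V) (y : Gad × PV → V) (g : Gad) (st : Bool) (t : TT)
    (e : Ln V) : ind (ed e.1 (T.img (B.root x g) (fun z => y (g, z)) st t) = e) =
      ∑ i, ind (B.garc T x y g st t i = e) := by
  rw [absd_ed, Tm.img, sum_ed_tg _ _ _ _ fun e' => ind (e' = e), Fin.sum_univ_three]
  simp only [garc, add_zero]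
  rfl

omit [Fintype V] [Fintype Obj] [DecidableEq TT] in
open Classical in
lemma absd_filter (Q : V → V → Prop) (On : Gad → Bool) (F : Gad × TT → ℝ) :
    ∑ p ∈ univ.filter (fun p : Gad × TT => B.act Q p.1 ∧ T.val (On p.1) p.2), F p =
      ∑ g, ind (B.act Q g) * ∑ t, ind (T.val (On g) t) * F (g, t) := by
  rw [sum_filter, Fintype.sum_prod_type]
  refine sum_congr rfl fun g _ => ?_
  rw [mul_sum]
  refine sum_congr rfl fun t _ => ?_
  by_cases h1 : B.act Q g <;> by_cases h2 : T.val (On g) t <;> simp [ind, h1, h2]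

omit [Fintype Obj] [DecidableEq TT] in
lemma G2.absd_off {Λ' : ℝ} {X : Ln V → Prop} {Q : V → V → Prop} {x : Obj × Fin 15 → V}
    {y : Gad × PV → V} (h2 : B.G2 T Λ' X Q x y) (e : Ln V) :
    ∑ g, ind (B.act Q g) * ∑ t, ind (T.val false t) * ∑ i, ind (B.garc T x y g false t i = e) =
      ind (B.GdL T Q x y e) := by
  have := absd_uniq (X := fun p : Gad × TT × Fin 3 =>
    B.act Q p.1 ∧ T.val false p.2.1 ∧ B.garc T x y p.1 false p.2.1 p.2.2 = e)
    fun p p' h h' => by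
      obtain ⟨a, b, c⟩ := h2.inj _ _ _ _ _ _ h.1 h.2.1 h'.1 h'.2.1 (h.2.2.trans h'.2.2.symm)
      exact Prod.ext a (Prod.ext b c)
  simp only [Fintype.sum_prod_type, ind_and, ← mul_sum] at this
  rw [this]
  exact ind_congr ⟨fun ⟨p, h⟩ => ⟨_, _, _, h⟩, fun ⟨g, t, i, h⟩ => ⟨(g, t, i), h⟩⟩

lemma Ok.absd_ol (hB : B.Ok m τ) {Λ : ℝ} {X : Ln V → Prop} {Q : V → V → Prop}
    {x : Obj × Fin 15 → V} (h1 : B.G1 Λ X Q x) (e : Ln V) :
    ∑ p : Obj × Fin 15, ind (B.ov p.1 p.2) * ind (B.oarc x p.1 p.2 = e) = ind (B.OL x e) := by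
  simp only [← ind_and]
  rw [absd_uniq fun p p' h h' => by
    obtain ⟨a, b⟩ := h1.inj _ _ _ _ h.1 h'.1 (h.2.trans h'.2.symm)
    exact Prod.ext a (Fin.ext b)]
  exact ind_congr ⟨fun ⟨p, h⟩ => ⟨_, _, h⟩, fun ⟨o, k, h⟩ =>
    ⟨(o, ⟨k, lt_of_lt_of_le h.1.2.2 (hB.lohi o).2⟩), h⟩⟩

/-- The triples of the active gadgets decompose the lines of the absorber and the cells of `G`. -/
theorem Ok.dec (hB : B.Ok m τ) (hT : T.Ok h) {Λ Λ' : ℝ} {X : Ln V → Prop} {Q : V → V → Prop}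
    (hQ : ∀ r c, Q r c → X (0, r, c)) {x : Obj × Fin 15 → V} {y : Gad × PV → V}
    (h1 : B.G1 Λ X Q x) (h2 : B.G2 T Λ' X Q x y) {G : V → V → Prop} (hG : ∀ r c, G r c → Q r c)
    {On : Gad → Bool} (hOn : ∀ o, ct (fun g => On g = true ∧ B.cont g o) =
      ind (¬ B.isC o ∨ ∃ r c, o = B.cel r c ∧ G r c)) :
    Dec (B.FA T Q x y On)
      fun e => (B.OL x e ∨ B.GdL T Q x y e) ∨ (e.1 = 0 ∧ G e.2.1 e.2.2) := by
  classical
  have hact : ∀ g, On g = true → B.act Q g := fun g hg r c hc => by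
    have a1 := one_le_ct (X := fun g => On g = true ∧ B.cont g (B.cel r c)) ⟨hg, hc⟩
    rw [hOn] at a1
    by_contra hq
    rw [ind_neg] at a1
    · linarith
    · rintro (h | ⟨r', c', h, h'⟩)
      · exact h ⟨r, c, rfl⟩
      · obtain ⟨rfl, rfl⟩ := hB.absd_cel h
        exact hq (hG _ _ h')
  unfold FA
  refine dec_image _ _ _ fun e => ?_
  rw [absd_filter]
  simp only [absd_img]
  have e1 : ∀ g, ind (B.act Q g) * ∑ t, ind (T.val (On g) t) *
      ∑ i, ind (B.garc T x y g (On g) t i = e) =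
      ind (B.act Q g) * ∑ t, ind (T.val false t) * ∑ i, ind (B.garc T x y g false t i = e) +
        ind (On g = true) * ∑ j : Fin 15, ind (B.oarc x (B.ob g j) j = e) := by
    intro g
    cases hg : On g
    · rw [ind_neg Bool.false_ne_true, zero_mul, add_zero]
    · rw [ind_pos (hact g hg), ind_pos rfl, one_mul, one_mul, one_mul]
      simp only [← hB.root_arc]
      exact hT.iden fun k a b => ind (arc k (Sum.elim (B.root x g) (fun p => y (g, p)) a)
        (Sum.elim (B.root x g) (fun p => y (g, p)) b) = e)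
  have e2 : ∑ r, ∑ c, ind (G r c) * ind (((0, r, c) : Ln V) = e) =
      ind (e.1 = 0 ∧ G e.2.1 e.2.2) := by
    rw [← Fintype.sum_prod_type' fun r c => ind (G r c) * ind (((0, r, c) : Ln V) = e)]
    simp only [← ind_and]
    rw [absd_uniq fun q q' h h' => by simpa using h.2.trans h'.2.symm]
    refine ind_congr ⟨?_, fun h => ⟨e.2, h.2, by rw [← h.1]⟩⟩
    rintro ⟨q, h, rfl⟩
    exact ⟨rfl, h⟩
  simp only [e1, sum_add_distrib]
  rw [hB.sum_on x G On hOn fun e' => ind (e' = e), h2.absd_off, hB.absd_ol h1, e2,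
    absd_or, absd_or fun h h' => (h2.avoid e h').2 h]
  · ring
  · rintro h ⟨h3, h4⟩
    have hX : X e := by
      have := hQ _ _ (hG _ _ h4)
      rwa [← h3] at this
    exact h.elim (fun h => h1.avoid e h hX) fun h => (h2.avoid e h).1 hX

/-- The private lines of the gadgets are decomposed by the off triangles; gradients sum to zero
along the cycles. -/
theorem Ok.bal (hB : B.Ok m τ) (hT : T.Ok h) (hm : m ≤ Fintype.card V) {Λ Λ' : ℝ}
    {X : Ln V → Prop} {Q : V → V → Prop} {x : Obj × Fin 15 → V} {y : Gad × PV → V}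
    (h1 : B.G1 Λ X Q x) (h2 : B.G2 T Λ' X Q x y) :
    Bal (fun e => B.OL x e ∨ B.GdL T Q x y e) (-(m : ℝ)) := by
  classical
  have _ := hT.size
  have d1 : Dec (B.FA T Q x y fun _ => false) (B.GdL T Q x y) := by
    unfold FA
    refine dec_image _ _ _ fun e => ?_
    rw [absd_filter Q fun _ => false]
    simp only [absd_img]
    exact h2.absd_off e
  have b1 : Bal (B.GdL T Q x y) 0 := d1.1.bal.congr d1.2
  obtain ⟨G, hG⟩ := absd_reg V hm
  obtain ⟨On, hOn⟩ := hB.route G hG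
  have b2 : Bal (B.OL x) (-(m : ℝ)) := by
    refine absd_bal hG fun f => ?_
    have a1 := hB.sum_on x G On hOn (absdG f)
    have a2 : ∀ g, ∑ j : Fin 15, absdG f (B.oarc x (B.ob g j) j) = 0 := fun g => by
      simp only [← hB.root_arc, absdG_arc, ← absd_cls, sum_sub_distrib]
      rw [sub_eq_zero]
      exact (Equiv.sum_comp (Equiv.addRight (1 : Fin 15))
        fun j : Fin 15 => f (cls j) (B.root x g j)).symm
    simp only [a2, mul_zero, sum_const_zero] at a1
    rw [a1]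
    congr 1
    simp only [← hB.absd_ol h1, sum_mul]
    rw [sum_comm]
    refine sum_congr rfl fun p _ => ?_
    rw [← sum_ind_eq (B.oarc x p.1 p.2) fun e => ind (B.ov p.1 p.2) * absdG f e]
    exact sum_congr rfl fun e _ => by rw [ind_congr (eq_comm (a := e))]; ring
  simpa using b2.or b1 fun e h h' => (h2.avoid e h').2 h

end Blue

end Pool.Agent.MP_46aeaf_co.HT

/-! The absorber: exclusive families. -/

namespace Pool.Agent.MP_46aeaf_co.HT

open Finset Pool.Agent.MP_81e6aa_pr Real Filter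

/-- A family on which `f` is injective is a choice, where defined, of one point in each fibre.  One proof:
expand the right side with `Finset.prod_one_add`, and for `O : Finset Ob` bound the number of
`C ⊆ G₀` that `f` maps bijectively onto `O` by `∏ o ∈ O, ct (fibre)` (`Fintype.card_piFinset`,
`Finset.card_pi`); or induct on a finset of allowed values of `f`. -/
theorem excl_sum {Gd Ob : Type} [Fintype Gd] [Fintype Ob] (G₀ : Gd → Prop) (f : Gd → Ob) {c : ℝ}
    (hc : 0 ≤ c) :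
    ∑ C : Finset Gd, ind ((∀ g ∈ C, G₀ g) ∧ ∀ g ∈ C, ∀ g' ∈ C, f g = f g' → g = g') * c ^ C.card ≤
      ∏ o, (1 + c * ct fun g => G₀ g ∧ f g = o) := by
  classical
  set P : Finset Gd → Prop := fun C =>
    (∀ g ∈ C, G₀ g) ∧ ∀ g ∈ C, ∀ g' ∈ C, f g = f g' → g = g' with hP
  let w : Ob → Option Gd → ℝ := fun o a => a.elim 1 fun g => c * ind (G₀ g ∧ f g = o)
  have hw : ∀ o a, 0 ≤ w o a := fun o a => by
    cases a with
    | none => exact zero_le_one
    | some g => exact mul_nonneg hc (ind_nonneg _)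
  have hR : ∏ o, (1 + c * ct fun g => G₀ g ∧ f g = o) = ∑ φ : Ob → Option Gd, ∏ o, w o (φ o) := by
    have h := Finset.prod_univ_sum (fun _ : Ob => (univ : Finset (Option Gd))) w
    rw [Fintype.piFinset_univ] at h
    rw [← h]
    refine prod_congr rfl fun o _ => ?_
    rw [Fintype.sum_option, ct, mul_sum]
    rfl
  let Φ : Finset Gd → Ob → Option Gd := fun C o =>
    if h : ∃ g ∈ C, f g = o then some h.choose else none
  have hΦ : ∀ C, P C → ∀ g, g ∈ C ↔ Φ C (f g) = some g := fun C hC g => by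
    constructor
    · intro hg
      have h : ∃ g' ∈ C, f g' = f g := ⟨g, hg, rfl⟩
      simp only [Φ, dif_pos h]
      rw [hC.2 _ h.choose_spec.1 _ hg h.choose_spec.2]
    · intro hg
      by_cases h : ∃ g' ∈ C, f g' = f g
      · simp only [Φ, dif_pos h, Option.some.injEq] at hg
        rw [← hg]
        exact h.choose_spec.1
      · simp [Φ, dif_neg h] at hg
  have hW : ∀ C, P C → ∏ o, w o (Φ C o) = c ^ C.card := fun C hC => by
    have h1 : ∀ o, w o (Φ C o) = if o ∈ C.image f then c else 1 := fun o => by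
      by_cases h : ∃ g ∈ C, f g = o
      · rw [if_pos (mem_image.2 h)]
        simp only [Φ, dif_pos h, w, Option.elim]
        rw [ind_pos ⟨hC.1 _ h.choose_spec.1, h.choose_spec.2⟩, mul_one]
      · rw [if_neg fun h' => h (mem_image.1 h')]
        simp only [Φ, dif_neg h, w, Option.elim]
    simp only [h1]
    rw [prod_ite_mem, univ_inter, prod_const,
      card_image_of_injOn fun g hg g' hg' h => hC.2 g hg g' hg' h]
  have hL : ∑ C : Finset Gd, ind (P C) * c ^ C.card =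
      ∑ C ∈ univ.filter P, ∏ o, w o (Φ C o) := by
    rw [sum_filter]
    refine sum_congr rfl fun C _ => ?_
    by_cases hC : P C
    · rw [if_pos hC, ind_pos hC, one_mul, hW C hC]
    · rw [if_neg hC, ind_neg hC, zero_mul]
  have hinj : Set.InjOn Φ (univ.filter P : Finset (Finset Gd)) := fun C hC C' hC' h => by
    have hC := (mem_filter.1 (mem_coe.1 hC)).2
    have hC' := (mem_filter.1 (mem_coe.1 hC')).2
    ext g
    rw [hΦ C hC, hΦ C' hC', h]
  rw [hR]
  change ∑ C : Finset Gd, ind (P C) * c ^ C.card ≤ _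
  rw [hL, ← sum_image (f := fun φ : Ob → Option Gd => ∏ o, w o (φ o)) hinj]
  exact sum_le_univ_sum_of_nonneg fun φ => prod_nonneg fun o _ => hw o _

lemma abse_Y_nonneg {V PV TT : Type} [Fintype TT] (T : Tm PV TT) {ξ : ℝ} (hξ : 0 ≤ ξ)
    (S : Finset (Tr V)) (W : Fin 15 → V) (y : PV → V) (st : Bool) : 0 ≤ T.Y ξ S W y st := by
  unfold Tm.Y
  rw [sub_nonneg]
  exact Finset.one_le_prod fun τ _ => le_add_of_nonneg_right (mul_nonneg hξ (ind_nonneg _))

lemma abse_prod_ind {ι : Type} (s : Finset ι) (ξ : ℝ) (P : ι → Prop) [DecidablePred P] :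
    ∏ i ∈ s, (1 + ξ * ind (P i)) = (1 + ξ) ^ (s.filter P).card := by
  rw [← prod_const, prod_filter]
  refine prod_congr rfl fun i _ => ?_
  by_cases h : P i
  · rw [if_pos h, ind_pos h, mul_one]
  · rw [if_neg h, ind_neg h, mul_zero, add_zero]

lemma abse_unique {α : Type} [Fintype α] {X : α → Prop} (h : ct X ≤ 1) {a b : α} (ha : X a)
    (hb : X b) : a = b := by
  classical
  by_contra hab
  have h1 : ct (fun z => z ∈ ({a, b} : Finset α)) ≤ ct X := ct_mono fun z hz => by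
    rcases mem_insert.1 hz with rfl | hz
    · exact ha
    · rw [mem_singleton.1 hz]; exact hb
  rw [ct_mem, card_pair hab] at h1
  norm_num at h1
  linarith

namespace Blue

variable {V Obj Gad PV TT : Type} [Fintype V] [Fintype Obj] [Fintype Gad] [Fintype TT]
  [DecidableEq TT] {B : Blue V Obj Gad} {T : Tm PV TT} {m h : ℕ} {τ : ℝ}

/-- `(1 + ξ) ^ |S ∩ FA| ≤ ∏ active g, (1 + Y (On g))`.  Let `C₀` be the set of gadgets that are on
(hence active) and hit; expand `∏ g ∈ C₀, (1 + Y true)` with `Finset.prod_one_add`; every `C ⊆ C₀`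
satisfies `Exc` (two gadgets that are on and contain `o` would make the count in `hOn` at least
2); `0 ≤ Y`. -/
theorem Ok.le_psi [DecidableEq V] (hB : B.Ok m τ) {ξ : ℝ} (hξ : 0 ≤ ξ) {Q G : V → V → Prop}
    (hG : ∀ r c, G r c → Q r c) {On : Gad → Bool}
    (hOn : ∀ o, ct (fun g => On g = true ∧ B.cont g o) =
      ind (¬ B.isC o ∨ ∃ r c, o = B.cel r c ∧ G r c))
    (S T₁ : Finset (Tr V)) (hT₁ : ∀ t ∈ T₁, ¬ G t.1 t.2.1) (x : Obj × Fin 15 → V)
    (y : Gad × PV → V) :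
    (1 + ξ) ^ (S ∩ B.FA T Q x y On).card ≤ B.Psi T ξ Q S T₁ x y := by
  classical
  set Y : Gad → Bool → ℝ := fun g st => T.Y ξ S (B.root x g) (fun z => y (g, z)) st with hY
  have hY0 : ∀ g st, 0 ≤ Y g st := fun g st => abse_Y_nonneg T hξ _ _ _ _
  have hcell : ∀ g, On g = true → ∀ r c, B.cont g (B.cel r c) → G r c := fun g hg r c hc => by
    have h1 : 1 ≤ ct (fun g => On g = true ∧ B.cont g (B.cel r c)) := one_le_ct (a := g) ⟨hg, hc⟩
    rw [hOn] at h1
    by_contra hn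
    rw [ind_neg] at h1
    · norm_num at h1
    · rintro (h | ⟨r', c', h, h'⟩)
      · exact h ⟨r, c, rfl⟩
      · have e1 : r = r' := by rw [← (hB.cel r c).2.2.1, h, (hB.cel r' c').2.2.1]
        have e2 : c = c' := by rw [← (hB.cel r c).2.2.2, h, (hB.cel r' c').2.2.2]
        exact hn (e1 ▸ e2 ▸ h')
  set A : Finset Gad := univ.filter (B.act Q) with hA
  have h1 : (1 + ξ) ^ (S ∩ B.FA T Q x y On).card ≤ ∏ g ∈ A, (1 + Y g (On g)) := by
    have e : ∏ g ∈ A, (1 + Y g (On g)) = ∏ p ∈ A ×ˢ (univ : Finset TT), (1 + ξ * ind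
        (T.val (On p.1) p.2 ∧ T.img (B.root x p.1) (fun z => y (p.1, z)) (On p.1) p.2 ∈ S)) := by
      rw [prod_product]
      refine prod_congr rfl fun g _ => ?_
      simp only [hY, Tm.Y, add_sub_cancel]
    rw [e, abse_prod_ind]
    refine pow_le_pow_right₀ (le_add_of_nonneg_right hξ) ?_
    refine le_trans (card_le_card ?_) (card_image_le
      (f := fun p : Gad × TT => T.img (B.root x p.1) (fun z => y (p.1, z)) (On p.1) p.2))
    intro t ht
    obtain ⟨hS, hF⟩ := mem_inter.1 ht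
    unfold FA at hF
    simp only [mem_image, mem_filter, mem_univ, true_and] at hF
    obtain ⟨p, ⟨ha, hv⟩, rfl⟩ := hF
    exact mem_image.2 ⟨p, mem_filter.2 ⟨mem_product.2 ⟨mem_filter.2 ⟨mem_univ _, ha⟩, mem_univ _⟩,
      hv, hS⟩, rfl⟩
  refine h1.trans ?_
  set C₀ : Finset Gad := A.filter fun g => On g = true ∧ B.hit S x g with hC₀
  set Z : Gad → ℝ := fun g => 1 + Y g false + ind (¬ B.hit S x g) * Y g true with hZ
  have hZ1 : ∀ g, 1 ≤ Z g := fun g => by
    have := hY0 g false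
    have := mul_nonneg (ind_nonneg (¬ B.hit S x g)) (hY0 g true)
    simp only [hZ]
    linarith
  have hexc : ∀ C ⊆ C₀, B.Exc Q S T₁ x C := fun C hC => by
    have hm : ∀ g ∈ C, B.act Q g ∧ On g = true ∧ B.hit S x g := fun g hg => by
      have := mem_filter.1 (hC hg)
      exact ⟨(mem_filter.1 this.1).2, this.2⟩
    refine ⟨fun g hg => ⟨(hm g hg).1, (hm g hg).2.2, fun r c hc => ?_⟩, fun g hg g' hg' o h h' => ?_⟩
    · rintro ⟨t, ht, he⟩
      have hG' := hcell g (hm g hg).2.1 r c hc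
      refine hT₁ t ht ?_
      simp [ed] at he
      rw [he.1, he.2]
      exact hG'
    · exact abse_unique (X := fun g => On g = true ∧ B.cont g o) (by rw [hOn]; exact ind_le_one _)
        ⟨(hm g hg).2.1, h⟩ ⟨(hm g' hg').2.1, h'⟩
  have h2 : ∏ g ∈ A, (1 + Y g (On g)) = ∑ C ∈ C₀.powerset, (∏ g ∈ C, Y g true) *
      ∏ g ∈ A.filter (fun g => ¬ (On g = true ∧ B.hit S x g)), (1 + Y g (On g)) := by
    rw [← sum_mul, ← prod_one_add, ← prod_filter_mul_prod_filter_not A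
      fun g => On g = true ∧ B.hit S x g]
    congr 1
    exact prod_congr rfl fun g hg => by rw [(mem_filter.1 hg).2.1]
  rw [h2]
  have h3 : ∀ C ∈ C₀.powerset, (∏ g ∈ C, Y g true) *
      ∏ g ∈ A.filter (fun g => ¬ (On g = true ∧ B.hit S x g)), (1 + Y g (On g)) ≤
      ind (B.Exc Q S T₁ x C) * ((∏ g ∈ C, Y g true) *
        ∏ g ∈ univ.filter (fun g => B.act Q g ∧ g ∉ C), Z g) := fun C hC => by
    have hC := mem_powerset.1 hC
    rw [ind_pos (hexc C hC), one_mul]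
    refine mul_le_mul_of_nonneg_left ?_ (prod_nonneg fun g _ => hY0 g true)
    refine le_trans (prod_le_prod (g := Z) (fun g _ => by have := hY0 g (On g); linarith)
      fun g hg => ?_) ?_
    · have hg := (mem_filter.1 hg).2
      have := hY0 g false
      have := mul_nonneg (ind_nonneg (¬ B.hit S x g)) (hY0 g true)
      simp only [hZ]
      cases hO : On g with
      | false => linarith
      | true =>
        rw [ind_pos fun h => hg ⟨hO, h⟩]
        linarith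
    · refine prod_le_prod_of_subset_of_one_le (fun g hg => ?_)
        (fun g _ => zero_le_one.trans (hZ1 g)) fun g _ _ => hZ1 g
      have hg := mem_filter.1 hg
      exact mem_filter.2 ⟨mem_univ _, (mem_filter.1 hg.1).2,
        fun h => hg.2 (mem_filter.1 (hC h)).2⟩
  refine (sum_le_sum h3).trans ?_
  unfold Psi
  refine le_trans (sum_le_univ_sum_of_nonneg fun C => mul_nonneg (ind_nonneg _)
    (mul_nonneg (prod_nonneg fun g _ => hY0 g true)
      (prod_nonneg fun g _ => zero_le_one.trans (hZ1 g)))) (le_of_eq ?_)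
  refine sum_congr rfl fun C _ => ?_
  congr

omit [Fintype V] [Fintype Obj] [DecidableEq TT] in
theorem psi_nonneg {ξ : ℝ} (hξ : 0 ≤ ξ) (Q : V → V → Prop) (S T₁ : Finset (Tr V))
    (x : Obj × Fin 15 → V) (y : Gad × PV → V) : 0 ≤ B.Psi T ξ Q S T₁ x y := by
  unfold Psi
  refine sum_nonneg fun C _ => mul_nonneg (ind_nonneg _) (mul_nonneg
    (prod_nonneg fun g _ => abse_Y_nonneg T hξ _ _ _ _) (prod_nonneg fun g _ => ?_))
  exact add_nonneg (add_nonneg zero_le_one (abse_Y_nonneg T hξ _ _ _ _))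
    (mul_nonneg (ind_nonneg _) (abse_Y_nonneg T hξ _ _ _ _))

end Blue

end Pool.Agent.MP_46aeaf_co.HT

/-! The absorber: spread estimates. -/

namespace Pool.Agent.MP_46aeaf_co.HT

open Finset Pool.Agent.MP_81e6aa_pr Real Filter

section Aux

variable {V Gad PV TT : Type} [Fintype V] [DecidableEq V] [Nonempty V] [Fintype Gad]
  [DecidableEq Gad] [Fintype PV] [DecidableEq PV] [Fintype TT] [DecidableEq TT] {T : Tm PV TT}
  {h : ℕ}

omit [Fintype V] [Nonempty V] [Fintype PV] [DecidableEq PV] in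
lemma absh_Y (ξ : ℝ) (S : Finset (Tr V)) (W : Fin 15 → V) (y : PV → V) (st : Bool) :
    T.Y ξ S W y st = ∑ A : Finset TT, ind (A.Nonempty ∧ ∀ τ ∈ A, T.val st τ) *
      (ξ ^ A.card * ind (∀ τ ∈ A, T.img W y st τ ∈ S)) := by
  unfold Tm.Y
  rw [prod_one_add, powerset_univ, sub_eq_iff_eq_add, ← sum_ind_eq (∅ : Finset TT) fun _ => (1 : ℝ),
    ← sum_add_distrib]
  refine sum_congr rfl fun A _ => ?_
  rw [prod_mul_distrib, prod_const, ← ind_forall]
  rcases A.eq_empty_or_nonempty with rfl | hA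
  · simp [ind]
  · rw [ind_neg hA.ne_empty, mul_left_comm, ← ind_and, ind_congr (Q := (A.Nonempty ∧
      ∀ τ ∈ A, T.val st τ) ∧ ∀ τ ∈ A, T.img W y st τ ∈ S) ⟨fun h => ⟨⟨hA, fun τ hτ => (h τ hτ).1⟩,
        fun τ hτ => (h τ hτ).2⟩, fun h τ hτ => ⟨h.1.2 τ hτ, h.2 τ hτ⟩⟩]
    simp

lemma absh_prod (hT : T.Ok h) {ξ : ℝ} (h0 : 0 ≤ ξ) (hξ : 8 * ξ ≤ exp (-30) * Fintype.card V)
    (hn : (Fintype.card V : ℝ) ≤ exp (15 * h)) {μ : (Gad × PV → V) → ℝ}
    (hμ : Dom (fun _ => unif V) μ) {S : Finset (Tr V)} (hS : PL S) (s : Finset Gad)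
    (W : Gad → Fin 15 → V) (c₀ : Gad → ℝ) (c : Gad → Bool → ℝ) (hc₀ : ∀ g, 0 ≤ c₀ g)
    (hc : ∀ g st, 0 ≤ c g st) :
    Av μ (fun y => ∏ g ∈ s, (c₀ g + ∑ st, c g st * T.Y ξ S (W g) (fun z => y (g, z)) st)) ≤
      ∏ g ∈ s, (c₀ g + ∑ st, c g st * (exp (exp (-15) * Fintype.card TT) * phi S (W g) st)) := by
  classical
  let f : Gad → Option (Bool × Finset TT) → (PV → V) → ℝ := fun g a y => a.elim (c₀ g) fun b =>
    c g b.1 * (ind (b.2.Nonempty ∧ ∀ τ ∈ b.2, T.val b.1 τ) *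
      (ξ ^ b.2.card * ind (∀ τ ∈ b.2, T.img (W g) y b.1 τ ∈ S)))
  let J : Gad → Option (Bool × Finset TT) → Finset PV := fun _ a => a.elim ∅ fun b =>
    univ.filter fun p => ∃ τ ∈ b.2, ∃ i, T.v b.1 τ i = Sum.inr p
  have hw := (pm_unif V).isP PV
  have f0 : ∀ g a y, 0 ≤ f g a y := fun g a y => by
    cases a with
    | none => exact hc₀ g
    | some b => exact mul_nonneg (hc _ _) (mul_nonneg (ind_nonneg _)
        (mul_nonneg (pow_nonneg h0 _) (ind_nonneg _)))
  have hJ : ∀ (g : Gad) (st : Bool) (A : Finset TT), (J g (some (st, A))).card ≤ 3 * A.card := by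
    intro g st A
    have : (J g (some (st, A))).image (Sum.inr : PV → Fin 15 ⊕ PV) ⊆
        (A ×ˢ (univ : Finset (Fin 3))).image fun z => T.v st z.1 z.2 := by
      intro z hz
      obtain ⟨p, hp, rfl⟩ := mem_image.1 hz
      obtain ⟨τ, hτ, i, hi⟩ := (mem_filter.1 hp).2
      exact mem_image.2 ⟨(τ, i), mem_product.2 ⟨hτ, mem_univ _⟩, hi⟩
    have h1 := (card_le_card this).trans card_image_le
    rw [card_image_of_injective _ Sum.inr_injective, card_product] at h1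
    simpa [mul_comm] using h1
  have key := hμ.prod (pm_unif V) s f J f0 fun g a y y' hy => by
    cases a with
    | none => rfl
    | some b =>
      have : ∀ τ ∈ b.2, T.img (W g) y b.1 τ = T.img (W g) y' b.1 τ := fun τ hτ => by
        have : ∀ i, Sum.elim (W g) y (T.v b.1 τ i) = Sum.elim (W g) y' (T.v b.1 τ i) := fun i => by
          rcases hv : T.v b.1 τ i with j | p
          · rfl
          · exact hy p (mem_filter.2 ⟨mem_univ _, τ, hτ, i, hv⟩)
        unfold Tm.img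
        rw [this 0, this 1, this 2]
      simp only [f, Option.elim]
      rw [ind_congr (forall₂_congr fun τ hτ => by rw [this τ hτ])]
  refine le_trans (le_of_eq (Av_congr fun y => prod_congr rfl fun g _ => ?_))
    (key.trans (prod_le_prod (fun g _ => sum_nonneg fun a _ => mul_nonneg (by positivity)
      (Ex_nonneg hw.nonneg (f0 g a))) fun g _ => ?_))
  · rw [Fintype.sum_option, Fintype.sum_prod_type]
    simp only [f, Option.elim, absh_Y, mul_sum]
  · rw [Fintype.sum_option, Fintype.sum_prod_type]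
    refine add_le_add (le_of_eq ?_) (sum_le_sum fun st _ => ?_)
    · simp only [f, J, Option.elim, card_empty, pow_zero, one_mul]
      exact Ex_const hw _
    · refine le_trans ?_ (mul_le_mul_of_nonneg_left (hT.zbound hS (W g) st h0 hξ hn) (hc g st))
      rw [mul_sum]
      refine sum_le_sum fun A _ => ?_
      have h8 : (2 : ℝ) ^ (J g (some (st, A))).card ≤ 8 ^ A.card := by
        rw [show (8 : ℝ) = 2 ^ 3 by norm_num, ← pow_mul]
        exact pow_le_pow_right₀ (by norm_num) (hJ g st A)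
      refine (mul_le_mul_of_nonneg_right h8 (Ex_nonneg hw.nonneg (f0 g _))).trans (le_of_eq ?_)
      simp only [f, Option.elim]
      rw [Ex_smul, Ex_smul, Ex_smul, mul_pow]
      ring

omit [DecidableEq V] in
lemma absh_phi {S : Finset (Tr V)} (hS : PL S) (W : Fin 15 → V) (st : Bool) :
    0 ≤ phi S W st ∧ phi S W st ≤ 17 := by
  have hn : (0 : ℝ) < Fintype.card V := by exact_mod_cast Fintype.card_pos
  unfold phi
  have h1 : (S.card : ℝ) / (Fintype.card V : ℝ) ^ 2 ≤ 1 := by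
    rw [div_le_one (by positivity)]; exact hS.card_le
  have h2 : ∑ j : Fin 15, dv S (cls j) (W j) / Fintype.card V ≤ ∑ _j : Fin 15, (1 : ℝ) :=
    sum_le_sum fun j _ => by rw [div_le_one hn]; exact hS.dv_le _ _
  have h3 : 0 ≤ ∑ j : Fin 15, dv S (cls j) (W j) / Fintype.card V :=
    sum_nonneg fun j _ => div_nonneg (dv_nonneg _ _ _) hn.le
  simp only [sum_const, card_univ, Fintype.card_fin, nsmul_eq_mul, mul_one, Nat.cast_ofNat] at h2
  exact ⟨add_nonneg (add_nonneg (by positivity) h3) (ind_nonneg _), by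
    linarith [ind_le_one (st = true ∧ ∃ j : Fin 15, Cv S (arc (cls j) (W j) (W (j + 1))))]⟩

omit [DecidableEq V] [DecidableEq Gad] in
lemma absh_sum (S : Finset (Tr V)) (a : Gad → Prop) [DecidablePred a] (W : Gad → Fin 15 → V)
    {N Λ : ℝ} (hN : ct a ≤ N)
    (hΛ : ∀ v, ct (fun p : Gad × Fin 15 => a p.1 ∧ W p.1 p.2 = v) ≤ Λ) :
    ∑ g ∈ univ.filter a, phi S (W g) false ≤
      (N / (Fintype.card V : ℝ) ^ 2 + 3 * Λ / Fintype.card V) * S.card := by
  have hn : (0 : ℝ) < Fintype.card V := by exact_mod_cast Fintype.card_pos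
  have h1 : ∑ g ∈ univ.filter a, ∑ j : Fin 15, dv S (cls j) (W g j) ≤ 3 * Λ * S.card := by
    calc _ ≤ ∑ p : Gad × Fin 15, ∑ v, ind (a p.1 ∧ W p.1 p.2 = v) * ∑ k, dv S k v := by
          rw [sum_filter, Fintype.sum_prod_type]
          refine sum_le_sum fun g _ => ?_
          split_ifs with hg
          · refine sum_le_sum fun j _ => le_trans ?_ (single_le_sum
              (f := fun v => ind (a g ∧ W g j = v) * ∑ k, dv S k v)
              (fun v _ => mul_nonneg (ind_nonneg _) (sum_nonneg fun _ _ => dv_nonneg _ _ _))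
              (mem_univ (W g j)))
            rw [ind_pos ⟨hg, rfl⟩, one_mul]
            exact single_le_sum (f := fun k => dv S k (W g j)) (fun _ _ => dv_nonneg _ _ _)
              (mem_univ _)
          · exact sum_nonneg fun _ _ => sum_nonneg fun _ _ =>
              mul_nonneg (ind_nonneg _) (sum_nonneg fun _ _ => dv_nonneg _ _ _)
      _ ≤ ∑ v, Λ * ∑ k, dv S k v := by
          rw [sum_comm]
          refine sum_le_sum fun v _ => ?_
          rw [← sum_mul]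
          exact mul_le_mul_of_nonneg_right (hΛ v) (sum_nonneg fun _ _ => dv_nonneg _ _ _)
      _ = _ := by
          rw [← mul_sum, sum_comm, sum_congr rfl fun k _ => sum_dv S k]
          simp; ring
  have h2 : ((univ.filter a).card : ℝ) ≤ N := (ct_card a).symm.le.trans hN
  unfold phi
  simp only [Bool.false_eq_true, false_and, ind_neg not_false, add_zero, ← sum_div]
  rw [sum_add_distrib, sum_const, nsmul_eq_mul, ← sum_div, add_mul, div_mul_eq_mul_div,
    div_mul_eq_mul_div, ← mul_div_assoc]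
  gcongr

end Aux

namespace Blue

variable {V Obj Gad PV TT : Type} [Fintype V] [DecidableEq V] [Nonempty V] [Fintype Obj]
  [DecidableEq Obj] [Fintype Gad] [DecidableEq Gad] [Fintype PV] [DecidableEq PV] [Fintype TT]
  [DecidableEq TT] {B : Blue V Obj Gad} {T : Tm PV TT} {m h : ℕ} {τ : ℝ}

/-- Mean over the private vertices.  Put `K = exp (exp (-15) * card TT)`.  By `prod_one_add`,
`Y st = ∑ A, ind (A.Nonempty ∧ valid) * ξ ^ |A| * ind (∀ τ ∈ A, img ∈ S)`.  For fixed `C` apply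
`Dom.prod` on the active gadgets with index type `Option (Bool × Finset TT)` (`none`: the constant
`ind (g ∉ C)`), `J` = the at most `3 |A|` private vertices of the triangles in `A`.  `zbound`
bounds the factor of `g ∈ C` by `17 K` (`PL.card_le`, `PL.dv_le`) and the factor of `g ∉ C` by
`1 + 2 K φ⁰ g ≤ exp (2 K φ⁰ g)`, `φ⁰ g = phi S (root x g) false` (`root_arc` for gadgets that are
not hit).  `∑ active g, φ⁰ g ≤ N |S| / n ^ 2 + 3 |S| Λ / n` (`sum_dv`; bound
`dv S (cls j) v ≤ ∑ k, dv S k v`).  Finally choose for each hit gadget `g` a position `j` and let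
`f g = ob g j` (any `ob g 0` otherwise); `Exc` implies the condition of `excl_sum` with
`G₀ g = act Q g ∧ cont g (f g) ∧ hitO (f g)`. -/
theorem Ok.psi_le (hB : B.Ok m τ) (hT : T.Ok h) {ξ N Λ : ℝ} (h0 : 0 ≤ ξ)
    (hξ : 8 * ξ ≤ exp (-30) * Fintype.card V) (hn : (Fintype.card V : ℝ) ≤ exp (15 * h))
    {Q : V → V → Prop} (hN : ct (B.act Q) ≤ N) {x : Obj × Fin 15 → V}
    (hΛ : ∀ v, ct (fun p : Gad × Fin 15 => B.act Q p.1 ∧ B.root x p.1 p.2 = v) ≤ Λ)
    {μ : (Gad × PV → V) → ℝ} (hμ0 : ∀ y, 0 ≤ μ y) (hμ : Dom (fun _ => unif V) μ)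
    {S : Finset (Tr V)} (hS : PL S) (T₁ : Finset (Tr V)) :
    Av μ (fun y => B.Psi T ξ Q S T₁ x y) ≤
      exp (2 * exp (exp (-15) * Fintype.card TT) *
        (N / (Fintype.card V : ℝ) ^ 2 + 3 * Λ / Fintype.card V) * S.card) *
      B.HO (17 * exp (exp (-15) * Fintype.card TT)) Q S T₁ x := by
  classical
  obtain ⟨K, hK⟩ : ∃ K, K = exp (exp (-15) * Fintype.card TT) := ⟨_, rfl⟩
  have hK0 : 0 ≤ K := hK ▸ (exp_pos _).le
  have hφ := fun g st => absh_phi hS (B.root x g) st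
  have hf : ∀ g, ∃ j : Fin 15, B.hit S x g → Cv S (B.oarc x (B.ob g j) j) := fun g => by
    by_cases hg : B.hit S x g
    · exact ⟨hg.choose, fun _ => hg.choose_spec⟩
    · exact ⟨0, fun h => absurd h hg⟩
  choose j hj using hf
  have key : ∀ C : Finset Gad, B.Exc Q S T₁ x C → Av μ (fun y =>
      (∏ g ∈ C, T.Y ξ S (B.root x g) (fun z => y (g, z)) true) *
      ∏ g ∈ univ.filter (fun g => B.act Q g ∧ g ∉ C),
        (1 + T.Y ξ S (B.root x g) (fun z => y (g, z)) false +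
          ind (¬ B.hit S x g) * T.Y ξ S (B.root x g) (fun z => y (g, z)) true)) ≤
      (17 * K) ^ C.card * exp (2 * K * ∑ g ∈ univ.filter (B.act Q), phi S (B.root x g) false) := by
    intro C hC
    have e1 : (univ.filter (B.act Q)).filter (· ∈ C) = C := by
      ext g; simpa using fun h => (hC.1 g h).1
    have e2 : (univ.filter (B.act Q)).filter (· ∉ C) = univ.filter fun g => B.act Q g ∧ g ∉ C :=
      filter_filter _ _ _
    have := absh_prod hT h0 hξ hn hμ hS (univ.filter (B.act Q)) (B.root x)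
      (fun g => if g ∈ C then 0 else 1)
      (fun g st => if g ∈ C then (if st then 1 else 0) else if st then ind (¬ B.hit S x g) else 1)
      (fun g => by split_ifs <;> norm_num)
      (fun g st => by split_ifs <;> first | exact ind_nonneg _ | norm_num)
    rw [← hK] at this
    refine le_trans (le_of_eq (Av_congr fun y => ?_)) (this.trans ?_)
    · rw [← prod_filter_mul_prod_filter_not (univ.filter (B.act Q)) (· ∈ C), e1, e2]
      congr 1
      · exact prod_congr rfl fun g hg => by simp [hg]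
      · exact prod_congr rfl fun g hg => by simp [(mem_filter.1 hg).2.2]; ring
    · have e3 : (17 * K) ^ C.card = ∏ g ∈ univ.filter (B.act Q), if g ∈ C then 17 * K else 1 := by
        rw [prod_ite, e1, prod_const, prod_const_one, mul_one]
      rw [e3, mul_sum, exp_sum, ← prod_mul_distrib]
      refine prod_le_prod (fun g _ => add_nonneg (by split_ifs <;> norm_num)
        (sum_nonneg fun st _ => mul_nonneg (by split_ifs <;> first | exact ind_nonneg _ | norm_num)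
          (mul_nonneg hK0 (hφ g st).1))) fun g _ => ?_
      have p1 := add_one_le_exp (2 * K * phi S (B.root x g) false)
      have p2 := mul_nonneg hK0 (hφ g false).1
      by_cases hg : g ∈ C
      · simp only [hg, if_true, Fintype.sum_bool, Bool.false_eq_true, if_false]
        have p3 := mul_le_mul_of_nonneg_left (hφ g true).2 hK0
        nlinarith
      · simp only [hg, if_true, Fintype.sum_bool, Bool.false_eq_true, if_false]
        have p3 : ind (¬ B.hit S x g) * (K * phi S (B.root x g) true) ≤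
            K * phi S (B.root x g) false := by
          by_cases hh : B.hit S x g
          · rw [ind_neg (not_not.2 hh), zero_mul]; exact p2
          · rw [ind_pos hh, one_mul]
            unfold phi
            rw [ind_neg fun ⟨_, i, hi⟩ => hh ⟨i, hB.root_arc x g i ▸ hi⟩,
              ind_neg fun h => Bool.false_ne_true h.1]
        linarith
  have hE := exp_le_exp.2 (mul_le_mul_of_nonneg_left (absh_sum S (B.act Q) (B.root x) hN hΛ)
    (show 0 ≤ 2 * K by positivity))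
  rw [← mul_assoc] at hE
  have hX := excl_sum (fun g => B.act Q g ∧ B.cont g (B.ob g (j g)) ∧
    B.hitO Q S T₁ x (B.ob g (j g))) (fun g => B.ob g (j g)) (show 0 ≤ 17 * K by positivity)
  have hH : ∏ o, (1 + 17 * K * ct fun g => (B.act Q g ∧ B.cont g (B.ob g (j g)) ∧
      B.hitO Q S T₁ x (B.ob g (j g))) ∧ B.ob g (j g) = o) ≤ B.HO (17 * K) Q S T₁ x := by
    refine prod_le_prod (fun o _ => add_nonneg zero_le_one (mul_nonneg (by positivity)
      (ct_nonneg _))) fun o _ => ?_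
    rw [mul_assoc (17 * K)]
    refine add_le_add_right (mul_le_mul_of_nonneg_left ?_ (by positivity)) _
    by_cases ho : B.hitO Q S T₁ x o
    · rw [ind_pos ho, mul_one]
      exact ct_mono fun g ⟨⟨a, b, _⟩, d⟩ => ⟨a, d ▸ b⟩
    · rw [ind_neg ho, mul_zero, ct_false fun g ⟨⟨_, _, c⟩, d⟩ => ho (d ▸ c)]
  rw [← hK]
  unfold Psi
  rw [Av_sum, mul_comm]
  refine le_trans ?_ (mul_le_mul (hX.trans hH) hE (exp_pos _).le
    (le_trans (sum_nonneg fun C _ => mul_nonneg (ind_nonneg _) (by positivity)) (hX.trans hH)))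
  rw [sum_mul]
  refine sum_le_sum fun C _ => ?_
  rw [Av_smul]
  by_cases hC : B.Exc Q S T₁ x C
  · rw [ind_pos hC, one_mul, ind_pos, one_mul]
    · refine le_trans (le_of_eq ?_) (key C hC)
      congr!
    · refine ⟨fun g hg => ?_, fun g hg g' hg' e =>
        hC.2 g hg g' hg' _ (hB.cont_ob g (j g).2) (e ▸ hB.cont_ob g' (j g').2)⟩
      obtain ⟨a, b, c⟩ := hC.1 g hg
      have hc := hB.cont_ob g (j g).2
      exact ⟨a, hc, ⟨_, (hB.mem g _ (j g).2).1, (hB.mem g _ (j g).2).2, hj g b⟩,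
        fun r c' e => ⟨a r c' (e ▸ hc), c r c' (e ▸ hc)⟩⟩
  · rw [ind_neg hC, zero_mul]
    exact mul_nonneg (mul_nonneg (ind_nonneg _) (by positivity)) (exp_pos _).le

end Blue

end Pool.Agent.MP_46aeaf_co.HT

/-! The absorber: mean over the objects. -/

namespace Pool.Agent.MP_46aeaf_co.HT

open Finset Pool.Agent.MP_81e6aa_pr Real Filter

lemma absi_prod_ind {ι : Type} (s : Finset ι) (P : ι → Prop) [DecidablePred P] (b : ℝ) :
    ∏ i ∈ s, (1 + b * ind (P i)) = (1 + b) ^ (s.filter P).card := by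
  rw [← prod_const, prod_filter]
  exact prod_congr rfl fun i _ => by by_cases h : P i <;> simp [ind, h]

lemma absi_cv {V : Type} {S : Finset (Tr V)} {k : Fin 3} {u v : V} (h : Cv S (arc k u v)) :
    ∃ t ∈ S, co k t = u ∧ co (k + 1) t = v := by
  obtain ⟨t, ht, he⟩ := h
  refine ⟨t, ht, ?_⟩
  fin_cases k <;> simp [arc, ed, co, Prod.ext_iff] at he ⊢ <;> tauto

lemma absi_ex1 {V P : Type} [Fintype V] [Nonempty V] [Fintype P] [DecidableEq P] (a : V) (p : P) :
    Ex (fun _ : P => unif V) (fun y => ind (a = y p)) = (Fintype.card V : ℝ)⁻¹ := by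
  have h := Ex_all (fun _ : P => unif V) ((pm_unif V).isP P) {p} (fun _ b => ind (a = b))
  simp only [prod_singleton] at h
  rw [h]
  unfold unif
  rw [← mul_sum]
  have : ∑ b, ind (a = b) = 1 := (ct_congr fun v => eq_comm).trans (ct_eq a)
  rw [this, mul_one]

lemma absi_ex2 {V P : Type} [Fintype V] [Nonempty V] [Fintype P] [DecidableEq P] (a b : V)
    {p q : P} (h : p ≠ q) :
    Ex (fun _ : P => unif V) (fun y => ind (a = y p) * ind (b = y q)) =
      ((Fintype.card V : ℝ) ^ 2)⁻¹ := by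
  rw [Ex_mul ((pm_unif V).isP P) (A := fun i => i = p) (B := fun i => i = q)
    (fun x y hxy => by rw [hxy p rfl]) (fun x y hxy => by rw [hxy q rfl])
    (fun i h1 h2 => h (h1.symm.trans h2)), absi_ex1, absi_ex1, sq, mul_inv]

namespace Blue

variable {V Obj Gad : Type} [Fintype V] [DecidableEq V] [Nonempty V] [Fintype Obj]
  [DecidableEq Obj] [Fintype Gad] {B : Blue V Obj Gad} {m : ℕ} {τ : ℝ}

/-- the vertex at position `k` in terms of the inner vertices of one object -/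
def absi_pt (B : Blue V Obj Gad) (o : Obj) (y : Fin 15 → V) (k : ℕ) : V :=
  if k = B.lo o then B.st o else if k = B.hi o then B.en o else y (Fin.ofNat 15 k)

lemma absi_pos (hB : B.Ok m τ) {o : Obj} (ho : ¬ B.isC o) {k : ℕ} (h1 : B.lo o ≤ k)
    (h2 : k < B.hi o) (a b : V) :
    Ex (fun _ : Fin 15 => unif V)
      (fun y => ind (a = absi_pt B o y k) * ind (b = absi_pt B o y (k + 1))) ≤
      ((Fintype.card V : ℝ) ^ 2)⁻¹ + ind (B.st o = a) * (Fintype.card V : ℝ)⁻¹ +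
        ind (k + 1 = B.hi o ∧ B.en o = b) * (Fintype.card V : ℝ)⁻¹ := by
  have hl := hB.long o ho
  have h15 := (hB.lohi o).2
  have n1 : (0 : ℝ) ≤ (Fintype.card V : ℝ)⁻¹ := by positivity
  have n2 : (0 : ℝ) ≤ ((Fintype.card V : ℝ) ^ 2)⁻¹ := by positivity
  have i1 := mul_nonneg (ind_nonneg (B.st o = a)) n1
  have i2 := mul_nonneg (ind_nonneg (k + 1 = B.hi o ∧ B.en o = b)) n1
  have e1 : k + 1 ≠ B.lo o := by omega
  have e2 : k ≠ B.hi o := by omega
  by_cases c1 : k = B.lo o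
  · have e3 : k + 1 ≠ B.hi o := by omega
    simp only [absi_pt, if_pos c1, if_neg e1, if_neg e3]
    rw [Ex_smul, absi_ex1, ind_congr (eq_comm (a := a))]
    linarith
  · by_cases c2 : k + 1 = B.hi o
    · simp only [absi_pt, if_neg c1, if_neg e1, if_neg e2, if_pos c2]
      rw [Ex_mul_const, absi_ex1, mul_comm, ind_congr (eq_comm (a := b)),
        ind_congr (and_iff_right c2)]
      linarith
    · simp only [absi_pt, if_neg c1, if_neg e1, if_neg e2, if_neg c2]
      rw [absi_ex2]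
      · linarith
      · intro h
        have := congrArg Fin.val h
        simp only [Fin.val_ofNat] at this
        omega

lemma absi_cells (hB : B.Ok m τ) {c : ℝ} (hc : 0 ≤ c) {Q : V → V → Prop} (hQ : DegLe Q (2 * τ))
    (S T₁ : Finset (Tr V)) (s : Finset Obj) (hs : ∀ o ∈ s, B.isC o) (x : Obj × Fin 15 → V) :
    ∏ o ∈ s, (1 + c * ct (fun g => B.act Q g ∧ B.cont g o) * ind (B.hitO Q S T₁ x o)) ≤
      ∏ t ∈ S \ T₁, (1 + c * (10 * τ ^ 30) * ind (Q t.1 t.2.1)) := by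
  classical
  have hM := hB.mobj Q hQ
  have h30 : 0 ≤ 10 * τ ^ 30 := by positivity
  generalize 10 * τ ^ 30 = a at hM h30
  have hca : 0 ≤ c * a := mul_nonneg hc h30
  calc _ ≤ ∏ o ∈ s, (1 + c * a * ind (B.hitO Q S T₁ x o)) := by
        refine prod_le_prod (fun o _ => ?_) fun o _ => ?_
        · have := mul_nonneg (mul_nonneg hc (ct_nonneg fun g => B.act Q g ∧ B.cont g o))
            (ind_nonneg (B.hitO Q S T₁ x o))
          linarith
        · have := mul_le_mul_of_nonneg_right (mul_le_mul_of_nonneg_left (hM o) hc)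
            (ind_nonneg (B.hitO Q S T₁ x o))
          linarith
    _ ≤ _ := by
        rw [absi_prod_ind, absi_prod_ind (S \ T₁) fun t => Q t.1 t.2.1]
        refine pow_le_pow_right₀ (by linarith) ?_
        refine le_trans (card_le_card ?_) (card_image_le (f := fun t : Tr V => B.cel t.1 t.2.1))
        intro o ho
        obtain ⟨ho, ⟨k, k1, k2, hk⟩, h2⟩ := mem_filter.1 ho
        obtain ⟨r, c', rfl⟩ := hs o ho
        obtain ⟨q1, q2⟩ := h2 r c' rfl
        obtain ⟨l1, l2, -, -⟩ := hB.cel r c'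
        obtain rfl : k = 4 := by omega
        rw [hB.oarc_cel] at hk
        obtain ⟨t, ht, he⟩ := hk
        have he' := he
        simp only [ed0, Prod.mk.injEq, true_and] at he'
        obtain ⟨rfl, rfl⟩ := he'
        exact mem_image.2 ⟨t, mem_filter.2 ⟨mem_sdiff.2 ⟨ht, fun h => q2 ⟨t, h, he⟩⟩, q1⟩, rfl⟩

/-- sums over objects at a position, weighted by the number of gadgets, are sums over gadgets -/
lemma absi_swap (hB : B.Ok m τ) (A : Gad → Prop) (k : ℕ) (F : Obj → ℝ) (hF : ∀ o, 0 ≤ F o) :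
    ∑ o, ct (fun g => A g ∧ B.cont g o) * (ind (B.lo o ≤ k ∧ k < B.hi o) * F o) ≤
      ∑ g, ind (A g) * F (B.ob g k) := by
  unfold ct
  simp only [sum_mul]
  rw [sum_comm]
  refine sum_le_sum fun g _ => ?_
  rw [← sum_ind_eq (B.ob g k) fun o => ind (A g) * F o]
  refine sum_le_sum fun o _ => ?_
  rw [← mul_assoc, ← mul_assoc, ← ind_and, ← ind_and]
  exact mul_le_mul_of_nonneg_right
    (ind_mono fun h => ⟨(hB.ob_eq h.1.2 h.2.1 h.2.2).symm, h.1.1⟩) (hF o)

lemma absi_gad (hB : B.Ok m τ) {Q : V → V → Prop} (hQ : DegLe Q (2 * τ)) {k : ℕ} (hk : k < 15)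
    (a b : V) {n₁ n₂ : ℝ} (h1 : 0 ≤ n₁) (h2 : 0 ≤ n₂) :
    ∑ g, ind (B.act Q g) * (n₂ + ind (B.st (B.ob g k) = a) * n₁ +
      ind (k + 1 = B.hi (B.ob g k) ∧ B.en (B.ob g k) = b) * n₁) ≤
      10 * τ ^ 81 * n₂ + 20 * τ ^ 46 * n₁ := by
  have g1 := hB.ngad Q hQ
  have g2 := hB.lgad Q hQ a
  have g3 := hB.lgad Q hQ b
  have g4 : ct (fun g => B.act Q g ∧ B.st (B.ob g k) = a) ≤ 10 * τ ^ 46 :=
    (ct_mono fun g h => ⟨h.1, k, hk, h.2⟩).trans g2
  have g5 : ct (fun g => B.act Q g ∧ (k + 1 = B.hi (B.ob g k) ∧ B.en (B.ob g k) = b)) ≤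
      10 * τ ^ 46 :=
    (ct_mono fun g h => ⟨h.1, (k + 1) % 15, Nat.mod_lt _ (by norm_num),
      (hB.chain g k hk h.2.1).2.trans h.2.2⟩).trans g3
  have e : ∑ g, ind (B.act Q g) * (n₂ + ind (B.st (B.ob g k) = a) * n₁ +
      ind (k + 1 = B.hi (B.ob g k) ∧ B.en (B.ob g k) = b) * n₁) =
      ct (B.act Q) * n₂ + ct (fun g => B.act Q g ∧ B.st (B.ob g k) = a) * n₁ +
      ct (fun g => B.act Q g ∧ (k + 1 = B.hi (B.ob g k) ∧ B.en (B.ob g k) = b)) * n₁ := by
    unfold ct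
    simp only [sum_mul, ← sum_add_distrib]
    refine sum_congr rfl fun g _ => ?_
    rw [ind_and (B.act Q g), ind_and (B.act Q g)]
    ring
  rw [e]
  generalize τ ^ 81 = u at *
  generalize τ ^ 46 = v at *
  have j1 := mul_le_mul_of_nonneg_right g1 h2
  have j2 := mul_le_mul_of_nonneg_right g4 h1
  have j3 := mul_le_mul_of_nonneg_right g5 h1
  linarith

/-- the terms of the expansion for one fixed object -/
noncomputable def absi_h (B : Blue V Obj Gad) (M : Obj → ℝ) (S : Finset (Tr V)) (o : Obj) :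
    Option (Fin 15) → (Fin 15 → V) → ℝ
  | none, _ => 1
  | some k, y => M o * (ind (¬ B.isC o ∧ B.lo o ≤ k ∧ k < B.hi o) *
      ∑ t ∈ S, ind (co (cls k) t = absi_pt B o y k) *
        ind (co (cls k + 1) t = absi_pt B o y (k + 1)))

def absi_J : Option (Fin 15) → Finset (Fin 15)
  | none => ∅
  | some k => {k, Fin.ofNat 15 (k + 1)}

lemma absi_fix (hB : B.Ok m τ) {M : Obj → ℝ} (hM : ∀ o, 0 ≤ M o) (Q : V → V → Prop)
    (S T₁ : Finset (Tr V)) (x : Obj × Fin 15 → V) {o : Obj} (ho : ¬ B.isC o) :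
    1 + M o * ind (B.hitO Q S T₁ x o) ≤ ∑ a, absi_h B M S o a fun p => x (o, p) := by
  rw [Fintype.sum_option]
  simp only [absi_h]
  rw [← mul_sum]
  refine add_le_add le_rfl (mul_le_mul_of_nonneg_left ?_ (hM o))
  have nn : ∀ k : Fin 15, 0 ≤ ind (¬ B.isC o ∧ B.lo o ≤ k ∧ k < B.hi o) *
      ∑ t ∈ S, ind (co (cls k) t = absi_pt B o (fun p => x (o, p)) k) *
        ind (co (cls k + 1) t = absi_pt B o (fun p => x (o, p)) (k + 1)) := fun k =>
    mul_nonneg (ind_nonneg _) (sum_nonneg fun _ _ => mul_nonneg (ind_nonneg _) (ind_nonneg _))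
  refine ind_le (sum_nonneg fun k _ => nn k) ?_
  rintro ⟨⟨k, k1, k2, hk⟩, -⟩
  have h15 := (hB.lohi o).2
  refine le_trans ?_ (single_le_sum (fun k _ => nn k) (mem_univ (⟨k, by omega⟩ : Fin 15)))
  obtain ⟨t, ht, e1, e2⟩ := absi_cv hk
  rw [ind_pos ⟨ho, k1, k2⟩, one_mul]
  refine le_trans ?_ (single_le_sum
    (fun _ _ => mul_nonneg (ind_nonneg _) (ind_nonneg _)) ht)
  rw [ind_pos (by exact e1), ind_pos (by exact e2), one_mul]

lemma absi_term (hB : B.Ok m τ) {M : Obj → ℝ} (hM : ∀ o, 0 ≤ M o) (S : Finset (Tr V)) (o : Obj)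
    (k : Fin 15) :
    2 ^ (absi_J (some k)).card * Ex (fun _ : Fin 15 => unif V) (absi_h B M S o (some k)) ≤
      4 * ∑ t ∈ S, M o * (ind (B.lo o ≤ k ∧ k < B.hi o) *
        (((Fintype.card V : ℝ) ^ 2)⁻¹ + ind (B.st o = co (cls k) t) * (Fintype.card V : ℝ)⁻¹ +
        ind (k + 1 = B.hi o ∧ B.en o = co (cls k + 1) t) * (Fintype.card V : ℝ)⁻¹)) := by
  have hw := ((pm_unif V).isP (Fin 15)).nonneg
  have h4 : (2 : ℝ) ^ (absi_J (some k)).card ≤ 4 :=
    (pow_le_pow_right₀ (by norm_num) card_le_two).trans (by norm_num)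
  have n1 : (0 : ℝ) ≤ (Fintype.card V : ℝ)⁻¹ := by positivity
  have n2 : (0 : ℝ) ≤ ((Fintype.card V : ℝ) ^ 2)⁻¹ := by positivity
  refine mul_le_mul h4 ?_ (Ex_nonneg hw fun y => mul_nonneg (hM o) (mul_nonneg (ind_nonneg _)
    (sum_nonneg fun _ _ => mul_nonneg (ind_nonneg _) (ind_nonneg _)))) (by norm_num)
  have e : absi_h B M S o (some k) = fun y => M o * (ind (¬ B.isC o ∧ B.lo o ≤ k ∧ k < B.hi o) *
      ∑ t ∈ S, ind (co (cls k) t = absi_pt B o y k) *
        ind (co (cls k + 1) t = absi_pt B o y (k + 1))) := rfl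
  rw [e, Ex_smul, Ex_smul, Ex_sum, ← mul_sum, ← mul_sum]
  refine mul_le_mul_of_nonneg_left ?_ (hM o)
  by_cases h : ¬ B.isC o ∧ B.lo o ≤ k ∧ k < B.hi o
  · rw [ind_pos h, ind_pos h.2, one_mul, one_mul]
    exact sum_le_sum fun t _ => absi_pos hB h.1 h.2.1 h.2.2 _ _
  · rw [ind_neg h, zero_mul]
    exact mul_nonneg (ind_nonneg _) (sum_nonneg fun t _ => add_nonneg (add_nonneg n2
      (mul_nonneg (ind_nonneg _) n1)) (mul_nonneg (ind_nonneg _) n1))

lemma absi_dep (B : Blue V Obj Gad) (M : Obj → ℝ) (S : Finset (Tr V)) (o : Obj)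
    (a : Option (Fin 15)) : Dep (fun p => p ∈ absi_J a) (absi_h B M S o a) := by
  intro y y' h
  cases a with
  | none => rfl
  | some k =>
    have e1 : absi_pt B o y k = absi_pt B o y' k := by
      unfold absi_pt
      rw [h (Fin.ofNat 15 k) (by simp [absi_J])]
    have e2 : absi_pt B o y (k + 1) = absi_pt B o y' (k + 1) := by
      unfold absi_pt
      rw [h (Fin.ofNat 15 (k + 1)) (by simp [absi_J])]
    simp only [absi_h, e1, e2]

lemma absi_fixed (hB : B.Ok m τ) {c : ℝ} (hc : 0 ≤ c) {Q : V → V → Prop} (hQ : DegLe Q (2 * τ))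
    {μ : (Obj × Fin 15 → V) → ℝ} (h0 : ∀ x, 0 ≤ μ x) (hμ : Dom (fun _ => unif V) μ)
    (S T₁ : Finset (Tr V)) (s : Finset Obj) (hs : ∀ o ∈ s, ¬ B.isC o) :
    Av μ (fun x => ∏ o ∈ s,
      (1 + c * ct (fun g => B.act Q g ∧ B.cont g o) * ind (B.hitO Q S T₁ x o))) ≤
      exp (10000 * c * (τ ^ 81 / (Fintype.card V : ℝ) ^ 2 + τ ^ 46 / Fintype.card V) *
        S.card) := by
  obtain ⟨M, hMe⟩ : ∃ M : Obj → ℝ, M = fun o => c * ct (fun g => B.act Q g ∧ B.cont g o) :=
    ⟨_, rfl⟩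
  have hM : ∀ o, 0 ≤ M o := fun o => by rw [hMe]; exact mul_nonneg hc (ct_nonneg _)
  have hw := ((pm_unif V).isP (Fin 15)).nonneg
  have n1 : (0 : ℝ) ≤ (Fintype.card V : ℝ)⁻¹ := by positivity
  have n2 : (0 : ℝ) ≤ ((Fintype.card V : ℝ) ^ 2)⁻¹ := by positivity
  have hh : ∀ o a y, 0 ≤ absi_h B M S o a y := fun o a y => by
    cases a with
    | none => exact zero_le_one
    | some k => exact mul_nonneg (hM o) (mul_nonneg (ind_nonneg _)
        (sum_nonneg fun _ _ => mul_nonneg (ind_nonneg _) (ind_nonneg _)))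
  obtain ⟨P, hP⟩ : ∃ P : Obj → Fin 15 → Tr V → ℝ, P = fun o (k : Fin 15) t =>
      ((Fintype.card V : ℝ) ^ 2)⁻¹ + ind (B.st o = co (cls k) t) * (Fintype.card V : ℝ)⁻¹ +
        ind ((k : ℕ) + 1 = B.hi o ∧ B.en o = co (cls k + 1) t) * (Fintype.card V : ℝ)⁻¹ := ⟨_, rfl⟩
  have hP0 : ∀ o k t, 0 ≤ P o k t := fun o k t => by
    rw [hP]
    exact add_nonneg (add_nonneg n2 (mul_nonneg (ind_nonneg _) n1)) (mul_nonneg (ind_nonneg _) n1)
  have hE0 : ∀ o, 0 ≤ ∑ k : Fin 15, 4 * ∑ t ∈ S, M o * (ind (B.lo o ≤ k ∧ k < B.hi o) * P o k t) :=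
    fun o => sum_nonneg fun k _ => mul_nonneg (by norm_num) (sum_nonneg fun t _ =>
      mul_nonneg (hM o) (mul_nonneg (ind_nonneg _) (hP0 o k t)))
  calc _ ≤ Av μ (fun x => ∏ o ∈ s, ∑ a, absi_h B M S o a fun p => x (o, p)) := by
        refine Av_mono h0 fun x => prod_le_prod (fun o _ => ?_) fun o ho => ?_
        · exact add_nonneg zero_le_one (mul_nonneg (mul_nonneg hc (ct_nonneg _)) (ind_nonneg _))
        · have := absi_fix hB hM Q S T₁ x (hs o ho)
          rwa [show M o = c * ct (fun g => B.act Q g ∧ B.cont g o) by rw [hMe]] at this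
    _ ≤ ∏ o ∈ s, ∑ a, 2 ^ (absi_J a).card * Ex (fun _ : Fin 15 => unif V) (absi_h B M S o a) :=
        Dom.prod (pm_unif V) hμ s (absi_h B M S) (fun _ => absi_J) hh (absi_dep B M S)
    _ ≤ ∏ o ∈ s, exp (∑ k : Fin 15, 4 * ∑ t ∈ S,
          M o * (ind (B.lo o ≤ k ∧ k < B.hi o) * P o k t)) := by
        refine prod_le_prod (fun o _ => sum_nonneg fun a _ =>
          mul_nonneg (by positivity) (Ex_nonneg hw (hh o a))) fun o _ => ?_
        refine le_trans ?_ (add_one_le_exp _)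
        rw [Fintype.sum_option, add_comm]
        refine add_le_add (sum_le_sum fun k _ => ?_) ?_
        · rw [hP]; exact absi_term hB hM S o k
        · have : absi_h B M S o none = fun _ => 1 := rfl
          rw [this, Ex_const ((pm_unif V).isP (Fin 15))]
          simp [absi_J]
    _ ≤ _ := by
        rw [← exp_sum, exp_le_exp]
        refine (sum_le_sum_of_subset_of_nonneg (subset_univ s) fun o _ _ => hE0 o).trans ?_
        rw [sum_comm]
        have key : ∀ k : Fin 15, ∑ o, 4 * ∑ t ∈ S,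
            M o * (ind (B.lo o ≤ k ∧ k < B.hi o) * P o k t) ≤
            4 * (S.card * (c * (10 * τ ^ 81 * ((Fintype.card V : ℝ) ^ 2)⁻¹ +
              20 * τ ^ 46 * (Fintype.card V : ℝ)⁻¹))) := by
          intro k
          rw [← mul_sum, sum_comm]
          refine mul_le_mul_of_nonneg_left ?_ (by norm_num)
          rw [← nsmul_eq_mul]
          refine sum_le_card_nsmul _ _ _ fun t _ => ?_
          simp only [hMe, mul_assoc c]
          rw [← mul_sum]
          refine mul_le_mul_of_nonneg_left ?_ hc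
          refine (absi_swap hB (B.act Q) k (fun o => P o k t) fun o => hP0 o k t).trans ?_
          rw [hP]
          exact absi_gad hB hQ k.2 _ _ n1 n2
        refine (sum_le_card_nsmul _ _ _ fun k _ => key k).trans ?_
        have t81 : 0 ≤ τ ^ 81 := by
          have := (ct_nonneg _).trans (hB.ngad Q hQ)
          linarith
        have t46 : 0 ≤ τ ^ 46 := by positivity
        rw [div_eq_mul_inv, div_eq_mul_inv]
        have a1 := mul_nonneg t81 n2
        have a2 := mul_nonneg t46 n1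
        rw [mul_assoc 10, mul_assoc 20]
        generalize τ ^ 81 * ((Fintype.card V : ℝ) ^ 2)⁻¹ = u at *
        generalize τ ^ 46 * (Fintype.card V : ℝ)⁻¹ = v at *
        have b1 := mul_nonneg (mul_nonneg hc a1) (Nat.cast_nonneg (α := ℝ) S.card)
        have b2 := mul_nonneg (mul_nonneg hc a2) (Nat.cast_nonneg (α := ℝ) S.card)
        simp only [card_univ, Fintype.card_fin, nsmul_eq_mul, Nat.cast_ofNat]
        linarith

/-- Mean over the inner vertices of the objects.  Split the product into cells and fixed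
objects.  Cells: the factor does not depend on `x` (`oarc_cel`) and is `1` unless the cell is in
`Q` and covered by some `t ∈ S \ T₁`; use `mobj`.  Fixed objects: `Dom.prod` with index type
`Option (Fin 15)` (`ind hitO ≤ ∑ k, ind (ov o k ∧ Cv S (oarc x o k))`, at most two variables each);
the probability for position `k` is at most `|S| / n ^ 2 + ind (k = lo o) * dv S (cls k) (st o) / n +
ind (k + 1 = hi o) * dv S (cls (k + 1)) (en o) / n`.  With `M o` the number of active gadgets through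
`o`: `∑ o, M o ≤ 15 * 10 τ ^ 81`, and `∑ o with st o = v, M o ≤ 15 * 10 τ ^ 46`, the same for `en`
by `chain` (`ngad`, `lgad`, `sum_dv`). -/
theorem Ok.ho_le (hB : B.Ok m τ) {c : ℝ} (hc : 0 ≤ c) {Q : V → V → Prop} (hQ : DegLe Q (2 * τ))
    {μ : (Obj × Fin 15 → V) → ℝ} (h0 : ∀ x, 0 ≤ μ x) (hμ : Dom (fun _ => unif V) μ)
    {S : Finset (Tr V)} (hS : PL S) (T₁ : Finset (Tr V)) :
    Av μ (fun x => B.HO c Q S T₁ x) ≤
      exp (10000 * c * (τ ^ 81 / (Fintype.card V : ℝ) ^ 2 + τ ^ 46 / Fintype.card V) * S.card) *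
      ∏ t ∈ S \ T₁, (1 + c * (10 * τ ^ 30) * ind (Q t.1 t.2.1)) := by
  classical
  have hc0 : ∀ x o, 0 ≤ 1 + c * ct (fun g => B.act Q g ∧ B.cont g o) * ind (B.hitO Q S T₁ x o) :=
    fun x o => add_nonneg zero_le_one (mul_nonneg (mul_nonneg hc (ct_nonneg _)) (ind_nonneg _))
  have hR : 0 ≤ ∏ t ∈ S \ T₁, (1 + c * (10 * τ ^ 30) * ind (Q t.1 t.2.1)) :=
    prod_nonneg fun t _ =>
      add_nonneg zero_le_one (mul_nonneg (mul_nonneg hc (by positivity)) (ind_nonneg _))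
  refine le_trans (Av_mono h0 (g := fun x => (∏ o ∈ univ.filter fun o => ¬ B.isC o,
    (1 + c * ct (fun g => B.act Q g ∧ B.cont g o) * ind (B.hitO Q S T₁ x o))) *
      ∏ t ∈ S \ T₁, (1 + c * (10 * τ ^ 30) * ind (Q t.1 t.2.1))) fun x => ?_) ?_
  · unfold HO
    rw [← prod_filter_not_mul_prod_filter univ B.isC]
    exact mul_le_mul_of_nonneg_left
      (absi_cells hB hc hQ S T₁ _ (fun o ho => (mem_filter.1 ho).2) x)
      (prod_nonneg fun o _ => hc0 x o)
  · rw [Av_mul_const]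
    exact mul_le_mul_of_nonneg_right
      (absi_fixed hB hc hQ h0 hμ S T₁ _ fun o ho => (mem_filter.1 ho).2) hR

end Blue

end Pool.Agent.MP_46aeaf_co.HT

end

-- part MP_46aeaf_co.LS.Net
section

set_option autoImplicit false
set_option linter.unusedSectionVars false
set_option linter.unusedVariables false

/-! The routing network behind the absorber: definitions. -/

namespace Pool.Agent.MP_46aeaf_co.HT

open Finset

/-- Objects.  `M` indexes the units of a row or column, `Dm` the dummy units, units have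
addresses in `(A₁ × A₂) × B`. -/
inductive BO (V M Dm A₁ A₂ B : Type)
  | cel (r c : V)
  | t0L (r : V) (i : M)
  | t0R (c : V) (i : M)
  | dum (u : Dm)
  | t1L (a : A₁ × A₂) (j : B)
  | t1R (a : A₁ × A₂) (j : B)
  | wp (a a' : A₁) (j : B) (j₂ : A₂)
  | wm (a a' : A₁) (j : B) (j₂ : A₂)
  | t2L (a : A₁) (j : B) (j₂ : A₂)
  | t2R (a : A₁) (j : B) (j₂ : A₂)
  deriving DecidableEq, Fintype

set_option synthInstance.maxSize 1024 in
/-- Cycles. -/
inductive BG (V M Dm A₁ A₂ B : Type)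
  | main (r c : V) (i i' : M) (j : B) (j₂ : A₂)
  | dum (u : Dm) (j : B) (j₂ : A₂)
  | idle (a a' : A₁) (j : B) (j₂ : A₂)
  | fin (a a' : A₁) (j : B) (j₂ : A₂)
  deriving DecidableEq, Fintype

/-- addresses of the units and positions of the hubs -/
structure Net (V M A₁ A₂ B : Type) where
  emb : V × M ↪ (A₁ × A₂) × B
  g : A₁ × A₂ ↪ V
  G : A₁ × B ↪ V
  H : B × A₂ ↪ V

namespace Net

variable {V M A₁ A₂ B : Type} (N : Net V M A₁ A₂ B)

abbrev Dm := {u : (A₁ × A₂) × B // ∀ p, N.emb p ≠ u}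

abbrev Obj := BO V M N.Dm A₁ A₂ B

abbrev Gad := BG V M N.Dm A₁ A₂ B

def lo : N.Obj → ℕ
  | .cel _ _ => 4 | .t0L _ _ => 2 | .t0R _ _ => 5 | .dum _ => 2 | .t1L _ _ => 0 | .t1R _ _ => 7
  | .wp _ _ _ _ => 0 | .wm _ _ _ _ => 9 | .t2L _ _ _ => 12 | .t2R _ _ _ => 9

def hi : N.Obj → ℕ
  | .cel _ _ => 5 | .t0L _ _ => 4 | .t0R _ _ => 7 | .dum _ => 7 | .t1L _ _ => 2 | .t1R _ _ => 9
  | .wp _ _ _ _ => 9 | .wm _ _ _ _ => 15 | .t2L _ _ _ => 15 | .t2R _ _ _ => 12

def st : N.Obj → V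
  | .cel r _ => r | .t0L r i => N.g (N.emb (r, i)).1 | .t0R c _ => c | .dum u => N.g u.1.1
  | .t1L a j => N.G (a.1, j) | .t1R a _ => N.g a | .wp a _ j _ => N.G (a, j)
  | .wm _ a' j _ => N.G (a', j) | .t2L _ j j₂ => N.H (j, j₂) | .t2R a j _ => N.G (a, j)

def en : N.Obj → V
  | .cel _ c => c | .t0L r _ => r | .t0R c i => N.g (N.emb (c, i)).1 | .dum u => N.g u.1.1
  | .t1L a _ => N.g a | .t1R a j => N.G (a.1, j) | .wp _ a' j _ => N.G (a', j)
  | .wm a _ j _ => N.G (a, j) | .t2L a j _ => N.G (a, j) | .t2R _ j j₂ => N.H (j, j₂)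

def ob : N.Gad → ℕ → N.Obj
  | .main r c i i' j j₂, k =>
    if k < 2 then .t1L (N.emb (r, i)).1 j else if k < 4 then .t0L r i else if k < 5 then .cel r c
    else if k < 7 then .t0R c i' else if k < 9 then .t1R (N.emb (c, i')).1 j
    else .wm (N.emb (r, i)).1.1 (N.emb (c, i')).1.1 j j₂
  | .dum u j j₂, k =>
    if k < 2 then .t1L u.1.1 j else if k < 7 then .dum u else if k < 9 then .t1R u.1.1 j
    else .wm u.1.1.1 u.1.1.1 j j₂
  | .idle a a' j j₂, k => if k < 9 then .wp a a' j j₂ else .wm a a' j j₂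
  | .fin a a' j j₂, k =>
    if k < 9 then .wp a a' j j₂ else if k < 12 then .t2R a' j j₂ else .t2L a j j₂

def blue : Blue V N.Obj N.Gad := ⟨N.lo, N.hi, N.st, N.en, .cel, N.ob⟩

end Net

end Pool.Agent.MP_46aeaf_co.HT

/-! The routing network: structure and routing. -/

namespace Pool.Agent.MP_46aeaf_co.HT

open Finset Pool.Agent.MP_81e6aa_pr

theorem blpa_col {E A : Type} [Fintype A] [DecidableEq A] (s t : E → A) (k : ℕ) :
    ∀ S : Finset E, (∀ a, (S.filter (fun e => s e = a)).card = k) →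
      (∀ a, (S.filter (fun e => t e = a)).card = k) →
      ∃ c : E → ℕ, (∀ e ∈ S, c e < k) ∧
        (∀ e ∈ S, ∀ e' ∈ S, s e = s e' → c e = c e' → e = e') ∧
        ∀ e ∈ S, ∀ e' ∈ S, t e = t e' → c e = c e' → e = e' := by
  classical
  induction k with
  | zero =>
    intro S hs _
    have hS : ∀ e, e ∉ S := fun e he => by
      have h := hs (s e)
      rw [card_eq_zero] at h
      have : e ∈ (∅ : Finset E) := h ▸ (by simp [he])
      simp at this
    exact ⟨fun _ => 0, fun e he => (hS e he).elim, fun e he => (hS e he).elim,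
      fun e he => (hS e he).elim⟩
  | succ k ih =>
    intro S hs ht
    have hs' : ∀ a, (S.filter (fun e => s e = a)).card = k + 1 := fun a => by convert hs a
    have ht' : ∀ a, (S.filter (fun e => t e = a)).card = k + 1 := fun a => by convert ht a
    have hcount : ∀ (u : E → A), (∀ a, (S.filter (fun e => u e = a)).card = k + 1) →
        ∀ T : Finset A, (S.filter (fun e => u e ∈ T)).card = T.card * (k + 1) := by
      intro u hu T
      rw [card_eq_sum_card_fiberwise (f := u) (s := S.filter (fun e => u e ∈ T)) (t := T)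
        (fun e he => (mem_filter.1 he).2)]
      rw [sum_congr rfl (g := fun _ => k + 1), sum_const, smul_eq_mul]
      intro a ha
      rw [← hu a]
      congr 1
      ext e
      simp only [mem_filter]
      exact ⟨fun h => ⟨h.1.1, h.2⟩, fun h => ⟨⟨h.1, h.2 ▸ ha⟩, h.2⟩⟩
    obtain ⟨f, hf, hfm⟩ := (all_card_le_biUnion_card_iff_exists_injective
      (fun a => (S.filter (fun e => s e = a)).image t)).1 (by
        intro T
        have h1 := hcount s hs' T
        have h2 := hcount t ht' (T.biUnion fun a => (S.filter (fun e => s e = a)).image t)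
        have h3 : S.filter (fun e => s e ∈ T) ⊆ S.filter (fun e => t e ∈
            T.biUnion fun a => (S.filter (fun e => s e = a)).image t) := by
          intro e he
          rw [mem_filter] at he ⊢
          exact ⟨he.1, mem_biUnion.2 ⟨s e, he.2, mem_image_of_mem _ (mem_filter.2 ⟨he.1, rfl⟩)⟩⟩
        have h4 := card_le_card h3
        rw [h1, h2] at h4
        exact Nat.le_of_mul_le_mul_right h4 (Nat.succ_pos k))
    have hm : ∀ a, ∃ e, e ∈ S ∧ s e = a ∧ t e = f a := fun a => by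
      obtain ⟨e, he, h⟩ := mem_image.1 (hfm a)
      exact ⟨e, (mem_filter.1 he).1, (mem_filter.1 he).2, h⟩
    choose m hmS hms hmt using hm
    have hfs : Function.Surjective f := Finite.surjective_of_injective hf
    obtain ⟨c, hc, hc1, hc2⟩ := ih (S.filter fun e => e ≠ m (s e)) (fun a => by
        have : (S.filter fun e => e ≠ m (s e)).filter (fun e => s e = a) =
            (S.filter (fun e => s e = a)).erase (m a) := by
          ext e
          simp only [mem_filter, mem_erase]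
          constructor
          · rintro ⟨⟨h1, h2⟩, h3⟩
            exact ⟨h3 ▸ h2, h1, h3⟩
          · rintro ⟨h1, h2, h3⟩
            exact ⟨⟨h2, h3 ▸ h1⟩, h3⟩
        have h2 : ((S.filter fun e => e ≠ m (s e)).filter (fun e => s e = a)).card = k := by
          rw [this, card_erase_of_mem (mem_filter.2 ⟨hmS a, hms a⟩), hs']
          rfl
        convert h2)
      (fun a => by
        obtain ⟨b, rfl⟩ := hfs a
        have : (S.filter fun e => e ≠ m (s e)).filter (fun e => t e = f b) =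
            (S.filter (fun e => t e = f b)).erase (m b) := by
          ext e
          simp only [mem_filter, mem_erase]
          constructor
          · rintro ⟨⟨h1, h2⟩, h3⟩
            refine ⟨?_, h1, h3⟩
            rintro rfl
            exact h2 (by rw [hms])
          · rintro ⟨h1, h2, h3⟩
            refine ⟨⟨h2, fun h => h1 ?_⟩, h3⟩
            have : f (s e) = f b := by rw [← hmt, ← h, h3]
            rw [← hf this]
            exact h
        have h2 : ((S.filter fun e => e ≠ m (s e)).filter (fun e => t e = f b)).card = k := by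
          rw [this, card_erase_of_mem (mem_filter.2 ⟨hmS b, hmt b⟩), ht']
          rfl
        convert h2)
    have hlt : ∀ e ∈ S, e ≠ m (s e) → c e < k := fun e he h => hc e (mem_filter.2 ⟨he, h⟩)
    refine ⟨fun e => if e = m (s e) then k else c e, ?_, ?_, ?_⟩
    · intro e he
      by_cases h : e = m (s e)
      · simp only [if_pos h]; omega
      · simp only [if_neg h]; have := hlt e he h; omega
    · intro e he e' he' h1 h2
      by_cases h : e = m (s e) <;> by_cases h' : e' = m (s e')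
      · rw [h, h', h1]
      · simp only [if_pos h, if_neg h'] at h2; have := hlt e' he' h'; omega
      · simp only [if_neg h, if_pos h'] at h2; have := hlt e he h; omega
      · simp only [if_neg h, if_neg h'] at h2
        exact hc1 e (mem_filter.2 ⟨he, h⟩) e' (mem_filter.2 ⟨he', h'⟩) h1 h2
    · intro e he e' he' h1 h2
      by_cases h : e = m (s e) <;> by_cases h' : e' = m (s e')
      · have : f (s e) = f (s e') := by rw [← hmt, ← hmt, ← h, ← h', h1]
        rw [h, h', hf this]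
      · simp only [if_pos h, if_neg h'] at h2; have := hlt e' he' h'; omega
      · simp only [if_neg h, if_pos h'] at h2; have := hlt e he h; omega
      · simp only [if_neg h, if_neg h'] at h2
        exact hc2 e (mem_filter.2 ⟨he, h⟩) e' (mem_filter.2 ⟨he', h'⟩) h1 h2

/-- Edge colouring of regular bipartite multigraphs. -/
theorem konig {A B : Type} [Fintype A] [Fintype B] (β : A × B ≃ A × B) :
    ∃ j : A × B → B, (∀ a, Function.Bijective fun b => j (a, b)) ∧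
      ∀ a, Function.Bijective fun b => j (β.symm (a, b)) := by
  classical
  have h1 : ∀ a : A, (univ.filter (fun e : A × B => e.1 = a)).card = Fintype.card B := by
    intro a
    rw [← card_univ, ← card_image_of_injective univ (Prod.mk_right_injective a)]
    congr 1
    ext ⟨x, y⟩
    simp [eq_comm]
  obtain ⟨c, hc, hc1, hc2⟩ := blpa_col (fun e : A × B => e.1) (fun e => (β e).1) (Fintype.card B)
    univ (fun a => by convert h1 a) (fun a => by
      have : (univ.filter (fun e : A × B => (β e).1 = a)).card = Fintype.card B := by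
        rw [← h1 a]
        exact card_equiv β (fun e => by simp)
      convert this)
  refine ⟨fun e => (Fintype.equivFin B).symm ⟨c e, hc e (mem_univ _)⟩, fun a => ?_, fun a => ?_⟩
  · refine Finite.injective_iff_bijective.1 (fun b b' h => ?_)
    have h2 := congrArg Fin.val ((Fintype.equivFin B).symm.injective h)
    exact (Prod.ext_iff.1 (hc1 (a, b) (mem_univ _) (a, b') (mem_univ _) rfl h2)).2
  · refine Finite.injective_iff_bijective.1 (fun b b' h => ?_)
    have h2 := congrArg Fin.val ((Fintype.equivFin B).symm.injective h)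
    have h3 := hc2 (β.symm (a, b)) (mem_univ _) (β.symm (a, b')) (mem_univ _) (by simp) h2
    exact (Prod.ext_iff.1 (β.symm.injective h3)).2

namespace Net

variable {V M A₁ A₂ B : Type} (N : Net V M A₁ A₂ B)

/-- Case analysis (`interval_cases k`). -/
theorem shape :
    (∀ o, N.blue.lo o < N.blue.hi o ∧ N.blue.hi o ≤ 15) ∧
    (∀ o, ¬ N.blue.isC o → N.blue.lo o + 2 ≤ N.blue.hi o) ∧
    (∀ g k, k < 15 → N.blue.lo (N.blue.ob g k) ≤ k ∧ k < N.blue.hi (N.blue.ob g k)) ∧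
    (∀ g k k', k < 15 → N.blue.lo (N.blue.ob g k) ≤ k' → k' < N.blue.hi (N.blue.ob g k) →
      N.blue.ob g k' = N.blue.ob g k) ∧
    ∀ g k, k < 15 → k + 1 = N.blue.hi (N.blue.ob g k) →
      N.blue.lo (N.blue.ob g ((k + 1) % 15)) = (k + 1) % 15 ∧
        N.blue.st (N.blue.ob g ((k + 1) % 15)) = N.blue.en (N.blue.ob g k) := by
  refine ⟨?_, ?_, ?_, ?_, ?_⟩
  · intro o
    cases o <;> simp [blue, lo, hi]
  · intro o ho
    cases o
    case cel r c => exact absurd ⟨r, c, rfl⟩ ho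
    all_goals simp [blue, lo, hi]
  · intro g k hk
    cases g <;> interval_cases k <;> simp [blue, lo, hi, ob]
  · intro g k k' hk h1 h2
    cases g <;> interval_cases k <;> simp only [blue, lo, hi, ob] at h1 h2 ⊢ <;>
      norm_num at h1 h2 ⊢ <;> interval_cases k' <;> simp
  · intro g k hk h
    cases g <;> interval_cases k <;> simp [blue, lo, hi, ob, st, en] at h ⊢

end Net

end Pool.Agent.MP_46aeaf_co.HT

/-! The routing network: loads. -/

namespace Pool.Agent.MP_46aeaf_co.HT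

open Finset Pool.Agent.MP_81e6aa_pr

namespace Net

variable {V M A₁ A₂ B : Type} (N : Net V M A₁ A₂ B) [Fintype V] [DecidableEq V] [Fintype M]
  [DecidableEq M] [Fintype A₁] [DecidableEq A₁] [Fintype A₂] [DecidableEq A₂] [Fintype B]
  [DecidableEq B]

/-- Sizes of the index sets. -/
structure Sz (V M A₁ A₂ B : Type) [Fintype V] [Fintype M] [Fintype A₁] [Fintype A₂] [Fintype B]
    (τ : ℝ) : Prop where
  two : 2 ≤ τ
  hM : (Fintype.card M : ℝ) ≤ τ
  h1 : (Fintype.card A₁ : ℝ) = τ ^ 23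
  h2 : (Fintype.card A₂ : ℝ) = τ ^ 14
  hB : (Fintype.card B : ℝ) = τ ^ 14

/-- the constructor of an object -/
def blpb_tag : N.Obj → Fin 10
  | .cel _ _ => 0 | .t0L _ _ => 1 | .t0R _ _ => 2 | .dum _ => 3 | .t1L _ _ => 4 | .t1R _ _ => 5
  | .wp _ _ _ _ => 6 | .wm _ _ _ _ => 7 | .t2L _ _ _ => 8 | .t2R _ _ _ => 9

/-- the data of an object that is not a cell -/
def blpb_all : N.Obj → Option (A₁ × A₁ × B × A₂)
  | .cel _ _ => none
  | .t0L r i => some ((N.emb (r, i)).1.1, (N.emb (r, i)).1.1, (N.emb (r, i)).2, (N.emb (r, i)).1.2)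
  | .t0R r i => some ((N.emb (r, i)).1.1, (N.emb (r, i)).1.1, (N.emb (r, i)).2, (N.emb (r, i)).1.2)
  | .dum u => some (u.1.1.1, u.1.1.1, u.1.2, u.1.1.2)
  | .t1L a j => some (a.1, a.1, j, a.2)
  | .t1R a j => some (a.1, a.1, j, a.2)
  | .wp a a' j k => some (a, a', j, k)
  | .wm a a' j k => some (a, a', j, k)
  | .t2L a j k => some (a, a, j, k)
  | .t2R a j k => some (a, a, j, k)

/-- what remains of an object once its first vertex is known -/
def blpb_st : N.Obj → Option (B ⊕ M ⊕ A₂ ⊕ A₁ ⊕ A₁ × A₂)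
  | .cel _ _ => none
  | .t0L r i => some (.inl (N.emb (r, i)).2)
  | .t0R _ i => some (.inr (.inl i))
  | .dum u => some (.inl u.1.2)
  | .t1L a _ => some (.inr (.inr (.inl a.2)))
  | .t1R _ j => some (.inl j)
  | .wp _ a' _ k => some (.inr (.inr (.inr (.inr (a', k)))))
  | .wm a _ _ k => some (.inr (.inr (.inr (.inr (a, k)))))
  | .t2L a _ _ => some (.inr (.inr (.inr (.inl a))))
  | .t2R _ _ k => some (.inr (.inr (.inl k)))

/-- what remains of an object once its last vertex is known -/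
def blpb_en : N.Obj → Option (B ⊕ M ⊕ A₂ ⊕ A₁ ⊕ A₁ × A₂)
  | .cel _ _ => none
  | .t0L _ i => some (.inr (.inl i))
  | .t0R r i => some (.inl (N.emb (r, i)).2)
  | .dum u => some (.inl u.1.2)
  | .t1L _ j => some (.inl j)
  | .t1R a _ => some (.inr (.inr (.inl a.2)))
  | .wp a _ _ k => some (.inr (.inr (.inr (.inr (a, k)))))
  | .wm _ a' _ k => some (.inr (.inr (.inr (.inr (a', k)))))
  | .t2L _ _ k => some (.inr (.inr (.inl k)))
  | .t2R a _ _ => some (.inr (.inr (.inr (.inl a))))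

omit [Fintype V] [DecidableEq V] [Fintype M] [DecidableEq M] [Fintype A₁] [DecidableEq A₁]
  [Fintype A₂] [DecidableEq A₂] [Fintype B] [DecidableEq B] in
lemma blpb_emb {r r' : V} {i i' : M} (h1 : (N.emb (r, i)).1 = (N.emb (r', i')).1)
    (h2 : (N.emb (r, i)).2 = (N.emb (r', i')).2) : r = r' ∧ i = i' := by
  simpa using N.emb.injective (Prod.ext h1 h2)

omit [Fintype V] [DecidableEq V] [Fintype M] [DecidableEq M] [Fintype A₁] [DecidableEq A₁]
  [Fintype A₂] [DecidableEq A₂] [Fintype B] [DecidableEq B] in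
lemma blpb_all_inj {o o' : N.Obj} (ho : ¬ N.blue.isC o) (ht : N.blpb_tag o = N.blpb_tag o')
    (h : N.blpb_all o = N.blpb_all o') : o = o' := by
  cases o <;> cases o' <;> simp only [blpb_tag, Fin.reduceEq] at ht <;>
    simp only [blpb_all, Option.some.injEq, Prod.mk.injEq] at h
  · exact absurd ⟨_, _, rfl⟩ ho
  · obtain ⟨rfl, rfl⟩ := N.blpb_emb (Prod.ext h.1 h.2.2.2) h.2.2.1; rfl
  · obtain ⟨rfl, rfl⟩ := N.blpb_emb (Prod.ext h.1 h.2.2.2) h.2.2.1; rfl
  · rw [Subtype.ext (Prod.ext (Prod.ext h.1 h.2.2.2) h.2.2.1)]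
  · rw [Prod.ext h.1 h.2.2.2, h.2.2.1]
  · rw [Prod.ext h.1 h.2.2.2, h.2.2.1]
  · rw [h.1, h.2.1, h.2.2.1, h.2.2.2]
  · rw [h.1, h.2.1, h.2.2.1, h.2.2.2]
  · rw [h.1, h.2.2.1, h.2.2.2]
  · rw [h.1, h.2.2.1, h.2.2.2]

omit [Fintype V] [DecidableEq V] [Fintype M] [DecidableEq M] [Fintype A₁] [DecidableEq A₁]
  [Fintype A₂] [DecidableEq A₂] [Fintype B] [DecidableEq B] in
lemma blpb_st_inj {o o' : N.Obj} (ho : ¬ N.blue.isC o) (ht : N.blpb_tag o = N.blpb_tag o')
    (h : N.blpb_st o = N.blpb_st o') (hs : N.st o = N.st o') : o = o' := by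
  cases o <;> cases o' <;> simp only [blpb_tag, Fin.reduceEq] at ht <;>
    simp only [blpb_st, Option.some.injEq, Prod.mk.injEq, Sum.inl.injEq, Sum.inr.injEq] at h <;>
    simp only [st, EmbeddingLike.apply_eq_iff_eq, Prod.mk.injEq] at hs
  · exact absurd ⟨_, _, rfl⟩ ho
  · obtain ⟨rfl, rfl⟩ := N.blpb_emb hs h; rfl
  · rw [hs, h]
  · rw [Subtype.ext (Prod.ext hs h)]
  · rw [Prod.ext hs.1 h, hs.2]
  · rw [hs, h]
  · rw [hs.1, hs.2, h.1, h.2]
  · rw [hs.1, hs.2, h.1, h.2]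
  · rw [hs.1, hs.2, h]
  · rw [hs.1, hs.2, h]

omit [Fintype V] [DecidableEq V] [Fintype M] [DecidableEq M] [Fintype A₁] [DecidableEq A₁]
  [Fintype A₂] [DecidableEq A₂] [Fintype B] [DecidableEq B] in
lemma blpb_en_inj {o o' : N.Obj} (ho : ¬ N.blue.isC o) (ht : N.blpb_tag o = N.blpb_tag o')
    (h : N.blpb_en o = N.blpb_en o') (hs : N.en o = N.en o') : o = o' := by
  cases o <;> cases o' <;> simp only [blpb_tag, Fin.reduceEq] at ht <;>
    simp only [blpb_en, Option.some.injEq, Prod.mk.injEq, Sum.inl.injEq, Sum.inr.injEq] at h <;>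
    simp only [en, EmbeddingLike.apply_eq_iff_eq, Prod.mk.injEq] at hs
  · exact absurd ⟨_, _, rfl⟩ ho
  · rw [hs, h]
  · obtain ⟨rfl, rfl⟩ := N.blpb_emb hs h; rfl
  · rw [Subtype.ext (Prod.ext hs h)]
  · rw [hs, h]
  · rw [Prod.ext hs.1 h, hs.2]
  · rw [hs.1, hs.2, h.1, h.2]
  · rw [hs.1, hs.2, h.1, h.2]
  · rw [hs.1, hs.2, h]
  · rw [hs.1, hs.2, h]

omit [Fintype V] [DecidableEq V] [DecidableEq M] [DecidableEq A₁] [DecidableEq A₂]
  [DecidableEq B] in
lemma blpb_card {τ : ℝ} (h2 : 2 ≤ τ) (hM : (Fintype.card M : ℝ) ≤ τ)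
    (h1 : (Fintype.card A₁ : ℝ) = τ ^ 23) (hA : (Fintype.card A₂ : ℝ) = τ ^ 14)
    (hB : (Fintype.card B : ℝ) = τ ^ 14) :
    (Fintype.card (Fin 10 × Option (B ⊕ M ⊕ A₂ ⊕ A₁ ⊕ A₁ × A₂)) : ℝ) ≤ 50 * τ ^ 46 := by
  have h1' : 1 ≤ τ := by linarith
  have p : ∀ {a b : ℕ}, a ≤ b → τ ^ a ≤ τ ^ b := fun hab => pow_le_pow_right₀ h1' hab
  have e1 := p (show 0 ≤ 45 by norm_num)
  have e2 := p (show 1 ≤ 45 by norm_num)
  have e3 := p (show 14 ≤ 45 by norm_num)
  have e4 := p (show 23 ≤ 45 by norm_num)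
  have e5 := p (show 37 ≤ 45 by norm_num)
  have e6 : 2 * τ ^ 45 ≤ τ ^ 46 := by
    rw [pow_succ τ 45, mul_comm]; exact mul_le_mul_of_nonneg_left h2 (by positivity)
  have e7 : τ ^ 23 * τ ^ 14 = τ ^ 37 := by rw [← pow_add]
  rw [pow_zero] at e1
  rw [pow_one] at e2
  simp only [Fintype.card_prod, Fintype.card_option, Fintype.card_sum, Fintype.card_fin]
  push_cast
  rw [h1, hA, hB, e7]
  linarith

/-- The objects are counted by injections into explicit product types. -/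
theorem load_obj {τ : ℝ} (h : Sz V M A₁ A₂ B τ) :
    ct (fun o => ¬ N.blue.isC o) ≤ 10 * τ ^ 81 ∧
      ∀ v, ct (fun o => ¬ N.blue.isC o ∧ (N.blue.st o = v ∨ N.blue.en o = v)) ≤ 100 * τ ^ 46 := by
  have h2 := h.two
  have h1' : 1 ≤ τ := by linarith
  refine ⟨?_, fun v => ?_⟩
  · refine (ct_le_of_inj (Y := fun _ => True) (fun o => (N.blpb_tag o, N.blpb_all o))
      (fun _ _ => trivial) fun o o' ho _ e =>
        N.blpb_all_inj ho (congrArg Prod.fst e) (congrArg Prod.snd e)).trans ?_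
    rw [ct_true]
    simp only [Fintype.card_prod, Fintype.card_option, Fintype.card_fin]
    push_cast
    rw [h.h1, h.h2, h.hB]
    have e0 : τ ^ 23 * (τ ^ 23 * (τ ^ 14 * τ ^ 14)) = τ ^ 74 := by
      rw [← pow_add, ← pow_add, ← pow_add]
    have e1 : 1 ≤ τ ^ 80 := one_le_pow₀ h1'
    have e2 : τ ^ 74 ≤ τ ^ 80 := pow_le_pow_right₀ h1' (by norm_num)
    have e3 : 2 * τ ^ 80 ≤ τ ^ 81 := by
      rw [pow_succ τ 80, mul_comm]; exact mul_le_mul_of_nonneg_left h2 (by positivity)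
    rw [e0]
    linarith
  · have hc := blpb_card h2 h.hM h.h1 h.h2 h.hB
    have a1 : ct (fun o => ¬ N.blue.isC o ∧ N.st o = v) ≤ 50 * τ ^ 46 :=
      (ct_le_of_inj (Y := fun _ => True) (fun o => (N.blpb_tag o, N.blpb_st o))
        (fun _ _ => trivial) fun o o' ho ho' e => N.blpb_st_inj ho.1 (congrArg Prod.fst e)
          (congrArg Prod.snd e) (ho.2.trans ho'.2.symm)).trans (ct_true.le.trans hc)
    have a2 : ct (fun o => ¬ N.blue.isC o ∧ N.en o = v) ≤ 50 * τ ^ 46 :=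
      (ct_le_of_inj (Y := fun _ => True) (fun o => (N.blpb_tag o, N.blpb_en o))
        (fun _ _ => trivial) fun o o' ho ho' e => N.blpb_en_inj ho.1 (congrArg Prod.fst e)
          (congrArg Prod.snd e) (ho.2.trans ho'.2.symm)).trans (ct_true.le.trans hc)
    refine (ct_le_add (Y := fun o => ¬ N.blue.isC o ∧ N.st o = v)
      (Z := fun o => ¬ N.blue.isC o ∧ N.en o = v) fun o ho => ?_).trans (by linarith)
    exact ho.2.imp (fun e => ⟨ho.1, e⟩) fun e => ⟨ho.1, e⟩

end Net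

end Pool.Agent.MP_46aeaf_co.HT

set_option linter.unusedSectionVars false

/-! The routing network: loads of the cycles. -/

namespace Pool.Agent.MP_46aeaf_co.HT

open Finset Pool.Agent.MP_81e6aa_pr

section Tools

variable {α β : Type} [Fintype α] [Fintype β]

lemma blpc_rng (f : β → α) (X : α → Prop) :
    ct (fun a => X a ∧ ∃ b, f b = a) ≤ ct fun b => X (f b) :=
  ct_le_of_surj f fun _ ⟨h, b, hb⟩ => ⟨b, by rw [hb]; exact h, hb⟩

lemma blpc_fib {X : α × β → Prop} (P : α → Prop) {p r : ℝ} (h : ∀ a b, X (a, b) → P a)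
    (hp : ct P ≤ p) (hr0 : 0 ≤ r) (hr : ∀ a, ct (fun b => X (a, b)) ≤ r) : ct X ≤ p * r := by
  rw [ct_prod]
  calc ∑ a, ct (fun b => X (a, b)) ≤ ∑ a, ind (P a) * r := by
        refine sum_le_sum fun a _ => ?_
        by_cases ha : P a
        · rw [ind_pos ha, one_mul]; exact hr a
        · rw [ind_neg ha, zero_mul, ct_false fun b hb => ha (h a b hb)]
    _ = ct P * r := by unfold ct; rw [sum_mul]
    _ ≤ p * r := mul_le_mul_of_nonneg_right hp hr0

lemma blpc_pr {X : α × β → Prop} (P : α → Prop) (R : β → Prop) {p r : ℝ} (hp : ct P ≤ p)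
    (hr : ct R ≤ r) (h : ∀ a b, X (a, b) → P a ∧ R b) : ct X ≤ p * r :=
  blpc_fib P (fun a b hx => (h a b hx).1) hp ((ct_nonneg _).trans hr)
    fun a => (ct_mono fun b hx => (h a b hx).2).trans hr

lemma blpc_swap (X : α × β → Prop) : ct X ≤ ct fun p : β × α => X (p.2, p.1) :=
  ct_le_of_surj (fun p : β × α => (p.2, p.1)) fun a ha => ⟨(a.2, a.1), ha, rfl⟩

lemma blpc_fst (S : α → Prop) (hS : ∀ a a', S a → S a' → a = a') :
    ct (fun q : α × β => S q.1) ≤ Fintype.card β := by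
  simpa using blpc_pr (X := fun q : α × β => S q.1) S (fun _ => True) (ct_le_one hS)
    (ct_le_card _) fun _ _ h => ⟨h, trivial⟩

lemma blpc_snd (S : β → Prop) (hS : ∀ a a', S a → S a' → a = a') :
    ct (fun q : α × β => S q.2) ≤ Fintype.card α :=
  (blpc_swap _).trans (blpc_fst S hS)

end Tools

namespace Net

variable {V M A₁ A₂ B : Type} (N : Net V M A₁ A₂ B) [Fintype V] [DecidableEq V] [Fintype M]
  [DecidableEq M] [Fintype A₁] [DecidableEq A₁] [Fintype A₂] [DecidableEq A₂] [Fintype B]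
  [DecidableEq B]

lemma blpc_split (X : N.Gad → Prop) :
    ct X ≤ ct (fun p : ((V × M) × (V × M)) × B × A₂ =>
        X (.main p.1.1.1 p.1.2.1 p.1.1.2 p.1.2.2 p.2.1 p.2.2)) +
      (ct (fun p : N.Dm × B × A₂ => X (.dum p.1 p.2.1 p.2.2)) +
      (ct (fun p : (A₁ × A₁) × B × A₂ => X (.idle p.1.1 p.1.2 p.2.1 p.2.2)) +
      ct (fun p : (A₁ × A₁) × B × A₂ => X (.fin p.1.1 p.1.2 p.2.1 p.2.2)))) := by
  refine le_trans ?_ (add_le_add (blpc_rng _ X) (add_le_add (blpc_rng _ X)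
    (add_le_add (blpc_rng _ X) (blpc_rng _ X))))
  refine le_trans (ct_le_add ?_) (add_le_add le_rfl
    (le_trans (ct_or_le _ _) (add_le_add le_rfl (ct_or_le _ _))))
  rintro (⟨r, c, i, i', j, j₂⟩ | ⟨u, j, j₂⟩ | ⟨a, a', j, j₂⟩ | ⟨a, a', j, j₂⟩) hx
  · exact Or.inl ⟨hx, (((r, i), (c, i')), j, j₂), rfl⟩
  · exact Or.inr (Or.inl ⟨hx, (u, j, j₂), rfl⟩)
  · exact Or.inr (Or.inr (Or.inl ⟨hx, ((a, a'), j, j₂), rfl⟩))
  · exact Or.inr (Or.inr (Or.inr ⟨hx, ((a, a'), j, j₂), rfl⟩))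

omit [Fintype V] [DecidableEq V] [Fintype M] [DecidableEq M] [Fintype A₁] [DecidableEq A₁]
  [Fintype A₂] [DecidableEq A₂] [Fintype B] [DecidableEq B] in
lemma blpc_act {Q : V → V → Prop} {r c : V} {i i' : M} {j : B} {j₂ : A₂}
    (h : N.blue.act Q (.main r c i i' j j₂)) : Q r c := h r c rfl

section Counts

variable {N} {τ : ℝ} (h : Sz V M A₁ A₂ B τ) {W : Type} [Fintype W]
include h

omit [DecidableEq V] [DecidableEq M] [DecidableEq A₁] [DecidableEq A₂] [DecidableEq B]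

lemma blpc_c0 (e : W → (A₁ × A₂) × B) (he : Function.Injective e) :
    ct (fun _ : W => True) ≤ τ ^ 51 := by
  refine (ct_le_of_inj (Y := fun _ => True) e (fun _ _ => trivial)
    fun _ _ _ _ hh => he hh).trans ?_
  rw [ct_true]
  simp only [Fintype.card_prod, Nat.cast_mul, h.h1, h.h2, h.hB]
  exact le_of_eq (by ring)

lemma blpc_c1 (e : W → (A₁ × A₂) × B) (he : Function.Injective e) (S : A₁ → Prop)
    (hS : ∀ a a', S a → S a' → a = a') : ct (fun w => S (e w).1.1) ≤ τ ^ 28 := by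
  refine (ct_le_of_inj (Y := fun u : (A₁ × A₂) × B => S u.1.1) e (fun _ hw => hw)
    fun _ _ _ _ hh => he hh).trans ?_
  refine (blpc_pr (fun q : A₁ × A₂ => S q.1) (fun _ : B => True) (blpc_fst S hS) (ct_le_card _)
    fun _ _ hx => ⟨hx, trivial⟩).trans ?_
  rw [h.h2, h.hB]
  exact le_of_eq (by ring)

lemma blpc_c2 (e : W → (A₁ × A₂) × B) (he : Function.Injective e) (S : A₁ × A₂ → Prop)
    (hS : ∀ a a', S a → S a' → a = a') : ct (fun w => S (e w).1) ≤ τ ^ 14 := by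
  refine (ct_le_of_inj (Y := fun u : (A₁ × A₂) × B => S u.1) e (fun _ hw => hw)
    fun _ _ _ _ hh => he hh).trans ?_
  rw [← h.hB]
  exact blpc_fst S hS

lemma blpc_r0 : ct (fun _ : B × A₂ => True) ≤ τ ^ 28 := by
  rw [ct_true]
  simp only [Fintype.card_prod, Nat.cast_mul, h.h2, h.hB]
  exact le_of_eq (by ring)

lemma blpc_r1 (S : B → Prop) (hS : ∀ a a', S a → S a' → a = a') :
    ct (fun q : B × A₂ => S q.1) ≤ τ ^ 14 := by
  rw [← h.h2]; exact blpc_fst S hS

lemma blpc_a0 : ct (fun _ : A₁ × A₁ => True) ≤ τ ^ 46 := by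
  rw [ct_true]
  simp only [Fintype.card_prod, Nat.cast_mul, h.h1]
  exact le_of_eq (by ring)

lemma blpc_a1 (S : A₁ → Prop) (hS : ∀ a a', S a → S a' → a = a') :
    ct (fun q : A₁ × A₁ => S q.1) ≤ τ ^ 23 := by
  rw [← h.h1]; exact blpc_fst S hS

lemma blpc_a2 (S : A₁ → Prop) (hS : ∀ a a', S a → S a' → a = a') :
    ct (fun q : A₁ × A₁ => S q.2) ≤ τ ^ 23 := by
  rw [← h.h1]; exact blpc_snd S hS

lemma blpc_u1 (r : V) : ct (fun x : V × M => x.1 = r) ≤ τ :=
  (blpc_fst (fun a => a = r) fun _ _ e e' => e.trans e'.symm).trans h.hM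

lemma blpc_pairL {Q : V → V → Prop} (hQ : ∀ r, ct (Q r) ≤ 2 * τ) (P : V × M → Prop) {p : ℝ}
    (hp : ct P ≤ p) :
    ct (fun x : (V × M) × (V × M) => Q x.1.1 x.2.1 ∧ P x.1) ≤ p * (2 * τ * τ) := by
  have h2 := h.two
  exact blpc_fib P (fun _ _ hx => hx.2) hp (by positivity) fun a =>
    blpc_pr (Q a.1) (fun _ => True) (hQ a.1) ((ct_le_card _).trans h.hM)
      fun _ _ hx => ⟨hx.1, trivial⟩

lemma blpc_pairR {Q : V → V → Prop} (hQ : ∀ c, ct (fun r => Q r c) ≤ 2 * τ) (P : V × M → Prop)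
    {p : ℝ} (hp : ct P ≤ p) :
    ct (fun x : (V × M) × (V × M) => Q x.1.1 x.2.1 ∧ P x.2) ≤ p * (2 * τ * τ) :=
  (blpc_swap _).trans (blpc_pairL h (Q := fun c r => Q r c) hQ P hp)

lemma blpc_pw {a b : ℕ} (hab : a ≤ b) : τ ^ a ≤ τ ^ b :=
  pow_le_pow_right₀ (by linarith [h.two]) hab

lemma blpc_pw4 {a b : ℕ} (hab : a + 2 ≤ b) : 4 * τ ^ a ≤ τ ^ b := by
  have h2 := h.two
  refine le_trans ?_ (blpc_pw h hab)
  rw [pow_add, mul_comm]
  exact mul_le_mul_of_nonneg_left (by nlinarith) (by positivity)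

end Counts

lemma blpc_all {τ : ℝ} (h : Sz V M A₁ A₂ B τ) (Q : V → V → Prop) (hQ : DegLe Q (2 * τ)) :
    ct (N.blue.act Q) ≤ 10 * τ ^ 81 := by
  refine (N.blpc_split _).trans ?_
  refine (add_le_add (blpc_pr _ _ (blpc_pairL h hQ.1 _ (blpc_c0 h N.emb N.emb.injective))
    (blpc_r0 h) fun _ _ hx => ⟨⟨N.blpc_act hx, trivial⟩, trivial⟩)
    (add_le_add (blpc_pr _ _ (blpc_c0 h Subtype.val Subtype.val_injective) (blpc_r0 h)
      fun _ _ _ => ⟨trivial, trivial⟩)
    (add_le_add (blpc_pr _ _ (blpc_a0 h) (blpc_r0 h) fun _ _ _ => ⟨trivial, trivial⟩)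
      (blpc_pr _ _ (blpc_a0 h) (blpc_r0 h) fun _ _ _ => ⟨trivial, trivial⟩)))).trans ?_
  have a1 := blpc_pw h (show 79 ≤ 81 by norm_num)
  have a2 := blpc_pw h (show 74 ≤ 81 by norm_num)
  have a3 : 0 ≤ τ ^ 81 := pow_nonneg (by linarith [h.two]) _
  have e1 : τ ^ 51 * (2 * τ * τ) * τ ^ 28 = 2 * τ ^ 81 := by ring
  have e2 : τ ^ 51 * τ ^ 28 = τ ^ 79 := by ring
  have e3 : τ ^ 46 * τ ^ 28 = τ ^ 74 := by ring
  rw [e1, e2, e3]
  linarith

lemma blpc_om {τ : ℝ} (h : Sz V M A₁ A₂ B τ) (Q : V → V → Prop) (hQ : DegLe Q (2 * τ))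
    (o : N.Obj) : ct (fun p : ((V × M) × (V × M)) × B × A₂ =>
      N.blue.act Q (.main p.1.1.1 p.1.2.1 p.1.1.2 p.1.2.2 p.2.1 p.2.2) ∧
      N.blue.cont (.main p.1.1.1 p.1.2.1 p.1.1.2 p.1.2.2 p.2.1 p.2.2) o) ≤ 2 * τ ^ 30 := by
  have a3 : 0 ≤ τ ^ 30 := pow_nonneg (by linarith [h.two]) _
  have z : ∀ {X : ((V × M) × (V × M)) × B × A₂ → Prop}, (∀ p, ¬ X p) → ct X ≤ 2 * τ ^ 30 :=
    fun hx => by rw [ct_false hx]; linarith
  have u : ∀ {α : Type} (b a a' : α), a = b → a' = b → a = a' := fun _ _ _ e e' => e.trans e'.symm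
  cases o with
  | cel r c =>
    refine (blpc_pr _ _ (blpc_pr (X := fun x : (V × M) × (V × M) => x.1.1 = r ∧ x.2.1 = c) _ _
      (blpc_u1 h r) (blpc_u1 h c) fun _ _ hx => hx) (blpc_r0 h) fun _ _ hx => ⟨?_, trivial⟩).trans
      ?_
    · simpa [Blue.cont, blue, ob, lo] using hx.2
    · rw [show τ * τ * τ ^ 28 = τ ^ 30 by ring]; linarith
  | t0L r i =>
    refine (blpc_pr _ _ (blpc_pairL h hQ.1 _ (ct_eq (r, i)).le) (blpc_r0 h)
      fun _ _ hx => ⟨⟨N.blpc_act hx.1, ?_⟩, trivial⟩).trans (le_of_eq (by ring))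
    simpa [Blue.cont, blue, ob, lo, Prod.ext_iff] using hx.2
  | t0R c i =>
    refine (blpc_pr _ _ (blpc_pairR h hQ.2 _ (ct_eq (c, i)).le) (blpc_r0 h)
      fun _ _ hx => ⟨⟨N.blpc_act hx.1, ?_⟩, trivial⟩).trans (le_of_eq (by ring))
    simpa [Blue.cont, blue, ob, lo, Prod.ext_iff] using hx.2
  | t1L a j =>
    refine (blpc_pr _ _ (blpc_pairL h hQ.1 _ (blpc_c2 h N.emb N.emb.injective _ (u a)))
      (blpc_r1 h _ (u j)) fun _ _ hx => ?_).trans (le_of_eq (by ring))
    have := hx.2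
    simp only [Blue.cont, blue, ob, lo, Nat.ofNat_pos, if_true, BO.t1L.injEq] at this
    exact ⟨⟨N.blpc_act hx.1, this.1⟩, this.2⟩
  | t1R a j =>
    refine (blpc_pr _ _ (blpc_pairR h hQ.2 _ (blpc_c2 h N.emb N.emb.injective _ (u a)))
      (blpc_r1 h _ (u j)) fun x y hx => ?_).trans (le_of_eq (by ring))
    have : (N.emb (x.2.1, x.2.2)).1 = a ∧ y.1 = j := by
      simpa [Blue.cont, blue, ob, lo] using hx.2
    exact ⟨⟨N.blpc_act hx.1, this.1⟩, this.2⟩
  | wm a a' j j₂ =>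
    refine (blpc_pr _ _ (blpc_pairL h hQ.1 _ (blpc_c1 h N.emb N.emb.injective _ (u a)))
      (ct_eq (j, j₂)).le fun x y hx => ?_).trans (le_of_eq (by ring))
    have : (N.emb (x.1.1, x.1.2)).1.1 = a ∧ (N.emb (x.2.1, x.2.2)).1.1 = a' ∧ y.1 = j ∧
        y.2 = j₂ := by
      simpa [Blue.cont, blue, ob, lo] using hx.2
    exact ⟨⟨N.blpc_act hx.1, this.1⟩, Prod.ext this.2.2.1 this.2.2.2⟩
  | _ => exact z fun p hx => by simp [Blue.cont, blue, ob, lo] at hx

lemma blpc_od {τ : ℝ} (h : Sz V M A₁ A₂ B τ) (o : N.Obj) :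
    ct (fun p : N.Dm × B × A₂ => N.blue.cont (.dum p.1 p.2.1 p.2.2) o) ≤ τ ^ 28 := by
  have a3 : 0 ≤ τ ^ 28 := pow_nonneg (by linarith [h.two]) _
  have z : ∀ {X : N.Dm × B × A₂ → Prop}, (∀ p, ¬ X p) → ct X ≤ τ ^ 28 :=
    fun hx => by rw [ct_false hx]; linarith
  have u : ∀ {α : Type} (b a a' : α), a = b → a' = b → a = a' := fun _ _ _ e e' => e.trans e'.symm
  cases o with
  | dum w =>
    refine (blpc_pr _ _ (ct_eq w).le (blpc_r0 h) fun _ _ hx => ⟨?_, trivial⟩).trans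
      (le_of_eq (by ring))
    simpa [Blue.cont, blue, ob, lo] using hx
  | t1L a j =>
    refine (blpc_pr _ _ (blpc_c2 h Subtype.val Subtype.val_injective _ (u a))
      (blpc_r1 h _ (u j)) fun _ _ hx => ?_).trans (le_of_eq (by ring))
    simpa [Blue.cont, blue, ob, lo] using hx
  | t1R a j =>
    refine (blpc_pr _ _ (blpc_c2 h Subtype.val Subtype.val_injective _ (u a))
      (blpc_r1 h _ (u j)) fun _ _ hx => ?_).trans (le_of_eq (by ring))
    simpa [Blue.cont, blue, ob, lo] using hx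
  | wm a a' j j₂ =>
    refine (blpc_pr _ _ (blpc_c1 h Subtype.val Subtype.val_injective _ (u a))
      (ct_eq (j, j₂)).le fun x y hx => ?_).trans (le_of_eq (by ring))
    have : x.1.1.1 = a ∧ x.1.1.1 = a' ∧ y.1 = j ∧ y.2 = j₂ := by
      simpa [Blue.cont, blue, ob, lo] using hx
    exact ⟨this.1, Prod.ext this.2.2.1 this.2.2.2⟩
  | _ => exact z fun p hx => by simp [Blue.cont, blue, ob, lo] at hx

lemma blpc_oi {τ : ℝ} (h : Sz V M A₁ A₂ B τ) (o : N.Obj) :
    ct (fun p : (A₁ × A₁) × B × A₂ => N.blue.cont (.idle p.1.1 p.1.2 p.2.1 p.2.2) o) ≤ τ ^ 23 ∧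
      ct (fun p : (A₁ × A₁) × B × A₂ => N.blue.cont (.fin p.1.1 p.1.2 p.2.1 p.2.2) o) ≤
        τ ^ 23 := by
  have a3 : 0 ≤ τ ^ 23 := pow_nonneg (by linarith [h.two]) _
  have z : ∀ {X : (A₁ × A₁) × B × A₂ → Prop}, (∀ p, ¬ X p) → ct X ≤ τ ^ 23 :=
    fun hx => by rw [ct_false hx]; linarith
  have u : ∀ {α : Type} (b a a' : α), a = b → a' = b → a = a' := fun _ _ _ e e' => e.trans e'.symm
  have k1 : ∀ {X : (A₁ × A₁) × B × A₂ → Prop} (a : A₁) (j : B) (j₂ : A₂),
      (∀ x y, X (x, y) → x.1 = a ∧ y.1 = j ∧ y.2 = j₂) → ct X ≤ τ ^ 23 := fun a j j₂ hx =>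
    (blpc_pr _ _ (blpc_a1 h _ (u a)) (ct_eq (j, j₂)).le fun x y hh =>
      ⟨(hx x y hh).1, Prod.ext (hx x y hh).2.1 (hx x y hh).2.2⟩).trans (le_of_eq (by ring))
  have k2 : ∀ {X : (A₁ × A₁) × B × A₂ → Prop} (a : A₁) (j : B) (j₂ : A₂),
      (∀ x y, X (x, y) → x.2 = a ∧ y.1 = j ∧ y.2 = j₂) → ct X ≤ τ ^ 23 := fun a j j₂ hx =>
    (blpc_pr _ _ (blpc_a2 h _ (u a)) (ct_eq (j, j₂)).le fun x y hh =>
      ⟨(hx x y hh).1, Prod.ext (hx x y hh).2.1 (hx x y hh).2.2⟩).trans (le_of_eq (by ring))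
  constructor
  · cases o with
    | wp a a' j j₂ =>
      refine k1 a j j₂ fun x y hx => ?_
      have : x.1 = a ∧ x.2 = a' ∧ y.1 = j ∧ y.2 = j₂ := by
        simpa [Blue.cont, blue, ob, lo] using hx
      exact ⟨this.1, this.2.2⟩
    | wm a a' j j₂ =>
      refine k1 a j j₂ fun x y hx => ?_
      have : x.1 = a ∧ x.2 = a' ∧ y.1 = j ∧ y.2 = j₂ := by
        simpa [Blue.cont, blue, ob, lo] using hx
      exact ⟨this.1, this.2.2⟩
    | _ => exact z fun p hx => by simp [Blue.cont, blue, ob, lo] at hx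
  · cases o with
    | wp a a' j j₂ =>
      refine k1 a j j₂ fun x y hx => ?_
      have : x.1 = a ∧ x.2 = a' ∧ y.1 = j ∧ y.2 = j₂ := by
        simpa [Blue.cont, blue, ob, lo] using hx
      exact ⟨this.1, this.2.2⟩
    | t2L a j j₂ => exact k1 a j j₂ fun x y hx => by simpa [Blue.cont, blue, ob, lo] using hx
    | t2R a j j₂ => exact k2 a j j₂ fun x y hx => by simpa [Blue.cont, blue, ob, lo] using hx
    | _ => exact z fun p hx => by simp [Blue.cont, blue, ob, lo] at hx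

omit [Fintype V] [DecidableEq V] [Fintype M] [DecidableEq M] [Fintype A₁] [DecidableEq A₁]
  [Fintype A₂] [DecidableEq A₂] [Fintype B] [DecidableEq B] in
lemma blpc_u (v : V) :
    (∀ a a', (∃ j, N.G (a, j) = v) → (∃ j, N.G (a', j) = v) → a = a') ∧
    (∀ j j', (∃ a, N.G (a, j) = v) → (∃ a, N.G (a, j') = v) → j = j') ∧
    (∀ a a', N.g a = v → N.g a' = v → a = a') ∧ ∀ a a', N.H a = v → N.H a' = v → a = a' :=
  ⟨fun _ _ ⟨_, e⟩ ⟨_, e'⟩ => congrArg Prod.fst (N.G.injective (e.trans e'.symm)),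
    fun _ _ ⟨_, e⟩ ⟨_, e'⟩ => congrArg Prod.snd (N.G.injective (e.trans e'.symm)),
    fun _ _ e e' => N.g.injective (e.trans e'.symm),
    fun _ _ e e' => N.H.injective (e.trans e'.symm)⟩

lemma blpc_vm {τ : ℝ} (h : Sz V M A₁ A₂ B τ) (Q : V → V → Prop) (hQ : DegLe Q (2 * τ)) (v : V) :
    ct (fun p : ((V × M) × (V × M)) × B × A₂ =>
      N.blue.act Q (.main p.1.1.1 p.1.2.1 p.1.1.2 p.1.2.2 p.2.1 p.2.2) ∧ ∃ k, k < 15 ∧
      N.blue.st (N.blue.ob (.main p.1.1.1 p.1.2.1 p.1.1.2 p.1.2.2 p.2.1 p.2.2) k) = v) ≤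
      3 * τ ^ 46 := by
  obtain ⟨u1, u2, u3, -⟩ := N.blpc_u v
  have c1 := blpc_c1 h N.emb N.emb.injective _ u1
  have c2 := blpc_c2 h N.emb N.emb.injective _ u3
  have r1 := blpc_r1 h _ u2
  have b1 := blpc_pr (X := fun p : ((V × M) × (V × M)) × B × A₂ =>
    Q p.1.1.1 p.1.2.1 ∧ N.G ((N.emb p.1.1).1.1, p.2.1) = v) _ _ (blpc_pairL h hQ.1 _ c1) r1
    fun _ _ hx => ⟨⟨hx.1, _, hx.2⟩, _, hx.2⟩
  have b2 := blpc_pr (X := fun p : ((V × M) × (V × M)) × B × A₂ =>
    Q p.1.1.1 p.1.2.1 ∧ N.g (N.emb p.1.1).1 = v) _ _ (blpc_pairL h hQ.1 _ c2) (blpc_r0 h)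
    fun _ _ hx => ⟨hx, trivial⟩
  have b3 := blpc_pr (X := fun p : ((V × M) × (V × M)) × B × A₂ =>
    Q p.1.1.1 p.1.2.1 ∧ p.1.1.1 = v) _ _ (blpc_pairL h hQ.1 _ (blpc_u1 h v)) (blpc_r0 h)
    fun _ _ hx => ⟨hx, trivial⟩
  have b4 := blpc_pr (X := fun p : ((V × M) × (V × M)) × B × A₂ =>
    Q p.1.1.1 p.1.2.1 ∧ p.1.2.1 = v) _ _ (blpc_pairR h hQ.2 _ (blpc_u1 h v)) (blpc_r0 h)
    fun _ _ hx => ⟨hx, trivial⟩
  have b5 := blpc_pr (X := fun p : ((V × M) × (V × M)) × B × A₂ =>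
    Q p.1.1.1 p.1.2.1 ∧ N.g (N.emb p.1.2).1 = v) _ _ (blpc_pairR h hQ.2 _ c2) (blpc_r0 h)
    fun _ _ hx => ⟨hx, trivial⟩
  have b6 := blpc_pr (X := fun p : ((V × M) × (V × M)) × B × A₂ =>
    Q p.1.1.1 p.1.2.1 ∧ N.G ((N.emb p.1.2).1.1, p.2.1) = v) _ _ (blpc_pairR h hQ.2 _ c1) r1
    fun _ _ hx => ⟨⟨hx.1, _, hx.2⟩, _, hx.2⟩
  refine le_trans (le_trans (ct_le_add ?_) (add_le_add b1 (le_trans (ct_or_le _ _) (add_le_add b2
    (le_trans (ct_or_le _ _) (add_le_add b3 (le_trans (ct_or_le _ _) (add_le_add b4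
      (le_trans (ct_or_le _ _) (add_le_add b5 b6)))))))))) ?_
  · rintro p ⟨ha, k, -, hk⟩
    have hq := N.blpc_act ha
    simp only [blue, ob] at hk
    split_ifs at hk
    · exact Or.inl ⟨hq, hk⟩
    · exact Or.inr (Or.inl ⟨hq, hk⟩)
    · exact Or.inr (Or.inr (Or.inl ⟨hq, hk⟩))
    · exact Or.inr (Or.inr (Or.inr (Or.inl ⟨hq, hk⟩)))
    · exact Or.inr (Or.inr (Or.inr (Or.inr (Or.inl ⟨hq, hk⟩))))
    · exact Or.inr (Or.inr (Or.inr (Or.inr (Or.inr ⟨hq, hk⟩))))
  · have a1 := blpc_pw4 h (show 44 + 2 ≤ 46 by norm_num)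
    have a2 := blpc_pw4 h (show 31 + 2 ≤ 46 by norm_num)
    rw [show τ ^ 28 * (2 * τ * τ) * τ ^ 14 = 2 * τ ^ 44 by ring,
      show τ ^ 14 * (2 * τ * τ) * τ ^ 28 = 2 * τ ^ 44 by ring,
      show τ * (2 * τ * τ) * τ ^ 28 = 2 * τ ^ 31 by ring]
    linarith

lemma blpc_vd {τ : ℝ} (h : Sz V M A₁ A₂ B τ) (v : V) :
    ct (fun p : N.Dm × B × A₂ => ∃ k, k < 15 ∧
      N.blue.st (N.blue.ob (.dum p.1 p.2.1 p.2.2) k) = v) ≤ τ ^ 46 := by
  obtain ⟨u1, u2, u3, -⟩ := N.blpc_u v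
  have b1 := blpc_pr (X := fun p : N.Dm × B × A₂ => N.G (p.1.1.1.1, p.2.1) = v) _ _
    (blpc_c1 h Subtype.val Subtype.val_injective _ u1) (blpc_r1 h _ u2)
    fun _ _ hx => ⟨⟨_, hx⟩, _, hx⟩
  have b2 := blpc_pr (X := fun p : N.Dm × B × A₂ => N.g p.1.1.1 = v) _ _
    (blpc_c2 h Subtype.val Subtype.val_injective _ u3) (blpc_r0 h) fun _ _ hx => ⟨hx, trivial⟩
  refine le_trans (le_trans (ct_le_add ?_) (add_le_add b1 b2)) ?_
  · rintro p ⟨k, -, hk⟩
    simp only [blue, ob] at hk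
    split_ifs at hk
    · exact Or.inl hk
    · exact Or.inr hk
    · exact Or.inr hk
    · exact Or.inl hk
  · have a1 := blpc_pw4 h (show 42 + 2 ≤ 46 by norm_num)
    have a3 : 0 ≤ τ ^ 42 := pow_nonneg (by linarith [h.two]) _
    rw [show τ ^ 28 * τ ^ 14 = τ ^ 42 by ring, show τ ^ 14 * τ ^ 28 = τ ^ 42 by ring]
    linarith

lemma blpc_vi {τ : ℝ} (h : Sz V M A₁ A₂ B τ) (v : V) :
    ct (fun p : (A₁ × A₁) × B × A₂ => ∃ k, k < 15 ∧
      N.blue.st (N.blue.ob (.idle p.1.1 p.1.2 p.2.1 p.2.2) k) = v) ≤ τ ^ 46 ∧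
    ct (fun p : (A₁ × A₁) × B × A₂ => ∃ k, k < 15 ∧
      N.blue.st (N.blue.ob (.fin p.1.1 p.1.2 p.2.1 p.2.2) k) = v) ≤ 2 * τ ^ 46 := by
  obtain ⟨u1, u2, -, u4⟩ := N.blpc_u v
  have b1 := blpc_pr (X := fun p : (A₁ × A₁) × B × A₂ => N.G (p.1.1, p.2.1) = v) _ _
    (blpc_a1 h _ u1) (blpc_r1 h _ u2) fun _ _ hx => ⟨⟨_, hx⟩, _, hx⟩
  have b2 := blpc_pr (X := fun p : (A₁ × A₁) × B × A₂ => N.G (p.1.2, p.2.1) = v) _ _
    (blpc_a2 h _ u1) (blpc_r1 h _ u2) fun _ _ hx => ⟨⟨_, hx⟩, _, hx⟩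
  have b3 := blpc_pr (X := fun p : (A₁ × A₁) × B × A₂ => N.H (p.2.1, p.2.2) = v) _ _
    (blpc_a0 h) (ct_le_one u4) fun _ _ hx => ⟨trivial, hx⟩
  have a1 := blpc_pw4 h (show 37 + 2 ≤ 46 by norm_num)
  have a3 : 0 ≤ τ ^ 37 := pow_nonneg (by linarith [h.two]) _
  rw [show τ ^ 23 * τ ^ 14 = τ ^ 37 by ring] at b1 b2
  constructor
  · refine le_trans (le_trans (ct_le_add ?_) (add_le_add b1 b2)) (by linarith)
    rintro p ⟨k, -, hk⟩
    simp only [blue, ob] at hk
    split_ifs at hk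
    · exact Or.inl hk
    · exact Or.inr hk
  · refine le_trans (le_trans (ct_le_add ?_) (add_le_add b1 (le_trans (ct_or_le _ _)
      (add_le_add b2 b3)))) (by linarith)
    rintro p ⟨k, -, hk⟩
    simp only [blue, ob] at hk
    split_ifs at hk
    · exact Or.inl hk
    · exact Or.inr (Or.inl hk)
    · exact Or.inr (Or.inr hk)

theorem load_gad {τ : ℝ} (h : Sz V M A₁ A₂ B τ) (Q : V → V → Prop) (hQ : DegLe Q (2 * τ)) :
    ct (N.blue.act Q) ≤ 10 * τ ^ 81 ∧
      (∀ o, ct (fun g => N.blue.act Q g ∧ N.blue.cont g o) ≤ 10 * τ ^ 30) ∧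
      ∀ v, ct (fun g => N.blue.act Q g ∧ ∃ k, k < 15 ∧ N.blue.st (N.blue.ob g k) = v) ≤
        10 * τ ^ 46 := by
  refine ⟨N.blpc_all h Q hQ, fun o => ?_, fun v => ?_⟩
  · refine (N.blpc_split _).trans ((add_le_add (N.blpc_om h Q hQ o)
      (add_le_add ((ct_mono fun _ hx => hx.2).trans (N.blpc_od h o))
        (add_le_add ((ct_mono fun _ hx => hx.2).trans (N.blpc_oi h o).1)
          ((ct_mono fun _ hx => hx.2).trans (N.blpc_oi h o).2)))).trans ?_)
    have a1 := blpc_pw h (show 28 ≤ 30 by norm_num)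
    have a2 := blpc_pw h (show 23 ≤ 30 by norm_num)
    have a3 : 0 ≤ τ ^ 30 := pow_nonneg (by linarith [h.two]) _
    linarith
  · refine (N.blpc_split _).trans ((add_le_add (N.blpc_vm h Q hQ v)
      (add_le_add ((ct_mono fun _ hx => hx.2).trans (N.blpc_vd h v))
        (add_le_add ((ct_mono fun _ hx => hx.2).trans (N.blpc_vi h v).1)
          ((ct_mono fun _ hx => hx.2).trans (N.blpc_vi h v).2)))).trans ?_)
    have a3 : 0 ≤ τ ^ 46 := pow_nonneg (by linarith [h.two]) _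
    linarith

end Net

end Pool.Agent.MP_46aeaf_co.HT

/-! The routing network: routing. -/

namespace Pool.Agent.MP_46aeaf_co.HT

open Finset Pool.Agent.MP_81e6aa_pr

lemma blpr_enum {V M : Type} [Fintype V] [Fintype M] (G : V → V → Prop)
    (h : ∀ r, ct (G r) = Fintype.card M) :
    ∃ e : V × M ≃ {p : V × V // G p.1 p.2}, ∀ p, (e p).1.1 = p.1 := by
  classical
  have hc : ∀ r, Fintype.card M = Fintype.card {c // G r c} := fun r => by
    have := h r
    rw [ct_card] at this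
    rw [Fintype.card_subtype]
    exact_mod_cast this.symm
  let e : ∀ r, M ≃ {c // G r c} := fun r => Fintype.equivOfCardEq (hc r)
  exact ⟨((Equiv.sigmaEquivProd V M).symm.trans (Equiv.sigmaCongrRight e)).trans
    (Equiv.subtypeProdEquivSigmaSubtype G).symm, fun _ => rfl⟩

lemma blpr_cells {V M : Type} [Fintype V] [Fintype M] (G : V → V → Prop)
    (hG : Reg G (Fintype.card M)) : ∃ β₀ : V × M ≃ V × M, (∀ p, G p.1 (β₀ p).1) ∧
      ∀ r c, G r c → ∃! p : V × M, p.1 = r ∧ (β₀ p).1 = c := by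
  obtain ⟨e, he⟩ := blpr_enum G hG.1
  obtain ⟨e', he'⟩ := blpr_enum (fun c r => G r c) hG.2
  let s : {p : V × V // G p.1 p.2} ≃ {p : V × V // G p.2 p.1} :=
    ⟨fun p => ⟨p.1.swap, p.2⟩, fun p => ⟨p.1.swap, p.2⟩, fun _ => rfl, fun _ => rfl⟩
  have key : ∀ p, (((e.trans s).trans e'.symm) p).1 = (e p).1.2 := fun p => by
    rw [← he']
    simp [s]
  refine ⟨(e.trans s).trans e'.symm, fun p => ?_, fun r c h => ⟨e.symm ⟨(r, c), h⟩, ⟨?_, ?_⟩, ?_⟩⟩
  · rw [key, ← he p]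
    exact (e p).2
  · rw [← he, e.apply_symm_apply]
  · rw [key, e.apply_symm_apply]
  · rintro p ⟨h1, h2⟩
    rw [key] at h2
    rw [← he] at h1
    rw [Equiv.eq_symm_apply]
    exact Subtype.ext (Prod.ext h1 h2)

lemma blpr_one {A B : Type} [Fintype A] [Fintype B] (β : A × B ≃ A × B) :
    ∃ (j : A × B → B) (π : B → A ≃ A), (∀ a b, ∃! u : A × B, u.1 = a ∧ j u = b) ∧
      (∀ a b, ∃! u, (β u).1 = a ∧ j u = b) ∧ ∀ u, (β u).1 = π (j u) u.1 := by
  obtain ⟨j, h1, h2⟩ := konig β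
  have hL : ∀ a b, ∃! u : A × B, u.1 = a ∧ j u = b := fun a b => by
    obtain ⟨x, hx, hu⟩ := (h1 a).existsUnique b
    refine ⟨(a, x), ⟨rfl, hx⟩, ?_⟩
    rintro ⟨a', x'⟩ ⟨rfl, h⟩
    rw [hu x' h]
  have hR : ∀ a b, ∃! u, (β u).1 = a ∧ j u = b := fun a b => by
    obtain ⟨x, hx, hu⟩ := (h2 a).existsUnique b
    refine ⟨β.symm (a, x), ⟨by simp, hx⟩, ?_⟩
    rintro u ⟨rfl, h⟩
    rw [← hu (β u).2 (by simpa using h)]
    simp
  choose f hf hf' using hL
  have hi : ∀ b, Function.Bijective fun a => (β (f a b)).1 := fun b => by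
    refine Finite.injective_iff_bijective.1 fun a a' h => ?_
    have := (hR (β (f a' b)).1 b).unique ⟨h, (hf a b).2⟩ ⟨rfl, (hf a' b).2⟩
    rw [← (hf a b).1, this, (hf a' b).1]
  refine ⟨j, fun b => Equiv.ofBijective _ (hi b), fun a b => ⟨f a b, hf a b, hf' a b⟩, hR,
    fun u => ?_⟩
  rw [Equiv.ofBijective_apply, ← hf' u.1 (j u) u ⟨rfl, rfl⟩]

lemma blpr_two {A₁ A₂ B : Type} [Fintype A₁] [Fintype A₂] [Fintype B]
    (β : (A₁ × A₂) × B ≃ (A₁ × A₂) × B) :
    ∃ (j : (A₁ × A₂) × B → B) (κ : (A₁ × A₂) × B → A₂) (π : B → A₂ → A₁ ≃ A₁),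
      (∀ a b, ∃! u : (A₁ × A₂) × B, u.1 = a ∧ j u = b) ∧ (∀ a b, ∃! u, (β u).1 = a ∧ j u = b) ∧
      (∀ a b k, ∃! u : (A₁ × A₂) × B, u.1.1 = a ∧ j u = b ∧ κ u = k) ∧
      ∀ u, (β u).1.1 = π (j u) (κ u) u.1.1 := by
  obtain ⟨j, σ, hL, hR, hσ⟩ := blpr_one β
  choose j₂ π h1 _ h3 using fun b => blpr_one (σ b)
  refine ⟨j, fun u => j₂ (j u) u.1, π, hL, hR, fun a b k => ?_, fun u => by rw [hσ, h3]⟩
  obtain ⟨x, ⟨hx, hx'⟩, hxu⟩ := h1 b a k
  obtain ⟨u, ⟨hu, hu'⟩, huu⟩ := hL x b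
  refine ⟨u, ⟨by rw [hu, hx], hu', by simp only [hu, hu', hx']⟩, ?_⟩
  rintro w ⟨e1, e2, e3⟩
  exact huu w ⟨hxu w.1 ⟨e1, e2 ▸ e3⟩, e2⟩

lemma blpr_on {I α : Type} (F : I → α) : ∃ On : α → Bool, ∀ g, On g = true ↔ ∃ i, g = F i := by
  classical
  exact ⟨fun g => decide (∃ i, g = F i), fun g => decide_eq_true_iff⟩

lemma blpr_ct_one {I α : Type} [Fintype α] {F : I → α} {On : α → Bool}
    (hOn : ∀ g, On g = true ↔ ∃ i, g = F i) {P : α → Prop} (i : I) (hi : P (F i))
    (h : ∀ i', P (F i') → i' = i) : ct (fun g => On g = true ∧ P g) = 1 := by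
  rw [← ct_eq (F i)]
  refine ct_congr fun g => ⟨?_, ?_⟩
  · rintro ⟨h1, h2⟩
    obtain ⟨i', rfl⟩ := (hOn g).1 h1
    rw [h i' h2]
  · rintro rfl
    exact ⟨(hOn _).2 ⟨i, rfl⟩, hi⟩

lemma blpr_ct_zero {I α : Type} [Fintype α] {F : I → α} {On : α → Bool}
    (hOn : ∀ g, On g = true ↔ ∃ i, g = F i) {P : α → Prop} (h : ∀ i, ¬ P (F i)) :
    ct (fun g => On g = true ∧ P g) = 0 := by
  refine ct_false ?_
  rintro g ⟨h1, h2⟩
  obtain ⟨i', rfl⟩ := (hOn g).1 h1
  exact h i' h2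

namespace Net

variable {V M A₁ A₂ B : Type} (N : Net V M A₁ A₂ B)

lemma blpr_cases (u : (A₁ × A₂) × B) : (∃ p, u = N.emb p) ∨ ∃ d : N.Dm, u = d.1 := by
  by_cases h : ∃ p, u = N.emb p
  · exact Or.inl h
  · exact Or.inr ⟨⟨u, fun p hp => h ⟨p, hp.symm⟩⟩, rfl⟩

lemma blpr_gad (β₀ : V × M → V × M) (j : (A₁ × A₂) × B → B) (κ : (A₁ × A₂) × B → A₂) :
    ∃ gad : (A₁ × A₂) × B → N.Gad,
      (∀ p, gad (N.emb p) = .main p.1 (β₀ p).1 p.2 (β₀ p).2 (j (N.emb p)) (κ (N.emb p))) ∧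
      ∀ d : N.Dm, gad d.1 = .dum d (j d.1) (κ d.1) := by
  classical
  refine ⟨fun u => if h : ∃ p, N.emb p = u then
      .main h.choose.1 (β₀ h.choose).1 h.choose.2 (β₀ h.choose).2 (j u) (κ u)
    else .dum ⟨u, fun p hp => h ⟨p, hp⟩⟩ (j u) (κ u), fun p => ?_, fun d => ?_⟩
  · have h : ∃ q, N.emb q = N.emb p := ⟨p, rfl⟩
    have e : h.choose = p := N.emb.injective h.choose_spec
    simp only [dif_pos h, e]
  · have h : ¬ ∃ q, N.emb q = d.1 := fun ⟨q, hq⟩ => d.2 q hq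
    simp only [dif_neg h]

lemma blpr_notC {o : N.Obj} (h : ∀ r c, o ≠ .cel r c) (P : Prop) :
    ind (¬ N.blue.isC o ∨ P) = 1 :=
  ind_pos (Or.inl fun ⟨r, c, e⟩ => h r c e)

/-- Enumerate the cells of `G` in each row and in each column by `M`; this gives a bijection
`β₀ : V × M ≃ V × M`, `(r, i) ↦ (c, i')`, such that `(r, i) ↦ (r, c)` is a bijection onto the
cells of `G`.  Extend it by the identity on dummies to a permutation `β` of `(A₁ × A₂) × B`
(`Equiv.Perm.extendDomain` or `Equiv.Perm.viaFintypeEmbedding`).  `konig β` gives colours `j u`;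
for each colour `j` the units of that colour give a permutation `β' j` of `A₁ × A₂`; `konig (β' j)`
gives colours `j₂ j a`, and for each `(j, j₂)` a permutation `π j j₂` of `A₁`.  Switch on
`main r c i i' j k` iff `β₀ (r, i) = (c, i')`, `j` is the colour of `u = emb (r, i)` and
`k = j₂ j u.1`; `dum u j k` with the same two conditions; `fin a a' j k` iff `a' = π j k a`;
`idle a a' j k` iff `a' ≠ π j k a`.  For each kind of object exhibit the unique gadget
(`ct_eq`, `ct_congr`). -/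
theorem route [Fintype V] [DecidableEq V] [Fintype M] [DecidableEq M] [Fintype A₁] [DecidableEq A₁]
    [Fintype A₂] [DecidableEq A₂] [Fintype B] [DecidableEq B] (G : V → V → Prop)
    (hG : Reg G (Fintype.card M)) : ∃ On : N.Gad → Bool, ∀ o,
      ct (fun g => On g = true ∧ N.blue.cont g o) =
        ind (¬ N.blue.isC o ∨ ∃ r c, o = N.blue.cel r c ∧ G r c) := by
  classical
  obtain ⟨β₀, hG0, hG1⟩ := blpr_cells G hG
  let β : (A₁ × A₂) × B ≃ (A₁ × A₂) × B := Equiv.Perm.viaEmbedding β₀ N.emb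
  have hβ : ∀ p, β (N.emb p) = N.emb (β₀ p) := Equiv.Perm.viaEmbedding_apply β₀ N.emb
  have hβ' : ∀ d : N.Dm, β d.1 = d.1 := fun d =>
    Equiv.Perm.viaEmbedding_apply_of_notMem β₀ N.emb d.1 fun ⟨p, hp⟩ => d.2 p hp
  obtain ⟨j, κ, π, hL, hR, hW, hπ⟩ := blpr_two β
  obtain ⟨gad, hm, hd⟩ := N.blpr_gad β₀ j κ
  let sw : A₁ × A₁ × B × A₂ → N.Gad := fun w =>
    if w.2.1 = π w.2.2.1 w.2.2.2 w.1 then .fin w.1 w.2.1 w.2.2.1 w.2.2.2
    else .idle w.1 w.2.1 w.2.2.1 w.2.2.2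
  have g0 : ∀ u, N.ob (gad u) 0 = .t1L u.1 (j u) := fun u => by
    rcases N.blpr_cases u with ⟨p, rfl⟩ | ⟨d, rfl⟩
    · rw [hm]; rfl
    · rw [hd]; rfl
  have g7 : ∀ u, N.ob (gad u) 7 = .t1R (β u).1 (j u) := fun u => by
    rcases N.blpr_cases u with ⟨p, rfl⟩ | ⟨d, rfl⟩
    · rw [hm, hβ]; rfl
    · rw [hd, hβ']; rfl
  have g9 : ∀ u, N.ob (gad u) 9 = .wm u.1.1 (β u).1.1 (j u) (κ u) := fun u => by
    rcases N.blpr_cases u with ⟨p, rfl⟩ | ⟨d, rfl⟩
    · rw [hm, hβ]; rfl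
    · rw [hd, hβ']; rfl
  have g12 : ∀ u, N.ob (gad u) 12 = .wm u.1.1 (β u).1.1 (j u) (κ u) := fun u => by
    rcases N.blpr_cases u with ⟨p, rfl⟩ | ⟨d, rfl⟩
    · rw [hm, hβ]; rfl
    · rw [hd, hβ']; rfl
  have m2 : ∀ p, N.ob (gad (N.emb p)) 2 = .t0L p.1 p.2 := fun p => by rw [hm]; rfl
  have m4 : ∀ p, N.ob (gad (N.emb p)) 4 = .cel p.1 (β₀ p).1 := fun p => by rw [hm]; rfl
  have m5 : ∀ p, N.ob (gad (N.emb p)) 5 = .t0R (β₀ p).1 (β₀ p).2 := fun p => by rw [hm]; rfl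
  have d2 : ∀ d : N.Dm, N.ob (gad d.1) 2 = .dum d := fun d => by rw [hd]; rfl
  have d4 : ∀ d : N.Dm, N.ob (gad d.1) 4 = .dum d := fun d => by rw [hd]; rfl
  have d5 : ∀ d : N.Dm, N.ob (gad d.1) 5 = .dum d := fun d => by rw [hd]; rfl
  have s0 : ∀ w k, k < 9 → N.ob (sw w) k = .wp w.1 w.2.1 w.2.2.1 w.2.2.2 := fun w k hk => by
    simp only [sw]
    split_ifs <;> simp only [ob, if_pos hk]
  have s9 : ∀ w, N.ob (sw w) 9 = if w.2.1 = π w.2.2.1 w.2.2.2 w.1 then
      .t2R w.2.1 w.2.2.1 w.2.2.2 else .wm w.1 w.2.1 w.2.2.1 w.2.2.2 := fun w => by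
    simp only [sw]
    split_ifs <;> rfl
  have s12 : ∀ w, N.ob (sw w) 12 = if w.2.1 = π w.2.2.1 w.2.2.2 w.1 then
      .t2L w.1 w.2.2.1 w.2.2.2 else .wm w.1 w.2.1 w.2.2.1 w.2.2.2 := fun w => by
    simp only [sw]
    split_ifs <;> rfl
  clear_value sw β
  obtain ⟨On, hOn⟩ := blpr_on (Sum.elim gad sw)
  refine ⟨On, fun o => ?_⟩
  rcases o with ⟨r, c⟩ | ⟨r, i⟩ | ⟨c, i⟩ | ⟨d⟩ | ⟨a, b⟩ | ⟨a, b⟩ | ⟨a, a', b, k⟩ |
    ⟨a, a', b, k⟩ | ⟨a, b, k⟩ | ⟨a, b, k⟩
  · by_cases h : G r c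
    · rw [ind_pos (Or.inr ⟨r, c, rfl, h⟩)]
      obtain ⟨p, ⟨rfl, rfl⟩, hp⟩ := hG1 r c h
      refine blpr_ct_one hOn (.inl (N.emb p)) (m4 p) ?_
      rintro (u | w) hu
      · rcases N.blpr_cases u with ⟨q, rfl⟩ | ⟨d, rfl⟩
        · rw [hp q (BO.cel.inj ((m4 q).symm.trans hu))]
        · cases (d4 d).symm.trans hu
      · cases (s0 w 4 (by norm_num)).symm.trans hu
    · rw [ind_neg (by
        rintro (h' | ⟨r', c', e, h'⟩)
        · exact h' ⟨r, c, rfl⟩
        · obtain ⟨rfl, rfl⟩ := BO.cel.inj e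
          exact h h')]
      refine blpr_ct_zero hOn ?_
      rintro (u | w) hu
      · rcases N.blpr_cases u with ⟨q, rfl⟩ | ⟨d, rfl⟩
        · obtain ⟨rfl, rfl⟩ := BO.cel.inj ((m4 q).symm.trans hu)
          exact h (hG0 q)
        · cases (d4 d).symm.trans hu
      · cases (s0 w 4 (by norm_num)).symm.trans hu
  · rw [N.blpr_notC (by simp)]
    refine blpr_ct_one hOn (.inl (N.emb (r, i))) (m2 (r, i)) ?_
    rintro (u | w) hu
    · rcases N.blpr_cases u with ⟨q, rfl⟩ | ⟨d, rfl⟩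
      · obtain ⟨rfl, rfl⟩ := BO.t0L.inj ((m2 q).symm.trans hu)
        rfl
      · cases (d2 d).symm.trans hu
    · cases (s0 w 2 (by norm_num)).symm.trans hu
  · rw [N.blpr_notC (by simp)]
    obtain ⟨p, hp⟩ := β₀.surjective (c, i)
    refine blpr_ct_one hOn (.inl (N.emb p)) ((m5 p).trans (by rw [hp])) ?_
    rintro (u | w) hu
    · rcases N.blpr_cases u with ⟨q, rfl⟩ | ⟨d, rfl⟩
      · obtain ⟨e1, e2⟩ := BO.t0R.inj ((m5 q).symm.trans hu)
        rw [β₀.injective ((Prod.ext e1 e2 : β₀ q = (c, i)).trans hp.symm)]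
      · cases (d5 d).symm.trans hu
    · cases (s0 w 5 (by norm_num)).symm.trans hu
  · rw [N.blpr_notC (by simp)]
    refine blpr_ct_one hOn (.inl d.1) (d2 d) ?_
    rintro (u | w) hu
    · rcases N.blpr_cases u with ⟨q, rfl⟩ | ⟨d', rfl⟩
      · cases (m2 q).symm.trans hu
      · rw [BO.dum.inj ((d2 d').symm.trans hu)]
    · cases (s0 w 2 (by norm_num)).symm.trans hu
  · rw [N.blpr_notC (by simp)]
    obtain ⟨u, ⟨rfl, rfl⟩, hu⟩ := hL a b
    refine blpr_ct_one hOn (.inl u) (g0 u) ?_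
    rintro (u' | w) hu'
    · rw [hu u' (BO.t1L.inj ((g0 u').symm.trans hu'))]
    · cases (s0 w 0 (by norm_num)).symm.trans hu'
  · rw [N.blpr_notC (by simp)]
    obtain ⟨u, ⟨rfl, rfl⟩, hu⟩ := hR a b
    refine blpr_ct_one hOn (.inl u) (g7 u) ?_
    rintro (u' | w) hu'
    · rw [hu u' (BO.t1R.inj ((g7 u').symm.trans hu'))]
    · cases (s0 w 7 (by norm_num)).symm.trans hu'
  · rw [N.blpr_notC (by simp)]
    refine blpr_ct_one hOn (.inr (a, a', b, k)) (s0 _ 0 (by norm_num)) ?_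
    rintro (u' | w) hu'
    · cases (g0 u').symm.trans hu'
    · obtain ⟨rfl, rfl, rfl, rfl⟩ := BO.wp.inj ((s0 w 0 (by norm_num)).symm.trans hu')
      rfl
  · rw [N.blpr_notC (by simp)]
    by_cases h : a' = π b k a
    · obtain ⟨u, ⟨rfl, rfl, rfl⟩, hu⟩ := hW a b k
      refine blpr_ct_one hOn (.inl u) ((g9 u).trans (by rw [h, hπ])) ?_
      rintro (u' | w) hu'
      · obtain ⟨e1, -, e2, e3⟩ := BO.wm.inj ((g9 u').symm.trans hu')
        rw [hu u' ⟨e1, e2, e3⟩]
      · have := (s9 w).symm.trans hu'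
        split_ifs at this with h'
        obtain ⟨e1, e2, e3, e4⟩ := BO.wm.inj this
        exact absurd (by rw [e1, e2, e3, e4, h]) h'
    · refine blpr_ct_one hOn (.inr (a, a', b, k)) ((s9 _).trans (if_neg h)) ?_
      rintro (u' | w) hu'
      · obtain ⟨e1, e2, e3, e4⟩ := BO.wm.inj ((g9 u').symm.trans hu')
        exact absurd (by rw [← e1, ← e2, ← e3, ← e4, hπ]) h
      · have := (s9 w).symm.trans hu'
        split_ifs at this with h'
        obtain ⟨rfl, rfl, rfl, rfl⟩ := BO.wm.inj this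
        rfl
  · rw [N.blpr_notC (by simp)]
    refine blpr_ct_one hOn (.inr (a, π b k a, b, k)) ((s12 _).trans (if_pos rfl)) ?_
    rintro (u' | w) hu'
    · cases (g12 u').symm.trans hu'
    · have := (s12 w).symm.trans hu'
      split_ifs at this with h'
      obtain ⟨rfl, rfl, rfl⟩ := BO.t2L.inj this
      rw [← h']
  · rw [N.blpr_notC (by simp)]
    refine blpr_ct_one hOn (.inr ((π b k).symm a, a, b, k)) ((s9 _).trans (if_pos (by simp))) ?_
    rintro (u' | w) hu'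
    · cases (g9 u').symm.trans hu'
    · have := (s9 w).symm.trans hu'
      split_ifs at this with h'
      obtain ⟨rfl, rfl, rfl⟩ := BO.t2R.inj this
      rw [(π w.2.2.1 w.2.2.2).symm_apply_eq.2 h']

end Net

end Pool.Agent.MP_46aeaf_co.HT

/-! The routing network exists. -/

namespace Pool.Agent.MP_46aeaf_co.HT

open Finset Pool.Agent.MP_81e6aa_pr

/-- `M = Fin m`, `A₁ = Fin (τ ^ 23)`, `A₂ = B = Fin (τ ^ 14)`; the embeddings exist by
`Function.Embedding.nonempty_of_card_le`. -/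
theorem blue_exists (V : Type) [Fintype V] [DecidableEq V] (m τ : ℕ) (h2 : 2 ≤ τ) (hm : m ≤ τ)
    (h1 : τ ^ 37 ≤ Fintype.card V) (h3 : Fintype.card V ≤ τ ^ 50) :
    ∃ (Obj Gad : Type) (_ : Fintype Obj) (_ : Fintype Gad) (B : Blue V Obj Gad), B.Ok m τ := by
  have e1 : τ ^ 23 * τ ^ 14 = τ ^ 37 := by rw [← pow_add]
  have e2 : τ ^ 14 * τ ^ 14 ≤ τ ^ 37 := by
    rw [← pow_add]; exact Nat.pow_le_pow_right (by omega) (by norm_num)
  have e3 : Fintype.card V * m ≤ τ ^ 23 * τ ^ 14 * τ ^ 14 := by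
    rw [← pow_add, ← pow_add]
    exact (Nat.mul_le_mul h3 hm).trans (pow_succ τ 50).symm.le
  obtain ⟨emb⟩ : Nonempty (V × Fin m ↪ (Fin (τ ^ 23) × Fin (τ ^ 14)) × Fin (τ ^ 14)) :=
    Function.Embedding.nonempty_of_card_le (by
      simpa only [Fintype.card_prod, Fintype.card_fin] using e3)
  obtain ⟨g⟩ : Nonempty (Fin (τ ^ 23) × Fin (τ ^ 14) ↪ V) :=
    Function.Embedding.nonempty_of_card_le (by
      simpa only [Fintype.card_prod, Fintype.card_fin, e1] using h1)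
  obtain ⟨H⟩ : Nonempty (Fin (τ ^ 14) × Fin (τ ^ 14) ↪ V) :=
    Function.Embedding.nonempty_of_card_le (by
      simpa only [Fintype.card_prod, Fintype.card_fin] using e2.trans h1)
  let N : Net V (Fin m) (Fin (τ ^ 23)) (Fin (τ ^ 14)) (Fin (τ ^ 14)) := ⟨emb, g, g, H⟩
  have hS : Net.Sz V (Fin m) (Fin (τ ^ 23)) (Fin (τ ^ 14)) (Fin (τ ^ 14)) τ :=
    ⟨by exact_mod_cast h2, by rw [Fintype.card_fin]; exact_mod_cast hm,
      by rw [Fintype.card_fin, Nat.cast_pow], by rw [Fintype.card_fin, Nat.cast_pow],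
      by rw [Fintype.card_fin, Nat.cast_pow]⟩
  obtain ⟨s1, s2, s3, s4, s5⟩ := N.shape
  exact ⟨_, _, inferInstance, inferInstance, N.blue, s1, s2, fun _ _ => ⟨rfl, rfl, rfl, rfl⟩, s3, s4,
    s5, fun G hG => N.route G (by rwa [Fintype.card_fin]), (N.load_obj hS).1, (N.load_obj hS).2,
    fun Q hQ => (N.load_gad hS Q hQ).1, fun Q hQ => (N.load_gad hS Q hQ).2.1,
    fun Q hQ => (N.load_gad hS Q hQ).2.2⟩

end Pool.Agent.MP_46aeaf_co.HT

end
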