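import Pool.Agent.MP_46aeaf_co.Mg.LS_Tools

-- part MP_46aeaf_co.LS.Nibble
section

set_option autoImplicit false
set_option linter.unusedSectionVars false
set_option linter.unusedVariables false

/-! One round of the nibble. -/

namespace Pool.Agent.MP_46aeaf_co.HT

open Finset Pool.Agent.MP_81e6aa_pr Real Filter

variable {V : Type} [Fintype V] [DecidableEq V]

/-- the line `e` survives: its coin is good and no chosen triple of `H` is on it -/
def Sv (H : Tr V → Prop) (x : Tr V → Bool) (z : Ln V → Bool) (e : Ln V) : Prop :=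
  z e = true ∧ ∀ t, ed e.1 t = e → H t → x t = false

/-- the degrees after the round are as expected -/
def NGood (H : Tr V → Prop) (D ζ lam : ℝ) (x : Tr V → Bool) (z : Ln V → Bool) : Prop :=
  ∀ e : Ln V, |dg (fun t => H t ∧ ∀ k, k ≠ e.1 → Sv H x z (ed k t)) e - lam * dg H e| ≤ ζ * D

lemma nibr_weier {ι : Type} (s : Finset ι) (a : ι → ℝ) (h0 : ∀ i, 0 ≤ a i) (h1 : ∀ i, a i ≤ 1) :
    1 - ∑ i ∈ s, a i ≤ ∏ i ∈ s, (1 - a i) := by
  classical
  induction s using Finset.induction_on with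
  | empty => simp
  | insert i s hi ih =>
    rw [sum_insert hi, prod_insert hi]
    have h2 := mul_le_mul_of_nonneg_left ih (sub_nonneg.2 (h1 i))
    have h3 := mul_nonneg (h0 i) (sum_nonneg fun j (_ : j ∈ s) => h0 j)
    linarith

/-- The coins.  With `p = η / D` and `N e` the natural number with `dg H e = N e` (`ct_card`) put
`c e = (1 - η) / (1 - p) ^ N e`.  Bernoulli's inequality (`one_add_mul_le_pow`) gives
`1 - η ≤ (1 - p) ^ N e`, and `(1 - p) ^ N ≤ exp (-u) ≤ 1 - u + u ^ 2` for `u = p N ≤ η`. -/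
theorem nib_coin (H : Tr V → Prop) {D η : ℝ} (hD : 1 ≤ D) (hη0 : 0 < η) (hη : η ≤ 1 / 2)
    (hdeg : ∀ e, dg H e ≤ D) :
    ∃ c : Ln V → ℝ, (∀ e, 0 ≤ c e ∧ c e ≤ 1) ∧
      (∀ e, c e * ∏ t, (1 - η / D * ind (ed e.1 t = e ∧ H t)) = 1 - η) ∧
      ∀ e, 1 - c e ≤ 2 * η * (1 - dg H e / D) + 2 * η ^ 2 := by
  have hD0 : 0 < D := by linarith
  have hp0 : 0 ≤ η / D := by positivity
  have hp1 : η / D ≤ 1 / 2 := by rw [div_le_iff₀ hD0]; linarith
  set P : Ln V → ℝ := fun e => ∏ t, (1 - η / D * ind (ed e.1 t = e ∧ H t)) with hP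
  have hu : ∀ e : Ln V, ∑ t, η / D * ind (ed e.1 t = e ∧ H t) = η * (dg H e / D) := fun e => by
    rw [← mul_sum]
    show η / D * dg H e = _
    ring
  have hr : ∀ e, 0 ≤ dg H e / D ∧ dg H e / D ≤ 1 := fun e =>
    ⟨div_nonneg (dg_nonneg H e) hD0.le, (div_le_one hD0).2 (hdeg e)⟩
  have a0 : ∀ (e : Ln V) t, 0 ≤ η / D * ind (ed e.1 t = e ∧ H t) := fun e t =>
    mul_nonneg hp0 (ind_nonneg _)
  have a1 : ∀ (e : Ln V) t, η / D * ind (ed e.1 t = e ∧ H t) ≤ 1 := fun e t => by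
    have := mul_le_mul_of_nonneg_left (ind_le_one (ed e.1 t = e ∧ H t)) hp0
    linarith
  have lo : ∀ e, 1 - η ≤ P e := fun e => by
    have h1 := nibr_weier univ _ (a0 e) (a1 e)
    rw [hu] at h1
    have := mul_le_mul_of_nonneg_left (hr e).2 hη0.le
    exact le_trans (by linarith) h1
  have hi : ∀ e, P e ≤ 1 - η * (dg H e / D) + η ^ 2 := fun e => by
    have h1 : P e ≤ exp (-(η * (dg H e / D))) := by
      rw [← hu, ← sum_neg_distrib, exp_sum]
      exact prod_le_prod (fun t _ => sub_nonneg.2 (a1 e t)) fun t _ => by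
        linarith [add_one_le_exp (-(η / D * ind (ed e.1 t = e ∧ H t)))]
    have h2 := mul_le_mul_of_nonneg_left (hr e).2 hη0.le
    have h3 := mul_nonneg hη0.le (hr e).1
    generalize η * (dg H e / D) = u at h1 h2 h3 ⊢
    have h4 := (abs_le.1 (abs_exp_sub_one_sub_id_le (x := -u)
      (by rw [abs_neg, abs_of_nonneg h3]; linarith))).2
    nlinarith
  have pos : ∀ e, 0 < P e := fun e => by linarith [lo e]
  refine ⟨fun e => (1 - η) / P e, fun e => ⟨div_nonneg (by linarith) (pos e).le,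
    (div_le_one (pos e)).2 (lo e)⟩, fun e => div_mul_cancel₀ _ (pos e).ne', fun e => ?_⟩
  have h1 : 1 - (1 - η) / P e = (P e - (1 - η)) / P e := by
    have := (pos e).ne'
    field_simp
  show 1 - (1 - η) / P e ≤ _
  rw [h1, div_le_iff₀ (pos e)]
  have h2 := lo e
  have h3 := hi e
  have h4 : P e - (1 - η) ≤ η * (1 - dg H e / D) + η ^ 2 := by linarith
  have h5 : 0 ≤ η * (1 - dg H e / D) + η ^ 2 := by linarith
  have h6 := mul_le_mul_of_nonneg_left (show 1 ≤ 2 * P e by linarith) h5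
  linarith

omit [DecidableEq V] in
lemma nibr_three (t : Tr V) (p : ℝ) :
    ∏ e : Ln V, (1 - p * ind (ed e.1 t = e)) = (1 - p) ^ 3 := by
  rw [Fintype.prod_prod_type]
  have : ∀ k : Fin 3, ∏ b : V × V, (1 - p * ind (ed (k, b).1 t = (k, b))) = 1 - p := fun k => by
    rw [prod_eq_single (ed k t).2]
    · rw [ind_pos (show ed (k, (ed k t).2).1 t = (k, (ed k t).2) from rfl), mul_one]
    · intro b _ hb
      rw [ind_neg, mul_zero, sub_zero]
      intro h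
      exact hb (congrArg Prod.snd h).symm
    · simp
  simp only [this]
  simp

/-- probability that all lines of `Z` survive -/
lemma nibr_all (H : Tr V → Prop) (p : ℝ) (c : Ln V → ℝ) (Z : Finset (Ln V)) :
    Ex (fun _ : Tr V => bern p) (fun x => Ex (fun e => bern (c e)) fun z =>
      ∏ e ∈ Z, ind (Sv H x z e)) =
      (∏ t, (1 - p * ind (H t ∧ ∃ e ∈ Z, ed e.1 t = e))) * ∏ e ∈ Z, c e := by
  have h1 : ∀ (x : Tr V → Bool) (z : Ln V → Bool), ∏ e ∈ Z, ind (Sv H x z e) =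
      (∏ t, ind ((H t ∧ ∃ e ∈ Z, ed e.1 t = e) → x t = false)) *
        ∏ e, ind (e ∈ Z → z e = true) := by
    intro x z
    rw [← ind_forall, ← ind_forall, ← ind_forall, ← ind_and]
    refine ind_congr ⟨fun h => ⟨?_, fun e _ he => (h e he).1⟩, fun h e he =>
      ⟨h.2 e (mem_univ _) he, fun t h1 h2 => h.1 t (mem_univ _) ⟨h2, e, he, h1⟩⟩⟩
    rintro t - ⟨h2, e, he, h1⟩
    exact (h e he).2 t h1 h2
  simp only [h1, Ex_smul]
  rw [Ex_mul_const, Ex_prod (fun e => bern (c e)) fun e b => ind (e ∈ Z → b = true),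
    Ex_prod (fun _ : Tr V => bern p) fun t b => ind ((H t ∧ ∃ e ∈ Z, ed e.1 t = e) → b = false)]
  congr 1
  · refine prod_congr rfl fun t _ => ?_
    by_cases h : H t ∧ ∃ e ∈ Z, ed e.1 t = e
    · rw [ind_pos h, Fintype.sum_bool, ind_neg fun h' => by simpa using h' h,
        ind_pos fun _ => rfl]
      simp [bern]
    · rw [ind_neg h, Fintype.sum_bool, ind_pos fun h' => absurd h' h,
        ind_pos fun h' => absurd h' h]
      simp [bern]
  · rw [← prod_subset (subset_univ Z) fun e _ he => by simp [bern, he, ind]]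
    exact prod_congr rfl fun e he => by simp [bern, he, ind]

lemma nibr_le (H : Tr V → Prop) {p η : ℝ} (hp0 : 0 ≤ p) (hp1 : p ≤ 1) (hη0 : 0 ≤ η) (hη : η ≤ 1)
    (c : Ln V → ℝ) (hc : ∀ e, 0 ≤ c e ∧ c e ≤ 1)
    (hc2 : ∀ e, c e * ∏ t, (1 - p * ind (ed e.1 t = e ∧ H t)) = 1 - η) (Z : Finset (Ln V)) :
    (∏ t, (1 - p * ind (H t ∧ ∃ e ∈ Z, ed e.1 t = e))) * ∏ e ∈ Z, c e ≤
      ∏ _e ∈ Z, (1 - η / 3) := by
  have a : ∀ Q : Prop, 0 ≤ 1 - p * ind Q ∧ 1 - p * ind Q ≤ 1 := fun Q => by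
    have h1 := mul_le_mul_of_nonneg_left (ind_le_one Q) hp0
    have h2 := mul_nonneg hp0 (ind_nonneg Q)
    constructor <;> linarith
  have c0 : 0 ≤ ∏ e ∈ Z, c e := prod_nonneg fun e _ => (hc e).1
  have c1 : ∏ e ∈ Z, c e ≤ 1 := prod_le_one (fun e _ => (hc e).1) fun e _ => (hc e).2
  have h1 : ∀ t, (1 - p * ind (H t ∧ ∃ e ∈ Z, ed e.1 t = e)) ^ 3 ≤
      ∏ e ∈ Z, (1 - p * ind (ed e.1 t = e ∧ H t)) := fun t => by
    by_cases h : H t ∧ ∃ e ∈ Z, ed e.1 t = e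
    · rw [ind_pos h, mul_one, ← nibr_three t p]
      simp only [h.1, and_true]
      exact prod_le_prod_of_subset_of_le_one (subset_univ Z) (fun e _ => (a _).1)
        fun e _ _ => (a _).2
    · rw [ind_neg h, prod_congr rfl fun e he => by
        rw [ind_neg fun h' => h ⟨h'.2, e, he, h'.1⟩]]
      simp
  refine le_of_pow_le_pow_left₀ (n := 3) (by norm_num)
    (prod_nonneg fun _ _ => by linarith) ?_
  calc _ = (∏ t, (1 - p * ind (H t ∧ ∃ e ∈ Z, ed e.1 t = e)) ^ 3) * (∏ e ∈ Z, c e) ^ 3 := by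
        rw [mul_pow, prod_pow]
    _ ≤ (∏ t, ∏ e ∈ Z, (1 - p * ind (ed e.1 t = e ∧ H t))) * ∏ e ∈ Z, c e :=
        mul_le_mul (prod_le_prod (fun t _ => pow_nonneg (a _).1 3) fun t _ => h1 t)
          (pow_le_of_le_one c0 c1 (by norm_num)) (pow_nonneg c0 3)
          (prod_nonneg fun t _ => prod_nonneg fun e _ => (a _).1)
    _ = ∏ _e ∈ Z, (1 - η) := by
        rw [Finset.prod_comm, ← prod_mul_distrib]
        exact prod_congr rfl fun e _ => by rw [mul_comm]; exact hc2 e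
    _ ≤ _ := by
        rw [← prod_pow]
        refine prod_le_prod (fun _ _ => by linarith) fun _ _ => ?_
        nlinarith [mul_nonneg (mul_nonneg hη0 hη0) (show 0 ≤ 9 - η by linarith)]

/-- Survivors.  Expand with `Finset.prod_one_add`.  For a set `Z` of lines the probability `π`
that all survive is `∏ e ∈ Z, c e` times `∏ t, (1 - p * ind (H t ∧ t is on a line of Z))`; a
triple is on at most three lines, so `π ^ 3 ≤ (1 - η) ^ |Z| ≤ ((1 - η / 3) ^ |Z|) ^ 3`. -/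
theorem nib_surv (H : Tr V → Prop) {D η : ℝ} (hD : 1 ≤ D) (hη0 : 0 < η) (hη : η ≤ 1 / 2)
    (c : Ln V → ℝ) (hc : ∀ e, 0 ≤ c e ∧ c e ≤ 1)
    (hc2 : ∀ e, c e * ∏ t, (1 - η / D * ind (ed e.1 t = e ∧ H t)) = 1 - η)
    (X : Ln V → Prop) {y : ℝ} (hy : 0 ≤ y) :
    Ex (fun _ : Tr V => bern (η / D)) (fun x => Ex (fun e => bern (c e)) fun z =>
      ∏ e, (1 + y * ind (X e ∧ Sv H x z e))) ≤ ∏ e, (1 + y * (1 - η / 3) * ind (X e)) := by
  have hD0 : 0 < D := by linarith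
  have hp0 : 0 ≤ η / D := by positivity
  have hp1 : η / D ≤ 1 := by rw [div_le_iff₀ hD0]; linarith
  simp only [prod_one_add, Ex_sum]
  refine sum_le_sum fun Z _ => ?_
  have h1 : ∀ (x : Tr V → Bool) (z : Ln V → Bool), ∏ e ∈ Z, y * ind (X e ∧ Sv H x z e) =
      (∏ e ∈ Z, y * ind (X e)) * ∏ e ∈ Z, ind (Sv H x z e) := fun x z => by
    rw [← prod_mul_distrib]
    exact prod_congr rfl fun e _ => by rw [ind_and, mul_assoc]
  simp only [h1, Ex_smul]
  rw [nibr_all]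
  refine (mul_le_mul_of_nonneg_left (nibr_le H hp0 hp1 hη0.le (by linarith) c hc hc2 Z)
    (prod_nonneg fun e _ => mul_nonneg hy (ind_nonneg _))).trans (le_of_eq ?_)
  rw [← prod_mul_distrib]
  exact prod_congr rfl fun e _ => by ring

end Pool.Agent.MP_46aeaf_co.HT

/-! The nibble: degrees concentrate. -/

namespace Pool.Agent.MP_46aeaf_co.HT

open Finset Pool.Agent.MP_81e6aa_pr Real Filter

variable {V : Type} [Fintype V] [DecidableEq V]

lemma nibg_diff {α : Type} [Fintype α] {A A' B : α → Prop} (h : ∀ a, ¬ B a → (A a ↔ A' a)) :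
    |ct A - ct A'| ≤ ct B := by
  have h1 : ct A ≤ ct A' + ct B := ct_le_add fun a ha => by
    by_cases hb : B a
    · exact Or.inr hb
    · exact Or.inl ((h a hb).1 ha)
  have h2 : ct A' ≤ ct A + ct B := ct_le_add fun a ha => by
    by_cases hb : B a
    · exact Or.inr hb
    · exact Or.inl ((h a hb).2 ha)
  rw [abs_le]; constructor <;> linarith

lemma nibg_all {α : Type} [Fintype α] (P : α → Prop) : ind (∀ a, P a) = ∏ a, ind (P a) := by
  rw [← ind_forall]; exact ind_congr (by simp)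

lemma nibg_types (j : Fin 3) : ∃ k₁ k₂ : Fin 3, k₁ ≠ k₂ ∧ ∀ k, k ≠ j ↔ (k = k₁ ∨ k = k₂) := by
  fin_cases j
  · exact ⟨1, 2, by decide, by decide⟩
  · exact ⟨0, 2, by decide, by decide⟩
  · exact ⟨0, 1, by decide, by decide⟩

/-- two lines with a common triple of `H` both survive -/
lemma nibg_two (H : Tr V → Prop) {p η : ℝ} (hp : p < 1) (c : Ln V → ℝ)
    (hc2 : ∀ e, c e * ∏ t, (1 - p * ind (ed e.1 t = e ∧ H t)) = 1 - η)
    {e₁ e₂ : Ln V} (he : e₁ ≠ e₂) {t : Tr V} (h1 : ed e₁.1 t = e₁) (h2 : ed e₂.1 t = e₂)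
    (ht : H t) :
    Ex (fun _ : Tr V => bern p) (fun x => Ex (fun e => bern (c e)) fun z =>
      ind (Sv H x z e₁ ∧ Sv H x z e₂)) = (1 - η) ^ 2 / (1 - p) := by
  have e1 : ∀ (x : Tr V → Bool) (z : Ln V → Bool), ind (Sv H x z e₁ ∧ Sv H x z e₂) =
      (∏ u, ind (((ed e₁.1 u = e₁ ∧ H u) ∨ (ed e₂.1 u = e₂ ∧ H u)) → x u = false)) *
        ∏ e, ind ((e = e₁ ∨ e = e₂) → z e = true) := by
    intro x z
    rw [← nibg_all, ← nibg_all, ← ind_and]
    refine ind_congr ⟨?_, ?_⟩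
    · rintro ⟨⟨a1, a2⟩, b1, b2⟩
      refine ⟨?_, ?_⟩
      · rintro u (⟨h, h'⟩ | ⟨h, h'⟩)
        · exact a2 u h h'
        · exact b2 u h h'
      · rintro e (rfl | rfl)
        · exact a1
        · exact b1
    · rintro ⟨a, b⟩
      exact ⟨⟨b _ (Or.inl rfl), fun u h h' => a u (Or.inl ⟨h, h'⟩)⟩,
        b _ (Or.inr rfl), fun u h h' => a u (Or.inr ⟨h, h'⟩)⟩
  simp only [e1, Ex_smul, Ex_mul_const]
  rw [Ex_prod (fun _ : Tr V => bern p)
      (fun u b => ind (((ed e₁.1 u = e₁ ∧ H u) ∨ (ed e₂.1 u = e₂ ∧ H u)) → b = false)),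
    Ex_prod (fun e => bern (c e)) (fun e b => ind ((e = e₁ ∨ e = e₂) → b = true))]
  have e2 : ∏ e, ∑ b, bern (c e) b * ind ((e = e₁ ∨ e = e₂) → b = true) = c e₁ * c e₂ := by
    rw [← prod_pair he, ← univ_inter {e₁, e₂}, ← prod_ite_mem]
    refine prod_congr rfl fun e _ => ?_
    by_cases h : e = e₁ ∨ e = e₂
    · rw [if_pos (by simpa using h)]
      simp [bern, ind, h]
    · rw [if_neg (by simpa using h)]
      simp [bern, ind, h]
  have e3 : (∏ u, ∑ b, bern p b *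
      ind (((ed e₁.1 u = e₁ ∧ H u) ∨ (ed e₂.1 u = e₂ ∧ H u)) → b = false)) * (1 - p) =
      (∏ u, (1 - p * ind (ed e₁.1 u = e₁ ∧ H u))) * ∏ u, (1 - p * ind (ed e₂.1 u = e₂ ∧ H u)) := by
    have : (1 - p) = ∏ u, if u = t then 1 - p else 1 := by rw [prod_ite_eq']; simp
    conv_lhs => rw [this]
    rw [← prod_mul_distrib, ← prod_mul_distrib]
    refine prod_congr rfl fun u _ => ?_
    by_cases hu : u = t
    · subst hu
      rw [ind_pos (show ed e₁.1 u = e₁ ∧ H u from ⟨h1, ht⟩),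
        ind_pos (show ed e₂.1 u = e₂ ∧ H u from ⟨h2, ht⟩)]
      simp [bern, ind, h1, ht]
    · rw [if_neg hu]
      by_cases a : ed e₁.1 u = e₁ ∧ H u
      · have b : ¬ (ed e₂.1 u = e₂ ∧ H u) := fun b => hu (eq_of_on he a.1 b.1 h1 h2)
        rw [ind_pos a, ind_neg b]
        simp [bern, ind, a]
      · by_cases b : ed e₂.1 u = e₂ ∧ H u
        · rw [ind_neg a, ind_pos b]
          simp [bern, ind, b]
        · rw [ind_neg a, ind_neg b]
          simp [bern, ind, a, b]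
  rw [e2, eq_div_iff (by linarith), mul_right_comm, e3]
  calc _ = (c e₁ * ∏ u, (1 - p * ind (ed e₁.1 u = e₁ ∧ H u))) *
        (c e₂ * ∏ u, (1 - p * ind (ed e₂.1 u = e₂ ∧ H u))) := by ring
    _ = _ := by rw [hc2, hc2, sq]

/-- the mean of the new degree -/
lemma nibg_mean (H : Tr V → Prop) {p η : ℝ} (hp0 : 0 ≤ p) (hp : p < 1) (c : Ln V → ℝ)
    (hc : ∀ e, 0 ≤ c e ∧ c e ≤ 1)
    (hc2 : ∀ e, c e * ∏ t, (1 - p * ind (ed e.1 t = e ∧ H t)) = 1 - η) (e : Ln V) :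
    Ex (fun _ : Tr V => bern p) (fun x => Ex (fun e => bern (c e)) fun z =>
      dg (fun t => H t ∧ ∀ k, k ≠ e.1 → Sv H x z (ed k t)) e) = (1 - η) ^ 2 / (1 - p) * dg H e := by
  unfold dg ct
  simp only [Ex_sum]
  rw [mul_sum]
  refine sum_congr rfl fun t _ => ?_
  by_cases ht : ed e.1 t = e ∧ H t
  · obtain ⟨k₁, k₂, hk, hK⟩ := nibg_types e.1
    rw [ind_pos ht, mul_one, ← nibg_two H hp c hc2 (e₁ := ed k₁ t) (e₂ := ed k₂ t)
      (fun h => hk (congrArg Prod.fst h)) (t := t) rfl rfl ht.2]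
    refine Ex_congr fun x => Ex_congr fun z => ind_congr ⟨fun h => ?_, fun h => ⟨ht.1, ht.2, ?_⟩⟩
    · exact ⟨h.2.2 _ ((hK _).2 (Or.inl rfl)), h.2.2 _ ((hK _).2 (Or.inr rfl))⟩
    · intro k hk'
      rcases (hK k).1 hk' with rfl | rfl
      · exact h.1
      · exact h.2
  · have : ∀ (x : Tr V → Bool) (z : Ln V → Bool),
        ind (ed e.1 t = e ∧ H t ∧ ∀ k, k ≠ e.1 → Sv H x z (ed k t)) = 0 :=
      fun x z => ind_neg fun h => ht ⟨h.1, h.2.1⟩
    simp only [this]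
    rw [ind_neg ht, mul_zero]
    simp only [Ex_const (isP_bern (fun e => (hc e).1) fun e => (hc e).2),
      Ex_const (isP_bern (fun _ : Tr V => hp0) fun _ => hp.le)]

/-- lines adjacent to `e` -/
def nibgAdj (H : Tr V → Prop) (e e' : Ln V) : Prop :=
  ∃ t k, ed e.1 t = e ∧ H t ∧ k ≠ e.1 ∧ ed k t = e'

omit [DecidableEq V] in
lemma nibg_adj (H : Tr V → Prop) {D : ℝ} (hdeg : ∀ e, dg H e ≤ D) (e : Ln V) :
    ct (nibgAdj H e) ≤ 2 * D := by
  obtain ⟨k₁, k₂, -, hK⟩ := nibg_types e.1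
  have h : ∀ k, ct (fun e' => ∃ t, (ed e.1 t = e ∧ H t) ∧ ed k t = e') ≤ D := fun k =>
    (ct_le_of_surj (ed k) fun _ h => h).trans (hdeg e)
  have := ct_le_add (X := nibgAdj H e)
    (Y := fun e' => ∃ t, (ed e.1 t = e ∧ H t) ∧ ed k₁ t = e')
    (Z := fun e' => ∃ t, (ed e.1 t = e ∧ H t) ∧ ed k₂ t = e') (by
      rintro e' ⟨t, k, a, b, hk, h⟩
      rcases (hK k).1 hk with rfl | rfl
      · exact Or.inl ⟨t, ⟨a, b⟩, h⟩
      · exact Or.inr ⟨t, ⟨a, b⟩, h⟩)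
  linarith [h k₁, h k₂]

omit [DecidableEq V] in
lemma nibg_adj2 (H : Tr V → Prop) {D : ℝ} (hD : 0 ≤ D) (hdeg : ∀ e, dg H e ≤ D) (e : Ln V) :
    ct (fun u => H u ∧ ∃ k, nibgAdj H e (ed k u)) ≤ 2 * D * D := by
  have h1 : ct (fun u => H u ∧ ∃ k, nibgAdj H e (ed k u)) ≤
      ct fun u => ∃ e', nibgAdj H e e' ∧ ed e'.1 u = e' ∧ H u :=
    ct_mono fun u ⟨hu, k, h⟩ => ⟨ed k u, h, rfl, hu⟩
  refine h1.trans ((ct_exists_le _).trans ?_)
  have h2 : ∀ e', ct (fun u => nibgAdj H e e' ∧ ed e'.1 u = e' ∧ H u) =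
      ind (nibgAdj H e e') * dg H e' := fun e' => sum_ind_and _ _
  simp only [h2]
  exact (sum_ind_mul_le fun e' _ => hdeg e').trans
    (mul_le_mul_of_nonneg_right (nibg_adj H hdeg e) hD)

omit [DecidableEq V] in
lemma nibg_coin (H : Tr V → Prop) (e e' : Ln V) (x : Tr V → Bool) (z z' : Ln V → Bool)
    (hz : ∀ f, f ≠ e' → z f = z' f) :
    |dg (fun t => H t ∧ ∀ k, k ≠ e.1 → Sv H x z (ed k t)) e -
      dg (fun t => H t ∧ ∀ k, k ≠ e.1 → Sv H x z' (ed k t)) e| ≤ ind (nibgAdj H e e') := by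
  refine (nibg_diff (B := fun t => ed e.1 t = e ∧ H t ∧ ∃ k, k ≠ e.1 ∧ ed k t = e') ?_).trans ?_
  · intro t hB
    refine and_congr_right fun a => and_congr_right fun b => forall₂_congr fun k hk => ?_
    unfold Sv
    rw [hz _ fun h => hB ⟨a, b, k, hk, h⟩]
  · by_cases h : nibgAdj H e e'
    · rw [ind_pos h]
      refine ct_le_one ?_
      rintro t t' ⟨a, -, k, hk, rfl⟩ ⟨a', -, k', -, h'⟩
      have hk' : k' = k := congrArg Prod.fst h'
      subst hk'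
      exact eq_of_ed hk h'.symm (a.trans a'.symm)
    · rw [ind_neg h, ct_false]
      rintro t ⟨a, b, k, hk, h'⟩
      exact h ⟨t, k, a, b, hk, h'⟩

omit [DecidableEq V] in
lemma nibg_trip (H : Tr V → Prop) (e : Ln V) (u : Tr V) (x x' : Tr V → Bool) (z : Ln V → Bool)
    (hx : ∀ v, v ≠ u → x v = x' v) :
    |dg (fun t => H t ∧ ∀ k, k ≠ e.1 → Sv H x z (ed k t)) e -
      dg (fun t => H t ∧ ∀ k, k ≠ e.1 → Sv H x' z (ed k t)) e| ≤
        3 * ind (H u ∧ ∃ k, nibgAdj H e (ed k u)) := by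
  refine (nibg_diff
    (B := fun t => ∃ k, ed e.1 t = e ∧ H t ∧ H u ∧ k ≠ e.1 ∧ ed k t = ed k u) ?_).trans ?_
  · intro t hB
    refine and_congr_right fun a => and_congr_right fun b => forall₂_congr fun k hk => ?_
    unfold Sv
    refine and_congr_right fun _ => forall₃_congr fun v hv hv' => ?_
    rw [hx v]
    rintro rfl
    exact hB ⟨k, a, b, hv', hk, hv.symm⟩
  · by_cases h : H u ∧ ∃ k, nibgAdj H e (ed k u)
    · rw [ind_pos h]
      refine (ct_exists_le _).trans ?_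
      have : ∀ k : Fin 3,
          ct (fun t => ed e.1 t = e ∧ H t ∧ H u ∧ k ≠ e.1 ∧ ed k t = ed k u) ≤ 1 := fun k =>
        ct_le_one fun t t' a a' =>
          eq_of_ed a.2.2.2.1 (a.2.2.2.2.trans a'.2.2.2.2.symm) (a.1.trans a'.1.symm)
      refine (sum_le_sum fun k _ => this k).trans ?_
      simp
    · rw [ind_neg h, ct_false, mul_zero]
      rintro t ⟨k, a, b, hu, hk, h'⟩
      exact h ⟨hu, k, t, k, a, b, hk, h'⟩

/-- Degrees concentrate: bounded differences on the index type `Tr V ⊕ Ln V`. -/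
theorem nib_good (H : Tr V → Prop) {D η ζ : ℝ} (hD : 1 ≤ D) (hη0 : 0 < η) (hη : η ≤ 1 / 2)
    (hζ0 : 0 < ζ) (hζ : ζ ≤ η) (hdeg : ∀ e, dg H e ≤ D) (c : Ln V → ℝ)
    (hc : ∀ e, 0 ≤ c e ∧ c e ≤ 1)
    (hc2 : ∀ e, c e * ∏ t, (1 - η / D * ind (ed e.1 t = e ∧ H t)) = 1 - η) :
    Ex (fun _ : Tr V => bern (η / D)) (fun x => Ex (fun e => bern (c e)) fun z =>
      ind (¬ NGood H D ζ ((1 - η) ^ 2 / (1 - η / D)) x z)) ≤
      2 * Fintype.card (Ln V) * exp (-(ζ ^ 2 * D / 44)) := by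
  have hD0 : 0 < D := by linarith
  have hp0 : 0 ≤ η / D := by positivity
  have hp1 : η / D < 1 := by rw [div_lt_one hD0]; linarith
  let q : Tr V ⊕ Ln V → ℝ := Sum.elim (fun _ => η / D) c
  have q0 : ∀ i, 0 ≤ q i := by
    rintro (u | e)
    · exact hp0
    · exact (hc e).1
  have q1 : ∀ i, q i ≤ 1 := by
    rintro (u | e)
    · exact hp1.le
    · exact (hc e).2
  have hw : (fun i => bern (q i)) =
      Sum.elim (fun _ : Tr V => bern (η / D)) fun e => bern (c e) := by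
    funext i; cases i <;> rfl
  have conv : ∀ F : (Tr V → Bool) → (Ln V → Bool) → ℝ,
      Ex (fun i => bern (q i)) (fun y => F (fun u => y (Sum.inl u)) fun e => y (Sum.inr e)) =
        Ex (fun _ : Tr V => bern (η / D)) fun x => Ex (fun e => bern (c e)) fun z => F x z := by
    intro F
    rw [hw, Ex_sumIdx]
    rfl
  rw [← conv fun x z => ind (¬ NGood H D ζ ((1 - η) ^ 2 / (1 - η / D)) x z)]
  let f : Ln V → (Tr V ⊕ Ln V → Bool) → ℝ := fun e y =>
    dg (fun t => H t ∧ ∀ k, k ≠ e.1 →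
      Sv H (fun u => y (Sum.inl u)) (fun e => y (Sum.inr e)) (ed k t)) e
  have hm : ∀ e, Ex (fun i => bern (q i)) (f e) = (1 - η) ^ 2 / (1 - η / D) * dg H e := fun e => by
    rw [← nibg_mean H hp0 hp1 c hc hc2 e]
    exact conv fun x z => dg (fun t => H t ∧ ∀ k, k ≠ e.1 → Sv H x z (ed k t)) e
  have key : ∀ e ∈ (univ : Finset (Ln V)), Ex (fun i => bern (q i))
      (fun y => ind (ζ * D ≤ |f e y - Ex (fun i => bern (q i)) (f e)|)) ≤
        2 * exp (-(ζ ^ 2 * D / 44)) := by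
    intro e _
    have h := bd_tail (q := q) (c := Sum.elim
      (fun u => 3 * ind (H u ∧ ∃ k, nibgAdj H e (ed k u))) fun e' => ind (nibgAdj H e e'))
      q0 q1 (f e) (s := ζ / 22) (t := ζ * D) (B := 11 * D) ?_ (by positivity) ?_ ?_
    · refine h.trans (le_of_eq ?_)
      congr 2
      ring
    · rintro y (u | e')
      · have := nibg_trip H e u (fun v => Function.update y (Sum.inl u) true (Sum.inl v))
          (fun v => Function.update y (Sum.inl u) false (Sum.inl v)) (fun e => y (Sum.inr e))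
          fun v hv => by simp [hv]
        simpa only [f, Sum.elim_inl, Function.update_of_ne Sum.inr_ne_inl] using this
      · have := nibg_coin H e e' (fun v => y (Sum.inl v))
          (fun v => Function.update y (Sum.inr e') true (Sum.inr v))
          (fun v => Function.update y (Sum.inr e') false (Sum.inr v))
          fun v hv => by simp [hv]
        simpa only [f, Sum.elim_inr, Function.update_of_ne Sum.inl_ne_inr] using this
    · rintro (u | e')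
      · have := ind_le_one (H u ∧ ∃ k, nibgAdj H e (ed k u))
        have := ind_nonneg (H u ∧ ∃ k, nibgAdj H e (ed k u))
        simp only [Sum.elim_inl]
        nlinarith
      · have := ind_le_one (nibgAdj H e e')
        have := ind_nonneg (nibgAdj H e e')
        simp only [Sum.elim_inr]
        nlinarith
    · rw [Fintype.sum_sum_type]
      simp only [q, Sum.elim_inl, Sum.elim_inr]
      have isq : ∀ P : Prop, ind P ^ 2 = ind P := fun P => by
        by_cases h : P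
        · rw [ind_pos h, one_pow]
        · rw [ind_neg h]; norm_num
      have a1 : ∑ u, η / D * (3 * ind (H u ∧ ∃ k, nibgAdj H e (ed k u))) ^ 2 =
          9 * (η / D) * ct fun u => H u ∧ ∃ k, nibgAdj H e (ed k u) := by
        unfold ct
        rw [mul_sum]
        exact sum_congr rfl fun u _ => by rw [mul_pow, isq]; ring
      have a2 : ∑ e', c e' * ind (nibgAdj H e e') ^ 2 ≤ ct (nibgAdj H e) :=
        sum_le_sum fun e' _ => by
          rw [isq]; exact mul_le_of_le_one_left (ind_nonneg _) (hc e').2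
      have a3 : 9 * (η / D) * (ct fun u => H u ∧ ∃ k, nibgAdj H e (ed k u)) ≤
          9 * (η / D) * (2 * D * D) :=
        mul_le_mul_of_nonneg_left (nibg_adj2 H hD0.le hdeg e) (by positivity)
      have a4 : 9 * (η / D) * (2 * D * D) = 18 * (η * D) := by field_simp; ring
      have a5 : η * D ≤ 1 / 2 * D := mul_le_mul_of_nonneg_right hη hD0.le
      have a6 := nibg_adj H hdeg e
      rw [a1]
      linarith
  refine (Ex_exists_le (isP_bern q0 q1) univ _ _ key _ ?_).trans (le_of_eq ?_)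
  · intro y hy
    unfold NGood at hy
    push Not at hy
    obtain ⟨e, he⟩ := hy
    exact ⟨e, mem_univ _, by rw [hm]; exact he.le⟩
  · rw [sum_const, card_univ, nsmul_eq_mul]; ring

end Pool.Agent.MP_46aeaf_co.HT

/-! The nibble: waste. -/

namespace Pool.Agent.MP_46aeaf_co.HT

open Finset Pool.Agent.MP_81e6aa_pr Real Filter

variable {V : Type} [Fintype V] [DecidableEq V]

omit [DecidableEq V] in
/-- a sum over the lines of a triple -/
lemma nibw_sum (t : Tr V) (φ : Ln V → ℝ) :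
    ∑ e : Ln V, ind (ed e.1 t = e) * φ e = ∑ k, φ (ed k t) := by
  rw [Fintype.sum_prod_type]
  refine sum_congr rfl fun k _ => ?_
  rw [sum_eq_single (ed k t).2]
  · rw [ind_pos (show ed (k, (ed k t).2).1 t = (k, (ed k t).2) from rfl), one_mul]; rfl
  · intro b _ hb
    rw [ind_neg, zero_mul]
    intro h
    exact hb (congrArg Prod.snd h).symm
  · simp

/-- the triple `t` meets an earlier chosen triple in a line of type other than `k` -/
def nibwE (H : Tr V → Prop) (rk : Tr V → ℕ) (X : Ln V → Prop) (x : Tr V → Bool) (t : Tr V)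
    (k : Fin 3) : Prop :=
  H t ∧ X (ed k t) ∧ ∃ k', k' ≠ k ∧ ∃ t', H t' ∧ x t' = true ∧ rk t' < rk t ∧ ed k' t' = ed k' t

open Classical in
/-- the chosen triples that are kept -/
noncomputable def nibwM (H : Tr V → Prop) (rk : Tr V → ℕ) (x : Tr V → Bool) : Finset (Tr V) :=
  univ.filter fun t => x t = true ∧ H t ∧
    ¬ ∃ k' t', H t' ∧ x t' = true ∧ rk t' < rk t ∧ ed k' t' = ed k' t

lemma nibw_mem {H : Tr V → Prop} {rk : Tr V → ℕ} {x : Tr V → Bool} {t : Tr V} :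
    t ∈ nibwM H rk x ↔ x t = true ∧ H t ∧
      ¬ ∃ k' t', H t' ∧ x t' = true ∧ rk t' < rk t ∧ ed k' t' = ed k' t := by
  simp only [nibwM, mem_filter, mem_univ, true_and]

lemma nibw_pl (H : Tr V → Prop) {rk : Tr V → ℕ} (hrk : Function.Injective rk)
    (x : Tr V → Bool) : PL (nibwM H rk x) := by
  intro t ht t' ht' k hk
  rw [nibw_mem] at ht ht'
  rcases lt_trichotomy (rk t) (rk t') with h | h | h
  · exact absurd ⟨k, t, ht.2.1, ht.1, h, hk⟩ ht'.2.2
  · exact hrk h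
  · exact absurd ⟨k, t', ht'.2.1, ht'.1, h, hk.symm⟩ ht.2.2

lemma nibw_count (H : Tr V → Prop) (rk : Tr V → ℕ) (X : Ln V → Prop) (x : Tr V → Bool)
    (z : Ln V → Bool) :
    ct (fun e => X e ∧ ¬ Sv H x z e ∧ ¬ Cv (nibwM H rk x) e) ≤
      ∑ t, ind (x t = true) * ∑ k, ind (nibwE H rk X x t k) +
        ∑ e, ind (X e ∧ z e = false) := by
  classical
  have e1 : ∑ t, ind (x t = true) * ∑ k, ind (nibwE H rk X x t k) =
      ∑ e : Ln V, ∑ t, ind (ed e.1 t = e) * (ind (x t = true) * ind (nibwE H rk X x t e.1)) := by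
    rw [sum_comm]
    refine sum_congr rfl fun t _ => ?_
    rw [nibw_sum t fun e => ind (x t = true) * ind (nibwE H rk X x t e.1), mul_sum]
    rfl
  rw [e1, ← sum_add_distrib]
  refine sum_le_sum fun e _ => ?_
  have n1 : ∀ t, 0 ≤ ind (ed e.1 t = e) * (ind (x t = true) * ind (nibwE H rk X x t e.1)) :=
    fun t => mul_nonneg (ind_nonneg _) (mul_nonneg (ind_nonneg _) (ind_nonneg _))
  refine ind_le (add_nonneg (sum_nonneg fun t _ => n1 t) (ind_nonneg _)) ?_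
  rintro ⟨hX, hS, hC⟩
  by_cases hz : z e = false
  · rw [ind_pos (show X e ∧ z e = false from ⟨hX, hz⟩)]
    linarith [sum_nonneg fun t (_ : t ∈ univ) => n1 t]
  · have hne : (univ.filter fun t => ed e.1 t = e ∧ H t ∧ x t = true).Nonempty := by
      by_contra hn
      refine hS ⟨by simpa using hz, fun t h1 h2 => ?_⟩
      by_contra h3
      exact hn ⟨t, by simpa using ⟨h1, h2, by simpa using h3⟩⟩
    obtain ⟨t, ht, hmin⟩ := exists_min_image _ rk hne
    simp only [mem_filter, mem_univ, true_and] at ht hmin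
    have hE : nibwE H rk X x t e.1 := by
      refine ⟨ht.2.1, by rw [ht.1]; exact hX, ?_⟩
      by_contra hn
      refine hC ⟨t, nibw_mem.2 ⟨ht.2.2, ht.2.1, ?_⟩, ht.1⟩
      rintro ⟨k', t', h1, h2, h3, h4⟩
      by_cases hk : k' = e.1
      · rw [hk] at h4
        exact absurd (hmin t' ⟨h4.trans ht.1, h1, h2⟩) (not_le.2 h3)
      · exact hn ⟨k', hk, t', h1, h2, h3, h4⟩
    have := single_le_sum (f := fun t => ind (ed e.1 t = e) *
      (ind (x t = true) * ind (nibwE H rk X x t e.1))) (fun t _ => n1 t) (mem_univ t)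
    simp only [ind_pos ht.1, ind_pos ht.2.2, ind_pos hE, mul_one] at this
    linarith [ind_nonneg (X e ∧ z e = false)]

omit [DecidableEq V] in
lemma nibw_good (H : Tr V → Prop) (rk : Tr V → ℕ) (X : Ln V → Prop) {x : Tr V → Bool}
    {z : Ln V → Bool} {D ζ lam η : ℝ} (hη : 0 ≤ η) (hζ : ζ ≤ η) (hD : 0 ≤ D)
    (hlam : 1 - lam ≤ 2 * η) (hdeg : ∀ e, dg H e ≤ D) (hG : NGood H D ζ lam x z) :
    ∑ t, ∑ k, ind (nibwE H rk X x t k) ≤ ct X * (3 * η * D) := by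
  have e1 : ∑ t, ∑ k, ind (nibwE H rk X x t k) =
      ∑ e : Ln V, ∑ t, ind (ed e.1 t = e) * ind (nibwE H rk X x t e.1) := by
    rw [sum_comm (s := (univ : Finset (Ln V)))]
    refine sum_congr rfl fun t _ => ?_
    rw [nibw_sum t fun e => ind (nibwE H rk X x t e.1)]
    rfl
  rw [e1]
  refine le_trans (sum_le_sum fun e _ => ?_) (sum_ind_mul_le (X := X) (f := fun e =>
    ct fun t => (ed e.1 t = e ∧ H t) ∧ ¬ ∀ k, k ≠ e.1 → Sv H x z (ed k t)) fun e _ => ?_)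
  · rw [ct, mul_sum]
    refine sum_le_sum fun t _ => ?_
    rw [← ind_and, ← ind_and]
    refine ind_mono ?_
    rintro ⟨h0, h1, h2, k', hk, t', h3, h4, -, h5⟩
    refine ⟨h0 ▸ h2, ⟨h0, h1⟩, fun h => ?_⟩
    have := (h k' hk).2 t' h5 h3
    rw [h4] at this
    exact absurd this (by simp)
  · have h1 := ct_split (fun t => ed e.1 t = e ∧ H t) fun t => ∀ k, k ≠ e.1 → Sv H x z (ed k t)
    have h2 := (abs_le.1 (hG e)).1
    have h3 : dg (fun t => H t ∧ ∀ k, k ≠ e.1 → Sv H x z (ed k t)) e =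
        ct fun t => (ed e.1 t = e ∧ H t) ∧ ∀ k, k ≠ e.1 → Sv H x z (ed k t) :=
      ct_congr fun t => and_assoc.symm
    have h4 : dg H e = ct fun t => ed e.1 t = e ∧ H t := rfl
    rw [← h4, ← h3] at h1
    have h5 := mul_le_mul_of_nonneg_right hlam (dg_nonneg H e)
    have h6 := mul_le_mul_of_nonneg_left (hdeg e) hη
    have h7 := mul_le_mul_of_nonneg_right hζ hD
    linarith

lemma nibw_coin (c : Ln V → ℝ) (hc : ∀ e, 0 ≤ c e ∧ c e ≤ 1) (X : Ln V → Prop) (s : ℝ) :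
    Ex (fun e => bern (c e)) (fun z => exp (s * ∑ e, ind (X e ∧ z e = false))) ≤
      exp (exp s * ∑ e, ind (X e) * (1 - c e)) := by
  simp only [mul_sum, exp_sum]
  rw [Ex_prod (fun e => bern (c e)) fun e b => exp (s * ind (X e ∧ b = false))]
  refine prod_le_prod (fun e _ => sum_nonneg fun b _ => mul_nonneg
    ((isP_bern (fun e => (hc e).1) fun e => (hc e).2).nonneg _ _) (exp_pos _).le) fun e _ => ?_
  by_cases hX : X e
  · have h1 := add_one_le_exp (exp s * (1 - c e))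
    simp only [Fintype.sum_bool, bern, hX, true_and, ind_pos, ind_neg, Bool.true_eq_false,
      not_false_eq_true, mul_zero, exp_zero, mul_one, one_mul, if_true, Bool.false_eq_true,
      if_false]
    nlinarith [(hc e).2]
  · simp [bern, hX, ind_neg]

/-- Waste.  Fix an injective rank `rk : Tr V → ℕ` (`Fintype.equivFin`); `M x` consists of the
chosen triples of `H` that share no line with a chosen triple of `H` of smaller rank.  A line of
`X` that neither survives nor is covered has a bad coin, or the chosen triple `t` of least rank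
on it shares another line with an earlier chosen triple.  So the count times `s` is at most
`∑ t, ind (x t) * y t x + s * ∑ e ∈ X, ind (z e = false)` with
`y t x = s * ∑ k, ind (H t ∧ X (ed k t) ∧ ∃ k' ≠ k, ∃ t', H t' ∧ x t' ∧ rk t' < rk t ∧
ed k' t' = ed k' t) ∈ [0, 3 s]`.  On `NGood`, `p * ∑ t, (exp (y t x) - 1)` is at most
`p * exp (3 s) * s * ∑ e ∈ X, (dg H e - new degree of e) ≤ 3 η ^ 2 s exp (3 s) |X|`, as
`1 - lam ≤ 2 η`.  Bound the integrand by a constant times (the function in `sm_mgf`) times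
`exp (s ∑ e ∈ X, ind (z e = false))`, whose mean (`Ex_prod`) is at most
`exp (exp s * ∑ e ∈ X, (1 - c e))`. -/
theorem nib_waste (H : Tr V → Prop) {D η ζ s : ℝ} (hD : 1 ≤ D) (hη0 : 0 < η) (hη : η ≤ 1 / 2)
    (hζ0 : 0 < ζ) (hζ : ζ ≤ η) (hs : 0 ≤ s) (hdeg : ∀ e, dg H e ≤ D) (c : Ln V → ℝ)
    (hc : ∀ e, 0 ≤ c e ∧ c e ≤ 1)
    (hc3 : ∀ e, 1 - c e ≤ 2 * η * (1 - dg H e / D) + 2 * η ^ 2) :
    ∃ M : (Tr V → Bool) → Finset (Tr V), (∀ x, PL (M x) ∧ ∀ t ∈ M x, x t = true ∧ H t) ∧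
      ∀ X : Ln V → Prop,
        Ex (fun _ : Tr V => bern (η / D)) (fun x => Ex (fun e => bern (c e)) fun z =>
          ind (NGood H D ζ ((1 - η) ^ 2 / (1 - η / D)) x z) *
            exp (s * ct fun e => X e ∧ ¬ Sv H x z e ∧ ¬ Cv (M x) e)) ≤
          exp ((3 * s + 2) * exp (3 * s) * η ^ 2 * ct X + 2 * exp s * η * dfc H D X) := by
  classical
  set rk : Tr V → ℕ := fun t => (Fintype.equivFin (Tr V) t : ℕ) with hrkdef
  have hrk : Function.Injective rk := fun t t' h =>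
    (Fintype.equivFin (Tr V)).injective (Fin.ext h)
  clear_value rk
  refine ⟨nibwM H rk, fun x => ⟨nibw_pl H hrk x, fun t ht =>
    ⟨(nibw_mem.1 ht).1, (nibw_mem.1 ht).2.1⟩⟩, fun X => ?_⟩
  have hD0 : 0 < D := by linarith
  have hp0 : 0 ≤ η / D := by positivity
  have hp1 : η / D ≤ 1 / 2 := by rw [div_le_iff₀ hD0]; linarith
  have hlam : 1 - (1 - η) ^ 2 / (1 - η / D) ≤ 2 * η := by
    have : (1 - η) ^ 2 ≤ (1 - η) ^ 2 / (1 - η / D) := by
      rw [le_div_iff₀ (by linarith)]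
      nlinarith [sq_nonneg (1 - η)]
    nlinarith
  set y : Tr V → (Tr V → Bool) → ℝ := fun t x => s * ∑ k, ind (nibwE H rk X x t k) with hy
  have hdep : ∀ t, Dep (fun j => rk j < rk t) (y t) := by
    intro t x x' h
    simp only [hy]
    congr 1
    refine sum_congr rfl fun k _ => ind_congr ?_
    unfold nibwE
    constructor
    · rintro ⟨h1, h2, k', hk, t', h3, h4, h5, h6⟩
      exact ⟨h1, h2, k', hk, t', h3, h t' h5 ▸ h4, h5, h6⟩
    · rintro ⟨h1, h2, k', hk, t', h3, h4, h5, h6⟩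
      exact ⟨h1, h2, k', hk, t', h3, (h t' h5).symm ▸ h4, h5, h6⟩
  have hsm := sm_mgf hp0 (by linarith) rk hrk y hdep
  have hwz := isP_bern (fun e => (hc e).1) fun e => (hc e).2
  have hwx : IsP fun _ : Tr V => bern (η / D) := isP_bern (fun _ => hp0) fun _ => by linarith
  set A : ℝ := 3 * s * exp (3 * s) * η ^ 2 * ct X with hA
  have key : ∀ x z, ind (NGood H D ζ ((1 - η) ^ 2 / (1 - η / D)) x z) *
      exp (s * ct fun e => X e ∧ ¬ Sv H x z e ∧ ¬ Cv (nibwM H rk x) e) ≤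
      (exp A * exp (∑ t, (ind (x t = true) * y t x - η / D * (exp (y t x) - 1)))) *
        exp (s * ∑ e, ind (X e ∧ z e = false)) := by
    intro x z
    by_cases hG : NGood H D ζ ((1 - η) ^ 2 / (1 - η / D)) x z
    · rw [ind_pos hG, one_mul, ← exp_add, ← exp_add, exp_le_exp, sum_sub_distrib]
      have h1 := mul_le_mul_of_nonneg_left (nibw_count H rk X x z) hs
      have h2 := nibw_good H rk X hη0.le hζ hD0.le hlam hdeg hG
      have h3 : ∀ t, exp (y t x) - 1 ≤ exp (3 * s) * s * ∑ k, ind (nibwE H rk X x t k) := by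
        intro t
        have a0 : 0 ≤ y t x := mul_nonneg hs (sum_nonneg fun _ _ => ind_nonneg _)
        have a1 : y t x ≤ 3 * s := by
          have : ∑ k, ind (nibwE H rk X x t k) ≤ 3 := by
            rw [Fin.sum_univ_three]
            linarith [ind_le_one (nibwE H rk X x t 0), ind_le_one (nibwE H rk X x t 1),
              ind_le_one (nibwE H rk X x t 2)]
          simp only [hy]; nlinarith
        have a2 : exp (y t x) - 1 ≤ exp (y t x) * y t x := by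
          have b1 := add_one_le_exp (-(y t x))
          have b2 : exp (y t x) * exp (-(y t x)) = 1 := by rw [← exp_add]; simp
          nlinarith [exp_pos (y t x)]
        have a3 := mul_le_mul_of_nonneg_right (exp_le_exp.2 a1) a0
        rw [mul_assoc]
        exact a2.trans a3
      have h4 : ∑ t, η / D * (exp (y t x) - 1) ≤ A := by
        rw [← mul_sum]
        refine (mul_le_mul_of_nonneg_left (sum_le_sum fun t _ => h3 t) hp0).trans ?_
        rw [← mul_sum]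
        refine (mul_le_mul_of_nonneg_left
          (mul_le_mul_of_nonneg_left h2 (by positivity)) hp0).trans (le_of_eq ?_)
        rw [hA]; field_simp
      have h5 : ∑ t, ind (x t = true) * y t x =
          s * ∑ t, ind (x t = true) * ∑ k, ind (nibwE H rk X x t k) := by
        rw [mul_sum]
        exact sum_congr rfl fun t _ => by simp only [hy]; ring
      rw [h5]
      linarith
    · rw [ind_neg hG, zero_mul]; positivity
  have hB : exp s * ∑ e, ind (X e) * (1 - c e) ≤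
      2 * exp (3 * s) * η ^ 2 * ct X + 2 * exp s * η * dfc H D X := by
    have h1 : ∑ e, ind (X e) * (1 - c e) ≤ 2 * η * dfc H D X + 2 * η ^ 2 * ct X := by
      unfold dfc ct
      rw [mul_sum, mul_sum, ← sum_add_distrib]
      refine sum_le_sum fun e _ => ?_
      have := mul_le_mul_of_nonneg_left (hc3 e) (ind_nonneg (X e))
      linarith
    have h2 := mul_le_mul_of_nonneg_left h1 (exp_pos s).le
    have h3 : exp s ≤ exp (3 * s) := exp_le_exp.2 (by linarith)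
    have h4 := mul_le_mul_of_nonneg_right h3
      (show 0 ≤ 2 * η ^ 2 * ct X from mul_nonneg (by positivity) (ct_nonneg X))
    linarith
  refine (Ex_mono hwx.nonneg fun x => (Ex_mono hwz.nonneg (key x)).trans
    (le_of_eq (Ex_smul _ _))).trans ?_
  rw [Ex_mul_const, Ex_smul]
  calc _ ≤ exp A * 1 * exp (exp s * ∑ e, ind (X e) * (1 - c e)) :=
        mul_le_mul (mul_le_mul_of_nonneg_left hsm (exp_pos _).le) (nibw_coin c hc X s)
          (Ex_nonneg hwz.nonneg fun _ => (exp_pos _).le) (by positivity)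
    _ ≤ _ := by
        rw [mul_one, ← exp_add, exp_le_exp, hA]
        linarith

end Pool.Agent.MP_46aeaf_co.HT

/-! The nibble in a sparse random sample, with test sets. -/

namespace Pool.Agent.MP_46aeaf_co.HT

open Finset Pool.Agent.MP_81e6aa_pr Real Filter

lemma nibI_prod_eq {α : Type} [Fintype α] (X : α → Prop) (s : ℝ) :
    ∏ e, (1 + (exp s - 1) * ind (X e)) = exp (s * ct X) := by
  unfold ct
  rw [mul_sum, exp_sum]
  refine prod_congr rfl fun e _ => ?_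
  by_cases h : X e
  · simp [ind_pos h]
  · simp [ind_neg h]

lemma nibI_prod_nonneg {α : Type} [Fintype α] (X : α → Prop) {y : ℝ} (hy : 0 ≤ y) :
    0 ≤ ∏ e, (1 + y * ind (X e)) :=
  prod_nonneg fun e _ => by have := mul_nonneg hy (ind_nonneg (X e)); linarith

lemma nibI_lam {η D : ℝ} (hη0 : 0 < η) (hη : η ≤ 1 / 2) (hD : 1 ≤ D) :
    1 / 4 ≤ (1 - η) ^ 2 / (1 - η / D) ∧ (1 - η) ^ 2 / (1 - η / D) ≤ 1 - η := by
  have h1 : η / D ≤ η := div_le_self hη0.le hD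
  have h2 : 0 < η / D := by positivity
  have h3 : 0 < 1 - η / D := by linarith
  constructor
  · rw [le_div_iff₀ h3]; nlinarith
  · rw [div_le_iff₀ h3]; nlinarith

section Step

variable {V : Type} [Fintype V] {H : Tr V → Prop} {D ζ lam : ℝ} {x : Tr V → Bool}
  {z : Ln V → Bool}

lemma nibI_deg (hl : 0 ≤ lam) (hdeg : ∀ e, dg H e ≤ D) (hg : NGood H D ζ lam x z) (e : Ln V) :
    dg (fun t => H t ∧ ∀ k, Sv H x z (ed k t)) e ≤ (lam + ζ) * D := by
  have h1 : dg (fun t => H t ∧ ∀ k, Sv H x z (ed k t)) e ≤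
      dg (fun t => H t ∧ ∀ k, k ≠ e.1 → Sv H x z (ed k t)) e :=
    dg_mono fun t _ ht => ⟨ht.1, fun k _ => ht.2 k⟩
  have h2 := (abs_le.1 (hg e)).2
  have h3 := mul_le_mul_of_nonneg_left (hdeg e) hl
  linarith

lemma nibI_dfc (hD : 0 < D) (hζ0 : 0 < ζ) (hl : 1 / 4 ≤ lam) (hdeg : ∀ e, dg H e ≤ D)
    (hg : NGood H D ζ lam x z) (X : Ln V → Prop) :
    dfc (fun t => H t ∧ ∀ k, Sv H x z (ed k t)) ((lam + ζ) * D) (fun e => X e ∧ Sv H x z e) ≤
      dfc H D X + 8 * ζ * ct X := by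
  unfold dfc ct
  rw [mul_sum, ← sum_add_distrib]
  refine sum_le_sum fun e _ => ?_
  have hu : dg H e / D ≤ 1 := (div_le_one hD).2 (hdeg e)
  by_cases hX : X e ∧ Sv H x z e
  · rw [ind_pos hX, ind_pos hX.1]
    have h1 : dg (fun t => H t ∧ ∀ k, k ≠ e.1 → Sv H x z (ed k t)) e ≤
        dg (fun t => H t ∧ ∀ k, Sv H x z (ed k t)) e := by
      refine dg_mono fun t ht h => ⟨h.1, fun k => ?_⟩
      by_cases hk : k = e.1
      · rw [hk, ht]; exact hX.2
      · exact h.2 k hk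
    have h2 := (abs_le.1 (hg e)).1
    have h3 : dg H e / D - 8 * ζ ≤
        dg (fun t => H t ∧ ∀ k, Sv H x z (ed k t)) e / ((lam + ζ) * D) := by
      rw [le_div_iff₀ (by positivity)]
      have h4 : dg H e / D * D = dg H e := div_mul_cancel₀ _ hD.ne'
      have h5 : 0 < ζ * D := mul_pos hζ0 hD
      have h6 : dg H e / D * (ζ * D) ≤ ζ * D := mul_le_of_le_one_left h5.le hu
      have h7 : 1 / 4 * (ζ * D) ≤ lam * (ζ * D) := mul_le_mul_of_nonneg_right hl h5.le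
      have h8 : 0 ≤ ζ * (ζ * D) := by positivity
      have h9 : (dg H e / D - 8 * ζ) * ((lam + ζ) * D) = lam * (dg H e / D * D) +
          dg H e / D * (ζ * D) - 8 * (lam * (ζ * D)) - 8 * (ζ * (ζ * D)) := by ring
      rw [h9, h4]
      linarith
    linarith
  · rw [ind_neg hX, zero_mul]
    have := mul_nonneg (ind_nonneg (X e)) (sub_nonneg.2 hu)
    have := mul_nonneg hζ0.le (ind_nonneg (X e))
    linarith

lemma nibI_join [DecidableEq V] {J : Type} {X : J → Ln V → Prop} {A A' : J → ℝ}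
    {M : Finset (Tr V)} (hM : PL M) (hM' : ∀ t ∈ M, x t = true ∧ H t) (y : Tr V → Bool)
    (h : ∃ M' : Finset (Tr V), (∀ t ∈ M', y t = true ∧ H t ∧ ∀ k, Sv H x z (ed k t)) ∧ PL M' ∧
      ∀ j, ct (fun e => (X j e ∧ Sv H x z e) ∧ ¬ Cv M' e) ≤
        A j + (A' j - ct fun e => X j e ∧ ¬ Sv H x z e ∧ ¬ Cv M e)) :
    ∃ M' : Finset (Tr V), (∀ t ∈ M', (x t || y t) = true ∧ H t) ∧ PL M' ∧
      ∀ j, ct (fun e => X j e ∧ ¬ Cv M' e) ≤ A j + A' j := by
  obtain ⟨M', h1, h2, h3⟩ := h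
  refine ⟨M ∪ M', fun t ht => ?_, hM.union h2 ?_, fun j => ?_⟩
  · rcases mem_union.1 ht with a | a
    · exact ⟨by simp [(hM' t a).1], (hM' t a).2⟩
    · exact ⟨by simp [(h1 t a).1], (h1 t a).2.1⟩
  · rintro e ⟨t, ht, he⟩ ⟨t', ht', he'⟩
    have h4 := (h1 t' ht').2.2 e.1
    rw [he'] at h4
    have h5 := h4.2 t he (hM' t ht).2
    rw [(hM' t ht).1] at h5
    exact absurd h5 (by simp)
  · have h4 : ct (fun e => X j e ∧ ¬ Cv (M ∪ M') e) ≤
        ct (fun e => (X j e ∧ Sv H x z e) ∧ ¬ Cv M' e) +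
          ct fun e => X j e ∧ ¬ Sv H x z e ∧ ¬ Cv M e := by
      refine ct_le_add fun e he => ?_
      have h5 := he.2
      rw [cv_union, not_or] at h5
      by_cases h6 : Sv H x z e
      · exact Or.inl ⟨⟨he.1, h6⟩, h5.2⟩
      · exact Or.inr ⟨he.1, h6, h5.1⟩
    have := h3 j
    linarith

end Step

/-- Induction on the number `T` of rounds (generalising `H`, `X`, `A`, `A'`, `D`, `p`).
`T = 0`: take `M = ∅`; failure needs `A j < ct (X j)` or `A' j < 0` for some `j`, and then the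
corresponding term on the right is at least 1
(`∏ e, (1 + (exp s - 1) * ind (X e)) = exp (s * ct X)`).
Step: `Ex_split` with `p₁ = η / D`, `p₂ = p - η / D`; insert the mean over the coins `z` of
`nib_coin`; on `NGood` apply the hypothesis to `H' t = H t ∧ ∀ k, Sv H x z (ed k t)`,
`D' = (lam + ζ) D` with `lam = (1 - η) ^ 2 / (1 - η / D) ∈ [1 / 4, 1]`,
`X' j e = X j e ∧ Sv H x z e`, the same `A` and `A' j - ct (X j ∧ ¬ Sv ∧ ¬ Cv (M x))`.
One has `D / 4 ≤ D'`, `dg H' e ≤ D'`, `dfc H' D' (X' j) ≤ dfc H D (X j) + 8 ζ ct (X j)` (for a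
surviving line the new degree is the one in `NGood`; all terms of `dfc H D` are nonnegative),
`8 ^ (T + 1) / D - η / D ≥ 8 ^ T / D'`, and `M x ∪ M'` is partial Latin (`PL.union`: the lines
of `M'` survive, those of `M x` do not).  Finish with `nib_good`, `nib_surv`, `nib_waste`. -/
theorem nib_ind {η ζ s : ℝ} (hη0 : 0 < η) (hη : η ≤ 1 / 2) (hζ0 : 0 < ζ) (hζ : ζ ≤ η)
    (hs : 0 ≤ s) {V : Type} [Fintype V] [DecidableEq V] {J : Type} [Fintype J] (T : ℕ)
    (H : Tr V → Prop) (X : J → Ln V → Prop) (A A' : J → ℝ) (D p : ℝ) (hD : 4 ^ T ≤ D)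
    (hdeg : ∀ e, dg H e ≤ D) (hp : 8 ^ T / D ≤ p) (hp1 : p ≤ 1) :
    Ex (fun _ : Tr V => bern p) (fun a => ind (¬ ∃ M : Finset (Tr V),
      (∀ t ∈ M, a t = true ∧ H t) ∧ PL M ∧
        ∀ j, ct (fun e => X j e ∧ ¬ Cv M e) ≤ A j + A' j)) ≤
      T * (2 * Fintype.card (Ln V) * exp (-(ζ ^ 2 * (D / 4 ^ T) / 44))) +
      ∑ j, (exp (-(s * A j)) * ∏ e, (1 + (exp s - 1) * (1 - η / 3) ^ T * ind (X j e)) +
        exp (-(s * A' j) + T * ((3 * s + 2) * exp (3 * s) * η ^ 2 * ct (X j) +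
          2 * exp s * η * (dfc H D (X j) + 8 * ζ * T * ct (X j))))) := by
  induction T generalizing H X A' D p with
  | zero =>
    have hD0 : 0 < D := by norm_num at hD; linarith
    have hp0 : 0 ≤ p := le_trans (by positivity) hp
    have hP : IsP fun _ : Tr V => bern p := isP_bern (fun _ => hp0) fun _ => hp1
    simp only [pow_zero, mul_one, Nat.cast_zero, zero_mul, zero_add, add_zero, nibI_prod_eq]
    have hn : ∀ j, 0 ≤ exp (-(s * A j)) * exp (s * ct (X j)) + exp (-(s * A' j)) := fun j => by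
      positivity
    refine Ex_le hP fun a => ind_le (sum_nonneg fun j _ => hn j) fun h => ?_
    have h1 : ∃ j, A j + A' j < ct (X j) := by
      by_contra h2
      refine h ⟨∅, fun t ht => by simp at ht, pl_empty, fun j => ?_⟩
      exact (ct_mono fun e he => he.1).trans (not_lt.1 fun h3 => h2 ⟨j, h3⟩)
    obtain ⟨j, hj⟩ := h1
    refine le_trans ?_ (single_le_sum (fun j _ => hn j) (mem_univ j))
    rw [← exp_add]
    by_cases h2 : A' j ≤ 0
    · have h3 : 1 ≤ exp (-(s * A' j)) := one_le_exp (by nlinarith)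
      linarith [exp_pos (-(s * A j) + s * ct (X j))]
    · have h3 : 1 ≤ exp (-(s * A j) + s * ct (X j)) := one_le_exp (by
        have : 0 ≤ s * (ct (X j) - A j) := mul_nonneg hs (by linarith)
        linarith)
      linarith [exp_pos (-(s * A' j))]
  | succ T ih =>
    have h4T : (1 : ℝ) ≤ 4 ^ T := one_le_pow₀ (by norm_num)
    have h8T : (1 : ℝ) ≤ 8 ^ T := one_le_pow₀ (by norm_num)
    rw [pow_succ] at hD hp
    have hD1 : 1 ≤ D := by linarith
    have hD0 : 0 < D := by linarith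
    obtain ⟨hl1, hl2⟩ := nibI_lam hη0 hη hD1
    obtain ⟨c, hc, hc2, hc3⟩ := nib_coin H hD1 hη0 hη hdeg
    obtain ⟨M, hM, hW⟩ := nib_waste H hD1 hη0 hη hζ0 hζ hs hdeg c hc hc3
    have hG := nib_good H hD1 hη0 hη hζ0 hζ hdeg c hc hc2
    have hE1 : 1 ≤ exp s := one_le_exp hs
    have hy : 0 ≤ (exp s - 1) * (1 - η / 3) ^ T :=
      mul_nonneg (by linarith) (pow_nonneg (by linarith) _)
    have hS := fun j => nib_surv H hD1 hη0 hη c hc hc2 (X j) hy
    generalize (1 - η) ^ 2 / (1 - η / D) = lam at hl1 hl2 hW hG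
    have hp₁ : 0 ≤ η / D := by positivity
    have hp₁' : η / D ≤ 1 := (div_le_self hη0.le hD1).trans (by linarith)
    have hD' : D / 4 ≤ (lam + ζ) * D := by nlinarith
    have hp₂ : 8 ^ T / ((lam + ζ) * D) ≤ p - η / D := by
      have h1 : 8 ^ T / ((lam + ζ) * D) ≤ 8 ^ T / (D / 4) :=
        div_le_div_of_nonneg_left (by positivity) (by positivity) hD'
      have h2 : 8 ^ T / (D / 4) = 8 ^ T * 4 / D := by field_simp
      have h3 : 8 ^ T * 4 / D + η / D ≤ 8 ^ T * 8 / D := by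
        rw [← add_div]
        exact div_le_div_of_nonneg_right (by linarith) hD0.le
      linarith
    have hp₂0 : 0 ≤ p - η / D := le_trans (by positivity) hp₂
    have hP₁ : IsP fun _ : Tr V => bern (η / D) := isP_bern (fun _ => hp₁) fun _ => hp₁'
    have hP₂ : IsP fun _ : Tr V => bern (p - η / D) :=
      isP_bern (fun _ => hp₂0) fun _ => by linarith
    have hPc : IsP fun e => bern (c e) := isP_bern (fun e => (hc e).1) fun e => (hc e).2
    refine (Ex_split hp₁ hp₂0 (by linarith) hp1 _ fun a b hab => ind_mono fun h ⟨M', h1, h2⟩ =>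
      h ⟨M', fun t ht => ⟨hab t (h1 t ht).1, (h1 t ht).2⟩, h2⟩).trans ?_
    obtain ⟨n, hn⟩ : ∃ n : ℝ, n = 2 * Fintype.card (Ln V) *
      exp (-(ζ ^ 2 * (D / 4 ^ (T + 1)) / 44)) := ⟨_, rfl⟩
    have hn0 : 0 ≤ n := by rw [hn]; positivity
    obtain ⟨w, hw⟩ : ∃ w : J → ℝ, ∀ j, w j = exp (-(s * A' j) +
      T * ((3 * s + 2) * exp (3 * s) * η ^ 2 * ct (X j) +
        2 * exp s * η * (dfc H D (X j) + 8 * ζ * (T + 1) * ct (X j)))) := ⟨_, fun _ => rfl⟩
    have hw0 : ∀ j, 0 ≤ w j := fun j => by rw [hw]; positivity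
    have key : ∀ (x : Tr V → Bool) (z : Ln V → Bool),
        Ex (fun _ : Tr V => bern (p - η / D)) (fun y => ind (¬ ∃ M : Finset (Tr V),
          (∀ t ∈ M, (x t || y t) = true ∧ H t) ∧ PL M ∧
            ∀ j, ct (fun e => X j e ∧ ¬ Cv M e) ≤ A j + A' j)) ≤
        ind (¬ NGood H D ζ lam x z) + (T * n + ∑ j, (exp (-(s * A j)) *
          ∏ e, (1 + (exp s - 1) * (1 - η / 3) ^ T * ind (X j e ∧ Sv H x z e)) +
          w j * (ind (NGood H D ζ lam x z) *
            exp (s * ct fun e => X j e ∧ ¬ Sv H x z e ∧ ¬ Cv (M x) e)))) := by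
      intro x z
      by_cases hg : NGood H D ζ lam x z
      · rw [ind_neg (not_not.2 hg), ind_pos hg, zero_add]
        have h1 := ih (fun t => H t ∧ ∀ k, Sv H x z (ed k t)) (fun j e => X j e ∧ Sv H x z e)
          (fun j => A' j - ct fun e => X j e ∧ ¬ Sv H x z e ∧ ¬ Cv (M x) e) ((lam + ζ) * D)
          (p - η / D) (by linarith) (nibI_deg (by linarith) hdeg hg) hp₂ (by linarith)
        refine (Ex_mono hP₂.nonneg fun y => ind_mono fun h h' =>
          h (nibI_join (hM x).1 (hM x).2 y h')).trans (h1.trans (add_le_add ?_ ?_))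
        · rw [hn]
          refine mul_le_mul_of_nonneg_left (mul_le_mul_of_nonneg_left (exp_le_exp.2 ?_)
            (by positivity)) (Nat.cast_nonneg T)
          have h2 : D / 4 ^ (T + 1) ≤ (lam + ζ) * D / 4 ^ T := by
            rw [pow_succ', ← div_div]
            exact div_le_div_of_nonneg_right hD' (by positivity)
          have h3 := mul_le_mul_of_nonneg_left h2 (sq_nonneg ζ)
          linarith
        · refine sum_le_sum fun j _ => add_le_add le_rfl ?_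
          rw [hw, one_mul, ← exp_add]
          refine exp_le_exp.2 ?_
          have h2 : ct (fun e => X j e ∧ Sv H x z e) ≤ ct (X j) := ct_mono fun e he => he.1
          have h3 := nibI_dfc hD0 hζ0 hl1 hdeg hg (X j)
          have h4 : (3 * s + 2) * exp (3 * s) * η ^ 2 * ct (fun e => X j e ∧ Sv H x z e) ≤
              (3 * s + 2) * exp (3 * s) * η ^ 2 * ct (X j) :=
            mul_le_mul_of_nonneg_left h2 (by positivity)
          have h5 : 8 * ζ * T * ct (fun e => X j e ∧ Sv H x z e) ≤ 8 * ζ * T * ct (X j) :=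
            mul_le_mul_of_nonneg_left h2 (by positivity)
          have h6 : 2 * exp s * η * (dfc (fun t => H t ∧ ∀ k, Sv H x z (ed k t)) ((lam + ζ) * D)
              (fun e => X j e ∧ Sv H x z e) + 8 * ζ * T * ct (fun e => X j e ∧ Sv H x z e)) ≤
              2 * exp s * η * (dfc H D (X j) + 8 * ζ * (T + 1) * ct (X j)) :=
            mul_le_mul_of_nonneg_left (by linarith) (by positivity)
          have h7 := mul_le_mul_of_nonneg_left (add_le_add h4 h6) (Nat.cast_nonneg (α := ℝ) T)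
          linarith
      · rw [ind_pos hg, ind_neg hg]
        refine (Ex_le hP₂ fun y => ind_le_one _).trans (le_add_of_nonneg_right ?_)
        refine add_nonneg (mul_nonneg (Nat.cast_nonneg T) hn0) (sum_nonneg fun j _ => ?_)
        have := mul_nonneg (exp_pos (-(s * A j))).le
          (nibI_prod_nonneg (fun e => X j e ∧ Sv H x z e) hy)
        simpa using this
    refine (Ex_mono hP₁.nonneg fun x => le_Ex hPc fun z => key x z).trans ?_
    simp only [Ex_add, Ex_sum, Ex_smul, Ex_const hPc, Ex_const hP₁]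
    rw [← add_assoc]
    refine add_le_add ?_ (sum_le_sum fun j _ => add_le_add ?_ ?_)
    · have h1 : 2 * (Fintype.card (Ln V) : ℝ) * exp (-(ζ ^ 2 * D / 44)) ≤ n := by
        rw [hn]
        refine mul_le_mul_of_nonneg_left (exp_le_exp.2 ?_) (by positivity)
        have h2 : D / 4 ^ (T + 1) ≤ D := div_le_self hD0.le (one_le_pow₀ (by norm_num))
        have h3 := mul_le_mul_of_nonneg_left h2 (sq_nonneg ζ)
        linarith
      rw [← hn]
      push_cast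
      linarith
    · refine mul_le_mul_of_nonneg_left ((hS j).trans (le_of_eq ?_)) (exp_pos _).le
      refine prod_congr rfl fun e _ => ?_
      rw [pow_succ]; ring
    · refine (mul_le_mul_of_nonneg_left (hW (X j)) (hw0 j)).trans ?_
      rw [hw, ← exp_add]
      refine exp_le_exp.2 ?_
      have h1 : 0 ≤ 2 * exp s * η * (8 * ζ * (T + 1) * ct (X j)) := by
        have := ct_nonneg (X j)
        positivity
      push_cast
      linarith

end Pool.Agent.MP_46aeaf_co.HT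

/-! The nibble: choice of the constants. -/

namespace Pool.Agent.MP_46aeaf_co.HT

open Finset Pool.Agent.MP_81e6aa_pr Real Filter

/-- the numerical choice of the parameters -/
lemma nib_par {ε E B : ℝ} (hε : 0 < ε) (hE : 0 < E) (hB : 0 < B) :
    ∃ (η ζ : ℝ) (T : ℕ), 0 < η ∧ η ≤ 1 / 2 ∧ 0 < ζ ∧ ζ ≤ η ∧ E * (1 - η / 3) ^ T ≤ ε / 2 ∧
      T * (B * η ^ 2) ≤ ε / 4 ∧ T * (2 * E * η * (8 * ζ * T)) ≤ ε / 4 := by
  obtain ⟨N, hN⟩ : ∃ N : ℝ, N = 3 * (2 * E / ε) := ⟨_, rfl⟩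
  have hN0 : 0 < N := by rw [hN]; positivity
  obtain ⟨T, hT⟩ := exists_nat_ge (2 * N + 4 * B * N ^ 2 / ε)
  have h1 : 0 < 4 * B * N ^ 2 / ε := by positivity
  have hT0 : (0 : ℝ) < T := by linarith
  have hη0 : 0 < N / T := by positivity
  have hη : N / T ≤ 1 / 2 := by rw [div_le_iff₀ hT0]; linarith
  refine ⟨N / T, min (N / T) (ε / (64 * E * N * T)), T, hη0, hη,
    lt_min hη0 (by positivity), min_le_left _ _, ?_, ?_, ?_⟩
  · have h2 : (1 - N / T / 3) ^ T ≤ exp (-(N / T / 3)) ^ T :=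
      pow_le_pow_left₀ (by linarith) (by linarith [add_one_le_exp (-(N / T / 3))]) _
    have h3 : exp (-(N / T / 3)) ^ T = exp (-(2 * E / ε)) := by
      rw [← exp_nat_mul]; congr 1; rw [hN]; field_simp
    have h4 : exp (-(2 * E / ε)) ≤ ε / (2 * E) := by
      have h5 : 2 * E / ε ≤ exp (2 * E / ε) := by linarith [add_one_le_exp (2 * E / ε)]
      rw [exp_neg, ← inv_div (2 * E) ε]
      exact inv_anti₀ (by positivity) h5
    calc E * (1 - N / T / 3) ^ T ≤ E * (ε / (2 * E)) :=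
          mul_le_mul_of_nonneg_left (h2.trans (h3.le.trans h4)) hE.le
      _ = ε / 2 := by field_simp
  · have h2 : 4 * B * N ^ 2 / ε ≤ T := by linarith
    rw [div_le_iff₀ hε] at h2
    have h3 : T * (B * (N / T) ^ 2) = B * N ^ 2 / T := by field_simp
    rw [h3, div_le_iff₀ hT0]
    linarith
  · have h2 : min (N / T) (ε / (64 * E * N * T)) ≤ ε / (64 * E * N * T) := min_le_right _ _
    calc T * (2 * E * (N / T) * (8 * min (N / T) (ε / (64 * E * N * T)) * T))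
        ≤ T * (2 * E * (N / T) * (8 * (ε / (64 * E * N * T)) * T)) := by gcongr
      _ = ε / 4 := by field_simp; norm_num

lemma nib_prod_le {α : Type} [Fintype α] (X : α → Prop) {y : ℝ} (hy : 0 ≤ y) :
    ∏ e, (1 + y * ind (X e)) ≤ exp (y * ct X) := by
  unfold ct
  rw [mul_sum, exp_sum]
  refine prod_le_prod (fun e _ => ?_) fun e _ => ?_
  · have := mul_nonneg hy (ind_nonneg (X e)); linarith
  · linarith [add_one_le_exp (y * ind (X e))]

lemma nib_dfc_nonneg {V : Type} [Fintype V] {H : Tr V → Prop} {D : ℝ} (hD : 0 < D)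
    (h : ∀ e, dg H e ≤ D) (X : Ln V → Prop) : 0 ≤ dfc H D X :=
  sum_nonneg fun e _ => mul_nonneg (ind_nonneg _) (by
    have := (div_le_one hD).2 (h e); linarith)

/-- Choose the constants in `nib_ind` (with parameter `s' = 2 s`): first `N` with
`exp s' * exp (-N / 3) ≤ ε / 2`, then `η` small, `T = ⌈N / η⌉`, `ζ` small, so that
`exp s' * (1 - η / 3) ^ T ≤ ε / 2`, `T (3 s' + 2) exp (3 s') η ^ 2 ≤ ε / 4`,
`16 exp s' η ζ T ^ 2 ≤ ε / 4`.  Take `A j = ε / 2 * ct (X j) + σ / 2`,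
`A' j = ε / 2 * ct (X j) + K * dfc H D (X j) + σ / 2`, `K ≥ 8 ^ T, 2 T, 2, 2 T exp s' η`,
`c = ζ ^ 2 / (44 * 4 ^ T)`; `dfc` is nonnegative and `1 ≤ s'`. -/
theorem nibble {ε s : ℝ} (hε : 0 < ε) (hs : 1 ≤ s) : ∃ K c : ℝ, 1 ≤ K ∧ 0 < c ∧
    ∀ (V : Type) [Fintype V] [DecidableEq V] (J : Type) [Fintype J] (H : Tr V → Prop)
      (X : J → Ln V → Prop) (D p σ : ℝ), K ≤ D → (∀ e, dg H e ≤ D) → K / D ≤ p → p ≤ 1 →
      Ex (fun _ : Tr V => bern p) (fun a => ind (¬ ∃ M : Finset (Tr V),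
        (∀ t ∈ M, a t = true ∧ H t) ∧ PL M ∧
          ∀ j, ct (fun e => X j e ∧ ¬ Cv M e) ≤ ε * ct (X j) + K * dfc H D (X j) + σ)) ≤
        K * (Fintype.card (Ln V) * exp (-(c * D)) + Fintype.card J * exp (-(s * σ))) := by
  obtain ⟨η, ζ, T, hη0, hη, hζ0, hζ, h1, h2, h3⟩ :=
    nib_par (E := exp (2 * s)) (B := (3 * (2 * s) + 2) * exp (3 * (2 * s))) hε (exp_pos _)
      (by positivity)
  have hE : 0 < exp (2 * s) := exp_pos _
  have h8 : (1 : ℝ) ≤ 8 ^ T := one_le_pow₀ (by norm_num)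
  have hT0 : (0 : ℝ) ≤ T := Nat.cast_nonneg T
  have hw : 0 ≤ T * (2 * exp (2 * s) * η) := by positivity
  obtain ⟨K, hK⟩ : ∃ K : ℝ, K = 8 ^ T + 2 * T + 2 + T * (2 * exp (2 * s) * η) := ⟨_, rfl⟩
  refine ⟨K, ζ ^ 2 / (44 * 4 ^ T), by linarith, by positivity, ?_⟩
  intro V _ _ J _ H X D p σ hD hdeg hp hp1
  have hD0 : 0 < D := by linarith
  have h48 : (4 : ℝ) ^ T ≤ 8 ^ T := pow_le_pow_left₀ (by norm_num) (by norm_num) _
  have key := nib_ind hη0 hη hζ0 hζ (s := 2 * s) (by linarith) T H X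
    (fun j => ε / 2 * ct (X j) + σ / 2)
    (fun j => ε / 2 * ct (X j) + K * dfc H D (X j) + σ / 2) D p (by linarith) hdeg
    ((div_le_div_of_nonneg_right (by linarith) hD0.le).trans hp) hp1
  have hev : ∀ j, ε * ct (X j) + K * dfc H D (X j) + σ =
      ε / 2 * ct (X j) + σ / 2 + (ε / 2 * ct (X j) + K * dfc H D (X j) + σ / 2) := fun j => by
    ring
  simp only [hev]
  refine key.trans ?_
  rw [mul_add]
  refine add_le_add ?_ ?_
  · have h4 : ζ ^ 2 * (D / 4 ^ T) / 44 = ζ ^ 2 / (44 * 4 ^ T) * D := by field_simp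
    rw [h4]
    have h5 : 0 ≤ (Fintype.card (Ln V) : ℝ) * exp (-(ζ ^ 2 / (44 * 4 ^ T) * D)) := by positivity
    have h6 : 2 * (T : ℝ) ≤ K := by linarith
    nlinarith [mul_le_mul_of_nonneg_right h6 h5]
  · have hj : ∀ j, exp (-(2 * s * (ε / 2 * ct (X j) + σ / 2))) *
          ∏ e, (1 + (exp (2 * s) - 1) * (1 - η / 3) ^ T * ind (X j e)) +
        exp (-(2 * s * (ε / 2 * ct (X j) + K * dfc H D (X j) + σ / 2)) +
          T * ((3 * (2 * s) + 2) * exp (3 * (2 * s)) * η ^ 2 * ct (X j) +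
          2 * exp (2 * s) * η * (dfc H D (X j) + 8 * ζ * T * ct (X j)))) ≤
        2 * exp (-(s * σ)) := by
      intro j
      have hc : 0 ≤ ct (X j) := ct_nonneg _
      have hd : 0 ≤ dfc H D (X j) := nib_dfc_nonneg hD0 hdeg _
      have hq : 0 ≤ (1 - η / 3) ^ T := pow_nonneg (by linarith) _
      have hE1 : 1 ≤ exp (2 * s) := one_le_exp (by linarith)
      have hy : 0 ≤ (exp (2 * s) - 1) * (1 - η / 3) ^ T := mul_nonneg (by linarith) hq
      have hy' : (exp (2 * s) - 1) * (1 - η / 3) ^ T ≤ ε / 2 := by nlinarith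
      have hse : ε / 2 * ct (X j) ≤ 2 * s * (ε / 2 * ct (X j)) :=
        le_mul_of_one_le_left (by positivity) (by linarith)
      have hK0 : 0 ≤ K := by linarith
      have hsK : K * dfc H D (X j) ≤ 2 * s * (K * dfc H D (X j)) :=
        le_mul_of_one_le_left (by positivity) (by linarith)
      have a1 : exp (-(2 * s * (ε / 2 * ct (X j) + σ / 2))) *
          ∏ e, (1 + (exp (2 * s) - 1) * (1 - η / 3) ^ T * ind (X j e)) ≤ exp (-(s * σ)) := by
        refine (mul_le_mul_of_nonneg_left (nib_prod_le (X j) hy) (exp_pos _).le).trans ?_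
        rw [← exp_add]
        refine exp_le_exp.2 ?_
        have := mul_le_mul_of_nonneg_right hy' hc
        linarith
      have a2 : exp (-(2 * s * (ε / 2 * ct (X j) + K * dfc H D (X j) + σ / 2)) +
          T * ((3 * (2 * s) + 2) * exp (3 * (2 * s)) * η ^ 2 * ct (X j) +
          2 * exp (2 * s) * η * (dfc H D (X j) + 8 * ζ * T * ct (X j)))) ≤ exp (-(s * σ)) := by
        refine exp_le_exp.2 ?_
        have b2 := mul_le_mul_of_nonneg_right h2 hc
        have b3 := mul_le_mul_of_nonneg_right h3 hc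
        have b4 : T * (2 * exp (2 * s) * η) * dfc H D (X j) ≤ K * dfc H D (X j) :=
          mul_le_mul_of_nonneg_right (by linarith) hd
        linarith
      linarith
    refine (sum_le_sum fun j _ => hj j).trans ?_
    rw [sum_const, card_univ, nsmul_eq_mul]
    have h5 : 0 ≤ (Fintype.card J : ℝ) * exp (-(s * σ)) := by positivity
    have h6 : 2 ≤ K := by linarith
    nlinarith [mul_le_mul_of_nonneg_right h6 h5]

end Pool.Agent.MP_46aeaf_co.HT

end

-- part MP_46aeaf_co.LS.Phase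
section

set_option autoImplicit false
set_option linter.unusedSectionVars false
set_option linter.unusedVariables false

/-! The nibble phase of a level. -/

namespace Pool.Agent.MP_46aeaf_co.HT

open Finset Pool.Agent.MP_81e6aa_pr Real Filter

section

variable {V : Type} [Fintype V]

/-- the symbol line `sl σ v s` has an unusual degree -/
def Dev (γ θ d : ℝ) (D : V → Prop) (G W : Ln V → Prop) (σ : Bool) (v s : V) : Prop :=
  D s ∧ θ * ((γ * (1 - e0)) ^ 2 * d) ≤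
    |ct (fun u => G (cl σ v u) ∧ W (sl (!σ) u s)) - γ * (1 - e0) * ct fun u => G (cl σ v u)|

def BadS (γ θ d : ℝ) (D : V → Prop) (G W : Ln V → Prop) (s : V) : Prop :=
  ∃ σ, θ * γ ^ 2 * Fintype.card V ≤ ct fun v => Dev γ θ d D G W σ v s

/-- the triples offered to the nibble -/
def HA (γ θ d : ℝ) (D : V → Prop) (G W : Ln V → Prop) (t : Tr V) : Prop :=
  G (ed 0 t) ∧ W (ed 1 t) ∧ W (ed 2 t) ∧ ¬ BadS γ θ d D G W t.2.2 ∧
    ¬ Dev γ θ d D G W true t.1 t.2.2 ∧ ¬ Dev γ θ d D G W false t.2.1 t.2.2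

omit [Fintype V] in
lemma pha0_sl_inj (σ : Bool) (v : V) : Function.Injective (sl σ v) := fun _ _ h => by
  simpa [sl] using h

omit [Fintype V] in
lemma pha0_sl_inj' (σ : Bool) (s : V) : Function.Injective fun v : V => sl σ v s :=
  fun _ _ h => by simpa [sl] using h

omit [Fintype V] in
lemma pha0_cl_inj (σ : Bool) (v : V) : Function.Injective (cl σ v) := fun _ _ h => by
  cases σ <;> simpa [cl] using h

lemma pha0_sum {f : V → Ln V} (hf : Function.Injective f) (P : V → Ln V → Prop) (φ : Ln V → ℝ) :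
    ∑ e, ind (∃ v, e = f v ∧ P v e) * φ e = ∑ v, ind (P v (f v)) * φ (f v) := by
  symm
  refine Fintype.sum_of_injective f hf _ _ (fun e he => ?_) fun v => ?_
  · rw [ind_neg, zero_mul]
    rintro ⟨v, rfl, -⟩
    exact he ⟨v, rfl⟩
  · congr 1
    refine ind_congr ⟨fun h => ⟨v, rfl, h⟩, ?_⟩
    rintro ⟨v', e, h⟩
    rw [hf e]
    rwa [← e]

lemma pha0_HA_sl (γ θ d : ℝ) (D : V → Prop) (G W : Ln V → Prop) (σ : Bool) (v s u : V) :
    HA γ θ d D G W (tri (sl σ v s) u) ↔ G (cl σ v u) ∧ W (sl σ v s) ∧ W (sl (!σ) u s) ∧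
      ¬ BadS γ θ d D G W s ∧ ¬ Dev γ θ d D G W σ v s ∧ ¬ Dev γ θ d D G W (!σ) u s := by
  cases σ
  · change G (0, u, v) ∧ W (1, u, s) ∧ W (2, v, s) ∧ ¬ BadS γ θ d D G W s ∧
      ¬ Dev γ θ d D G W true u s ∧ ¬ Dev γ θ d D G W false v s ↔
      G (0, u, v) ∧ W (2, v, s) ∧ W (1, u, s) ∧ ¬ BadS γ θ d D G W s ∧
      ¬ Dev γ θ d D G W false v s ∧ ¬ Dev γ θ d D G W true u s
    tauto
  · exact Iff.rfl

lemma pha0_HA_cl (γ θ d : ℝ) (D : V → Prop) (G W : Ln V → Prop) (σ : Bool) (v u s : V) :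
    HA γ θ d D G W (tri (cl σ v u) s) ↔ G (cl σ v u) ∧ W (sl σ v s) ∧ W (sl (!σ) u s) ∧
      ¬ BadS γ θ d D G W s ∧ ¬ Dev γ θ d D G W σ v s ∧ ¬ Dev γ θ d D G W (!σ) u s := by
  rw [← pha0_HA_sl]
  cases σ <;> exact Iff.rfl

lemma pha0_a {γ : ℝ} (hγ0 : 0 < γ) : γ / 2 ≤ γ * (1 - e0) ∧ γ * (1 - e0) ≤ γ := by
  unfold e0
  constructor <;> nlinarith

/-- the arithmetic behind the number of deviating symbols -/
lemma pha0_arith1 {γ ζ θ d a c : ℝ} (hγ0 : 0 < γ) (hθ0 : 0 < θ) (ha : γ / 2 ≤ a)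
    (hζ : ζ ≤ θ ^ 4 * γ ^ 4 / 48) (hd : 64 / (θ ^ 4 * γ ^ 6) ≤ d)
    (h : c * (θ * (a ^ 2 * d)) ^ 2 ≤
      2 * a * (2 * (a * d)) * d + 3 * ζ * a ^ 2 * (2 * (a * d)) ^ 2 * d) :
    c ≤ θ ^ 2 * γ ^ 4 / 2 * d := by
  have ha0 : 0 < a := by linarith
  have hd0 : 0 < d := lt_of_lt_of_le (by positivity) hd
  have h1 : 64 ≤ d * (θ ^ 4 * γ ^ 6) := by rwa [div_le_iff₀ (by positivity)] at hd
  have h2 : γ ^ 2 ≤ 4 * a ^ 2 := by nlinarith
  have h3 : 16 ≤ d * (θ ^ 4 * γ ^ 4) * a ^ 2 := by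
    have : d * (θ ^ 4 * γ ^ 4) * γ ^ 2 ≤ d * (θ ^ 4 * γ ^ 4) * (4 * a ^ 2) :=
      mul_le_mul_of_nonneg_left h2 (by positivity)
    nlinarith
  refine le_of_mul_le_mul_right (h.trans ?_) (by positivity : 0 < (θ * (a ^ 2 * d)) ^ 2)
  have h4 : 16 * (a ^ 2 * d ^ 2) ≤ d * (θ ^ 4 * γ ^ 4) * a ^ 2 * (a ^ 2 * d ^ 2) :=
    mul_le_mul_of_nonneg_right h3 (by positivity)
  have h5 : ζ * (a ^ 4 * d ^ 3) ≤ θ ^ 4 * γ ^ 4 / 48 * (a ^ 4 * d ^ 3) :=
    mul_le_mul_of_nonneg_right hζ (by positivity)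
  have e1 : 2 * a * (2 * (a * d)) * d + 3 * ζ * a ^ 2 * (2 * (a * d)) ^ 2 * d =
      4 * (a ^ 2 * d ^ 2) + 12 * (ζ * (a ^ 4 * d ^ 3)) := by ring
  have e2 : θ ^ 2 * γ ^ 4 / 2 * d * (θ * (a ^ 2 * d)) ^ 2 =
      d * (θ ^ 4 * γ ^ 4) * a ^ 2 * (a ^ 2 * d ^ 2) / 4 +
        12 * (θ ^ 4 * γ ^ 4 / 48 * (a ^ 4 * d ^ 3)) := by ring
  rw [e1, e2]
  linarith

lemma pha0_small {γ ζ θ : ℝ} (hγ0 : 0 < γ) (hγ : γ ≤ 1 / 10) (hθ0 : 0 < θ) (hθ : θ ≤ 1 / 100)
    (hζ : ζ ≤ θ ^ 4 * γ ^ 4 / 48) : ζ ≤ θ := by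
  have h1 : θ ^ 3 ≤ 1 := pow_le_one₀ hθ0.le (by linarith)
  have h2 : γ ^ 4 ≤ 1 := pow_le_one₀ hγ0.le (by linarith)
  have h3 : θ ^ 3 * γ ^ 4 ≤ 1 := mul_le_one₀ h1 (by positivity) h2
  have h4 : θ * (θ ^ 3 * γ ^ 4) ≤ θ * 1 := mul_le_mul_of_nonneg_left h3 hθ0.le
  have : θ ^ 4 * γ ^ 4 = θ * (θ ^ 3 * γ ^ 4) := by ring
  linarith

section

variable {γ ζ θ L d p : ℝ} {D : V → Prop} {G Q W O : Ln V → Prop}

lemma pha0_G (h : Lv γ ζ L d p D G Q W O) (hγ0 : 0 < γ) (hd0 : 0 < d) (hζ1 : ζ ≤ 1) (σ : Bool)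
    (v : V) : ct (fun u => G (cl σ v u)) ≤ 2 * (γ * (1 - e0) * d) := by
  have h1 := (abs_le.1 (h.g1 σ v)).2
  have h2 : 0 ≤ γ * (1 - e0) * d := mul_nonneg (by linarith [(pha0_a hγ0).1]) hd0.le
  nlinarith

lemma pha0_dev (h : Lv γ ζ L d p D G Q W O) (hγ0 : 0 < γ) (hθ0 : 0 < θ) (hζ0 : 0 ≤ ζ)
    (hζ1 : ζ ≤ 1) (hζ : ζ ≤ θ ^ 4 * γ ^ 4 / 48) (hd : 64 / (θ ^ 4 * γ ^ 6) ≤ d) (σ : Bool)
    (v : V) : ct (Dev γ θ d D G W σ v) ≤ θ ^ 2 * γ ^ 4 / 2 * d := by
  have hd0 : 0 < d := lt_of_lt_of_le (by positivity) hd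
  have ha := pha0_a hγ0
  have ha0 : 0 < γ * (1 - e0) := by linarith [ha.1]
  refine pha0_arith1 hγ0 hθ0 ha.1 hζ hd ?_
  exact disc (fun u => G (cl σ v u)) D (fun u s => W (sl (!σ) u s)) ha0.le hζ0 hζ1
    (pha0_G h hγ0 hd0 hζ1 σ v) h.hd (fun u s hw => (h.tW _ hw).2) (fun u => h.w1 (!σ) u)
    (fun u u' huu => by
      have := (abs_le.1 (h.w2 (!σ) (!σ) u u' (Or.inr huu))).2
      linarith) (by positivity)

lemma pha0_bad (h : Lv γ ζ L d p D G Q W O) (hγ0 : 0 < γ) (hθ0 : 0 < θ)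
    (hdev : ∀ σ v, ct (Dev γ θ d D G W σ v) ≤ θ ^ 2 * γ ^ 4 / 2 * d) :
    ct (BadS γ θ d D G W) ≤ θ * γ ^ 2 * d := by
  have hN : (0 : ℝ) < Fintype.card V := by rw [h.card]; exact exp_pos _
  have key : ∀ σ, ct (fun s => θ * γ ^ 2 * Fintype.card V ≤
      ct fun v => Dev γ θ d D G W σ v s) ≤ θ * γ ^ 2 * d / 2 := fun σ => by
    refine le_of_mul_le_mul_right ?_ (by positivity : 0 < θ * γ ^ 2 * Fintype.card V)
    calc _ = ∑ s, ind (θ * γ ^ 2 * Fintype.card V ≤ ct fun v => Dev γ θ d D G W σ v s) *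
          (θ * γ ^ 2 * Fintype.card V) := by rw [← sum_mul]; rfl
      _ ≤ ∑ s, ct fun v => Dev γ θ d D G W σ v s := sum_le_sum fun s _ => by
          by_cases hs : θ * γ ^ 2 * Fintype.card V ≤ ct fun v => Dev γ θ d D G W σ v s
          · rwa [ind_pos hs, one_mul]
          · rw [ind_neg hs, zero_mul]; exact ct_nonneg _
      _ = ∑ v, ct (Dev γ θ d D G W σ v) := (ct_comm _).symm
      _ ≤ ∑ _v : V, θ ^ 2 * γ ^ 4 / 2 * d := sum_le_sum fun v _ => hdev σ v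
      _ = _ := by rw [sum_const, card_univ, nsmul_eq_mul]; ring
  have := ct_le_add (X := BadS γ θ d D G W)
    (Y := fun s => θ * γ ^ 2 * Fintype.card V ≤ ct fun v => Dev γ θ d D G W true v s)
    (Z := fun s => θ * γ ^ 2 * Fintype.card V ≤ ct fun v => Dev γ θ d D G W false v s) (by
      rintro s ⟨σ, hs⟩
      cases σ
      · exact Or.inr hs
      · exact Or.inl hs)
  linarith [key true, key false]

/-- a line of `W` that does not deviate -/
lemma pha0_nodev (h : Lv γ ζ L d p D G Q W O) (hγ0 : 0 < γ) (hd0 : 0 < d) (hζθ : ζ ≤ θ)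
    {σ : Bool} {v s : V} (hw : W (sl σ v s)) (hn : ¬ Dev γ θ d D G W σ v s) :
    |ct (fun u => G (cl σ v u) ∧ W (sl (!σ) u s)) - (γ * (1 - e0)) ^ 2 * d| ≤
      2 * θ * ((γ * (1 - e0)) ^ 2 * d) := by
  have ha0 : 0 < γ * (1 - e0) := by linarith [(pha0_a hγ0).1]
  have h1 := abs_lt.1 (not_le.1 fun hh => hn ⟨(h.tW _ hw).2, hh⟩)
  have h2 := abs_le.1 (h.g1 σ v)
  generalize γ * (1 - e0) = a at *
  have h3 := mul_le_mul_of_nonneg_left h2.1 ha0.le
  have h4 := mul_le_mul_of_nonneg_left h2.2 ha0.le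
  have h5 : ζ * (a ^ 2 * d) ≤ θ * (a ^ 2 * d) := mul_le_mul_of_nonneg_right hζθ (by positivity)
  rw [abs_le]
  constructor <;> nlinarith

lemma pha0_deg (h : Lv γ ζ L d p D G Q W O) (hγ0 : 0 < γ) (hθ0 : 0 < θ) (hd0 : 0 < d)
    (hζθ : ζ ≤ θ) (e : Ln V) :
    dg (HA γ θ d D G W) e ≤ (1 + 2 * θ) * ((γ * (1 - e0)) ^ 2 * d) := by
  have hE : 0 ≤ (γ * (1 - e0)) ^ 2 * d := by positivity
  rw [dg_eq]
  by_cases he : e.1 = 0
  · obtain ⟨k, v, u⟩ := e
    dsimp only at he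
    subst he
    have h1 := (abs_le.1 (h.w2 true false v u (Or.inl (by decide)))).2
    have h2 : ct (fun s => HA γ θ d D G W (tri (cl true v u) s)) ≤
        ct fun s => W (sl true v s) ∧ W (sl false u s) := ct_mono fun s hs =>
      ⟨((pha0_HA_cl ..).1 hs).2.1, ((pha0_HA_cl ..).1 hs).2.2.1⟩
    have h5 := mul_le_mul_of_nonneg_right hζθ hE
    have h6 := mul_nonneg hθ0.le hE
    refine h2.trans ?_
    linarith
  · obtain ⟨σ, hσ⟩ := exists_sl he
    rw [hσ]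
    generalize e.2.1 = v
    generalize e.2.2 = s
    by_cases hw : W (sl σ v s) ∧ ¬ Dev γ θ d D G W σ v s
    · have h1 := (abs_le.1 (pha0_nodev h hγ0 hd0 hζθ hw.1 hw.2)).2
      have h2 : ct (fun u => HA γ θ d D G W (tri (sl σ v s) u)) ≤
          ct fun u => G (cl σ v u) ∧ W (sl (!σ) u s) := ct_mono fun u hu =>
        ⟨((pha0_HA_sl ..).1 hu).1, ((pha0_HA_sl ..).1 hu).2.2.1⟩
      linarith
    · rw [ct_false fun u hu =>
        hw ⟨((pha0_HA_sl ..).1 hu).2.1, ((pha0_HA_sl ..).1 hu).2.2.2.2.1⟩]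
      positivity

lemma pha0_cell (h : Lv γ ζ L d p D G Q W O) (hγ0 : 0 < γ) (hγ : γ ≤ 1 / 10) (hθ0 : 0 < θ)
    (hθ : θ ≤ 1 / 100) (hd0 : 0 < d) (hζθ : ζ ≤ θ)
    (hdev : ∀ σ v, ct (Dev γ θ d D G W σ v) ≤ θ ^ 2 * γ ^ 4 / 2 * d)
    (hbad : ct (BadS γ θ d D G W) ≤ θ * γ ^ 2 * d) {σ : Bool} {v u : V} (hG : G (cl σ v u)) :
    1 - dg (HA γ θ d D G W) (cl σ v u) / ((1 + 2 * θ) * ((γ * (1 - e0)) ^ 2 * d)) ≤ 11 * θ := by
  have ha := pha0_a hγ0
  have ha0 : 0 < γ * (1 - e0) := by linarith [ha.1]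
  have h1 := (abs_le.1 (h.w2 σ (!σ) v u (Or.inl (by cases σ <;> decide)))).1
  have h2 : ct (fun s => W (sl σ v s) ∧ W (sl (!σ) u s)) ≤
      ct (fun s => HA γ θ d D G W (tri (cl σ v u) s)) + (ct (BadS γ θ d D G W) +
        (ct (Dev γ θ d D G W σ v) + ct (Dev γ θ d D G W (!σ) u))) := by
    refine (ct_le_add (Z := fun s => BadS γ θ d D G W s ∨ Dev γ θ d D G W σ v s ∨
      Dev γ θ d D G W (!σ) u s) fun s hs => ?_).trans (add_le_add le_rfl
        ((ct_or_le _ _).trans (add_le_add le_rfl (ct_or_le _ _))))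
    rw [pha0_HA_cl]
    tauto
  rw [dg_eq]
  have h3 := hdev σ v
  have h4 := hdev (!σ) u
  generalize γ * (1 - e0) = a at *
  have hE : 0 < a ^ 2 * d := by positivity
  have h5 := mul_le_mul_of_nonneg_right hζθ hE.le
  have h6 : γ ^ 2 ≤ 4 * a ^ 2 := by nlinarith [ha.1]
  have h7 : θ * γ ^ 2 * d ≤ 4 * (θ * (a ^ 2 * d)) := by
    have := mul_le_mul_of_nonneg_left h6 (by positivity : 0 ≤ θ * d)
    linarith
  have h8 : θ ^ 2 * γ ^ 4 * d ≤ θ * γ ^ 2 * d := by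
    have h9 : θ * γ ^ 2 ≤ 1 :=
      mul_le_one₀ (by linarith) (by positivity) (pow_le_one₀ hγ0.le (by linarith))
    have := mul_le_mul_of_nonneg_left h9 (by positivity : 0 ≤ θ * γ ^ 2 * d)
    linarith
  rw [sub_le_comm, le_div_iff₀ (by positivity)]
  have h10 : 0 ≤ θ ^ 2 * (a ^ 2 * d) := by positivity
  linarith

lemma pha0_line (h : Lv γ ζ L d p D G Q W O) (hγ0 : 0 < γ) (hθ0 : 0 < θ) (hd0 : 0 < d)
    (hζθ : ζ ≤ θ) {σ : Bool} {v s : V} (hw : W (sl σ v s)) (hb : ¬ BadS γ θ d D G W s) :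
    1 - dg (HA γ θ d D G W) (sl σ v s) / ((1 + 2 * θ) * ((γ * (1 - e0)) ^ 2 * d)) ≤
      ind (Dev γ θ d D G W σ v s) + 4 * θ +
        ct (fun u => G (cl σ v u) ∧ Dev γ θ d D G W (!σ) u s) / ((γ * (1 - e0)) ^ 2 * d) := by
  have ha0 : 0 < γ * (1 - e0) := by linarith [(pha0_a hγ0).1]
  have hE : 0 < (γ * (1 - e0)) ^ 2 * d := by positivity
  have hC := ct_nonneg fun u => G (cl σ v u) ∧ Dev γ θ d D G W (!σ) u s
  have hC' := div_nonneg hC hE.le
  by_cases hn : Dev γ θ d D G W σ v s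
  · have := div_nonneg (dg_nonneg (HA γ θ d D G W) (sl σ v s))
      (by positivity : 0 ≤ (1 + 2 * θ) * ((γ * (1 - e0)) ^ 2 * d))
    rw [ind_pos hn]
    linarith
  · have h1 := (abs_le.1 (pha0_nodev h hγ0 hd0 hζθ hw hn)).1
    have h2 : ct (fun u => G (cl σ v u) ∧ W (sl (!σ) u s)) ≤
        ct (fun u => HA γ θ d D G W (tri (sl σ v s) u)) +
          ct fun u => G (cl σ v u) ∧ Dev γ θ d D G W (!σ) u s := by
      refine ct_le_add fun u hu => ?_
      rw [pha0_HA_sl]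
      tauto
    rw [ind_neg hn, dg_eq, sub_le_comm, le_div_iff₀ (by positivity)]
    generalize (γ * (1 - e0)) ^ 2 * d = E at *
    generalize (ct fun u => G (cl σ v u) ∧ Dev γ θ d D G W (!σ) u s) = C at *
    have e : (1 - (0 + 4 * θ + C / E)) * ((1 + 2 * θ) * E) =
        (1 - 2 * θ) * E - 8 * (θ ^ 2 * E) - C - 2 * (θ * C) := by field_simp; ring
    have h3 : 0 ≤ θ ^ 2 * E := by positivity
    have h4 : 0 ≤ θ * C := by positivity
    rw [e]
    linarith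

omit [Fintype V] in
lemma pha0_ind {P R : Prop} {x c y : ℝ} (hy : 0 ≤ y) (h : P → x ≤ ind R + c + y) :
    ind P * x ≤ ind R + c * ind P + y := by
  by_cases hP : P
  · rw [ind_pos hP, one_mul, mul_one]; exact h hP
  · rw [ind_neg hP, zero_mul, mul_zero]; linarith [ind_nonneg R]

lemma pha0_ct_and (P : Prop) (X : V → Prop) : ct (fun v => X v ∧ P) = ind P * ct X := by
  unfold ct
  rw [mul_sum]
  exact sum_congr rfl fun v _ => by rw [ind_and, mul_comm]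

end

/-- Deterministic estimates.  Write `a = γ (1 - e0) ≥ γ / 2`, `θ₄ = θ ^ 2 γ ^ 4 / 2`,
`Dn = (1 + 2 θ) a ^ 2 d`.  By `disc` (`α = a`, `z = 2 a d`, `t = θ a ^ 2 d`, `N = G (cl σ v ·)`,
`Y u s = W (sl (!σ) u s)`) each `v` has at most `4 / (θ a) ^ 2 + 12 ζ d / θ ^ 2 ≤ θ₄ d` deviating
symbols; double counting gives `ct BadS ≤ 2 θ₄ d / (θ γ ^ 2) = θ γ ^ 2 d`.  Degrees (`dg_eq`,
`tri_sl`, `tri_cl`, `exists_sl`): a cell of `G` has degree between
`(1 - ζ) a ^ 2 d - 2 θ₄ d - θ γ ^ 2 d` and `(1 + ζ) a ^ 2 d`; a line `sl σ v s` of `W` with `s` not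
bad that does not deviate has degree at most `(1 + ζ + θ) a ^ 2 d` and at least
`(1 - ζ - θ) a ^ 2 d - ct (fun u => G (cl σ v u) ∧ Dev (!σ) u s)`; all other degrees vanish.
Deficiencies: bound `1 - dg / Dn` by `11 θ` for cells, and by
`ind (Dev σ v s) + 4 θ + ct (fun u => G (cl σ v u) ∧ Dev (!σ) u s) / (a ^ 2 d)` for symbol lines;
sum with `ct_comm`, using degrees at most `2 a d` in `G`. -/
theorem phA_det {γ ζ θ L d p : ℝ} {D : V → Prop} {G Q W O : Ln V → Prop}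
    (h : Lv γ ζ L d p D G Q W O) (hγ0 : 0 < γ) (hγ : γ ≤ 1 / 10) (hθ0 : 0 < θ) (hθ : θ ≤ 1 / 100)
    (hζ0 : 0 ≤ ζ) (hζ : ζ ≤ θ ^ 4 * γ ^ 4 / 48) (hd : 64 / (θ ^ 4 * γ ^ 6) ≤ d) :
    ct (BadS γ θ d D G W) ≤ θ * γ ^ 2 * d ∧
    (∀ e, dg (HA γ θ d D G W) e ≤ (1 + 2 * θ) * ((γ * (1 - e0)) ^ 2 * d)) ∧
    (∀ σ v, dfc (HA γ θ d D G W) ((1 + 2 * θ) * ((γ * (1 - e0)) ^ 2 * d))
      (fun e => ∃ u, e = cl σ v u ∧ G e) ≤ 22 * θ * (γ * d)) ∧
    (∀ σ s, ¬ BadS γ θ d D G W s → dfc (HA γ θ d D G W) ((1 + 2 * θ) * ((γ * (1 - e0)) ^ 2 * d))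
      (fun e => ∃ v, e = sl σ v s ∧ W e) ≤ 22 * θ * (γ * Fintype.card V)) ∧
    ∀ σ v v', dfc (HA γ θ d D G W) ((1 + 2 * θ) * ((γ * (1 - e0)) ^ 2 * d))
      (fun e => ∃ s, e = sl σ v s ∧ ¬ BadS γ θ d D G W s ∧ W e ∧
        (W (sl (!σ) v' s) ∨ O (sl (!σ) v' s))) ≤ 22 * θ * (γ ^ 2 * d) := by
  have hd0 : 0 < d := lt_of_lt_of_le (by positivity) hd
  have hζθ := pha0_small hγ0 hγ hθ0 hθ hζ
  have hζ1 : ζ ≤ 1 := by linarith
  have ha := pha0_a hγ0
  have ha0 : 0 < γ * (1 - e0) := by linarith [ha.1]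
  have hE : 0 < (γ * (1 - e0)) ^ 2 * d := by positivity
  have hN : (0 : ℝ) < Fintype.card V := by rw [h.card]; exact exp_pos _
  have hdev := pha0_dev h hγ0 hθ0 hζ0 hζ1 hζ hd
  have hbad := pha0_bad h hγ0 hθ0 hdev
  have hG := pha0_G h hγ0 hd0 hζ1
  refine ⟨hbad, pha0_deg h hγ0 hθ0 hd0 hζθ, fun σ v => ?_, fun σ s hs => ?_, fun σ v v' => ?_⟩
  · unfold dfc
    rw [pha0_sum (pha0_cl_inj σ v) fun _ e => G e]
    refine (sum_ind_mul_le fun u hu =>
      pha0_cell h hγ0 hγ hθ0 hθ hd0 hζθ hdev hbad hu).trans ?_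
    have h1 := mul_le_mul_of_nonneg_right (hG σ v) (by positivity : 0 ≤ 11 * θ)
    have h2 := mul_le_mul_of_nonneg_right ha.2 (by positivity : 0 ≤ θ * d)
    linarith
  · unfold dfc
    rw [pha0_sum (pha0_sl_inj' σ s) fun _ e => W e]
    refine (sum_le_sum fun v _ => pha0_ind (div_nonneg (ct_nonneg _) hE.le)
      fun hw => pha0_line h hγ0 hθ0 hd0 hζθ hw hs).trans ?_
    rw [sum_add_distrib, sum_add_distrib, ← mul_sum, ← sum_div]
    have hb : ∀ τ, ct (fun v => Dev γ θ d D G W τ v s) ≤ θ * γ ^ 2 * Fintype.card V :=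
      fun τ => (not_le.1 fun hh => hs ⟨τ, hh⟩).le
    have h1 : ∑ v, ind (Dev γ θ d D G W σ v s) ≤ θ * γ ^ 2 * Fintype.card V := hb σ
    have h2 : ∑ v, ind (W (sl σ v s)) ≤ 2 * (γ * Fintype.card V) := by
      refine (h.s1w σ s).trans ?_
      exact mul_le_mul (by linarith) (mul_le_mul_of_nonneg_right ha.2 hN.le) (by positivity)
        (by norm_num)
    have h3 : ∑ v, ct (fun u => G (cl σ v u) ∧ Dev γ θ d D G W (!σ) u s) ≤
        4 * θ * (γ * Fintype.card V) * ((γ * (1 - e0)) ^ 2 * d) := by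
      rw [ct_comm fun v u => G (cl σ v u) ∧ Dev γ θ d D G W (!σ) u s]
      simp only [pha0_ct_and]
      refine (sum_ind_mul_le (c := 2 * (γ * (1 - e0) * d)) fun u _ => ?_).trans ?_
      · simpa only [cl_not] using hG (!σ) u
      · refine (mul_le_mul_of_nonneg_right (hb (!σ)) (by positivity)).trans ?_
        have := mul_le_mul_of_nonneg_right ha.1
          (by positivity : 0 ≤ 4 * θ * (γ * Fintype.card V) * (γ * (1 - e0) * d))
        linarith
    have h4 := (div_le_iff₀ hE).2 h3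
    have h5 := mul_le_mul_of_nonneg_left h2 (by positivity : 0 ≤ 4 * θ)
    have h6 := mul_le_mul_of_nonneg_right hγ (by positivity : 0 ≤ θ * (γ * Fintype.card V))
    have h7 : 0 ≤ θ * (γ * Fintype.card V) := by positivity
    linarith
  · unfold dfc
    rw [pha0_sum (pha0_sl_inj σ v) fun s e => ¬ BadS γ θ d D G W s ∧ W e ∧
      (W (sl (!σ) v' s) ∨ O (sl (!σ) v' s))]
    refine (sum_le_sum fun s _ => pha0_ind (div_nonneg (ct_nonneg _) hE.le)
      fun hw => pha0_line h hγ0 hθ0 hd0 hζθ hw.2.1 hw.1).trans ?_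
    rw [sum_add_distrib, sum_add_distrib, ← mul_sum, ← sum_div]
    have h1 : ∑ s, ind (Dev γ θ d D G W σ v s) ≤ θ ^ 2 * γ ^ 4 / 2 * d := hdev σ v
    have h2 : ∑ s, ind (¬ BadS γ θ d D G W s ∧ W (sl σ v s) ∧
        (W (sl (!σ) v' s) ∨ O (sl (!σ) v' s))) ≤ 2 * γ ^ 2 * d :=
      (ct_mono fun s hs => hs.2).trans (h.wu2 σ v v')
    have h3 : ∑ s, ct (fun u => G (cl σ v u) ∧ Dev γ θ d D G W (!σ) u s) ≤
        2 * (θ ^ 2 * γ ^ 3 * d) * ((γ * (1 - e0)) ^ 2 * d) := by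
      rw [ct_comm fun s u => G (cl σ v u) ∧ Dev γ θ d D G W (!σ) u s]
      simp only [and_comm (a := G _), pha0_ct_and]
      refine (sum_ind_mul_le fun u _ => hdev (!σ) u).trans ?_
      refine (mul_le_mul_of_nonneg_right (hG σ v) (by positivity)).trans ?_
      have := mul_le_mul_of_nonneg_right ha.1
        (by positivity : 0 ≤ 2 * (θ ^ 2 * γ ^ 3 * d) * (γ * (1 - e0) * d))
      linarith
    have h4 := (div_le_iff₀ hE).2 h3
    have h5 := mul_le_mul_of_nonneg_left h2 (by positivity : 0 ≤ 4 * θ)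
    have h7 : 0 ≤ θ * (γ ^ 2 * d) := by positivity
    have h8 : θ * γ ≤ 1 := mul_le_one₀ (by linarith) hγ0.le (by linarith)
    have h9 : θ * γ ^ 2 ≤ 1 :=
      mul_le_one₀ (by linarith) (by positivity) (pow_le_one₀ hγ0.le (by linarith))
    have h10 := mul_le_mul_of_nonneg_right h8 h7
    have h11 := mul_le_mul_of_nonneg_right h9 h7
    linarith

end

end Pool.Agent.MP_46aeaf_co.HT

/-! The nibble phase of a level. -/

namespace Pool.Agent.MP_46aeaf_co.HT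

open Finset Pool.Agent.MP_81e6aa_pr Real Filter

/-- the three families of tests -/
def pha_X {V : Type} (B : V → Prop) (G W O : Ln V → Prop) :
    (Bool × V) ⊕ (Bool × V) ⊕ (Bool × V × V) → Ln V → Prop
  | Sum.inl j => fun e => ∃ u, e = cl j.1 j.2 u ∧ G e
  | Sum.inr (Sum.inl j) => fun e => ∃ v, e = sl j.1 v j.2 ∧ W e
  | Sum.inr (Sum.inr j) => fun e => ∃ s, e = sl j.1 j.2.1 s ∧ ¬ B s ∧ W e ∧
      (W (sl (!j.1) j.2.2 s) ∨ O (sl (!j.1) j.2.2 s))

lemma pha_ct {V : Type} [Fintype V] (f : V → Ln V) (hf : Function.Injective f)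
    (P : V → Ln V → Prop) (R : Ln V → Prop) :
    ct (fun u => P u (f u) ∧ R (f u)) ≤ ct (fun e => (∃ u, e = f u ∧ P u e) ∧ R e) :=
  ct_le_of_inj f (fun u hu => ⟨⟨u, rfl, hu.1⟩, hu.2⟩) fun _ _ _ _ h => hf h

lemma pha_ct' {V : Type} [Fintype V] (f : V → Ln V) (P : V → Ln V → Prop) (R : V → Prop)
    (h : ∀ u, P u (f u) → R u) : ct (fun e => ∃ u, e = f u ∧ P u e) ≤ ct R :=
  ct_le_of_surj f fun e he => by
    obtain ⟨u, rfl, hu⟩ := he
    exact ⟨u, h u hu, rfl⟩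

lemma pha_num {x y z a K θ σ E : ℝ} (hE : 0 < E) (hK : 0 < K) (hθ : θ = E / (10 ^ 4 * K))
    (ha : 0 ≤ a) (hx : x ≤ E / 800 * y + K * z + σ) (hy : y ≤ 2 * a) (hz : z ≤ 22 * θ * a)
    (hσ : σ ≤ E / 400 * a) : x ≤ E / 100 * a := by
  have h1 : K * z ≤ K * (22 * θ * a) := mul_le_mul_of_nonneg_left hz hK.le
  have h2 : K * (22 * θ * a) = 22 / 10 ^ 4 * (E * a) := by rw [hθ]; field_simp
  have h3 : E / 800 * y ≤ E / 800 * (2 * a) := mul_le_mul_of_nonneg_left hy (by positivity)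
  have h4 : 0 ≤ E * a := mul_nonneg hE.le ha
  linarith

lemma pha_fail {K n L x : ℝ} (hK : 0 ≤ K) (hn : n = exp L) (hL : 0 ≤ L) (hx : 10 * L ≤ x)
    (h9 : 9 * K ≤ exp (5 * L)) :
    K * (3 * n ^ 2 * exp (-x) + (2 * n + (2 * n + 2 * (n * n))) * exp (-(1 * (10 * L)))) ≤
      exp (-(3 * L)) := by
  have hn1 : 1 ≤ n := hn ▸ one_le_exp hL
  have h1 : exp (-x) ≤ exp (-(1 * (10 * L))) := exp_le_exp.2 (by linarith)
  have h0 := exp_pos (-(1 * (10 * L)))
  have h2 : 2 * n + (2 * n + 2 * (n * n)) ≤ 6 * n ^ 2 := by nlinarith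
  have h3 : 3 * n ^ 2 * exp (-x) + (2 * n + (2 * n + 2 * (n * n))) * exp (-(1 * (10 * L))) ≤
      9 * (n ^ 2 * exp (-(1 * (10 * L)))) := by
    have a1 := mul_le_mul_of_nonneg_left h1 (show 0 ≤ 3 * n ^ 2 by positivity)
    have a2 := mul_le_mul_of_nonneg_right h2 h0.le
    linarith
  have h4 : exp (-(3 * L)) = exp (5 * L) * (n ^ 2 * exp (-(1 * (10 * L)))) := by
    rw [hn, sq, ← exp_add, ← exp_add, ← exp_add]; congr 1; ring
  rw [h4]
  refine (mul_le_mul_of_nonneg_left h3 hK).trans ?_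
  rw [← mul_assoc, mul_comm K]
  exact mul_le_mul_of_nonneg_right h9 (by positivity)

theorem phA : ∃ K : ℝ, 0 < K ∧ ∀ γ : ℝ, 0 < γ → γ ≤ 1 / 10 → ∃ ζ₀ : ℝ, 0 < ζ₀ ∧
    ∀ᶠ L : ℝ in atTop, ∀ (V : Type) [Fintype V] [DecidableEq V] (ζ d p : ℝ) (D : V → Prop)
      (G Q W O : Ln V → Prop), 0 ≤ ζ → ζ ≤ ζ₀ → Lv γ ζ L d p D G Q W O →
      ∃ B : V → Prop, ct B ≤ e0 ^ 2 / 20 * γ ^ 2 * d ∧
        Ach (lq K γ d G Q W O) (exp (-(3 * L))) (PA γ d B G W O) := by
  have he0 : 0 < e0 := by unfold e0; positivity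
  have he1 : e0 ≤ 1 / 2 := by unfold e0; norm_num
  have hE0 : 0 < e0 ^ 2 := by positivity
  have hE1 : e0 ^ 2 ≤ 1 := by nlinarith
  obtain ⟨K, c, hK1, hc, hN⟩ := nibble (ε := e0 ^ 2 / 800) (s := 1) (by positivity) le_rfl
  have hK0 : 0 < K := by linarith
  refine ⟨4 * K, by positivity, fun γ hγ0 hγ => ?_⟩
  obtain ⟨θ, hθ⟩ : ∃ θ, θ = e0 ^ 2 / (10 ^ 4 * K) := ⟨_, rfl⟩
  have hθ0 : 0 < θ := by rw [hθ]; positivity
  have hθE : θ ≤ e0 ^ 2 / 10 ^ 4 := by
    rw [hθ]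
    exact div_le_div_of_nonneg_left hE0.le (by positivity) (by linarith)
  have hθ1 : θ ≤ 1 / 100 := by linarith
  refine ⟨θ ^ 4 * γ ^ 4 / 48, by positivity, ?_⟩
  have h60 : (0 : ℝ) < 1 / 60 := by norm_num
  filter_upwards [ev_pow (64 / (θ ^ 4 * γ ^ 6)) 0 h60, ev_pow (4 * K / γ ^ 2) 0 h60,
    ev_pow (40 / (c * γ ^ 2)) 1 h60, ev_pow (4000 / (e0 ^ 2 * γ ^ 2)) 1 h60,
    ev_pow (9 * K) 0 (show (0 : ℝ) < 5 by norm_num), eventually_ge_atTop 0]
    with L l1 l2 l3 l4 l5 hL V _ _ ζ d p D G Q W O hζ0 hζ h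
  have hd : exp (1 / 60 * L) ≤ d := by
    have := h.dbig
    rwa [show L / 60 = 1 / 60 * L by ring] at this
  have hd0 : 0 < d := (exp_pos _).trans_le hd
  rw [pow_zero, mul_one] at l1 l2 l5
  rw [pow_one] at l3 l4
  replace l1 := l1.trans hd
  replace l2 := l2.trans hd
  replace l3 := l3.trans hd
  replace l4 := l4.trans hd
  have hγ2 : 0 < γ ^ 2 := by positivity
  rw [div_le_iff₀ hγ2] at l2
  rw [div_mul_eq_mul_div, div_le_iff₀ (by positivity)] at l3 l4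
  have hdn : d ≤ Fintype.card V := h.hd ▸ ct_le_card D
  have hζ1 : ζ ≤ 1 := by
    have a1 : θ ^ 4 ≤ 1 := pow_le_one₀ hθ0.le (by linarith)
    have a2 : γ ^ 4 ≤ 1 := pow_le_one₀ hγ0.le (by linarith)
    have a3 : θ ^ 4 * γ ^ 4 ≤ 1 := mul_le_one₀ a1 (by positivity) a2
    linarith
  obtain ⟨b0, b1, b2, b3, b4⟩ := phA_det h hγ0 hγ hθ0 hθ1 hζ0 hζ l1
  generalize hB : BadS γ θ d D G W = B at b0 b3 b4
  have hH : ∀ t, HA γ θ d D G W t → G (ed 0 t) ∧ W (ed 1 t) ∧ W (ed 2 t) ∧ ¬ B t.2.2 :=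
    fun t ht => ⟨ht.1, ht.2.1, ht.2.2.1, hB ▸ ht.2.2.2.1⟩
  generalize HA γ θ d D G W = H at b1 b2 b3 b4 hH
  have hDn : γ ^ 2 * d / 4 ≤ (1 + 2 * θ) * ((γ * (1 - e0)) ^ 2 * d) := by
    have a1 : γ / 2 ≤ γ * (1 - e0) := by nlinarith
    have a2 : (γ / 2) ^ 2 ≤ (γ * (1 - e0)) ^ 2 := pow_le_pow_left₀ (by positivity) a1 2
    have a3 := mul_le_mul_of_nonneg_right a2 hd0.le
    have a4 : 0 ≤ 2 * θ * ((γ * (1 - e0)) ^ 2 * d) := by positivity
    linarith
  generalize (1 + 2 * θ) * ((γ * (1 - e0)) ^ 2 * d) = Dn at b1 b2 b3 b4 hDn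
  have hγd : 0 < γ ^ 2 * d := by positivity
  have hDn0 : 0 < Dn := by linarith
  have hKD : K ≤ Dn := by linarith
  have hcD : 10 * L ≤ c * Dn := by
    have := mul_le_mul_of_nonneg_left hDn hc.le
    linarith
  have hp1 : K / Dn ≤ 1 := (div_le_one hDn0).2 hKD
  have key := hN V _ H (pha_X B G W O) Dn (K / Dn) (10 * L) hKD b1 le_rfl hp1
  rw [card_Ln] at key
  have hJ : (Fintype.card ((Bool × V) ⊕ (Bool × V) ⊕ (Bool × V × V)) : ℝ) =
      2 * Fintype.card V + (2 * Fintype.card V + 2 * (Fintype.card V * Fintype.card V)) := by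
    simp [Fintype.card_sum, Fintype.card_prod]
  rw [hJ] at key
  replace key := key.trans (pha_fail hK0.le h.card hL hcD l5)
  have hγγ : γ ^ 2 ≤ γ := by nlinarith
  have s3 : 10 * L ≤ e0 ^ 2 / 400 * (γ ^ 2 * d) := by linarith
  have s1 : 10 * L ≤ e0 ^ 2 / 400 * (γ * d) :=
    s3.trans (mul_le_mul_of_nonneg_left (mul_le_mul_of_nonneg_right hγγ hd0.le) (by positivity))
  have s2 : 10 * L ≤ e0 ^ 2 / 400 * (γ * Fintype.card V) :=
    s1.trans (mul_le_mul_of_nonneg_left (mul_le_mul_of_nonneg_left hdn hγ0.le) (by positivity))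
  have two : ∀ x : ℝ, 0 ≤ x → (1 + ζ) * (γ * (1 - e0) * x) ≤ 2 * (γ * x) := fun x hx => by
    have a1 : γ * (1 - e0) * x ≤ γ * x :=
      mul_le_mul_of_nonneg_right (mul_le_of_le_one_right hγ0.le (by linarith)) hx
    exact mul_le_mul (by linarith) a1 (mul_nonneg (mul_nonneg hγ0.le (by linarith)) hx)
      (by norm_num)
  refine ⟨B, b0.trans ?_, (Ach.sample (by positivity) hp1 H key).mono (fun t => ?_) le_rfl ?_⟩
  · exact mul_le_mul_of_nonneg_right (mul_le_mul_of_nonneg_right (by linarith) hγ2.le) hd0.le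
  · refine mul_le_mul ?_ (ind_mono fun ht => ?_) (ind_nonneg _) (by positivity)
    · rw [div_le_div_iff₀ hDn0 hγd]
      have := mul_le_mul_of_nonneg_left hDn hK0.le
      linarith
    · obtain ⟨a1, a2, a3, -⟩ := hH t ht
      exact ⟨Or.inl a1, Or.inl a2, Or.inl a3⟩
  · rintro M ⟨hM, hpl, hT⟩
    refine ⟨hpl, fun t ht => hH t (hM t ht), fun σ v => ?_, fun σ s hs => ?_, fun σ v v' => ?_⟩
    · have hinj : Function.Injective (cl σ v) := fun u u' hu =>
        ray_inj (0, σ, v) (by rwa [← cl_eq_ray, ← cl_eq_ray])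
      rw [mul_assoc]
      refine (pha_ct (cl σ v) hinj (fun _ e => G e) fun e => ¬ Cv M e).trans ?_
      refine pha_num hE0 hK0 hθ (by positivity) (hT (Sum.inl (σ, v))) ?_ (b2 σ v) s1
      refine (pha_ct' (cl σ v) (fun _ e => G e) _ fun _ hu => hu).trans ?_
      have := (abs_le.1 (h.g1 σ v)).2
      linarith [two d hd0.le]
    · have hinj : Function.Injective fun v => sl σ v s := fun u u' hu => by
        simpa using congrArg (fun e => e.2.1) hu
      rw [mul_assoc]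
      refine (pha_ct (fun v => sl σ v s) hinj (fun _ e => W e) fun e => ¬ Cv M e).trans ?_
      refine pha_num hE0 hK0 hθ (by positivity) (hT (Sum.inr (Sum.inl (σ, s)))) ?_ (b3 σ s hs) s2
      refine (pha_ct' (fun v => sl σ v s) (fun _ e => W e) _ fun _ hu => hu).trans ?_
      exact (h.s1w σ s).trans (two _ (by positivity))
    · have hinj : Function.Injective (sl σ v) := fun u u' hu => by
        simpa using congrArg (fun e => e.2.2) hu
      rw [mul_assoc]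
      refine le_trans (ct_mono fun s hs => ?_) ((pha_ct (sl σ v) hinj (fun s e => ¬ B s ∧ W e ∧
        (W (sl (!σ) v' s) ∨ O (sl (!σ) v' s))) fun e => ¬ Cv M e).trans ?_)
      · exact ⟨⟨hs.1, hs.2.1, hs.2.2.2⟩, hs.2.2.1⟩
      refine pha_num hE0 hK0 hθ (by positivity) (hT (Sum.inr (Sum.inr (σ, v, v')))) ?_
        (b4 σ v v') s3
      refine (pha_ct' (sl σ v) (fun s e => ¬ B s ∧ W e ∧
        (W (sl (!σ) v' s) ∨ O (sl (!σ) v' s))) _ fun _ hu => hu.2).trans ?_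
      rw [← mul_assoc]
      exact h.wu2 σ v v'

end Pool.Agent.MP_46aeaf_co.HT

/-! Covering the forced cells left by the nibble. -/

namespace Pool.Agent.MP_46aeaf_co.HT

open Finset Pool.Agent.MP_81e6aa_pr Real Filter

section Aux

variable {V : Type} [Fintype V]

/-- exceptional symbol lines -/
def phsX (Z O : Ln V → Prop) (Δ : ℝ) (σ : Bool) (v s : V) : Prop :=
  Δ < ct fun u => Z (cl σ v u) ∧ O (sl (!σ) u s)

/-- the usable triples -/
def phsH (Z O : Ln V → Prop) (B : V → Prop) (Δ : ℝ) (t : Tr V) : Prop :=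
  Z (ed 0 t) ∧ O (ed 1 t) ∧ O (ed 2 t) ∧ ¬ B t.2.2 ∧ ¬ phsX Z O Δ true t.1 t.2.2 ∧
    ¬ phsX Z O Δ false t.2.1 t.2.2

lemma phs_e0 : 0 < e0 := by unfold e0; positivity

lemma phs_e1 : e0 ≤ 1 / 100 := by unfold e0; norm_num

/-- few exceptional symbols -/
lemma phs_exc {γ ζ L d p b z : ℝ} {D : V → Prop} {G Q W O : Ln V → Prop}
    (h : Lv γ ζ L d p D G Q W O) (Z : Ln V → Prop) (hb : b = γ * e0) (hb0 : 0 < b) (hb1 : b ≤ 1)
    (hz0 : 0 < z) (hζ0 : 0 ≤ ζ) (hζ : ζ ≤ b ^ 2 / 60) (hz : 40 ≤ b ^ 3 * z)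
    (hZ : ∀ σ v, ct (fun u => Z (cl σ v u)) ≤ z) (σ : Bool) (v : V) :
    ct (phsX Z O (2 * b * z) σ v) ≤ b ^ 2 * d / 10 := by
  have hd0 : 0 ≤ d := h.hd ▸ ct_nonneg _
  have hb2 : b ^ 2 ≤ 1 := pow_le_one₀ hb0.le hb1
  have hbz : 0 < b * z := mul_pos hb0 hz0
  have key := disc (fun u => Z (cl σ v u)) D (fun u s => O (sl (!σ) u s)) (α := b) (ζ := ζ)
    (z := z) (d := d) (t := b * z) hb0.le hζ0 (by linarith) (hZ σ v) h.hd
    (fun u s hs => (h.tO _ hs).2) (fun u => by rw [hb]; exact h.o1 (!σ) u)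
    (fun u u' huu => by
      have := (abs_le.1 (h.o2 (!σ) (!σ) u u' (Or.inr huu))).2
      rw [hb]; linarith) hbz.le
  have hle : ct (phsX Z O (2 * b * z) σ v) ≤ ct fun s => D s ∧ b * z ≤
      |ct (fun u => Z (cl σ v u) ∧ O (sl (!σ) u s)) - b * ct fun u => Z (cl σ v u)| := by
    refine ct_mono fun s hs => ?_
    unfold phsX at hs
    obtain ⟨u, hu⟩ := exists_of_ct_pos (lt_trans (by linarith) hs)
    refine ⟨(h.tO _ hu.2).2, le_trans ?_ (le_abs_self _)⟩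
    have := mul_le_mul_of_nonneg_left (hZ σ v) hb0.le
    linarith
  have h1 : ct (phsX Z O (2 * b * z) σ v) * (b * z) ^ 2 ≤ b ^ 2 * d / 10 * (b * z) ^ 2 := by
    refine (mul_le_mul_of_nonneg_right hle (sq_nonneg _)).trans (key.trans ?_)
    have a1 : 3 * ζ * b ^ 2 * z ^ 2 * d ≤ b ^ 2 * d / 20 * (b * z) ^ 2 := by
      have : 0 ≤ (b ^ 2 / 60 - ζ) * ((b * z) ^ 2 * d) :=
        mul_nonneg (by linarith) (by positivity)
      linarith
    have a2 : 2 * b * z * d ≤ b ^ 2 * d / 20 * (b * z) ^ 2 := by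
      have : 0 ≤ (b ^ 3 * z - 40) * (b * z * d) := mul_nonneg (by linarith) (by positivity)
      linarith
    linarith
  exact le_of_mul_le_mul_right h1 (by positivity)

/-- many usable triples on every cell that must be covered -/
lemma phs_deg {γ ζ L d p b Δ : ℝ} {D B : V → Prop} {G Q W O : Ln V → Prop}
    (h : Lv γ ζ L d p D G Q W O) (Z : Ln V → Prop) (hb : b = γ * e0) (hζ : ζ ≤ 1 / 60)
    (hB : ct B ≤ b ^ 2 * d / 20) (hX : ∀ σ v, ct (phsX Z O Δ σ v) ≤ b ^ 2 * d / 10)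
    (e : Ln V) (he0 : e.1 = 0) (he : Z e) : b ^ 2 * d / 2 ≤ dg (phsH Z O B Δ) e := by
  have hd0 : 0 ≤ d := h.hd ▸ ct_nonneg _
  obtain ⟨k, r, c⟩ := e
  dsimp only at he0
  subst he0
  rw [dg_eq]
  have h1 := (abs_le.1 (h.o2 true false r c (Or.inl (by decide)))).1
  rw [← hb] at h1
  have h2 : ct (fun s => O (sl true r s) ∧ O (sl false c s)) ≤
      ct (fun s => phsH Z O B Δ (tri (0, r, c) s)) +
        ct fun s => B s ∨ phsX Z O Δ true r s ∨ phsX Z O Δ false c s := by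
    refine ct_le_add fun s hs => ?_
    by_cases hh : B s ∨ phsX Z O Δ true r s ∨ phsX Z O Δ false c s
    · exact Or.inr hh
    · push Not at hh
      exact Or.inl ⟨he, hs.1, hs.2, hh.1, hh.2.1, hh.2.2⟩
  have h3 := ct_or_le B fun s => phsX Z O Δ true r s ∨ phsX Z O Δ false c s
  have h4 := ct_or_le (phsX Z O Δ true r) (phsX Z O Δ false c)
  have h5 : ζ * (b ^ 2 * d) ≤ 1 / 60 * (b ^ 2 * d) :=
    mul_le_mul_of_nonneg_right hζ (by positivity)
  have h6 : 0 ≤ b ^ 2 * d := by positivity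
  linarith [hX true r, hX false c]

/-- few usable triples on all other lines -/
lemma phs_load (Z O : Ln V → Prop) (B : V → Prop) {Δ : ℝ} (hΔ : 0 ≤ Δ) (e : Ln V) (he : ¬ Z e) :
    dg (phsH Z O B Δ) e ≤ Δ := by
  rw [dg_eq]
  obtain ⟨k, a, s⟩ := e
  fin_cases k
  · rw [ct_false fun u hu => he hu.1]; exact hΔ
  · by_cases hx : phsX Z O Δ true a s
    · rw [ct_false fun u hu => hu.2.2.2.2.1 hx]; exact hΔ
    · exact (ct_mono fun u hu => ⟨hu.1, hu.2.2.1⟩).trans (not_lt.1 hx)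
  · by_cases hx : phsX Z O Δ false a s
    · rw [ct_false fun u hu => hu.2.2.2.2.2 hx]; exact hΔ
    · exact (ct_mono fun u hu => ⟨hu.1, hu.2.1⟩).trans (not_lt.1 hx)

end Aux

theorem phS (γ : ℝ) (hγ0 : 0 < γ) (hγ : γ ≤ 1 / 10) : ∃ ζ₀ : ℝ, 0 < ζ₀ ∧
    ∀ᶠ L : ℝ in atTop, ∀ (V : Type) [Fintype V] [DecidableEq V] (ζ d p : ℝ) (D B : V → Prop)
      (G Q W O : Ln V → Prop) (M : Finset (Tr V)), 0 ≤ ζ → ζ ≤ ζ₀ → Lv γ ζ L d p D G Q W O →
      ct B ≤ e0 ^ 2 / 20 * γ ^ 2 * d → PA γ d B G W O M →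
      Ach (lq (4 / e0 ^ 2) γ d G Q W O) (exp (-(3 * L))) (PS γ p B D G Q O M) := by
  have he0 := phs_e0
  have he1 := phs_e1
  obtain ⟨b, hb⟩ : ∃ b, b = γ * e0 := ⟨_, rfl⟩
  have hb0 : 0 < b := hb ▸ mul_pos hγ0 he0
  have hb1 : b ≤ 1 := by rw [hb]; exact mul_le_one₀ (by linarith) he0.le (by linarith)
  have hb2 : b ^ 2 ≤ 1 := pow_le_one₀ hb0.le hb1
  refine ⟨b ^ 2 / 60, by positivity, ?_⟩
  filter_upwards [ev_pow (4000 / (b ^ 3 * e0 ^ 2 * γ)) 0 (c := 1 / 60) (by norm_num),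
    ev_pow (6000 / (b * γ)) 1 (c := 1 / 60) (by norm_num), eventually_ge_atTop 1]
    with L hL1 hL2 hL3
  intro V _ _ ζ d p D B G Q W O M hζ0 hζ h hB hA
  have hdb : exp (1 / 60 * L) ≤ d := by
    have := h.dbig
    rwa [show L / 60 = 1 / 60 * L by ring] at this
  have hd0 : 0 < d := (exp_pos _).trans_le hdb
  obtain ⟨z, hz⟩ : ∃ z, z = e0 ^ 2 / 100 * γ * d := ⟨_, rfl⟩
  have hz0 : 0 < z := by rw [hz]; positivity
  have hz1 : 40 ≤ b ^ 3 * z := by
    have h1 := hL1.trans hdb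
    rw [pow_zero, mul_one, div_le_iff₀ (by positivity)] at h1
    rw [hz]; linarith
  have hpn : 1500 * L ≤ p * b * Fintype.card V := by
    have h1 := hL2.trans hdb
    rw [pow_one, div_mul_eq_mul_div, div_le_iff₀ (by positivity)] at h1
    have h2 := mul_le_mul_of_nonneg_left h.hp hb0.le
    linarith
  have hexc := phs_exc h (fun e => G e ∧ ¬ Cv M e) hb hb0 hb1 hz0 hζ0 hζ hz1
    (fun σ v => hz ▸ hA.t1 σ v)
  have hratio : 2 * b * z / (b ^ 2 * d / 2) = e0 / 25 := by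
    rw [hz, hb]; field_simp; ring
  have hv : 0 < b ^ 2 * d / 2 := by positivity
  have hc := cover_it (J := Bool × V × V) (fun e => G e ∧ ¬ Cv M e)
    (phsH (fun e => G e ∧ ¬ Cv M e) O B (2 * b * z)) (v := b ^ 2 * d / 2) (Δ := 2 * b * z)
    (10 * L) hv (by positivity)
    (fun t ht => ⟨0, ht.1, fun k' hk hz => hk (h.tG _ hz.1)⟩)
    (fun e he => phs_deg h _ hb (by linarith) (by rw [hb]; linarith) hexc e (h.tG _ he.1) he)
    (fun e he => phs_load _ _ _ (by positivity) e he)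
    (by
      rw [div_eq_iff hv.ne'] at hratio
      rw [hratio]
      have := mul_le_mul_of_nonneg_right he1 hv.le
      linarith)
    (fun j e => ∃ u, e = sl (!j.1) u j.2.2 ∧ D j.2.2 ∧ Q (cl j.1 j.2.1 u) ∧ O e)
    (fun j e he hz => by
      obtain ⟨u, -, -, -, ho⟩ := he
      exact (h.tO _ ho).1 (h.tG _ hz.1))
  refine hc.mono (fun t => ?_) ?_ fun F hF => ?_
  · unfold lq
    rw [show 2 / (b ^ 2 * d / 2) = 4 / e0 ^ 2 / (γ ^ 2 * d) by rw [hb]; field_simp; ring]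
    exact mul_le_mul_of_nonneg_left
      (ind_mono fun ht => ⟨Or.inl ht.1.1, Or.inr ht.2.1, Or.inr ht.2.2.1⟩) (by positivity)
  · have h1 : (Fintype.card (Bool × V × V) : ℝ) = 2 * (exp L * exp L) := by
      rw [← h.card]; simp [Fintype.card_prod]
    have h2 : 2 ≤ exp (5 * L) := by linarith [add_one_le_exp (5 * L)]
    calc _ = 2 * exp (-(8 * L)) := by
          rw [h1, mul_assoc, ← exp_add, ← exp_add]; congr 2; ring
      _ ≤ exp (5 * L) * exp (-(8 * L)) := mul_le_mul_of_nonneg_right h2 (exp_pos _).le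
      _ = _ := by rw [← exp_add]; congr 1; ring
  · obtain ⟨h1, h2, h3, h4⟩ := hF
    refine ⟨h1, fun t ht => ?_, fun e he he' => h3 e ⟨he, he'⟩, fun σ v s hs => ?_⟩
    · obtain ⟨a1, a2, a3, a4, -⟩ := h2 t ht
      exact ⟨a1.1, a1.2, a2, a3, a4⟩
    · have a1 := h4 (σ, v, s)
      dsimp only at a1
      rw [hratio] at a1
      have a2 : ct (fun u => Q (cl σ v u) ∧ O (sl (!σ) u s) ∧ Cv F (sl (!σ) u s)) ≤
          ct fun e => (∃ u, e = sl (!σ) u s ∧ D s ∧ Q (cl σ v u) ∧ O e) ∧ Cv F e :=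
        ct_le_of_inj (fun u => sl (!σ) u s) (fun u hu => ⟨⟨u, rfl, hs, hu.1, hu.2.1⟩, hu.2.2⟩)
          fun u u' _ _ e => congrArg (fun e : Ln V => e.2.1) e
      have a3 : ct (fun e => ∃ u, e = sl (!σ) u s ∧ D s ∧ Q (cl σ v u) ∧ O e) ≤
          ct fun u => Q (cl σ v u) ∧ O (sl (!σ) u s) :=
        ct_le_of_surj (fun u => sl (!σ) u s) (by
          rintro e ⟨u, rfl, -, hq, ho⟩
          exact ⟨u, ⟨hq, ho⟩, rfl⟩)
      have a4 := (abs_le.1 (h.qo σ v s hs)).2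
      rw [← hb] at a4 ⊢
      generalize p * b * (Fintype.card V : ℝ) = N at *
      generalize ct (fun e => ∃ u, e = sl (!σ) u s ∧ D s ∧ Q (cl σ v u) ∧ O e) = X at *
      have hN : 0 ≤ N := by linarith
      have a5 : ζ * N ≤ 1 * N := mul_le_mul_of_nonneg_right (by linarith) hN
      have a6 : e0 * X ≤ e0 * (2 * N) := mul_le_mul_of_nonneg_left (by linarith) he0.le
      have a7 : e0 * N ≤ 1 / 100 * N := mul_le_mul_of_nonneg_right he1 hN
      linarith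

end Pool.Agent.MP_46aeaf_co.HT

/-! The first stage: everything outside the reservoir and the absorber is covered. -/

namespace Pool.Agent.MP_46aeaf_co.HT

open Finset Pool.Agent.MP_81e6aa_pr Real Filter

lemma stage0_four {α : Type} [Fintype α] {P Q₁ Q₂ Q₃ Q₄ : α → Prop}
    (h : ∀ a, P a → Q₁ a ∨ Q₂ a ∨ Q₃ a ∨ Q₄ a) : ct P ≤ ct Q₁ + ct Q₂ + ct Q₃ + ct Q₄ := by
  have h1 := ct_le_add h
  have h2 := ct_or_le Q₂ fun a => Q₃ a ∨ Q₄ a
  have h3 := ct_or_le Q₃ Q₄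
  linarith

/-- Cover the bad lines.  `cover_it` and `Ach.exists` with `Z e = Bad e ∧ ¬ A e ∧ ¬ Cv τ e`,
`H t`: `b t`, no line of `t` is in `X`, `A` or covered by `τ`, exactly one line is bad;
`v = L / 10 ^ 4 / 2` (a line of `Z` is not low; subtract `p2`, `p3` and `2` for `τ` by `VD.rayLe`,
`RayLe.dg_le`), `Δ = ζ L / 10 ^ 6` (`p3`), tests `X ρ e = (∃ v, e = ray ρ v) ∧ ¬ Z e`, `σ = 2 L`;
add `p4`. -/
theorem precover {γ ζ : ℝ} (hζ0 : 0 < ζ) (hζ : ζ ≤ 1) : ∀ᶠ L : ℝ in atTop,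
    ∀ (V : Type) [Fintype V] [DecidableEq V] (X A : Ln V → Prop) (b : Tr V → Bool)
      (τ : Finset (Tr V)), (Fintype.card V : ℝ) = exp L → PreB γ ζ L X A b → RS b L τ →
      ∃ F : Finset (Tr V), PL F ∧ (∀ t ∈ F, b t = true) ∧
        (∀ e, Cv F e → ¬ X e ∧ ¬ A e ∧ ¬ Cv τ e) ∧
        (∀ e, Bad γ L X b e → ¬ A e → ¬ Cv τ e → Cv F e) ∧
        RayLe (Cv F) (2 * ζ * Fintype.card V) := by
  filter_upwards [ev_pow (12 / ζ) 1 one_pos, eventually_ge_atTop (100000 : ℝ)] with L hL1 hL2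
  intro V _ _ X A b τ hV hP hR
  have hn : (0 : ℝ) < Fintype.card V := hV ▸ exp_pos L
  have hL0 : 0 < L := by linarith
  have hζL : ζ * L ≤ L := by nlinarith
  have hζL0 : 0 ≤ ζ * L := by positivity
  have key := cover_it (J := Ray V) (fun e => Bad γ L X b e ∧ ¬ A e ∧ ¬ Cv τ e)
    (fun t => b t = true ∧ (∀ k, ¬ X (ed k t) ∧ ¬ A (ed k t) ∧ ¬ Cv τ (ed k t)) ∧
      ∃ k, Bad γ L X b (ed k t) ∧ ∀ k', k' ≠ k → ¬ Bad γ L X b (ed k' t))
    (v := L / 10 ^ 4 / 2) (Δ := ζ * L / 10 ^ 6) (2 * L) (by positivity) (by positivity)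
    (by
      rintro t ⟨-, h2, k, h3, h4⟩
      exact ⟨k, ⟨h3, (h2 k).2⟩, fun k' hk' h => h4 k' hk' h.1⟩)
    (by
      rintro e ⟨hB, hA, hC⟩
      have h0 : L / 10 ^ 4 ≤ dg (fun t => b t = true) e := not_lt.1 fun h => hC (hR.2.1 e h)
      have h2 := hP.p2 e
      have h3 := hP.p3 e
      have h4 := hR.1.rayLe.dg_le e
      have h5 := stage0_four (P := fun t => ed e.1 t = e ∧ b t = true)
        (Q₁ := fun t => ed e.1 t = e ∧ (b t = true ∧
          (∀ k, ¬ X (ed k t) ∧ ¬ A (ed k t) ∧ ¬ Cv τ (ed k t)) ∧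
          ∃ k, Bad γ L X b (ed k t) ∧ ∀ k', k' ≠ k → ¬ Bad γ L X b (ed k' t)))
        (Q₂ := fun t => ed e.1 t = e ∧ (b t = true ∧ ∃ k, k ≠ e.1 ∧ (X (ed k t) ∨ A (ed k t))))
        (Q₃ := fun t => ed e.1 t = e ∧ (b t = true ∧ (∀ k, ¬ X (ed k t)) ∧
          ∃ k, k ≠ e.1 ∧ Bad γ L X b (ed k t)))
        (Q₄ := fun t => ed e.1 t = e ∧ ∃ k, k ≠ e.1 ∧ Cv τ (ed k t)) (by
          rintro t ⟨ht, hb⟩
          by_cases c2 : ∃ k, k ≠ e.1 ∧ (X (ed k t) ∨ A (ed k t))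
          · exact Or.inr (Or.inl ⟨ht, hb, c2⟩)
          by_cases c4 : ∃ k, k ≠ e.1 ∧ Cv τ (ed k t)
          · exact Or.inr (Or.inr (Or.inr ⟨ht, c4⟩))
          have c5 : ∀ k, ¬ X (ed k t) ∧ ¬ A (ed k t) ∧ ¬ Cv τ (ed k t) := fun k => by
            by_cases hk : k = e.1
            · rw [hk, ht]; exact ⟨hB.1, hA, hC⟩
            · exact ⟨fun h => c2 ⟨k, hk, Or.inl h⟩, fun h => c2 ⟨k, hk, Or.inr h⟩,
                fun h => c4 ⟨k, hk, h⟩⟩
          by_cases c3 : ∃ k, k ≠ e.1 ∧ Bad γ L X b (ed k t)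
          · exact Or.inr (Or.inr (Or.inl ⟨ht, hb, fun k => (c5 k).1, c3⟩))
          · exact Or.inl ⟨ht, hb, c5, e.1, ht.symm ▸ hB, fun k' hk' h => c3 ⟨k', hk', h⟩⟩)
      unfold dg at h0 h2 h3 h4 ⊢
      linarith)
    (by
      intro e he
      refine le_trans (dg_mono ?_) (hP.p3 e)
      rintro t ht ⟨hb, h2, k, h3, -⟩
      refine ⟨hb, fun k => (h2 k).1, k, fun hk => he ?_, h3⟩
      have h4 := h2 k
      rw [hk, ht] at h3 h4
      exact ⟨h3, h4.2⟩)
    (by linarith)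
    (fun ρ e => (∃ v, e = ray ρ v) ∧ ¬ (Bad γ L X b e ∧ ¬ A e ∧ ¬ Cv τ e)) (fun _ _ h => h.2)
  obtain ⟨F, h1, h2, h3, h4⟩ := key.exists (by
    have e1 : exp L * exp (-(2 * L)) = exp (-L) := by rw [← exp_add]; congr 1; ring
    have e2 : exp L * exp (-L) = 1 := by rw [← exp_add]; simp
    have e3 := add_one_le_exp L
    have e4 := exp_pos (-L)
    rw [card_Ray, hV, mul_assoc, e1]
    nlinarith)
  refine ⟨F, h1, fun t ht => (h2 t ht).1, ?_, fun e a b c => h3 e ⟨a, b, c⟩, fun ρ => ?_⟩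
  · rintro e ⟨t, ht, he⟩
    rw [← he]
    exact (h2 t ht).2.1 e.1
  · have a1 := h4 ρ
    have a2 := hP.p4 ρ
    have a3 : ct (fun e => (∃ v, e = ray ρ v) ∧ ¬ (Bad γ L X b e ∧ ¬ A e ∧ ¬ Cv τ e)) ≤
        Fintype.card V :=
      (ct_le_of_surj (Y := fun _ : V => True) (ray ρ) (by
        rintro e ⟨⟨v, rfl⟩, -⟩
        exact ⟨v, trivial, rfl⟩)).trans ct_true.le
    have a4 : ct (fun v => ¬ Bad γ L X b (ray ρ v) ∧ Cv F (ray ρ v)) ≤ ct (fun e =>
        ((∃ v, e = ray ρ v) ∧ ¬ (Bad γ L X b e ∧ ¬ A e ∧ ¬ Cv τ e)) ∧ Cv F e) :=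
      ct_le_of_inj (ray ρ) (fun v hv => ⟨⟨⟨v, rfl⟩, fun h => hv.1 h.1⟩, hv.2⟩)
        fun _ _ _ _ h => ray_inj ρ h
    have a5 : ct (fun v => Cv F (ray ρ v)) ≤ ct (fun v => Bad γ L X b (ray ρ v)) +
        ct (fun v => ¬ Bad γ L X b (ray ρ v) ∧ Cv F (ray ρ v)) :=
      ct_le_add fun v hv => by
        by_cases h : Bad γ L X b (ray ρ v)
        · exact Or.inl h
        · exact Or.inr ⟨h, hv⟩
    have a6 : ζ * L / 10 ^ 6 / (L / 10 ^ 4 / 2) = ζ / 50 := by field_simp; ring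
    rw [a6] at a1
    have a7 := mul_le_mul_of_nonneg_left a3 (show 0 ≤ 12 * (ζ / 50) by positivity)
    have a8 : 12 * L ≤ ζ * Fintype.card V := by
      rw [pow_one, one_mul, ← hV, div_mul_eq_mul_div, div_le_iff₀ hζ0] at hL1
      linarith
    have a9 : 0 ≤ ζ * Fintype.card V := by positivity
    linarith

/-- Cover the leftover `Z` into the reservoir.  `cover_it` and `Ach.exists` with `H t`: `b t` and
for some `k`, `Z (ed k t)` and the other lines are in `X` and not covered by `τ`;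
`v = γ ^ 2 L / 20`; for `X e` map a triple of `H` on `e` to its line in `Z` (`eq_of_on`). -/
theorem coverdown {V : Type} [Fintype V] [DecidableEq V] {J : Type} [Fintype J] {γ L ζ₁ σ : ℝ}
    (X Z : Ln V → Prop) (b : Tr V → Bool) (τ : Finset (Tr V)) (T : J → Ln V → Prop)
    (hζ0 : 0 ≤ ζ₁) (hζ : ζ₁ ≤ 1) (hL : 40 ≤ γ ^ 2 * L) (hτ : VD τ)
    (hZ : ∀ e, Z e → ¬ X e ∧ ¬ Bad γ L X b e)
    (hload : ∀ e, X e → ct (fun e' => Z e' ∧ ∃ t, ed e.1 t = e ∧ ed e'.1 t = e' ∧ b t = true) ≤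
      ζ₁ * γ ^ 2 * L / 1000)
    (hJ : Fintype.card J * exp (-σ) < 1) :
    ∃ F : Finset (Tr V), PL F ∧ (∀ t ∈ F, b t = true) ∧
      (∀ e, Cv F e → Z e ∨ (X e ∧ ¬ Cv τ e)) ∧ (∀ e, Z e → Cv F e) ∧
      ∀ j, ct (fun e => T j e ∧ X e ∧ Cv F e) ≤ ζ₁ * ct (T j) + 3 * σ := by
  have hv : 0 < γ ^ 2 * L := by linarith
  have hz : ζ₁ * (γ ^ 2 * L) ≤ γ ^ 2 * L := by nlinarith
  have hz0 : 0 ≤ ζ₁ * (γ ^ 2 * L) := by positivity
  have key := cover_it Z
    (fun t => b t = true ∧ ∃ k, Z (ed k t) ∧ ∀ k', k' ≠ k → X (ed k' t) ∧ ¬ Cv τ (ed k' t))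
    (v := γ ^ 2 * L / 20) (Δ := ζ₁ * γ ^ 2 * L / 1000) σ (by positivity)
    (by rw [mul_assoc]; positivity)
    (by
      rintro t ⟨-, k, h3, h4⟩
      exact ⟨k, h3, fun k' hk' h => (hZ _ h).1 (h4 k' hk').1⟩)
    (by
      intro e he
      have h0 : γ ^ 2 * L / 10 ≤ dg (fun t => b t = true ∧ ∀ k, k ≠ e.1 → X (ed k t)) e :=
        not_lt.1 fun h => (hZ e he).2 ⟨(hZ e he).1, h⟩
      have h4 := hτ.rayLe.dg_le e
      have h5 := ct_le_add
        (X := fun t => ed e.1 t = e ∧ (b t = true ∧ ∀ k, k ≠ e.1 → X (ed k t)))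
        (Y := fun t => ed e.1 t = e ∧ (b t = true ∧ ∃ k, Z (ed k t) ∧
          ∀ k', k' ≠ k → X (ed k' t) ∧ ¬ Cv τ (ed k' t)))
        (Z := fun t => ed e.1 t = e ∧ ∃ k, k ≠ e.1 ∧ Cv τ (ed k t)) (by
          rintro t ⟨ht, hb, hx⟩
          by_cases c4 : ∃ k, k ≠ e.1 ∧ Cv τ (ed k t)
          · exact Or.inr ⟨ht, c4⟩
          · exact Or.inl ⟨ht, hb, e.1, ht.symm ▸ he, fun k hk => ⟨hx k hk, fun h => c4 ⟨k, hk, h⟩⟩⟩)
      unfold dg at h0 h4 ⊢
      linarith)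
    (by
      intro e he
      by_cases hx : X e
      · refine le_trans ?_ (hload e hx)
        have ex : ∀ t : Tr V, (ed e.1 t = e ∧ b t = true ∧ ∃ k, Z (ed k t) ∧
            ∀ k', k' ≠ k → X (ed k' t) ∧ ¬ Cv τ (ed k' t)) → ∃ k, Z (ed k t) :=
          fun t h => let ⟨k, hk, _⟩ := h.2.2; ⟨k, hk⟩
        choose! g hg using ex
        refine ct_le_of_inj (fun t => ed (g t) t) (fun t ht => ⟨hg t ht, t, ht.1, rfl, ht.2.1⟩)
          fun t t' ht ht' h => ?_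
        refine eq_of_on (e := e) (e' := ed (g t) t) (fun h' => he (h' ▸ hg t ht)) ht.1 rfl ht'.1 ?_
        rw [h]; rfl
      · rw [dg, ct_false]
        · rw [mul_assoc]; positivity
        · rintro t ⟨ht, -, k, h3, h4⟩
          by_cases hk : e.1 = k
          · exact he (by rw [← ht, hk]; exact h3)
          · exact hx (ht ▸ (h4 _ hk).1))
    (by rw [mul_assoc ζ₁]; linarith)
    (fun j e => T j e ∧ X e) (fun _ e h h' => (hZ e h').1 h.2)
  obtain ⟨F, h1, h2, h3, h4⟩ := key.exists hJ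
  refine ⟨F, h1, fun t ht => (h2 t ht).1, ?_, h3, fun j => ?_⟩
  · rintro e ⟨t, ht, he⟩
    obtain ⟨-, k, h5, h6⟩ := h2 t ht
    by_cases hk : e.1 = k
    · exact Or.inl (by rw [← he, hk]; exact h5)
    · exact Or.inr (he ▸ h6 _ hk)
  · have a1 := h4 j
    have a6 : ζ₁ * γ ^ 2 * L / 1000 / (γ ^ 2 * L / 20) = ζ₁ / 50 := by
      rw [mul_assoc, div_eq_iff (by positivity)]; ring
    rw [a6] at a1
    have a3 : ct (fun e => T j e ∧ X e) ≤ ct (T j) := ct_mono fun _ h => h.1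
    have a7 := mul_le_mul_of_nonneg_left a3 (show 0 ≤ 12 * (ζ₁ / 50) by positivity)
    have a8 : 0 ≤ ζ₁ * ct (T j) := mul_nonneg hζ0 (ct_nonneg _)
    rw [ct_congr (Y := fun e => (T j e ∧ X e) ∧ Cv F e) fun e => and_assoc.symm]
    linarith

end Pool.Agent.MP_46aeaf_co.HT

/-! The first stage. -/

namespace Pool.Agent.MP_46aeaf_co.HT

open Finset Pool.Agent.MP_81e6aa_pr Real Filter

/-- lines that are still to be covered after the bad lines -/
def stage1_free {V : Type} (X A : Ln V → Prop) (τ F₀ : Finset (Tr V)) (e : Ln V) : Prop :=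
  ¬ X e ∧ ¬ A e ∧ ¬ Cv τ e ∧ ¬ Cv F₀ e

/-- the free lines on a sampled triple with the reservoir line `e` -/
def stage1_test {V : Type} (X A : Ln V → Prop) (τ F₀ : Finset (Tr V)) (b : Tr V → Bool)
    (e e' : Ln V) : Prop :=
  X e ∧ stage1_free X A τ F₀ e' ∧ ∃ t, ed e.1 t = e ∧ ed e'.1 t = e' ∧ b t = true

lemma stage1_test_le {V : Type} [Fintype V] (X A : Ln V → Prop) (τ F₀ : Finset (Tr V))
    (b : Tr V → Bool) {m : ℝ} (h : ∀ e, dg (fun t => b t = true) e ≤ m) (e : Ln V) :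
    ct (stage1_test X A τ F₀ b e) ≤ 3 * m := by
  have h1 : ct (stage1_test X A τ F₀ b e) ≤
      ct (fun e' : Ln V => ∃ k : Fin 3, ∃ t, (ed e.1 t = e ∧ b t = true) ∧ ed k t = e') :=
    ct_mono fun e' ⟨_, _, t, h1, h2, h3⟩ => ⟨e'.1, t, ⟨h1, h3⟩, h2⟩
  refine h1.trans ((ct_exists_le _).trans ?_)
  have h2 : ∀ k : Fin 3,
      ct (fun e' : Ln V => ∃ t, (ed e.1 t = e ∧ b t = true) ∧ ed k t = e') ≤ m := fun k =>
    (ct_le_of_surj (ed k) fun _ h => h).trans (h e)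
  refine (sum_le_sum fun k _ => h2 k).trans (le_of_eq ?_)
  simp

lemma stage1_deg {V : Type} [Fintype V] {γ ζ : ℝ} {X A : Ln V → Prop} {τ F₀ : Finset (Tr V)}
    (hX : XIn γ ζ X) (hA : RayLe A (ζ * Fintype.card V)) (hτ : VD τ)
    (hF : RayLe (Cv F₀) (2 * ζ * Fintype.card V)) {e : Ln V} (he : stage1_free X A τ F₀ e) :
    (1 - γ) ^ 2 * Fintype.card V - 7 * (ζ * Fintype.card V) - 2 ≤
      dg (fun t => ∀ k, stage1_free X A τ F₀ (ed k t)) e := by
  have h1 := (abs_le.1 (hX.x2 e)).1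
  have h2 := ((hA.or hτ.rayLe).or hF).dg_le e
  have h3 : dg (fun t => ∀ k, k ≠ e.1 → ¬ X (ed k t)) e ≤
      dg (fun t => ∀ k, stage1_free X A τ F₀ (ed k t)) e +
      dg (fun t => ∃ k, k ≠ e.1 ∧ ((A (ed k t) ∨ Cv τ (ed k t)) ∨ Cv F₀ (ed k t))) e := by
    refine ct_le_add ?_
    rintro t ⟨ht, hx⟩
    by_cases hc : ∃ k, k ≠ e.1 ∧ ((A (ed k t) ∨ Cv τ (ed k t)) ∨ Cv F₀ (ed k t))
    · exact Or.inr ⟨ht, hc⟩
    · refine Or.inl ⟨ht, fun k => ?_⟩
      by_cases hk : k = e.1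
      · rw [hk, ht]; exact he
      · exact ⟨hx k hk, fun h => hc ⟨k, hk, Or.inl (Or.inl h)⟩,
          fun h => hc ⟨k, hk, Or.inl (Or.inr h)⟩, fun h => hc ⟨k, hk, Or.inr h⟩⟩
  linarith

lemma stage1_det {V : Type} [Fintype V] [DecidableEq V] {J : Type} [Fintype J] {γ L ζ₁ : ℝ}
    (X A : Ln V → Prop) (a b : Tr V → Bool) (τ F₀ M : Finset (Tr V)) (T : J → Ln V → Prop)
    (hζ0 : 0 ≤ ζ₁) (hζ : ζ₁ ≤ 1) (hL : 40 ≤ γ ^ 2 * L) (hτ : VD τ) (hAX : ∀ e, A e → ¬ X e)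
    (hJ : Fintype.card J * exp (-(4 * L)) < 1)
    (f1 : PL F₀) (f2 : ∀ t ∈ F₀, b t = true) (f3 : ∀ e, Cv F₀ e → ¬ X e ∧ ¬ A e ∧ ¬ Cv τ e)
    (f4 : ∀ e, Bad γ L X b e → ¬ A e → ¬ Cv τ e → Cv F₀ e)
    (m1 : ∀ t ∈ M, a t = true ∧ ∀ k, stage1_free X A τ F₀ (ed k t)) (m2 : PL M)
    (m3 : ∀ e, ct (fun e' => stage1_test X A τ F₀ b e e' ∧ ¬ Cv M e') ≤ ζ₁ * γ ^ 2 * L / 1000) :
    ∃ F, S1 ζ₁ (12 * L) X A τ T a b F := by
  have hM : ∀ e, Cv M e → stage1_free X A τ F₀ e := by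
    rintro e ⟨t, ht, he⟩
    rw [← he]; exact (m1 t ht).2 _
  obtain ⟨F₃, g1, g2, g3, g4, g5⟩ := coverdown (σ := 4 * L) X
    (fun e => stage1_free X A τ F₀ e ∧ ¬ Cv M e) b τ T hζ0 hζ hL hτ
    (fun e he => ⟨he.1.1, fun hb => he.1.2.2.2 (f4 e hb he.1.2.1 he.1.2.2.1)⟩)
    (fun e he => (ct_mono fun e' h => ⟨⟨he, h.1.1, h.2⟩, h.1.2⟩).trans (m3 e)) hJ
  refine ⟨F₀ ∪ M ∪ F₃, (f1.union m2 fun e h h' => (hM e h').2.2.2 h).union g1 fun e h h' => ?_,
    fun t ht => ?_, fun e he => ?_, fun e h1 h2 h3 => ?_, fun j => ?_⟩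
  · rcases cv_union.1 h with h | h <;> rcases g3 e h' with h' | h'
    · exact h'.1.2.2.2 h
    · exact (f3 e h).1 h'.1
    · exact h'.2 h
    · exact (hM e h).1 h'.1
  · rcases mem_union.1 ht with ht | ht
    · rcases mem_union.1 ht with ht | ht
      · exact Or.inr (f2 t ht)
      · exact Or.inl (m1 t ht).1
    · exact Or.inr (g2 t ht)
  · rcases cv_union.1 he with h | h
    · rcases cv_union.1 h with h | h
      · exact (f3 e h).2
      · exact ⟨(hM e h).2.1, (hM e h).2.2.1⟩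
    · rcases g3 e h with h | h
      · exact ⟨h.1.2.1, h.1.2.2.1⟩
      · exact ⟨fun hA => hAX e hA h.1, h.2⟩
  · by_cases c0 : Cv F₀ e
    · exact cv_union.2 (Or.inl (cv_union.2 (Or.inl c0)))
    · by_cases c1 : Cv M e
      · exact cv_union.2 (Or.inl (cv_union.2 (Or.inr c1)))
      · exact cv_union.2 (Or.inr (g4 e ⟨⟨h1, h2, h3, c0⟩, c1⟩))
  · refine (ct_mono ?_).trans ((g5 j).trans (le_of_eq (by ring)))
    rintro e ⟨h1, h2, h3⟩
    refine ⟨h1, h2, ?_⟩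
    rcases cv_union.1 h3 with h | h
    · rcases cv_union.1 h with h | h
      · exact absurd h2 (f3 e h).1
      · exact absurd h2 (hM e h).1
    · exact h

lemma stage1_num {K c η L n D : ℝ} (hK : 1 ≤ K) (hc : 0 < c) (hη : 0 < η) (hL : 0 < L)
    (hn : n = exp L) (hD : n / 2 ≤ D) (h1 : 8 / c * L ≤ exp L) (h2 : 6 * K ≤ exp L) :
    K * (3 * n ^ 2 * exp (-(c * D)) + 3 * n ^ 2 * exp (-(max 1 (12 / η) * (η * L / 3)))) ≤
      exp (-L) := by
  have a1 : 4 * L ≤ c * D := by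
    have : c * (8 / c * L) = 8 * L := by field_simp
    have h3 : c * (8 / c * L) ≤ c * n := by rw [hn]; exact mul_le_mul_of_nonneg_left h1 hc.le
    have h4 : c * (n / 2) ≤ c * D := mul_le_mul_of_nonneg_left hD hc.le
    linarith
  have a2 : 4 * L ≤ max 1 (12 / η) * (η * L / 3) := by
    have : 12 / η * (η * L / 3) = 4 * L := by field_simp; ring
    rw [← this]
    exact mul_le_mul_of_nonneg_right (le_max_right _ _) (by positivity)
  have b1 : exp (-(c * D)) ≤ exp (-(4 * L)) := exp_le_exp.2 (by linarith)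
  have b2 : exp (-(max 1 (12 / η) * (η * L / 3))) ≤ exp (-(4 * L)) := exp_le_exp.2 (by linarith)
  have e1 : exp L * (n ^ 2 * exp (-(4 * L))) = exp (-L) := by
    rw [hn, sq, ← exp_add, ← exp_add, ← exp_add]; congr 1; ring
  have hn2 : 0 ≤ n ^ 2 := sq_nonneg _
  calc _ ≤ K * (3 * n ^ 2 * exp (-(4 * L)) + 3 * n ^ 2 * exp (-(4 * L))) := by gcongr
    _ = 6 * K * (n ^ 2 * exp (-(4 * L))) := by ring
    _ ≤ exp L * (n ^ 2 * exp (-(4 * L))) := by gcongr
    _ = _ := e1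

/-- Let `η = ζ₁ γ ^ 2 / 1000`; `K`, `c` from `nibble` with `ε = η / 60`, `s = max 1 (12 / η)`;
`ζ = min (η / (1200 K)) (γ / 2)`.  Take `F₀` from `precover`, `free e = ¬ X e ∧ ¬ A e ∧ ¬ Cv τ e ∧
¬ Cv F₀ e`, `H t = ∀ k, free (ed k t)`, `D = ((1 - γ) ^ 2 + ζ) n ≥ n / 2`; a free line has degree at
least `(1 - γ) ^ 2 n - ζ n - 2 ζ n - 2 - 4 ζ n` (`x2`, `RayLe.dg_le`), so deficiency at most `20 ζ`.
Tests indexed by lines `e`: the free lines `e' ≠ e` that lie on a `b`-triple with `e` (at most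
`20 L` by `p1`; the empty test unless `X e`), slack `η L / 3`.  Then `coverdown` with
`Z = free ∧ ¬ Cv M`, and `F = F₀ ∪ M ∪ F₃`. -/
theorem stage1 {γ ζ₁ : ℝ} (hγ0 : 0 < γ) (hγ : γ ≤ 1 / 10) (hζ0 : 0 < ζ₁) (hζ : ζ₁ ≤ 1) :
    ∃ ζ : ℝ, 0 < ζ ∧ ζ ≤ γ / 2 ∧ ∀ᶠ L : ℝ in atTop, ∀ (V : Type) [Fintype V] [DecidableEq V]
      (J : Type) [Fintype J] (X A : Ln V → Prop) (b : Tr V → Bool) (τ : Finset (Tr V))
      (T : J → Ln V → Prop), (Fintype.card V : ℝ) = exp L → (Fintype.card J : ℝ) ≤ exp (3 * L) →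
      XIn γ ζ X → RayLe A (ζ * Fintype.card V) → (∀ e, A e → ¬ X e) → PreB γ ζ L X A b →
      RS b L τ →
      Ex (fun _ : Tr V => bern (1 / 1000 * L / Fintype.card V))
        (fun a => ind (¬ ∃ F, S1 ζ₁ (12 * L) X A τ T a b F)) ≤ exp (-L) := by
  obtain ⟨η, hηd⟩ : ∃ η : ℝ, η = ζ₁ * γ ^ 2 / 1000 := ⟨_, rfl⟩
  have hη : 0 < η := by rw [hηd]; positivity
  obtain ⟨K, c, hK, hc, hnib⟩ := nibble (ε := η / 90) (s := max 1 (12 / η)) (by positivity)
    (le_max_left _ _)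
  have hK0 : 0 < K := by linarith
  obtain ⟨ζ, hζd⟩ : ∃ ζ : ℝ, ζ = min (η / (1800 * K)) (γ / 2) := ⟨_, rfl⟩
  have z0 : 0 < ζ := by rw [hζd]; positivity
  have z1 : ζ ≤ γ / 2 := by rw [hζd]; exact min_le_right _ _
  have z2 : K * ζ ≤ η / 1800 := by
    have : ζ ≤ η / (1800 * K) := by rw [hζd]; exact min_le_left _ _
    rw [le_div_iff₀ (by positivity)] at this
    linarith
  refine ⟨ζ, z0, z1, ?_⟩
  filter_upwards [precover (γ := γ) z0 (by linarith), eventually_gt_atTop 0,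
    eventually_ge_atTop (2000 * K), eventually_ge_atTop (40 / γ ^ 2),
    ev_pow (8 / c) 1 one_pos, ev_pow (6 * K) 0 one_pos, ev_pow (2 / ζ) 0 one_pos,
    ev_pow 1 1 one_pos] with L hpre L0 L1 L2 L3 L4 L5 L6
  intro V _ _ J _ X A b τ T hV hJ hX hA hAX hB hτ
  simp only [pow_one, pow_zero, one_mul, mul_one] at L3 L4 L5 L6
  obtain ⟨F₀, f1, f2, f3, f4, f5⟩ := hpre V X A b τ hV hB hτ
  have n0 : (0 : ℝ) < Fintype.card V := by rw [hV]; exact exp_pos _
  obtain ⟨D, hDd⟩ : ∃ D : ℝ, D = (1 - γ) ^ 2 * Fintype.card V + ζ * Fintype.card V := ⟨_, rfl⟩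
  have hD : (Fintype.card V : ℝ) / 2 ≤ D := by
    have h1 : 1 / 2 ≤ (1 - γ) ^ 2 := by nlinarith
    have h2 := mul_le_mul_of_nonneg_right h1 n0.le
    have h3 := mul_pos z0 n0
    linarith
  have D0 : 0 < D := by linarith
  have p1 : 1 / 1000 * L / Fintype.card V ≤ 1 := by
    rw [div_le_one n0, hV]; linarith
  have p0 : 0 ≤ 1 / 1000 * L / Fintype.card V := by positivity
  have hζn : 2 ≤ ζ * Fintype.card V := by
    rw [div_le_iff₀ z0] at L5
    rw [hV]; linarith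
  have key := hnib V (Ln V) (fun t => ∀ k, stage1_free X A τ F₀ (ed k t))
    (stage1_test X A τ F₀ b) D (1 / 1000 * L / Fintype.card V) (η * L / 3)
    (by rw [← hV] at L4; linarith)
    (fun e => by
      have h1 := (abs_le.1 (hX.x2 e)).2
      have h2 : dg (fun t => ∀ k, stage1_free X A τ F₀ (ed k t)) e ≤
          dg (fun t => ∀ k, k ≠ e.1 → ¬ X (ed k t)) e := dg_mono fun t _ h k _ => (h k).1
      linarith)
    (by
      rw [div_le_div_iff₀ D0 n0]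
      have h1 : 2 * K * ((Fintype.card V : ℝ) / 2) ≤ 1 / 1000 * L * D :=
        mul_le_mul (by linarith) hD (by positivity) (by positivity)
      linarith)
    p1
  rw [card_Ln] at key
  refine le_trans ?_ (key.trans (stage1_num hK hc hη L0 hV hD L3 L4))
  refine Ex_mono (isP_bern (fun _ => p0) fun _ => p1).nonneg fun a => ind_mono fun h h' => h ?_
  obtain ⟨M, m1, m2, m3⟩ := h'
  refine stage1_det (γ := γ) X A a b τ F₀ M T hζ0.le hζ ?_ hτ.1 hAX ?_ f1 f2 f3 f4 m1 m2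
    fun e => (m3 e).trans ?_
  · rw [div_le_iff₀ (by positivity)] at L2
    linarith
  · calc _ ≤ exp (3 * L) * exp (-(4 * L)) := mul_le_mul_of_nonneg_right hJ (exp_pos _).le
      _ = exp (-L) := by rw [← exp_add]; congr 1; ring
      _ < 1 := exp_lt_one_iff.2 (by linarith)
  · have t1 := stage1_test_le X A τ F₀ b hB.p1 e
    have t2 : dfc (fun t => ∀ k, stage1_free X A τ F₀ (ed k t)) D (stage1_test X A τ F₀ b e) ≤
        ct (stage1_test X A τ F₀ b e) * (20 * ζ) := by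
      refine sum_ind_mul_le fun e' he' => ?_
      have h1 := stage1_deg hX hA hτ.1 f5 he'.2.1
      have h2 : 20 * ζ * ((Fintype.card V : ℝ) / 2) ≤ 20 * ζ * D :=
        mul_le_mul_of_nonneg_left hD (by positivity)
      rw [sub_le_comm, le_div_iff₀ D0]
      linarith
    have t3 : ct (stage1_test X A τ F₀ b e) * (20 * ζ) ≤ 3 * (10 * L) * (20 * ζ) :=
      mul_le_mul_of_nonneg_right t1 (by positivity)
    have t4 := mul_le_mul_of_nonneg_left (t2.trans t3) hK0.le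
    have t5 := mul_le_mul_of_nonneg_left t1 (show 0 ≤ η / 90 by positivity)
    have t6 := mul_le_mul_of_nonneg_right z2 L0.le
    have t7 : ζ₁ * γ ^ 2 * L / 1000 = η * L := by rw [hηd]; ring
    rw [t7]
    linarith

end Pool.Agent.MP_46aeaf_co.HT

end
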