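import Pool.Agent.MP_81e6aa_pr.Ex
import Mathlib

-- part MP_46aeaf_co.Core
section

set_option autoImplicit false

/-! Expansion of small edge sets. -/

namespace Pool.Agent.MP_46aeaf_co

open Finset Pool.Agent.MP_81e6aa_pr

variable {V : Type} [Fintype V]

/-- number of points of a predicate -/
noncomputable def ct (X : V → Prop) : ℝ := ∑ c, ind (X c)

/-- number of pairs of a relation -/
noncomputable def cn (A : V → V → Prop) : ℝ := ∑ a, ct (A a)

lemma ct_nonneg (X : V → Prop) : 0 ≤ ct X := sum_nonneg fun _ _ => ind_nonneg _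
lemma cn_nonneg (A : V → V → Prop) : 0 ≤ cn A := sum_nonneg fun _ _ => ct_nonneg _
lemma ct_mono {X Y : V → Prop} (h : ∀ c, X c → Y c) : ct X ≤ ct Y :=
  sum_le_sum fun c _ => ind_mono (h c)
lemma cn_swap (A : V → V → Prop) : cn (fun a b => A b a) = cn A := by
  unfold cn ct; exact sum_comm

def P3a (Δ d : ℝ) (T : V → V → V → Prop) : Prop :=
  ∀ A Bg Bh : V → V → Prop, 0 < cn A → cn Bg + cn Bh ≤ 2000 * cn A →
    ∑ a, ∑ b, ∑ c, ind (A a b ∧ T a b c ∧
      ((Bg a c ∧ ct (Bg a) < Δ) ∨ (Bh b c ∧ ct (Bh b) < Δ))) < d * cn A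

def P3b (Δ d : ℝ) (T : V → V → V → Prop) : Prop :=
  ∀ (a : V) (X Y : V → Prop), Δ ≤ 4000 * ct X → ct Y ≤ 4000 * ct X →
    ct X + ct Y ≤ Fintype.card V → d * ct X ≤ ∑ b, ∑ c, ind (X b ∧ ¬ Y c ∧ T a b c)

lemma sum_ind_and (P : Prop) (X : V → Prop) : ∑ c, ind (P ∧ X c) = ind P * ct X := by
  simp only [ind_and]; rw [← mul_sum]; rfl

lemma side {Δ d : ℝ} {T₁ T₂ : V → V → V → Prop} (A B B' R R' : V → V → Prop)
    (h12 : ∀ a b c, T₁ a b c → T₂ a b c)
    (hcov : ∀ a b c, A a b → T₁ a b c → R a c ∨ R' b c ∨ B a c ∨ B' b c)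
    (hR : ∀ a, ct (R a) ≤ 1) (hR' : ∀ b, ct (R' b) ≤ 1)
    (hsh : ∀ a, ct (A a) + ct (B a) ≤ Fintype.card V) (h3 : P3b Δ d T₁) :
    ∃ A' : V → V → Prop, (∀ a b, A' a b → A a b ∧ Δ ≤ ct (B a) ∧ ct (B' b) < Δ) ∧
      cn (fun a b => A a b ∧ Δ ≤ ct (B a) ∧ ct (B' b) < Δ) ≤ cn A' + cn B / 4000 ∧
      (d - 2) * cn A' ≤ ∑ a, ∑ b, ∑ c, ind (A' a b ∧ T₂ a b c ∧ B' b c) := by
  set X : V → V → Prop := fun a b => A a b ∧ ct (B' b) < Δ with hX
  refine ⟨fun a b => (Δ ≤ ct (B a) ∧ ct (B a) ≤ 4000 * ct (X a)) ∧ X a b,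
    fun a b h => ⟨h.2.1, h.1.1, h.2.2⟩, ?_, ?_⟩
  · unfold cn
    rw [sum_div, ← sum_add_distrib]
    refine sum_le_sum fun a _ => ?_
    have h0 := ct_nonneg (B a)
    by_cases h2 : ct (B a) ≤ 4000 * ct (X a)
    · have : ct (fun b => A a b ∧ Δ ≤ ct (B a) ∧ ct (B' b) < Δ) ≤
          ct (fun b => (Δ ≤ ct (B a) ∧ ct (B a) ≤ 4000 * ct (X a)) ∧ X a b) :=
        ct_mono fun b h => ⟨⟨h.2.1, h2⟩, h.1, h.2.2⟩
      linarith
    · have h4 : ct (fun b => A a b ∧ Δ ≤ ct (B a) ∧ ct (B' b) < Δ) ≤ ct (X a) :=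
        ct_mono fun b h => ⟨h.1, h.2.2⟩
      have h5 := ct_nonneg (fun b => (Δ ≤ ct (B a) ∧ ct (B a) ≤ 4000 * ct (X a)) ∧ X a b)
      linarith
  · unfold cn
    rw [mul_sum]
    refine sum_le_sum fun a _ => ?_
    by_cases hg : Δ ≤ ct (B a) ∧ ct (B a) ≤ 4000 * ct (X a)
    · have e1 : ct (fun b => (Δ ≤ ct (B a) ∧ ct (B a) ≤ 4000 * ct (X a)) ∧ X a b) = ct (X a) :=
        le_antisymm (ct_mono fun b h => h.2) (ct_mono fun b h => ⟨hg, h⟩)
      have h4 := h3 a (X a) (B a) (hg.1.trans hg.2) hg.2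
        (by have : ct (X a) ≤ ct (A a) := ct_mono fun b h => h.1
            linarith [hsh a])
      have h5 : ∀ b, ∑ c, ind (X a b ∧ ¬ B a c ∧ T₁ a b c) ≤ 2 * ind (X a b) +
          ∑ c, ind (((Δ ≤ ct (B a) ∧ ct (B a) ≤ 4000 * ct (X a)) ∧ X a b) ∧
            T₂ a b c ∧ B' b c) := by
        intro b
        have h6 : ∀ c, ind (X a b ∧ ¬ B a c ∧ T₁ a b c) ≤ ind (X a b ∧ R a c) +
            ind (X a b ∧ R' b c) + ind (((Δ ≤ ct (B a) ∧ ct (B a) ≤ 4000 * ct (X a)) ∧ X a b) ∧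
              T₂ a b c ∧ B' b c) := by
          intro c
          have i1 := ind_nonneg (X a b ∧ R a c)
          have i2 := ind_nonneg (X a b ∧ R' b c)
          have i3 := ind_nonneg (((Δ ≤ ct (B a) ∧ ct (B a) ≤ 4000 * ct (X a)) ∧ X a b) ∧
              T₂ a b c ∧ B' b c)
          refine ind_le (by linarith) fun h => ?_
          rcases hcov a b c h.1.1 h.2.2 with r | r | r | r
          · linarith [ind_pos (P := X a b ∧ R a c) ⟨h.1, r⟩]
          · linarith [ind_pos (P := X a b ∧ R' b c) ⟨h.1, r⟩]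
          · exact absurd r h.2.1
          · linarith [ind_pos (P := ((Δ ≤ ct (B a) ∧ ct (B a) ≤ 4000 * ct (X a)) ∧ X a b) ∧
              T₂ a b c ∧ B' b c) ⟨⟨hg, h.1⟩, h12 _ _ _ h.2.2, r⟩]
        have h7 := sum_le_sum fun c (_ : c ∈ univ) => h6 c
        rw [sum_add_distrib, sum_add_distrib, sum_ind_and (X a b) (R a),
          sum_ind_and (X a b) (R' b)] at h7
        have i0 := ind_nonneg (X a b)
        nlinarith [hR a, hR' b]
      have h8 := sum_le_sum fun b (_ : b ∈ univ) => h5 b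
      rw [sum_add_distrib, ← mul_sum] at h8
      have e2 : ∑ b, ind (X a b) = ct (X a) := rfl
      rw [e1]
      rw [e2] at h8
      linarith
    · have e1 : ct (fun b => (Δ ≤ ct (B a) ∧ ct (B a) ≤ 4000 * ct (X a)) ∧ X a b) = 0 :=
        sum_eq_zero fun b _ => ind_neg fun h => hg h.1
      rw [e1, mul_zero]
      exact sum_nonneg fun _ _ => sum_nonneg fun _ _ => ind_nonneg _

lemma heavy_le {Δ : ℝ} (B : V → V → Prop) : ct (fun a => Δ ≤ ct (B a)) * Δ ≤ cn B := by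
  unfold cn
  conv_lhs => unfold ct
  rw [sum_mul]
  refine sum_le_sum fun a _ => ?_
  by_cases h : Δ ≤ ∑ c, ind (B a c)
  · rw [ind_pos h, one_mul]; exact h
  · rw [ind_neg h, zero_mul]; exact ct_nonneg _

lemma ind_or3 {P Q R S : Prop} (h1 : ¬ (P ∧ Q)) (h2 : ¬ (P ∧ R)) (h3 : ¬ (Q ∧ R)) :
    ind ((P ∨ Q ∨ R) ∧ S) = ind (P ∧ S) + ind (Q ∧ S) + ind (R ∧ S) := by
  by_cases p : P <;> by_cases q : Q <;> by_cases r : R <;> by_cases s : S <;>
    simp_all [ind]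

theorem core {Δ d : ℝ} {T₁ T₂ : V → V → V → Prop} (A Bg Bh Rg Rh : V → V → Prop)
    (hΔ : 0 < Δ)
    (h12 : ∀ a b c, T₁ a b c → T₂ a b c)
    (hcov : ∀ a b c, A a b → T₁ a b c → Rg a c ∨ Rh b c ∨ Bg a c ∨ Bh b c)
    (hRg : ∀ a, ct (Rg a) ≤ 1) (hRh : ∀ b, ct (Rh b) ≤ 1)
    (hdeg : ∀ a b, A a b → d ≤ ct (T₁ a b))
    (hsh1 : ∀ a, ct (A a) + ct (Bg a) ≤ Fintype.card V)
    (hsh2 : ∀ b, ct (fun a => A a b) + ct (Bh b) ≤ Fintype.card V)
    (h3a : P3a Δ (d - 2) T₂) (h3b : P3b Δ d T₁) (h3b' : P3b Δ d fun a b c => T₁ b a c)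
    (hA : cn A ≤ Δ ^ 2 / 10 ^ 6) : 1000 * cn A ≤ cn Bg + cn Bh := by
  by_contra hc
  rw [not_le] at hc
  have g0 := cn_nonneg Bg
  have h0 := cn_nonneg Bh
  have hA0 : 0 < cn A := by linarith
  obtain ⟨A₁, a1, b1, c1⟩ := side (T₂ := T₂) A Bg Bh Rg Rh h12 hcov hRg hRh hsh1 h3b
  obtain ⟨A₂, a2, b2, c2⟩ := side (T₂ := fun a b c => T₂ b a c) (fun a b => A b a) Bh Bg Rh Rg
    (fun a b c h => h12 b a c h) (fun a b c h h' => by have := hcov b a c h h'; tauto)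
    hRh hRg hsh2 h3b'
  set A₀ : V → V → Prop := fun a b => A a b ∧ ct (Bg a) < Δ ∧ ct (Bh b) < Δ with hA₀
  have hor : ∀ a b (S : Prop), ind ((A₀ a b ∨ A₁ a b ∨ A₂ b a) ∧ S) =
      ind (A₀ a b ∧ S) + ind (A₁ a b ∧ S) + ind (A₂ b a ∧ S) := by
    intro a b S
    refine ind_or3 (fun h => ?_) (fun h => ?_) (fun h => ?_)
    · linarith [h.1.2.1, (a1 _ _ h.2).2.1]
    · linarith [h.1.2.2, (a2 _ _ h.2).2.1]
    · linarith [(a1 _ _ h.1).2.1, (a2 _ _ h.2).2.2]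
  have hcn : cn (fun a b => A₀ a b ∨ A₁ a b ∨ A₂ b a) = cn A₀ + cn A₁ + cn A₂ := by
    rw [← cn_swap A₂]
    unfold cn ct
    simp only [← sum_add_distrib]
    refine sum_congr rfl fun a _ => sum_congr rfl fun b _ => ?_
    simpa using hor a b True
  -- both ends heavy
  have hHH : cn (fun a b => Δ ≤ ct (Bg a) ∧ Δ ≤ ct (Bh b)) ≤ cn A / 4 := by
    have e : cn (fun a b => Δ ≤ ct (Bg a) ∧ Δ ≤ ct (Bh b)) =
        ct (fun a => Δ ≤ ct (Bg a)) * ct (fun b => Δ ≤ ct (Bh b)) := by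
      unfold cn
      conv_rhs => rw [ct, sum_mul]
      exact sum_congr rfl fun a _ => sum_ind_and _ _
    rw [e]
    have u1 := heavy_le (Δ := Δ) Bg
    have u2 := heavy_le (Δ := Δ) Bh
    have v1 := ct_nonneg (fun a => Δ ≤ ct (Bg a))
    have v2 := ct_nonneg (fun b => Δ ≤ ct (Bh b))
    set x := ct (fun a => Δ ≤ ct (Bg a))
    set y := ct (fun b => Δ ≤ ct (Bh b))
    have w1 : x * Δ * (y * Δ) ≤ cn Bg * cn Bh := mul_le_mul u1 u2 (by positivity) g0
    have w2 : cn Bg * cn Bh ≤ (500 * cn A) ^ 2 := by nlinarith [sq_nonneg (cn Bg - cn Bh)]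
    have w3 : (500 * cn A) ^ 2 ≤ cn A / 4 * Δ ^ 2 := by nlinarith
    have w4 : x * y * Δ ^ 2 ≤ cn A / 4 * Δ ^ 2 := by nlinarith
    exact le_of_mul_le_mul_right w4 (by positivity)
  have hsplit : cn A ≤ cn A₀ + cn (fun a b => A a b ∧ Δ ≤ ct (Bg a) ∧ ct (Bh b) < Δ) +
      cn (fun b a => A a b ∧ Δ ≤ ct (Bh b) ∧ ct (Bg a) < Δ) +
      cn (fun a b => Δ ≤ ct (Bg a) ∧ Δ ≤ ct (Bh b)) := by
    rw [← cn_swap (fun b a => A a b ∧ Δ ≤ ct (Bh b) ∧ ct (Bg a) < Δ)]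
    unfold cn
    simp only [← sum_add_distrib]
    refine sum_le_sum fun a _ => ?_
    conv => unfold ct
    simp only [← sum_add_distrib]
    refine sum_le_sum fun b _ => ?_
    change ind (A a b) ≤ ind (A a b ∧ ct (Bg a) < Δ ∧ ct (Bh b) < Δ) +
      ind (A a b ∧ Δ ≤ ct (Bg a) ∧ ct (Bh b) < Δ) + ind (A a b ∧ Δ ≤ ct (Bh b) ∧ ct (Bg a) < Δ) +
      ind (Δ ≤ ct (Bg a) ∧ Δ ≤ ct (Bh b))
    have i1 := ind_nonneg (A a b ∧ ct (Bg a) < Δ ∧ ct (Bh b) < Δ)
    have i2 := ind_nonneg (A a b ∧ Δ ≤ ct (Bg a) ∧ ct (Bh b) < Δ)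
    have i3 := ind_nonneg (A a b ∧ Δ ≤ ct (Bh b) ∧ ct (Bg a) < Δ)
    have i4 := ind_nonneg (Δ ≤ ct (Bg a) ∧ Δ ≤ ct (Bh b))
    refine ind_le (by linarith) fun h => ?_
    rcases lt_or_ge (ct (Bg a)) Δ with p | p <;> rcases lt_or_ge (ct (Bh b)) Δ with q | q
    · linarith [ind_pos (P := A a b ∧ ct (Bg a) < Δ ∧ ct (Bh b) < Δ) ⟨h, p, q⟩]
    · linarith [ind_pos (P := A a b ∧ Δ ≤ ct (Bh b) ∧ ct (Bg a) < Δ) ⟨h, q, p⟩]
    · linarith [ind_pos (P := A a b ∧ Δ ≤ ct (Bg a) ∧ ct (Bh b) < Δ) ⟨h, p, q⟩]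
    · linarith [ind_pos (P := Δ ≤ ct (Bg a) ∧ Δ ≤ ct (Bh b)) ⟨p, q⟩]
  have hhalf : cn A / 2 ≤ cn A₀ + cn A₁ + cn A₂ := by linarith
  have key := h3a (fun a b => A₀ a b ∨ A₁ a b ∨ A₂ b a) Bg Bh (by rw [hcn]; linarith)
    (by rw [hcn]; linarith)
  rw [hcn] at key
  simp only [hor, sum_add_distrib] at key
  have k0 : (d - 2) * cn A₀ ≤ ∑ a, ∑ b, ∑ c, ind (A₀ a b ∧ T₂ a b c ∧
      ((Bg a c ∧ ct (Bg a) < Δ) ∨ (Bh b c ∧ ct (Bh b) < Δ))) := by
    unfold cn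
    rw [mul_sum]
    refine sum_le_sum fun a _ => ?_
    conv_lhs => unfold ct
    rw [mul_sum]
    refine sum_le_sum fun b _ => ?_
    by_cases h : A₀ a b
    · rw [ind_pos h, mul_one]
      have h6 : ∀ c, ind (T₁ a b c) ≤ ind (Rg a c) + ind (Rh b c) + ind (A₀ a b ∧ T₂ a b c ∧
          ((Bg a c ∧ ct (Bg a) < Δ) ∨ (Bh b c ∧ ct (Bh b) < Δ))) := by
        intro c
        have i1 := ind_nonneg (Rg a c)
        have i2 := ind_nonneg (Rh b c)
        have i3 := ind_nonneg (A₀ a b ∧ T₂ a b c ∧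
          ((Bg a c ∧ ct (Bg a) < Δ) ∨ (Bh b c ∧ ct (Bh b) < Δ)))
        refine ind_le (by linarith) fun t => ?_
        rcases hcov a b c h.1 t with r | r | r | r
        · linarith [ind_pos r]
        · linarith [ind_pos r]
        · linarith [ind_pos (P := A₀ a b ∧ T₂ a b c ∧
            ((Bg a c ∧ ct (Bg a) < Δ) ∨ (Bh b c ∧ ct (Bh b) < Δ)))
              ⟨h, h12 _ _ _ t, Or.inl ⟨r, h.2.1⟩⟩]
        · linarith [ind_pos (P := A₀ a b ∧ T₂ a b c ∧
            ((Bg a c ∧ ct (Bg a) < Δ) ∨ (Bh b c ∧ ct (Bh b) < Δ)))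
              ⟨h, h12 _ _ _ t, Or.inr ⟨r, h.2.2⟩⟩]
      have h7 := sum_le_sum fun c (_ : c ∈ univ) => h6 c
      rw [sum_add_distrib, sum_add_distrib] at h7
      have := hdeg a b h.1
      have := hRg a
      have := hRh b
      unfold ct at *
      linarith
    · rw [ind_neg h, mul_zero]
      exact sum_nonneg fun _ _ => ind_nonneg _
  have k1 : (d - 2) * cn A₁ ≤ ∑ a, ∑ b, ∑ c, ind (A₁ a b ∧ T₂ a b c ∧
      ((Bg a c ∧ ct (Bg a) < Δ) ∨ (Bh b c ∧ ct (Bh b) < Δ))) :=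
    c1.trans (sum_le_sum fun a _ => sum_le_sum fun b _ => sum_le_sum fun c _ =>
      ind_mono fun h => ⟨h.1, h.2.1, Or.inr ⟨h.2.2, (a1 _ _ h.1).2.2⟩⟩)
  have k2 : (d - 2) * cn A₂ ≤ ∑ a, ∑ b, ∑ c, ind (A₂ b a ∧ T₂ a b c ∧
      ((Bg a c ∧ ct (Bg a) < Δ) ∨ (Bh b c ∧ ct (Bh b) < Δ))) := by
    rw [sum_comm]
    exact c2.trans (sum_le_sum fun a _ => sum_le_sum fun b _ => sum_le_sum fun c _ =>
      ind_mono fun h => ⟨h.1, h.2.1, Or.inl ⟨h.2.2, (a2 _ _ h.1).2.2⟩⟩)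
  linarith

end Pool.Agent.MP_46aeaf_co

end

-- part MP_46aeaf_co.Cone
section

set_option autoImplicit false

/-! Minimal representatives modulo vertex potentials: shifts and the cone estimate. -/

namespace Pool.Agent.MP_46aeaf_co

open Finset Pool.Agent.MP_81e6aa_pr

variable {V : Type} [Fintype V]

/-- norm of a cochain outside `R` -/
noncomputable def Wt (R : V → V → Prop) (f : V → V → ℤ) : ℝ :=
  ∑ a, ∑ b, ind (¬ R a b) * |(f a b : ℝ)|

lemma Wt_swap (R : V → V → Prop) (f : V → V → ℤ) :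
    Wt (fun a b => R b a) (fun a b => f b a) = Wt R f := by
  unfold Wt; exact sum_comm

def MinG (Rf Rg Rh : V → V → Prop) (f g h : V → V → ℤ) : Prop :=
  ∀ α β γ : V → ℤ, Wt Rf f + Wt Rg g + Wt Rh h ≤
    Wt Rf (fun a b => f a b + α a + β b) + Wt Rg (fun a c => g a c - α a + γ c) +
      Wt Rh (fun b c => h b c - β b - γ c)

variable {Rf Rg Rh : V → V → Prop} {f g h : V → V → ℤ}

lemma MinG.swap12 (H : MinG Rf Rg Rh f g h) :
    MinG (fun a b => Rf b a) Rh Rg (fun a b => f b a) h g := by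
  intro α β γ
  have h1 := H β α (fun c => -γ c)
  have e1 : Wt (fun a b => Rf b a) (fun a b => f b a + α a + β b) =
      Wt Rf (fun a b => f a b + β a + α b) := by
    rw [← Wt_swap Rf]; congr 1; funext a b; ring
  have e2 : (fun a c => g a c - β a + -γ c) = fun b c => g b c - β b - γ c := by
    funext a c; ring
  have e3 : (fun b c => h b c - α b - -γ c) = fun a c => h a c - α a + γ c := by
    funext a c; ring
  rw [e2, e3] at h1
  rw [e1, Wt_swap Rf f]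
  linarith

lemma MinG.swap23 (H : MinG Rf Rg Rh f g h) :
    MinG Rg Rf (fun a b => Rh b a) g f (fun a b => h b a) := by
  intro α β γ
  have h1 := H (fun a => -α a) γ β
  have e1 : Wt (fun a b => Rh b a) (fun b c => h c b - β b - γ c) =
      Wt Rh (fun b c => h b c - γ b - β c) := by
    rw [← Wt_swap Rh]; congr 1; funext a b; ring
  have e2 : (fun a c => g a c - -α a + β c) = fun a b => g a b + α a + β b := by
    funext a c; ring
  have e3 : (fun a b => f a b + -α a + γ b) = fun a c => f a c - α a + γ c := by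
    funext a c; ring
  rw [e2, e3] at h1
  rw [e1, Wt_swap Rh h]
  linarith

lemma shift (H : MinG Rf Rg Rh f g h) (a₀ : V) :
    ct (fun b => ¬ Rf a₀ b ∧ f a₀ b < 0) + ct (fun c => ¬ Rg a₀ c ∧ 0 < g a₀ c) ≤
      Fintype.card V := by
  classical
  have h1 := H (fun a => if a = a₀ then 1 else 0) (fun _ => 0) (fun _ => 0)
  have e3 : (fun b c => h b c - 0 - 0) = h := by funext b c; ring
  rw [e3] at h1
  have e1 : Wt Rf (fun a b => f a b + (if a = a₀ then 1 else 0) + 0) - Wt Rf f ≤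
      Fintype.card V - 2 * ct (fun b => ¬ Rf a₀ b ∧ f a₀ b < 0) := by
    unfold Wt
    rw [← sum_sub_distrib, sum_eq_single a₀ (fun a _ ha => by simp [ha]) (by simp),
      ← sum_sub_distrib, ct, mul_sum]
    have : (Fintype.card V : ℝ) = ∑ _b : V, (1 : ℝ) := by simp
    rw [this, ← sum_sub_distrib]
    refine sum_le_sum fun b _ => ?_
    simp only [if_true, add_zero]
    push_cast
    by_cases r : Rf a₀ b
    · rw [ind_neg (not_not.2 r), ind_neg (fun h => h.1 r)]; norm_num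
    · rw [ind_pos r]
      by_cases q : f a₀ b < 0
      · rw [ind_pos ⟨r, q⟩]
        have q' : (f a₀ b : ℝ) ≤ -1 := by exact_mod_cast (show f a₀ b ≤ -1 by omega)
        rw [abs_of_nonpos (by linarith), abs_of_nonpos (by linarith)]; linarith
      · rw [ind_neg (fun h => q h.2)]
        linarith [abs_add_le (f a₀ b : ℝ) 1, abs_one (α := ℝ)]
  have e2 : Wt Rg (fun a c => g a c - (if a = a₀ then 1 else 0) + 0) - Wt Rg g ≤
      Fintype.card V - 2 * ct (fun c => ¬ Rg a₀ c ∧ 0 < g a₀ c) := by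
    unfold Wt
    rw [← sum_sub_distrib, sum_eq_single a₀ (fun a _ ha => by simp [ha]) (by simp),
      ← sum_sub_distrib, ct, mul_sum]
    have : (Fintype.card V : ℝ) = ∑ _b : V, (1 : ℝ) := by simp
    rw [this, ← sum_sub_distrib]
    refine sum_le_sum fun b _ => ?_
    simp only [if_true, add_zero]
    push_cast
    by_cases r : Rg a₀ b
    · rw [ind_neg (not_not.2 r), ind_neg (fun h => h.1 r)]; norm_num
    · rw [ind_pos r]
      by_cases q : 0 < g a₀ b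
      · rw [ind_pos ⟨r, q⟩]
        have q' : (1 : ℝ) ≤ g a₀ b := by exact_mod_cast (show 1 ≤ g a₀ b by omega)
        rw [abs_of_nonneg (by linarith), abs_of_nonneg (by linarith)]; linarith
      · rw [ind_neg (fun h => q h.2)]
        linarith [abs_sub (g a₀ b : ℝ) 1, abs_one (α := ℝ)]
  linarith

lemma Wt_le (R : V → V → Prop) (f : V → V → ℤ) (F : V → V → ℝ)
    (hF : ∀ a b, ¬ R a b → |(f a b : ℝ)| ≤ F a b) (h0 : ∀ a b, 0 ≤ F a b) :
    Wt R f ≤ ∑ a, ∑ b, F a b := by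
  refine sum_le_sum fun a _ => sum_le_sum fun b _ => ?_
  by_cases r : R a b
  · rw [ind_neg (not_not.2 r), zero_mul]; exact h0 a b
  · rw [ind_pos r, one_mul]; exact hF a b r

theorem cone [Nonempty V] (H : MinG Rf Rg Rh f g h) (f' g' h' : V → V → ℤ)
    (hf : ∀ a b, ¬ Rf a b → f a b = f' a b) (hg : ∀ a b, ¬ Rg a b → g a b = g' a b)
    (hh : ∀ a b, ¬ Rh a b → h a b = h' a b) :
    Fintype.card V * (Wt Rf f + Wt Rg g + Wt Rh h) ≤
      7 * ∑ a, ∑ b, ∑ c, |(f' a b : ℝ) + g' a c + h' b c| := by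
  set D : V → V → V → ℝ := fun a b c => (f' a b : ℝ) + g' a c + h' b c with hD
  set n : ℝ := (Fintype.card V : ℝ) with hn
  have hn0 : 0 < n := by rw [hn]; exact_mod_cast Fintype.card_pos
  set W := Wt Rf f + Wt Rg g + Wt Rh h with hW
  have h1 : ∀ a₀ b₀ c₀, W ≤
      (∑ a, ∑ b, |D a b c₀| + n * ∑ a, |D a b₀ c₀| + n * (n * |D a₀ b₀ c₀|) +
        n * ∑ b, |D a₀ b c₀|) +
      (∑ a, ∑ c, |D a b₀ c| + n * ∑ c, |D a₀ b₀ c|) + ∑ b, ∑ c, |D a₀ b c| := by
    intro a₀ b₀ c₀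
    refine (H (fun a => -f' a b₀ + f' a₀ b₀) (fun b => -f' a₀ b) (fun c => -g' a₀ c)).trans ?_
    refine add_le_add (add_le_add ?_ ?_) ?_
    · refine (Wt_le _ _ (fun a b => |D a b c₀| + |D a b₀ c₀| + |D a₀ b₀ c₀| + |D a₀ b c₀|)
        (fun a b r => ?_) (fun a b => by positivity)).trans (le_of_eq ?_)
      · rw [hf a b r]
        have : ((f' a b + (-f' a b₀ + f' a₀ b₀) + -f' a₀ b : ℤ) : ℝ) =
            D a b c₀ - D a b₀ c₀ + D a₀ b₀ c₀ - D a₀ b c₀ := by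
          simp only [hD]; push_cast; ring
        rw [this]
        linarith [abs_sub (D a b c₀ - D a b₀ c₀ + D a₀ b₀ c₀) (D a₀ b c₀),
          abs_add_le (D a b c₀ - D a b₀ c₀) (D a₀ b₀ c₀), abs_sub (D a b c₀) (D a b₀ c₀)]
      · simp only [sum_add_distrib, sum_const, card_univ, nsmul_eq_mul, ← hn, ← mul_sum]
    · refine (Wt_le _ _ (fun a c => |D a b₀ c| + |D a₀ b₀ c|)
        (fun a c r => ?_) (fun a b => by positivity)).trans (le_of_eq ?_)
      · rw [hg a c r]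
        have : ((g' a c - (-f' a b₀ + f' a₀ b₀) + -g' a₀ c : ℤ) : ℝ) =
            D a b₀ c - D a₀ b₀ c := by
          simp only [hD]; push_cast; ring
        rw [this]
        exact abs_sub _ _
      · simp only [sum_add_distrib, sum_const, card_univ, nsmul_eq_mul, ← hn]
    · refine Wt_le _ _ (fun b c => |D a₀ b c|) (fun b c r => ?_) (fun a b => by positivity)
      rw [hh b c r]
      have : ((h' b c - -f' a₀ b - -g' a₀ c : ℤ) : ℝ) = D a₀ b c := by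
        simp only [hD]; push_cast; ring
      rw [this]
  set S := ∑ a, ∑ b, ∑ c, |D a b c| with hS
  have s1 : ∑ c, ∑ a, ∑ b, |D a b c| = S := by
    rw [sum_comm]; exact sum_congr rfl fun a _ => sum_comm
  have s2 : ∑ b, ∑ c, ∑ a, |D a b c| = S := by
    rw [← s1, sum_comm]; exact sum_congr rfl fun a _ => sum_comm
  have s3 : ∑ a, ∑ c, ∑ b, |D a b c| = S := sum_congr rfl fun a _ => sum_comm
  have s4 : ∑ b, ∑ a, ∑ c, |D a b c| = S := sum_comm
  have h2 := sum_le_sum fun a₀ (_ : a₀ ∈ univ) => sum_le_sum fun b₀ (_ : b₀ ∈ univ) =>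
    sum_le_sum fun c₀ (_ : c₀ ∈ univ) => h1 a₀ b₀ c₀
  simp only [sum_add_distrib, sum_const, card_univ, nsmul_eq_mul, ← hn, ← mul_sum, s1, s2, s3, s4,
    ← hS] at h2
  have h3 : n * (n * (n * W)) ≤ n * (n * (7 * S)) := by linarith
  exact le_of_mul_le_mul_left (le_of_mul_le_mul_left h3 hn0) hn0

theorem expand {Δ d : ℝ} {T₁ T T₂ : V → V → V → Prop} (H : MinG Rf Rg Rh f g h) (hΔ : 0 < Δ)
    (h1 : ∀ a b c, T₁ a b c → T a b c) (h2 : ∀ a b c, T a b c → T₂ a b c)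
    (hval : ∀ a b c, T a b c → 0 ≤ f a b + g a c + h b c)
    (hRg : ∀ a, ct (Rg a) ≤ 1) (hRh : ∀ b, ct (Rh b) ≤ 1)
    (hdeg : ∀ a b, ¬ Rf a b → d ≤ ct (T₁ a b))
    (h3a : P3a Δ (d - 2) T₂) (h3b : P3b Δ d T₁) (h3b' : P3b Δ d fun a b c => T₁ b a c)
    {θ : ℤ} (hθ : 1 ≤ θ) (hA : cn (fun a b => ¬ Rf a b ∧ f a b ≤ -θ) ≤ Δ ^ 2 / 10 ^ 6) :
    1000 * cn (fun a b => ¬ Rf a b ∧ f a b ≤ -θ) ≤
      cn (fun a c => ¬ Rg a c ∧ θ ≤ 2 * g a c) + cn (fun b c => ¬ Rh b c ∧ θ ≤ 2 * h b c) := by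
  refine core (T₁ := T₁) (T₂ := T₂) _ _ _ Rg Rh hΔ (fun a b c t => h2 _ _ _ (h1 _ _ _ t))
    (fun a b c A t => ?_) hRg hRh (fun a b A => hdeg a b A.1) (fun a => ?_) (fun b => ?_)
    h3a h3b h3b' hA
  · have := hval a b c (h1 _ _ _ t)
    by_cases r : Rg a c
    · exact Or.inl r
    by_cases r' : Rh b c
    · exact Or.inr (Or.inl r')
    by_cases q : θ ≤ 2 * g a c
    · exact Or.inr (Or.inr (Or.inl ⟨r, q⟩))
    · exact Or.inr (Or.inr (Or.inr ⟨r', by have := A.2; omega⟩))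
  · refine le_trans (add_le_add (ct_mono fun b A => ?_) (ct_mono fun c A => ?_)) (shift H a)
    · exact ⟨A.1, by have := A.2; omega⟩
    · exact ⟨A.1, by have := A.2; omega⟩
  · refine le_trans (add_le_add (ct_mono fun a A => ?_) (ct_mono fun c A => ?_))
      (shift H.swap12 b)
    · exact ⟨A.1, by have := A.2; omega⟩
    · exact ⟨A.1, by have := A.2; omega⟩

end Pool.Agent.MP_46aeaf_co

end

-- part MP_46aeaf_co.Layer
section

set_option autoImplicit false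

/-! Layer-cake rounding of an integer cochain. -/

namespace Pool.Agent.MP_46aeaf_co

open Finset Pool.Agent.MP_81e6aa_pr

lemma lc_le (y : ℝ) (J : ℕ) : ∑ j ∈ Icc 1 J, ind ((j : ℝ) ≤ y) ≤ max y 0 := by
  have h : ∀ J : ℕ, ∑ j ∈ Icc 1 J, ind ((j : ℝ) ≤ y) ≤ J ∧
      ∑ j ∈ Icc 1 J, ind ((j : ℝ) ≤ y) ≤ max y 0 := by
    intro J
    induction J with
    | zero => simp
    | succ J ih =>
      rw [sum_Icc_succ_top (by omega)]
      have h1 := ind_le_one (((J + 1 : ℕ) : ℝ) ≤ y)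
      refine ⟨by push_cast at h1 ⊢; linarith [ih.1], ?_⟩
      by_cases h : ((J + 1 : ℕ) : ℝ) ≤ y
      · rw [ind_pos h]
        push_cast at h
        linarith [ih.1, le_max_left y 0]
      · rw [ind_neg h]; linarith [ih.2]
  exact (h J).2

lemma lc_ge (z : ℤ) (J : ℕ) (hz : z ≤ J) : (z : ℝ) ≤ ∑ j ∈ Icc 1 J, ind ((j : ℤ) ≤ z) := by
  have h : ∀ J : ℕ, ((min z J : ℤ) : ℝ) ≤ ∑ j ∈ Icc 1 J, ind ((j : ℤ) ≤ z) := by
    intro J
    induction J with
    | zero =>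
      simp
    | succ J ih =>
      rw [sum_Icc_succ_top (by omega)]
      by_cases h : ((J + 1 : ℕ) : ℤ) ≤ z
      · rw [ind_pos h]
        have : min z ((J + 1 : ℕ) : ℤ) ≤ min z J + 1 := by omega
        have h2 : ((min z ((J + 1 : ℕ) : ℤ) : ℤ) : ℝ) ≤ ((min z J : ℤ) : ℝ) + 1 := by
          exact_mod_cast this
        linarith
      · rw [ind_neg h]
        have : min z ((J + 1 : ℕ) : ℤ) = min z J := by omega
        rw [this]; linarith
  have := h J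
  rwa [min_eq_left hz] at this

open Classical in
/-- rounding at level `j`, clipped to `[-1000, 2000]` -/
noncomputable def rnd (j : ℤ) (r : Prop) (u : ℤ) : ℤ :=
  if r ∨ 499 * j ≤ 4 * u then 2000 else max (-1000) ((8 * u + j) / (2 * j))

lemma rnd_range (j : ℤ) (hj : 1 ≤ j) (r : Prop) (u : ℤ) :
    -1000 ≤ rnd j r u ∧ rnd j r u ≤ 2000 := by
  unfold rnd
  split_ifs with h
  · omega
  · push Not at h
    have h1 : (8 * u + j) / (2 * j) < 500 := by
      rw [Int.ediv_lt_iff_lt_mul (by omega)]; omega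
    omega

lemma rnd_good {j u : ℤ} (hj : 1 ≤ j) {r : Prop} (h1 : ¬ r) (h2 : ¬ 499 * j ≤ 4 * u) :
    ∃ φ : ℤ, rnd j r u = max (-1000) φ ∧ φ ≤ 499 ∧ φ * (2 * j) ≤ 8 * u + j ∧
      8 * u + j < (φ + 1) * (2 * j) := by
  refine ⟨(8 * u + j) / (2 * j), ?_, ?_, Int.ediv_mul_le _ (by omega),
    Int.lt_ediv_add_one_mul_self _ (by omega)⟩
  · unfold rnd; rw [if_neg (by tauto)]
  · have h1 : (8 * u + j) / (2 * j) < 500 := by
      rw [Int.ediv_lt_iff_lt_mul (by omega)]; omega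
    omega

lemma rnd_bad {j u : ℤ} {r : Prop} (h : r ∨ 499 * j ≤ 4 * u) : rnd j r u = 2000 := by
  unfold rnd; rw [if_pos h]

lemma rnd_neg {j u₀ u₁ u₂ : ℤ} (hj : 1 ≤ j) {r₀ r₁ r₂ : Prop} (h₀ : ¬ r₀) (h₁ : ¬ r₁) (h₂ : ¬ r₂)
    (g₀ : ¬ 499 * j ≤ 4 * u₀) (g₁ : ¬ 499 * j ≤ 4 * u₁) (g₂ : ¬ 499 * j ≤ 4 * u₂)
    (h : j ≤ -(u₀ + u₁ + u₂)) : rnd j r₀ u₀ + rnd j r₁ u₁ + rnd j r₂ u₂ ≤ -2 := by
  obtain ⟨a, ea, la, ma, -⟩ := rnd_good hj h₀ g₀
  obtain ⟨b, eb, lb, mb, -⟩ := rnd_good hj h₁ g₁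
  obtain ⟨c, ec, lc, mc, -⟩ := rnd_good hj h₂ g₂
  rw [ea, eb, ec]
  have : a + b + c ≤ -3 := by
    by_contra hc
    have h3 : -2 ≤ a + b + c := by omega
    nlinarith
  omega

lemma rnd_sound {j u₀ u₁ u₂ : ℤ} (hj : 1 ≤ j) {r₀ r₁ r₂ : Prop}
    (h : rnd j r₀ u₀ + rnd j r₁ u₁ + rnd j r₂ u₂ ≤ -2) :
    ¬ r₀ ∧ ¬ r₁ ∧ ¬ r₂ ∧ u₀ + u₁ + u₂ < 0 := by
  have R₀ := rnd_range j hj r₀ u₀
  have R₁ := rnd_range j hj r₁ u₁
  have R₂ := rnd_range j hj r₂ u₂
  have n₀ : ¬ (r₀ ∨ 499 * j ≤ 4 * u₀) := fun hh => by have := rnd_bad hh; omega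
  have n₁ : ¬ (r₁ ∨ 499 * j ≤ 4 * u₁) := fun hh => by have := rnd_bad hh; omega
  have n₂ : ¬ (r₂ ∨ 499 * j ≤ 4 * u₂) := fun hh => by have := rnd_bad hh; omega
  rw [not_or] at n₀ n₁ n₂
  refine ⟨n₀.1, n₁.1, n₂.1, ?_⟩
  obtain ⟨a, ea, -, -, ma⟩ := rnd_good hj n₀.1 n₀.2
  obtain ⟨b, eb, -, -, mb⟩ := rnd_good hj n₁.1 n₁.2
  obtain ⟨c, ec, -, -, mc⟩ := rnd_good hj n₂.1 n₂.2
  rw [ea, eb, ec] at h
  have h3 : a + b + c ≤ -2 := by omega
  nlinarith

lemma rnd_supp {j u : ℤ} (hj : 1 ≤ j) {r : Prop} (h : rnd j r u ≠ 0) : r ∨ j ≤ 8 * |u| := by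
  by_contra hc
  rw [not_or, not_le] at hc
  have h1 : 8 * u < j := by have := le_abs_self u; omega
  have h2 : -j < 8 * u := by have := neg_abs_le u; omega
  obtain ⟨a, ea, -, la, ma⟩ := rnd_good (u := u) hj hc.1 (by omega)
  have : a = 0 := by
    have h3 : a < 1 := by by_contra h3; nlinarith
    have h4 : -1 < a := by by_contra h4; nlinarith
    omega
  rw [ea, this] at h
  exact h (by norm_num)

theorem layer {Ω E : Type} [Fintype Ω] [Fintype E] (e0 e1 e2 : Ω → E) (n a₀ : ℝ) (hn : 0 < n)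
    (hsum : ∀ φ : E → ℝ, ∑ t, (φ (e0 t) + φ (e1 t) + φ (e2 t)) = n * ∑ e, φ e)
    (w : E → ℤ) (R : E → Prop)
    (hneg : ∑ e, w e < 0)
    (hcone : n * ∑ e, (|w e| : ℝ) ≤ 7 * ∑ t, |(w (e0 t) : ℝ) + w (e1 t) + w (e2 t)|)
    (hexp : ∀ θ : ℤ, 1 ≤ θ → ∑ e, ind (w e ≤ -θ) ≤ a₀ →
      500 * ∑ e, ind (w e ≤ -θ) ≤ ∑ e, ind (θ ≤ 2 * w e))
    (hR : 1000 * ∑ e, ind (R e) ≤ a₀) :
    ∃ ψ : E → ℤ, (∀ e, -1000 ≤ ψ e ∧ ψ e ≤ 2000) ∧
      n / 480 * (∑ e, ind (ψ e ≠ 0) + a₀) ≤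
        ∑ t, ind (ψ (e0 t) + ψ (e1 t) + ψ (e2 t) ≤ -2) ∧
      ∀ t, ψ (e0 t) + ψ (e1 t) + ψ (e2 t) ≤ -2 →
        ¬ R (e0 t) ∧ ¬ R (e1 t) ∧ ¬ R (e2 t) ∧ w (e0 t) + w (e1 t) + w (e2 t) < 0 := by
  classical
  have hR0 : 0 ≤ ∑ e, ind (R e) := sum_nonneg fun _ _ => ind_nonneg _
  have ha0 : 0 ≤ a₀ := by linarith
  set W : ℝ := ∑ e, (|w e| : ℝ) with hW
  have hnegR : ∑ e, (w e : ℝ) < 0 := by exact_mod_cast hneg
  have hW0 : 0 < W := by
    have : -∑ e, (w e : ℝ) ≤ W := by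
      rw [← sum_neg_distrib]; exact sum_le_sum fun e _ => neg_le_abs _
    linarith
  obtain ⟨M, hM⟩ : ∃ M : ℕ, ∀ e, -(M : ℤ) ≤ w e := by
    refine ⟨∑ e, (w e).natAbs, fun e => ?_⟩
    have : (w e).natAbs ≤ ∑ e, (w e).natAbs :=
      single_le_sum (f := fun e => (w e).natAbs) (fun _ _ => Nat.zero_le _) (mem_univ e)
    omega
  have hex : ∃ j : ℕ, ∑ e, ind (w e ≤ -((j : ℤ) + 1)) ≤ a₀ := by
    refine ⟨M, ?_⟩
    rw [sum_eq_zero fun e _ => ind_neg (by have := hM e; omega)]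
    exact ha0
  set J : ℕ := Nat.find hex with hJ
  have hJ1 : ∑ e, ind (w e ≤ -((J : ℤ) + 1)) ≤ a₀ := Nat.find_spec hex
  have hJ2 : 1 ≤ J → a₀ < ∑ e, ind (w e ≤ -(J : ℤ)) := by
    intro h
    have := Nat.find_min hex (m := J - 1) (by omega)
    rw [not_le] at this
    have e : ((J - 1 : ℕ) : ℤ) + 1 = J := by omega
    rwa [e] at this
  set u : E → ℤ := fun e => max (w e) (-(J : ℤ)) with hu
  have hwu : ∀ e, w e ≤ u e := fun e => le_max_left _ _
  have huw : ∀ e, (|u e| : ℝ) ≤ |(w e : ℝ)| := by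
    intro e
    have : |u e| ≤ |w e| := by
      simp only [hu]
      rcases abs_cases (w e) with h | h <;> rcases abs_cases (max (w e) (-(J : ℤ))) with h' | h' <;>
        omega
    exact_mod_cast this
  -- the tail
  have htail : ∑ e, ((u e : ℝ) - w e) ≤ W / 250 := by
    have h1 : ∀ e, ((u e : ℝ) - w e) ≤ ∑ j ∈ Icc 1 M, ind (w e ≤ -((j : ℤ) + J)) := by
      intro e
      by_cases h : -(J : ℤ) ≤ w e
      · have : u e = w e := max_eq_left h
        rw [this, sub_self]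
        exact sum_nonneg fun _ _ => ind_nonneg _
      · have h2 : u e = -(J : ℤ) := max_eq_right (by omega)
        have h3 := lc_ge (-(J : ℤ) - w e) M (by have := hM e; omega)
        rw [h2]
        push_cast at h3 ⊢
        refine h3.trans (le_of_eq (sum_congr rfl fun j _ => ind_congr (by omega)))
    have h2 : ∀ j ∈ Icc 1 M, ∑ e, ind (w e ≤ -((j : ℤ) + J)) ≤
        1 / 500 * ∑ e, ind ((j : ℝ) ≤ 2 * w e) := by
      intro j hj
      rw [mem_Icc] at hj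
      have h3 := hexp ((j : ℤ) + J) (by omega)
        ((sum_le_sum fun e _ => ind_mono fun h => by omega).trans hJ1)
      have h4 : ∑ e, ind ((j : ℤ) + J ≤ 2 * w e) ≤ ∑ e, ind ((j : ℝ) ≤ 2 * w e) :=
        sum_le_sum fun e _ => ind_mono fun h => by
          have : (j : ℤ) ≤ 2 * w e := by omega
          exact_mod_cast this
      linarith
    calc ∑ e, ((u e : ℝ) - w e) ≤ ∑ e, ∑ j ∈ Icc 1 M, ind (w e ≤ -((j : ℤ) + J)) :=
          sum_le_sum fun e _ => h1 e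
      _ = ∑ j ∈ Icc 1 M, ∑ e, ind (w e ≤ -((j : ℤ) + J)) := sum_comm
      _ ≤ ∑ j ∈ Icc 1 M, 1 / 500 * ∑ e, ind ((j : ℝ) ≤ 2 * w e) := sum_le_sum h2
      _ = 1 / 500 * ∑ e, ∑ j ∈ Icc 1 M, ind ((j : ℝ) ≤ 2 * w e) := by
          rw [← mul_sum, sum_comm]
      _ ≤ 1 / 500 * ∑ e, 2 * (|w e| : ℝ) := by
          gcongr with e
          refine (lc_le _ _).trans (max_le ?_ (by positivity))
          linarith [le_abs_self (w e : ℝ)]
      _ = W / 250 := by rw [← mul_sum, ← hW]; ring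
  -- negative mass
  have hmass : n * W * (1 / 14 - 1 / 250) ≤
      ∑ t, ∑ j ∈ Icc 1 (3 * J), ind ((j : ℤ) ≤ -(u (e0 t) + u (e1 t) + u (e2 t))) := by
    have h1 : ∀ t, |(w (e0 t) : ℝ) + w (e1 t) + w (e2 t)| ≤
        ((w (e0 t) : ℝ) + w (e1 t) + w (e2 t)) +
        2 * ((((u (e0 t) : ℝ) - w (e0 t)) + ((u (e1 t) : ℝ) - w (e1 t)) +
          ((u (e2 t) : ℝ) - w (e2 t))) +
          ∑ j ∈ Icc 1 (3 * J), ind ((j : ℤ) ≤ -(u (e0 t) + u (e1 t) + u (e2 t)))) := by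
      intro t
      have a0 : (w (e0 t) : ℝ) ≤ u (e0 t) := by exact_mod_cast hwu _
      have a1 : (w (e1 t) : ℝ) ≤ u (e1 t) := by exact_mod_cast hwu _
      have a2 : (w (e2 t) : ℝ) ≤ u (e2 t) := by exact_mod_cast hwu _
      have b := lc_ge (-(u (e0 t) + u (e1 t) + u (e2 t))) (3 * J) (by
        have c0 : -(J : ℤ) ≤ u (e0 t) := le_max_right _ _
        have c1 : -(J : ℤ) ≤ u (e1 t) := le_max_right _ _
        have c2 : -(J : ℤ) ≤ u (e2 t) := le_max_right _ _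
        push_cast; omega)
      have b0 : 0 ≤ ∑ j ∈ Icc 1 (3 * J), ind ((j : ℤ) ≤ -(u (e0 t) + u (e1 t) + u (e2 t))) :=
        sum_nonneg fun _ _ => ind_nonneg _
      push_cast at b
      rw [abs_le]; constructor <;> linarith
    have h2 := sum_le_sum fun t (_ : t ∈ univ) => h1 t
    rw [sum_add_distrib, ← mul_sum, hsum (fun e => (w e : ℝ)), sum_add_distrib,
      hsum (fun e => (u e : ℝ) - w e)] at h2
    have h3 : n * ∑ e, (w e : ℝ) < 0 := mul_neg_of_pos_of_neg hn hnegR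
    have h4 : n * ∑ e, ((u e : ℝ) - w e) ≤ n * (W / 250) := mul_le_mul_of_nonneg_left htail hn.le
    nlinarith
  -- choice of the level
  set s : ℕ → ℝ := fun j => ∑ e, ind ((j : ℝ) ≤ 8 * |(u e : ℝ)|) with hs
  set ψ : ℕ → E → ℤ := fun j e => rnd j (R e) (u e) with hψ
  set N : ℕ → ℝ := fun j => ∑ t, ind (ψ j (e0 t) + ψ j (e1 t) + ψ j (e2 t) ≤ -2) with hN
  have hs1 : ∀ j ∈ Icc 1 (3 * J), a₀ < s j := by
    intro j hj
    rw [mem_Icc] at hj
    refine (hJ2 (by omega)).trans_le (sum_le_sum fun e _ => ind_mono fun h => ?_)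
    have h2 : u e = -(J : ℤ) := max_eq_right h
    have h3 : (j : ℝ) ≤ 3 * J := by exact_mod_cast hj.2
    rw [h2]; push_cast
    rw [abs_neg, abs_of_nonneg (by positivity)]
    have : (0 : ℝ) ≤ J := by positivity
    linarith
  have hs2 : ∑ j ∈ Icc 1 (3 * J), s j ≤ 8 * W := by
    simp only [hs]
    rw [sum_comm, hW, mul_sum]
    refine sum_le_sum fun e _ => (lc_le _ _).trans (max_le ?_ (by positivity))
    linarith [huw e]
  have hh : ∑ j ∈ Icc 1 (3 * J), ∑ e, ind (499 * (j : ℤ) ≤ 4 * u e) ≤ 4 / 499 * W := by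
    rw [sum_comm, hW, mul_sum]
    refine sum_le_sum fun e _ => ?_
    refine le_trans (sum_le_sum fun j _ => ind_mono (Q := (j : ℝ) ≤ 4 / 499 * u e) fun h => ?_)
      ((lc_le _ _).trans (max_le ?_ (by positivity)))
    · have : (499 : ℝ) * j ≤ 4 * u e := by exact_mod_cast h
      linarith
    · linarith [huw e, le_abs_self (u e : ℝ)]
  have hkey : ∀ j ∈ Icc 1 (3 * J),
      ∑ t, ind ((j : ℤ) ≤ -(u (e0 t) + u (e1 t) + u (e2 t))) ≤
        N j + n * (s j / 1000) + n * ∑ e, ind (499 * (j : ℤ) ≤ 4 * u e) := by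
    intro j hj
    have h1 := hs1 j hj
    rw [mem_Icc] at hj
    have h2 : ∀ t, ind ((j : ℤ) ≤ -(u (e0 t) + u (e1 t) + u (e2 t))) ≤
        ind (ψ j (e0 t) + ψ j (e1 t) + ψ j (e2 t) ≤ -2) +
        (ind (R (e0 t)) + ind (R (e1 t)) + ind (R (e2 t))) +
        (ind (499 * (j : ℤ) ≤ 4 * u (e0 t)) + ind (499 * (j : ℤ) ≤ 4 * u (e1 t)) +
          ind (499 * (j : ℤ) ≤ 4 * u (e2 t))) := by
      intro t
      have i0 := ind_nonneg (ψ j (e0 t) + ψ j (e1 t) + ψ j (e2 t) ≤ -2)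
      have i1 := ind_nonneg (R (e0 t))
      have i2 := ind_nonneg (R (e1 t))
      have i3 := ind_nonneg (R (e2 t))
      have i4 := ind_nonneg (499 * (j : ℤ) ≤ 4 * u (e0 t))
      have i5 := ind_nonneg (499 * (j : ℤ) ≤ 4 * u (e1 t))
      have i6 := ind_nonneg (499 * (j : ℤ) ≤ 4 * u (e2 t))
      refine ind_le (by linarith) fun h => ?_
      by_cases r0 : R (e0 t)
      · linarith [ind_pos r0]
      by_cases r1 : R (e1 t)
      · linarith [ind_pos r1]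
      by_cases r2 : R (e2 t)
      · linarith [ind_pos r2]
      by_cases g0 : 499 * (j : ℤ) ≤ 4 * u (e0 t)
      · linarith [ind_pos g0]
      by_cases g1 : 499 * (j : ℤ) ≤ 4 * u (e1 t)
      · linarith [ind_pos g1]
      by_cases g2 : 499 * (j : ℤ) ≤ 4 * u (e2 t)
      · linarith [ind_pos g2]
      have := rnd_neg (j := (j : ℤ)) (by omega) r0 r1 r2 g0 g1 g2 h
      linarith [ind_pos (P := ψ j (e0 t) + ψ j (e1 t) + ψ j (e2 t) ≤ -2) this]
    have h3 := sum_le_sum fun t (_ : t ∈ univ) => h2 t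
    rw [sum_add_distrib, sum_add_distrib, hsum (fun e => ind (R e)),
      hsum (fun e => ind (499 * (j : ℤ) ≤ 4 * u e))] at h3
    have h4 : n * ∑ e, ind (R e) ≤ n * (s j / 1000) :=
      mul_le_mul_of_nonneg_left (by linarith) hn.le
    simp only [hN]
    linarith
  obtain ⟨j, hj, hjN⟩ : ∃ j ∈ Icc 1 (3 * J), n / 160 * s j ≤ N j := by
    by_contra hc
    push Not at hc
    rw [sum_comm] at hmass
    have h1 := hmass.trans (sum_le_sum hkey)
    rw [sum_add_distrib, sum_add_distrib, ← mul_sum, ← mul_sum, ← sum_div] at h1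
    have h2 : ∑ j ∈ Icc 1 (3 * J), N j ≤ n / 160 * ∑ j ∈ Icc 1 (3 * J), s j := by
      rw [mul_sum]; exact sum_le_sum fun j hj => (hc j hj).le
    have h3 : n * ∑ j ∈ Icc 1 (3 * J), s j ≤ n * (8 * W) := mul_le_mul_of_nonneg_left hs2 hn.le
    have h4 := mul_le_mul_of_nonneg_left hh hn.le
    have h5 : 0 < n * W := mul_pos hn hW0
    nlinarith
  have hj1 : (1 : ℤ) ≤ j := by rw [mem_Icc] at hj; omega
  refine ⟨ψ j, fun e => rnd_range _ hj1 _ _, ?_, fun t ht => ?_⟩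
  · have h1 : ∑ e, ind (ψ j e ≠ 0) ≤ ∑ e, ind (R e) + s j := by
      simp only [hs]
      rw [← sum_add_distrib]
      refine sum_le_sum fun e _ => le_trans (ind_mono fun h => ?_) (ind_or_le _ _)
      rcases rnd_supp hj1 h with h | h
      · exact Or.inl h
      · right; exact_mod_cast h
    have h2 := hs1 j hj
    refine le_trans ?_ hjN
    have : ∑ e, ind (ψ j e ≠ 0) + a₀ ≤ 3 * s j := by linarith
    nlinarith
  · obtain ⟨a, b, c, d⟩ := rnd_sound hj1 ht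
    refine ⟨a, b, c, ?_⟩
    have := hwu (e0 t); have := hwu (e1 t); have := hwu (e2 t)
    omega

end Pool.Agent.MP_46aeaf_co

end

-- part MP_46aeaf_co.Dual
section

set_option autoImplicit false

/-! Farkas-type alternative with integer certificates. -/

namespace Pool.Agent.MP_46aeaf_co

open Finset

lemma farkas {Ω E : Type} [Fintype Ω] [Fintype E] [DecidableEq E] [Nonempty E]
    (v : Ω → E → ℝ) (hv0 : ∀ t e, 0 ≤ v t e) (hv : ∀ t, ∑ e, v t e = 3) (T : Ω → Prop)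
    (hno : ¬ ∃ x : Ω → ℝ, (∀ t, 0 ≤ x t) ∧ (∀ t, ¬ T t → x t = 0) ∧
      ∀ e, ∑ t, x t * v t e = 1) :
    ∃ w : E → ℤ, (∀ t, T t → 0 ≤ ∑ e, (w e : ℝ) * v t e) ∧ ∑ e, w e < 0 := by
  classical
  set N : ℝ := (Fintype.card E : ℝ) with hN
  have hN0 : 0 < N := by rw [hN]; exact_mod_cast Fintype.card_pos
  set S : Set (E → ℝ) := v '' {t | T t} with hS
  have hfin : S.Finite := (Set.toFinite _).image _
  set y : E → ℝ := fun _ => 3 / N with hy
  have hyS : y ∉ convexHull ℝ S := by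
    intro hmem
    apply hno
    rw [mem_convexHull_iff_exists_fintype] at hmem
    obtain ⟨ι, _, a, z, ha0, ha1, hz, hsum⟩ := hmem
    choose τ hτT hτ using hz
    refine ⟨fun t => N / 3 * ∑ i, if τ i = t then a i else 0, fun t => ?_, fun t ht => ?_,
      fun e => ?_⟩
    · exact mul_nonneg (by positivity) (sum_nonneg fun i _ => by split_ifs; exacts [ha0 i, le_rfl])
    · beta_reduce
      rw [sum_eq_zero, mul_zero]
      intro i _
      rw [if_neg]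
      rintro rfl
      exact ht (hτT i)
    · have h1 := congrFun hsum e
      simp only [hy, Finset.sum_apply, Pi.smul_apply, smul_eq_mul] at h1
      have h2 : ∑ t, (∑ i, if τ i = t then a i else 0) * v t e = ∑ i, a i * z i e := by
        simp only [sum_mul]
        rw [sum_comm]
        refine sum_congr rfl fun i _ => ?_
        simp only [ite_mul, zero_mul, sum_ite_eq, mem_univ, if_true, hτ i]
      simp only [mul_assoc]
      rw [← mul_sum, h2, h1]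
      field_simp
  obtain ⟨f, c, hfy, hfS⟩ := geometric_hahn_banach_point_closed (convex_convexHull ℝ S)
    (hfin.isClosed_convexHull ℝ) hyS
  set u : E → ℝ := fun e => f (Pi.single e 1) with hu
  have hf : ∀ z : E → ℝ, f z = ∑ e, u e * z e := by
    intro z
    conv_lhs => rw [pi_eq_sum_univ' z]
    rw [map_sum]
    refine sum_congr rfl fun e _ => ?_
    rw [map_smul, smul_eq_mul, mul_comm]
  set w : E → ℝ := fun e => u e - c / 3 with hw
  have hw1 : ∀ t, T t → 0 ≤ ∑ e, w e * v t e := by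
    intro t ht
    have h1 := hfS (v t) (subset_convexHull ℝ S ⟨t, ht, rfl⟩)
    rw [hf] at h1
    simp only [hw, sub_mul, sum_sub_distrib]
    rw [← mul_sum, hv t]
    linarith
  have hw2 : ∑ e, w e < 0 := by
    rw [hf] at hfy
    simp only [hy] at hfy
    rw [← sum_mul] at hfy
    simp only [hw, sum_sub_distrib, sum_const, card_univ, nsmul_eq_mul]
    rw [← hN]
    have : (∑ e, u e) * (3 / N) * (N / 3) < c * (N / 3) :=
      mul_lt_mul_of_pos_right hfy (by positivity)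
    have e1 : (∑ e, u e) * (3 / N) * (N / 3) = ∑ e, u e := by field_simp
    linarith
  set s : ℝ := -∑ e, w e with hs
  have hs0 : 0 < s := by linarith
  set M : ℝ := N / s with hM
  have hM0 : 0 < M := by positivity
  refine ⟨fun e => ⌈M * w e⌉, fun t ht => ?_, ?_⟩
  · calc (0 : ℝ) ≤ M * ∑ e, w e * v t e := mul_nonneg hM0.le (hw1 t ht)
      _ = ∑ e, M * w e * v t e := by rw [mul_sum]; simp only [mul_assoc]
      _ ≤ _ := sum_le_sum fun e _ => mul_le_mul_of_nonneg_right (Int.le_ceil _) (hv0 t e)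
  · have h1 : ((∑ e, ⌈M * w e⌉ : ℤ) : ℝ) < ∑ e, (M * w e + 1) := by
      push_cast
      exact sum_lt_sum_of_nonempty univ_nonempty fun e _ => Int.ceil_lt_add_one _
    rw [sum_add_distrib, ← mul_sum, sum_const, card_univ, nsmul_eq_mul, ← hN] at h1
    have e1 : M * ∑ e, w e = -N := by
      have : ∑ e, w e = -s := by rw [hs]; ring
      rw [this, hM]; field_simp
    have h2 : ((∑ e, ⌈M * w e⌉ : ℤ) : ℝ) < 0 := by linarith
    exact_mod_cast h2

end Pool.Agent.MP_46aeaf_co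

end

-- part MP_46aeaf_co.Det
section

set_option autoImplicit false

/-! The deterministic part: pseudo-random properties give a fractional Latin square. -/

namespace Pool.Agent.MP_46aeaf_co

open Finset Pool.Agent.MP_81e6aa_pr

variable {V : Type} [Fintype V]

/-- the edge of type `k` of a triangle -/
def ed (k : Fin 3) (t : V × V × V) : Fin 3 × V × V :=
  (k, if k = 2 then t.2.1 else t.1, if k = 0 then t.2.1 else t.2.2)

omit [Fintype V] in
@[simp] lemma ed0 (t : V × V × V) : ed 0 t = (0, t.1, t.2.1) := rfl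
omit [Fintype V] in
@[simp] lemma ed1 (t : V × V × V) : ed 1 t = (1, t.1, t.2.2) := rfl
omit [Fintype V] in
@[simp] lemma ed2 (t : V × V × V) : ed 2 t = (2, t.2.1, t.2.2) := rfl

/-- number of triangles of `T` on an edge -/
noncomputable def deg (T : V → V → V → Prop) (e : Fin 3 × V × V) : ℝ :=
  ∑ u : V × V × V, ind (ed e.1 u = e ∧ T u.1 u.2.1 u.2.2)

def P1 (d : ℝ) (T₁ T₂ : V → V → V → Prop) : Prop :=
  ∀ (k₁ k₂ : Fin 3) (t₁ t₂ : V × V × V), ed k₁ t₁ ≠ ed k₂ t₂ → T₂ t₁.1 t₁.2.1 t₁.2.2 →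
    T₂ t₂.1 t₂.2.1 t₂.2.2 → deg T₁ (ed k₁ t₁) < d → deg T₁ (ed k₂ t₂) < d →
    t₁.1 ≠ t₂.1 ∧ t₁.2.1 ≠ t₂.2.1 ∧ t₁.2.2 ≠ t₂.2.2

def P2 (a₀ : ℝ) (T : V → V → V → Prop) : Prop :=
  ∀ ψ : Fin 3 × V × V → ℤ, (∀ e, -1000 ≤ ψ e ∧ ψ e ≤ 2000) →
    (Fintype.card V : ℝ) / 480 * (∑ e, ind (ψ e ≠ 0) + a₀) ≤
      ∑ t : V × V × V, ind (ψ (ed 0 t) + ψ (ed 1 t) + ψ (ed 2 t) ≤ -2) →
    ∃ t : V × V × V, T t.1 t.2.1 t.2.2 ∧ ψ (ed 0 t) + ψ (ed 1 t) + ψ (ed 2 t) ≤ -2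

def Cover (T : V → V → V → Prop) : Prop :=
  (∀ a b, ∃ c, T a b c) ∧ (∀ a c, ∃ b, T a b c) ∧ ∀ b c, ∃ a, T a b c

def Frac (T : V → V → V → Prop) : Prop :=
  ∃ x : V → V → V → ℝ, (∀ a b c, 0 ≤ x a b c) ∧ (∀ a b c, x a b c ≠ 0 → T a b c) ∧
    (∀ a b, ∑ c, x a b c = 1) ∧ (∀ a c, ∑ b, x a b c = 1) ∧ ∀ b c, ∑ a, x a b c = 1

lemma sum_ind_eq (a : V) (F : V → ℝ) : ∑ x, ind (x = a) * F x = F a := by
  rw [sum_eq_single a (fun b _ hb => by rw [ind_neg hb, zero_mul]) (by simp), ind_pos rfl, one_mul]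

lemma sum_ed (e : Fin 3 × V × V) (F : V → V → V → ℝ) :
    ∑ u : V × V × V, ind (ed e.1 u = e) * F u.1 u.2.1 u.2.2 =
      ∑ z, ![F e.2.1 e.2.2 z, F e.2.1 z e.2.2, F z e.2.1 e.2.2] e.1 := by
  obtain ⟨k, x, y⟩ := e
  simp only [Fintype.sum_prod_type]
  fin_cases k
  · simp only [Fin.zero_eta, ed0, Prod.mk.injEq, true_and, ind_and, mul_assoc, ← mul_sum,
      sum_ind_eq, Matrix.cons_val_zero]
  · simp only [Fin.mk_one, ed1, Prod.mk.injEq, true_and, ind_and, mul_assoc, ← mul_sum,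
      sum_ind_eq, Matrix.cons_val_one, Matrix.cons_val_zero]
  · simp only [Fin.reduceFinMk, ed2, Prod.mk.injEq, true_and, ind_and, mul_assoc, ← mul_sum,
      sum_ind_eq, Matrix.cons_val]

lemma deg_eq (T : V → V → V → Prop) (e : Fin 3 × V × V) :
    deg T e = ∑ z, ![ind (T e.2.1 e.2.2 z), ind (T e.2.1 z e.2.2), ind (T z e.2.1 e.2.2)] e.1 := by
  unfold deg
  simp only [ind_and]
  exact sum_ed e fun a b c => ind (T a b c)

lemma sum_E (φ : Fin 3 × V × V → ℝ) :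
    ∑ e, φ e = ∑ a, ∑ b, φ (0, a, b) + ∑ a, ∑ b, φ (1, a, b) + ∑ a, ∑ b, φ (2, a, b) := by
  simp only [Fintype.sum_prod_type, Fin.sum_univ_three]

lemma sum_tri (φ : Fin 3 × V × V → ℝ) :
    ∑ t : V × V × V, (φ (ed 0 t) + φ (ed 1 t) + φ (ed 2 t)) = Fintype.card V * ∑ e, φ e := by
  rw [sum_E]
  simp only [Fintype.sum_prod_type, ed0, ed1, ed2, sum_add_distrib, sum_const, card_univ,
    nsmul_eq_mul, ← mul_sum, mul_add]

lemma ct_le_one {X : V → Prop} (h : ∀ c c', X c → X c' → c = c') : ct X ≤ 1 := by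
  by_cases hX : ∃ c, X c
  · obtain ⟨c, hc⟩ := hX
    rw [ct, sum_eq_single c (fun b _ hb => ind_neg fun h' => hb (h _ _ h' hc)) (by simp)]
    exact ind_le_one _
  · rw [ct, sum_eq_zero fun c _ => ind_neg fun h => hX ⟨c, h⟩]; norm_num

lemma ind_ex_eq {X : V → Prop} (h : ∀ c c', X c → X c' → c = c') :
    ind (∃ c, X c) = ∑ c, ind (X c) := by
  by_cases hX : ∃ c, X c
  · rw [ind_pos hX]
    obtain ⟨c, hc⟩ := hX
    rw [sum_eq_single c (fun b _ hb => ind_neg fun h' => hb (h _ _ h' hc)) (by simp), ind_pos hc]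
  · rw [ind_neg hX, sum_eq_zero fun c _ => ind_neg fun h => hX ⟨c, h⟩]

lemma dual_cert [Nonempty V] {T : V → V → V → Prop} (hno : ¬ Frac T) :
    ∃ f g h : V → V → ℤ, (∀ a b c, T a b c → 0 ≤ f a b + g a c + h b c) ∧
      ∑ a, ∑ b, ∑ c, ((f a b : ℝ) + g a c + h b c) < 0 := by
  classical
  obtain ⟨w, hw1, hw2⟩ := farkas (Ω := V × V × V) (E := Fin 3 × V × V)
    (fun t e => ind (ed e.1 t = e)) (fun _ _ => ind_nonneg _) (fun t => by
      rw [sum_E]
      simp only [ed0, ed1, ed2, Prod.mk.injEq, true_and, ind_and, ← mul_sum]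
      have h : ∀ a : V, ∑ x, ind (a = x) = 1 := fun a => by
        have := sum_ind_eq a (fun _ => 1)
        simp only [mul_one] at this
        rw [← this]; exact sum_congr rfl fun _ _ => ind_congr eq_comm
      simp only [h, mul_one]; norm_num)
    (fun t => T t.1 t.2.1 t.2.2) (by
      rintro ⟨x, h0, h1, h2⟩
      refine hno ⟨fun a b c => x (a, b, c), fun a b c => h0 _, fun a b c h => ?_, fun a b => ?_,
        fun a c => ?_, fun b c => ?_⟩
      · by_contra h'; exact h (h1 (a, b, c) h')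
      · have := h2 (0, a, b)
        simp only [mul_comm (x _)] at this
        exact (sum_ed (0, a, b) fun a b c => x (a, b, c)).symm.trans this
      · have := h2 (1, a, c)
        simp only [mul_comm (x _)] at this
        exact (sum_ed (1, a, c) fun a b c => x (a, b, c)).symm.trans this
      · have := h2 (2, b, c)
        simp only [mul_comm (x _)] at this
        exact (sum_ed (2, b, c) fun a b c => x (a, b, c)).symm.trans this)
  refine ⟨fun a b => w (0, a, b), fun a b => w (1, a, b), fun a b => w (2, a, b),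
    fun a b c t => ?_, ?_⟩
  · have := hw1 (a, b, c) t
    rw [sum_E] at this
    simp only [ed0, ed1, ed2, Prod.mk.injEq, true_and, ind_and] at this
    have h : ∀ (k : Fin 3) (a b : V), ∑ x, ∑ y, (w (k, x, y) : ℝ) * (ind (a = x) * ind (b = y)) =
        w (k, a, b) := fun k a b => by
      rw [sum_eq_single a (fun x _ hx => by simp [ind_neg hx.symm]) (by simp),
        sum_eq_single b (fun x _ hx => by simp [ind_neg hx.symm]) (by simp)]
      simp [ind_pos]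
    rw [h, h, h] at this
    exact_mod_cast this
  · have h1 := sum_tri (fun e => (w e : ℝ))
    simp only [Fintype.sum_prod_type (α₁ := V), ed0, ed1, ed2] at h1
    rw [h1]
    have : (0 : ℝ) < Fintype.card V := by exact_mod_cast Fintype.card_pos
    exact mul_neg_of_pos_of_neg this (by exact_mod_cast hw2)

open Classical in
noncomputable def Wn (R : V → V → Prop) (f : V → V → ℤ) : ℕ :=
  ∑ a, ∑ b, if R a b then 0 else (f a b).natAbs

lemma Wn_cast (R : V → V → Prop) (f : V → V → ℤ) : (Wn R f : ℝ) = Wt R f := by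
  unfold Wn Wt
  push_cast
  refine sum_congr rfl fun a _ => sum_congr rfl fun b _ => ?_
  by_cases r : R a b
  · rw [if_pos r, ind_neg (not_not.2 r), zero_mul]
  · rw [if_neg r, ind_pos r, one_mul, Nat.cast_natAbs, Int.cast_abs]

lemma exists_min {T : V → V → V → Prop} (Rf Rg Rh : V → V → Prop)
    (H : ∃ f g h : V → V → ℤ, (∀ a b c, T a b c → 0 ≤ f a b + g a c + h b c) ∧
      ∑ a, ∑ b, ∑ c, ((f a b : ℝ) + g a c + h b c) < 0) :
    ∃ f g h : V → V → ℤ, (∀ a b c, T a b c → 0 ≤ f a b + g a c + h b c) ∧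
      ∑ a, ∑ b, ∑ c, ((f a b : ℝ) + g a c + h b c) < 0 ∧ MinG Rf Rg Rh f g h := by
  classical
  have hex : ∃ N : ℕ, ∃ f g h : V → V → ℤ, ((∀ a b c, T a b c → 0 ≤ f a b + g a c + h b c) ∧
      ∑ a, ∑ b, ∑ c, ((f a b : ℝ) + g a c + h b c) < 0) ∧ Wn Rf f + Wn Rg g + Wn Rh h = N := by
    obtain ⟨f, g, h, H⟩ := H
    exact ⟨_, f, g, h, H, rfl⟩
  obtain ⟨f, g, h, H1, H2⟩ := Nat.find_spec hex
  refine ⟨f, g, h, H1.1, H1.2, fun α β γ => ?_⟩
  simp only [← Wn_cast]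
  have := Nat.find_min' hex (m := Wn Rf (fun a b => f a b + α a + β b) +
    Wn Rg (fun a c => g a c - α a + γ c) + Wn Rh (fun b c => h b c - β b - γ c))
    ⟨_, _, _, ⟨fun a b c t => by have := H1.1 a b c t; linarith, by
      refine lt_of_eq_of_lt ?_ H1.2
      refine sum_congr rfl fun a _ => sum_congr rfl fun b _ => sum_congr rfl fun c _ => ?_
      push_cast; ring⟩, rfl⟩
  rw [← H2] at this
  exact_mod_cast this

theorem det [Nonempty V] {Δ d : ℝ} {T₁ T T₂ : V → V → V → Prop} (hΔ : 0 < Δ)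
    (ha : 3000 * (Fintype.card V : ℝ) ≤ Δ ^ 2 / 10 ^ 6)
    (h1 : ∀ a b c, T₁ a b c → T a b c) (h2 : ∀ a b c, T a b c → T₂ a b c) (hc : Cover T)
    (p1 : P1 d T₁ T₂) (p2 : P2 (Δ ^ 2 / 10 ^ 6) T₁)
    (a1 : P3a Δ (d - 2) T₂) (a2 : P3a Δ (d - 2) fun a b c => T₂ a c b)
    (a3 : P3a Δ (d - 2) fun a b c => T₂ c a b)
    (b1 : P3b Δ d T₁) (b2 : P3b Δ d fun a b c => T₁ b a c)
    (b3 : P3b Δ d fun a b c => T₁ a c b) (b4 : P3b Δ d fun a b c => T₁ b c a)
    (b5 : P3b Δ d fun a b c => T₁ c a b) (b6 : P3b Δ d fun a b c => T₁ c b a) : Frac T := by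
  classical
  by_contra hno
  have hn0 : (0 : ℝ) < Fintype.card V := by exact_mod_cast Fintype.card_pos
  have hτ : ∀ e : Fin 3 × V × V, ∃ t : V × V × V, ed e.1 t = e ∧ T t.1 t.2.1 t.2.2 := by
    rintro ⟨k, x, y⟩
    fin_cases k
    · obtain ⟨c, h⟩ := hc.1 x y; exact ⟨(x, y, c), rfl, h⟩
    · obtain ⟨c, h⟩ := hc.2.1 x y; exact ⟨(x, c, y), rfl, h⟩
    · obtain ⟨c, h⟩ := hc.2.2 x y; exact ⟨(c, x, y), rfl, h⟩
  choose τ hτe hτT using hτ
  set Q : V → V → V → Prop := fun a b c => ∃ e, deg T₁ e < d ∧ τ e = (a, b, c) with hQ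
  have hQT : ∀ a b c, Q a b c → T a b c := by
    rintro a b c ⟨e, -, he⟩
    have := hτT e
    rwa [he] at this
  have hQd : ∀ a b c a' b' c', Q a b c → Q a' b' c' → (a = a' ∨ b = b' ∨ c = c') →
      a = a' ∧ b = b' ∧ c = c' := by
    rintro a b c a' b' c' ⟨e, l, he⟩ ⟨e', l', he'⟩ h
    by_cases hee : e = e'
    · rw [hee, he'] at he
      simp only [Prod.mk.injEq] at he
      exact ⟨he.1.symm, he.2.1.symm, he.2.2.symm⟩
    · have := p1 e.1 e'.1 (τ e) (τ e') (by rwa [hτe, hτe]) (h2 _ _ _ (hτT e)) (h2 _ _ _ (hτT e'))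
        (by rwa [hτe]) (by rwa [hτe])
      rw [he, he'] at this
      tauto
  set Rf : V → V → Prop := fun a b => ∃ c, Q a b c with hRf
  set Rg : V → V → Prop := fun a c => ∃ b, Q a b c with hRg
  set Rh : V → V → Prop := fun b c => ∃ a, Q a b c with hRh
  have r1 : ∀ a, ct (Rf a) ≤ 1 := fun a => ct_le_one fun b b' ⟨c, h⟩ ⟨c', h'⟩ =>
    (hQd _ _ _ _ _ _ h h' (Or.inl rfl)).2.1
  have r2 : ∀ b, ct (fun a => Rf a b) ≤ 1 := fun a => ct_le_one fun b b' ⟨c, h⟩ ⟨c', h'⟩ =>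
    (hQd _ _ _ _ _ _ h h' (Or.inr (Or.inl rfl))).1
  have r3 : ∀ a, ct (Rg a) ≤ 1 := fun a => ct_le_one fun b b' ⟨c, h⟩ ⟨c', h'⟩ =>
    (hQd _ _ _ _ _ _ h h' (Or.inl rfl)).2.2
  have r4 : ∀ c, ct (fun a => Rg a c) ≤ 1 := fun a => ct_le_one fun b b' ⟨c, h⟩ ⟨c', h'⟩ =>
    (hQd _ _ _ _ _ _ h h' (Or.inr (Or.inr rfl))).1
  have r5 : ∀ b, ct (Rh b) ≤ 1 := fun a => ct_le_one fun b b' ⟨c, h⟩ ⟨c', h'⟩ =>
    (hQd _ _ _ _ _ _ h h' (Or.inr (Or.inl rfl))).2.2
  have r6 : ∀ c, ct (fun b => Rh b c) ≤ 1 := fun a => ct_le_one fun b b' ⟨c, h⟩ ⟨c', h'⟩ =>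
    (hQd _ _ _ _ _ _ h h' (Or.inr (Or.inr rfl))).2.1
  have d1 : ∀ a b, ¬ Rf a b → d ≤ ct (T₁ a b) := by
    intro a b r
    by_contra hl
    have e := hτe (0, a, b)
    simp only [ed0, Prod.mk.injEq, true_and] at e
    refine r ⟨(τ (0, a, b)).2.2, (0, a, b), ?_, Prod.ext e.1 (Prod.ext e.2 rfl)⟩
    rw [deg_eq]; exact not_le.1 hl
  have d2 : ∀ a c, ¬ Rg a c → d ≤ ct (fun b => T₁ a b c) := by
    intro a b r
    by_contra hl
    have e := hτe (1, a, b)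
    simp only [ed1, Prod.mk.injEq, true_and] at e
    refine r ⟨(τ (1, a, b)).2.1, (1, a, b), ?_, Prod.ext e.1 (Prod.ext rfl e.2)⟩
    rw [deg_eq]; exact not_le.1 hl
  have d3 : ∀ b c, ¬ Rh b c → d ≤ ct (fun a => T₁ a b c) := by
    intro a b r
    by_contra hl
    have e := hτe (2, a, b)
    simp only [ed2, Prod.mk.injEq, true_and] at e
    refine r ⟨(τ (2, a, b)).1, (2, a, b), ?_, Prod.ext rfl (Prod.ext e.1 e.2)⟩
    rw [deg_eq]; exact not_le.1 hl
  obtain ⟨f, g, h, hval, hneg, hmin⟩ := exists_min Rf Rg Rh (dual_cert hno)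
  set R : Fin 3 × V × V → Prop := fun e => ![Rf, Rg, Rh] e.1 e.2.1 e.2.2 with hR
  set w : Fin 3 × V × V → ℤ := fun e => if R e then 0 else ![f, g, h] e.1 e.2.1 e.2.2 with hw
  have w0 : ∀ a b, w (0, a, b) = if Rf a b then 0 else f a b := fun a b => by
    simp only [hw]; congr
  have w1 : ∀ a b, w (1, a, b) = if Rg a b then 0 else g a b := fun a b => by
    simp only [hw]; congr
  have w2 : ∀ a b, w (2, a, b) = if Rh a b then 0 else h a b := fun a b => by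
    simp only [hw]; congr
  have hcast : ∀ (r : Prop) [Decidable r] (z : ℤ),
      ((if r then 0 else z : ℤ) : ℝ) = z - ind r * z := by
    intro r _ z
    by_cases hr : r
    · rw [if_pos hr, ind_pos hr]; simp
    · rw [if_neg hr, ind_neg hr]; simp
  have habs : ∀ (r : Prop) [Decidable r] (z : ℤ),
      |((if r then 0 else z : ℤ) : ℝ)| = ind (¬ r) * |(z : ℝ)| := by
    intro r _ z
    by_cases hr : r
    · rw [if_pos hr, ind_neg (not_not.2 hr)]; simp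
    · rw [if_neg hr, ind_pos hr]; simp
  refine (layer (ed 0) (ed 1) (ed 2) (Fintype.card V : ℝ) (Δ ^ 2 / 10 ^ 6)
    hn0 sum_tri w R ?_ ?_ ?_ ?_).elim fun ψ ⟨hψ1, hψ2, hψ3⟩ => ?_
  rotate_right
  · obtain ⟨⟨a, b, c⟩, t1, t2⟩ := p2 ψ hψ1 hψ2
    obtain ⟨n0, n1, n2, n3⟩ := hψ3 _ t2
    simp only [ed0, ed1, ed2, w0, w1, w2] at n3
    rw [if_neg (show ¬ Rf a b from n0), if_neg (show ¬ Rg a c from n1),
      if_neg (show ¬ Rh b c from n2)] at n3
    have := hval a b c (h1 _ _ _ t1)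
    omega
  · have e1 : ∑ a, ∑ b, ∑ c, ((f a b : ℝ) + g a c + h b c) = Fintype.card V *
        (∑ a, ∑ b, (f a b : ℝ) + ∑ a, ∑ b, (g a b : ℝ) + ∑ a, ∑ b, (h a b : ℝ)) := by
      simp only [sum_add_distrib, sum_const, card_univ, nsmul_eq_mul, ← mul_sum, mul_add]
    have e2 : ∑ a, ∑ b, (f a b : ℝ) + ∑ a, ∑ b, (g a b : ℝ) + ∑ a, ∑ b, (h a b : ℝ) < 0 := by
      rw [e1] at hneg
      by_contra hh
      exact absurd hneg (not_lt.2 (mul_nonneg hn0.le (not_lt.1 hh)))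
    have e3 : 0 ≤ ∑ a, ∑ b, ∑ c, ind (Q a b c) * ((f a b : ℝ) + g a c + h b c) := by
      refine sum_nonneg fun a _ => sum_nonneg fun b _ => sum_nonneg fun c _ => ?_
      by_cases q : Q a b c
      · rw [ind_pos q, one_mul]; exact_mod_cast hval a b c (hQT _ _ _ q)
      · rw [ind_neg q, zero_mul]
    have f1 : ∑ a, ∑ b, ind (Rf a b) * (f a b : ℝ) = ∑ a, ∑ b, ∑ c, ind (Q a b c) * f a b := by
      refine sum_congr rfl fun a _ => sum_congr rfl fun b _ => ?_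
      rw [← sum_mul, ← ind_ex_eq fun c c' q q' => (hQd _ _ _ _ _ _ q q' (Or.inl rfl)).2.2]
    have f2 : ∑ a, ∑ c, ind (Rg a c) * (g a c : ℝ) = ∑ a, ∑ b, ∑ c, ind (Q a b c) * g a c := by
      refine sum_congr rfl fun a _ => ?_
      rw [sum_comm]
      refine sum_congr rfl fun b _ => ?_
      rw [← sum_mul, ← ind_ex_eq fun c c' q q' => (hQd _ _ _ _ _ _ q q' (Or.inl rfl)).2.1]
    have f3 : ∑ b, ∑ c, ind (Rh b c) * (h b c : ℝ) = ∑ a, ∑ b, ∑ c, ind (Q a b c) * h b c := by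
      conv_rhs => rw [sum_comm]
      refine sum_congr rfl fun a _ => ?_
      rw [sum_comm]
      refine sum_congr rfl fun b _ => ?_
      rw [← sum_mul, ← ind_ex_eq fun c c' q q' => (hQd _ _ _ _ _ _ q q' (Or.inr (Or.inl rfl))).1]
    have e4 : ∑ e, (w e : ℝ) < 0 := by
      rw [sum_E]
      simp only [w0, w1, w2, hcast, sum_sub_distrib]
      simp only [mul_add, sum_add_distrib] at e3
      linarith
    exact_mod_cast e4
  · have := cone hmin (fun a b => w (0, a, b)) (fun a b => w (1, a, b)) (fun a b => w (2, a, b))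
      (fun a b r => by rw [w0, if_neg r]) (fun a b r => by rw [w1, if_neg r])
      (fun a b r => by rw [w2, if_neg r])
    rw [sum_E]
    simp only [Fintype.sum_prod_type (α₁ := V), ed0, ed1, ed2]
    refine le_trans (le_of_eq ?_) this
    simp only [w0, w1, w2, habs, Wt]
  · intro θ hθ hA
    have i1 : ∀ (r : Prop) [Decidable r] (z : ℤ),
        ind ((if r then 0 else z) ≤ -θ) = ind (¬ r ∧ z ≤ -θ) := by
      intro r _ z
      refine ind_congr ?_
      by_cases hr : r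
      · rw [if_pos hr]; simp only [hr, not_true, false_and, iff_false]; omega
      · rw [if_neg hr]; simp [hr]
    have i2 : ∀ (r : Prop) [Decidable r] (z : ℤ),
        ind (θ ≤ 2 * if r then 0 else z) = ind (¬ r ∧ θ ≤ 2 * z) := by
      intro r _ z
      refine ind_congr ?_
      by_cases hr : r
      · rw [if_pos hr]; simp only [hr, not_true, false_and, iff_false]; omega
      · rw [if_neg hr]; simp [hr]
    rw [sum_E] at hA
    rw [sum_E, sum_E]
    simp only [w0, w1, w2, i1, i2] at hA ⊢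
    change cn (fun a b => ¬ Rf a b ∧ f a b ≤ -θ) + cn (fun a b => ¬ Rg a b ∧ g a b ≤ -θ) +
      cn (fun a b => ¬ Rh a b ∧ h a b ≤ -θ) ≤ _ at hA
    change 500 * (cn (fun a b => ¬ Rf a b ∧ f a b ≤ -θ) + cn (fun a b => ¬ Rg a b ∧ g a b ≤ -θ) +
      cn (fun a b => ¬ Rh a b ∧ h a b ≤ -θ)) ≤ cn (fun a b => ¬ Rf a b ∧ θ ≤ 2 * f a b) +
      cn (fun a b => ¬ Rg a b ∧ θ ≤ 2 * g a b) + cn (fun a b => ¬ Rh a b ∧ θ ≤ 2 * h a b)
    have z1 := cn_nonneg (fun a b => ¬ Rf a b ∧ f a b ≤ -θ)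
    have z2 := cn_nonneg (fun a b => ¬ Rg a b ∧ g a b ≤ -θ)
    have z3 := cn_nonneg (fun a b => ¬ Rh a b ∧ h a b ≤ -θ)
    have x1 := expand hmin hΔ h1 h2 hval r3 r5 d1 a1 b1 b2 hθ (by linarith)
    have x2 := expand (T₁ := fun a b c => T₁ a c b) (T := fun a b c => T a c b)
      (T₂ := fun a b c => T₂ a c b) hmin.swap23 hΔ (fun a b c => h1 a c b) (fun a b c => h2 a c b)
      (fun a b c t => by have := hval a c b t; omega) r1 r6 d2 a2 b3 b4 hθ (by linarith)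
    have x3 := expand (T₁ := fun a b c => T₁ c a b) (T := fun a b c => T c a b)
      (T₂ := fun a b c => T₂ c a b) hmin.swap12.swap23 hΔ (fun a b c => h1 c a b)
      (fun a b c => h2 c a b)
      (fun a b c t => by have := hval c a b t; omega) r2 r4 d3 a3 b5 b6 hθ (by linarith)
    have y1 := cn_swap (fun a b => ¬ Rf a b ∧ θ ≤ 2 * f a b)
    have y2 := cn_swap (fun a b => ¬ Rg a b ∧ θ ≤ 2 * g a b)
    have y3 := cn_swap (fun a b => ¬ Rh a b ∧ θ ≤ 2 * h a b)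
    linarith
  · rw [sum_E]
    change 1000 * (cn Rf + cn Rg + cn Rh) ≤ _
    have c1 : ∀ X : V → V → Prop, (∀ a, ct (X a) ≤ 1) → cn X ≤ Fintype.card V := fun X hX =>
      (sum_le_sum fun a _ => hX a).trans (by simp)
    linarith [c1 Rf r1, c1 Rg r3, c1 Rh r5]

end Pool.Agent.MP_46aeaf_co

end

-- part MP_46aeaf_co.Prob
section

set_option autoImplicit false

/-! Probability estimates for independent labels. -/

namespace Pool.Agent.MP_46aeaf_co

open Finset Pool.Agent.MP_81e6aa_pr Real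

section General

variable {I α : Type} [Fintype I] [DecidableEq I] [Fintype α] {w : I → α → ℝ}

lemma mgf (hw : IsP w) (P : α → Prop) {p : ℝ} (hp : ∀ i, ∑ a, w i a * ind (P a) = p)
    (F : I → Prop) (s : ℝ) :
    Ex w (fun x => exp (s * ∑ i, ind (F i ∧ P (x i)))) ≤
      exp (p * (exp s - 1) * ∑ i, ind (F i)) := by
  simp only [mul_sum, exp_sum]
  rw [Ex_prod w (fun i a => exp (s * ind (F i ∧ P a)))]
  refine prod_le_prod (fun i _ => sum_nonneg fun a _ => mul_nonneg (hw.nonneg _ _) (exp_pos _).le)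
    fun i _ => ?_
  have h : ∀ a, exp (s * ind (F i ∧ P a)) = 1 + ind (P a) * ((exp s - 1) * ind (F i)) := by
    intro a
    by_cases h1 : F i <;> by_cases h2 : P a <;> simp [ind, h1, h2]
  simp only [h, mul_add, mul_one, sum_add_distrib, ← mul_assoc]
  rw [← sum_mul, ← sum_mul, hp, hw.sum]
  linarith [add_one_le_exp (p * (exp s - 1) * ind (F i))]

lemma lower (hw : IsP w) (P : α → Prop) {p : ℝ} (hp0 : 0 ≤ p)
    (hp : ∀ i, ∑ a, w i a * ind (P a) = p) (F : I → Prop) {s q : ℝ} (hs : 0 ≤ s)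
    (hq : exp (-s) ≤ 1 - q) (k : ℝ) :
    Ex w (fun x => ind (∑ i, ind (F i ∧ P (x i)) ≤ k)) ≤ exp (s * k - p * q * ∑ i, ind (F i)) := by
  have h0 : 0 ≤ ∑ i, ind (F i) := sum_nonneg fun _ _ => ind_nonneg _
  calc _ ≤ Ex w (fun x => exp (s * k) * exp (-s * ∑ i, ind (F i ∧ P (x i)))) := by
        refine Ex_mono hw.nonneg fun x => ind_le (by positivity) fun h => ?_
        rw [← exp_add]
        exact one_le_exp (by nlinarith)
    _ ≤ exp (s * k) * exp (p * (exp (-s) - 1) * ∑ i, ind (F i)) := by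
        rw [Ex_smul]
        exact mul_le_mul_of_nonneg_left (mgf hw P hp F (-s)) (exp_pos _).le
    _ ≤ _ := by
        rw [← exp_add, exp_le_exp]
        have : p * (exp (-s) - 1) ≤ p * (-q) := mul_le_mul_of_nonneg_left (by linarith) hp0
        nlinarith

lemma upper (hw : IsP w) (P : α → Prop) {p : ℝ} (hp0 : 0 ≤ p)
    (hp : ∀ i, ∑ a, w i a * ind (P a) = p) (F : I → Prop) {s : ℝ} (hs : 0 ≤ s) (k : ℝ) :
    Ex w (fun x => ind (k ≤ ∑ i, ind (F i ∧ P (x i)))) ≤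
      exp (-(s * k) + p * exp s * ∑ i, ind (F i)) := by
  have h0 : 0 ≤ ∑ i, ind (F i) := sum_nonneg fun _ _ => ind_nonneg _
  calc _ ≤ Ex w (fun x => exp (-(s * k)) * exp (s * ∑ i, ind (F i ∧ P (x i)))) := by
        refine Ex_mono hw.nonneg fun x => ind_le (by positivity) fun h => ?_
        rw [← exp_add]
        exact one_le_exp (by nlinarith)
    _ ≤ exp (-(s * k)) * exp (p * (exp s - 1) * ∑ i, ind (F i)) := by
        rw [Ex_smul]
        exact mul_le_mul_of_nonneg_left (mgf hw P hp F s) (exp_pos _).le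
    _ ≤ _ := by
        rw [← exp_add, exp_le_exp]
        nlinarith [mul_nonneg hp0 h0]

lemma Ex_exists_le (hw : IsP w) {ι : Type} (S : Finset ι) (Q : ι → (I → α) → Prop) (b : ι → ℝ)
    (hb : ∀ j ∈ S, Ex w (fun x => ind (Q j x)) ≤ b j) (B : (I → α) → Prop)
    (hB : ∀ x, B x → ∃ j ∈ S, Q j x) : Ex w (fun x => ind (B x)) ≤ ∑ j ∈ S, b j := by
  refine (Ex_mono hw.nonneg fun x => (ind_mono (hB x)).trans (ind_exists_le S _)).trans ?_
  rw [Ex_sum]
  exact sum_le_sum hb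

lemma Ex_and_const (hw : IsP w) (C : Prop) (Q : (I → α) → Prop) {b : ℝ} (h0 : 0 ≤ b)
    (hb : C → Ex w (fun x => ind (Q x)) ≤ b) : Ex w (fun x => ind (C ∧ Q x)) ≤ b := by
  by_cases h : C
  · simpa [h] using hb h
  · simp only [h, false_and, ind_neg not_false]
    rw [Ex_const hw]; exact h0

omit [Fintype α] in
open Classical in
lemma sum_pred (c : ℝ) :
    ∑ X : I → Prop, exp (-c * ∑ j, ind (X j)) ≤ exp (Fintype.card I * exp (-c)) := by
  simp only [mul_sum, exp_sum]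
  have := Finset.prod_univ_sum (fun _ : I => (univ : Finset Prop))
    (fun _ (P : Prop) => exp (-c * ind P))
  simp only [Fintype.piFinset_univ] at this
  rw [← this, prod_const, card_univ, exp_nat_mul]
  refine pow_le_pow_left₀ (sum_nonneg fun _ _ => (exp_pos _).le) ?_ _
  rw [Fintype.univ_Prop, sum_pair (by simp), ind_pos trivial, ind_neg not_false]
  simp only [mul_one, mul_zero, exp_zero]
  exact add_one_le_exp _

end General

lemma exp_neg_one_le : exp (-1) ≤ 1 - 3 / 5 := by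
  rw [exp_neg, inv_le_comm₀ (exp_pos _) (by norm_num)]
  linarith [exp_one_gt_d9]

lemma exp_neg_three_le : exp (-3) ≤ 1 - 9 / 10 := by
  rw [exp_neg, inv_le_comm₀ (exp_pos _) (by norm_num)]
  have h : exp 3 = exp 1 * exp 1 * exp 1 := by rw [← exp_add, ← exp_add]; norm_num
  have := exp_one_gt_d9
  rw [h]; nlinarith

/-- the law of one label -/
def wt (p₁ p₂ : ℝ) : Fin 3 → ℝ := ![p₁, p₂ - p₁, 1 - p₂]

lemma wt_isP {I : Type} {p₁ p₂ : ℝ} (h0 : 0 ≤ p₁) (h1 : p₁ ≤ p₂) (h2 : p₂ ≤ 1) :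
    IsP (fun _ : I => wt p₁ p₂) :=
  ⟨fun _ a => by fin_cases a <;> simp [wt] <;> linarith, fun _ => by
    simp [wt, Fin.sum_univ_three]⟩

lemma wt_one (p₁ p₂ : ℝ) : ∑ a, wt p₁ p₂ a * ind (a = 0) = p₁ := by
  simp [wt, ind]

lemma wt_one' (p₁ p₂ : ℝ) : ∑ a, wt p₁ p₂ a * ind (¬ a = 0) = 1 - p₁ := by
  simp [wt, Fin.sum_univ_three, ind]

lemma wt_two (p₁ p₂ : ℝ) : ∑ a, wt p₁ p₂ a * ind (a ≠ 2) = p₂ := by
  simp [wt, Fin.sum_univ_three, ind]

variable {V : Type} [Fintype V] [DecidableEq V] {p₁ p₂ : ℝ}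

def T1 (x : V × V × V → Fin 3) : V → V → V → Prop := fun a b c => x (a, b, c) = 0
def T2 (x : V × V × V → Fin 3) : V → V → V → Prop := fun a b c => x (a, b, c) ≠ 2

omit [DecidableEq V] in
lemma line_card (e : Fin 3 × V × V) :
    ∑ u : V × V × V, ind (ed e.1 u = e) = Fintype.card V := by
  have := sum_ed e (fun _ _ _ => 1)
  simp only [mul_one] at this
  rw [this]
  obtain ⟨k, x, y⟩ := e
  fin_cases k <;> simp

lemma prob_cover (h0 : 0 ≤ p₁) (h1 : p₁ ≤ p₂) (h2 : p₂ ≤ 1) :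
    Ex (fun _ : V × V × V => wt p₁ p₂) (fun x => ind (¬ Cover (T2 x))) ≤
      3 * (Fintype.card V : ℝ) ^ 2 * exp (-(p₂ * (3 / 5) * Fintype.card V)) := by
  have hw := wt_isP (I := V × V × V) h0 h1 h2
  refine (Ex_exists_le hw (univ : Finset (Fin 3 × V × V))
    (fun e x => ∑ u, ind (ed e.1 u = e ∧ x u ≠ 2) ≤ 0)
    (fun _ => exp (-(p₂ * (3 / 5) * Fintype.card V))) (fun e _ => ?_) _ fun x hx => ?_).trans ?_
  · have := lower hw (fun a => a ≠ 2) (h0.trans h1) (fun _ => wt_two p₁ p₂)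
      (fun u => ed e.1 u = e) zero_le_one exp_neg_one_le 0
    rwa [line_card, mul_zero, zero_sub] at this
  · by_contra hc
    push Not at hc
    have key : ∀ e : Fin 3 × V × V, ∃ u, ed e.1 u = e ∧ x u ≠ 2 := by
      intro e
      by_contra h
      have := hc e (mem_univ _)
      rw [sum_eq_zero fun u _ => ind_neg fun h' => h ⟨u, h'⟩] at this
      exact lt_irrefl _ this
    refine hx ⟨fun a b => ?_, fun a b => ?_, fun a b => ?_⟩
    · obtain ⟨⟨u, v, z⟩, e, h⟩ := key (0, a, b)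
      simp only [ed0, Prod.mk.injEq, true_and] at e
      exact ⟨z, by rw [← e.1, ← e.2]; exact h⟩
    · obtain ⟨⟨u, v, z⟩, e, h⟩ := key (1, a, b)
      simp only [ed1, Prod.mk.injEq, true_and] at e
      exact ⟨v, by rw [← e.1, ← e.2]; exact h⟩
    · obtain ⟨⟨u, v, z⟩, e, h⟩ := key (2, a, b)
      simp only [ed2, Prod.mk.injEq, true_and] at e
      exact ⟨u, by rw [← e.1, ← e.2]; exact h⟩
  · simp only [sum_const, card_univ, Fintype.card_prod, Fintype.card_fin, nsmul_eq_mul]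
    push_cast
    exact le_of_eq (by ring)

lemma prob_early (h0 : 0 ≤ p₁) (h1 : p₁ ≤ p₂) (h2 : p₂ ≤ 1) :
    Ex (fun _ : V × V × V => wt p₁ p₂) (fun x => ind (Cover (T1 x))) ≤
      exp (-((Fintype.card V : ℝ) ^ 2 * (1 - p₁) ^ Fintype.card V)) := by
  have hw := wt_isP (I := V × V × V) h0 h1 h2
  have hw' := wt_isP (I := V) h0 h1 h2
  calc _ ≤ Ex (fun _ : V × V × V => wt p₁ p₂)
        (fun x => ∏ i : V × V, ind (∃ c, x (i.1, i.2, c) = 0)) := by
        refine Ex_mono hw.nonneg fun x => ?_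
        rw [← ind_forall]
        exact ind_mono fun h i _ => h.1 i.1 i.2
    _ = Ex (fun _ : (V × V) × V => wt p₁ p₂)
        (fun x => ∏ i : V × V, ind (∃ c, x (i, c) = 0)) :=
        Ex_reindex (Equiv.prodAssoc V V V) (fun _ : V × V × V => wt p₁ p₂)
          (fun x => ∏ i : V × V, ind (∃ c, x (i, c) = 0))
    _ = ∏ _i : V × V, Ex (fun _ : V => wt p₁ p₂) (fun z => ind (∃ c, z c = 0)) := by
        rw [← Ex_curry (fun _ : (V × V) × V => wt p₁ p₂)
          (fun x => ∏ i : V × V, ind (∃ c, x i c = 0))]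
        exact Ex_prod _ (fun _ (z : V → Fin 3) => ind (∃ c, z c = 0))
    _ = (1 - (1 - p₁) ^ Fintype.card V) ^ Fintype.card (V × V) := by
        rw [prod_const, card_univ]
        congr 1
        have e : ∀ z : V → Fin 3, ind (∃ c, z c = 0) = ind (¬ ∀ c ∈ univ, ¬ z c = 0) :=
          fun z => ind_congr (by simp)
        simp only [e]
        rw [Ex_not hw']
        simp only [ind_forall]
        rw [Ex_prod _ (fun _ (a : Fin 3) => ind (¬ a = 0))]
        simp only [wt_one', prod_const, card_univ]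
    _ ≤ exp (-(1 - p₁) ^ Fintype.card V) ^ Fintype.card (V × V) := by
        refine pow_le_pow_left₀ ?_ ?_ _
        · have := pow_le_one₀ (n := Fintype.card V) (show 0 ≤ 1 - p₁ by linarith) (by linarith)
          linarith
        · linarith [add_one_le_exp (-(1 - p₁) ^ Fintype.card V)]
    _ = _ := by
        rw [← exp_nat_mul, Fintype.card_prod]
        push_cast
        congr 1; ring

omit [Fintype V] [DecidableEq V] in
lemma line_inter {k₁ k₂ : Fin 3} {t₁ t₂ u u' : V × V × V} (h : ed k₁ t₁ ≠ ed k₂ t₂)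
    (h1 : ed k₁ u = ed k₁ t₁) (h2 : ed k₂ u = ed k₂ t₂) (h3 : ed k₁ u' = ed k₁ t₁)
    (h4 : ed k₂ u' = ed k₂ t₂) : u = u' := by
  have h5 := h1.trans h3.symm
  have h6 := h2.trans h4.symm
  have hk : k₁ ≠ k₂ := by rintro rfl; exact h (h1.symm.trans h2)
  obtain ⟨a, b, c⟩ := u
  obtain ⟨a', b', c'⟩ := u'
  clear h h1 h2 h3 h4
  fin_cases k₁ <;> fin_cases k₂ <;> simp_all [ed]

lemma prob_P1 (h0 : 0 ≤ p₁) (h1 : p₁ ≤ p₂) (h2 : p₂ ≤ 1) (d : ℝ) :
    Ex (fun _ : V × V × V => wt p₁ p₂) (fun x => ind (¬ P1 d (T1 x) (T2 x))) ≤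
      9 * ((Fintype.card V : ℝ) ^ 3 + 3 * (Fintype.card V : ℝ) ^ 5 * p₂ ^ 2) *
        exp (3 * (2 * d) - p₁ * (9 / 10) * (2 * Fintype.card V - 3)) := by
  have hw := wt_isP (I := V × V × V) h0 h1 h2
  set n : ℝ := (Fintype.card V : ℝ) with hn
  set z := exp (3 * (2 * d) - p₁ * (9 / 10) * (2 * n - 3)) with hz
  have hz0 : 0 < z := exp_pos _
  refine (Ex_exists_le hw (univ : Finset ((Fin 3 × Fin 3) × (V × V × V) × V × V × V))
    (fun j x => (ed j.1.1 j.2.1 ≠ ed j.1.2 j.2.2 ∧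
      (j.2.1.1 = j.2.2.1 ∨ j.2.1.2.1 = j.2.2.2.1 ∨ j.2.1.2.2 = j.2.2.2.2)) ∧
      (x j.2.1 ≠ 2 ∧ x j.2.2 ≠ 2) ∧
        deg (T1 x) (ed j.1.1 j.2.1) < d ∧ deg (T1 x) (ed j.1.2 j.2.2) < d)
    (fun j => (ind (j.2.2 = j.2.1) + p₂ ^ 2 * (ind (j.2.2.1 = j.2.1.1) +
      ind (j.2.2.2.1 = j.2.1.2.1) + ind (j.2.2.2.2 = j.2.1.2.2))) * z)
    (fun j _ => ?_) _ fun x hx => ?_).trans (le_of_eq ?_)
  · obtain ⟨⟨k₁, k₂⟩, t₁, t₂⟩ := j
    have i0 := ind_nonneg (t₂ = t₁)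
    have i1 := ind_nonneg (t₂.1 = t₁.1)
    have i2 := ind_nonneg (t₂.2.1 = t₁.2.1)
    have i3 := ind_nonneg (t₂.2.2 = t₁.2.2)
    refine Ex_and_const hw _ _ (by positivity) fun ⟨hne, hsh⟩ => ?_
    dsimp only at hne hsh ⊢
    set F : V × V × V → Prop :=
      fun u => (ed k₁ u = ed k₁ t₁ ∨ ed k₂ u = ed k₂ t₂) ∧ u ≠ t₁ ∧ u ≠ t₂ with hF
    have hFc : 2 * n - 3 ≤ ∑ u, ind (F u) := by
      have a1 : ∑ u, ind (ed k₁ u = ed k₁ t₁) = n := line_card (ed k₁ t₁)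
      have a2 : ∑ u, ind (ed k₂ u = ed k₂ t₂) = n := line_card (ed k₂ t₂)
      have a3 : ∑ u, ind (ed k₁ u = ed k₁ t₁ ∧ ed k₂ u = ed k₂ t₂) ≤ 1 :=
        ct_le_one fun u u' h h' => line_inter hne h.1 h.2 h'.1 h'.2
      have a4 : ∑ u, ind (u = t₁) ≤ 1 := ct_le_one fun u u' h h' => h.trans h'.symm
      have a5 : ∑ u, ind (u = t₂) ≤ 1 := ct_le_one fun u u' h h' => h.trans h'.symm
      have a6 : ∀ u, ind (ed k₁ u = ed k₁ t₁) + ind (ed k₂ u = ed k₂ t₂) ≤ ind (F u) +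
          ind (ed k₁ u = ed k₁ t₁ ∧ ed k₂ u = ed k₂ t₂) + ind (u = t₁) + ind (u = t₂) := by
        intro u
        simp only [hF]
        generalize (ed k₁ u = ed k₁ t₁) = A
        generalize (ed k₂ u = ed k₂ t₂) = B
        simp only [ne_eq]
        generalize (u = t₁) = C
        generalize (u = t₂) = D
        by_cases A <;> by_cases B <;> by_cases C <;> by_cases D <;> simp [ind, *]
      have a7 := sum_le_sum fun u (_ : u ∈ univ) => a6 u
      simp only [sum_add_distrib] at a7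
      linarith
    have hl := lower hw (fun a => a = 0) h0 (fun _ => wt_one p₁ p₂) F (s := 3) (by norm_num)
      exp_neg_three_le (2 * d)
    have hl' : Ex (fun _ : V × V × V => wt p₁ p₂)
        (fun x => ind (∑ u, ind (F u ∧ x u = 0) ≤ 2 * d)) ≤ z := by
      refine hl.trans (exp_le_exp.2 ?_)
      have := mul_le_mul_of_nonneg_left hFc (show 0 ≤ p₁ * (9 / 10) by positivity)
      linarith
    have hb : Ex (fun _ : V × V × V => wt p₁ p₂) (fun x => ind (x t₁ ≠ 2 ∧ x t₂ ≠ 2)) ≤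
        ind (t₂ = t₁) + p₂ ^ 2 * (ind (t₂.1 = t₁.1) + ind (t₂.2.1 = t₁.2.1) +
          ind (t₂.2.2 = t₁.2.2)) := by
      by_cases ht : t₂ = t₁
      · refine (Ex_le hw fun x => ind_le_one _).trans ?_
        rw [ind_pos ht]
        exact le_add_of_nonneg_right (by positivity)
      · have := Ex_all_le hw {t₂, t₁} (fun a => a ≠ 2) (p := p₂) fun _ => (wt_two p₁ p₂).le
        rw [card_pair ht] at this
        refine ((Ex_mono hw.nonneg fun x => ind_mono fun h => ?_).trans this).trans ?_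
        · simp [h.1, h.2]
        · have : 1 ≤ ind (t₂.1 = t₁.1) + ind (t₂.2.1 = t₁.2.1) + ind (t₂.2.2 = t₁.2.2) := by
            rcases hsh with h | h | h
            · linarith [ind_pos h.symm]
            · linarith [ind_pos h.symm]
            · linarith [ind_pos h.symm]
          nlinarith [sq_nonneg p₂]
    calc _ ≤ Ex (fun _ : V × V × V => wt p₁ p₂) (fun x => ind (x t₁ ≠ 2 ∧ x t₂ ≠ 2) *
            ind (∑ u, ind (F u ∧ x u = 0) ≤ 2 * d)) := by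
          refine Ex_mono hw.nonneg fun x => ?_
          rw [← ind_and]
          refine ind_mono fun h => ⟨h.1, ?_⟩
          have : ∑ u, ind (F u ∧ x u = 0) ≤ deg (T1 x) (ed k₁ t₁) + deg (T1 x) (ed k₂ t₂) := by
            unfold deg
            rw [← sum_add_distrib]
            refine sum_le_sum fun u _ => le_trans (ind_mono fun h => ?_) (ind_or_le _ _)
            rcases h.1.1 with h' | h'
            · exact Or.inl ⟨h', h.2⟩
            · exact Or.inr ⟨h', h.2⟩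
          linarith [h.2.1, h.2.2]
      _ = _ := Ex_mul hw (A := fun u => u = t₁ ∨ u = t₂) (B := F)
          (fun x y h => by rw [h t₁ (Or.inl rfl), h t₂ (Or.inr rfl)])
          (fun x y h => by
            congr 2
            refine sum_congr rfl fun u _ => ind_congr ?_
            exact and_congr_right fun hu => by rw [h u hu])
          (fun u h h' => h.elim h'.2.1 h'.2.2)
      _ ≤ _ := mul_le_mul hb hl' (Ex_nonneg hw.nonneg fun _ => ind_nonneg _) (by positivity)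
  · unfold P1 at hx
    push Not at hx
    obtain ⟨k₁, k₂, t₁, t₂, a, b, c, e, f, g⟩ := hx
    exact ⟨((k₁, k₂), t₁, t₂), mem_univ _, ⟨a, by tauto⟩, ⟨b, c⟩, e, f⟩
  · have o : ∀ {J : Type} [Fintype J] (a : J), ∑ x, ind (x = a) = 1 := fun a => by
      simpa using sum_ind_eq a (fun _ => 1)
    have s0 : ∀ t₁ : V × V × V, ∑ t₂ : V × V × V, (ind (t₂ = t₁) + p₂ ^ 2 * (ind (t₂.1 = t₁.1) +
        ind (t₂.2.1 = t₁.2.1) + ind (t₂.2.2 = t₁.2.2))) * z = (1 + p₂ ^ 2 * (3 * n ^ 2)) * z := by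
      intro t₁
      rw [← sum_mul, sum_add_distrib, o, ← mul_sum]
      congr 3
      simp only [Fintype.sum_prod_type, sum_add_distrib, sum_const, card_univ, nsmul_eq_mul,
        ← mul_sum, o, Fintype.card_prod, Nat.cast_mul, ← hn]
      ring
    rw [Fintype.sum_prod_type]
    simp only [Fintype.sum_prod_type (α₁ := V × V × V), s0, sum_const, card_univ,
      Fintype.card_prod, Fintype.card_fin, nsmul_eq_mul]
    push_cast
    rw [← hn]
    ring

end Pool.Agent.MP_46aeaf_co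

end
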