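import Pool.Agent.MP_46aeaf_co.Mg.LS_Tools
import Pool.Agent.MP_46aeaf_co.Mg.LS_Net
import Pool.Agent.MP_46aeaf_co.Mg.LS_Frag
import Pool.Agent.MP_46aeaf_co.Mg.LS_Labels
import Pool.Agent.MP_46aeaf_co.Mg.LS_Phase
import Pool.Agent.MP_46aeaf_co.Mg.Prob

-- part MP_46aeaf_co.LS.Match
section

set_option autoImplicit false
set_option linter.unusedSectionVars false
set_option linter.unusedVariables false

/-! Spread perfect matchings from random picks. -/

namespace Pool.Agent.MP_46aeaf_co.HT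

open Finset Pool.Agent.MP_81e6aa_pr Real Filter

theorem kout0_aux {a j m : ℕ} (hm : 12 ≤ m) {N υ ϑ ε : ℝ} (hN : 50 ≤ N) (ha : (a : ℝ) ≤ N) (hj : 1 ≤ j)
    (hja : 2 * j ≤ a + 1) (hϑ0 : 0 ≤ ϑ) (hϑ : 10 * ϑ ≤ υ)
    (h1 : 9 * N ^ 2 * (13 / 10 * υ) ^ m ≤ ε) (h2 : exp (-(N * υ)) ≤ ε) (hε : ε ≤ 1) :
    (a.choose j : ℝ) ^ 2 * (6 / 5 * j / N + ϑ) ^ (m * j) ≤ ε := by
  have hN0 : 0 < N := by linarith
  have hj1 : (1 : ℝ) ≤ j := by exact_mod_cast hj
  have hj0 : (0 : ℝ) < j := by linarith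
  have hja' : 2 * (j : ℝ) ≤ a + 1 := by exact_mod_cast hja
  have hc : (a.choose j : ℝ) ≤ (3 * N / j) ^ j := by
    have h3 : (a.choose j : ℝ) ≤ (a : ℝ) ^ j / j.factorial := Nat.choose_le_pow_div j a
    have h4 : (j : ℝ) ^ j / j.factorial ≤ exp j := Real.pow_div_factorial_le_exp _ hj0.le j
    have h5 : exp (j : ℝ) ≤ 3 ^ j := by
      rw [← Real.exp_one_pow]
      exact pow_le_pow_left₀ (exp_pos 1).le (by linarith [Real.exp_one_lt_d9]) j
    have h6 : (0 : ℝ) < j.factorial := by exact_mod_cast j.factorial_pos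
    have h7 : (a : ℝ) ^ j ≤ N ^ j := pow_le_pow_left₀ (Nat.cast_nonneg a) ha j
    have h8 : (j : ℝ) ^ j ≤ 3 ^ j * j.factorial := (div_le_iff₀ h6).1 (h4.trans h5)
    have h9 : (0 : ℝ) < (j : ℝ) ^ j := pow_pos hj0 j
    refine h3.trans ((div_le_div_of_nonneg_right h7 h6.le).trans ?_)
    rw [div_pow, mul_pow, div_le_div_iff₀ h6 h9]
    calc N ^ j * (j : ℝ) ^ j ≤ N ^ j * (3 ^ j * j.factorial) :=
          mul_le_mul_of_nonneg_left h8 (pow_nonneg hN0.le j)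
      _ = 3 ^ j * N ^ j * j.factorial := by ring
  have hu0 : 0 < (j : ℝ) / N := div_pos hj0 hN0
  have hu1 : (j : ℝ) / N ≤ 51 / 100 := by
    rw [div_le_iff₀ hN0]
    linarith
  have hb0 : 0 ≤ 6 / 5 * j / N + ϑ := by positivity
  have hred : (a.choose j : ℝ) ^ 2 * (6 / 5 * j / N + ϑ) ^ (m * j) ≤
      ((3 * N / j) ^ 2 * (6 / 5 * j / N + ϑ) ^ m) ^ j := by
    rw [mul_pow, ← pow_mul, ← pow_mul, mul_comm 2 j, pow_mul (3 * N / j)]
    exact mul_le_mul_of_nonneg_right (pow_le_pow_left₀ (Nat.cast_nonneg _) hc 2)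
      (pow_nonneg hb0 _)
  refine hred.trans ?_
  have hB0 : 0 ≤ (3 * N / j) ^ 2 * (6 / 5 * j / N + ϑ) ^ m :=
    mul_nonneg (sq_nonneg _) (pow_nonneg hb0 _)
  have he : 6 / 5 * (j : ℝ) / N = 6 / 5 * (j / N) := by ring
  by_cases h : υ < j / N
  · have h3 : 6 / 5 * j / N + ϑ ≤ 13 / 10 * (j / N) := by rw [he]; linarith
    have h4 : (6 / 5 * j / N + ϑ) ^ m ≤ (13 / 10 * (j / N)) ^ 12 :=
      (pow_le_pow_left₀ hb0 h3 m).trans
        (pow_le_pow_of_le_one (by positivity) (by linarith) hm)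
    have h5 : (13 / 10 * ((j : ℝ) / N)) ^ 10 ≤ (2 / 3) ^ 10 :=
      pow_le_pow_left₀ (by positivity) (by linarith) 10
    have h6 : (3 * N / j) ^ 2 * (13 / 10 * ((j : ℝ) / N)) ^ 12 =
        1521 / 100 * (13 / 10 * ((j : ℝ) / N)) ^ 10 := by
      field_simp
      norm_num
    have h7 : (1 : ℝ) / 3 ≤ exp (-1) := by
      rw [Real.exp_neg, one_div]
      exact inv_anti₀ (exp_pos 1) (by linarith [Real.exp_one_lt_d9])
    have h8 : (3 * N / j) ^ 2 * (6 / 5 * j / N + ϑ) ^ m ≤ exp (-1) := by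
      refine (mul_le_mul_of_nonneg_left h4 (sq_nonneg _)).trans ?_
      rw [h6]
      refine le_trans ?_ h7
      refine (mul_le_mul_of_nonneg_left h5 (by norm_num)).trans (by norm_num)
    refine (pow_le_pow_left₀ hB0 h8 j).trans (le_trans ?_ h2)
    rw [← Real.exp_nat_mul]
    apply Real.exp_le_exp.2
    have := (lt_div_iff₀ hN0).1 h
    linarith
  · have h3 : 6 / 5 * j / N + ϑ ≤ 13 / 10 * υ := by rw [he]; linarith [not_lt.1 h]
    have h4 : (3 * N / j) ^ 2 ≤ 9 * N ^ 2 := by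
      have : 3 * N / j ≤ 3 * N := div_le_self (by linarith) hj1
      calc (3 * N / j) ^ 2 ≤ (3 * N) ^ 2 := pow_le_pow_left₀ (by positivity) this 2
        _ = 9 * N ^ 2 := by ring
    have h5 : (3 * N / j) ^ 2 * (6 / 5 * j / N + ϑ) ^ m ≤ ε :=
      (mul_le_mul h4 (pow_le_pow_left₀ hb0 h3 m) (pow_nonneg hb0 _) (by positivity)).trans h1
    exact (pow_le_of_le_one hB0 (h5.trans hε) (by omega)).trans h5

/-- Put `u = j / N ≤ 0.51`, `C(a, j) ≤ (3 N / j) ^ j`.  If `υ < u` then `6 / 5 * u + ϑ ≤ 1.3 u`,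
`(3 / u) ^ 2 (1.3 u) ^ 1000 ≤ exp (-1)` and `N υ ≤ j`.  Otherwise `6 / 5 * u + ϑ ≤ 1.3 υ` and
`(3 N / j) ^ 2 ≤ 9 N ^ 2`. -/
theorem kout_num {a j : ℕ} {N υ ϑ ε : ℝ} (hN : 50 ≤ N) (ha : (a : ℝ) ≤ N) (hj : 1 ≤ j)
    (hja : 2 * j ≤ a + 1) (hϑ0 : 0 ≤ ϑ) (hϑ : 10 * ϑ ≤ υ)
    (h1 : 9 * N ^ 2 * (13 / 10 * υ) ^ 1000 ≤ ε) (h2 : exp (-(N * υ)) ≤ ε) (hε : ε ≤ 1) :
    (a.choose j : ℝ) ^ 2 * (6 / 5 * j / N + ϑ) ^ (1000 * j) ≤ ε :=
  kout0_aux (by norm_num) hN ha hj hja hϑ0 hϑ h1 h2 hε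

variable {V : Type} [Fintype V] [DecidableEq V]

/-- Two-sided Hall condition (`Finset.all_card_le_biUnion_card_iff_exists_injective`).  If
`X ⊆ A` has fewer than `|X|` neighbours and `2 |X| ≤ |A| + 1`, enlarge the neighbourhood to a set
of size `|X|`; otherwise take `|A| - |X| + 1` vertices of `B` outside the neighbourhood and
enlarge `A \ X`. -/
theorem kout_hall (A B : Finset V) (hAB : A.card = B.card) (E : V → V → Prop)
    (hA : ∀ X ⊆ A, ∀ Y ⊆ B, X.card = Y.card → 1 ≤ X.card → 2 * X.card ≤ A.card + 1 →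
      ∃ r ∈ X, ∃ c ∈ B, c ∉ Y ∧ E r c)
    (hB : ∀ X ⊆ A, ∀ Y ⊆ B, X.card = Y.card → 1 ≤ X.card → 2 * X.card ≤ A.card + 1 →
      ∃ c ∈ Y, ∃ r ∈ A, r ∉ X ∧ E r c) :
    ∃ f : V → V, (∀ r ∈ A, f r ∈ B ∧ E r (f r)) ∧ (∀ r ∈ A, ∀ r' ∈ A, f r = f r' → r = r') ∧
      ∀ c ∈ B, ∃ r ∈ A, f r = c := by
  classical
  have hall : ∀ s : Finset {r // r ∈ A},
      s.card ≤ (s.biUnion fun r => B.filter (E r.1)).card := by
    intro s
    by_contra hlt
    rw [not_le] at hlt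
    set M := s.biUnion fun r => B.filter (E r.1) with hM
    have hMB : M ⊆ B := biUnion_subset.2 fun r _ => filter_subset _ _
    set X := s.map (Function.Embedding.subtype _) with hX
    have hXc : X.card = s.card := card_map _
    have hXA : X ⊆ A := fun r hr => by
      obtain ⟨r', -, rfl⟩ := mem_map.1 hr
      exact r'.2
    have hmem : ∀ r ∈ X, ∀ c ∈ B, E r c → c ∈ M := fun r hr c hc h => by
      obtain ⟨r', hr', rfl⟩ := mem_map.1 hr
      exact mem_biUnion.2 ⟨r', hr', mem_filter.2 ⟨hc, h⟩⟩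
    have hle := card_le_card hXA
    by_cases h : 2 * X.card ≤ A.card + 1
    · obtain ⟨Y, h1, h2, h3⟩ := exists_subsuperset_card_eq (n := X.card) hMB (by omega) (by omega)
      obtain ⟨r, hr, c, hc, hcY, hE⟩ := hA X hXA Y h2 h3.symm (by omega) h
      exact hcY (h1 (hmem r hr c hc hE))
    · have h1 : (B \ M).card = B.card - M.card := card_sdiff_of_subset hMB
      have h2 : (A \ X).card = A.card - X.card := card_sdiff_of_subset hXA
      obtain ⟨Y, h3, h4⟩ := exists_subset_card_eq (s := B \ M) (n := A.card - X.card + 1) (by omega)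
      obtain ⟨X', h5, h6, h7⟩ := exists_subsuperset_card_eq (n := A.card - X.card + 1)
        (sdiff_subset : A \ X ⊆ A) (by omega) (by omega)
      obtain ⟨c, hc, r, hr, hrX, hE⟩ := hB X' h6 Y (h3.trans sdiff_subset) (by omega) (by omega)
        (by omega)
      have h8 : r ∈ X := by
        by_contra h9
        exact hrX (h5 (mem_sdiff.2 ⟨hr, h9⟩))
      have h9 := mem_sdiff.1 (h3 hc)
      exact h9.2 (hmem r h8 c h9.1 hE)
  obtain ⟨g, hg, hgm⟩ := (Finset.all_card_le_biUnion_card_iff_exists_injective _).1 hall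
  let f : V → V := fun r => if h : r ∈ A then g ⟨r, h⟩ else r
  have hf : ∀ r (h : r ∈ A), f r = g ⟨r, h⟩ := fun r h => dif_pos h
  have h1 : ∀ r ∈ A, f r ∈ B ∧ E r (f r) := fun r hr => by
    rw [hf r hr]
    exact mem_filter.1 (hgm ⟨r, hr⟩)
  have h2 : ∀ r ∈ A, ∀ r' ∈ A, f r = f r' → r = r' := fun r hr r' hr' h => by
    rw [hf r hr, hf r' hr'] at h
    exact congrArg Subtype.val (hg h)
  refine ⟨f, h1, h2, fun c hc => ?_⟩
  have h3 : A.image f = B := by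
    refine eq_of_subset_of_card_le (image_subset_iff.2 fun r hr => (h1 r hr).1) ?_
    rw [card_image_of_injOn fun r hr r' hr' h => h2 r hr r' hr' h, hAB]
  rw [← h3] at hc
  exact mem_image.1 hc

end Pool.Agent.MP_46aeaf_co.HT

/-! Spread perfect matchings from random picks. -/

namespace Pool.Agent.MP_46aeaf_co.HT

open Finset Pool.Agent.MP_81e6aa_pr Real Filter

variable {V : Type} [Fintype V] [DecidableEq V]

open Classical in
/-- the law of the picks -/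
noncomputable def koutW (P : Bool → V → Prop) (R : Bool → V → V → Prop) (s : V)
    (k : (Bool × V) × Fin 1000) (v : V) : ℝ :=
  if P k.1.1 k.1.2 then ind (R k.1.1 k.1.2 v) / ct (R k.1.1 k.1.2) else ind (v = s)

section
variable {P : Bool → V → Prop} {R : Bool → V → V → Prop} {s : V} {δ : ℝ}

omit [DecidableEq V] in
lemma kout_isP (hδ : 0 < δ) (h : ∀ b u, P b u → δ ≤ ct (R b u)) : IsP (koutW P R s) := by
  refine ⟨fun k v => ?_, fun k => ?_⟩
  · unfold koutW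
    split_ifs
    · exact div_nonneg (ind_nonneg _) (ct_nonneg _)
    · exact ind_nonneg _
  · by_cases hk : P k.1.1 k.1.2
    · simp only [koutW, if_pos hk]
      rw [← sum_div]
      exact div_self (hδ.trans_le (h _ _ hk)).ne'
    · simp only [koutW, if_neg hk]
      exact ct_eq s

omit [DecidableEq V] in
lemma kout_le (hδ : 0 < δ) (h : ∀ b u, P b u → δ ≤ ct (R b u)) {b : Bool} {u : V} (hu : P b u)
    (i : Fin 1000) (v : V) : koutW P R s ((b, u), i) v ≤ ind (R b u v) / δ := by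
  simp only [koutW, if_pos hu]
  exact div_le_div_of_nonneg_left (ind_nonneg _) hδ (h _ _ hu)

omit [DecidableEq V] in
lemma kout_supp {b : Bool} {u : V} (hu : P b u) {i : Fin 1000} {v : V}
    (hv : koutW P R s ((b, u), i) v ≠ 0) : R b u v := by
  by_contra h
  simp only [koutW, if_pos hu, ind_neg h, zero_div] at hv
  exact hv rfl

lemma kout_pick (hδ : 0 < δ) (h : ∀ b u, P b u → δ ≤ ct (R b u)) {b : Bool} {u : V} (hu : P b u)
    (v : V) : Ex (koutW P R s) (fun x => ind (∃ i, x ((b, u), i) = v)) ≤ 1000 / δ := by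
  have hw := kout_isP (s := s) hδ h
  refine (Ex_exists_le hw (univ : Finset (Fin 1000)) (fun i x => x ((b, u), i) = v)
    (fun _ => 1 / δ) (fun i _ => ?_) _ fun x hx => by simpa using hx).trans ?_
  · have := Ex_all _ hw {((b, u), i)} fun _ a => ind (a = v)
    simp only [prod_singleton] at this
    rw [this, sum_congr rfl fun a _ => mul_comm _ _, sum_ind_eq]
    exact (kout_le hδ h hu i v).trans (div_le_div_of_nonneg_right (ind_le_one _) hδ.le)
  · rw [sum_const, card_univ, Fintype.card_fin, nsmul_eq_mul]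
    push_cast
    exact le_of_eq (by ring)

omit [Fintype V] [DecidableEq V] in
lemma kout_amgm (X : Finset V) (a : V → ℝ) (ha : ∀ u, 0 ≤ a u) {ψ : ℝ} (hψ : 0 < ψ)
    (h : ∑ u ∈ X, a u ≤ X.card * ψ) : ∏ u ∈ X, a u ≤ ψ ^ X.card := by
  have h1 : ∀ u ∈ X, a u ≤ ψ * exp (a u / ψ - 1) := fun u _ => by
    have := add_one_le_exp (a u / ψ - 1)
    calc a u = ψ * (a u / ψ - 1 + 1) := by field_simp; ring
      _ ≤ _ := mul_le_mul_of_nonneg_left this hψ.le
  refine (prod_le_prod (fun u _ => ha u) h1).trans ?_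
  rw [prod_mul_distrib, prod_const, ← exp_sum]
  refine mul_le_of_le_one_right (by positivity) (exp_le_one_iff.2 ?_)
  rw [sum_sub_distrib, ← sum_div, sum_const, nsmul_eq_mul, mul_one, sub_nonpos, div_le_iff₀ hψ]
  exact h

lemma kout_trap (hδ : 0 < δ) (h : ∀ b u, P b u → δ ≤ ct (R b u)) (b : Bool) (X Y : Finset V)
    (hX : ∀ u ∈ X, P b u) {ψ : ℝ} (hψ : 0 < ψ)
    (hs : ∑ u ∈ X, ∑ v ∈ Y, ind (R b u v) ≤ X.card * δ * ψ) :
    Ex (koutW P R s) (fun x => ind (∀ u ∈ X, ∀ i, x ((b, u), i) ∈ Y)) ≤ ψ ^ (1000 * X.card) := by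
  have hw := kout_isP (s := s) hδ h
  have inj : Set.InjOn (Prod.mk b) (X : Set V) := fun u _ v _ e => (Prod.ext_iff.1 e).2
  have e1 : ∀ x : (Bool × V) × Fin 1000 → V, ind (∀ u ∈ X, ∀ i, x ((b, u), i) ∈ Y) =
      ∏ k ∈ X.image (Prod.mk b) ×ˢ (univ : Finset (Fin 1000)), ind (x k ∈ Y) := fun x => by
    rw [← ind_forall]
    refine ind_congr ⟨fun H k hk => ?_, fun H u hu i => H _ ?_⟩
    · obtain ⟨u, hu, e⟩ := mem_image.1 (mem_product.1 hk).1
      have : k = ((b, u), k.2) := Prod.ext e.symm rfl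
      rw [this]
      exact H u hu _
    · exact mem_product.2 ⟨mem_image_of_mem _ hu, mem_univ _⟩
  rw [Ex_congr e1, Ex_all _ hw _ fun _ a => ind (a ∈ Y), prod_product, prod_image inj]
  have h0 : ∀ u, 0 ≤ (∑ v ∈ Y, ind (R b u v)) / δ := fun u =>
    div_nonneg (sum_nonneg fun _ _ => ind_nonneg _) hδ.le
  have h2 := kout_amgm X (fun u => (∑ v ∈ Y, ind (R b u v)) / δ) h0 hψ (by
    rw [← sum_div, div_le_iff₀ hδ]; linarith)
  calc _ ≤ ∏ u ∈ X, ((∑ v ∈ Y, ind (R b u v)) / δ) ^ 1000 := by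
        refine prod_le_prod (fun u _ => prod_nonneg fun i _ => sum_nonneg fun a _ =>
          mul_nonneg (hw.nonneg _ _) (ind_nonneg _)) fun u hu => ?_
        have : ((∑ v ∈ Y, ind (R b u v)) / δ) ^ 1000 =
            ∏ _i : Fin 1000, (∑ v ∈ Y, ind (R b u v)) / δ := by
          rw [prod_const, card_univ, Fintype.card_fin]
        rw [this]
        refine prod_le_prod (fun i _ => sum_nonneg fun a _ =>
          mul_nonneg (hw.nonneg _ _) (ind_nonneg _)) fun i _ => ?_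
        rw [sum_mem_ind, ct, sum_div]
        refine sum_le_sum fun a _ => ?_
        rw [ind_and, mul_div_assoc, mul_comm]
        exact mul_le_mul_of_nonneg_left (kout_le hδ h (hX u hu) i a) (ind_nonneg _)
    _ ≤ _ := by
        rw [prod_pow, mul_comm 1000, pow_mul]
        exact pow_le_pow_left₀ (prod_nonneg fun u _ => h0 u) h2 _

lemma kout_union (hδ : 0 < δ) (h : ∀ b u, P b u → δ ≤ ct (R b u)) (b : Bool) (A B : Finset V)
    (hA : ∀ u ∈ A, P b u) {a : ℕ} (ha : A.card = a) (hb : B.card = a) {N υ ϑ ε : ℝ}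
    (haN : (a : ℝ) ≤ N)
    (hexp : ∀ X Y : Finset V, X.card = Y.card →
      ∑ u ∈ X, ∑ v ∈ Y, ind (R b u v) ≤ X.card * δ * (6 / 5 * X.card / N + ϑ))
    (hN : 50 ≤ N) (hϑ0 : 0 ≤ ϑ) (hϑ : 10 * ϑ ≤ υ) (h1 : 9 * N ^ 2 * (13 / 10 * υ) ^ 1000 ≤ ε)
    (h2 : exp (-(N * υ)) ≤ ε) (hε : ε ≤ 1) :
    Ex (koutW P R s) (fun x => ind (∃ X ⊆ A, ∃ Y ⊆ B, X.card = Y.card ∧ 1 ≤ X.card ∧
      2 * X.card ≤ a + 1 ∧ ∀ u ∈ X, ∀ i, x ((b, u), i) ∈ Y)) ≤ N * ε := by
  have hw := kout_isP (s := s) hδ h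
  have hε0 : 0 ≤ ε := (exp_pos _).le.trans h2
  refine (Ex_exists_le hw ((Icc 1 a).filter fun j => 2 * j ≤ a + 1)
    (fun j x => ∃ p ∈ powersetCard j A ×ˢ powersetCard j B, ∀ u ∈ p.1, ∀ i, x ((b, u), i) ∈ p.2)
    (fun _ => ε) (fun j hj => ?_) _ fun x hx => ?_).trans ?_
  · obtain ⟨hj1, hj2⟩ := mem_filter.1 hj
    have hj0 := (mem_Icc.1 hj1).1
    have hψ : 0 < 6 / 5 * (j : ℝ) / N + ϑ := by
      have : (0 : ℝ) < j := by exact_mod_cast hj0
      have : (0 : ℝ) < N := by linarith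
      positivity
    refine (Ex_exists_le hw (powersetCard j A ×ˢ powersetCard j B)
      (fun p x => ∀ u ∈ p.1, ∀ i, x ((b, u), i) ∈ p.2)
      (fun _ => (6 / 5 * (j : ℝ) / N + ϑ) ^ (1000 * j)) (fun p hp => ?_) _ fun x hx => hx).trans ?_
    · obtain ⟨hp1, hp2⟩ := mem_product.1 hp
      obtain ⟨s1, c1⟩ := mem_powersetCard.1 hp1
      obtain ⟨-, c2⟩ := mem_powersetCard.1 hp2
      have := kout_trap (s := s) hδ h b p.1 p.2 (fun u hu => hA u (s1 hu)) hψ (by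
        have := hexp p.1 p.2 (c1.trans c2.symm)
        rwa [c1] at this ⊢)
      rwa [c1] at this
    · rw [sum_const, card_product, card_powersetCard, card_powersetCard, ha, hb, nsmul_eq_mul,
        Nat.cast_mul, ← sq]
      exact kout_num hN haN hj0 hj2 hϑ0 hϑ h1 h2 hε
  · obtain ⟨X, hX, Y, hY, c, c1, c2, H⟩ := hx
    exact ⟨X.card, mem_filter.2 ⟨mem_Icc.2 ⟨c1, ha ▸ card_le_card hX⟩, c2⟩, (X, Y),
      mem_product.2 ⟨mem_powersetCard.2 ⟨hX, rfl⟩, mem_powersetCard.2 ⟨hY, c.symm⟩⟩, H⟩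
  · rw [sum_const, nsmul_eq_mul]
    refine mul_le_mul_of_nonneg_right (le_trans ?_ haN) hε0
    exact_mod_cast (card_filter_le _ _).trans (by simp)

end

omit [Fintype V] in
lemma kout_fam (A B : Finset V) (E : V → V → Prop) (s : V) : ∃ G : Finset (Tr V),
    (∀ t ∈ G, t.2.2 = s ∧ t.1 ∈ A ∧ t.2.1 ∈ B ∧ E t.1 t.2.1) ∧
    (∀ t ∈ G, ∀ t' ∈ G, t.1 = t'.1 ∨ t.2.1 = t'.2.1 → t = t') ∧
    ((∃ f : V → V, (∀ r ∈ A, f r ∈ B ∧ E r (f r)) ∧ (∀ r ∈ A, ∀ r' ∈ A, f r = f r' → r = r') ∧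
      ∀ c ∈ B, ∃ r ∈ A, f r = c) → (∀ r ∈ A, Cv G (1, r, s)) ∧ ∀ c ∈ B, Cv G (2, c, s)) := by
  by_cases h : ∃ f : V → V, (∀ r ∈ A, f r ∈ B ∧ E r (f r)) ∧
      (∀ r ∈ A, ∀ r' ∈ A, f r = f r' → r = r') ∧ ∀ c ∈ B, ∃ r ∈ A, f r = c
  · obtain ⟨f, h1, h2, h3⟩ := h
    refine ⟨A.image fun r => (r, f r, s), fun t ht => ?_, fun t ht t' ht' e => ?_,
      fun _ => ⟨fun r hr => ⟨_, mem_image_of_mem _ hr, rfl⟩, fun c hc => ?_⟩⟩
    · obtain ⟨r, hr, rfl⟩ := mem_image.1 ht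
      exact ⟨rfl, hr, h1 r hr⟩
    · obtain ⟨r, hr, rfl⟩ := mem_image.1 ht
      obtain ⟨r', hr', rfl⟩ := mem_image.1 ht'
      have : r = r' := e.elim id (h2 r hr r' hr')
      rw [this]
    · obtain ⟨r, hr, rfl⟩ := h3 c hc
      exact ⟨_, mem_image_of_mem _ hr, rfl⟩
  · exact ⟨∅, by simp, by simp, fun h' => absurd h' h⟩

/-- Random picks give a spread perfect matching. -/
theorem kout (A B : V → Prop) (Γ : V → V → Prop) (s : V) {δ N υ ϑ ε : ℝ} (hδ : 0 < δ)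
    (hAB : ct A = ct B) (hAN : ct A ≤ N)
    (hA : ∀ r, A r → δ ≤ ct fun c => B c ∧ Γ r c) (hB : ∀ c, B c → δ ≤ ct fun r => A r ∧ Γ r c)
    (hexp : ∀ X Y : Finset V, X.card = Y.card →
      ∑ r ∈ X, ∑ c ∈ Y, ind (Γ r c) ≤ X.card * δ * (6 / 5 * X.card / N + ϑ))
    (hN : 50 ≤ N) (hϑ0 : 0 ≤ ϑ) (hϑ : 10 * ϑ ≤ υ) (h1 : 9 * N ^ 2 * (13 / 10 * υ) ^ 1000 ≤ ε)
    (h2 : exp (-(N * υ)) ≤ ε) (hε : ε ≤ 1) :
    Ach (fun t : Tr V => 2000 / δ * ind (t.2.2 = s ∧ A t.1 ∧ B t.2.1 ∧ Γ t.1 t.2.1)) (2 * N * ε)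
      fun F => PL F ∧ (∀ t ∈ F, t.2.2 = s ∧ A t.1 ∧ B t.2.1 ∧ Γ t.1 t.2.1) ∧
        (∀ r, A r → Cv F (1, r, s)) ∧ ∀ c, B c → Cv F (2, c, s) := by
  classical
  let P : Bool → V → Prop := fun b => if b then A else B
  let R : Bool → V → V → Prop := fun b u v => if b then B v ∧ Γ u v else A v ∧ Γ v u
  have h : ∀ b u, P b u → δ ≤ ct (R b u) := fun b u hu => by
    cases b
    · exact hB u hu
    · exact hA u hu
  have hw := kout_isP (s := s) hδ h
  have mA : ∀ r, r ∈ univ.filter A ↔ A r := fun r => by simp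
  have mB : ∀ r, r ∈ univ.filter B ↔ B r := fun r => by simp
  rw [ct_card, ct_card] at hAB
  rw [ct_card] at hAN
  have hc : (univ.filter A).card = (univ.filter B).card := by exact_mod_cast hAB
  let E : ((Bool × V) × Fin 1000 → V) → V → V → Prop := fun x r c =>
    Γ r c ∧ ((∃ i, x ((true, r), i) = c) ∨ ∃ i, x ((false, c), i) = r)
  choose F hF1 hF2 hF3 using fun x => kout_fam (univ.filter A) (univ.filter B) (E x) s
  refine Ach.of (pm_prod hw) F (fun S => ?_) ?_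
  · rw [← Ex_eq_Av]
    by_cases hS : ∃ x, S ⊆ F x
    · obtain ⟨y, hy⟩ := hS
      calc _ ≤ Ex (koutW P R s) fun x => ∏ t ∈ S, ind ((∃ i, x ((true, t.1), i) = t.2.1) ∨
            ∃ i, x ((false, t.2.1), i) = t.1) := by
            refine Ex_mono hw.nonneg fun x => ?_
            rw [← ind_forall]
            exact ind_mono fun hx t ht => (hF1 x t (hx ht)).2.2.2.2
        _ = _ := Ex_prod_indep hw S (fun t k => k.1 = (true, t.1) ∨ k.1 = (false, t.2.1)) _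
            (fun t _ x x' hx => ind_congr (or_congr
              (exists_congr fun i => by rw [hx _ (Or.inl rfl)])
              (exists_congr fun i => by rw [hx _ (Or.inr rfl)])))
            (fun t ht t' ht' k hk hk' => hF2 y t (hy ht) t' (hy ht') (by
              rcases hk with e | e <;> rcases hk' with e' | e' <;> rw [e] at e' <;>
                simp only [Prod.mk.injEq] at e'
              · exact Or.inl e'.2
              · exact absurd e'.1 (by simp)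
              · exact absurd e'.1 (by simp)
              · exact Or.inr e'.2))
        _ ≤ _ := by
            refine prod_le_prod (fun t _ => Ex_nonneg hw.nonneg fun _ => ind_nonneg _)
              fun t ht => ?_
            obtain ⟨a1, a2, a3, a4, -⟩ := hF1 y t (hy ht)
            rw [ind_pos ⟨a1, (mA _).1 a2, (mB _).1 a3, a4⟩, mul_one]
            refine (Ex_mono hw.nonneg fun x => ind_or_le _ _).trans ?_
            rw [Ex_add]
            have b1 := kout_pick (s := s) hδ h (b := true) (u := t.1) ((mA _).1 a2) t.2.1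
            have b2 := kout_pick (s := s) hδ h (b := false) (u := t.2.1) ((mB _).1 a3) t.1
            have : 2000 / δ = 1000 / δ + 1000 / δ := by ring
            linarith
    · rw [Ex_congr fun x => ind_neg fun hx => hS ⟨x, hx⟩, Ex_const hw]
      exact prod_nonneg fun t _ => mul_nonneg (div_nonneg (by norm_num) hδ.le) (ind_nonneg _)
  · rw [← Ex_eq_Av]
    have u1 := kout_union (s := s) hδ h true (univ.filter A) (univ.filter B)
      (fun u hu => (mA u).1 hu) rfl hc.symm hAN (fun X Y c => le_trans (sum_le_sum fun u _ =>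
        sum_le_sum fun v _ => ind_mono fun hh => hh.2) (hexp X Y c)) hN hϑ0 hϑ h1 h2 hε
    have u2 := kout_union (s := s) hδ h false (univ.filter B) (univ.filter A)
      (fun u hu => (mB u).1 hu) hc.symm rfl hAN (fun X Y c => by
        have := hexp Y X c.symm
        rw [sum_comm, ← c] at this
        exact le_trans (sum_le_sum fun u _ =>
          sum_le_sum fun v _ => ind_mono fun hh => hh.2) this) hN hϑ0 hϑ h1 h2 hε
    refine le_trans (Ex_mono' hw.nonneg fun x hx => ?_)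
      ((Ex_add _ _).le.trans ((add_le_add u1 u2).trans (le_of_eq (by ring))))
    refine le_trans (ind_mono fun hP => ?_) (ind_or_le _ _)
    by_contra hcon
    obtain ⟨n1, n2⟩ := not_or.1 hcon
    have := hF3 x (kout_hall _ _ hc (E x) (fun X hX Y hY c c1 c2 => ?_) fun X hX Y hY c c1 c2 => ?_)
    · refine hP ⟨fun t ht t' ht' k hk => hF2 x t ht t' ht' ?_, fun t ht => ?_,
        fun r hr => this.1 r ((mA r).2 hr), fun c hc => this.2 c ((mB c).2 hc)⟩
      · fin_cases k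
        · exact Or.inl (Prod.ext_iff.1 (Prod.ext_iff.1 hk).2).1
        · exact Or.inl (Prod.ext_iff.1 (Prod.ext_iff.1 hk).2).1
        · exact Or.inr (Prod.ext_iff.1 (Prod.ext_iff.1 hk).2).1
      · obtain ⟨a1, a2, a3, a4, -⟩ := hF1 x t ht
        exact ⟨a1, (mA _).1 a2, (mB _).1 a3, a4⟩
    · by_contra hn
      refine n1 ⟨X, hX, Y, hY, c, c1, c2, fun u hu i => ?_⟩
      by_contra hv
      have := kout_supp (P := P) (R := R) (b := true) ((mA u).1 (hX hu)) (hx ((true, u), i))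
      exact hn ⟨u, hu, _, (mB _).2 this.1, hv, this.2, Or.inl ⟨i, rfl⟩⟩
    · by_contra hn
      refine n2 ⟨Y, hY, X, hX, c.symm, c ▸ c1, c ▸ c2, fun u hu i => ?_⟩
      by_contra hv
      have := kout_supp (P := P) (R := R) (b := false) ((mB u).1 (hY hu)) (hx ((false, u), i))
      exact hn ⟨u, hu, _, (mA _).2 this.1, hv, this.2, Or.inr ⟨i, rfl⟩⟩

end Pool.Agent.MP_46aeaf_co.HT

/-! Perfect matchings for the symbols of a level. -/

namespace Pool.Agent.MP_46aeaf_co.HT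

open Finset Pool.Agent.MP_81e6aa_pr Real Filter

section

variable {V : Type} [Fintype V] [DecidableEq V] {γ ζ L d p : ℝ} {D B : V → Prop}
  {G Q W O : Ln V → Prop} {M M' F : Finset (Tr V)} {s : V}

omit [DecidableEq V] in
lemma phb0_cvM (hA : PA γ d B G W O M) {σ : Bool} {v : V} (h : Cv M (sl σ v s)) :
    W (sl σ v s) ∧ ¬ B s := by
  obtain ⟨t, ht, he⟩ := h
  obtain ⟨-, h1, h2, h3⟩ := hA.mem t ht
  have hs : t.2.2 = s := by cases σ <;> simp [sl, Prod.ext_iff] at he <;> exact he.2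
  refine ⟨?_, hs ▸ h3⟩
  rw [← he]
  cases σ
  · exact h2
  · exact h1

omit [DecidableEq V] in
lemma phb0_cvM' (hS : PS γ p B D G Q O M M') {σ : Bool} {v : V} (h : Cv M' (sl σ v s)) :
    O (sl σ v s) ∧ ¬ B s := by
  obtain ⟨t, ht, he⟩ := h
  obtain ⟨-, -, h1, h2, h3⟩ := hS.mem t ht
  have hs : t.2.2 = s := by cases σ <;> simp [sl, Prod.ext_iff] at he <;> exact he.2
  refine ⟨?_, hs ▸ h3⟩
  rw [← he]
  cases σ
  · exact h2
  · exact h1

lemma phb0_pl (h : Lv γ ζ L d p D G Q W O) (hA : PA γ d B G W O M)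
    (hS : PS γ p B D G Q O M M') : PL (M ∪ M') := by
  refine hA.pl.union hS.pl fun e he he' => ?_
  by_cases h0 : e.1 = 0
  · obtain ⟨t, ht, het⟩ := he'
    have := (hS.mem t ht).2.1
    rw [h0] at het
    rw [het] at this
    exact this he
  · obtain ⟨σ, hσ⟩ := exists_sl h0
    rw [hσ] at he he'
    exact h.WO _ (phb0_cvM hA he).1 (phb0_cvM' hS he').1

lemma phb0_rem (hA : PA γ d B G W O M) (hS : PS γ p B D G Q O M M') (σ : Bool) :
    ct (fun v => (W (sl σ v s) ∨ O (sl σ v s)) ∧ ¬ Cv (M ∪ M') (sl σ v s)) =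
      ct (fun v => W (sl σ v s) ∨ O (sl σ v s)) - ct fun v => Cv (M ∪ M') (sl σ v s) := by
  rw [ct_split (fun v => W (sl σ v s) ∨ O (sl σ v s)) fun v => Cv (M ∪ M') (sl σ v s),
    ct_congr (X := fun v => (W (sl σ v s) ∨ O (sl σ v s)) ∧ Cv (M ∪ M') (sl σ v s))
      (Y := fun v => Cv (M ∪ M') (sl σ v s)) fun v => ⟨fun h => h.2, fun h => ⟨?_, h⟩⟩]
  · ring
  · rcases cv_union.1 h with h | h
    · exact Or.inl (phb0_cvM hA h).1
    · exact Or.inr (phb0_cvM' hS h).1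

/-- the two counting estimates -/
lemma phb0_cnt (hγ0 : 0 < γ) (hζ : ζ ≤ 1 / 100) (hp : 0 ≤ p) (h : Lv γ ζ L d p D G Q W O)
    (hA : PA γ d B G W O M) (hS : PS γ p B D G Q O M M') (hD : D s)
    (h1 : ∀ σ v, ct (fun u => Q (cl σ v u) ∧ O (sl (!σ) u s) ∧ Cv F (cl σ v u)) ≤
      3 / 100 * (p * (γ * e0) * Fintype.card V))
    (h2 : ∀ σ v, ct (fun u => Q (cl σ v u) ∧ (W (sl (!σ) u s) ∨ O (sl (!σ) u s)) ∧
      Cv F (cl σ v u)) ≤ 3 / 100 * (p * γ * Fintype.card V)) :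
    ∃ g, γ * e0 ≤ g ∧ g ≤ γ ∧
      ct (fun v => (W (sl true v s) ∨ O (sl true v s)) ∧ ¬ Cv (M ∪ M') (sl true v s)) ≤
        102 / 100 * g * Fintype.card V ∧
      ∀ σ v, 9 / 10 * p * g * Fintype.card V ≤
        ct fun u => ((W (sl (!σ) u s) ∨ O (sl (!σ) u s)) ∧ ¬ Cv (M ∪ M') (sl (!σ) u s)) ∧
          Q (cl σ v u) ∧ ¬ Cv F (cl σ v u) := by
  have he0 : 0 < e0 := by unfold e0; norm_num
  have he1 : e0 ≤ 1 := by unfold e0; norm_num
  have hn : (0 : ℝ) ≤ Fintype.card V := Nat.cast_nonneg _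
  by_cases hB : B s
  · have hc : ∀ σ v, ¬ Cv (M ∪ M') (sl σ v s) := fun σ v hc => by
      rcases cv_union.1 hc with hc | hc
      · exact (phb0_cvM hA hc).2 hB
      · exact (phb0_cvM' hS hc).2 hB
    refine ⟨γ, mul_le_of_le_one_right hγ0.le he1, le_rfl, ?_, fun σ v => ?_⟩
    · have a1 := h.s1w true s
      have a2 := h.s1o true s
      have a3 := ct_le_add (X := fun v => (W (sl true v s) ∨ O (sl true v s)) ∧
        ¬ Cv (M ∪ M') (sl true v s)) (Y := fun v => W (sl true v s))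
        (Z := fun v => O (sl true v s)) fun v hv => hv.1
      have a4 : ζ * (γ * Fintype.card V) ≤ 1 / 100 * (γ * Fintype.card V) :=
        mul_le_mul_of_nonneg_right hζ (by positivity)
      have a5 : 0 ≤ γ * Fintype.card V := by positivity
      linarith
    · have a1 := (abs_le.1 (h.qu σ v s hD)).1
      have a2 := h2 σ v
      have a3 := ct_le_add
        (X := fun u => Q (cl σ v u) ∧ (W (sl (!σ) u s) ∨ O (sl (!σ) u s)))
        (Y := fun u => ((W (sl (!σ) u s) ∨ O (sl (!σ) u s)) ∧ ¬ Cv (M ∪ M') (sl (!σ) u s)) ∧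
          Q (cl σ v u) ∧ ¬ Cv F (cl σ v u))
        (Z := fun u => Q (cl σ v u) ∧ (W (sl (!σ) u s) ∨ O (sl (!σ) u s)) ∧ Cv F (cl σ v u))
        fun u hu => by
          by_cases hF : Cv F (cl σ v u)
          · exact Or.inr ⟨hu.1, hu.2, hF⟩
          · exact Or.inl ⟨⟨hu.2, hc _ _⟩, hu.1, hF⟩
      have a5 : 0 ≤ p * γ * Fintype.card V := by positivity
      have a4 : ζ * (p * γ * Fintype.card V) ≤ 1 / 100 * (p * γ * Fintype.card V) :=
        mul_le_mul_of_nonneg_right hζ a5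
      linarith
  · refine ⟨γ * e0, le_rfl, mul_le_of_le_one_right hγ0.le he1, ?_, fun σ v => ?_⟩
    · have a1 := hA.t2 true s hB
      have a2 := h.s1o true s
      have a3 := ct_le_add (X := fun v => (W (sl true v s) ∨ O (sl true v s)) ∧
        ¬ Cv (M ∪ M') (sl true v s)) (Y := fun v => W (sl true v s) ∧ ¬ Cv M (sl true v s))
        (Z := fun v => O (sl true v s)) fun v hv =>
          hv.1.imp_left fun hw => ⟨hw, fun hc => hv.2 (cv_union.2 (Or.inl hc))⟩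
      have a5 : 0 ≤ γ * e0 * Fintype.card V := by positivity
      have a4 : ζ * (γ * e0 * Fintype.card V) ≤ 1 / 100 * (γ * e0 * Fintype.card V) :=
        mul_le_mul_of_nonneg_right hζ a5
      have a6 : e0 * (γ * e0 * Fintype.card V) ≤ 1 * (γ * e0 * Fintype.card V) :=
        mul_le_mul_of_nonneg_right he1 a5
      linarith
    · have a1 := (abs_le.1 (h.qo σ v s hD)).1
      have a2 := h1 σ v
      have a2' := hS.t4 σ v s hD
      have a3 := ct_le_add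
        (X := fun u => Q (cl σ v u) ∧ O (sl (!σ) u s))
        (Y := fun u => ((W (sl (!σ) u s) ∨ O (sl (!σ) u s)) ∧ ¬ Cv (M ∪ M') (sl (!σ) u s)) ∧
          Q (cl σ v u) ∧ ¬ Cv F (cl σ v u))
        (Z := fun u => (Q (cl σ v u) ∧ O (sl (!σ) u s) ∧ Cv F (cl σ v u)) ∨
          (Q (cl σ v u) ∧ O (sl (!σ) u s) ∧ Cv M' (sl (!σ) u s)))
        fun u hu => by
          by_cases hF : Cv F (cl σ v u)
          · exact Or.inr (Or.inl ⟨hu.1, hu.2, hF⟩)
          by_cases hM : Cv M' (sl (!σ) u s)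
          · exact Or.inr (Or.inr ⟨hu.1, hu.2, hM⟩)
          refine Or.inl ⟨⟨Or.inr hu.2, fun hc => ?_⟩, hu.1, hF⟩
          rcases cv_union.1 hc with hc | hc
          · exact h.WO _ (phb0_cvM hA hc).1 hu.2
          · exact hM hc
      have a3' := ct_or_le (fun u => Q (cl σ v u) ∧ O (sl (!σ) u s) ∧ Cv F (cl σ v u))
        fun u => Q (cl σ v u) ∧ O (sl (!σ) u s) ∧ Cv M' (sl (!σ) u s)
      have a5 : 0 ≤ p * (γ * e0) * Fintype.card V := by positivity
      have a4 : ζ * (p * (γ * e0) * Fintype.card V) ≤ 1 / 100 * (p * (γ * e0) * Fintype.card V) :=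
        mul_le_mul_of_nonneg_right hζ a5
      linarith

end

lemma phb0_pow (C L : ℝ) {N : ℝ} (hC : C = (13 / 10) ^ 1000) (hN0 : 0 ≤ N) (hN : N ≤ exp L)
    (h : 9 * C * L ^ 0 * exp (-8 * L) ≤ exp (-6 * L)) :
    9 * N ^ 2 * (13 / 10 * exp (-(L / 100))) ^ 1000 ≤ exp (-6 * L) := by
  have hC0 : 0 ≤ C := hC ▸ pow_nonneg (by norm_num) _
  rw [mul_pow, ← hC, ← exp_nat_mul]
  have e1 : N ^ 2 ≤ exp L ^ 2 := pow_le_pow_left₀ hN0 hN 2
  have e2 : exp L ^ 2 * exp (((1000 : ℕ) : ℝ) * -(L / 100)) = exp (-8 * L) := by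
    rw [← exp_nat_mul, ← exp_add]; congr 1; push_cast; ring
  have e3 := exp_pos (((1000 : ℕ) : ℝ) * -(L / 100))
  calc _ ≤ 9 * exp L ^ 2 * (C * exp (((1000 : ℕ) : ℝ) * -(L / 100))) := by gcongr
    _ = 9 * C * L ^ 0 * exp (-8 * L) := by rw [← e2]; ring
    _ ≤ _ := h

/-- One symbol: apply `kout` to the remaining symbol lines at `s`. -/
theorem phB_step (γ : ℝ) (hγ0 : 0 < γ) (hγ : γ ≤ 1 / 10) :
    ∀ᶠ L : ℝ in atTop, ∀ (V : Type) [Fintype V] [DecidableEq V] (ζ d p : ℝ) (D B : V → Prop)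
      (G Q W O : Ln V → Prop) (M M' F : Finset (Tr V)) (s : V), 0 ≤ ζ → ζ ≤ 1 / 100 →
      Lv γ ζ L d p D G Q W O → PA γ d B G W O M → PS γ p B D G Q O M M' →
      (∀ σ v, ct (fun u => Q (cl σ v u) ∧ O (sl (!σ) u s) ∧ Cv F (cl σ v u)) ≤
        3 / 100 * (p * (γ * e0) * Fintype.card V)) →
      (∀ σ v, ct (fun u => Q (cl σ v u) ∧ (W (sl (!σ) u s) ∨ O (sl (!σ) u s)) ∧
        Cv F (cl σ v u)) ≤ 3 / 100 * (p * γ * Fintype.card V)) →
      Ach (fun t => 9000 / (e0 * γ ^ 2 * d) * ind (t.2.2 = s ∧ Q (ed 0 t) ∧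
          ((W (ed 1 t) ∨ O (ed 1 t)) ∧ ¬ Cv (M ∪ M') (ed 1 t)) ∧
          (W (ed 2 t) ∨ O (ed 2 t)) ∧ ¬ Cv (M ∪ M') (ed 2 t))) (exp (-(49 / 10 * L)))
        fun F' => PL F' ∧ (∀ t ∈ F', t.2.2 = s ∧ (Q (ed 0 t) ∧ ¬ Cv F (ed 0 t)) ∧
          ((W (ed 1 t) ∨ O (ed 1 t)) ∧ ¬ Cv (M ∪ M') (ed 1 t)) ∧
          (W (ed 2 t) ∨ O (ed 2 t)) ∧ ¬ Cv (M ∪ M') (ed 2 t)) ∧
          ∀ e : Ln V, e.2.2 = s → W e ∨ O e → ¬ Cv (M ∪ M') e → Cv F' e := by
  have he0 : 0 < e0 := by unfold e0; norm_num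
  obtain ⟨C, hC⟩ : ∃ C : ℝ, C = (13 / 10) ^ 1000 := ⟨_, rfl⟩
  filter_upwards [eventually_ge_atTop 0, ev_pow (50 / (γ * e0)) 0 one_pos,
    ev_exp (1000 / (9 / 40 * (e0 * γ ^ 2))) 1 (show (1 / 100 : ℝ) < 1 / 60 by norm_num),
    ev_exp (9 * C) 0 (show (-8 : ℝ) < -6 by norm_num),
    ev_exp (6 / (γ * e0)) 1 (show (1 / 100 : ℝ) < 1 by norm_num),
    ev_exp 2 0 (show (-5 : ℝ) < -(49 / 10) by norm_num)] with L hL e1 e2 e3 e4 e5
  intro V _ _ ζ d p D B G Q W O M M' F s hζ0 hζ h hA hS h1 h2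
  have hd : 0 < d := (exp_pos _).trans_le h.dbig
  have hc : 0 < e0 * γ ^ 2 * d := by positivity
  by_cases hD : D s
  swap
  · refine (Ach.pure (fun t => mul_nonneg (by positivity) (ind_nonneg _)) ?_).mono
      (fun _ => le_rfl) (exp_pos _).le fun _ h => h
    refine ⟨pl_empty, fun t ht => by simp at ht, fun e he hw _ => absurd ?_ hD⟩
    rw [← he]
    exact hw.elim (fun hw => (h.tW e hw).2) fun hw => (h.tO e hw).2
  have hn : (0 : ℝ) < Fintype.card V := h.card ▸ exp_pos L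
  have hpn : 0 < p * Fintype.card V := lt_of_lt_of_le (by positivity) h.hp
  have hp : 0 < p := (mul_pos_iff_of_pos_right hn).1 hpn
  obtain ⟨g, hg0, hg1, hN, hdeg⟩ := phb0_cnt hγ0 hζ hp.le h hA hS hD h1 h2
  have hge : 0 < γ * e0 := by positivity
  have hg : 0 < g := hge.trans_le hg0
  set δ := 9 / 10 * p * g * Fintype.card V with hδ
  set N := 102 / 100 * g * Fintype.card V with hNd
  have hδ0 : 0 < δ := by positivity
  have hδ1 : 9 / 40 * (e0 * γ ^ 2 * d) ≤ δ := by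
    have a : γ * e0 * (γ * d / 4) ≤ g * (p * Fintype.card V) :=
      mul_le_mul hg0 h.hp (by positivity) hg.le
    rw [hδ]; linarith
  have hN0 : 0 < N := by positivity
  have hN1 : γ * e0 * exp L ≤ N := by
    have a : γ * e0 * Fintype.card V ≤ g * Fintype.card V := mul_le_mul_of_nonneg_right hg0 hn.le
    have b : 0 ≤ g * Fintype.card V := by positivity
    rw [← h.card, hNd]; linarith
  have hN2 : N ≤ exp L := by
    have a : g * Fintype.card V ≤ 1 / 10 * Fintype.card V :=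
      mul_le_mul_of_nonneg_right (hg1.trans hγ) hn.le
    rw [← h.card, hNd]; linarith
  have hυ : exp (-(L / 100)) * exp (1 / 100 * L) = 1 := by
    rw [← exp_add, show -(L / 100) + 1 / 100 * L = 0 by ring, exp_zero]
  have hυ0 := exp_pos (-(L / 100))
  have key := kout (fun v => (W (sl true v s) ∨ O (sl true v s)) ∧ ¬ Cv (M ∪ M') (sl true v s))
    (fun v => (W (sl false v s) ∨ O (sl false v s)) ∧ ¬ Cv (M ∪ M') (sl false v s))
    (fun r c => Q (0, r, c) ∧ ¬ Cv F (0, r, c)) s (δ := δ) (N := N) (υ := exp (-(L / 100)))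
    (ϑ := 100 * L / δ) (ε := exp (-6 * L)) hδ0
    (by rw [phb0_rem hA hS, phb0_rem hA hS, h.bal s, (phb0_pl h hA hS).bal.2 s]) hN
    (fun r _ => hdeg true r) (fun c _ => hdeg false c) ?_ ?_ (by positivity) ?_
    (phb0_pow C L hC hN0.le hN2 e3) ?_ (exp_le_one_iff.2 (by linarith))
  · refine key.mono (fun t => ?_) ?_ ?_
    · refine mul_le_mul ?_ (ind_mono ?_) (ind_nonneg _) (by positivity)
      · rw [div_le_div_iff₀ hδ0 hc]; linarith
      · rintro ⟨rfl, a, b, c, -⟩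
        exact ⟨rfl, c, a, b⟩
    · have a : exp L * exp (-6 * L) = exp (-5 * L) := by rw [← exp_add]; congr 1; ring
      have b : N * exp (-6 * L) ≤ exp L * exp (-6 * L) :=
        mul_le_mul_of_nonneg_right hN2 (exp_pos _).le
      rw [show -(49 / 10 * L) = -(49 / 10) * L by ring]
      rw [pow_zero] at e5
      linarith
    · rintro F' ⟨a, b, c, c'⟩
      refine ⟨a, fun t ht => ?_, fun e he hw hc => ?_⟩
      · obtain ⟨rfl, b1, b2, b3⟩ := b t ht
        exact ⟨rfl, b3, b1, b2⟩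
      · have h0 : e.1 ≠ 0 := hw.elim (fun hw => (h.tW e hw).1) fun hw => (h.tO e hw).1
        obtain ⟨σ, hσ⟩ := exists_sl h0
        rw [he] at hσ
        rw [hσ] at hw hc ⊢
        cases σ
        · exact c' _ ⟨hw, hc⟩
        · exact c _ ⟨hw, hc⟩
  · intro X Y hXY
    have a : ∑ r ∈ X, ∑ c ∈ Y, ind (Q (0, r, c) ∧ ¬ Cv F (0, r, c)) ≤
        ∑ r ∈ X, ∑ c ∈ Y, ind (Q (0, r, c)) :=
      sum_le_sum fun r _ => sum_le_sum fun c _ => ind_mono fun h => h.1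
    have b : (X.card : ℝ) * δ * (6 / 5 * X.card / N + 100 * L / δ) =
        108 / 102 * ((X.card : ℝ) ^ 2 * p) + 100 * X.card * L := by
      rw [hδ, hNd]; field_simp; ring
    have c : 0 ≤ (X.card : ℝ) ^ 2 * p := by positivity
    have := h.edge X Y hXY
    linarith
  · rw [pow_zero, mul_one, one_mul, div_le_iff₀ hge] at e1
    linarith
  · rw [pow_one, div_mul_eq_mul_div, div_mul_eq_mul_div, div_le_iff₀ (by positivity)] at e2
    have a : exp (1 / 60 * L) ≤ d := by rw [show 1 / 60 * L = L / 60 by ring]; exact h.dbig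
    have b : exp (1 / 60 * L) * (9 / 40 * (e0 * γ ^ 2)) ≤ d * (9 / 40 * (e0 * γ ^ 2)) :=
      mul_le_mul_of_nonneg_right a (by positivity)
    have c : 1000 * L * exp (1 / 100 * L) ≤ δ := by linarith
    have c' := mul_le_mul_of_nonneg_left c hυ0.le
    rw [← mul_div_assoc, div_le_iff₀ hδ0]
    calc 10 * (100 * L) = 1000 * L * (exp (-(L / 100)) * exp (1 / 100 * L)) := by rw [hυ]; ring
      _ ≤ _ := by linarith
  · rw [pow_one, one_mul, div_mul_eq_mul_div, div_mul_eq_mul_div, div_le_iff₀ hge] at e4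
    have c : 6 * L * exp (1 / 100 * L) ≤ N := by linarith
    have c' := mul_le_mul_of_nonneg_left c hυ0.le
    refine exp_le_exp.2 ?_
    have : 6 * L = 6 * L * (exp (-(L / 100)) * exp (1 / 100 * L)) := by rw [hυ]; ring
    linarith

end Pool.Agent.MP_46aeaf_co.HT

/-! The matching phase of a level. -/

namespace Pool.Agent.MP_46aeaf_co.HT

open Finset Pool.Agent.MP_81e6aa_pr Real Filter

section

variable {V : Type} [Fintype V]

/-- triples on one of the cells `cl σ v u` with `Y u` -/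
def phb_Z (σ : Bool) (v : V) (Y : V → Prop) (t : Tr V) : Prop := ∃ u, ed 0 t = cl σ v u ∧ Y u

lemma phb_cov (σ : Bool) (v : V) (Y : V → Prop) (F : Finset (Tr V)) :
    ct (fun u => Y u ∧ Cv F (cl σ v u)) ≤ ∑ t ∈ F, ind (phb_Z σ v Y t) := by
  rw [sum_mem_ind]
  refine ct_le_of_surj (fun t : Tr V => if σ then t.2.1 else t.1) ?_
  rintro u ⟨hY, t, ht, he⟩
  rw [cl_fst] at he
  refine ⟨t, ⟨ht, u, he, hY⟩, ?_⟩
  cases σ <;> simp [cl] at he ⊢
  · exact he.1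
  · exact he.2

lemma phb_cell (r c : V) (f : Tr V → ℝ) :
    ∑ t : Tr V, ind (ed 0 t = (0, r, c)) * f t = ∑ s, f (r, c, s) := by
  rw [Fintype.sum_prod_type, sum_eq_single r _ (by simp), Fintype.sum_prod_type,
    sum_eq_single c _ (by simp)]
  · exact sum_congr rfl fun s _ => by rw [ind_pos (by simp), one_mul]
  · exact fun b _ hb => sum_eq_zero fun s _ => by rw [ind_neg (by simp [hb]), zero_mul]
  · exact fun a _ ha => sum_eq_zero fun s _ => by rw [ind_neg (by simp [ha]), zero_mul]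

lemma phb_rate (σ : Bool) (v : V) (Y : V → Prop) {f : Tr V → ℝ} (hf : ∀ t, 0 ≤ f t) {ρ : ℝ}
    (h : ∀ r c, ∑ s, f (r, c, s) ≤ ρ) : ∑ t, ind (phb_Z σ v Y t) * f t ≤ ct Y * ρ := by
  calc ∑ t, ind (phb_Z σ v Y t) * f t
      ≤ ∑ t, ∑ u, ind (Y u) * (ind (ed 0 t = cl σ v u) * f t) := by
        refine sum_le_sum fun t _ => ?_
        have h1 : ind (phb_Z σ v Y t) ≤ ∑ u, ind (ed 0 t = cl σ v u ∧ Y u) := by
          simpa [phb_Z] using ind_exists_le univ fun u => ed 0 t = cl σ v u ∧ Y u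
        refine (mul_le_mul_of_nonneg_right h1 (hf t)).trans (le_of_eq ?_)
        rw [sum_mul]
        exact sum_congr rfl fun u _ => by rw [ind_and]; ring
    _ = ∑ u, ind (Y u) * ∑ t, ind (ed 0 t = cl σ v u) * f t := by
        rw [sum_comm]; simp only [mul_sum]
    _ ≤ ct Y * ρ := sum_ind_mul_le fun u _ => by
        cases σ
        · exact (phb_cell u v f).le.trans (h _ _)
        · exact (phb_cell v u f).le.trans (h _ _)

variable [DecidableEq V] {γ ζ L d p : ℝ} {D B : V → Prop} {G Q W O : Ln V → Prop}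
  {M M' : Finset (Tr V)}

/-- triples that may be used in the matching phase -/
def phb_Adm (Q W O : Ln V → Prop) (N : Finset (Tr V)) (t : Tr V) : Prop :=
  Q (ed 0 t) ∧ ((W (ed 1 t) ∨ O (ed 1 t)) ∧ ¬ Cv N (ed 1 t)) ∧
    (W (ed 2 t) ∨ O (ed 2 t)) ∧ ¬ Cv N (ed 2 t)

lemma phb_count (hζ : ζ ≤ 1 / 100) (hd : 0 ≤ d) (hL : Lv γ ζ L d p D G Q W O)
    (hB : ct B ≤ e0 ^ 2 / 20 * γ ^ 2 * d) (hA : PA γ d B G W O M) (r c : V) :
    ct (fun s => phb_Adm Q W O (M ∪ M') (r, c, s)) ≤ 11 / 10 * (e0 ^ 2 * γ ^ 2 * d) := by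
  have h1 := (abs_le.1 (hL.o2 true false r c (Or.inl (by simp)))).2
  have h2 := hA.t3 true r c
  have h3 := hA.t3 false c r
  have h4 : ct (fun s => phb_Adm Q W O (M ∪ M') (r, c, s)) ≤ ct fun s => B s ∨
      (O (sl true r s) ∧ O (sl false c s)) ∨
      (¬ B s ∧ W (sl true r s) ∧ ¬ Cv M (sl true r s) ∧
        (W (sl (!true) c s) ∨ O (sl (!true) c s))) ∨
      (¬ B s ∧ W (sl false c s) ∧ ¬ Cv M (sl false c s) ∧
        (W (sl (!false) r s) ∨ O (sl (!false) r s))) := by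
    refine ct_mono ?_
    rintro s ⟨-, ⟨a1, a2⟩, a3, a4⟩
    by_cases hb : B s
    · exact Or.inl hb
    · refine Or.inr ?_
      rcases a1 with a1 | a1
      · exact Or.inr (Or.inl ⟨hb, a1, fun h => a2 (cv_union.2 (Or.inl h)), a3⟩)
      · rcases a3 with a3 | a3
        · exact Or.inr (Or.inr ⟨hb, a3, fun h => a4 (cv_union.2 (Or.inl h)), Or.inr a1⟩)
        · exact Or.inl ⟨a1, a3⟩
  have h5 := h4.trans ((ct_or_le _ _).trans (add_le_add le_rfl ((ct_or_le _ _).trans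
    (add_le_add le_rfl (ct_or_le _ _)))))
  have h6 : 0 ≤ (γ * e0) ^ 2 * d := mul_nonneg (sq_nonneg _) hd
  have h7 := mul_le_mul_of_nonneg_right hζ h6
  have h8 : (γ * e0) ^ 2 * d = e0 ^ 2 * γ ^ 2 * d := by ring
  rw [h8] at h1 h6 h7
  have h9 : e0 ^ 2 / 20 * γ ^ 2 * d = (e0 ^ 2 * γ ^ 2 * d) / 20 := by ring
  have h10 : e0 ^ 2 / 100 * γ ^ 2 * d = (e0 ^ 2 * γ ^ 2 * d) / 100 := by ring
  rw [h9] at hB
  rw [h10] at h2 h3
  linarith

/-- invariant after the symbols with index below `i` -/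
def phb_Inv (Q W O : Ln V → Prop) (N : Finset (Tr V)) (idx : V → ℕ) (i : ℕ)
    (F : Finset (Tr V)) : Prop :=
  PL F ∧ (∀ t ∈ F, phb_Adm Q W O N t ∧ idx t.2.2 < i) ∧
    ∀ e : Ln V, idx e.2.2 < i → W e ∨ O e → ¬ Cv N e → Cv F e

omit [Fintype V] in
lemma phb_next {N F F' : Finset (Tr V)} {idx : V → ℕ} (hinj : Function.Injective idx) {s : V}
    (h : phb_Inv Q W O N idx (idx s) F) (h1 : PL F')
    (h2 : ∀ t ∈ F', t.2.2 = s ∧ (Q (ed 0 t) ∧ ¬ Cv F (ed 0 t)) ∧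
      ((W (ed 1 t) ∨ O (ed 1 t)) ∧ ¬ Cv N (ed 1 t)) ∧
      (W (ed 2 t) ∨ O (ed 2 t)) ∧ ¬ Cv N (ed 2 t))
    (h3 : ∀ e : Ln V, e.2.2 = s → W e ∨ O e → ¬ Cv N e → Cv F' e) :
    phb_Inv Q W O N idx (idx s + 1) (F ∪ F') := by
  obtain ⟨i1, i2, i3⟩ := h
  refine ⟨i1.union h1 ?_, fun t ht => ?_, fun e he hw hc => ?_⟩
  · rintro ⟨k, a, b⟩ ⟨t, ht, he⟩ ⟨t', ht', he'⟩
    have a1 := (i2 t ht).2
    obtain ⟨a2, ⟨-, a3⟩, -⟩ := h2 t' ht'
    have hk : k = 0 ∨ k = 1 ∨ k = 2 := by omega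
    dsimp only at he he'
    rcases hk with rfl | rfl | rfl
    · exact a3 ⟨t, ht, he.trans he'.symm⟩
    · have := he.trans he'.symm
      simp only [ed1, Prod.mk.injEq] at this
      rw [this.2.2, a2] at a1
      exact lt_irrefl _ a1
    · have := he.trans he'.symm
      simp only [ed2, Prod.mk.injEq] at this
      rw [this.2.2, a2] at a1
      exact lt_irrefl _ a1
  · rcases mem_union.1 ht with h | h
    · exact ⟨(i2 t h).1, Nat.lt_succ_of_lt (i2 t h).2⟩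
    · obtain ⟨a2, ⟨a3, -⟩, a4⟩ := h2 t h
      exact ⟨⟨a3, a4⟩, by rw [a2]; exact Nat.lt_succ_self _⟩
  · rcases Nat.lt_succ_iff_lt_or_eq.1 he with h | h
    · exact cv_union.2 (Or.inl (i3 e h hw hc))
    · exact cv_union.2 (Or.inr (h3 e (hinj h) hw hc))

end

lemma phb_num {x y z ζ : ℝ} (hζ : ζ ≤ 1 / 100) (hy : 0 ≤ y) (h1 : x - y ≤ ζ * y)
    (h2 : 500 * z ≤ y) : 2 * (x * (1 / 1000)) + 10 * z ≤ 3 / 100 * y := by
  have := mul_le_mul_of_nonneg_right hζ hy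
  linarith

theorem phB (γ : ℝ) (hγ0 : 0 < γ) (hγ : γ ≤ 1 / 10) :
    ∀ᶠ L : ℝ in atTop, ∀ (V : Type) [Fintype V] [DecidableEq V] (ζ d p : ℝ) (D B : V → Prop)
      (G Q W O : Ln V → Prop) (M M' : Finset (Tr V)), 0 ≤ ζ → ζ ≤ 1 / 100 →
      Lv γ ζ L d p D G Q W O → ct B ≤ e0 ^ 2 / 20 * γ ^ 2 * d → PA γ d B G W O M →
      PS γ p B D G Q O M M' →
      Ach (lq (9000 / e0) γ d G Q W O) (exp (-(3 * L))) (PB Q W O (M ∪ M')) := by
  have he0 : 0 < e0 := by unfold e0; positivity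
  have he1 : e0 ≤ 1 := by unfold e0; norm_num
  have he2 : 9900 * e0 ≤ 1 / 1000 := by unfold e0; norm_num
  filter_upwards [phB_step γ hγ0 hγ, ev_pow (2000 / (γ ^ 2 * e0)) 1 (c := 1 / 60) (by norm_num),
    ev_exp 5 0 (a := -(39 / 10)) (b := -3) (by norm_num), eventually_ge_atTop 0]
    with L hstep e1 e2 hL0 V _ _ ζ d p D B G Q W O M M' hζ0 hζ hL hB hA hS
  have hd : 0 < d := (exp_pos _).trans_le hL.dbig
  have hn := hL.card
  have hy : 500 * L ≤ p * (γ * e0) * Fintype.card V := by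
    have h1 : 2000 / (γ ^ 2 * e0) * L ≤ d := by
      rw [pow_one, show 1 / 60 * L = L / 60 by ring] at e1
      exact e1.trans hL.dbig
    rw [div_mul_eq_mul_div, div_le_iff₀ (by positivity)] at h1
    have h2 := mul_le_mul_of_nonneg_left hL.hp (mul_pos hγ0 he0).le
    linarith
  have hy0 : 0 ≤ p * (γ * e0) * Fintype.card V := le_trans (by linarith) hy
  have hpn : 0 ≤ p * γ * Fintype.card V := by
    have h2 := mul_le_mul_of_nonneg_left hL.hp hγ0.le
    have h3 : 0 ≤ γ * (γ * d / 4) := by positivity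
    linarith
  have hy' : 500 * L ≤ p * γ * Fintype.card V := by
    have := mul_le_mul_of_nonneg_left he1 hpn
    linarith
  obtain ⟨κ, hκ⟩ : ∃ κ, κ = 9000 / (e0 * γ ^ 2 * d) := ⟨_, rfl⟩
  have hκ0 : 0 ≤ κ := by rw [hκ]; positivity
  obtain ⟨idx, hinj, hlt, hsur⟩ : ∃ idx : V → ℕ, Function.Injective idx ∧
      (∀ v, idx v < Fintype.card V) ∧ ∀ i < Fintype.card V, ∃ s, idx s = i :=
    ⟨fun v => Fintype.equivFin V v, fun a b h => (Fintype.equivFin V).injective (Fin.ext h),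
      fun v => (Fintype.equivFin V v).2, fun i hi => ⟨(Fintype.equivFin V).symm ⟨i, hi⟩, by simp⟩⟩
  obtain ⟨q₀, hq₀⟩ : ∃ q₀ : Tr V → ℝ, q₀ = fun t => κ * ind (phb_Adm Q W O (M ∪ M') t) :=
    ⟨_, rfl⟩
  have hq0 : ∀ t, 0 ≤ q₀ t := fun t => by rw [hq₀]; exact mul_nonneg hκ0 (ind_nonneg _)
  have hcell : ∀ r c, ∑ s, q₀ (r, c, s) ≤ 1 / 1000 := fun r c => by
    have h1 := mul_le_mul_of_nonneg_left (phb_count (M' := M') hζ hd.le hL hB hA r c) hκ0
    have h2 : κ * (11 / 10 * (e0 ^ 2 * γ ^ 2 * d)) = 9900 * e0 := by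
      rw [hκ]; field_simp; norm_num
    rw [hq₀, ← mul_sum]
    exact h1.trans (h2.le.trans he2)
  obtain ⟨X, hX⟩ : ∃ X : Bool × Bool × V × V → Tr V → Prop, X = fun j => phb_Z j.2.1 j.2.2.1
      fun u => Q (cl j.2.1 j.2.2.1 u) ∧ ((j.1 = true ∧ W (sl (!j.2.1) u j.2.2.2)) ∨
        O (sl (!j.2.1) u j.2.2.2)) := ⟨_, rfl⟩
  have key := Ach.seq (Fintype.card V)
    (fun i t => κ * ind (idx t.2.2 = i ∧ phb_Adm Q W O (M ∪ M') t))
    (fun _ _ => mul_nonneg hκ0 (ind_nonneg _)) (exp_pos (-(49 / 10 * L))).le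
    (phb_Inv Q W O (M ∪ M') idx)
    (fun F => ∀ j, ∑ t ∈ F, ind (X j t) ≤ 2 * ∑ t, ind (X j t) * q₀ t + 10 * L)
    (fun F F' hF h j => (sum_le_sum_of_subset_of_nonneg hF fun _ _ _ => ind_nonneg _).trans (h j))
    ⟨pl_empty, by simp, by simp⟩ (fun i hi F hI hT => by
      obtain ⟨s, rfl⟩ := hsur i hi
      have hb : ∀ (β σ : Bool) (v : V), ct (fun u => (Q (cl σ v u) ∧
          ((β = true ∧ W (sl (!σ) u s)) ∨ O (sl (!σ) u s))) ∧ Cv F (cl σ v u)) ≤
          2 * (ct (fun u => Q (cl σ v u) ∧ ((β = true ∧ W (sl (!σ) u s)) ∨ O (sl (!σ) u s))) *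
            (1 / 1000)) + 10 * L := fun β σ v => by
        have h1 := hT (β, σ, v, s)
        rw [hX] at h1
        have h2 := phb_rate σ v (fun u => Q (cl σ v u) ∧
          ((β = true ∧ W (sl (!σ) u s)) ∨ O (sl (!σ) u s))) hq0 hcell
        refine (phb_cov σ v _ F).trans (h1.trans ?_)
        dsimp only
        linarith
      refine (hstep V ζ d p D B G Q W O M M' F s hζ0 hζ hL hA hS (fun σ v => ?_)
        fun σ v => ?_).mono (fun t => ?_) le_rfl fun F' h => phb_next hinj hI h.1 h.2.1 h.2.2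
      · by_cases hs : D s
        · have h1 := hb false σ v
          simp only [Bool.false_eq_true, false_and, false_or, and_assoc] at h1
          exact h1.trans (phb_num hζ hy0 (abs_le.1 (hL.qo σ v s hs)).2 hy)
        · rw [ct_false fun u hu => hs (hL.tO _ hu.2.1).2]
          linarith
      · by_cases hs : D s
        · have h1 := hb true σ v
          simp only [true_and, and_assoc] at h1
          exact h1.trans (phb_num hζ hpn (abs_le.1 (hL.qu σ v s hs)).2 hy')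
        · rw [ct_false fun u hu => hs (hu.2.1.elim (fun h => (hL.tW _ h).2) fun h => (hL.tO _ h).2)]
          linarith
      · rw [← hκ]
        exact mul_le_mul_of_nonneg_left (ind_mono fun h => ⟨by rw [h.1], h.2⟩) hκ0)
  have key2 := key.mono (q' := q₀) (fun t => by
    rw [sum_eq_single (idx t.2.2) (fun b _ hb => by rw [ind_neg fun h => hb h.1.symm, mul_zero])
      (fun h => absurd (mem_range.2 (hlt _)) h), hq₀]
    exact mul_le_mul_of_nonneg_left (ind_mono fun h => h.2) hκ0) le_rfl fun _ h => h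
  refine (key2.tail X (10 * L)).mono (fun t => ?_) ?_ fun F h => ?_
  · rw [hq₀, lq, div_div, ← mul_assoc e0, ← hκ]
    exact mul_le_mul_of_nonneg_left (ind_mono fun h => ⟨Or.inr h.1, h.2.1.1, h.2.2.1⟩) hκ0
  · have h1 : (Fintype.card (Bool × Bool × V × V) : ℝ) = 4 * (exp L * exp L) := by
      rw [← hn]; simp [Fintype.card_prod]; ring
    have h2 : exp L * exp (-(49 / 10 * L)) = exp (-(39 / 10) * L) := by
      rw [← exp_add]; congr 1; ring
    have h3 : exp L * exp L * exp (-(10 * L)) ≤ exp (-(39 / 10) * L) := by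
      rw [← exp_add, ← exp_add]; exact exp_le_exp.2 (by linarith)
    rw [pow_zero, mul_one, show -3 * L = -(3 * L) by ring] at e2
    rw [h1, hn, h2]
    linarith
  · obtain ⟨i1, i2, i3⟩ := h.1 h.2
    exact ⟨i1, fun t ht => (i2 t ht).1, fun e => i3 e (hlt _)⟩

end Pool.Agent.MP_46aeaf_co.HT

end

-- part MP_46aeaf_co.LS.Main
section

set_option autoImplicit false
set_option linter.unusedSectionVars false
set_option linter.unusedVariables false

/-! The absorber. -/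

namespace Pool.Agent.MP_46aeaf_co.HT

open Finset Pool.Agent.MP_81e6aa_pr Real Filter

lemma abs_av {α β : Type} [Fintype α] [Fintype β] (μ : α → ℝ) (ν : α → β → ℝ) (f : α × β → ℝ) :
    Av (fun θ : α × β => μ θ.1 * ν θ.1 θ.2) f = Av μ fun a => Av (ν a) fun b => f (a, b) := by
  unfold Av
  rw [Fintype.sum_prod_type]
  refine sum_congr rfl fun a _ => ?_
  rw [mul_sum]
  exact sum_congr rfl fun b _ => by ring

lemma abs_pm {α β : Type} [Fintype α] [Fintype β] {μ : α → ℝ} {ν : α → β → ℝ} (h : Pm μ)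
    (h' : ∀ a, Pm (ν a)) : Pm fun θ : α × β => μ θ.1 * ν θ.1 θ.2 := by
  refine ⟨fun θ => mul_nonneg (h.nonneg _) ((h' _).nonneg _), ?_⟩
  rw [Fintype.sum_prod_type]
  simp only [← mul_sum, (h' _).sum, mul_one, h.sum]

lemma abs_pow (C : ℝ) (hC : 0 ≤ C) (k : ℕ) {a b : ℝ} (h : (k : ℝ) / 50 + a < b) :
    ∀ᶠ L : ℝ in atTop, ∀ τ : ℝ, 0 ≤ τ → τ ≤ 2 * exp (L / 50) →
      C * τ ^ k * exp (a * L) ≤ exp (b * L) := by
  filter_upwards [ev_exp (C * 2 ^ k) 0 h] with L hL τ hτ0 hτ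
  have h1 : τ ^ k ≤ 2 ^ k * exp ((k : ℝ) / 50 * L) := by
    calc τ ^ k ≤ (2 * exp (L / 50)) ^ k := pow_le_pow_left₀ hτ0 hτ k
      _ = _ := by rw [mul_pow, ← exp_nat_mul]; congr 2; ring
  calc C * τ ^ k * exp (a * L) ≤ C * (2 ^ k * exp ((k : ℝ) / 50 * L)) * exp (a * L) :=
        mul_le_mul_of_nonneg_right (mul_le_mul_of_nonneg_left h1 hC) (exp_pos _).le
    _ = C * 2 ^ k * L ^ 0 * exp (((k : ℝ) / 50 + a) * L) := by rw [add_mul, exp_add]; ring
    _ ≤ _ := hL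

lemma abs_num {κ K E n a b Λ : ℝ} (hκ : 0 < κ) (hn : 0 < n) (hK : K ≤ E)
    (ha : 0 ≤ a) (hb : 0 ≤ b) (hΛ : 0 ≤ Λ) (h1 : 600000 / κ * a * E ≤ n ^ 2)
    (h2 : 600000 / κ * b * E ≤ n) (h3 : 600000 / κ * Λ * E ≤ n) :
    2 * K * (10 * a / n ^ 2 + 3 * Λ / n) + 10000 * (17 * K) * (a / n ^ 2 + b / n) ≤ κ := by
  have key : ∀ {u v : ℝ}, 0 < v → 600000 / κ * u * E ≤ v → E * (u / v) ≤ κ / 600000 := by
    intro u v hv h
    rw [← mul_div_assoc, div_le_div_iff₀ hv (by norm_num)]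
    have h' := mul_le_mul_of_nonneg_left h hκ.le
    have e : κ * (600000 / κ * u * E) = E * u * 600000 := by field_simp
    rwa [e] at h'
  have k1 := key (by positivity) h1
  have k2 := key hn h2
  have k3 := key hn h3
  have p1 : 0 ≤ a / n ^ 2 := by positivity
  have p2 : 0 ≤ b / n := by positivity
  have p3 : 0 ≤ Λ / n := by positivity
  have q1 := mul_le_mul_of_nonneg_right hK p1
  have q2 := mul_le_mul_of_nonneg_right hK p2
  have q3 := mul_le_mul_of_nonneg_right hK p3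
  have e : 2 * K * (10 * a / n ^ 2 + 3 * Λ / n) + 10000 * (17 * K) * (a / n ^ 2 + b / n) =
      170020 * (K * (a / n ^ 2)) + 170000 * (K * (b / n)) + 6 * (K * (Λ / n)) := by ring
  rw [e]
  linarith

lemma abs_exp : 111 * exp (-15) ≤ 1 / 1000 := by
  have h1 : (27 / 10 : ℝ) ≤ exp 1 := by have := exp_one_gt_d9; linarith
  have h2 : (27 / 10 : ℝ) ^ 15 ≤ exp 15 := by
    calc (27 / 10 : ℝ) ^ 15 ≤ exp 1 ^ 15 := pow_le_pow_left₀ (by norm_num) h1 15
      _ = exp 15 := by rw [← exp_nat_mul]; norm_num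
  have h3 : (111000 : ℝ) ≤ exp 15 := le_trans (by norm_num) h2
  rw [exp_neg, ← div_eq_mul_inv, div_le_div_iff₀ (exp_pos _) (by norm_num)]
  linarith

lemma abs_ho {V Obj Gad : Type} [Fintype Obj] [Fintype Gad] (B : Blue V Obj Gad) {c : ℝ}
    (hc : 0 ≤ c) (Q : V → V → Prop) (S T₁ : Finset (Tr V)) (x : Obj × Fin 15 → V) :
    0 ≤ B.HO c Q S T₁ x :=
  prod_nonneg fun _ _ =>
    add_nonneg zero_le_one (mul_nonneg (mul_nonneg hc (ct_nonneg _)) (ind_nonneg _))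

/-- `τ = ⌈exp (L / 50)⌉₊`, `h = ⌈L / 15⌉₊ + 2`, `blue_exists`, `Tpl.tm_ok` (classical decidable
equality on `Obj`, `Gad`).  `Θ = (Obj × Fin 15 → V) × (Gad × PV → V)`,
`μ (x, y) = μ₁ x * μ₂ x y` with `μ₂ x` from `abs2` if `G1` holds and the uniform product weights
otherwise (`pm_prod`); `good (x, y) = G1 x ∧ G2 x y`; `A = OL ∨ GdL`; `Fa (x, y) G = FA (On G)` with
`On G` chosen from `route` if `Reg G m`; `Ψ = Psi`.  `card TT ≤ 15 + 96 h ≤ 7 L` and
`7 * exp (-15) ≤ 1 / 1000`, so `K = exp (exp (-15) * card TT) ≤ exp (L / 1000)`. -/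
theorem absorber {κ : ℝ} (hκ : 0 < κ) : ∀ᶠ L : ℝ in atTop,
    ∀ (V : Type) [Fintype V] [DecidableEq V] (m : ℕ) (ξ : ℝ), (Fintype.card V : ℝ) = exp L →
      (m : ℝ) ≤ exp (L / 50) → 0 ≤ ξ → 8 * ξ ≤ exp (-30) * Fintype.card V →
      ∃ (Θ : Type) (_ : Fintype Θ), ∀ (X : Ln V → Prop) (Q : V → V → Prop),
        (∀ r c, Q r c → X (0, r, c)) → RayLe X (Fintype.card V / 1000) →
        DegLe Q (2 * exp (L / 50)) →
        ∃ (μ : Θ → ℝ) (good : Θ → Prop) (A : Θ → Ln V → Prop)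
          (Fa : Θ → (V → V → Prop) → Finset (Tr V)), AbsOk L κ ξ m X Q μ good A Fa := by
  have hc : (0 : ℝ) ≤ 600000 / κ := by positivity
  filter_upwards [abs1, abs2, eventually_ge_atTop (4 : ℝ),
    abs_pow (600000 / κ) hc 81 (a := 1 / 1000) (b := 2) (by norm_num),
    abs_pow (600000 / κ) hc 46 (a := 1 / 1000) (b := 1) (by norm_num),
    ev_exp (600000 / κ) 0 (a := 931 / 1000) (b := 1) (by norm_num),
    abs_pow 170 (by norm_num) 30 (a := 1 / 1000) (b := 62 / 100) (by norm_num),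
    abs_pow 1 (by norm_num) 37 (a := 0) (b := 1) (by norm_num),
    ev_exp 2 0 (a := -2) (b := -1) (by norm_num),
    ev_exp 2 0 (a := 94 / 100) (b := 95 / 100) (by norm_num),
    ev_exp 2 0 (a := -(6 / 100)) (b := -(1 / 20)) (by norm_num)]
    with L H1 H2 hL e1 e2 e3 e4 e5 e6 e7 e8 V _ _ m ξ hV hm hξ0 hξ
  classical
  have hn : (0 : ℝ) < Fintype.card V := by rw [hV]; exact exp_pos _
  have : Nonempty V := Fintype.card_pos_iff.1 (by exact_mod_cast hn)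
  have hE1 : 1 < exp (L / 50) := one_lt_exp_iff.2 (by linarith)
  obtain ⟨τ, hτ1, hτ2⟩ : ∃ τ : ℕ, exp (L / 50) ≤ τ ∧ (τ : ℝ) ≤ 2 * exp (L / 50) :=
    ⟨⌈exp (L / 50)⌉₊, Nat.le_ceil _, by
      have := Nat.ceil_lt_add_one (exp_pos (L / 50)).le
      linarith⟩
  obtain ⟨h, hh2, hhL, hLh⟩ : ∃ h : ℕ, 2 ≤ h ∧ (h : ℝ) ≤ L ∧ L ≤ 15 * h := by
    refine ⟨⌈L / 15⌉₊ + 2, by omega, ?_, ?_⟩
    · have := Nat.ceil_lt_add_one (show 0 ≤ L / 15 by linarith)
      push_cast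
      linarith
    · have := Nat.le_ceil (L / 15)
      push_cast
      linarith
  have hτ0 : (0 : ℝ) ≤ τ := Nat.cast_nonneg _
  have hτone : (1 : ℝ) ≤ τ := by linarith
  have hτtwo : 2 ≤ τ := by
    have : (1 : ℝ) < τ := by linarith
    exact_mod_cast this
  have hmτ : m ≤ τ := by exact_mod_cast hm.trans hτ1
  have h37 : τ ^ 37 ≤ Fintype.card V := by
    have := e5 τ hτ0 hτ2
    rw [zero_mul, exp_zero, one_mul, mul_one, one_mul, ← hV] at this
    exact_mod_cast this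
  have h50 : Fintype.card V ≤ τ ^ 50 := by
    have h1 : exp (L / 50) ^ 50 ≤ (τ : ℝ) ^ 50 := pow_le_pow_left₀ (exp_pos _).le hτ1 50
    have h2 : exp (L / 50) ^ 50 = exp L := by rw [← exp_nat_mul]; congr 1; push_cast; ring
    rw [h2, ← hV] at h1
    exact_mod_cast h1
  have hmV : m ≤ Fintype.card V :=
    hmτ.trans ((Nat.le_self_pow (by norm_num) τ).trans h37)
  obtain ⟨Obj, Gad, _, _, B, hB⟩ := blue_exists V m τ hτtwo hmτ h37 h50
  have hT := Tpl.tm_ok h hh2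
  generalize Tpl.tm h = T at hT
  have hK : exp (exp (-15) * Fintype.card (Tpl.TT h)) ≤ exp (1 / 1000 * L) := by
    have h1 : (Fintype.card (Tpl.TT h) : ℝ) ≤ 15 + 96 * h := by exact_mod_cast hT.size
    have h2 : (Fintype.card (Tpl.TT h) : ℝ) ≤ 111 * L := by linarith
    refine exp_le_exp.2 ?_
    calc exp (-15) * Fintype.card (Tpl.TT h) ≤ exp (-15) * (111 * L) :=
          mul_le_mul_of_nonneg_left h2 (exp_pos _).le
      _ = 111 * exp (-15) * L := by ring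
      _ ≤ 1 / 1000 * L := mul_le_mul_of_nonneg_right abs_exp (by linarith)
  refine ⟨(Obj × Fin 15 → V) × (Gad × Tpl.PV h → V), inferInstance, fun X Q hQX hX hQ0 => ?_⟩
  have hQ : DegLe Q (2 * τ) :=
    ⟨fun r => (hQ0.1 r).trans (by linarith), fun c => (hQ0.2 c).trans (by linarith)⟩
  obtain ⟨μ₁, p1, d1, f1, l1⟩ := H1 V Obj Gad B m τ X Q hV hτone hτ2 hB hX hQ
  have H3 : ∀ x : Obj × Fin 15 → V, ∃ μ : (Gad × Tpl.PV h → V) → ℝ, Pm μ ∧
      (B.G1 (exp (93 / 100 * L)) X Q x → Dom (fun _ => unif V) μ ∧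
        Av μ (fun y => ind (¬ B.G2 T (exp (94 / 100 * L)) X Q x y)) ≤ exp (-(2 * L)) ∧
        ∀ e, Av μ (fun y => ind (B.GdL T Q x y e)) ≤ exp (-(6 / 100 * L))) := by
    intro x
    by_cases hx : B.G1 (exp (93 / 100 * L)) X Q x
    · obtain ⟨μ, a, b⟩ := H2 V Obj Gad (Tpl.PV h) (Tpl.TT h) B T m h τ X Q x hV hτone hτ2 hB hT
        hhL hX hQ hx
      exact ⟨μ, a, fun _ => b⟩
    · exact ⟨_, pm_unif _, fun h => absurd h hx⟩
  choose μ₂ p2 g2 using H3
  have H4 : ∀ G : V → V → Prop, ∃ On : Gad → Bool, Reg G m → ∀ o,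
      ct (fun g => On g = true ∧ B.cont g o) =
        ind (¬ B.isC o ∨ ∃ r c, o = B.cel r c ∧ G r c) := by
    intro G
    by_cases hG : Reg G m
    · obtain ⟨On, h⟩ := hB.route G hG
      exact ⟨On, fun _ => h⟩
    · exact ⟨fun _ => false, fun h => absurd h hG⟩
  choose On hOn using H4
  refine ⟨fun θ => μ₁ θ.1 * μ₂ θ.1 θ.2,
    fun θ => B.G1 (exp (93 / 100 * L)) X Q θ.1 ∧ B.G2 T (exp (94 / 100 * L)) X Q θ.1 θ.2,
    fun θ e => B.OL θ.1 e ∨ B.GdL T Q θ.1 θ.2 e, fun θ G => B.FA T Q θ.1 θ.2 (On G),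
    abs_pm p1 p2, ?_, ?_, ?_, ?_, ?_, ?_, ?_⟩
  · rw [abs_av]
    have h1 : ∀ x, Av (μ₂ x) (fun y => ind (¬ (B.G1 (exp (93 / 100 * L)) X Q x ∧
        B.G2 T (exp (94 / 100 * L)) X Q x y))) ≤
        ind (¬ B.G1 (exp (93 / 100 * L)) X Q x) + exp (-(2 * L)) := by
      intro x
      by_cases hx : B.G1 (exp (93 / 100 * L)) X Q x
      · rw [ind_neg (not_not.2 hx), zero_add]
        exact (Av_mono (p2 x).nonneg fun y => ind_mono fun a b => a ⟨hx, b⟩).trans (g2 x hx).2.1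
      · rw [ind_pos hx]
        exact Av_le (p2 x) fun y => (ind_le_one _).trans (by linarith [exp_pos (-(2 * L))])
    refine (Av_mono p1.nonneg h1).trans ?_
    rw [Av_add, Av_const p1]
    rw [pow_zero, mul_one, neg_mul, neg_one_mul] at e6
    linarith
  · rintro θ ⟨a, b⟩ e (he | he)
    · exact a.avoid e he
    · exact (b.avoid e he).1
  · rintro θ ⟨a, b⟩
    refine (a.ray.or b.ray).mono (fun _ h => h) ?_
    have : exp (93 / 100 * L) ≤ exp (94 / 100 * L) := exp_le_exp.2 (by linarith)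
    rw [pow_zero, mul_one] at e7
    linarith
  · rintro θ ⟨a, b⟩
    exact hB.bal hT hmV a b
  · rintro θ ⟨a, b⟩ G hG hR
    exact hB.dec hT hQX a b hG (hOn G hR)
  · intro e
    rw [abs_av]
    have h1 : ∀ x, Av (μ₂ x) (fun y => ind ((B.G1 (exp (93 / 100 * L)) X Q x ∧
        B.G2 T (exp (94 / 100 * L)) X Q x y) ∧ (B.OL x e ∨ B.GdL T Q x y e))) ≤
        ind (B.OL x e) + exp (-(6 / 100 * L)) := by
      intro x
      by_cases hx : B.G1 (exp (93 / 100 * L)) X Q x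
      · refine (Av_mono (p2 x).nonneg fun y =>
          (ind_mono fun a => a.2).trans (ind_or_le _ _)).trans ?_
        rw [Av_add, Av_const (p2 x)]
        linarith [(g2 x hx).2.2 e]
      · refine Av_le (p2 x) fun y => ?_
        rw [ind_neg fun a => hx a.1.1]
        exact add_nonneg (ind_nonneg _) (exp_pos _).le
    refine (Av_mono p1.nonneg h1).trans ?_
    rw [Av_add, Av_const p1]
    rw [pow_zero, mul_one, neg_mul, show -(1 / 20) * L = -(L / 20) by ring] at e8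
    linarith [l1 e]
  · intro S hS
    refine ⟨fun θ T₁ => B.Psi T ξ Q S T₁ θ.1 θ.2, fun θ T₁ => Blue.psi_nonneg hξ0 _ _ _ _ _,
      fun θ _ T₁ G hG hR hT₁ => hB.le_psi hξ0 hG (hOn G hR) S T₁ hT₁ θ.1 θ.2, fun T₁ _ => ?_⟩
    rw [abs_av]
    have hn15 : (Fintype.card V : ℝ) ≤ exp (15 * h) := by rw [hV]; exact exp_le_exp.2 hLh
    have h1 := fun x hx => hB.psi_le hT hξ0 hξ hn15 (hB.ngad Q hQ)
      (Blue.G1.load (Λ := exp (93 / 100 * L)) (X := X) (x := x) hx) (p2 x).nonneg (g2 x hx).1 hS T₁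
    have hK0 : 0 < exp (exp (-15) * Fintype.card (Tpl.TT h)) := exp_pos _
    generalize exp (exp (-15) * Fintype.card (Tpl.TT h)) = K at h1 hK hK0
    have hc0 : 0 ≤ 17 * K := by positivity
    have h2 := hB.ho_le hc0 hQ p1.nonneg d1 hS T₁
    have h3 : ∀ x, Av (μ₂ x) (fun y => ind (B.G1 (exp (93 / 100 * L)) X Q x ∧
        B.G2 T (exp (94 / 100 * L)) X Q x y) * B.Psi T ξ Q S T₁ x y) ≤
        exp (2 * K * (10 * (τ : ℝ) ^ 81 / (Fintype.card V : ℝ) ^ 2 +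
          3 * exp (93 / 100 * L) / Fintype.card V) * S.card) * B.HO (17 * K) Q S T₁ x := by
      intro x
      by_cases hx : B.G1 (exp (93 / 100 * L)) X Q x
      · refine (Av_mono (p2 x).nonneg fun y => ?_).trans (h1 x hx)
        exact mul_le_of_le_one_left (Blue.psi_nonneg hξ0 _ _ _ _ _) (ind_le_one _)
      · refine Av_le (p2 x) fun y => ?_
        rw [ind_neg fun a => hx a.1, zero_mul]
        exact mul_nonneg (exp_pos _).le (abs_ho B hc0 _ _ _ _)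
    refine (Av_mono p1.nonneg h3).trans ?_
    rw [Av_smul]
    refine (mul_le_mul_of_nonneg_left h2 (exp_pos _).le).trans ?_
    rw [← mul_assoc, ← exp_add, ← add_mul]
    have hnum := abs_num (K := K) (E := exp (1 / 1000 * L)) (a := (τ : ℝ) ^ 81) (b := (τ : ℝ) ^ 46)
      (Λ := exp (93 / 100 * L)) hκ hn hK (by positivity) (by positivity) (exp_pos _).le
      (by rw [hV, ← exp_nat_mul]; exact_mod_cast e1 τ hτ0 hτ2)
      (by rw [hV]; simpa only [one_mul] using e2 τ hτ0 hτ2)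
      (by
        rw [hV, mul_assoc, ← exp_add, show 93 / 100 * L + 1 / 1000 * L = 931 / 1000 * L by ring]
        simpa only [one_mul, pow_zero, mul_one] using e3)
    have h4 : 17 * K * (10 * (τ : ℝ) ^ 30) ≤ exp (62 / 100 * L) := by
      refine le_trans ?_ (e4 τ hτ0 hτ2)
      have := mul_le_mul_of_nonneg_left hK (show 0 ≤ 170 * (τ : ℝ) ^ 30 by positivity)
      linarith
    have h5 : 0 ≤ 17 * K * (10 * (τ : ℝ) ^ 30) := by positivity
    refine mul_le_mul (exp_le_exp.2 (mul_le_mul_of_nonneg_right hnum (Nat.cast_nonneg _)))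
      (prod_le_prod (fun t _ => add_nonneg zero_le_one (mul_nonneg h5 (ind_nonneg _)))
        fun t _ => add_le_add le_rfl (mul_le_mul_of_nonneg_right h4 (ind_nonneg _)))
      (prod_nonneg fun t _ => add_nonneg zero_le_one (mul_nonneg h5 (ind_nonneg _)))
      (exp_pos _).le

end Pool.Agent.MP_46aeaf_co.HT

/-! The random reservoir together with its absorber. -/

namespace Pool.Agent.MP_46aeaf_co.HT

open Finset Pool.Agent.MP_81e6aa_pr Real Filter

structure Sys {V Ξ : Type} [Fintype V] [DecidableEq V] [Fintype Ξ] (P : Par V) (L κ ξ K ζ : ℝ)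
    (ν : Ξ → ℝ) (lb : Ξ → Ln V → ℕ) (A : Ξ → Ln V → Prop)
    (Fa : Ξ → (V → V → Prop) → Finset (Tr V)) : Prop where
  nonneg : ∀ i, 0 ≤ ν i
  le : ∑ i, ν i ≤ 1
  ge : 1 - 2 * exp (-L) ≤ ∑ i, ν i
  pris : ∀ i, ν i ≠ 0 → P.Pris (lb i) L ζ (L ^ 2) 0
  disj : ∀ i, ν i ≠ 0 → ∀ e, A i e → lb i e = 0
  ray : ∀ i, ν i ≠ 0 → RayLe (A i) (exp (95 / 100 * L))
  bal : ∀ i, ν i ≠ 0 → Bal (A i) (-(P.m : ℝ))
  dec : ∀ i, ν i ≠ 0 → ∀ G : V → V → Prop, (∀ r c, G r c → lb i (0, r, c) = P.l + 2) →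
    Reg G P.m → Dec (Fa i G) fun e => A i e ∨ (e.1 = 0 ∧ G e.2.1 e.2.2)
  line : ∀ e, Av ν (fun i => ind (A i e)) ≤ exp (-(L / 20))
  spr : ∀ S : Finset (Tr V), PL S → ∃ Ψ : Ξ → Finset (Tr V) → ℝ, (∀ i T₁, 0 ≤ Ψ i T₁) ∧
    (∀ i, ν i ≠ 0 → ∀ (T₁ : Finset (Tr V)) (G : V → V → Prop),
      (∀ r c, G r c → lb i (0, r, c) = P.l + 2) → Reg G P.m → (∀ t ∈ T₁, ¬ G t.1 t.2.1) →
      (1 + ξ) ^ (S ∩ Fa i G).card ≤ Ψ i T₁) ∧
    Av ν (fun i => ∑ T₁ ∈ S.powerset, (∏ t ∈ T₁, ξ * P.dq K (lb i) t) * Ψ i T₁) ≤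
      exp (κ * S.card)

lemma Par.dq_nonneg {V : Type} [Fintype V] (P : Par V) {K : ℝ} (hK : 0 ≤ K) (lb : Ln V → ℕ)
    (t : Tr V) : 0 ≤ P.dq K lb t :=
  mul_nonneg (div_nonneg hK (mul_nonneg (sq_nonneg _) (ct_nonneg _))) (ind_nonneg _)

theorem sys_exists {κ K γ ζ : ℝ} (hκ : 0 < κ) (hK : 0 ≤ K) (hγ : 0 < γ) (hγK : γ * K ≤ κ / 4)
    (hζ0 : 0 < ζ) (hζ : ζ ≤ 1 / 4) : ∀ᶠ L : ℝ in atTop,
    ∀ (V : Type) [Fintype V] [DecidableEq V] (P : Par V) (ξ : ℝ), P.γ = γ → P.Ok L → 0 ≤ ξ →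
      8 * ξ ≤ exp (-30) * Fintype.card V →
      ∃ (Ξ : Type) (_ : Fintype Ξ) (ν : Ξ → ℝ) (lb : Ξ → Ln V → ℕ) (A : Ξ → Ln V → Prop)
        (Fa : Ξ → (V → V → Prop) → Finset (Tr V)), Sys P L κ ξ K ζ ν lb A Fa := by
  filter_upwards [absorber (half_pos hκ), pris_prob hζ0 (by linarith), pris_xin hγ hζ0 hζ,
    ev_exp (8 / κ) 0 (show (64 / 100 : ℝ) < 1 by norm_num)] with L habs hpp hxin hnum
  intro V _ _ P ξ hPγ hP hξ0 hξ
  have hn : (0 : ℝ) < Fintype.card V := hP.card ▸ exp_pos L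
  have hm : (P.m : ℝ) ≤ exp (L / 50) := by
    have h1 := hP.m2
    have h2 := hP.last
    have h3 := hP.γ1
    have h4 : 0 ≤ P.d P.l := ct_nonneg _
    nlinarith
  obtain ⟨Θ, _, hΘ⟩ := habs V P.m ξ hP.card hm hξ0 hξ
  let Pr : (Ln V → Fin (P.l + 3)) → Prop := fun lab => P.Pris (fun e => lab e) L ζ (L ^ 2) 0
  have key : ∀ lab : Ln V → Fin (P.l + 3), Pr lab → ∃ (μ : Θ → ℝ) (good : Θ → Prop)
      (A : Θ → Ln V → Prop) (Fa : Θ → (V → V → Prop) → Finset (Tr V)),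
      AbsOk L (κ / 2) ξ P.m (fun e => (lab e : ℕ) ≠ 0)
        (fun r c => (lab (0, r, c) : ℕ) = P.l + 2) μ good A Fa := fun lab h => by
    obtain ⟨h1, h2⟩ := hxin V P _ hPγ hP h
    refine hΘ _ _ (fun r c h => by omega) (h1.x1.mono (fun _ h => h) ?_) h2
    have := hP.γ1
    rw [← hPγ]; nlinarith
  choose! μ good A Fa hab using key
  have hw := hP.isP
  let ν : (Ln V → Fin (P.l + 3)) × Θ → ℝ := fun i =>
    (∏ e, P.wl e (i.1 e)) * ind (Pr i.1) * (μ i.1 i.2 * ind (good i.1 i.2))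
  have hAv : ∀ f : (Ln V → Fin (P.l + 3)) × Θ → ℝ, Av ν f =
      Ex P.wl fun lab => ind (Pr lab) * Av (μ lab) fun θ => ind (good lab θ) * f (lab, θ) := by
    intro f
    unfold Av Ex
    rw [Fintype.sum_prod_type]
    refine sum_congr rfl fun lab _ => ?_
    simp only [mul_sum]
    exact sum_congr rfl fun θ _ => by simp only [ν]; ring
  have hsup : ∀ i, ν i ≠ 0 → Pr i.1 ∧ good i.1 i.2 := fun i hi => by
    constructor
    · by_contra h; exact hi (by simp [ν, ind_neg h])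
    · by_contra h; exact hi (by simp [ν, ind_neg h])
  have hsum : ∑ i, ν i = Ex P.wl fun lab => ind (Pr lab) * Av (μ lab) fun θ => ind (good lab θ) := by
    have := hAv fun _ => 1
    simpa [Av] using this
  refine ⟨_, inferInstance, ν, fun i e => i.1 e, fun i => A i.1 i.2, fun i => Fa i.1 i.2,
    fun i => ?_, ?_, ?_, fun i hi => (hsup i hi).1, fun i hi e he => ?_,
    fun i hi => (hab _ (hsup i hi).1).ray _ (hsup i hi).2,
    fun i hi => (hab _ (hsup i hi).1).bal _ (hsup i hi).2,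
    fun i hi => (hab _ (hsup i hi).1).dec _ (hsup i hi).2, fun e => ?_, fun S hS => ?_⟩
  · by_cases h : Pr i.1
    · exact mul_nonneg (mul_nonneg (prod_nonneg fun _ _ => hw.nonneg _ _) (ind_nonneg _))
        (mul_nonneg ((hab _ h).pm.nonneg _) (ind_nonneg _))
    · simp [ν, ind_neg h]
  · rw [hsum]
    refine Ex_le hw fun lab => ?_
    by_cases h : Pr lab
    · rw [ind_pos h, one_mul]; exact Av_le (hab _ h).pm fun _ => ind_le_one _
    · rw [ind_neg h]; simp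
  · rw [hsum]
    have h1 := hpp V P hP
    have h2 : Ex P.wl (fun lab => (1 - exp (-L)) - ind (¬ Pr lab)) ≤
        Ex P.wl fun lab => ind (Pr lab) * Av (μ lab) fun θ => ind (good lab θ) := by
      refine Ex_mono hw.nonneg fun lab => ?_
      by_cases h : Pr lab
      · have := (hab _ h).fail
        rw [Av_not (hab _ h).pm] at this
        rw [ind_pos h, ind_neg (not_not.2 h)]; linarith
      · rw [ind_neg h, ind_pos h]; linarith [exp_pos (-L)]
    rw [Ex_sub, Ex_const hw] at h2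
    linarith
  · exact not_not.1 ((hab _ (hsup i hi).1).disj _ (hsup i hi).2 e he)
  · rw [hAv]
    refine Ex_le hw fun lab => ?_
    by_cases h : Pr lab
    · rw [ind_pos h, one_mul]
      simp only [← ind_and]
      exact (hab _ h).line e
    · rw [ind_neg h, zero_mul]; exact (exp_pos _).le
  · have key : ∀ lab, ∃ Ψ : Θ → Finset (Tr V) → ℝ, (∀ θ T₁, 0 ≤ Ψ θ T₁) ∧ (Pr lab →
        (∀ θ, good lab θ → ∀ (T₁ : Finset (Tr V)) (G : V → V → Prop),
          (∀ r c, G r c → (lab (0, r, c) : ℕ) = P.l + 2) → Reg G P.m →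
          (∀ t ∈ T₁, ¬ G t.1 t.2.1) → (1 + ξ) ^ (S ∩ Fa lab θ G).card ≤ Ψ θ T₁) ∧
        ∀ T₁ ⊆ S, Av (μ lab) (fun θ => ind (good lab θ) * Ψ θ T₁) ≤ exp (κ / 2 * S.card) *
          ∏ t ∈ S \ T₁, (1 + exp (62 / 100 * L) * ind ((lab (0, t.1, t.2.1) : ℕ) = P.l + 2))) := by
      intro lab
      by_cases h : Pr lab
      · obtain ⟨Ψ, h1, h2⟩ := (hab _ h).spr S hS
        exact ⟨Ψ, h1, fun _ => h2⟩
      · exact ⟨fun _ _ => 0, fun _ _ => le_rfl, fun h' => absurd h' h⟩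
    choose Ψ hΨ0 hΨ using key
    refine ⟨fun i => Ψ i.1 i.2, fun i => hΨ0 _ _,
      fun i hi => (hΨ _ (hsup i hi).1).1 _ (hsup i hi).2, ?_⟩
    rw [hAv]
    have hq := fun (lab : Ln V → Fin (P.l + 3)) t =>
      mul_nonneg hξ0 (P.dq_nonneg hK (fun e => (lab e : ℕ)) t)
    have h1 := lab_exp hP hS hξ0 hK (exp_pos (62 / 100 * L)).le
    calc _ ≤ Ex P.wl fun lab => exp (κ / 2 * S.card) * ∏ t ∈ S, (1 + ξ * P.dq K (fun e => lab e) t +
          exp (62 / 100 * L) * ind ((lab (0, t.1, t.2.1) : ℕ) = P.l + 2)) := by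
          refine Ex_mono hw.nonneg fun lab => ?_
          by_cases h : Pr lab
          · rw [ind_pos h, one_mul]
            simp only [mul_sum]
            rw [Av_sum, prod_congr rfl fun t _ => show _ = ξ * P.dq K (fun e => lab e) t +
              (1 + exp (62 / 100 * L) * ind ((lab (0, t.1, t.2.1) : ℕ) = P.l + 2)) by ring,
              prod_add, mul_sum]
            refine sum_le_sum fun T₁ hT => ?_
            simp only [mul_left_comm (ind (good lab _))]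
            rw [Av_smul, mul_left_comm]
            exact mul_le_mul_of_nonneg_left ((hΨ _ h).2 T₁ (mem_powerset.1 hT))
              (prod_nonneg fun t _ => hq lab t)
          · rw [ind_neg h, zero_mul]
            refine mul_nonneg (exp_pos _).le (prod_nonneg fun t _ => ?_)
            have := hq lab t
            have := mul_nonneg (exp_pos (62 / 100 * L)).le
              (ind_nonneg ((lab (0, t.1, t.2.1) : ℕ) = P.l + 2))
            linarith
      _ ≤ _ := by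
          rw [Ex_smul]
          refine (mul_le_mul_of_nonneg_left h1 (exp_pos _).le).trans ?_
          rw [← exp_add, exp_le_exp, ← add_mul]
          refine mul_le_mul_of_nonneg_right ?_ (Nat.cast_nonneg _)
          have e1 : 8 * ξ * K * P.γ / Fintype.card V ≤ κ / 4 := by
            rw [div_le_iff₀ hn, hPγ]
            have h30 : exp (-30) ≤ 1 := exp_le_one_iff.2 (by norm_num)
            have h8 : 8 * ξ ≤ Fintype.card V := by nlinarith
            have := mul_le_mul h8 hγK (mul_nonneg hγ.le hK) hn.le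
            nlinarith
          have e2 : 2 * exp (62 / 100 * L) * exp (L / 50) / Fintype.card V ≤ κ / 4 := by
            rw [div_le_iff₀ hn, hP.card, mul_assoc, ← exp_add,
              show 62 / 100 * L + L / 50 = 64 / 100 * L by ring]
            rw [pow_zero, mul_one, one_mul, div_mul_eq_mul_div, div_le_iff₀ hκ] at hnum
            linarith
          linarith

end Pool.Agent.MP_46aeaf_co.HT

/-! Fragmentation applied to the reservoir. -/

namespace Pool.Agent.MP_46aeaf_co.HT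

open Finset Pool.Agent.MP_81e6aa_pr Real Filter

variable {V Ξ : Type} [Fintype V] [DecidableEq V] [Fintype Ξ] {P : Par V} {L κ ξ K ζ : ℝ}
  {ν : Ξ → ℝ} {lb : Ξ → Ln V → ℕ} {A : Ξ → Ln V → Prop}
  {Fa : Ξ → (V → V → Prop) → Finset (Tr V)}

omit [Fintype V] in
lemma pow_inter_union {ξ : ℝ} (hξ : 0 ≤ ξ) (S F F' : Finset (Tr V)) :
    (1 + ξ) ^ (S ∩ (F ∪ F')).card ≤
      ∑ T ∈ S.powerset, ind (T ⊆ F) * ξ ^ T.card * (1 + ξ) ^ (S ∩ F').card := by
  have h1 : (1 + ξ) ^ (S ∩ F).card = ∑ T ∈ S.powerset, ind (T ⊆ F) * ξ ^ T.card := by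
    rw [← prod_const, prod_one_add]
    refine Eq.trans (sum_congr rfl fun T hT => ?_)
      (sum_subset (powerset_mono.2 (inter_subset_left : S ∩ F ⊆ S)) fun T hT hT' => ?_)
    · rw [prod_const, ind_pos ((mem_powerset.1 hT).trans inter_subset_right), one_mul]
    · rw [ind_neg fun h => hT' (mem_powerset.2 (subset_inter (mem_powerset.1 hT) h)), zero_mul]
  rw [← sum_mul, ← h1, ← pow_add, inter_union_distrib_left]
  exact pow_le_pow_right₀ (by linarith) (card_union_le _ _)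

theorem Sys.fk (hS : Sys P L κ ξ K ζ ν lb A Fa) (hK : 0 ≤ K) (hL : exp (-L) ≤ 1 / 24)
    (Tg : (Tr V → Bool) → Prop) (ok : Ξ → Prop) (hok : Av ν (fun i => ind (¬ ok i)) ≤ 3 / 8)
    (h : ∀ i, ν i ≠ 0 → ok i → ∃ lb' : Ln V → ℕ, (∀ e, lb' e ≠ 0 → lb' e = lb i e) ∧
      Ach (P.dq K lb') (exp (-L)) (P.Dn lb') ∧ Bal (fun e => lb' e ≠ 0) P.m ∧
      ∀ (F : Finset (Tr V)) (W : Tr V → Bool), Dec F (fun e => lb' e ≠ 0 ∨ A i e) →
        (∀ t ∈ F, W t = true) → Tg W)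
    {L₀ M p : ℝ} (J : ℕ) (hξ : 0 < ξ) (hκ0 : 0 < κ) (hκ : κ ≤ 1 / 4) (hL₀ : 0 < L₀) (hM : 1 ≤ M)
    (hJ : (Fintype.card V : ℝ) ^ 2 * (2 * κ) ^ J ≤ L₀) (hp : (J * exp 1 + M) / ξ ≤ p)
    (hp1 : p ≤ 1) :
    Ex (fun _ : Tr V => bern p) (fun W => ind (¬ Tg W)) ≤
      2 * (2 / (κ * L₀) + √(exp (κ * L₀) / M)) := by
  have key : ∀ i, ∃ (lb' : Ln V → ℕ) (md : Finset (Tr V) → ℝ), Pm md ∧ (ν i ≠ 0 → ok i →
      (∀ e, lb' e ≠ 0 → lb' e = lb i e) ∧
      (∀ S : Finset (Tr V), Av md (fun F => ind (S ⊆ F)) ≤ ∏ t ∈ S, P.dq K lb' t) ∧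
      Av md (fun F => ind (¬ P.Dn lb' F)) ≤ exp (-L) ∧ Bal (fun e => lb' e ≠ 0) P.m ∧
      ∀ (F : Finset (Tr V)) (W : Tr V → Bool), Dec F (fun e => lb' e ≠ 0 ∨ A i e) →
        (∀ t ∈ F, W t = true) → Tg W) := fun i => by
    by_cases hi : ν i ≠ 0 ∧ ok i
    · obtain ⟨lb', h1, ⟨md, h2, h3, h4⟩, h5, h6⟩ := h i hi.1 hi.2
      exact ⟨lb', md, h2, fun _ _ => ⟨h1, h3, h4, h5, h6⟩⟩
    · exact ⟨fun _ => 0, unif _, pm_unif _, fun a b => absurd ⟨a, b⟩ hi⟩
  choose lb' md hmd hk using key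
  let G : Ξ × Finset (Tr V) → V → V → Prop := fun i r c =>
    lb' i.1 (0, r, c) ≠ 0 ∧ ¬ Cv i.2 (0, r, c)
  let ν' : Ξ × Finset (Tr V) → ℝ := fun i =>
    ν i.1 * (ind (ok i.1) * (md i.1 i.2 * ind (P.Dn (lb' i.1) i.2)))
  let S : Ξ × Finset (Tr V) → Finset (Tr V) := fun i => i.2 ∪ Fa i.1 (G i)
  have hAv : ∀ f : Ξ × Finset (Tr V) → ℝ, ∑ i, ν' i * f i =
      Av ν fun i => ind (ok i) * Av (md i) fun F => ind (P.Dn (lb' i) F) * f (i, F) := by
    intro f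
    unfold Av
    rw [Fintype.sum_prod_type]
    refine sum_congr rfl fun i _ => ?_
    simp only [mul_sum]
    exact sum_congr rfl fun F _ => by simp only [ν']; ring
  have hG : ∀ i F, ν i ≠ 0 → ok i → P.Dn (lb' i) F →
      (∀ r c, G (i, F) r c → lb i (0, r, c) = P.l + 2) ∧ Reg (G (i, F)) P.m := by
    intro i F h1 h2 h3
    obtain ⟨k1, -, -, k4, -⟩ := hk i h1 h2
    refine ⟨fun r c h => ?_, ?_⟩
    · rw [← k1 _ h.1]; exact (h3.2.2 _ h.1 h.2).2
    · have := (k4.diff h3.1.bal h3.2.1).reg fun e he => (h3.2.2 e he.1 he.2).1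
      rwa [sub_zero] at this
  have hsup : ∀ i, ν' i ≠ 0 → ν i.1 ≠ 0 ∧ ok i.1 ∧ P.Dn (lb' i.1) i.2 := fun i hi => by
    refine ⟨?_, ?_, ?_⟩ <;> by_contra h
    · exact hi (by simp [ν', h])
    · exact hi (by simp [ν', ind_neg h])
    · exact hi (by simp [ν', ind_neg h])
  have hdec : ∀ i, ν' i ≠ 0 → Dec (S i) fun e => lb' i.1 e ≠ 0 ∨ A i.1 e := by
    rintro ⟨i, F⟩ hi
    obtain ⟨h1, h2, h3⟩ := hsup _ hi
    dsimp only at h1 h2 h3 ⊢
    obtain ⟨g1, g2⟩ := hG i F h1 h2 h3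
    obtain ⟨d1, d2⟩ := hS.dec i h1 _ g1 g2
    have k1 := (hk i h1 h2).1
    refine ⟨h3.1.union d1 fun e he he' => ?_, fun e => ?_⟩
    · rcases (d2 e).1 he' with a | ⟨a, b⟩
      · have := h3.2.1 e he
        exact this (by rw [k1 e this]; exact hS.disj i h1 e a)
      · obtain ⟨k, r, c⟩ := e
        dsimp only at a b
        subst a
        exact b.2 he
    · rw [cv_union, d2]
      constructor
      · rintro (a | a | ⟨a, b⟩)
        · exact Or.inl (h3.2.1 e a)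
        · exact Or.inr a
        · obtain ⟨k, r, c⟩ := e
          dsimp only at a b
          subst a
          exact Or.inl b.1
      · rintro (a | a)
        · by_cases hc : Cv F e
          · exact Or.inl hc
          · obtain ⟨k, r, c⟩ := e
            have := (h3.2.2 _ a hc).1
            dsimp only at this
            subst this
            exact Or.inr (Or.inr ⟨rfl, a, hc⟩)
        · exact Or.inr (Or.inl a)
  have h0 : ∀ i, 0 ≤ ν' i := fun i => mul_nonneg (hS.nonneg _) (mul_nonneg (ind_nonneg _)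
    (mul_nonneg ((hmd _).nonneg _) (ind_nonneg _)))
  have hsum : ∑ i, ν' i =
      Av ν fun i => ind (ok i) * Av (md i) fun F => ind (P.Dn (lb' i) F) := by
    simpa using hAv fun _ => 1
  have hone : Av ν (fun _ => 1) = ∑ i, ν i := by simp [Av]
  have h1 : ∑ i, ν' i ≤ 1 := by
    rw [hsum]
    refine le_trans (Av_mono hS.nonneg fun i => ?_) (hone.le.trans hS.le)
    exact mul_le_one₀ (ind_le_one _) (Av_nonneg (hmd i).nonneg fun _ => ind_nonneg _)
      (Av_le (hmd i) fun _ => ind_le_one _)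
  have h2 : 1 / 2 ≤ ∑ i, ν' i := by
    rw [hsum]
    have : Av ν (fun i => (1 - exp (-L)) * 1 - ind (¬ ok i)) ≤
        Av ν fun i => ind (ok i) * Av (md i) fun F => ind (P.Dn (lb' i) F) := by
      refine Av_mono' hS.nonneg fun i hi => ?_
      by_cases ho : ok i
      · have := (hk i hi ho).2.2.1
        rw [Av_not (hmd i)] at this
        rw [ind_pos ho, ind_neg (not_not.2 ho)]; linarith
      · rw [ind_neg ho, ind_pos ho]; linarith [exp_pos (-L)]
    rw [Av_sub, Av_smul, hone] at this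
    have h3 := hS.ge
    have h4 := exp_pos (-L)
    nlinarith
  have hfk := HT.fk ν' h0 h1 S J hξ hκ0 hκ hL₀ hM (fun i hi B hB => ?_) (fun i hi => ?_) hp hp1
  · have hp0 : 0 ≤ p := le_trans (by positivity) hp
    have hw : IsP fun _ : Tr V => bern p := isP_bern (fun _ => hp0) fun _ => hp1
    have h3 : Ex (fun _ : Tr V => bern p) (fun W => ind (¬ Tg W)) ≤ Ex (fun _ : Tr V => bern p)
        fun W => ind (¬ ∃ i, ν' i ≠ 0 ∧ ∀ t ∈ S i, W t = true) := by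
      refine Ex_mono hw.nonneg fun W => ind_mono fun h ⟨i, hi, hW⟩ => h ?_
      obtain ⟨a, b, -⟩ := hsup i hi
      exact (hk _ a b).2.2.2.2 _ W (hdec i hi) hW
    have h4 := mul_le_mul_of_nonneg_right h2
      (Ex_nonneg hw.nonneg fun W => ind_nonneg (¬ ∃ i, ν' i ≠ 0 ∧ ∀ t ∈ S i, W t = true))
    linarith
  · obtain ⟨Ψ, p0, p1, p2⟩ := hS.spr B ((hdec i hi).1.mono hB)
    rw [hAv]
    refine le_trans (Av_mono' hS.nonneg fun j hj => ?_) p2
    have hq := fun t => mul_nonneg hξ.le (P.dq_nonneg hK (lb j) t)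
    by_cases ho : ok j
    swap
    · rw [ind_neg ho, zero_mul]
      exact sum_nonneg fun T _ => mul_nonneg (prod_nonneg fun t _ => hq t) (p0 _ _)
    obtain ⟨k1, k2, -⟩ := hk j hj ho
    rw [ind_pos ho, one_mul]
    calc _ ≤ Av (md j) fun F => ∑ T ∈ B.powerset, ξ ^ T.card * Ψ j T * ind (T ⊆ F) := by
          refine Av_mono (hmd j).nonneg fun F => ?_
          by_cases hF : P.Dn (lb' j) F
          swap
          · rw [ind_neg hF, zero_mul]
            exact sum_nonneg fun T _ =>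
              mul_nonneg (mul_nonneg (pow_nonneg hξ.le _) (p0 _ _)) (ind_nonneg _)
          rw [ind_pos hF, one_mul]
          obtain ⟨g1, g2⟩ := hG j F hj ho hF
          refine (pow_inter_union hξ.le B F _).trans (sum_le_sum fun T _ => ?_)
          by_cases hT : T ⊆ F
          · rw [ind_pos hT, one_mul, mul_one]
            exact mul_le_mul_of_nonneg_left
              (p1 j hj T _ g1 g2 fun t ht hg => hg.2 (cv_ed (hT ht) 0)) (pow_nonneg hξ.le _)
          · rw [ind_neg hT]; simp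
      _ ≤ _ := by
          rw [Av_sum]
          refine sum_le_sum fun T _ => ?_
          rw [Av_smul, prod_mul_distrib, prod_const, mul_right_comm]
          refine mul_le_mul_of_nonneg_right (mul_le_mul_of_nonneg_left ((k2 T).trans
            (prod_le_prod (fun t _ => P.dq_nonneg hK _ t) fun t _ => ?_)) (pow_nonneg hξ.le _))
            (p0 _ _)
          refine mul_le_mul_of_nonneg_left (ind_mono fun ⟨a, b, c⟩ => ?_)
            (div_nonneg hK (mul_nonneg (sq_nonneg _) (ct_nonneg _)))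
          rw [← k1 _ b, ← k1 _ c, ← k1 (ed 0 t) (by omega)]
          exact ⟨a, b, c⟩
  · exact (mul_le_mul_of_nonneg_right (hdec i hi).1.card_le (by positivity)).trans hJ

end Pool.Agent.MP_46aeaf_co.HT

/-! The dense levels. -/

namespace Pool.Agent.MP_46aeaf_co.HT

open Finset Pool.Agent.MP_81e6aa_pr Real Filter

lemma levels_e0 : 0 < e0 := by unfold e0; positivity

lemma levels_three (k : Fin 3) : k = 0 ∨ k = 1 ∨ k = 2 := by revert k; decide

section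

variable {V : Type} [DecidableEq V]

/-- disjointness of the covered lines, checked type by type -/
lemma levels_union {F F' : Finset (Tr V)} (h : PL F) (h' : PL F')
    (h0 : ∀ t ∈ F, ∀ t' ∈ F', ed 0 t ≠ ed 0 t') (h1 : ∀ t ∈ F, ∀ t' ∈ F', ed 1 t ≠ ed 1 t')
    (h2 : ∀ t ∈ F, ∀ t' ∈ F', ed 2 t ≠ ed 2 t') : PL (F ∪ F') := by
  refine h.union h' ?_
  rintro e ⟨t, ht, he⟩ ⟨t', ht', he'⟩
  have := he.trans he'.symm
  rcases levels_three e.1 with hk | hk | hk <;> rw [hk] at this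
  · exact h0 t ht t' ht' this
  · exact h1 t ht t' ht' this
  · exact h2 t ht t' ht' this

variable [Fintype V]

lemma levels_plv {γ d p : ℝ} {B D : V → Prop} {G Q W O : Ln V → Prop}
    (hGQ : ∀ e, G e → ¬ Q e) (hWO : ∀ e, W e → ¬ O e) {M M' M'' : Finset (Tr V)}
    (hA : PA γ d B G W O M) (hS : PS γ p B D G Q O M M') (hB : PB Q W O (M ∪ M') M'') :
    PLv G Q W O (M ∪ M' ∪ M'') := by
  have p1 : PL (M ∪ M') := by
    refine levels_union hA.pl hS.pl (fun t ht t' ht' e => ?_) (fun t ht t' ht' e => ?_)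
      fun t ht t' ht' e => ?_
    · exact (hS.mem t' ht').2.1 (e ▸ cv_ed ht 0)
    · exact hWO _ (hA.mem t ht).2.1 (e ▸ (hS.mem t' ht').2.2.1)
    · exact hWO _ (hA.mem t ht).2.2.1 (e ▸ (hS.mem t' ht').2.2.2.1)
  have m1 : ∀ t ∈ M ∪ M', G (ed 0 t) ∧ (W (ed 1 t) ∨ O (ed 1 t)) ∧ (W (ed 2 t) ∨ O (ed 2 t)) := by
    intro t ht
    rcases mem_union.1 ht with a | a
    · exact ⟨(hA.mem t a).1, Or.inl (hA.mem t a).2.1, Or.inl (hA.mem t a).2.2.1⟩
    · exact ⟨(hS.mem t a).1, Or.inr (hS.mem t a).2.2.1, Or.inr (hS.mem t a).2.2.2.1⟩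
  refine ⟨?_, fun t ht => ?_, fun e he => ?_⟩
  · refine levels_union p1 hB.pl (fun t ht t' ht' e => ?_) (fun t ht t' ht' e => ?_)
      fun t ht t' ht' e => ?_
    · exact hGQ _ (m1 t ht).1 (e ▸ (hB.mem t' ht').1)
    · exact (hB.mem t' ht').2.1.2 (e ▸ cv_ed ht 1)
    · exact (hB.mem t' ht').2.2.2 (e ▸ cv_ed ht 2)
  · rcases mem_union.1 ht with a | a
    · exact ⟨Or.inl (m1 t a).1, (m1 t a).2⟩
    · exact ⟨Or.inr (hB.mem t a).1, (hB.mem t a).2.1.1, (hB.mem t a).2.2.1⟩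
  · rw [cv_union]
    by_cases hc : Cv (M ∪ M') e
    · exact Or.inl hc
    · rcases he with he | he
      · rw [cv_union, not_or] at hc
        exact absurd (hS.cov e he hc.1) hc.2
      · exact Or.inr (hB.cov e he hc)

omit [DecidableEq V] [Fintype V] in
lemma levels_lq_nonneg {K γ d : ℝ} (hK : 0 ≤ K) (hd : 0 ≤ d) (G Q W O : Ln V → Prop) (t : Tr V) :
    0 ≤ lq K γ d G Q W O t :=
  mul_nonneg (div_nonneg hK (mul_nonneg (sq_nonneg _) hd)) (ind_nonneg _)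

omit [DecidableEq V] in
lemma levels_dq_nonneg (P : Par V) {K : ℝ} (hK : 0 ≤ K) (lb : Ln V → ℕ) (t : Tr V) :
    0 ≤ P.dq K lb t :=
  mul_nonneg (div_nonneg hK (mul_nonneg (sq_nonneg _) (ct_nonneg _))) (ind_nonneg _)

lemma levels_step (P : Par V) {lb : Ln V → ℕ} (hs : ∀ e : Ln V, e.1 ≠ 0 → lb e ≤ 2) {i : ℕ}
    {F F' : Finset (Tr V)} (hF : LInv P lb i F)
    (h : PLv (fun e => e.1 = 0 ∧ lb e = i + 1 ∧ ¬ Cv F e) (fun e => e.1 = 0 ∧ lb e = i + 2)
      (fun e => e.1 ≠ 0 ∧ lb e = 1 ∧ P.lev e.2.2 = i)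
      (fun e => e.1 ≠ 0 ∧ lb e = 2 ∧ P.lev e.2.2 = i) F') : LInv P lb (i + 1) (F ∪ F') := by
  have l1 : ∀ t ∈ F', P.lev (ed 1 t).2.2 = i := fun t ht => by
    rcases (h.mem t ht).2.1 with a | a <;> exact a.2.2
  have l2 : ∀ t ∈ F', P.lev (ed 2 t).2.2 = i := fun t ht => by
    rcases (h.mem t ht).2.2 with a | a <;> exact a.2.2
  refine ⟨?_, fun t ht => ?_, fun e h0 h1 h2 => ?_, fun e h0 h1 h2 => ?_⟩
  · refine levels_union hF.pl h.pl (fun t ht t' ht' e => ?_) (fun t ht t' ht' e => ?_)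
      fun t ht t' ht' e => ?_
    · rcases (h.mem t' ht').1 with a | a
      · exact a.2.2 (e ▸ cv_ed ht 0)
      · have := (hF.mem t ht).2.2.1
        rw [e, a.2] at this
        omega
    · have a := l1 t' ht'
      rw [← e] at a
      exact (hF.mem t ht).1.ne a
    · have a := l2 t' ht'
      rw [← e] at a
      exact (hF.mem t ht).1.ne a
  · rcases mem_union.1 ht with a | a
    · obtain ⟨a1, a2, a3, a4⟩ := hF.mem t a
      exact ⟨by omega, a2, by omega, a4⟩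
    · have b : P.lev t.2.2 = i := l1 t a
      obtain ⟨a1, a2, a3⟩ := h.mem t a
      refine ⟨by omega, ?_, ?_, ?_, ?_⟩
      · rcases a1 with c | c
        · have := c.2.1; omega
        · have := c.2; omega
      · rcases a1 with c | c
        · have := c.2.1; omega
        · have := c.2; omega
      · rcases a2 with c | c <;> have := c.2.1 <;> omega
      · rcases a3 with c | c <;> have := c.2.1 <;> omega
  · rw [cv_union]
    by_cases hc : Cv F e
    · exact Or.inl hc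
    · refine Or.inr (h.cov e (Or.inl ⟨h0, ?_, hc⟩))
      by_contra hne
      exact hc (hF.cell e h0 h1 (by omega))
  · rw [cv_union]
    by_cases hc : P.lev e.2.2 < i
    · exact Or.inl (hF.line e h0 h1 hc)
    · have := hs e h0
      refine Or.inr (h.cov e (Or.inr ?_))
      by_cases h3 : lb e = 1
      · exact Or.inl ⟨h0, h3, by omega⟩
      · exact Or.inr ⟨h0, by omega, by omega⟩

omit [DecidableEq V] in
lemma levels_rate (P : Par V) {K : ℝ} (hK : 0 ≤ K) (lb : Ln V → ℕ) (i : ℕ) (F : Finset (Tr V))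
    (t : Tr V) :
    lq K P.γ (P.d i) (fun e => e.1 = 0 ∧ lb e = i + 1 ∧ ¬ Cv F e)
      (fun e => e.1 = 0 ∧ lb e = i + 2) (fun e => e.1 ≠ 0 ∧ lb e = 1 ∧ P.lev e.2.2 = i)
      (fun e => e.1 ≠ 0 ∧ lb e = 2 ∧ P.lev e.2.2 = i) t ≤
      ind (P.lev t.2.2 = i) * P.dq K lb t := by
  by_cases hi : P.lev t.2.2 = i
  · rw [ind_pos hi, one_mul]
    unfold lq Par.dq
    rw [hi]
    refine mul_le_mul_of_nonneg_left (ind_mono ?_)
      (div_nonneg hK (mul_nonneg (sq_nonneg _) (ct_nonneg _)))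
    rintro ⟨a1, a2, a3⟩
    refine ⟨?_, ?_, ?_⟩
    · rcases a1 with c | c
      · exact Or.inl c.2.1
      · exact Or.inr c.2
    · rcases a2 with c | c <;> have := c.2.1 <;> omega
    · rcases a3 with c | c <;> have := c.2.1 <;> omega
  · rw [ind_neg hi, zero_mul]
    unfold lq
    rw [ind_neg, mul_zero]
    rintro ⟨-, a2, -⟩
    rcases a2 with c | c <;> exact hi c.2.2

omit [DecidableEq V] in
lemma levels_final (P : Par V) {lb : Ln V → ℕ} (hl : ∀ v, P.lev v ≤ P.l)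
    (hs : ∀ e : Ln V, lb e ≤ P.l + 2) {F : Finset (Tr V)} (hF : LInv P lb (P.l + 1) F) :
    P.Dn lb F := by
  refine ⟨hF.pl, ?_, fun e h1 hc => ?_⟩
  · rintro e ⟨t, ht, he⟩
    obtain ⟨-, a1, -, a2, a3⟩ := hF.mem t ht
    rcases levels_three e.1 with hk | hk | hk <;> rw [hk] at he <;> rw [← he] <;> assumption
  · by_cases h0 : e.1 = 0
    · refine ⟨h0, ?_⟩
      have := hs e
      by_contra hne
      exact hc (hF.cell e h0 h1 (by omega))
    · exact absurd (hF.line e h0 h1 (Nat.lt_succ_of_le (hl _))) hc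

end

/-- One level is the composition of three phases. -/
theorem level : ∃ K : ℝ, 0 < K ∧ ∀ γ : ℝ, 0 < γ → γ ≤ 1 / 10 → ∃ ζ₀ : ℝ, 0 < ζ₀ ∧
    ∀ᶠ L : ℝ in atTop, ∀ (V : Type) [Fintype V] [DecidableEq V] (ζ d p : ℝ) (D : V → Prop)
      (G Q W O : Ln V → Prop), 0 ≤ ζ → ζ ≤ ζ₀ → Lv γ ζ L d p D G Q W O →
      Ach (lq K γ d G Q W O) (exp (-(2 * L))) (PLv G Q W O) := by
  obtain ⟨KA, hKA, hA⟩ := phA
  have he := levels_e0
  have k2 : 0 < 4 / e0 ^ 2 := by positivity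
  have k3 : 0 < 9000 / e0 := by positivity
  refine ⟨KA + 4 / e0 ^ 2 + 9000 / e0, by positivity, fun γ hγ0 hγ => ?_⟩
  obtain ⟨ζA, hζA, hA⟩ := hA γ hγ0 hγ
  obtain ⟨ζS, hζS, hS⟩ := phS γ hγ0 hγ
  refine ⟨min (min ζA ζS) (1 / 100), by positivity, ?_⟩
  filter_upwards [hA, hS, phB γ hγ0 hγ, ev_exp 3 0 (show (-3 : ℝ) < -2 by norm_num)] with
    L hA hS hB hL
  intro V _ _ ζ d p D G Q W O hζ0 hζ hLv
  have z1 : ζ ≤ ζA := hζ.trans ((min_le_left _ _).trans (min_le_left _ _))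
  have z2 : ζ ≤ ζS := hζ.trans ((min_le_left _ _).trans (min_le_right _ _))
  have z3 : ζ ≤ 1 / 100 := hζ.trans (min_le_right _ _)
  have hd : 0 ≤ d := (exp_pos _).le.trans hLv.dbig
  obtain ⟨B, hBc, a1⟩ := hA V ζ d p D G Q W O hζ0 z1 hLv
  have a2 := a1.bind (P₂ := fun M M' => PS γ p B D G Q O M M')
    (levels_lq_nonneg k2.le hd G Q W O) (exp_pos _).le
    fun M hM => hS V ζ d p D B G Q W O M hζ0 z2 hLv hBc hM
  have a3 := a2.bind (P₂ := fun M M' => PB Q W O M M') (ε₂ := exp (-(3 * L)))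
    (levels_lq_nonneg (γ := γ) k3.le hd G Q W O) (exp_pos _).le (by
      rintro _ ⟨M, M', rfl, hM, hM'⟩
      exact hB V ζ d p D B G Q W O M M' hζ0 z3 hLv hBc hM hM')
  refine a3.mono (fun t => le_of_eq ?_) ?_ ?_
  · unfold lq
    generalize 4 / e0 ^ 2 = x
    generalize 9000 / e0 = y
    ring
  · simp only [pow_zero, mul_one, neg_mul] at hL
    linarith
  · rintro _ ⟨_, M'', rfl, ⟨M, M', rfl, hM, hM'⟩, hM''⟩
    exact levels_plv hLv.GQ hLv.WO hM hM' hM''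

/-- All levels in turn. -/
theorem levels : ∃ K : ℝ, 0 < K ∧ ∀ γ : ℝ, 0 < γ → ∃ ζ₀ : ℝ, 0 < ζ₀ ∧ ζ₀ ≤ 1 / 100 ∧
    ∀ᶠ L : ℝ in atTop, ∀ (V : Type) [Fintype V] [DecidableEq V] (P : Par V) (lb : Ln V → ℕ)
      (σ : ℝ), P.γ = γ → P.Ok L → 0 ≤ σ → σ ≤ L ^ 3 → P.Pris lb L ζ₀ σ 1 →
      Bal (fun e => lb e ≠ 0) P.m → Ach (P.dq K lb) (exp (-L)) (P.Dn lb) := by
  obtain ⟨K, hK, hl⟩ := level
  refine ⟨K, hK, fun γ hγ0 => ?_⟩
  by_cases hγ : γ ≤ 1 / 10
  swap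
  · refine ⟨1 / 100, by norm_num, le_rfl, Eventually.of_forall ?_⟩
    intro L V _ _ P lb σ hP hOk
    have := hOk.γ1
    rw [hP] at this
    exact absurd (this.trans (by norm_num)) hγ
  obtain ⟨ζ₁, hζ₁, hl⟩ := hl γ hγ0 hγ
  obtain ⟨ζ, hζ0, hζ1, hζ2⟩ : ∃ ζ : ℝ, 0 < ζ ∧ 10 * ζ ≤ ζ₁ ∧ ζ ≤ 1 / 100 :=
    ⟨min (ζ₁ / 10) (1 / 100), by positivity, by linarith [min_le_left (ζ₁ / 10) (1 / 100)],
      min_le_right _ _⟩
  have he := levels_e0
  obtain ⟨c, hc, hc0⟩ : ∃ c : ℝ, c = ζ * (γ ^ 2 * e0 ^ 2 / 4) ∧ 0 < c := ⟨_, rfl, by positivity⟩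
  refine ⟨ζ, hζ0, hζ2, ?_⟩
  filter_upwards [hl, ev_pow (4 / c) 4 (show (0 : ℝ) < 1 / 60 by norm_num),
    ev_exp 3 1 (show (-2 : ℝ) < -1 by norm_num), eventually_ge_atTop 1] with L hl hL1 hL2 hL3
  intro V _ _ P lb σ hP hOk hσ0 hσ hPr hb
  subst hP
  have hll := hOk.ll
  have hσ' : (P.l + 2) * σ ≤ ζ * (P.γ ^ 2 * e0 ^ 2 * exp (L / 60) / 4) := by
    have h1 : ((P.l : ℝ) + 2) * σ ≤ (4 * L) * L ^ 3 :=
      mul_le_mul (by linarith) hσ hσ0 (by linarith)
    have h2 : c * (4 / c * L ^ 4) ≤ c * exp (1 / 60 * L) := mul_le_mul_of_nonneg_left hL1 hc0.le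
    have h3 : c * (4 / c * L ^ 4) = (4 * L) * L ^ 3 := by field_simp
    have h4 : ζ * (P.γ ^ 2 * e0 ^ 2 * exp (L / 60) / 4) = c * exp (1 / 60 * L) := by
      rw [hc, show 1 / 60 * L = L / 60 by ring]; ring
    rw [h4]
    linarith
  have key := Ach.seq (ε := exp (-(2 * L))) (P.l + 1)
    (fun i t => ind (P.lev t.2.2 = i) * P.dq K lb t)
    (fun i t => mul_nonneg (ind_nonneg _) (levels_dq_nonneg P hK.le lb t)) (exp_pos _).le
    (LInv P lb) (fun _ => True) (fun _ _ _ _ => trivial)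
    ⟨pl_empty, fun _ h => by simp at h, fun e _ h1 h2 => by omega, fun e _ _ h => by omega⟩
    (fun i hi F hF _ => by
      have hLv := lv_of_inv P hOk hPr hζ0.le hζ2 hσ0 hσ' hb (Nat.le_of_lt_succ hi) hF
      exact (hl V _ _ _ _ _ _ _ _ (by positivity) hζ1 hLv).mono (levels_rate P hK.le lb i F) le_rfl
        fun F' h => levels_step P (fun e => (hPr.sup e).2) hF h)
  refine key.mono (fun t => ?_) ?_
    fun F h => levels_final P hOk.lev (fun e => (hPr.sup e).1) (h trivial)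
  · rw [sum_eq_single (P.lev t.2.2) (fun b _ hb => by rw [ind_neg (Ne.symm hb), zero_mul])
      (fun h => absurd (mem_range.2 (Nat.lt_succ_of_le (hOk.lev _))) h), ind_pos rfl, one_mul]
  · simp only [pow_one, neg_mul, one_mul] at hL2
    refine le_trans (mul_le_mul_of_nonneg_right ?_ (exp_pos _).le) hL2
    push_cast
    linarith

end Pool.Agent.MP_46aeaf_co.HT

/-! The core statement. -/

namespace Pool.Agent.MP_46aeaf_co.HT

open Finset Pool.Agent.MP_81e6aa_pr Real Filter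

lemma markov_Av {I α ι : Type} [Fintype I] [DecidableEq I] [Fintype α] [Fintype ι]
    {w : I → α → ℝ} (hw : IsP w) {ν : ι → ℝ} (h0 : ∀ i, 0 ≤ ν i) (h1 : ∑ i, ν i ≤ 1)
    (E : ι → (I → α) → Prop) {δ : ℝ} (hδ : 0 ≤ δ)
    (h : ∀ i, ν i ≠ 0 → Ex w (fun x => ind (E i x)) ≤ δ) :
    Ex w (fun x => ind (1 / 8 < Av ν fun i => ind (E i x))) ≤ 8 * δ := by
  refine (markov hw.nonneg (fun x => Av_nonneg h0 fun _ => ind_nonneg _) (by norm_num)).trans ?_
  have h2 : Ex w (fun x => Av ν fun i => ind (E i x)) = Av ν fun i => Ex w fun x => ind (E i x) :=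
    Av_comm _ _ _
  have h3 : Av ν (fun _ => δ) ≤ δ := by
    unfold Av; rw [← sum_mul]; exact mul_le_of_le_one_left hδ h1
  rw [h2]
  linarith [Av_mono' h0 h]

lemma fk_par {κ ε : ℝ} (hκ : 0 < κ) (hε : 0 < ε) : ∃ L₀ M : ℝ, 1 ≤ L₀ ∧ 1 ≤ M ∧
    2 * (2 / (κ * L₀) + √(exp (κ * L₀) / M)) ≤ ε / 2 := by
  obtain ⟨L₀, h1, h2⟩ : ∃ L₀ : ℝ, 1 ≤ L₀ ∧ 16 / (κ * ε) ≤ L₀ :=
    ⟨_, le_max_left _ _, le_max_right _ _⟩
  obtain ⟨M, h3, h4⟩ : ∃ M : ℝ, 1 ≤ M ∧ exp (κ * L₀) / (ε / 8) ^ 2 ≤ M :=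
    ⟨_, le_max_left _ _, le_max_right _ _⟩
  refine ⟨L₀, M, h1, h3, ?_⟩
  have h5 : 2 / (κ * L₀) ≤ ε / 8 := by
    rw [div_le_iff₀ (by positivity)] at h2 ⊢
    linarith
  have h6 : √(exp (κ * L₀) / M) ≤ ε / 8 := by
    rw [sqrt_le_left (by positivity)]
    rw [div_le_iff₀ (by positivity)] at h4 ⊢
    linarith
  linarith

variable {V : Type} [Fintype V]

lemma XIn.mono {γ ζ ζ' : ℝ} {X : Ln V → Prop} (h : XIn γ ζ X) (hζ : ζ ≤ ζ') : XIn γ ζ' X :=
  ⟨h.x1, fun e => (h.x2 e).trans (mul_le_mul_of_nonneg_right hζ (Nat.cast_nonneg _)), h.x3⟩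

lemma Par.Pris.mono {P : Par V} {L ζ ζ' σ : ℝ} {lb : Ln V → ℕ} {b : ℕ} (hP : P.Ok L)
    (h : P.Pris lb L ζ σ b) (hζ : ζ ≤ ζ') : P.Pris lb L ζ' σ b := by
  have h0 : ∀ k lo hi, 0 ≤ P.pr k lo hi := fun k _ _ => sum_nonneg fun j _ => hP.lp_nonneg k j
  refine ⟨h.sup, fun ρ i lo hi a b c d => (h.one ρ i lo hi a b c d).trans ?_,
    fun ρ ρ' i lo hi lo' hi' a b c d e f g k =>
      (h.two ρ ρ' i lo hi lo' hi' a b c d e f g k).trans ?_, h.edge⟩
  · exact add_le_add_left (mul_le_mul_of_nonneg_right hζ (mul_nonneg (h0 _ _ _) (ct_nonneg _))) _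
  · exact add_le_add_left (mul_le_mul_of_nonneg_right hζ
      (mul_nonneg (mul_nonneg (h0 _ _ _) (h0 _ _ _)) (ct_nonneg _))) _

/-- the labels that are left after the first stage -/
lemma s1_rest [DecidableEq V] {J : Type} {ζ₁ σ m : ℝ} {lb : Ln V → ℕ} {A : Ln V → Prop}
    {τ F₁ : Finset (Tr V)} {T : J → Ln V → Prop} {a b : Tr V → Bool} (hτ : VD τ)
    (hA : ∀ e, A e → lb e = 0) (hb : Bal A (-m)) (hAτ : ∀ e, A e → ¬ Cv τ e)
    (h : S1 ζ₁ σ (fun e => lb e ≠ 0) A τ T a b F₁) :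
    ∃ lb' : Ln V → ℕ, (∀ e, (lb e ≠ 0 ∧ Cv F₁ e) ∨ Cv τ e → lb' e = 0) ∧
      (∀ e, ¬ ((lb e ≠ 0 ∧ Cv F₁ e) ∨ Cv τ e) → lb' e = lb e) ∧ Bal (fun e => lb' e ≠ 0) m ∧
      ∀ (F : Finset (Tr V)) (W : Tr V → Bool), Dec F (fun e => lb' e ≠ 0 ∨ A e) →
        (∀ t ∈ F, W t = true) → ∃ F : Finset (Tr V),
          (∀ t ∈ F, a t = true ∨ b t = true ∨ W t = true) ∧ Dec F fun e => ¬ Cv τ e := by
  classical
  obtain ⟨s1, s2, s3, s4, -⟩ := h
  let lb' : Ln V → ℕ := fun e => if (lb e ≠ 0 ∧ Cv F₁ e) ∨ Cv τ e then 0 else lb e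
  have key : ∀ e, ((True ∧ ¬ A e) ∧ ¬ Cv τ e) ∧ ¬ Cv F₁ e ↔ lb' e ≠ 0 := fun e => by
    have := s4 e
    have := hA e
    by_cases h : (lb e ≠ 0 ∧ Cv F₁ e) ∨ Cv τ e
    · simp only [lb', if_pos h]; tauto
    · simp only [lb', if_neg h]; tauto
  refine ⟨lb', fun e h => if_pos h, fun e h => if_neg h, ?_, fun F W ⟨d1, d2⟩ hW =>
    ⟨F₁ ∪ F, fun t ht => ?_, s1.union d1 fun e h1 h2 => ?_, fun e => ?_⟩⟩
  · have := ((bal_true.diff hb fun _ _ => trivial).diff hτ.pl.bal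
      fun e he => ⟨trivial, fun h => hAτ e h he⟩).diff s1.bal
      fun e he => ⟨⟨trivial, (s3 e he).1⟩, (s3 e he).2⟩
    simp only [sub_zero, zero_sub, neg_neg] at this
    exact this.congr key
  · rcases mem_union.1 ht with h | h
    · exact (s2 t h).imp_right Or.inl
    · exact Or.inr (Or.inr (hW t h))
  · rcases (d2 e).1 h2 with h | h
    · exact ((key e).2 h).2 h1
    · exact (s3 e h1).1 h
  · rw [cv_union, d2]
    beta_reduce
    rw [← key]
    have := s3 e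
    have := hAτ e
    tauto

lemma Sys.meet [DecidableEq V] {Ξ : Type} [Fintype Ξ] {P : Par V} {L κ ξ K ζ : ℝ} {ν : Ξ → ℝ}
    {lb : Ξ → Ln V → ℕ} {A : Ξ → Ln V → Prop} {Fa : Ξ → (V → V → Prop) → Finset (Tr V)}
    (hS : Sys P L κ ξ K ζ ν lb A Fa) (τ : Finset (Tr V)) :
    Av ν (fun i => ind (¬ ∀ e, A i e → ¬ Cv τ e)) ≤ τ.card * (3 * exp (-(L / 20))) := by
  calc _ ≤ Av ν fun i => ∑ t ∈ τ, ∑ k, ind (A i (ed k t)) := by
        refine Av_mono hS.nonneg fun i => ind_le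
          (sum_nonneg fun _ _ => sum_nonneg fun _ _ => ind_nonneg _) fun h => ?_
        push Not at h
        obtain ⟨e, h1, t, ht, h2⟩ := h
        refine le_trans ?_ (single_le_sum (f := fun t => ∑ k, ind (A i (ed k t)))
          (fun _ _ => sum_nonneg fun _ _ => ind_nonneg _) ht)
        exact one_le_ct (X := fun k => A i (ed k t)) (a := e.1) (h2.symm ▸ h1)
    _ ≤ _ := by
        rw [Av_sum, ← nsmul_eq_mul, ← sum_const]
        refine sum_le_sum fun t _ => ?_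
        rw [Av_sum]
        refine (sum_le_sum fun k _ => hS.line (ed k t)).trans ?_
        simp

theorem core_par {ε : ℝ} (hε : 0 < ε) : ∃ γ : ℝ, 0 < γ ∧ γ ≤ 1 / 10 ^ 4 ∧ ∀ᶠ L : ℝ in atTop,
    ∀ (V : Type) [Fintype V] [DecidableEq V] (P : Par V), P.γ = γ → P.Ok L → Core V L ε := by
  obtain ⟨lam, hlam, hlam1⟩ : ∃ lam : ℝ, lam = 8 * exp 31 ∧ 1 ≤ lam :=
    ⟨_, rfl, by linarith [add_one_le_exp (31 : ℝ)]⟩
  obtain ⟨κ, hκ, hκ0, hκ1⟩ : ∃ κ : ℝ, 2 * κ = exp (-(600 * lam)) ∧ 0 < κ ∧ κ ≤ 1 / 4 := by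
    refine ⟨exp (-(600 * lam)) / 2, by ring, by positivity, ?_⟩
    have : exp (-(600 * lam)) ≤ 1 / 2 := by
      rw [exp_neg, ← one_div]
      exact one_div_le_one_div_of_le (by norm_num) (by linarith [add_one_le_exp (600 * lam)])
    linarith
  obtain ⟨K, hK, hlev⟩ := levels
  obtain ⟨γ, hγ0, hγ1, hγ2, hγ3⟩ : ∃ γ : ℝ, 0 < γ ∧ γ ≤ exp (-300000) ∧ γ * K ≤ κ / 4 ∧
      γ ≤ 1 / 10 ^ 4 := by
    refine ⟨min (exp (-300000)) (κ / 4 / K), lt_min (exp_pos _) (by positivity), min_le_left _ _,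
      (le_div_iff₀ hK).1 (min_le_right _ _), (min_le_left _ _).trans ?_⟩
    rw [exp_neg, ← one_div]
    exact one_div_le_one_div_of_le (by norm_num) (by linarith [add_one_le_exp (300000 : ℝ)])
  obtain ⟨ζ₀, hζ₀, hζ₀', hlev⟩ := hlev γ hγ0
  obtain ⟨ζS, hζS, hζS', hst⟩ := stage1 hγ0 (by linarith) (show 0 < ζ₀ / 8 by linarith)
    (by linarith)
  obtain ⟨ζ, hζ0, hζ1, hζ2⟩ : ∃ ζ : ℝ, 0 < ζ ∧ ζ ≤ ζ₀ / 2 ∧ ζ ≤ ζS / 2 :=
    ⟨_, lt_min (half_pos hζ₀) (half_pos hζS), min_le_left _ _, min_le_right _ _⟩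
  obtain ⟨L₀, M, hL₀, hM, hβ⟩ := fk_par hκ0 hε
  refine ⟨γ, hγ0, hγ3, ?_⟩
  filter_upwards [hlev, hst, sys_exists hκ0 hK.le hγ0 hγ2 hζ0 (by linarith),
    pris_xin hγ0 hζ0 (by linarith), pris_stable, pre_prob hγ0 hγ1 hζS hζS',
    ev_exp (1 / ζS) 0 (show (95 / 100 : ℝ) < 1 by norm_num), ev_pow 2 1 one_pos,
    ev_pow (24 + 16 / ε) 0 one_pos, ev_pow 24 0 (show (0 : ℝ) < 3 / 100 by norm_num),
    eventually_ge_atTop 6, eventually_ge_atTop (1500 * (lam + 8 * exp 30 * M))]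
    with L hlev hst hsys hxin hstab hpre n1 n2 n3 n4 n5 n6
  intro V _ _ P hPγ hP
  have hc := hP.card
  have hn : (0 : ℝ) < Fintype.card V := hc ▸ exp_pos L
  simp only [pow_zero, mul_one, one_mul, pow_one] at n1 n2 n3 n4
  have hb : ∀ c : ℝ, 0 ≤ c → c ≤ 2 → 0 ≤ c * L / Fintype.card V ∧ c * L / Fintype.card V ≤ 1 :=
    fun c h0 h2 => ⟨by positivity, by rw [div_le_one hn, hc]; nlinarith⟩
  have hw : ∀ c : ℝ, 0 ≤ c → c ≤ 2 → IsP fun _ : Tr V => bern (c * L / Fintype.card V) :=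
    fun c h0 h2 => isP_bern (fun _ => (hb c h0 h2).1) fun _ => (hb c h0 h2).2
  have he : exp (-L) * (24 + 16 / ε) ≤ 1 := by
    rw [exp_neg, ← div_eq_inv_mul, div_le_one (exp_pos _)]; exact n3
  have he0 := exp_pos (-L)
  have he1 : exp (-L) ≤ 1 / 24 := by
    have : 0 ≤ exp (-L) * (16 / ε) := by positivity
    linarith
  have he2 : 8 * exp (-L) ≤ ε / 2 := by
    have : exp (-L) * (16 / ε) ≤ 1 := by linarith
    rw [← mul_div_assoc, div_le_one hε] at this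
    linarith
  obtain ⟨ξ, hξ, hξ0⟩ : ∃ ξ : ℝ, 8 * ξ = exp (-30) * Fintype.card V ∧ 0 < ξ :=
    ⟨exp (-30) * Fintype.card V / 8, by ring, by positivity⟩
  obtain ⟨Ξ, _, ν, lb, A, Fa, hS⟩ := hsys V P ξ hPγ hP hξ0.le hξ.le
  obtain ⟨J, _, hJ, hT⟩ := hstab V P hP
  choose T hT using hT
  have hX : ∀ i, ν i ≠ 0 → XIn γ ζS fun e => lb i e ≠ 0 := fun i hi =>
    (hxin V P _ hPγ hP (hS.pris i hi)).1.mono (by linarith)
  have hA : ∀ i, ν i ≠ 0 → RayLe (A i) (ζS * Fintype.card V) := fun i hi =>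
    (hS.ray i hi).mono (fun _ h => h) (by
      rw [one_div, ← div_eq_inv_mul, div_le_iff₀ hζS] at n1
      rw [hc]; linarith)
  have hN : (Fintype.card V : ℝ) ^ 2 * (2 * κ) ^ ⌈L / (300 * lam)⌉₊ ≤ L₀ := by
    have := Nat.le_ceil (L / (300 * lam))
    rw [div_le_iff₀ (by positivity)] at this
    rw [hc, hκ, ← exp_nat_mul, ← exp_nat_mul, ← exp_add]
    refine le_trans (exp_le_one_iff.2 ?_) hL₀
    push_cast
    linarith
  have hp : (⌈L / (300 * lam)⌉₊ * exp 1 + M) / ξ ≤ 4 / 1000 * L / Fintype.card V := by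
    have h1 := (Nat.ceil_lt_add_one (show 0 ≤ L / (300 * lam) by positivity)).le
    have h2 : (⌈L / (300 * lam)⌉₊ : ℝ) * lam ≤ L / 300 + lam := by
      refine (mul_le_mul_of_nonneg_right h1 (by linarith)).trans (le_of_eq ?_)
      field_simp
    have h3 : exp 30 * exp (-30) = 1 := by rw [← exp_add]; simp
    have h4 : exp 31 = exp 30 * exp 1 := by rw [← exp_add]; norm_num
    have h5 : (Fintype.card V : ℝ) = 8 * exp 30 * ξ := by
      rw [mul_right_comm, hξ]; linear_combination (-(Fintype.card V : ℝ)) * h3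
    rw [h5, ← div_div (4 / 1000 * L)]
    refine div_le_div_of_nonneg_right ?_ hξ0.le
    rw [le_div_iff₀ (by positivity)]
    generalize (⌈L / (300 * lam)⌉₊ : ℝ) = j at h2 ⊢
    rw [hlam, h4] at h2 n6
    linarith
  refine le_trans (Ex_mono (hw _ (by norm_num) (by norm_num)).nonneg fun b => ind_mono fun h => ?_)
    ((markov_Av (hw _ (by norm_num) (by norm_num)) hS.nonneg hS.le
      (fun i b => ¬ PreB γ ζS L (fun e => lb i e ≠ 0) (A i) b) he0.le
      fun i hi => hpre V _ _ hc (hX i hi) (hA i hi)).trans (by linarith))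
  by_contra hf
  refine h fun τ hτ => ?_
  have h1 := markov_Av (hw (1 / 1000) (by norm_num) (by norm_num)) hS.nonneg hS.le
    (fun i a => PreB γ ζS L (fun e => lb i e ≠ 0) (A i) b ∧
      ¬ ∃ F, S1 (ζ₀ / 8) (12 * L) (fun e => lb i e ≠ 0) (A i) τ (T (lb i)) a b F) he0.le
    fun i hi => by
      by_cases hb : PreB γ ζS L (fun e => lb i e ≠ 0) (A i) b
      · simp only [hb, true_and]
        exact hst V J _ _ b τ _ hc hJ (hX i hi) (hA i hi)
          (fun e he h => h (hS.disj i hi e he)) hb hτ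
      · exact Ex_le (hw _ (by norm_num) (by norm_num)) fun a => by
          rw [ind_neg fun h => hb h.1]; exact he0.le
  refine le_trans (Ex_mono (hw _ (by norm_num) (by norm_num)).nonneg
    (G := fun a => ind (1 / 8 < Av ν fun i => ind (PreB γ ζS L (fun e => lb i e ≠ 0) (A i) b ∧
      ¬ ∃ F, S1 (ζ₀ / 8) (12 * L) (fun e => lb i e ≠ 0) (A i) τ (T (lb i)) a b F)) + ε / 2)
    fun a => ?_) (by rw [Ex_add, Ex_const (hw _ (by norm_num) (by norm_num))]; linarith)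
  by_cases hg : 1 / 8 < Av ν fun i => ind (PreB γ ζS L (fun e => lb i e ≠ 0) (A i) b ∧
      ¬ ∃ F, S1 (ζ₀ / 8) (12 * L) (fun e => lb i e ≠ 0) (A i) τ (T (lb i)) a b F)
  · rw [ind_pos hg]
    exact (Ex_le (hw _ (by norm_num) (by norm_num)) fun _ => ind_le_one _).trans (by linarith)
  rw [ind_neg hg, zero_add]
  refine le_trans (hS.fk hK.le he1 _ (fun i => (∀ e, A i e → ¬ Cv τ e) ∧
    ∃ F, S1 (ζ₀ / 8) (12 * L) (fun e => lb i e ≠ 0) (A i) τ (T (lb i)) a b F) ?_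
    (fun i hi ⟨o1, F₁, o2⟩ => ?_) _ hξ0 hκ0 hκ1 (by linarith) hM hN hp
    (hb _ (by norm_num) (by norm_num)).2) hβ
  · have h2 : τ.card * (3 * exp (-(L / 20))) ≤ 1 / 8 := by
      have h3 : exp (L / 50) * exp (-(L / 20)) * exp (3 / 100 * L) = 1 := by
        rw [← exp_add, ← exp_add, ← exp_zero]; congr 1; ring
      have h4 := mul_le_mul_of_nonneg_right hτ.2.2 (exp_pos (-(L / 20))).le
      have h5 := mul_le_mul_of_nonneg_left n4
        (show 0 ≤ exp (L / 50) * exp (-(L / 20)) by positivity)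
      linarith
    have h3 := Av_mono hS.nonneg (f := fun i => ind (¬ ((∀ e, A i e → ¬ Cv τ e) ∧
      ∃ F, S1 (ζ₀ / 8) (12 * L) (fun e => lb i e ≠ 0) (A i) τ (T (lb i)) a b F)))
      (g := fun i => ind (¬ ∀ e, A i e → ¬ Cv τ e) +
        (ind (¬ PreB γ ζS L (fun e => lb i e ≠ 0) (A i) b) +
          ind (PreB γ ζS L (fun e => lb i e ≠ 0) (A i) b ∧
            ¬ ∃ F, S1 (ζ₀ / 8) (12 * L) (fun e => lb i e ≠ 0) (A i) τ (T (lb i)) a b F)))
      fun i => le_trans (ind_mono (by tauto))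
        ((ind_or_le _ _).trans (add_le_add_right (ind_or_le _ _) _))
    rw [Av_add, Av_add] at h3
    linarith [hS.meet τ, not_lt.1 hf, not_lt.1 hg]
  · obtain ⟨lb', k1, k2, k3, k4⟩ := s1_rest hτ.1 (hS.disj i hi) (hS.bal i hi) o1 o2
    refine ⟨lb', fun e he => k2 e fun h => he (k1 e h), ?_, k3, k4⟩
    have := hT (lb i) lb' τ _ ζ (ζ₀ / 8) (L ^ 2) (12 * L) hζ0.le (by linarith) (by linarith)
      (by linarith) (by positivity) (by linarith) (hS.pris i hi) hτ.1 k1 k2 o2.2.2.2.2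
    exact hlev V P lb' _ hPγ hP (by positivity) (by nlinarith) (this.mono hP (by linarith)) k3

theorem core (ε : ℝ) (hε : 0 < ε) : ∀ᶠ n : ℕ in atTop, Core (Fin n) (log n) ε := by
  obtain ⟨γ, h0, h1, h⟩ := core_par hε
  filter_upwards [par_exists h0 h1,
    (tendsto_log_atTop.comp tendsto_natCast_atTop_atTop).eventually h] with n ⟨P, h2, h3⟩ h4
  exact h4 (Fin n) P h2 h3

end Pool.Agent.MP_46aeaf_co.HT

end

-- part MP_46aeaf_co.Prob2
section

set_option autoImplicit false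

/-! Union bounds for the expansion properties. -/

namespace Pool.Agent.MP_46aeaf_co

open Finset Pool.Agent.MP_81e6aa_pr Real

variable {V : Type} [Fintype V] [DecidableEq V] {p₁ p₂ : ℝ}

lemma prob_P2 (h0 : 0 ≤ p₁) (h1 : p₁ ≤ p₂) (h2 : p₂ ≤ 1) (a₀ ρ : ℝ)
    (hρ : ρ = p₁ * (3 / 5) * (Fintype.card V / 480)) :
    Ex (fun _ : V × V × V => wt p₁ p₂) (fun x => ind (¬ P2 a₀ (T1 x))) ≤
      exp (-(ρ * a₀) + 3 * (Fintype.card V : ℝ) ^ 2 * (3001 * exp (-ρ))) := by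
  have hw := wt_isP (I := V × V × V) h0 h1 h2
  refine (Ex_exists_le hw
    (Fintype.piFinset fun _ : Fin 3 × V × V => Icc (-1000 : ℤ) 2000)
    (fun ψ x => ((Fintype.card V : ℝ) / 480 * (∑ e, ind (ψ e ≠ 0) + a₀) ≤
      ∑ t : V × V × V, ind (ψ (ed 0 t) + ψ (ed 1 t) + ψ (ed 2 t) ≤ -2)) ∧
      ∑ t : V × V × V, ind (ψ (ed 0 t) + ψ (ed 1 t) + ψ (ed 2 t) ≤ -2 ∧ x t = 0) ≤ 0)
    (fun ψ => exp (-(ρ * a₀)) * ∏ e, exp (-ρ * ind (ψ e ≠ 0)))
    (fun ψ _ => ?_) _ fun x hx => ?_).trans ?_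
  · refine Ex_and_const hw _ _ (by positivity) fun hN => ?_
    refine (lower hw (fun a => a = 0) h0 (fun _ => wt_one p₁ p₂)
      (fun t => ψ (ed 0 t) + ψ (ed 1 t) + ψ (ed 2 t) ≤ -2) zero_le_one exp_neg_one_le 0).trans ?_
    rw [← exp_sum, ← exp_add, exp_le_exp, ← mul_sum]
    have := mul_le_mul_of_nonneg_left hN (show 0 ≤ p₁ * (3 / 5) by positivity)
    rw [hρ]
    linarith
  · unfold P2 at hx
    push Not at hx
    obtain ⟨ψ, a, b, c⟩ := hx
    refine ⟨ψ, by simpa [Fintype.mem_piFinset] using a, b, le_of_eq ?_⟩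
    exact sum_eq_zero fun t _ => ind_neg fun h => absurd h.1 (not_le.2 (c t h.2))
  · rw [← mul_sum, exp_add, ← Finset.prod_univ_sum (fun _ : Fin 3 × V × V => Icc (-1000 : ℤ) 2000)
      (fun _ v => exp (-ρ * ind (v ≠ 0)))]
    refine mul_le_mul_of_nonneg_left ?_ (exp_pos _).le
    rw [prod_const, card_univ]
    have e : 3 * (Fintype.card V : ℝ) ^ 2 = ((Fintype.card (Fin 3 × V × V) : ℕ) : ℝ) := by
      simp only [Fintype.card_prod, Fintype.card_fin]; push_cast; ring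
    rw [e, exp_nat_mul]
    refine pow_le_pow_left₀ (sum_nonneg fun _ _ => (exp_pos _).le) ?_ _
    have h3 : ∀ v : ℤ, exp (-ρ * ind (v ≠ 0)) ≤ (if v = 0 then 1 else 0) + exp (-ρ) := by
      intro v
      by_cases hv : v = 0
      · rw [if_pos hv, ind_neg (not_not.2 hv)]
        simpa using (exp_pos (-ρ)).le
      · rw [if_neg hv, ind_pos hv]; simp
    refine (sum_le_sum fun v _ => h3 v).trans ?_
    rw [sum_add_distrib, sum_ite_eq', sum_const, Int.card_Icc, if_pos (by simp), nsmul_eq_mul]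
    have : ((2000 + 1 - -1000 : ℤ).toNat : ℝ) = 3001 := by
      rw [show (2000 + 1 - -1000 : ℤ).toNat = 3001 from rfl]; norm_num
    rw [this]
    linarith [add_one_le_exp (3001 * exp (-ρ))]

omit [DecidableEq V] in
lemma one_le_cn {A : V → V → Prop} (h : 0 < cn A) : 1 ≤ cn A := by
  by_cases hA : ∃ a b, A a b
  · obtain ⟨a, b, hab⟩ := hA
    calc (1 : ℝ) = ind (A a b) := (ind_pos hab).symm
      _ ≤ ct (A a) := single_le_sum (f := fun b => ind (A a b)) (fun _ _ => ind_nonneg _)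
          (mem_univ b)
      _ ≤ cn A := single_le_sum (f := fun a => ct (A a)) (fun _ _ => ct_nonneg _) (mem_univ a)
  · have : cn A = 0 :=
      sum_eq_zero fun a _ => sum_eq_zero fun b _ => ind_neg fun h => hA ⟨a, b, h⟩
    linarith

omit [DecidableEq V] in
lemma cn_eq (A : V × V → Prop) : cn (fun a b => A (a, b)) = ∑ j, ind (A j) := by
  rw [Fintype.sum_prod_type]; rfl

open Classical in
lemma prob_P3a (h0 : 0 ≤ p₁) (h1 : p₁ ≤ p₂) (h2 : p₂ ≤ 1) {Δ d s lam : ℝ} (hΔ : 0 ≤ Δ)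
    (hs : 0 ≤ s) (hp : p₂ * exp s * (2 * Δ) ≤ 1) (hl : lam = s * d - 1) (hl0 : 0 ≤ lam) :
    Ex (fun _ : V × V × V => wt p₁ p₂) (fun x => ind (¬ P3a Δ d (T2 x))) ≤
      exp (-(lam / 2) + 3 * ((Fintype.card V : ℝ) ^ 2 * exp (-(lam / 4002)))) := by
  have hw := wt_isP (I := V × V × V) h0 h1 h2
  set F : (V × V → Prop) × (V × V → Prop) × (V × V → Prop) → V × V × V → Prop :=
    fun j t => j.1 (t.1, t.2.1) ∧ ((j.2.1 (t.1, t.2.2) ∧ ct (fun c => j.2.1 (t.1, c)) < Δ) ∨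
      (j.2.2 (t.2.1, t.2.2) ∧ ct (fun c => j.2.2 (t.2.1, c)) < Δ)) with hF
  refine (Ex_exists_le hw univ
    (fun (j : (V × V → Prop) × (V × V → Prop) × (V × V → Prop)) x =>
      (1 ≤ ∑ i, ind (j.1 i) ∧ ∑ i, ind (j.2.1 i) + ∑ i, ind (j.2.2 i) ≤ 2000 * ∑ i, ind (j.1 i)) ∧
      d * ∑ i, ind (j.1 i) ≤ ∑ t, ind (F j t ∧ x t ≠ 2))
    (fun j => exp (-(lam / 2)) * (exp (-(lam / 4002) * ∑ i, ind (j.1 i)) *
      (exp (-(lam / 4002) * ∑ i, ind (j.2.1 i)) * exp (-(lam / 4002) * ∑ i, ind (j.2.2 i)))))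
    (fun j _ => ?_) _ fun x hx => ?_).trans ?_
  · refine Ex_and_const hw _ _ (by positivity) fun ⟨hA, hB⟩ => ?_
    refine (upper hw (fun a => a ≠ 2) (h0.trans h1) (fun _ => wt_two p₁ p₂) (F j) hs _).trans ?_
    have hc : ∑ t, ind (F j t) ≤ 2 * Δ * ∑ i, ind (j.1 i) := by
      rw [Fintype.sum_prod_type, Fintype.sum_prod_type, mul_sum]
      refine sum_le_sum fun a _ => ?_
      rw [Fintype.sum_prod_type, mul_sum]
      refine sum_le_sum fun b _ => ?_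
      simp only [hF]
      rw [sum_ind_and, mul_comm]
      refine mul_le_mul_of_nonneg_right ?_ (ind_nonneg _)
      have g : ∀ X : V → Prop, ∑ c, ind (X c ∧ ct X < Δ) ≤ Δ := fun X => by
        by_cases hX : ct X < Δ
        · simp only [hX, and_true]; exact hX.le
        · simp only [hX, and_false, ind_neg not_false, sum_const_zero]; exact hΔ
      refine (sum_le_sum fun c _ => ind_or_le _ _).trans ?_
      rw [sum_add_distrib]
      linarith [g fun c => j.2.1 (a, c), g fun c => j.2.2 (b, c)]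
    rw [← exp_add, ← exp_add, ← exp_add, exp_le_exp]
    have hp0 : 0 ≤ p₂ * exp s := mul_nonneg (h0.trans h1) (exp_pos _).le
    have c1 := mul_le_mul_of_nonneg_left hc hp0
    set a := ∑ i, ind (j.1 i)
    have c2 : p₂ * exp s * (2 * Δ * a) ≤ a := by nlinarith
    have c3 := mul_le_mul_of_nonneg_left hA hl0
    have c4 := mul_le_mul_of_nonneg_left hB hl0
    have c5 : s * (d * a) = lam * a + a := by rw [hl]; ring
    linarith
  · unfold P3a at hx
    push Not at hx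
    obtain ⟨A, Bg, Bh, a, b, c⟩ := hx
    refine ⟨(fun i => A i.1 i.2, fun i => Bg i.1 i.2, fun i => Bh i.1 i.2), mem_univ _, ?_⟩
    simp only [← cn_eq]
    refine ⟨⟨one_le_cn a, b⟩, c.trans (le_of_eq ?_)⟩
    simp only [Fintype.sum_prod_type, hF]
    refine sum_congr rfl fun a _ => sum_congr rfl fun b _ => sum_congr rfl fun c _ =>
      ind_congr ?_
    unfold T2
    tauto
  · rw [← mul_sum, exp_add]
    refine mul_le_mul_of_nonneg_left ?_ (exp_pos _).le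
    have := sum_pred (I := V × V) (lam / 4002)
    rw [Fintype.card_prod, Nat.cast_mul, ← sq] at this
    rw [Fintype.sum_prod_type]
    simp only [Fintype.sum_prod_type (α₁ := V × V → Prop), ← mul_sum, ← sum_mul]
    have e : 3 * ((Fintype.card V : ℝ) ^ 2 * exp (-(lam / 4002))) =
        ((3 : ℕ) : ℝ) * ((Fintype.card V : ℝ) ^ 2 * exp (-(lam / 4002))) := by norm_num
    rw [e, exp_nat_mul]
    refine le_trans (le_of_eq (by ring)) (pow_le_pow_left₀ ?_ this 3)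
    exact sum_nonneg fun _ _ => (exp_pos _).le

open Classical in
lemma prob_P3b (h0 : 0 ≤ p₁) (h1 : p₁ ≤ p₂) (h2 : p₂ ≤ 1) {Δ d κ : ℝ}
    (hκ : 12000 * κ ≤ p₁ * (3 / 5) * (Fintype.card V / 4001) - d) (hκ0 : 0 ≤ κ) :
    Ex (fun _ : V × V × V => wt p₁ p₂) (fun x => ind (¬ P3b Δ d (T1 x))) ≤
      Fintype.card V * exp (-(κ * Δ) + 2 * (Fintype.card V * exp (-κ))) := by
  have hw := wt_isP (I := V × V × V) h0 h1 h2
  set F : V × (V → Prop) × (V → Prop) → V × V × V → Prop :=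
    fun j t => t.1 = j.1 ∧ j.2.1 t.2.1 ∧ ¬ j.2.2 t.2.2 with hF
  refine (Ex_exists_le hw univ
    (fun (j : V × (V → Prop) × (V → Prop)) x =>
      (Δ ≤ 4000 * ct j.2.1 ∧ ct j.2.2 ≤ 4000 * ct j.2.1 ∧
        ct j.2.1 + ct j.2.2 ≤ Fintype.card V) ∧
      ∑ t, ind (F j t ∧ x t = 0) ≤ d * ct j.2.1)
    (fun j => exp (-(κ * Δ)) * (exp (-κ * ∑ i, ind (j.2.1 i)) * exp (-κ * ∑ i, ind (j.2.2 i))))
    (fun j _ => ?_) _ fun x hx => ?_).trans ?_
  · refine Ex_and_const hw _ _ (by positivity) fun ⟨hA, hB, hC⟩ => ?_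
    refine (lower hw (fun a => a = 0) h0 (fun _ => wt_one p₁ p₂) (F j) zero_le_one
      exp_neg_one_le _).trans ?_
    have hc : ∑ t, ind (F j t) = ct j.2.1 * (Fintype.card V - ct j.2.2) := by
      simp only [Fintype.sum_prod_type, hF, ind_and, ← mul_sum, ← sum_mul, ind_not,
        sum_sub_distrib, sum_const, card_univ, nsmul_eq_mul, mul_one]
      have := sum_ind_eq j.1 (fun _ => 1)
      simp only [mul_one] at this
      rw [this, one_mul]; rfl
    rw [← exp_add, ← exp_add, exp_le_exp, hc]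
    change _ ≤ -(κ * Δ) + (-κ * ct j.2.1 + -κ * ct j.2.2)
    have x0 := ct_nonneg j.2.1
    set X := ct j.2.1
    set Y := ct j.2.2
    set n : ℝ := (Fintype.card V : ℝ)
    have c1 : X * (n / 4001) ≤ X * (n - Y) := mul_le_mul_of_nonneg_left (by linarith) x0
    have c2 := mul_le_mul_of_nonneg_left c1 (show 0 ≤ p₁ * (3 / 5) by positivity)
    have c3 := mul_le_mul_of_nonneg_left hκ x0
    have c4 := mul_le_mul_of_nonneg_left hA hκ0
    have c5 := mul_le_mul_of_nonneg_left hB hκ0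
    have c6 := mul_nonneg hκ0 x0
    nlinarith
  · unfold P3b at hx
    push Not at hx
    obtain ⟨a, X, Y, h3, h4, h5, h6⟩ := hx
    refine ⟨(a, X, Y), mem_univ _, ⟨h3, h4, h5⟩, le_trans (le_of_eq ?_) h6.le⟩
    simp only [Fintype.sum_prod_type, hF]
    rw [sum_eq_single a (fun a' _ ha => sum_eq_zero fun b _ => sum_eq_zero fun c _ =>
      ind_neg fun h => ha h.1.1) (by simp)]
    refine sum_congr rfl fun b _ => sum_congr rfl fun c _ => ind_congr ?_
    unfold T1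
    tauto
  · rw [← mul_sum, exp_add, Fintype.sum_prod_type]
    simp only [Fintype.sum_prod_type (α₁ := V → Prop), ← mul_sum, ← sum_mul, sum_const, card_univ,
      nsmul_eq_mul]
    have := sum_pred (I := V) κ
    have e : 2 * ((Fintype.card V : ℝ) * exp (-κ)) =
        ((2 : ℕ) : ℝ) * ((Fintype.card V : ℝ) * exp (-κ)) := by norm_num
    rw [e, exp_nat_mul]
    have h3 := pow_le_pow_left₀ (sum_nonneg fun _ _ => (exp_pos _).le) this 2
    have h4 : 0 ≤ exp (-(κ * Δ)) * (Fintype.card V : ℝ) := by positivity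
    refine le_trans (le_of_eq ?_) ((mul_le_mul_of_nonneg_left h3 h4).trans (le_of_eq ?_)) <;> ring

end Pool.Agent.MP_46aeaf_co

end

-- part MP_46aeaf_co.Asym
section

set_option autoImplicit false

/-! Choice of the parameters. -/

namespace Pool.Agent.MP_46aeaf_co

open Finset Pool.Agent.MP_81e6aa_pr Real

variable {V : Type} [Fintype V] [DecidableEq V]

/-- every covering family that is comparable with both label classes is fractionally Latin -/
def Good (x : V × V × V → Fin 3) : Prop :=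
  ∀ T : V → V → V → Prop, Cover T →
    ((∀ a b c, T a b c → T1 x a b c) ∨ ∀ a b c, T1 x a b c → T a b c) →
    ((∀ a b c, T a b c → T2 x a b c) ∨ ∀ a b c, T2 x a b c → T a b c) → Frac T

lemma Ex_perm (w : Fin 3 → ℝ) (σ : V × V × V ≃ V × V × V) (F : (V × V × V → Fin 3) → ℝ) :
    Ex (fun _ : V × V × V => w) (fun x => F (fun j => x (σ j))) = Ex (fun _ => w) F :=
  Ex_reindex σ (fun _ => w) F

def pBAC : V × V × V ≃ V × V × V :=
  ⟨fun t => (t.2.1, t.1, t.2.2), fun t => (t.2.1, t.1, t.2.2), fun _ => rfl, fun _ => rfl⟩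
def pACB : V × V × V ≃ V × V × V :=
  ⟨fun t => (t.1, t.2.2, t.2.1), fun t => (t.1, t.2.2, t.2.1), fun _ => rfl, fun _ => rfl⟩
def pCBA : V × V × V ≃ V × V × V :=
  ⟨fun t => (t.2.2, t.2.1, t.1), fun t => (t.2.2, t.2.1, t.1), fun _ => rfl, fun _ => rfl⟩
def pCAB : V × V × V ≃ V × V × V :=
  ⟨fun t => (t.2.2, t.1, t.2.1), fun t => (t.2.1, t.2.2, t.1), fun _ => rfl, fun _ => rfl⟩
def pBCA : V × V × V ≃ V × V × V :=
  ⟨fun t => (t.2.1, t.2.2, t.1), fun t => (t.2.2, t.1, t.2.1), fun _ => rfl, fun _ => rfl⟩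

lemma good_le [Nonempty V] {p₁ p₂ Δ d ε : ℝ} (h0 : 0 ≤ p₁) (h1 : p₁ ≤ p₂) (h2 : p₂ ≤ 1)
    (hΔ : 0 < Δ) (ha : 3000 * (Fintype.card V : ℝ) ≤ Δ ^ 2 / 10 ^ 6)
    (e1 : Ex (fun _ : V × V × V => wt p₁ p₂) (fun x => ind (¬ Cover (T2 x))) ≤ ε)
    (e2 : Ex (fun _ : V × V × V => wt p₁ p₂) (fun x => ind (Cover (T1 x))) ≤ ε)
    (e3 : Ex (fun _ : V × V × V => wt p₁ p₂) (fun x => ind (¬ P1 d (T1 x) (T2 x))) ≤ ε)
    (e4 : Ex (fun _ : V × V × V => wt p₁ p₂) (fun x => ind (¬ P2 (Δ ^ 2 / 10 ^ 6) (T1 x))) ≤ ε)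
    (e5 : Ex (fun _ : V × V × V => wt p₁ p₂) (fun x => ind (¬ P3a Δ (d - 2) (T2 x))) ≤ ε)
    (e6 : Ex (fun _ : V × V × V => wt p₁ p₂) (fun x => ind (¬ P3b Δ d (T1 x))) ≤ ε) :
    Ex (fun _ : V × V × V => wt p₁ p₂) (fun x => ind (¬ Good x)) ≤ 13 * ε := by
  have hw := wt_isP (I := V × V × V) h0 h1 h2
  let Q : Fin 13 → (V × V × V → Fin 3) → Prop := ![fun x => ¬ Cover (T2 x), fun x => Cover (T1 x),
    fun x => ¬ P1 d (T1 x) (T2 x), fun x => ¬ P2 (Δ ^ 2 / 10 ^ 6) (T1 x),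
    fun x => ¬ P3a Δ (d - 2) (T2 x), fun x => ¬ P3a Δ (d - 2) (T2 fun j => x (pACB j)),
    fun x => ¬ P3a Δ (d - 2) (T2 fun j => x (pCAB j)), fun x => ¬ P3b Δ d (T1 x),
    fun x => ¬ P3b Δ d (T1 fun j => x (pBAC j)), fun x => ¬ P3b Δ d (T1 fun j => x (pACB j)),
    fun x => ¬ P3b Δ d (T1 fun j => x (pBCA j)), fun x => ¬ P3b Δ d (T1 fun j => x (pCAB j)),
    fun x => ¬ P3b Δ d (T1 fun j => x (pCBA j))]
  refine (Ex_exists_le hw univ Q (fun _ => ε) (fun j _ => ?_) _ fun x hx => ?_).trans (by simp)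
  · fin_cases j
    · exact e1
    · exact e2
    · exact e3
    · exact e4
    · exact e5
    · exact (Ex_perm _ pACB fun x => ind (¬ P3a Δ (d - 2) (T2 x))).trans_le e5
    · exact (Ex_perm _ pCAB fun x => ind (¬ P3a Δ (d - 2) (T2 x))).trans_le e5
    · exact e6
    · exact (Ex_perm _ pBAC fun x => ind (¬ P3b Δ d (T1 x))).trans_le e6
    · exact (Ex_perm _ pACB fun x => ind (¬ P3b Δ d (T1 x))).trans_le e6
    · exact (Ex_perm _ pBCA fun x => ind (¬ P3b Δ d (T1 x))).trans_le e6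
    · exact (Ex_perm _ pCAB fun x => ind (¬ P3b Δ d (T1 x))).trans_le e6
    · exact (Ex_perm _ pCBA fun x => ind (¬ P3b Δ d (T1 x))).trans_le e6
  · by_contra hc
    have q : ∀ j, ¬ Q j x := fun j h => hc ⟨j, mem_univ _, h⟩
    have key : ∀ T : V → V → V → Prop, Cover T → (∀ a b c, T1 x a b c → T a b c) →
        (∀ a b c, T a b c → T2 x a b c) → Frac T := fun T hT k1 k2 =>
      det hΔ ha k1 k2 hT (not_not.1 (q 2)) (not_not.1 (q 3)) (not_not.1 (q 4)) (not_not.1 (q 5))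
        (not_not.1 (q 6)) (not_not.1 (q 7)) (not_not.1 (q 8)) (not_not.1 (q 9))
        (not_not.1 (q 10)) (not_not.1 (q 11)) (not_not.1 (q 12))
    refine hx fun T hT k1 k2 => ?_
    rcases k1 with k1 | k1
    · refine absurd ⟨fun a b => ?_, fun a b => ?_, fun a b => ?_⟩ (q 1)
      · exact (hT.1 a b).imp fun c h => k1 _ _ _ h
      · exact (hT.2.1 a b).imp fun c h => k1 _ _ _ h
      · exact (hT.2.2 a b).imp fun c h => k1 _ _ _ h
    rcases k2 with k2 | k2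
    · exact key T hT k1 k2
    · obtain ⟨y, y0, y1, y2⟩ := key (T2 x) (not_not.1 (q 0))
        (fun a b c h => by unfold T1 at h; unfold T2; rw [h]; decide) fun _ _ _ h => h
      exact ⟨y, y0, fun a b c h => k2 _ _ _ (y1 a b c h), y2⟩

lemma sq_le_exp {y : ℝ} (hy : 0 ≤ y) : y ^ 2 / 2 ≤ exp y := by
  simpa using pow_div_factorial_le_exp y hy 2

lemma cube_le_exp {y : ℝ} (hy : 0 ≤ y) : y ^ 3 / 6 ≤ exp y := by
  simpa [Nat.factorial] using pow_div_factorial_le_exp y hy 3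

theorem good_prob {L : ℝ} (hn : (Fintype.card V : ℝ) = exp L) (hL : 10 ^ 18 ≤ L) :
    ∃ w : Fin 3 → ℝ, (∀ I : Type, IsP fun _ : I => w) ∧
      Ex (fun _ : V × V × V => w) (fun x => ind (¬ Good x)) ≤ 39 * exp (-(L / 10)) := by
  set n : ℝ := (Fintype.card V : ℝ) with hnV
  have hn0 : 0 < n := hn ▸ exp_pos L
  have : Nonempty V := Fintype.card_pos_iff.1 (by rw [hnV] at hn0; exact_mod_cast hn0)
  have hL0 : 0 < L := by linarith
  have hnL : 36 * L ≤ n := by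
    have := sq_le_exp hL0.le
    rw [hn]; nlinarith
  set u : ℝ := L / n with hu
  have hu0 : 0 ≤ u := by positivity
  have hu1 : u ≤ 1 / 36 := by rw [hu, div_le_iff₀ hn0]; linarith
  have hun : u * n = L := by rw [hu]; field_simp
  set k : ℝ := L / 10 ^ 8 with hk
  have hk3 : 10 ^ 10 ≤ k := by rw [hk]; linarith
  set Δ : ℝ := exp (L - k) with hΔ
  have hΔ0 : 0 < Δ := exp_pos _
  have hΔ2 : Δ ^ 2 = exp (2 * L - 2 * k) := by rw [hΔ, ← exp_nat_mul]; congr 1; push_cast; ring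
  have hε0 : 0 < exp (-(L / 10)) := exp_pos _
  have h0 : 0 ≤ 9 / 5 * u := by positivity
  have h1 : 9 / 5 * u ≤ 4 * u := by linarith
  have h2 : 4 * u ≤ 1 := by linarith
  have n2 : n ^ 2 = exp (2 * L) := by rw [hn, ← exp_nat_mul]; norm_num
  have n3 : n ^ 3 = exp (3 * L) := by rw [hn, ← exp_nat_mul]; norm_num
  refine ⟨wt (9 / 5 * u) (4 * u), fun I => wt_isP h0 h1 h2, ?_⟩
  refine (good_le (d := L / 10 ^ 4) (ε := 3 * exp (-(L / 10))) h0 h1 h2 hΔ0 ?_ ?_ ?_ ?_ ?_ ?_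
    ?_).trans (le_of_eq (by ring))
  · rw [hΔ2, ← hnV, hn, show 2 * L - 2 * k = L + (L - 2 * k) by ring, exp_add]
    have := add_one_le_exp (L - 2 * k)
    have h3 : 3 * 10 ^ 9 ≤ exp (L - 2 * k) := by linarith
    nlinarith [exp_pos L]
  · refine (prob_cover h0 h1 h2).trans ?_
    rw [← hnV, n2, mul_assoc, ← exp_add]
    refine mul_le_mul_of_nonneg_left (exp_le_exp.2 ?_) (by norm_num)
    nlinarith
  · refine (prob_early h0 h1 h2).trans 
      (le_trans (exp_le_exp.2 ?_) (show exp (-(L / 10)) ≤ _ by linarith))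
    have h3 : exp (-(19 / 10 * u)) ≤ 1 - 9 / 5 * u := by
      rw [exp_neg, inv_le_comm₀ (exp_pos _) (by linarith), inv_le_iff_one_le_mul₀ (by linarith)]
      have := add_one_le_exp (19 / 10 * u)
      nlinarith
    have h4 := pow_le_pow_left₀ (exp_pos _).le h3 (Fintype.card V)
    rw [← exp_nat_mul, ← hnV] at h4
    have h5 : exp (L / 10) ≤ n ^ 2 * (1 - 9 / 5 * u) ^ Fintype.card V := by
      refine le_trans (le_of_eq ?_) (mul_le_mul_of_nonneg_left h4 (sq_nonneg n))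
      rw [n2, ← exp_add]; congr 1; nlinarith
    rw [← hnV]
    linarith [add_one_le_exp (L / 10)]
  · refine (prob_P1 h0 h1 h2 _).trans ?_
    rw [← hnV]
    have e : n ^ 3 + 3 * n ^ 5 * (4 * u) ^ 2 = (1 + 48 * L ^ 2) * exp (3 * L) := by
      rw [← n3, ← hun]; ring
    have h3 : 9 * (1 + 48 * L ^ 2) ≤ exp (L / 10) := by
      have := cube_le_exp (show 0 ≤ L / 10 by positivity)
      nlinarith
    rw [e, ← mul_assoc, mul_assoc (9 * _), ← exp_add]
    refine (mul_le_mul_of_nonneg_right h3 (exp_pos _).le).trans ?_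
    rw [← exp_add]
    refine le_trans (exp_le_exp.2 ?_) (show exp (-(L / 10)) ≤ _ by linarith)
    nlinarith
  · refine (prob_P2 h0 h1 h2 _ (9 / 4000 * L) (by rw [← hnV, ← hun]; ring)).trans
      (le_trans (exp_le_exp.2 ?_) (show exp (-(L / 10)) ≤ _ by linarith))
    rw [← hnV, hΔ2, n2]
    have e : exp (2 * L) * exp (-(9 / 4000 * L)) * exp (9 / 4000 * L - 2 * k) =
        exp (2 * L - 2 * k) := by rw [← exp_add, ← exp_add]; congr 1; ring
    have h3 : 10 ^ 14 ≤ exp (9 / 4000 * L - 2 * k) := by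
      linarith [add_one_le_exp (9 / 4000 * L - 2 * k)]
    have h4 : 10 ^ 14 ≤ exp (2 * L - 2 * k) := by linarith [add_one_le_exp (2 * L - 2 * k)]
    have h5 : 0 < exp (2 * L) * exp (-(9 / 4000 * L)) := by positivity
    have h6 := mul_le_mul_of_nonneg_left h3 h5.le
    rw [e] at h6
    nlinarith
  · have hl : 8004 * L ≤ k / 2 * (L / 10 ^ 4 - 2) - 1 := by nlinarith
    refine (prob_P3a h0 h1 h2 hΔ0.le (s := k / 2) (by linarith) ?_ rfl (by linarith)).trans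
      (le_trans (exp_le_exp.2 ?_) (show exp (-(L / 10)) ≤ _ by linarith))
    · have e : exp (k / 2) * Δ * exp (k / 2) = n := by
        rw [hΔ, hn, ← exp_add, ← exp_add]; congr 1; ring
      have h3 : 8 * L ≤ exp (k / 2) := by
        have := sq_le_exp (show 0 ≤ k / 2 by linarith)
        nlinarith
      refine le_of_mul_le_mul_right ?_ (exp_pos (k / 2))
      have : 4 * u * exp (k / 2) * (2 * Δ) * exp (k / 2) = 8 * L := by rw [← hun, ← e]; ring
      linarith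
    · rw [← hnV, n2, ← exp_add]
      have : exp (2 * L + -((k / 2 * (L / 10 ^ 4 - 2) - 1) / 4002)) ≤ 1 :=
        exp_le_one_iff.2 (by linarith)
      linarith
  · refine (prob_P3b h0 h1 h2 (κ := k) ?_ (by linarith)).trans ?_
    · rw [← hnV]
      have : 9 / 5 * u * (3 / 5) * (n / 4001) = 27 / 25 / 4001 * L := by rw [← hun]; ring
      rw [this, hk]; linarith
    · rw [← hnV, hn, ← exp_add, ← exp_add, show L + -k = L - k by ring, ← hΔ]
      refine le_trans (exp_le_exp.2 ?_) (show exp (-(L / 10)) ≤ _ by linarith)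
      have h3 : L / 2 ≤ Δ := by linarith [add_one_le_exp (L - k)]
      nlinarith

end Pool.Agent.MP_46aeaf_co

end
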