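import Pool.Agent.MP_46aeaf_co.Mg.Asym
import Pool.Agent.MP_46aeaf_co.Mg.LS_Tools

-- part MP_46aeaf_co.Transfer
section

set_option autoImplicit false

/-! From independent labels to the uniformly random ordering. -/

namespace Pool.Agent.MP_46aeaf_co

open Finset Pool.Agent.MP_81e6aa_pr Real

lemma nested {N : ℕ} (P : Fin N → Prop) (hP : ∀ i j, i ≤ j → P j → P i) (t : ℕ) :
    (∀ i : Fin N, (i : ℕ) < t → P i) ∨ ∀ i : Fin N, P i → (i : ℕ) < t := by
  by_contra h
  push Not at h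
  obtain ⟨⟨i, hi, hi'⟩, j, hj, hj'⟩ := h
  exact hi' (hP i j (by rw [Fin.le_def]; omega) hj)

open Classical in
lemma transfer {Ω : Type} [Fintype Ω] [DecidableEq Ω] {N : ℕ} (w : Fin 3 → ℝ)
    (hw : ∀ I : Type, IsP fun _ : I => w) (G : (Ω → Fin 3) → Prop) (C : (Ω ≃ Fin N) → Prop)
    (hGC : ∀ (e : Ω ≃ Fin N) (m : Fin N → Fin 3), Monotone m → G (fun u => m (e u)) → C e) :
    Fintype.card (Ω ≃ Fin N) * Ex (fun _ : Ω => w) (fun x => ind (G x)) ≤ ∑ e, ind (C e) := by
  have h1 : ∀ c : Fin N → Fin 3, ∑ e : Ω ≃ Fin N, ind (G fun u => c (e u)) ≤ ∑ e, ind (C e) := by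
    intro c
    rw [← Equiv.sum_comp (Equiv.equivCongr (Equiv.refl Ω) (Tuple.sort c))]
    refine sum_le_sum fun e _ => ind_mono fun h => hGC e (c ∘ Tuple.sort c)
      (Tuple.monotone_sort c) h
  have h2 := Ex_le (hw (Fin N)) h1
  rw [Ex_sum] at h2
  refine le_trans (le_of_eq ?_) h2
  rw [sum_congr rfl fun e _ => Ex_reindex e (fun _ : Fin N => w) fun x => ind (G x)]
  simp

theorem main :
    Filter.Tendsto (fun n : ℕ =>
      (Nat.card {e : (Fin n × Fin n × Fin n) ≃ Fin (n ^ 3) //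
        ∀ t : ℕ, Cover (fun a b c => ((e (a, b, c) : Fin (n ^ 3)) : ℕ) < t) →
          Frac (fun a b c => ((e (a, b, c) : Fin (n ^ 3)) : ℕ) < t)} : ℝ) /
      (Nat.card ((Fin n × Fin n × Fin n) ≃ Fin (n ^ 3)) : ℝ))
      Filter.atTop (nhds 1) := by
  classical
  have hlog : Filter.Tendsto (fun n : ℕ => log n) Filter.atTop Filter.atTop :=
    tendsto_log_atTop.comp tendsto_natCast_atTop_atTop
  have hlim : Filter.Tendsto (fun n : ℕ => 1 - 39 * exp (-(log n / 10))) Filter.atTop (nhds 1) := by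
    have := ((tendsto_exp_neg_atTop_nhds_zero.comp
      (hlog.atTop_div_const (show (0 : ℝ) < 10 by norm_num))).const_mul 39).const_sub 1
    simpa using this
  have hcard : ∀ n : ℕ, (0 : ℝ) < Nat.card ((Fin n × Fin n × Fin n) ≃ Fin (n ^ 3)) := by
    intro n
    have : Nonempty ((Fin n × Fin n × Fin n) ≃ Fin (n ^ 3)) :=
      ⟨Fintype.equivFinOfCardEq (by simp [pow_succ, mul_assoc])⟩
    exact_mod_cast Nat.card_pos
  refine tendsto_of_tendsto_of_tendsto_of_le_of_le' hlim tendsto_const_nhds ?_ ?_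
  · filter_upwards [hlog.eventually_ge_atTop (10 ^ 18), Filter.eventually_gt_atTop 0] with n hL hn
    obtain ⟨w, hw, hb⟩ := good_prob (V := Fin n) (L := log n)
      (by rw [exp_log (by exact_mod_cast hn)]; simp) hL
    rw [Ex_not (hw _)] at hb
    rw [le_div_iff₀ (hcard n), Nat.card_eq_fintype_card, Nat.card_eq_fintype_card,
      Fintype.card_subtype, card_filter_eq_sum_ind]
    refine le_trans ?_ (transfer w hw Good _ fun e m hm hG t hc => hG _ hc ?_ ?_)
    · rw [mul_comm]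
      exact mul_le_mul_of_nonneg_left (by linarith) (Nat.cast_nonneg _)
    · exact (nested (fun i => m i = 0) (fun i j h h' => le_antisymm (h' ▸ hm h) (Fin.zero_le _))
        t).imp (fun h a b c => h _) fun h a b c => h _
    · refine (nested (fun i => m i ≠ 2) (fun i j h h' h'' => h' ?_) t).imp
        (fun h a b c => h _) fun h a b c => h _
      exact le_antisymm (Fin.le_last _) (h'' ▸ hm h)
  · refine Filter.Eventually.of_forall fun n => ?_
    rw [div_le_one (hcard n)]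
    exact_mod_cast Nat.card_le_card_of_injective _ Subtype.val_injective

end Pool.Agent.MP_46aeaf_co

end

-- part MP_46aeaf_co.LS.Model
section

set_option autoImplicit false
set_option linter.unusedSectionVars false
set_option linter.unusedVariables false

/-! The model: deterministic part and transfer to the random ordering. -/

namespace Pool.Agent.MP_46aeaf_co.HT

open Finset Pool.Agent.MP_81e6aa_pr Real Filter

section

variable {V : Type}

/-- the family `T` contains a Latin square -/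
def Lat (T : Tr V → Prop) : Prop := ∃ F : Finset (Tr V), (∀ t ∈ F, T t) ∧ Dec F fun _ => True

/-- every covering initial segment of the preorder given by `c` contains a Latin square -/
def GoodC {M : ℕ} (c : Tr V → Fin M) : Prop :=
  ∀ T : Tr V → Prop, (∀ t t', T t → c t' < c t → T t') → Cover (fun a b s => T (a, b, s)) → Lat T

/-- the time of a triple with data `(b, (a, w), z)` -/
def tm {M : ℕ} (y : Bool × (Bool × Bool) × Fin M) : Fin (M + 1) :=
  if y.1 || y.2.1.1 || y.2.1.2 then 0 else y.2.2.succ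

/-- three levels as in `prob_P1` -/
def lv3 {M : ℕ} (m₂ : ℕ) (y : Bool × (Bool × Bool) × Fin M) : Fin 3 :=
  if y.1 then 0 else if (tm y : ℕ) ≤ m₂ then 1 else 2

variable [Fintype V]

/-- lines of low degree -/
def Low (L : ℝ) (b : Tr V → Bool) (e : Ln V) : Prop := dg (fun t => b t = true) e < L / 10 ^ 4

/-- the typical behaviour of the model -/
structure Typ {M : ℕ} (L : ℝ) (m₂ : ℕ) (y : Tr V → Bool × (Bool × Bool) × Fin M) : Prop where
  early : ¬ Cover fun a b s => tm (y (a, b, s)) = 0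
  cover : Cover (T2 fun t => lv3 m₂ (y t))
  p1 : P1 (L / 10 ^ 4) (T1 fun t => lv3 m₂ (y t)) (T2 fun t => lv3 m₂ (y t))
  few : ct (Low L fun t => (y t).1) ≤ exp (L / 50)
  ties : ∀ t t' k, ed k t = ed k t' → (y t).2.2 = (y t').2.2 → t = t'

omit [Fintype V] in
lemma modd_cover {T : Tr V → Prop} :
    Cover (fun a b s => T (a, b, s)) ↔ ∀ e : Ln V, ∃ v, T (tri e v) := by
  constructor
  · rintro ⟨h0, h1, h2⟩ ⟨k, a, b⟩
    fin_cases k
    · simpa [tri] using h0 a b
    · simpa [tri] using h1 a b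
    · simpa [tri] using h2 a b
  · intro h
    exact ⟨fun a b => by simpa [tri] using h (0, a, b), fun a b => by simpa [tri] using h (1, a, b),
      fun a b => by simpa [tri] using h (2, a, b)⟩

lemma modd_lv0 {M : ℕ} (m₂ : ℕ) (y : Bool × (Bool × Bool) × Fin M) :
    lv3 m₂ y = 0 ↔ y.1 = true := by
  unfold lv3; split_ifs <;> simp_all

lemma modd_lv2 {M : ℕ} (m₂ : ℕ) (y : Bool × (Bool × Bool) × Fin M) :
    lv3 m₂ y ≠ 2 ↔ (tm y : ℕ) ≤ m₂ := by
  unfold lv3
  split_ifs with h1 h2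
  · simp [tm, h1]
  · simp [h2]
  · simp [h2]

lemma modd_tm {M : ℕ} {y y' : Bool × (Bool × Bool) × Fin M} (h : tm y = tm y') (h0 : tm y ≠ 0) :
    y.2.2 = y'.2.2 := by
  have h0' : tm y' ≠ 0 := h ▸ h0
  unfold tm at h h0 h0'
  split_ifs at h h0 h0' <;> simp_all

/-- Let `τ b y` be the image of the low lines `e` under `e ↦ tri e (v e)`, where `v e` minimises
`v ↦ tm (b (tri e v), y (tri e v))` (choose it by `Classical.choose` from a statement that only
mentions this function of `v`, e.g. `v e = am (fun v => ..)` for a fixed `am : (V → Fin (M + 1)) → V`).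
`T1 (lv3 ..)` is `b`, so `deg (T1 ..) e = dg (b · = true) e`; the minimiser has level at most 1 by
`cover`, so `p1` gives `VD`.  If `T` is a covering initial segment then `T` contains a triple of
positive time (`early`), hence all triples of time 0, and it contains the minimisers (`ties`);
`F ∪ τ` is a Latin square (`PL.union`, `VD.pl`). -/
theorem exists_tau [DecidableEq V] [Nonempty V] (L : ℝ) (M m₂ : ℕ) :
    ∃ τ : (Tr V → Bool) → (Tr V → (Bool × Bool) × Fin M) → Finset (Tr V),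
      (∀ b y y', (∀ t, (∃ k, Low L b (ed k t)) → y t = y' t) → τ b y = τ b y') ∧
      ∀ b y, Typ L m₂ (fun t => (b t, y t)) → RS b L (τ b y) ∧
        ∀ F : Finset (Tr V), (∀ t ∈ F, (y t).1.1 = true ∨ b t = true ∨ (y t).1.2 = true) →
          Dec F (fun e => ¬ Cv (τ b y) e) → GoodC fun t => tm (b t, y t) := by
  classical
  have ex : ∀ f : V → Fin (M + 1), ∃ v, ∀ v', f v ≤ f v' := fun f => Finite.exists_min f
  choose am ham using ex
  refine ⟨fun b y => (univ.filter (Low L b)).image fun e =>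
    tri e (am fun v => tm (b (tri e v), y (tri e v))), fun b y y' h => ?_, fun b y hT => ?_⟩
  · refine image_congr fun e he => ?_
    have he' : Low L b e := by simpa using he
    have : (fun v => tm (b (tri e v), y (tri e v))) = fun v => tm (b (tri e v), y' (tri e v)) :=
      funext fun v => by rw [h (tri e v) ⟨e.1, (ed_tri e v).symm ▸ he'⟩]
    simp only [this]
  set c : Tr V → Fin (M + 1) := fun t => tm (b t, y t) with hc
  set mn : Ln V → Tr V := fun e => tri e (am fun v => c (tri e v)) with hmn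
  have hmin : ∀ e v, c (mn e) ≤ c (tri e v) := fun e v => ham (fun v => c (tri e v)) v
  have hed : ∀ e, ed e.1 (mn e) = e := fun e => ed_tri e _
  have hmem : ∀ t, t ∈ (univ.filter (Low L b)).image mn ↔ ∃ e, Low L b e ∧ mn e = t := fun t => by
    simp
  have h2 : ∀ e, lv3 m₂ (b (mn e), y (mn e)) ≠ 2 := fun e => by
    obtain ⟨v, hv⟩ := (modd_cover (T := fun t => lv3 m₂ (b t, y t) ≠ 2)).1 hT.cover e
    rw [modd_lv2] at hv ⊢
    exact le_trans (hmin e v) hv
  have hdeg : ∀ e, deg (T1 fun t => lv3 m₂ (b t, y t)) e = dg (fun t => b t = true) e := fun e =>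
    sum_congr rfl fun t _ => ind_congr (and_congr_right fun _ => modd_lv0 m₂ (b t, y t))
  have hVD : VD ((univ.filter (Low L b)).image mn) := by
    intro t ht t' ht' k hk
    obtain ⟨e, he, rfl⟩ := (hmem t).1 ht
    obtain ⟨e', he', rfl⟩ := (hmem t').1 ht'
    by_contra hne
    have hee : e ≠ e' := fun h => hne (h ▸ rfl)
    have := hT.p1 e.1 e'.1 (mn e) (mn e') (by rw [hed, hed]; exact hee) (h2 e) (h2 e')
      (by rw [hed, hdeg]; exact he) (by rw [hed, hdeg]; exact he')
    fin_cases k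
    · exact this.1 (by simpa [co] using hk)
    · exact this.2.1 (by simpa [co] using hk)
    · exact this.2.2 (by simpa [co] using hk)
  refine ⟨⟨hVD, fun e he => ⟨mn e, (hmem _).2 ⟨e, he, rfl⟩, hed e⟩, ?_⟩, ?_⟩
  · refine le_trans ?_ hT.few
    rw [ct_card]
    exact_mod_cast card_image_le
  · intro F hF hD T hI hC
    have h0 : ∀ t, c t = 0 → T t := by
      have : ∃ t, T t ∧ c t ≠ 0 := by
        by_contra hn
        push Not at hn
        refine hT.early ((modd_cover (T := fun t => c t = 0)).2 fun e => ?_)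
        obtain ⟨v, hv⟩ := modd_cover.1 hC e
        exact ⟨v, hn _ hv⟩
      obtain ⟨t₀, ht₀, hc₀⟩ := this
      intro t ht
      refine hI t₀ t ht₀ ?_
      show c t < c t₀
      rw [ht]; exact Fin.pos_iff_ne_zero.2 hc₀
    refine ⟨F ∪ (univ.filter (Low L b)).image mn, fun t ht => ?_,
      hD.1.union hVD.pl fun e he => (hD.2 e).1 he, fun e => ⟨fun _ => trivial, fun _ => ?_⟩⟩
    · rcases mem_union.1 ht with h | h
      · refine h0 t ?_
        rcases hF t h with h | h | h <;> simp [hc, tm, h]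
      · obtain ⟨e, -, rfl⟩ := (hmem t).1 h
        obtain ⟨v, hv⟩ := modd_cover.1 hC e
        rcases (hmin e v).lt_or_eq with h | h
        · exact hI _ _ hv h
        · by_cases hz : c (mn e) = 0
          · exact h0 _ hz
          · rw [hT.ties (mn e) (tri e v) e.1 ((hed e).trans (ed_tri e v).symm) (modd_tm h hz)]
            exact hv
    · rw [cv_union]
      by_cases h : Cv ((univ.filter (Low L b)).image mn) e
      · exact Or.inr h
      · exact Or.inl ((hD.2 e).2 h)

end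

open Classical in
lemma modd_transfer {Ω : Type} [Fintype Ω] [DecidableEq Ω] {N M : ℕ} {w : Fin M → ℝ} (hw : Pm w)
    (G : (Ω → Fin M) → Prop) (C : (Ω ≃ Fin N) → Prop)
    (hGC : ∀ (e : Ω ≃ Fin N) (m : Fin N → Fin M), Monotone m → G (fun u => m (e u)) → C e) :
    Fintype.card (Ω ≃ Fin N) * Ex (fun _ : Ω => w) (fun x => ind (G x)) ≤ ∑ e, ind (C e) := by
  have h1 : ∀ c : Fin N → Fin M, ∑ e : Ω ≃ Fin N, ind (G fun u => c (e u)) ≤ ∑ e, ind (C e) := by
    intro c
    rw [← Equiv.sum_comp (Equiv.equivCongr (Equiv.refl Ω) (Tuple.sort c))]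
    refine sum_le_sum fun e _ => ind_mono fun h => hGC e (c ∘ Tuple.sort c)
      (Tuple.monotone_sort c) h
  have h2 := Ex_le (hw.isP (Fin N)) h1
  rw [Ex_sum] at h2
  refine le_trans (le_of_eq ?_) h2
  rw [sum_congr rfl fun e _ => Ex_reindex e (fun _ : Fin N => w) fun x => ind (G x)]
  simp

lemma modd_lat {V : Type} {T : Tr V → Prop} (h : Lat T) :
    ∃ L : V → V → V, (∀ i, Function.Injective (L i)) ∧
      (∀ j, Function.Injective fun i => L i j) ∧ ∀ i j, T (i, j, L i j) := by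
  obtain ⟨F, hF, hP, hC⟩ := h
  have ex : ∀ i j, ∃ s, (i, j, s) ∈ F := fun i j => by
    obtain ⟨⟨a, b, s⟩, ht, he⟩ := (hC (0, i, j)).2 trivial
    simp only [ed0, Prod.mk.injEq, true_and] at he
    obtain ⟨rfl, rfl⟩ := he
    exact ⟨s, ht⟩
  choose L hL using ex
  refine ⟨L, fun i j j' h => ?_, fun j i i' h => ?_, fun i j => hF _ (hL i j)⟩
  · have := hP _ (hL i j) _ (hL i j') 1 (by simp [h])
    exact (Prod.ext_iff.1 (Prod.ext_iff.1 this).2).1
  · have := hP _ (hL i j) _ (hL i' j) 2 (by simpa using h)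
    exact (Prod.ext_iff.1 this).1

/-- As `transfer` and `main` in `Transfer.lean`, with `Fin 3` replaced by `Fin (M + 1)`: for a
monotone `m` the set of `u` with `e u < t` is an initial segment for `fun u => m (e u)`; a
decomposition of all lines gives the array `L`. -/
theorem of_goodC (h : ∀ ε : ℝ, 0 < ε → ∀ᶠ n : ℕ in atTop, ∃ (M : ℕ) (w : Fin M → ℝ), Pm w ∧
    Ex (fun _ : Tr (Fin n) => w) (fun c => ind (¬ GoodC c)) ≤ ε) :
    Filter.Tendsto (fun n : ℕ =>
      (Nat.card {e : (Fin n × Fin n × Fin n) ≃ Fin (n ^ 3) //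
        ∀ t : ℕ,
          ((∀ i j : Fin n, ∃ k : Fin n, ((e (i, j, k) : Fin (n ^ 3)) : ℕ) < t) ∧
           (∀ i k : Fin n, ∃ j : Fin n, ((e (i, j, k) : Fin (n ^ 3)) : ℕ) < t) ∧
           (∀ j k : Fin n, ∃ i : Fin n, ((e (i, j, k) : Fin (n ^ 3)) : ℕ) < t)) →
          ∃ L : Fin n → Fin n → Fin n,
            (∀ i : Fin n, Function.Injective (L i)) ∧
            (∀ j : Fin n, Function.Injective (fun i : Fin n => L i j)) ∧
            ∀ i j : Fin n, ((e (i, j, L i j) : Fin (n ^ 3)) : ℕ) < t} : ℝ) /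
      (Nat.card ((Fin n × Fin n × Fin n) ≃ Fin (n ^ 3)) : ℝ))
      Filter.atTop (nhds 1) := by
  classical
  have hcard : ∀ n : ℕ, (0 : ℝ) < Nat.card ((Fin n × Fin n × Fin n) ≃ Fin (n ^ 3)) := by
    intro n
    have : Nonempty ((Fin n × Fin n × Fin n) ≃ Fin (n ^ 3)) :=
      ⟨Fintype.equivFinOfCardEq (by simp [pow_succ, mul_assoc])⟩
    exact_mod_cast Nat.card_pos
  refine tendsto_order.2 ⟨fun a ha => ?_, fun a ha => Eventually.of_forall fun n => ?_⟩
  · filter_upwards [h ((1 - a) / 2) (by linarith)] with n ⟨M, w, hw, hb⟩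
    rw [Ex_not (hw.isP _)] at hb
    refine lt_of_lt_of_le (show a < 1 - (1 - a) / 2 by linarith) ?_
    rw [le_div_iff₀ (hcard n), Nat.card_eq_fintype_card, Nat.card_eq_fintype_card,
      Fintype.card_subtype, card_filter_eq_sum_ind]
    refine le_trans ?_ (modd_transfer hw GoodC _ fun e m hm hG t hc =>
      modd_lat (T := fun u => (e u : ℕ) < t) (hG _ (fun u u' hu hlt => ?_) hc))
    · rw [mul_comm]
      exact mul_le_mul_of_nonneg_left (by linarith) (Nat.cast_nonneg _)
    · exact lt_trans (Fin.lt_def.1 (hm.reflect_lt hlt)) hu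
  · refine lt_of_le_of_lt ?_ ha
    rw [div_le_one (hcard n)]
    exact_mod_cast Nat.card_le_card_of_injective _ Subtype.val_injective

end Pool.Agent.MP_46aeaf_co.HT

/-! The model: probability part. -/

namespace Pool.Agent.MP_46aeaf_co.HT

open Finset Pool.Agent.MP_81e6aa_pr Real Filter

/-- the law of the data of one triple -/
noncomputable def wy (L n : ℝ) (M : ℕ) (y : (Bool × Bool) × Fin M) : ℝ :=
  bern (1 / 1000 * L / n) y.1.1 * bern (4 / 1000 * L / n) y.1.2 * unif (Fin M) y.2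

/-- the joint law of all the data of one triple -/
noncomputable def modpW (u : ℝ) (M : ℕ) (c : Bool × (Bool × Bool) × Fin M) : ℝ :=
  bern (199 / 100 * u) c.1 *
    (bern (1 / 1000 * u) c.2.1.1 * bern (4 / 1000 * u) c.2.1.2 * unif (Fin M) c.2.2)

lemma modp_z (u : ℝ) (M : ℕ) (h : Fin M → ℝ) :
    ∑ c, modpW u M c * h c.2.2 = (M : ℝ)⁻¹ * ∑ z, h z := by
  simp only [modpW, Fintype.sum_prod_type, Fintype.sum_bool, bern, unif, Fintype.card_fin,
    if_true, Bool.false_eq_true, if_false, ← mul_sum]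
  ring

lemma modp_y (u : ℝ) {M : ℕ} (hM : 0 < M) (h : Bool → Bool → Bool → ℝ) :
    ∑ c, modpW u M c * h c.1 c.2.1.1 c.2.1.2 = ∑ b, ∑ a, ∑ w,
      bern (199 / 100 * u) b * bern (1 / 1000 * u) a * bern (4 / 1000 * u) w * h b a w := by
  have hM' : (M : ℝ) ≠ 0 := by positivity
  simp only [modpW, Fintype.sum_prod_type, unif, Fintype.card_fin, sum_const, card_univ,
    nsmul_eq_mul]
  refine sum_congr rfl fun b _ => sum_congr rfl fun a _ => sum_congr rfl fun w _ => ?_
  field_simp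

lemma modp_isP {I : Type} {u : ℝ} {M : ℕ} (hM : 0 < M) (h0 : 0 ≤ u) (h1 : u ≤ 1 / 2) :
    IsP fun _ : I => modpW u M := by
  have hb : ∀ q : ℝ, 0 ≤ q → q ≤ 1 → ∀ b, 0 ≤ bern q b := fun q a b c => by
    cases c <;> simp [bern, a, b]
  refine ⟨fun _ c => ?_, fun _ => ?_⟩
  · refine mul_nonneg (hb _ (by positivity) (by linarith) _) (mul_nonneg (mul_nonneg
      (hb _ (by positivity) (by linarith) _) (hb _ (by positivity) (by linarith) _)) ?_)
    unfold unif; positivity
  · have := modp_z u M fun _ => 1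
    have hM' : (M : ℝ) ≠ 0 := by positivity
    simp only [mul_one, sum_const, card_univ, Fintype.card_fin, nsmul_eq_mul] at this
    rw [this, inv_mul_cancel₀ hM']

lemma modp_b (u : ℝ) {M : ℕ} (hM : 0 < M) :
    ∑ c, modpW u M c * ind (c.1 = true) = 199 / 100 * u := by
  rw [modp_y u hM fun b _ _ => ind (b = true)]
  simp [bern, ind]
  ring

lemma modp_tm {M : ℕ} (c : Bool × (Bool × Bool) × Fin M) :
    tm c = 0 ↔ (c.1 || c.2.1.1 || c.2.1.2) = true := by
  unfold tm
  split_ifs with h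
  · simp [h]
  · simp [h]

lemma modp_t {u : ℝ} {M : ℕ} (hM : 0 < M) (h0 : 0 ≤ u) (h1 : u ≤ 1 / 2) :
    ∑ c, modpW u M c * ind (tm c = 0) ≤ 1995 / 1000 * u := by
  simp only [modp_tm]
  rw [modp_y u hM fun b a w => ind ((b || a || w) = true)]
  simp [bern, ind]
  nlinarith [mul_nonneg h0 h0, mul_nonneg (mul_nonneg h0 h0) (show 0 ≤ 1 - u by linarith)]

lemma modp_lt (u : ℝ) {M m : ℕ} (hm : m ≤ M) :
    ∑ c, modpW u M c * ind ((c.2.2 : ℕ) < m) = (M : ℝ)⁻¹ * m := by
  rw [modp_z u M fun z => ind ((z : ℕ) < m), ← card_filter_eq_sum_ind, Fin.card_filter_val_lt,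
    min_eq_right hm]

lemma modp_eq (u : ℝ) {M : ℕ} (j : Fin M) :
    ∑ c, modpW u M c * ind (c.2.2 = j) = (M : ℝ)⁻¹ := by
  rw [modp_z u M fun z => ind (z = j)]
  have := ct_eq j
  unfold ct at this
  rw [this, mul_one]

/-- push forward to three levels -/
lemma modp_map {I α : Type} [Fintype I] [DecidableEq I] [Fintype α] {W : α → ℝ}
    (hW : IsP fun _ : I => W) (i₀ : I) (f : α → Fin 3) {p₁ p₂ : ℝ}
    (h1 : p₁ = ∑ a, W a * ind (f a = 0)) (h2 : p₂ = ∑ a, W a * ind (f a ≠ 2)) :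
    (0 ≤ p₁ ∧ p₁ ≤ p₂ ∧ p₂ ≤ 1) ∧ ∀ F : (I → Fin 3) → ℝ,
      Ex (fun _ => W) (fun x => F fun i => f (x i)) = Ex (fun _ => wt p₁ p₂) F := by
  have hn : ∀ a, 0 ≤ W a := hW.nonneg i₀
  have hs : ∑ a, W a = 1 := hW.sum i₀
  refine ⟨⟨?_, ?_, ?_⟩, fun F => (Ex_map _ _ (fun _ => f) (fun _ b => ?_) F).symm⟩
  · rw [h1]; exact sum_nonneg fun a _ => mul_nonneg (hn a) (ind_nonneg _)
  · rw [h1, h2]
    exact sum_le_sum fun a _ => mul_le_mul_of_nonneg_left
      (ind_mono fun h => by rw [h]; decide) (hn a)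
  · rw [h2, ← hs]
    exact sum_le_sum fun a _ => mul_le_of_le_one_right (hn a) (ind_le_one _)
  · have e1 : ∀ j : Fin 3, ind (j = 1) = ind (j ≠ 2) - ind (j = 0) := fun j => by
      fin_cases j <;> simp [ind]
    have e2 : ∀ j : Fin 3, ind (j = 2) = 1 - ind (j ≠ 2) := fun j => by
      fin_cases j <;> simp [ind]
    fin_cases b
    · simpa [wt] using h1
    · change p₂ - p₁ = ∑ a, W a * ind (f a = 1)
      simp only [e1, mul_sub, sum_sub_distrib, h1, h2]
    · change 1 - p₂ = ∑ a, W a * ind (f a = 2)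
      simp only [e2, mul_sub, sum_sub_distrib, mul_one, hs, h2]

lemma modp_exp6 : exp (-6) ≤ 1 - 9975 / 10000 := by
  rw [exp_neg, inv_le_comm₀ (exp_pos _) (by norm_num)]
  have h : exp 6 = exp 1 ^ 6 := by rw [← exp_nat_mul]; norm_num
  have h2 := pow_le_pow_left₀ (by norm_num) exp_one_gt_d9.le 6
  rw [h]
  refine le_trans ?_ h2
  norm_num

section

variable {V : Type} [Fintype V] [DecidableEq V] {L u : ℝ} {M : ℕ}

lemma modp_early [Nonempty V] (hn : (Fintype.card V : ℝ) = exp L) (hM : 0 < M) (h0 : 0 ≤ u)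
    (h1 : u ≤ 1 / 2000) (hun : u * Fintype.card V = L) :
    Ex (fun _ : Tr V => modpW u M) (fun y => ind (Cover fun a b s => tm (y (a, b, s)) = 0)) ≤
      exp (-(L / 400)) := by
  have hw : IsP fun _ : Tr V => modpW u M := modp_isP hM h0 (by linarith)
  obtain ⟨⟨a0, a1, a2⟩, hF⟩ := modp_map hw (Classical.arbitrary _)
    (fun c => if tm c = 0 then 0 else 2) rfl rfl
  have e : ∀ c : Bool × (Bool × Bool) × Fin M,
      (if tm c = 0 then (0 : Fin 3) else 2) = 0 ↔ tm c = 0 := fun c => by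
    split_ifs with h <;> simp [h]
  have hp : ∑ c, modpW u M c * ind ((if tm c = 0 then (0 : Fin 3) else 2) = 0) ≤
      1995 / 1000 * u := by
    simp only [e]; exact modp_t hM h0 (by linarith)
  have h2 := prob_early (V := V) a0 a1 a2
  rw [← hF] at h2
  generalize ∑ c, modpW u M c * ind ((if tm c = 0 then (0 : Fin 3) else 2) = 0) = p at *
  refine le_trans (le_of_eq (Ex_congr fun y => ind_congr ?_)) (h2.trans (exp_le_exp.2 ?_))
  · unfold T1
    simp only [e]
  · have h3 : exp (-(1997 / 1000 * u)) ≤ 1 - 1995 / 1000 * u := by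
      rw [exp_neg, inv_le_comm₀ (exp_pos _) (by linarith), inv_le_iff_one_le_mul₀ (by linarith)]
      have := add_one_le_exp (1997 / 1000 * u)
      nlinarith
    have h4 := pow_le_pow_left₀ (exp_pos _).le (h3.trans (show _ ≤ 1 - p by linarith))
      (Fintype.card V)
    rw [← exp_nat_mul] at h4
    have n2 : (Fintype.card V : ℝ) ^ 2 = exp (2 * L) := by rw [hn, ← exp_nat_mul]; norm_num
    have h5 : exp (3 / 1000 * L) ≤ (Fintype.card V : ℝ) ^ 2 * (1 - p) ^ Fintype.card V := by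
      refine le_trans (le_of_eq ?_) (mul_le_mul_of_nonneg_left h4 (sq_nonneg _))
      rw [n2, ← exp_add]; congr 1; linarith
    have hL : 0 ≤ L := by rw [← hun]; positivity
    linarith [add_one_le_exp (3 / 1000 * L)]

lemma modp_lv [Nonempty V] {m : ℕ} (hn : (Fintype.card V : ℝ) = exp L) (hM : 0 < M)
    (hm : m ≤ M) (h0 : 0 ≤ u) (h1 : u ≤ 1 / 2000) (hun : u * Fintype.card V = L)
    (r0 : 4 * u ≤ (M : ℝ)⁻¹ * m) (r1 : (M : ℝ)⁻¹ * m ≤ 5 * u) (hL : 10 ≤ L)
    (hL2 : 9 * (1 + 147 * L ^ 2) ≤ exp (L / 10)) :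
    Ex (fun _ : Tr V => modpW u M) (fun y => ind (¬ Cover (T2 fun t => lv3 m (y t)))) ≤
      3 * exp (-(L / 400)) ∧
    Ex (fun _ : Tr V => modpW u M) (fun y => ind (¬ P1 (L / 10 ^ 4) (T1 fun t => lv3 m (y t))
      (T2 fun t => lv3 m (y t)))) ≤ exp (-(L / 400)) := by
  have hw : IsP fun _ : Tr V => modpW u M := modp_isP hM h0 (by linarith)
  have hW : ∀ c, 0 ≤ modpW u M c := hw.nonneg (Classical.arbitrary _)
  obtain ⟨⟨a0, a1, a2⟩, hF⟩ := modp_map hw (Classical.arbitrary _) (lv3 m) rfl rfl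
  have e0 : ∀ c : Bool × (Bool × Bool) × Fin M, lv3 m c = 0 ↔ c.1 = true := fun c => by
    unfold lv3; split_ifs with h h' <;> simp [h]
  have e1 : ∀ c : Bool × (Bool × Bool) × Fin M, (c.2.2 : ℕ) < m → lv3 m c ≠ 2 := fun c hc => by
    have : (tm c : ℕ) ≤ m := by
      unfold tm; split_ifs
      · simp
      · simpa using hc
    unfold lv3; split_ifs with h <;> simp
  have e2 : ∀ c : Bool × (Bool × Bool) × Fin M, lv3 m c ≠ 2 →
      tm c = 0 ∨ (c.2.2 : ℕ) < m := fun c hc => by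
    by_cases h : tm c = 0
    · exact Or.inl h
    · right
      have h' : ¬ (c.1 || c.2.1.1 || c.2.1.2) = true := fun h' => h ((modp_tm c).2 h')
      have h1 : ¬ c.1 = true := fun h1 => h' (by simp [h1])
      unfold lv3 at hc
      rw [if_neg h1] at hc
      by_contra h2
      refine hc (if_neg ?_)
      unfold tm
      rw [if_neg h']
      simpa using h2
  have p1 : ∑ c, modpW u M c * ind (lv3 m c = 0) = 199 / 100 * u := by
    simp only [e0]; exact modp_b u hM
  have p2 : 4 * u ≤ ∑ c, modpW u M c * ind (lv3 m c ≠ 2) := by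
    rw [← modp_lt u hm] at r0
    exact r0.trans (sum_le_sum fun c _ => mul_le_mul_of_nonneg_left (ind_mono (e1 c)) (hW c))
  have p3 : ∑ c, modpW u M c * ind (lv3 m c ≠ 2) ≤ 7 * u := by
    rw [← modp_lt u hm] at r1
    have := modp_t hM h0 (show u ≤ 1 / 2 by linarith)
    refine le_trans (sum_le_sum fun c _ => mul_le_mul_of_nonneg_left
      ((ind_mono (e2 c)).trans (ind_or_le _ _)) (hW c)) ?_
    simp only [mul_add, sum_add_distrib]
    linarith
  have hc := prob_cover (V := V) a0 a1 a2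
  have hp := prob_P1 (V := V) a0 a1 a2 (L / 10 ^ 4)
  rw [← hF] at hc hp
  rw [p1] at hp a1
  generalize ∑ c, modpW u M c * ind (lv3 m c ≠ 2) = p at *
  set n : ℝ := (Fintype.card V : ℝ) with hnV
  have hn0 : 0 < n := hn ▸ exp_pos L
  have n2 : n ^ 2 = exp (2 * L) := by rw [hn, ← exp_nat_mul]; norm_num
  have n3 : n ^ 3 = exp (3 * L) := by rw [hn, ← exp_nat_mul]; norm_num
  refine ⟨hc.trans ?_, hp.trans ?_⟩
  · rw [n2, mul_assoc, ← exp_add]
    refine mul_le_mul_of_nonneg_left (exp_le_exp.2 ?_) (by norm_num)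
    have := mul_le_mul_of_nonneg_right p2 hn0.le
    linarith
  · have e : n ^ 3 + 3 * n ^ 5 * p ^ 2 ≤ (1 + 147 * L ^ 2) * exp (3 * L) := by
      have h7 : p ^ 2 ≤ (7 * u) ^ 2 := pow_le_pow_left₀ (by linarith) p3 2
      have h8 := mul_le_mul_of_nonneg_left h7 (show 0 ≤ 3 * n ^ 5 by positivity)
      have h9 : n ^ 3 + 3 * n ^ 5 * (7 * u) ^ 2 = (1 + 147 * L ^ 2) * exp (3 * L) := by
        rw [← n3, ← hun]; ring
      linarith
    calc _ ≤ 9 * ((1 + 147 * L ^ 2) * exp (3 * L)) *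
          exp (3 * (2 * (L / 10 ^ 4)) - 199 / 100 * u * (9 / 10) * (2 * n - 3)) :=
          mul_le_mul_of_nonneg_right (mul_le_mul_of_nonneg_left e (by norm_num)) (exp_pos _).le
      _ ≤ exp (L / 10) * (exp (3 * L) *
          exp (3 * (2 * (L / 10 ^ 4)) - 199 / 100 * u * (9 / 10) * (2 * n - 3))) := by
          rw [← mul_assoc 9, mul_assoc]
          exact mul_le_mul_of_nonneg_right hL2 (by positivity)
      _ ≤ _ := by
          rw [← exp_add, ← exp_add, exp_le_exp]
          have : 199 / 100 * u * (9 / 10) * (2 * n - 3) = 3582 / 1000 * L - 5373 / 1000 * u := by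
            rw [← hun]; ring
          rw [this]
          linarith

lemma modp_few (hn : (Fintype.card V : ℝ) = exp L) (hM : 0 < M) (h0 : 0 ≤ u)
    (h1 : u ≤ 1 / 2000) (hun : u * Fintype.card V = L) :
    Ex (fun _ : Tr V => modpW u M) (fun y => ind (¬ ct (Low L fun t => (y t).1) ≤ exp (L / 50))) ≤
      3 * exp (-(L / 400)) := by
  have hw : IsP fun _ : Tr V => modpW u M := modp_isP hM h0 (by linarith)
  have hL : 0 ≤ L := by rw [← hun]; positivity
  have he : ∀ e : Ln V, Ex (fun _ : Tr V => modpW u M)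
      (fun y => ind (Low L (fun t => (y t).1) e)) ≤ exp (-(19844 / 10000 * L)) := fun e => by
    have := lower hw (fun c => c.1 = true) (by positivity) (fun _ => modp_b u hM)
      (fun t => ed e.1 t = e) (s := 6) (by norm_num) modp_exp6 (L / 10 ^ 4)
    rw [line_card] at this
    refine le_trans (Ex_mono hw.nonneg fun y => ind_mono fun h => le_of_lt h)
      (this.trans (exp_le_exp.2 ?_))
    have : 199 / 100 * u * (9975 / 10000) * (Fintype.card V : ℝ) = 1985025 / 1000000 * L := by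
      rw [← hun]; ring
    rw [this]
    linarith
  have n2 : (Fintype.card V : ℝ) ^ 2 = exp (2 * L) := by rw [hn, ← exp_nat_mul]; norm_num
  calc _ ≤ Ex (fun _ : Tr V => modpW u M)
        (fun y => exp (-(L / 50)) * ∑ e, ind (Low L (fun t => (y t).1) e)) := by
        refine Ex_mono hw.nonneg fun y => ind_le
          (mul_nonneg (exp_pos _).le (ct_nonneg _)) fun h => ?_
        have h2 := mul_le_mul_of_nonneg_left (not_le.1 h).le (exp_pos (-(L / 50))).le
        rwa [← exp_add, neg_add_cancel, exp_zero] at h2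
    _ ≤ exp (-(L / 50)) * ∑ _e : Ln V, exp (-(19844 / 10000 * L)) := by
        rw [Ex_smul, Ex_sum]
        exact mul_le_mul_of_nonneg_left (sum_le_sum fun e _ => he e) (exp_pos _).le
    _ ≤ _ := by
        rw [sum_const, card_univ, nsmul_eq_mul, card_Ln, n2, mul_assoc, ← exp_add, mul_left_comm,
          ← exp_add]
        refine mul_le_mul_of_nonneg_left (exp_le_exp.2 ?_) (by norm_num)
        linarith

lemma modp_ties (hM : 0 < M) (h0 : 0 ≤ u) (h1 : u ≤ 1 / 2000) :
    Ex (fun _ : Tr V => modpW u M) (fun y => ind (¬ ∀ t t' k, ed k t = ed k t' →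
      (y t).2.2 = (y t').2.2 → t = t')) ≤ 3 * (Fintype.card V : ℝ) ^ 4 * (M : ℝ)⁻¹ := by
  have hw : IsP fun _ : Tr V => modpW u M := modp_isP hM h0 (by linarith)
  have hM' : (M : ℝ) ≠ 0 := by positivity
  refine (Ex_exists_le hw (univ : Finset (Tr V × Fin 3 × V))
    (fun j y => j.1 ≠ tri (ed j.2.1 j.1) j.2.2 ∧
      (y j.1).2.2 = (y (tri (ed j.2.1 j.1) j.2.2)).2.2)
    (fun _ => (M : ℝ)⁻¹) (fun j _ => ?_) _ fun y hy => ?_).trans (le_of_eq ?_)
  · refine Ex_and_const hw _ _ (by positivity) fun hne => ?_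
    generalize tri (ed j.2.1 j.1) j.2.2 = t' at hne ⊢
    refine (Ex_exists_le hw (univ : Finset (Fin M))
      (fun z y => ∀ i ∈ ({j.1, t'} : Finset (Tr V)), (y i).2.2 = z) (fun _ => (M : ℝ)⁻¹ ^ 2)
      (fun z _ => ?_) _ fun y hy => ⟨(y j.1).2.2, mem_univ _, by simp [hy]⟩).trans (le_of_eq ?_)
    · have := Ex_all_le hw {j.1, t'} (fun c => c.2.2 = z) fun _ => (modp_eq u z).le
      rwa [card_pair hne] at this
    · rw [sum_const, card_univ, Fintype.card_fin, nsmul_eq_mul]
      field_simp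
  · push Not at hy
    obtain ⟨t, t', k, h2, h3, h4⟩ := hy
    have h5 : tri (ed k t) (co (2 - k) t') = t' := by rw [h2, tri_ed]
    exact ⟨(t, k, co (2 - k) t'), mem_univ _, by simpa [h5] using h4, by simpa [h5] using h3⟩
  · simp only [sum_const, card_univ, Fintype.card_prod, Fintype.card_fin, nsmul_eq_mul]
    push_cast
    ring

lemma modp_main (hn : (Fintype.card V : ℝ) = exp L) (hL : 10 ≤ L) (hL1 : 2000 * L ≤ exp L)
    (hL2 : 9 * (1 + 147 * L ^ 2) ≤ exp (L / 10)) :
    ∃ M m : ℕ, 0 < M ∧ Ex (fun _ : Tr V => modpW (L / Fintype.card V) M)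
      (fun y => ind (¬ Typ L m y)) ≤ 11 * exp (-(L / 400)) := by
  set n : ℝ := (Fintype.card V : ℝ) with hnV
  have hn0 : 0 < n := hn ▸ exp_pos L
  have hc : 0 < Fintype.card V := by rw [hnV] at hn0; exact_mod_cast hn0
  have : Nonempty V := Fintype.card_pos_iff.1 hc
  have hn1 : 1 ≤ n := by rw [hn]; linarith
  set u : ℝ := L / n with hu
  have h0 : 0 ≤ u := by positivity
  have h1 : u ≤ 1 / 2000 := by rw [hu, div_le_iff₀ hn0, hn]; linarith
  have hun : u * n = L := by rw [hu]; field_simp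
  have hM : 0 < Fintype.card V ^ 5 := by positivity
  have hMn : ((Fintype.card V ^ 5 : ℕ) : ℝ) = n ^ 5 := by push_cast; rfl
  have n4 : 1 ≤ n ^ 4 := one_le_pow₀ hn1
  have c0 : 4 * L * n ^ 4 ≤ (⌈4 * L * n ^ 4⌉₊ : ℝ) := Nat.le_ceil _
  have c1 : (⌈4 * L * n ^ 4⌉₊ : ℝ) ≤ 5 * L * n ^ 4 := by
    have := Nat.ceil_lt_add_one (show 0 ≤ 4 * L * n ^ 4 by positivity)
    nlinarith
  have hm : ⌈4 * L * n ^ 4⌉₊ ≤ Fintype.card V ^ 5 := by
    rw [← Nat.cast_le (α := ℝ), hMn]
    refine c1.trans ?_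
    rw [pow_succ' n 4]
    exact mul_le_mul_of_nonneg_right (by rw [hn]; linarith) (by positivity)
  generalize ⌈4 * L * n ^ 4⌉₊ = m at *
  generalize Fintype.card V ^ 5 = M at hM hMn hm
  have k : ∀ c : ℝ, (M : ℝ)⁻¹ * (c * L * n ^ 4) = c * u := fun c => by
    rw [hMn, hu]; field_simp
  have hMi : 0 ≤ (M : ℝ)⁻¹ := by positivity
  have hw : IsP fun _ : Tr V => modpW u M := modp_isP hM h0 (by linarith)
  have b1 := modp_early hn hM h0 h1 hun
  obtain ⟨b2, b3⟩ := modp_lv hn hM hm h0 h1 hun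
    (by rw [← k]; exact mul_le_mul_of_nonneg_left c0 hMi)
    (by rw [← k]; exact mul_le_mul_of_nonneg_left c1 hMi) hL hL2
  have b4 := modp_few hn hM h0 h1 hun
  have b5 := modp_ties (V := V) hM h0 h1
  have b6 : 3 * n ^ 4 * (M : ℝ)⁻¹ ≤ 3 * exp (-(L / 400)) := by
    have : 3 * n ^ 4 * (M : ℝ)⁻¹ = 3 * exp (-L) := by
      rw [hMn, exp_neg, ← hn]; field_simp
    rw [this]
    exact mul_le_mul_of_nonneg_left (exp_le_exp.2 (by linarith)) (by norm_num)
  refine ⟨M, m, hM, le_trans (Ex_mono hw.nonneg (G := fun y =>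
    ind (Cover fun a b s => tm (y (a, b, s)) = 0) + ind (¬ Cover (T2 fun t => lv3 m (y t))) +
    ind (¬ P1 (L / 10 ^ 4) (T1 fun t => lv3 m (y t)) (T2 fun t => lv3 m (y t))) +
    ind (¬ ct (Low L fun t => (y t).1) ≤ exp (L / 50)) +
    ind (¬ ∀ t t' k, ed k t = ed k t' → (y t).2.2 = (y t').2.2 → t = t')) fun y => ?_) ?_⟩
  · have i1 := ind_nonneg (Cover fun a b s => tm (y (a, b, s)) = 0)
    have i2 := ind_nonneg (¬ Cover (T2 fun t => lv3 m (y t)))
    have i3 := ind_nonneg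
      (¬ P1 (L / 10 ^ 4) (T1 fun t => lv3 m (y t)) (T2 fun t => lv3 m (y t)))
    have i4 := ind_nonneg (¬ ct (Low L fun t => (y t).1) ≤ exp (L / 50))
    have i5 := ind_nonneg (¬ ∀ t t' k, ed k t = ed k t' → (y t).2.2 = (y t').2.2 → t = t')
    refine ind_le (by linarith) fun h => ?_
    by_cases j1 : Cover fun a b s => tm (y (a, b, s)) = 0
    · linarith [ind_pos j1]
    by_cases j2 : ¬ Cover (T2 fun t => lv3 m (y t))
    · linarith [ind_pos j2]
    by_cases j3 : ¬ P1 (L / 10 ^ 4) (T1 fun t => lv3 m (y t)) (T2 fun t => lv3 m (y t))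
    · linarith [ind_pos j3]
    by_cases j4 : ¬ ct (Low L fun t => (y t).1) ≤ exp (L / 50)
    · linarith [ind_pos j4]
    by_cases j5 : ¬ ∀ t t' k, ed k t = ed k t' → (y t).2.2 = (y t').2.2 → t = t'
    · linarith [ind_pos j5]
    exact absurd ⟨j1, not_not.1 j2, not_not.1 j3, not_not.1 j4, not_not.1 j5⟩ h
  · simp only [Ex_add]
    linarith

end

theorem typ_prob {ε : ℝ} (hε : 0 < ε) : ∀ᶠ n : ℕ in atTop, ∃ M m₂ : ℕ, 0 < M ∧
    Ex (fun _ : Tr (Fin n) => bern (199 / 100 * log n / n)) (fun b =>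
      Ex (fun _ : Tr (Fin n) => wy (log n) n M) fun y =>
        ind (¬ Typ (log n) m₂ fun t => (b t, y t))) ≤ ε := by
  have hev : ∀ᶠ L : ℝ in atTop, 10 ≤ L ∧ 2000 * L ≤ exp L ∧
      9 * (1 + 147 * L ^ 2) ≤ exp (L / 10) ∧ 11 * exp (-(L / 400)) ≤ ε := by
    filter_upwards [eventually_ge_atTop 10, ev_pow 2000 1 one_pos,
      ev_pow 1400 2 (show (0 : ℝ) < 1 / 10 by norm_num),
      ev_pow (11 / ε) 0 (show (0 : ℝ) < 1 / 400 by norm_num)] with L a b c d
    refine ⟨a, by simpa using b, ?_, ?_⟩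
    · rw [show L / 10 = 1 / 10 * L by ring]; nlinarith
    · rw [pow_zero, mul_one, div_le_iff₀ hε] at d
      rw [exp_neg, show L / 400 = 1 / 400 * L by ring, mul_inv_le_iff₀ (exp_pos _)]
      linarith
  filter_upwards [(tendsto_log_atTop.comp tendsto_natCast_atTop_atTop).eventually hev,
    eventually_gt_atTop 0] with n h hn
  obtain ⟨a, b, c, d⟩ := h
  have hn' : (Fintype.card (Fin n) : ℝ) = exp (log n) := by
    rw [Fintype.card_fin, exp_log (by exact_mod_cast hn)]
  obtain ⟨M, m, hM, h⟩ := modp_main hn' a b c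
  refine ⟨M, m, hM, le_trans (le_of_eq ?_) (h.trans d)⟩
  rw [← Ex_pair (fun _ : Tr (Fin n) => bern (199 / 100 * log n / n))
    (fun _ : Tr (Fin n) => wy (log n) n M) fun y => ind (¬ Typ (log n) m y)]
  congr 1
  funext _ c
  simp only [modpW, wy, Fintype.card_fin, mul_div_assoc]

end Pool.Agent.MP_46aeaf_co.HT

/-! The model: reduction to the core statement. -/

namespace Pool.Agent.MP_46aeaf_co.HT

open Finset Pool.Agent.MP_81e6aa_pr Real Filter

/-- Let `w` be the law of `tm` (`Ex_map`, `Ex_pair`).  For fixed `b` use `Ex_splice` with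
`Q t = ∃ k, Low L b (ed k t)`: with `y'' = splice Q y y'`,
`ind (¬ GoodC) ≤ ind (¬ Typ y'') + ind (RS b L (τ b y)) * ind (¬ ∃ F inside b, y', Dec F ..)`,
because `τ b y'' = τ b y` and the triples of such an `F` are on no low line (low lines are covered
by `τ`), so `y''` and `y'` agree on `F`.  The mean over `y'` of the last factor is the double
expectation in `Core` (`Ex_pair` twice, `Ex_const`). -/
theorem goodC_of_core (h : ∀ ε : ℝ, 0 < ε → ∀ᶠ n : ℕ in atTop, Core (Fin n) (log n) ε)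
    (ε : ℝ) (hε : 0 < ε) : ∀ᶠ n : ℕ in atTop, ∃ (M : ℕ) (w : Fin M → ℝ), Pm w ∧
      Ex (fun _ : Tr (Fin n) => w) (fun c => ind (¬ GoodC c)) ≤ ε := by
  classical
  have hε3 : 0 < ε / 3 := by linarith
  filter_upwards [h _ hε3, typ_prob hε3, eventually_ge_atTop 1,
    (tendsto_log_atTop.comp tendsto_natCast_atTop_atTop).eventually (ev_pow 2 1 one_pos)]
    with n hC ⟨M, m₂, hM, hT⟩ hn1 hn2
  have hn : (0 : ℝ) < n := by exact_mod_cast hn1
  have hL : 0 ≤ log n := log_natCast_nonneg n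
  simp only [Function.comp, pow_one, one_mul, exp_log hn] at hn2
  have : Nonempty (Fin n) := ⟨⟨0, hn1⟩⟩
  have : Nonempty (Fin M) := ⟨⟨0, hM⟩⟩
  have hw : ∀ c : ℝ, 0 ≤ c → c ≤ 2 → IsP fun _ : Tr (Fin n) => bern (c * log n / n) :=
    fun c h0 h2 => isP_bern (fun _ => by positivity) fun _ => by rw [div_le_one hn]; nlinarith
  have hb := hw (199 / 100) (by norm_num) (by norm_num)
  have ha := hw (1 / 1000) (by norm_num) (by norm_num)
  have hv := hw (4 / 1000) (by norm_num) (by norm_num)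
  have hu := (pm_unif (Fin M)).isP (Tr (Fin n))
  have hy : IsP fun _ : Tr (Fin n) => wy (log n) n M := (ha.pair hv).pair hu
  have hW := hb.pair hy
  obtain ⟨τ, τ1, τ2⟩ := exists_tau (V := Fin n) (log n) M m₂
  unfold Core at hC
  simp only [Fintype.card_fin] at hC
  let t₀ : Tr (Fin n) := Classical.arbitrary _
  refine ⟨M + 1, fun k => ∑ c : Bool × (Bool × Bool) × Fin M,
    bern (199 / 100 * log n / n) c.1 * wy (log n) n M c.2 * ind (tm c = k),
    ⟨fun k => sum_nonneg fun c _ => mul_nonneg (hW.nonneg t₀ c) (ind_nonneg _), ?_⟩, ?_⟩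
  · rw [sum_comm, ← hW.sum t₀]
    refine sum_congr rfl fun c _ => ?_
    rw [← mul_sum, show ∑ k, ind (tm c = k) = 1 from
      (ct_congr fun _ => eq_comm).trans (ct_eq (tm c)), mul_one]
  rw [Ex_map _ _ (fun _ => tm) (fun _ _ => rfl), Ex_pair (fun _ => bern (199 / 100 * log n / n))
    (fun _ => wy (log n) n M)]
  refine le_trans (Ex_mono hb.nonneg (G := fun b => Ex (fun _ => wy (log n) n M) (fun y =>
    ind (¬ Typ (log n) m₂ fun t => (b t, y t))) + (ind (¬ ∀ τ, RS b (log n) τ →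
      Ex (fun _ : Tr (Fin n) => bern (1 / 1000 * log n / n)) (fun a =>
        Ex (fun _ : Tr (Fin n) => bern (4 / 1000 * log n / n)) (fun w =>
          ind (¬ ∃ F : Finset (Tr (Fin n)), (∀ t ∈ F, a t = true ∨ b t = true ∨ w t = true) ∧
            Dec F fun e => ¬ Cv τ e))) ≤ ε / 3) + ε / 3)) fun b => ?_)
    (by rw [Ex_add, Ex_add, Ex_const hb]; linarith)
  rw [Ex_splice hy fun t => ∃ k, Low (log n) b (ed k t),
    Ex_splice hy (fun t => ∃ k, Low (log n) b (ed k t))
      fun y => ind (¬ Typ (log n) m₂ fun t => (b t, y t)), ← Ex_const hy (_ + ε / 3), ← Ex_add]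
  refine Ex_mono hy.nonneg fun y => ?_
  refine le_trans (Ex_mono hy.nonneg (G := fun y' => ind (¬ Typ (log n) m₂ fun t =>
    (b t, splice (fun t => ∃ k, Low (log n) b (ed k t)) y y' t)) + ind (RS b (log n) (τ b y)) *
      ind (¬ ∃ F : Finset (Tr (Fin n)), (∀ t ∈ F, (y' t).1.1 = true ∨ b t = true ∨
        (y' t).1.2 = true) ∧ Dec F fun e => ¬ Cv (τ b y) e)) fun y' => ?_) ?_
  · rw [← ind_and]
    refine le_trans (ind_mono fun hG => ?_) (ind_or_le _ _)
    refine or_iff_not_imp_left.2 fun hT => ?_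
    obtain ⟨h1, h2⟩ := τ2 b _ (not_not.1 hT)
    rw [τ1 b (splice (fun t => ∃ k, Low (log n) b (ed k t)) y y') y fun t ht => if_pos ht] at h1 h2
    refine ⟨h1, fun ⟨F, f1, f2⟩ => hG (h2 F (fun t ht => ?_) f2)⟩
    rw [show splice (fun t => ∃ k, Low (log n) b (ed k t)) y y' t = y' t from
      if_neg fun ⟨k, hk⟩ => (f2.2 _).1 (cv_ed ht k) (h1.2.1 _ hk)]
    exact f1 t ht
  rw [Ex_add, Ex_smul]
  refine add_le_add_right ?_ _
  by_cases hR : RS b (log n) (τ b y)
  swap
  · rw [ind_neg hR, zero_mul]; exact add_nonneg (ind_nonneg _) hε3.le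
  rw [ind_pos hR, one_mul]
  refine le_trans (le_of_eq ((Ex_pair (fun _ (c : Bool × Bool) => bern (1 / 1000 * log n / n) c.1 *
    bern (4 / 1000 * log n / n) c.2) (fun _ => unif (Fin M)) _).trans ?_))
    (show Ex (fun _ : Tr (Fin n) => bern (1 / 1000 * log n / n)) (fun a =>
      Ex (fun _ : Tr (Fin n) => bern (4 / 1000 * log n / n)) (fun w =>
        ind (¬ ∃ F : Finset (Tr (Fin n)), (∀ t ∈ F, a t = true ∨ b t = true ∨ w t = true) ∧
          Dec F fun e => ¬ Cv (τ b y) e))) ≤ _ from ?_)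
  · simp only [Ex_const hu]
    exact Ex_pair _ _ _
  · refine le_of_not_gt fun hlt => ?_
    have h1 := (le_add_of_nonneg_left (ind_nonneg _)).trans_lt hlt
    rw [ind_pos fun h => absurd (h _ hR) (not_le.2 h1)] at hlt
    exact absurd (Ex_le ha fun a => Ex_le hv fun w => ind_le_one _)
      (not_le.2 ((le_add_of_nonneg_right hε3.le).trans_lt hlt))

end Pool.Agent.MP_46aeaf_co.HT

end
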